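import Pool.Agent.Lib.MP_1d0d1b_gt.ProfA

open Set Function Filter Topology
open scoped ContDiff Real

noncomputable section

namespace Pool.Agent.Lib.MP_1d0d1b_gt

private theorem mem_prod (a b c d x : ℝ) : step a b x * (1 - step c d x) ∈ Icc (0 : ℝ) 1 :=
  ⟨mul_nonneg (step_nonneg a b x) (sub_nonneg.2 (step_le_one c d x)),
    mul_le_one₀ (step_le_one a b x) (sub_nonneg.2 (step_le_one c d x))
      (sub_le_self _ (step_nonneg c d x))⟩

theorem χX_contDiff : ContDiff ℝ ∞ χX :=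
  (step_contDiff _ _).mul (contDiff_const.sub (step_contDiff _ _))
theorem χX_mem (x : ℝ) : χX x ∈ Icc (0 : ℝ) 1 := mem_prod _ _ _ _ x
theorem χX_eq_one {x : ℝ} (h : x ∈ Icc (-58 / 100 : ℝ) (-5 / 100)) : χX x = 1 := by
  rw [χX, step_of_ge (by norm_num) h.1, step_of_le (by norm_num) h.2, sub_zero, one_mul]
theorem χX_eq_zero {x : ℝ} (h : x ≤ -6 / 10 ∨ -3 / 100 ≤ x) : χX x = 0 := by
  rcases h with h | h
  · rw [χX, step_of_le (by norm_num) h, zero_mul]
  · rw [χX, step_of_ge (a := -5 / 100) (by norm_num) h, sub_self, mul_zero]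
theorem χh_contDiff : ContDiff ℝ ∞ χh :=
  (step_contDiff _ _).mul (contDiff_const.sub (step_contDiff _ _))
theorem χh_mem (h : ℝ) : χh h ∈ Icc (0 : ℝ) 1 := mem_prod _ _ _ _ h
theorem χh_eq_one {h : ℝ} (hh : h ∈ Icc (-55 / 100 : ℝ) 0) : χh h = 1 := by
  rw [χh, step_of_ge (by norm_num) hh.1, step_of_le (by norm_num) hh.2, sub_zero, one_mul]
theorem χh_eq_zero_iff (h : ℝ) : χh h = 0 ↔ h ≤ -6 / 10 ∨ 1 / 10 ≤ h := by
  constructor
  · intro h0
    by_contra hn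
    push Not at hn
    exact (mul_pos (step_pos (by norm_num) hn.1)
      (sub_pos.2 (step_lt_one (by norm_num) hn.2))).ne' h0
  · rintro (h0 | h0)
    · rw [χh, step_of_le (by norm_num) h0, zero_mul]
    · rw [χh, step_of_ge (a := 0) (by norm_num) h0, sub_self, mul_zero]
theorem χh_eq_half_iff {h : ℝ} (hh : -55 / 100 ≤ h) : χh h = 1 / 2 ↔ h = 1 / 20 := by
  have h1 := step_eq_half_iff (a := 0) (b := 1 / 10) (by norm_num) h
  rw [χh, step_of_ge (by norm_num) hh, one_mul]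
  constructor
  · intro h2
    linarith [h1.1 (by linarith)]
  · intro h2
    linarith [h1.2 (by linarith)]
theorem χh_deriv_neg {h : ℝ} (h0 : 0 < h) (h1 : h < 1 / 10) : deriv χh h < 0 := by
  have h2 := (step_hasDerivAt (-6 / 10) (-55 / 100) h).mul
    ((step_hasDerivAt 0 (1 / 10) h).const_sub 1)
  have h3 : deriv χh h = _ := h2.deriv
  rw [h3, step_deriv_of_ge (by norm_num) (by linarith),
    step_of_ge (a := -6 / 10) (by norm_num) (by linarith)]
  linarith [step_deriv_pos h0 h1]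

private theorem sq_pos' (v : ℝ) : 0 < 1 + v ^ 2 := by positivity

theorem S1_contDiff : ContDiff ℝ ∞ S1 := by
  unfold S1
  refine contDiff_const.add (contDiff_const.mul (ContDiff.div (by fun_prop)
    (ContDiff.sqrt (by fun_prop) fun u => (sq_pos' _).ne') fun u => ?_))
  exact (Real.sqrt_pos.2 (sq_pos' _)).ne'
theorem S1_zero : S1 0 = -1 / 2 := by
  have : √(1 + (20 * (0 : ℝ) - 3 / 4) ^ 2) = 5 / 4 := by
    rw [Real.sqrt_eq_iff_mul_self_eq (by norm_num) (by norm_num)]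
    norm_num
  rw [S1, this]
  norm_num
theorem S1_deriv_pos (u : ℝ) : 0 < deriv S1 u := by
  have h0 := sq_pos' (20 * u - 3 / 4)
  have h1 := Real.sqrt_pos.2 h0
  have h2 := Real.sq_sqrt h0.le
  have hv : HasDerivAt (fun u : ℝ => 20 * u - 3 / 4) 20 u := by
    simpa using ((hasDerivAt_id u).const_mul 20).sub_const (3 / 4)
  have h3 := ((hv.div ((hv.pow 2).const_add 1 |>.sqrt h0.ne') h1.ne').const_mul (2 / 5)).const_add
    (-26 / 100)
  have h4 : deriv S1 u = _ := h3.deriv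
  rw [h4]
  simp only [Pi.pow_apply]
  generalize √(1 + (20 * u - 3 / 4) ^ 2) = s at *
  generalize 20 * u - 3 / 4 = v at *
  refine mul_pos (by norm_num) (div_pos ?_ (pow_pos h1 2))
  rw [sub_pos, ← mul_div_assoc, div_lt_iff₀ (by positivity)]
  norm_num
  nlinarith
theorem S1_strictMono : StrictMono S1 := strictMono_of_deriv_pos S1_deriv_pos
theorem S1_mem (u : ℝ) : S1 u ∈ Ioo (-66 / 100 : ℝ) (14 / 100) := by
  have h0 := sq_pos' (20 * u - 3 / 4)
  have h1 := Real.sqrt_pos.2 h0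
  have h2 : |20 * u - 3 / 4| < √(1 + (20 * u - 3 / 4) ^ 2) := Real.lt_sqrt_of_sq_lt (by
    rw [sq_abs]; linarith)
  have h3 := (div_lt_one h1).2 (abs_lt.1 h2).2
  have h4 : -1 < (20 * u - 3 / 4) / √(1 + (20 * u - 3 / 4) ^ 2) := by
    rw [lt_div_iff₀ h1]
    linarith [(abs_lt.1 h2).1]
  constructor <;> unfold S1 <;> linarith
theorem S1_lt {u : ℝ} (h : u ≤ -1 / 10) : S1 u < -6 / 10 := by
  refine (S1_strictMono.monotone h).trans_lt ?_
  have h1 := Real.sqrt_pos.2 (sq_pos' (20 * (-1 / 10) - 3 / 4))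
  have h2 : √(1 + (20 * (-1 / 10 : ℝ) - 3 / 4) ^ 2) < 3 :=
    (Real.sqrt_lt' (by norm_num)).2 (by norm_num)
  have h3 : (20 * (-1 / 10 : ℝ) - 3 / 4) / √(1 + (20 * (-1 / 10 : ℝ) - 3 / 4) ^ 2) < -9 / 10 := by
    rw [div_lt_iff₀ h1]
    linarith
  unfold S1
  linarith
theorem lt_S1 {u : ℝ} (h : 1 / 10 ≤ u) : -3 / 100 < S1 u := by
  refine lt_of_lt_of_le ?_ (S1_strictMono.monotone h)
  have h1 := Real.sqrt_pos.2 (sq_pos' (20 * (1 / 10) - 3 / 4))
  have h2 : √(1 + (20 * (1 / 10 : ℝ) - 3 / 4) ^ 2) < 2 :=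
    (Real.sqrt_lt' (by norm_num)).2 (by norm_num)
  have h3 : 6 / 10 < (20 * (1 / 10 : ℝ) - 3 / 4) / √(1 + (20 * (1 / 10 : ℝ) - 3 / 4) ^ 2) := by
    rw [lt_div_iff₀ h1]
    linarith
  unfold S1
  linarith

end Pool.Agent.Lib.MP_1d0d1b_gt
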