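import Pool.Agent.Lib.MP_1d0d1b_gt.ProfB

open Set Function Filter Topology
open scoped ContDiff Real

noncomputable section

namespace Pool.Agent.Lib.MP_1d0d1b_gt

theorem circ_re (t : ℝ) : (circ t).re = Real.cos t := Complex.exp_ofReal_mul_I_re t
theorem circ_im (t : ℝ) : (circ t).im = Real.sin t := Complex.exp_ofReal_mul_I_im t
theorem norm_circ (t : ℝ) : ‖circ t‖ = 1 := Complex.norm_exp_ofReal_mul_I t
theorem circ_zero : circ 0 = 1 := by simp [circ]
theorem circ_pi : circ π = -1 := Complex.exp_pi_mul_I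
theorem circ_add (s t : ℝ) : circ (s + t) = circ s * circ t := by
  simp only [circ, Complex.ofReal_add, add_mul, Complex.exp_add]
theorem circ_neg (t : ℝ) : circ (-t) = (starRingEnd ℂ) (circ t) := by
  simp [circ, ← Complex.exp_conj]
theorem circ_eq_iff (s t : ℝ) : circ s = circ t ↔ ∃ k : ℤ, t = s + k * (2 * π) := by
  rw [eq_comm, circ, circ, Complex.exp_eq_exp_iff_exists_int]
  refine exists_congr fun k => ⟨fun h => ?_, fun h => ?_⟩
  · simpa using congrArg Complex.im h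
  · rw [h]
    push_cast
    ring
theorem circ_add_int (t : ℝ) (k : ℤ) : circ (t + k * (2 * π)) = circ t :=
  ((circ_eq_iff _ _).2 ⟨k, rfl⟩).symm
theorem circ_contDiff : ContDiff ℝ ∞ circ :=
  (Complex.ofRealCLM.contDiff.mul contDiff_const).cexp
theorem circ_hasDerivAt (t : ℝ) : HasDerivAt circ (Complex.I * circ t) t := by
  have h := ((hasDerivAt_id (t : ℂ)).mul_const Complex.I).cexp.comp_ofReal
  rw [one_mul, mul_comm] at h
  exact h
theorem exists_circ {z : ℂ} (h : ‖z‖ = 1) : ∃ t, circ t = z :=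
  ⟨z.arg, by simpa [circ, h] using Complex.norm_mul_exp_arg_mul_I z⟩
theorem circ_mem_Semi {t : ℝ} (h : t ∈ Icc (0 : ℝ) π) : circ t ∈ Semi :=
  ⟨norm_circ t, by rw [circ_im]; exact Real.sin_nonneg_of_mem_Icc h⟩
theorem circ_arccos {z : ℂ} (h : z ∈ Semi) : circ (Real.arccos z.re) = z := by
  have h1 : |z.re| ≤ 1 := (Complex.abs_re_le_norm z).trans h.1.le
  have h2 : z.re ^ 2 + z.im ^ 2 = 1 := by
    have := Complex.sq_norm z
    rw [h.1, Complex.normSq_apply] at this
    linarith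
  refine Complex.ext ?_ ?_
  · rw [circ_re, Real.cos_arccos (abs_le.1 h1).1 (abs_le.1 h1).2]
  · rw [circ_im, Real.sin_arccos, show 1 - z.re ^ 2 = z.im ^ 2 by linarith, Real.sqrt_sq h.2]
theorem arccos_circ {t : ℝ} (h : t ∈ Icc (0 : ℝ) π) : Real.arccos (circ t).re = t := by
  rw [circ_re, Real.arccos_cos h.1 h.2]

theorem isCompact_Disc : IsCompact Disc := by
  have : Disc = Metric.closedBall (0 : ℂ) 1 := by
    ext z
    simp [Disc]
  exact this ▸ isCompact_closedBall 0 1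
theorem isCompact_Half : IsCompact Half :=
  isCompact_Disc.inter_right (isClosed_le continuous_const Complex.continuous_im)
theorem isCompact_Diam : IsCompact Diam :=
  isCompact_Disc.inter_right (isClosed_eq Complex.continuous_im continuous_const)
theorem isCompact_Semi : IsCompact Semi :=
  isCompact_Disc.of_isClosed_subset ((isClosed_eq continuous_norm continuous_const).inter
    (isClosed_le continuous_const Complex.continuous_im)) fun _ h => h.1.le
theorem isOpen_oDisc : IsOpen oDisc := isOpen_lt continuous_norm continuous_const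
theorem isOpen_oHalf : IsOpen oHalf :=
  isOpen_oDisc.inter (isOpen_lt continuous_const Complex.continuous_im)
theorem oHalf_subset : oHalf ⊆ Half := fun _ h => ⟨h.1.le, h.2.le⟩
theorem oDisc_subset : oDisc ⊆ Disc := fun z h => le_of_lt (show ‖z‖ < 1 from h)
theorem Diam_subset : Diam ⊆ Half := fun _ h => ⟨h.1, h.2.ge⟩
theorem Semi_subset : Semi ⊆ Half := fun _ h => ⟨h.1.le, h.2⟩
theorem Half_cases {z : ℂ} (h : z ∈ Half) : z ∈ oHalf ∨ z ∈ Diam ∨ z ∈ Semi := by
  rcases h.1.eq_or_lt with h1 | h1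
  · exact Or.inr (Or.inr ⟨h1, h.2⟩)
  · rcases h.2.eq_or_lt with h2 | h2
    · exact Or.inr (Or.inl ⟨h.1, h2.symm⟩)
    · exact Or.inl ⟨h1, h2⟩
theorem ofReal_mem_Diam {x : ℝ} (h : |x| ≤ 1) : (x : ℂ) ∈ Diam :=
  ⟨by rwa [Complex.norm_real, Real.norm_eq_abs], Complex.ofReal_im x⟩
theorem Diam_eq {z : ℂ} (h : z ∈ Diam) : z = (z.re : ℂ) ∧ |z.re| ≤ 1 :=
  ⟨Complex.ext (Complex.ofReal_re _).symm h.2, (Complex.abs_re_le_norm z).trans h.1⟩

/-- A smooth function that is constant near both ends of `[0,1]` gives a smooth periodic map. -/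
theorem contDiff_comp_fract {X : Type*} [NormedAddCommGroup X] [NormedSpace ℝ X] {F : ℝ → X}
    (hF : ContDiff ℝ ∞ F) {ε : ℝ} (hε : 0 < ε) {c : X} (h0 : ∀ x ≤ ε, F x = c)
    (h1 : ∀ x ≥ 1 - ε, F x = c) : ContDiff ℝ ∞ (fun x => F (Int.fract x)) := by
  refine contDiff_iff_contDiffAt.2 fun x => ?_
  have hm : 0 < min ε 1 := lt_min hε one_pos
  have hx := Int.floor_le x
  have hx' := Int.lt_floor_add_one x
  refine ((hF.comp (contDiff_id.sub (contDiff_const (c := (⌊x⌋ : ℝ))))).contDiffAt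
    (x := x)).congr_of_eventuallyEq ?_
  filter_upwards [Ioo_mem_nhds (show (⌊x⌋ : ℝ) - min ε 1 < x by linarith) hx'] with y hy
  rcases le_or_gt (⌊x⌋ : ℝ) y with h | h
  · rw [Int.fract, Int.floor_eq_iff.2 ⟨h, hy.2⟩]
    rfl
  · have h2 : ⌊y⌋ = ⌊x⌋ - 1 := Int.floor_eq_iff.2 (by
      push_cast
      exact ⟨by linarith [hy.1, min_le_right ε 1], by linarith⟩)
    rw [Int.fract, h2, h1 _ (by push_cast; linarith [hy.1, min_le_left ε 1])]
    exact (h0 _ (by simp only [id]; linarith)).symm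

theorem contDiff_comp_norm {X : Type*} [NormedAddCommGroup X] [NormedSpace ℝ X] {F : ℝ → X}
    (hF : ContDiff ℝ ∞ F) {ε : ℝ} (hε : 0 < ε) {c : X} (h0 : ∀ x ≤ ε, F x = c) :
    ContDiff ℝ ∞ (fun ξ : ℂ => F ‖ξ‖) := by
  refine contDiff_iff_contDiffAt.2 fun x => ?_
  by_cases hx : x = 0
  · refine (contDiffAt_const (c := c)).congr_of_eventuallyEq ?_
    filter_upwards [Metric.ball_mem_nhds x hε] with y hy
    rw [hx, mem_ball_zero_iff] at hy
    exact h0 _ hy.le
  · exact hF.contDiffAt.comp x (contDiffAt_norm ℝ hx)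

theorem tan_le {x : ℝ} (h0 : 0 ≤ x) (h1 : x ≤ 1 / 2) : Real.tan x ≤ 6 / 5 * x := by
  have h2 := Real.one_sub_sq_div_two_le_cos (x := x)
  have h3 : 5 / 6 ≤ Real.cos x := by nlinarith
  rw [Real.tan_eq_sin_div_cos, div_le_iff₀ (by linarith)]
  nlinarith [Real.sin_le h0]

theorem tan_le' {x : ℝ} (h0 : 0 ≤ x) (h1 : x ≤ 1 / 10) : Real.tan x ≤ 101 / 100 * x := by
  have h2 := Real.one_sub_sq_div_two_le_cos (x := x)
  have h3 : 100 / 101 ≤ Real.cos x := by nlinarith
  rw [Real.tan_eq_sin_div_cos, div_le_iff₀ (by linarith)]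
  nlinarith [Real.sin_le h0]

end Pool.Agent.Lib.MP_1d0d1b_gt
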