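import Pool.Agent.Lib.MP_1d0d1b_gt.TopA
import Pool.Agent.Lib.MP_1d0d1b_gt.Prof

open Set Function Filter Topology
open scoped ContDiff Real

noncomputable section

namespace Pool.Agent.Lib.MP_1d0d1b_gt

variable {X E : Type*} [NormedAddCommGroup X] [NormedSpace ℝ X] [FiniteDimensional ℝ X]
  [NormedAddCommGroup E] [NormedSpace ℝ E]

theorem Lift_bump {K U : Set X} (hK : IsCompact K) (hU : IsOpen U) (hKU : K ⊆ U) :
    ∃ χ : X → ℝ, ContDiff ℝ ∞ χ ∧ (∀ x, χ x ∈ Icc (0 : ℝ) 1) ∧ (∀ᶠ x in 𝓝ˢ K, χ x = 1) ∧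
      IsCompact (tsupport χ) ∧ tsupport χ ⊆ U := by
  have := FiniteDimensional.proper_real X
  obtain ⟨L, l1, l2, l3⟩ := exists_compact_between hK hU hKU
  obtain ⟨χ, c1, c2, c3⟩ := exists_contMDiffMap_one_nhds_of_subset_interior (n := ⊤)
    (modelWithCornersSelf ℝ X) hK.isClosed l2
  have h : tsupport χ ⊆ L := closure_minimal (fun x hx => by_contra fun g => hx (c2 x g))
    l1.isClosed
  exact ⟨χ, χ.contMDiff.contDiff, c3, c1, l1.of_isClosed_subset (isClosed_tsupport _) h,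
    h.trans l3⟩

/-- A map smooth near a compact set agrees near it with a globally smooth map. -/
theorem globalize {f : X → E} {K U : Set X} (hK : IsCompact K) (hU : IsOpen U) (hKU : K ⊆ U)
    (hf : ContDiffOn ℝ ∞ f U) : ∃ g : X → E, ContDiff ℝ ∞ g ∧ ∀ᶠ x in 𝓝ˢ K, g x = f x := by
  obtain ⟨χ, c1, -, c2, -, c3⟩ := Lift_bump hK hU hKU
  refine ⟨fun x => χ x • f x, contDiff_iff_contDiffAt.2 fun x => ?_,
    c2.mono fun x hx => by simp only [hx, one_smul]⟩
  by_cases hx : x ∈ tsupport χ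
  · exact c1.contDiffAt.smul (hf.contDiffAt (hU.mem_nhds (c3 hx)))
  · refine (contDiffAt_const (c := (0 : E))).congr_of_eventuallyEq ?_
    filter_upwards [notMem_tsupport_iff_eventuallyEq.1 hx] with y hy
    rw [hy, Pi.zero_apply, zero_smul]

/-- A smooth bump: `1` near the compact set `K`, compact support inside the open set `U`. -/
theorem exists_bump {K U : Set X} (hK : IsCompact K) (hU : IsOpen U) (hKU : K ⊆ U) :
    ∃ χ : X → ℝ, ContDiff ℝ ∞ χ ∧ (∀ x, χ x ∈ Icc (0 : ℝ) 1) ∧ (∀ᶠ x in 𝓝ˢ K, χ x = 1) ∧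
      IsCompact (tsupport χ) ∧ tsupport χ ⊆ U := Lift_bump hK hU hKU

/-- Smooth lifting through an embedded disc. -/
theorem lift_disc {f : ℂ → E4} (hf : ContDiff ℝ ∞ f) (hi : InjOn f Disc)
    (hd : ∀ z ∈ Disc, Injective (fderiv ℝ f z)) {g : X → E4} (hg : ContDiff ℝ ∞ g)
    {K : Set X} (hK : IsCompact K) (hm : ∀ x ∈ K, ∀ᶠ x' in 𝓝 x, g x' ∈ f '' oDisc) :
    ∃ α : X → ℂ, ContDiff ℝ ∞ α ∧ (∀ x ∈ K, α x ∈ oDisc) ∧
      ∀ x ∈ K, ∀ᶠ x' in 𝓝 x, g x' = f (α x') := by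
  have sub : oDisc ⊆ Disc := fun z (hz : ‖z‖ < 1) => hz.le
  have cD : IsCompact Disc := by
    convert isCompact_closedBall (0 : ℂ) 1
    ext z
    simp [Disc]
  have key : ∀ x, (∀ᶠ x' in 𝓝 x, g x' ∈ f '' oDisc) → ∀ᶠ x' in 𝓝 x,
      invFunOn f oDisc (g x') ∈ oDisc ∧ f (invFunOn f oDisc (g x')) = g x' := fun x hx =>
    hx.mono fun x' h => invFunOn_pos h
  have sm : ∀ x, (∀ᶠ x' in 𝓝 x, g x' ∈ f '' oDisc) →
      ContDiffAt ℝ ∞ (fun x' => invFunOn f oDisc (g x')) x := by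
    intro x hx
    have k := key x hx
    obtain ⟨k1, k2⟩ := k.self_of_nhds
    have ct : Tendsto (fun x' => invFunOn f oDisc (g x')) (𝓝 x) (𝓝 (invFunOn f oDisc (g x))) := by
      refine cD.tendsto_nhds_of_unique_mapClusterPt (k.mono fun _ h => sub h.1) fun z hz h => ?_
      have h1 := h.continuousAt_comp hf.continuous.continuousAt
      have h2 : Tendsto (f ∘ fun x' => invFunOn f oDisc (g x')) (𝓝 x) (𝓝 (g x)) :=
        hg.continuous.continuousAt.tendsto.congr' (k.mono fun _ h => h.2.symm)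
      exact hi hz (sub k1) ((eq_of_nhds_neBot (ClusterPt.mono h1 h2)).trans k2.symm)
    generalize invFunOn f oDisc (g x) = z at k1 k2 ct
    obtain ⟨P, hP⟩ := (fderiv ℝ f z).toLinearMap.exists_leftInverse_of_injective
      (LinearMap.ker_eq_bot.2 (hd z (sub k1)))
    have d1 : ContDiffAt ℝ ∞ (fun w => P.toContinuousLinearMap (f w)) z :=
      P.toContinuousLinearMap.contDiff.contDiffAt.comp z hf.contDiffAt
    have d2 : HasFDerivAt (fun w => P.toContinuousLinearMap (f w))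
        ((ContinuousLinearEquiv.refl ℝ ℂ : ℂ ≃L[ℝ] ℂ) : ℂ →L[ℝ] ℂ) z :=
      (P.toContinuousLinearMap.hasFDerivAt.comp z
        (hf.differentiable (by simp) z).hasFDerivAt).congr_fderiv
          (ContinuousLinearMap.ext fun v => LinearMap.congr_fun hP v)
    have d3 := d1.to_localInverse d2 (by simp)
    have d4 : ∀ᶠ w in 𝓝 z, d1.localInverse d2 (by simp) (P.toContinuousLinearMap (f w)) = w :=
      (d1.hasStrictFDerivAt' d2 (by simp)).eventually_left_inverse
    rw [k2] at d3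
    refine (d3.comp x (P.toContinuousLinearMap.contDiff.contDiffAt.comp x
      hg.contDiffAt)).congr_of_eventuallyEq ?_
    filter_upwards [k, ct.eventually d4] with x' h1 h2
    rw [h1.2] at h2
    exact h2.symm
  obtain ⟨α, a1, a2⟩ := globalize hK isOpen_setOfPred_eventually_nhds hm
    fun x hx => (sm x hx).contDiffWithinAt
  refine ⟨α, a1, fun x hx => ?_, fun x hx => ?_⟩
  · rw [a2.self_of_nhdsSet x hx]
    exact (key x (hm x hx)).self_of_nhds.1
  · filter_upwards [key x (hm x hx), a2.filter_mono (nhds_le_nhdsSet hx)] with x' h1 h2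
    rw [h2, h1.2]

end Pool.Agent.Lib.MP_1d0d1b_gt
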