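import Pool.Agent.Lib.MP_1d0d1b_gt.TopA
import Pool.Agent.Lib.MP_1d0d1b_gt.Prof

open Set Function Filter Topology
open scoped ContDiff Real

noncomputable section

namespace Pool.Agent.Lib.MP_1d0d1b_gt

theorem Polar_decomp (M : ℂ →L[ℝ] ℂ) (ξ : ℂ) : M ξ = ξ.re • M 1 + ξ.im • M Complex.I := by
  rw [← map_smul, ← map_smul, ← map_add]
  congr 1
  simp

theorem inj_of_M {M : ℂ →L[ℝ] ℂ} (h1 : (M 1).im = 0) (h2 : M 1 ≠ 0)
    (h3 : 0 < (M Complex.I).im) : Injective M := by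
  rw [injective_iff_map_eq_zero]
  intro ξ h
  rw [Polar_decomp] at h
  have h4 := congrArg Complex.im h
  rw [Complex.add_im, Complex.smul_im, Complex.smul_im, h1, smul_zero, zero_add, smul_eq_mul,
    Complex.zero_im] at h4
  have h5 : ξ.im = 0 := (mul_eq_zero.1 h4).resolve_right h3.ne'
  rw [h5, zero_smul, add_zero] at h
  exact Complex.ext ((smul_eq_zero.1 h).resolve_right h2) h5

theorem im_M {M : ℂ →L[ℝ] ℂ} (h1 : (M 1).im = 0) (ξ : ℂ) :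
    (M ξ).im = ξ.im * (M Complex.I).im := by
  rw [Polar_decomp, Complex.add_im, Complex.smul_im, Complex.smul_im, h1, smul_zero, zero_add,
    smul_eq_mul]

/-- Polar coordinates around the image of the unit circle. -/
theorem polar_eventually (p : ℂ) {M : ℂ →L[ℝ] ℂ} (hM : Injective M) {ξ₀ : ℂ} (h₀ : ‖ξ₀‖ = 1)
    {Q : ℂ × ℝ → Prop} (hQ : ∀ᶠ q in 𝓝 (ξ₀, (0 : ℝ)), Q q) :
    ∀ᶠ x in 𝓝 (p + M ξ₀), ∃ q : ℂ × ℝ, ‖q.1‖ = 1 ∧ x = p + M ((1 + q.2) • q.1) ∧ Q q := by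
  let e : ℂ ≃L[ℝ] ℂ :=
    (LinearEquiv.ofInjectiveEndo (M : ℂ →ₗ[ℝ] ℂ) hM).toContinuousLinearEquiv
  have he : ∀ x, e x = M x := fun _ => rfl
  have h1 : Tendsto (fun x => e.symm (x - p)) (𝓝 (p + M ξ₀)) (𝓝 ξ₀) :=
    Continuous.tendsto' (by fun_prop) _ _ (by rw [add_sub_cancel_left, ← he, e.symm_apply_apply])
  have hne : ξ₀ ≠ 0 := by rintro rfl; simp at h₀
  have h2 : Tendsto (fun w : ℂ => (‖w‖⁻¹ • w, ‖w‖ - 1)) (𝓝 ξ₀) (𝓝 (ξ₀, 0)) := by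
    have h3 : ContinuousAt (fun w : ℂ => (‖w‖⁻¹ • w, ‖w‖ - 1)) ξ₀ :=
      ((continuous_norm.continuousAt.inv₀ (norm_ne_zero_iff.2 hne)).smul continuousAt_id).prodMk
        (by fun_prop)
    simpa only [ContinuousAt, h₀, inv_one, one_smul, sub_self] using h3
  filter_upwards [(h2.comp h1).eventually hQ, h1.eventually (eventually_ne_nhds hne)] with x hx hx0
  have h4 := norm_ne_zero_iff.2 hx0
  refine ⟨_, ?_, ?_, hx⟩
  · simp only [comp_apply]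
    rw [norm_smul, norm_inv, norm_norm, inv_mul_cancel₀ h4]
  · simp only [comp_apply]
    rw [add_sub_cancel, smul_smul, mul_inv_cancel₀ h4, one_smul, ← he, e.apply_symm_apply,
      add_sub_cancel]

theorem Polar_open {G : ℂ × ℂ → E4} {f : ℂ → E4} {α : ℝ × ℝ → ℂ} {κ : ℝ × ℝ → ℂ × ℂ}
    (hG : ContDiff ℝ ∞ G) (hf : ContDiff ℝ ∞ f) (hα : ContDiff ℝ ∞ α) {q₀ : ℝ × ℝ}
    {κ' : ℝ × ℝ →L[ℝ] ℂ × ℂ} (hκ : HasFDerivAt κ κ' q₀) (hκ' : Injective κ')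
    (hi : Injective (fderiv ℝ G (κ q₀))) (he : ∀ᶠ q : ℝ × ℝ in 𝓝 q₀, G (κ q) = f (α q))
    {Q : ℝ × ℝ → Prop} (hQ : ∀ᶠ q in 𝓝 q₀, Q q) :
    ∀ᶠ z in 𝓝 (α q₀), ∃ q, z = α q ∧ Q q := by
  have h1 := ((hG.differentiable (by simp)) (κ q₀)).hasFDerivAt.comp q₀ hκ
  have h2 := ((hf.differentiable (by simp)) (α q₀)).hasFDerivAt.comp q₀
    ((hα.differentiable (by simp)) q₀).hasFDerivAt
  have h3 := (h2.congr_of_eventuallyEq he).unique h1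
  have h4 : Injective (fderiv ℝ α q₀) := by
    have h5 : Injective ((fderiv ℝ G (κ q₀)).comp κ') := hi.comp hκ'
    rw [← h3] at h5
    exact Injective.of_comp h5
  have h6 : Surjective (fderiv ℝ α q₀) :=
    (LinearMap.injective_iff_surjective_of_finrank_eq_finrank
      (f := (fderiv ℝ α q₀ : ℝ × ℝ →ₗ[ℝ] ℂ)) (by simp)).1 h4
  filter_upwards [eventually_exists_of_bij (hα.contDiffAt.of_le (by simp)) ⟨h4, h6⟩ hQ]
  rintro z ⟨q, rfl, hq⟩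
  exact ⟨q, rfl, hq⟩

/-- The arc parametrisation `α` is open. -/
theorem alpha_eventually {F : ℂ × ℂ → E4} {f : ℂ → E4} {α : ℝ × ℝ → ℂ} (hF : ContDiff ℝ ∞ F)
    (hf : ContDiff ℝ ∞ f) (hα : ContDiff ℝ ∞ α) {q₀ : ℝ × ℝ}
    (hi : Injective (fderiv ℝ F ((q₀.1 : ℂ), (q₀.2 : ℂ))))
    (he : ∀ᶠ q : ℝ × ℝ in 𝓝 q₀, F ((q.1 : ℂ), (q.2 : ℂ)) = f (α q))
    {Q : ℝ × ℝ → Prop} (hQ : ∀ᶠ q in 𝓝 q₀, Q q) :
    ∀ᶠ z in 𝓝 (α q₀), ∃ q, z = α q ∧ Q q := 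
  Polar_open (κ := fun q => ((q.1 : ℂ), (q.2 : ℂ))) hF hf hα
    (Complex.ofRealCLM.prodMap Complex.ofRealCLM).hasFDerivAt
    (Complex.ofReal_injective.prodMap Complex.ofReal_injective) hi he hQ

theorem gamma_eventually {G : ℂ × ℂ → E4} {f : ℂ → E4} {γ : ℂ × ℝ → ℂ} (hG : ContDiff ℝ ∞ G)
    (hf : ContDiff ℝ ∞ f) (hγ : ContDiff ℝ ∞ γ) {q₀ : ℂ × ℝ} (h₀ : ‖q₀.1‖ = 1)
    (hi : Injective (fderiv ℝ G (q₀.1, (q₀.2 : ℂ))))
    (he : ∀ᶠ q : ℂ × ℝ in 𝓝 q₀, ‖q.1‖ = 1 → G (q.1, (q.2 : ℂ)) = f (γ q))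
    {Q : ℂ × ℝ → Prop} (hQ : ∀ᶠ q in 𝓝 q₀, Q q) :
    ∀ᶠ z in 𝓝 (γ q₀), ∃ q : ℂ × ℝ, ‖q.1‖ = 1 ∧ z = γ q ∧ Q q := by
  let c : ℝ × ℝ → ℂ × ℝ := fun t => (q₀.1 * circ t.1, t.2)
  have hc : ContDiff ℝ ∞ c :=
    (contDiff_const.mul (circ_contDiff.comp contDiff_fst)).prodMk contDiff_snd
  have hc0 : c (0, q₀.2) = q₀ := by simp [c, circ_zero]
  have hn : ∀ t, ‖(c t).1‖ = 1 := fun t => by simp [c, h₀, norm_circ]
  have ht : Tendsto c (𝓝 (0, q₀.2)) (𝓝 q₀) := hc.continuous.tendsto' _ _ hc0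
  have hne : q₀.1 * (Complex.I * circ 0) ≠ 0 := by
    rw [← norm_ne_zero_iff]; simp [h₀, norm_circ]
  have h1 : HasFDerivAt (fun t : ℝ × ℝ => q₀.1 * circ t.1) _ (0, q₀.2) :=
    HasFDerivAt.comp (g := fun x : ℝ => q₀.1 * circ x) (f := Prod.fst) ((0 : ℝ), q₀.2)
      ((circ_hasDerivAt 0).const_mul q₀.1).hasFDerivAt hasFDerivAt_fst
  have h2 : HasFDerivAt (fun t : ℝ × ℝ => (t.2 : ℂ)) _ (0, q₀.2) :=
    (Complex.ofRealCLM.comp (ContinuousLinearMap.snd ℝ ℝ ℝ)).hasFDerivAt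
  have h3 := Polar_open (κ := fun t => ((c t).1, ((c t).2 : ℂ))) hG hf (hγ.comp hc) (h1.prodMk h2)
    (by
      rw [injective_iff_map_eq_zero]
      intro v hv
      have h4 : v.1 • (q₀.1 * (Complex.I * circ 0)) = 0 := congrArg Prod.fst hv
      have h5 : (v.2 : ℂ) = 0 := congrArg Prod.snd hv
      exact Prod.ext ((smul_eq_zero.1 h4).resolve_right hne) (Complex.ofReal_eq_zero.1 h5))
    (by rw [hc0]; exact hi) ((ht.eventually he).mono fun t h => h (hn t)) (ht.eventually hQ)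
  rw [comp_apply, hc0] at h3
  filter_upwards [h3]
  rintro z ⟨t, rfl, h⟩
  exact ⟨c t, hn t, rfl, h⟩

theorem Cay_zero : Cay 0 = 1 := by simp [Cay]

theorem Polar_den {w : ℂ} (h : w ≠ -Complex.I) : Complex.I + w ≠ 0 :=
  fun e => h (by linear_combination e)

theorem Polar_real_ne (x : ℝ) : (x : ℂ) ≠ -Complex.I := fun e => by
  simpa using congrArg Complex.im e

theorem Cay_contDiffAt {w : ℂ} (h : w ≠ -Complex.I) : ContDiffAt ℝ ∞ Cay w := by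
  have : ContDiffAt ℂ ∞ Cay w :=
    (contDiffAt_const.sub contDiffAt_id).div (contDiffAt_const.add contDiffAt_id) (Polar_den h)
  exact this.restrict_scalars ℝ

theorem Cay_hasDerivAt_zero : HasDerivAt Cay (2 * Complex.I) 0 := by
  have h := ((hasDerivAt_id (0 : ℂ)).const_sub Complex.I).div
    ((hasDerivAt_id (0 : ℂ)).const_add Complex.I) (by simp)
  refine HasDerivAt.congr_deriv h ?_
  simp only [id, add_zero, sub_zero, Complex.I_sq]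
  ring

theorem Cay_real_contDiff : ContDiff ℝ ∞ (fun x : ℝ => Cay (x : ℂ)) := 
  contDiff_iff_contDiffAt.2 fun x =>
    (Cay_contDiffAt (Polar_real_ne x)).comp x Complex.ofRealCLM.contDiff.contDiffAt

theorem norm_Cay_real (x : ℝ) : ‖Cay (x : ℂ)‖ = 1 := by
  rw [Cay, norm_div, div_eq_one_iff_eq (norm_ne_zero_iff.2 (Polar_den (Polar_real_ne x))),
    ← sq_eq_sq₀ (norm_nonneg _) (norm_nonneg _), Complex.sq_norm, Complex.sq_norm]
  simp [Complex.normSq_apply]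

theorem Cay_neg_real (x : ℝ) : Cay ((-x : ℝ) : ℂ) = (starRingEnd ℂ) (Cay (x : ℂ)) := by
  simp only [Cay, map_div₀, map_sub, map_add, Complex.conj_I, Complex.conj_ofReal,
    Complex.ofReal_neg]
  rw [← neg_div_neg_eq]
  congr 1 <;> ring

theorem Cay_inj {w w' : ℂ} (h : w ≠ -Complex.I) (h' : w' ≠ -Complex.I) (he : Cay w = Cay w') :
    w = w' := by
  rw [Cay, Cay, div_eq_div_iff (Polar_den h) (Polar_den h')] at he
  apply mul_left_cancel₀ Complex.I_ne_zero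
  linear_combination (-1 / 2 : ℂ) * he

theorem cay_eventually {Q : ℂ → Prop} (hQ : ∀ᶠ w in 𝓝 (0 : ℂ), Q w) :
    ∀ᶠ ζ in 𝓝 (1 : ℂ), ∃ w, ζ = Cay w ∧ Q w := by
  have h1 : ContinuousAt (fun ζ : ℂ => Complex.I * (1 - ζ) / (1 + ζ)) 1 :=
    ContinuousAt.div (by fun_prop) (by fun_prop) (by norm_num)
  have h2 : Tendsto (fun ζ : ℂ => Complex.I * (1 - ζ) / (1 + ζ)) (𝓝 1) (𝓝 0) := by
    simpa only [ContinuousAt, sub_self, mul_zero, zero_div] using h1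
  have h3 : ∀ᶠ ζ : ℂ in 𝓝 1, 1 + ζ ≠ 0 :=
    ContinuousAt.eventually_ne (g := fun ζ : ℂ => 1 + ζ) (by fun_prop) (by norm_num)
  filter_upwards [h2.eventually hQ, h3] with ζ h h'
  refine ⟨_, ?_, h⟩
  have h4 : Complex.I + Complex.I * (1 - ζ) / (1 + ζ) = 2 * Complex.I / (1 + ζ) := by
    field_simp; ring
  have h5 : Complex.I - Complex.I * (1 - ζ) / (1 + ζ) = ζ * (2 * Complex.I / (1 + ζ)) := by
    field_simp; ring
  rw [Cay, h4, h5, mul_div_cancel_right₀ _ (div_ne_zero (by simp) h')]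

theorem CayR_den {r : ℝ} (hr : 0 < r) {ξ : ℂ} (h : -r < ξ.im) : Complex.I * ξ - r ≠ 0 := fun e => by
  have _ := hr
  have := congrArg Complex.re e
  simp at this
  linarith

theorem Polar_sq (r : ℝ) (ξ : ℂ) :
    ‖Complex.I * ξ + r‖ ^ 2 = ‖Complex.I * ξ - r‖ ^ 2 - 4 * r * ξ.im := by
  rw [Complex.sq_norm, Complex.sq_norm]
  simp [Complex.normSq_apply]
  ring

theorem Polar_im {r : ℝ} (hr : 0 < r) {ξ : ℂ} (h : ξ ∈ Half) : -r < ξ.im := by linarith [h.2]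

theorem CayR_mem {r : ℝ} (hr : 0 < r) {ξ : ℂ} (h : ξ ∈ Half) : CayR r ξ ∈ Disc := by
  change ‖CayR r ξ‖ ≤ 1
  rw [CayR, norm_div, div_le_one (norm_pos_iff.2 (CayR_den hr (Polar_im hr h))),
    ← sq_le_sq₀ (norm_nonneg _) (norm_nonneg _), Polar_sq]
  nlinarith [h.2]

theorem CayR_injOn {r : ℝ} (hr : 0 < r) : InjOn (CayR r) Half := by
  intro ξ h ξ' h' he
  rw [CayR, CayR, div_eq_div_iff (CayR_den hr (Polar_im hr h)) (CayR_den hr (Polar_im hr h'))] at he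
  apply mul_left_cancel₀ (mul_ne_zero Complex.I_ne_zero (Complex.ofReal_ne_zero.2 hr.ne'))
  linear_combination (-1 / 2 : ℂ) * he

theorem Polar_norm {r : ℝ} (hr : 0 < r) {ξ : ℂ} (h : -r < ξ.im) : ‖CayR r ξ‖ = 1 ↔ ξ.im = 0 := by
  rw [CayR, norm_div, div_eq_one_iff_eq (norm_ne_zero_iff.2 (CayR_den hr h)),
    ← sq_eq_sq₀ (norm_nonneg _) (norm_nonneg _), Polar_sq, sub_eq_self, mul_eq_zero,
    or_iff_right (by positivity)]

theorem norm_CayR_eq_one_iff {r : ℝ} (hr : 0 < r) {ξ : ℂ} (h : ξ ∈ Half) :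
    ‖CayR r ξ‖ = 1 ↔ ξ.im = 0 := Polar_norm hr (Polar_im hr h)

theorem norm_CayR_real {r : ℝ} (hr : 0 < r) (x : ℝ) : ‖CayR r (x : ℂ)‖ = 1 := 
  (Polar_norm hr (by simpa using hr)).2 (Complex.ofReal_im x)

theorem CayR_ne_one {r : ℝ} (hr : 0 < r) {ξ : ℂ} (h : ξ ∈ Half) : CayR r ξ ≠ 1 := by
  intro e
  rw [CayR, div_eq_one_iff_eq (CayR_den hr (Polar_im hr h))] at e
  exact Complex.ofReal_ne_zero.2 hr.ne' (by linear_combination (1 / 2 : ℂ) * e)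

theorem CayR_eq_Cay {r : ℝ} (hr : 0 < r) {ξ : ℂ} (h0 : ξ ≠ 0) (h : -r < ξ.im) :
    CayR r ξ = Cay (-(r : ℂ) / ξ) := by
  have _ := CayR_den hr h
  rw [CayR, Cay, ← mul_div_mul_right (Complex.I - -(r : ℂ) / ξ) _ h0]
  congr 1 <;> field_simp <;> ring

theorem CayR_zero {r : ℝ} (hr : 0 < r) : CayR r 0 = -1 := by
  rw [CayR, mul_zero, zero_add, zero_sub, div_neg, div_self (Complex.ofReal_ne_zero.2 hr.ne')]

theorem CayR_contDiffAt {r : ℝ} (hr : 0 < r) {ξ : ℂ} (h : -r < ξ.im) :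
    ContDiffAt ℝ ∞ (CayR r) ξ := by
  have : ContDiffAt ℂ ∞ (CayR r) ξ :=
    ((contDiffAt_const.mul contDiffAt_id).add contDiffAt_const).div
      ((contDiffAt_const.mul contDiffAt_id).sub contDiffAt_const) (CayR_den hr h)
  exact this.restrict_scalars ℝ

theorem CayR_fderiv_bij {r : ℝ} (hr : 0 < r) {ξ : ℂ} (h : -r < ξ.im) :
    Bijective (fderiv ℝ (CayR r) ξ) := by
  have h0 := CayR_den hr h
  have h1 : HasDerivAt (CayR r) (-2 * Complex.I * r / (Complex.I * ξ - r) ^ 2) ξ := by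
    have h2 := (((hasDerivAt_id ξ).const_mul Complex.I).add_const (r : ℂ)).div
      (((hasDerivAt_id ξ).const_mul Complex.I).sub_const (r : ℂ)) h0
    refine HasDerivAt.congr_deriv h2 ?_
    simp only [id]
    ring
  have h3 : -2 * Complex.I * r / (Complex.I * ξ - r) ^ 2 ≠ 0 :=
    div_ne_zero (by simp [hr.ne']) (pow_ne_zero 2 h0)
  rw [(h1.hasFDerivAt.restrictScalars ℝ).fderiv]
  exact mulRight_bijective₀ _ h3

theorem CayR_real_contDiff {r : ℝ} (hr : 0 < r) :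
    ContDiff ℝ ∞ (fun x : ℝ => CayR r (x : ℂ)) := 
  contDiff_iff_contDiffAt.2 fun x =>
    (CayR_contDiffAt hr (by simpa using hr)).comp x Complex.ofRealCLM.contDiff.contDiffAt

theorem CayR_semi_eventually {U : Set ℂ} (hU : U ∈ 𝓝 (1 : ℂ)) :
    ∀ᶠ r in 𝓝[>] (0 : ℝ), ∀ ξ ∈ Semi, CayR r ξ ∈ U := by
  refine Eventually.filter_mono nhdsWithin_le_nhds
    (isCompact_Semi.eventually_forall_of_forall_eventually (P := fun r ξ => CayR r ξ ∈ U)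
      fun ξ hξ => ?_)
  have h0 : ξ ≠ 0 := by rintro rfl; simpa using hξ.1
  have h1 : ContinuousAt (fun z : ℝ × ℂ => CayR z.1 z.2) (0, ξ) :=
    ContinuousAt.div (by fun_prop) (by fun_prop) (by simpa using h0)
  have h2 : CayR 0 ξ = 1 := by simp [CayR, h0]
  exact h1.eventually_mem (by rwa [h2])

end Pool.Agent.Lib.MP_1d0d1b_gt
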