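import Pool.Agent.Lib.MP_1d0d1b_gt.KitDefs
import Pool.Agent.Lib.MP_1d0d1b_gt.Polar
import Pool.Agent.Lib.MP_1d0d1b_gt.Lift

open Set Function Filter Topology
open scoped ContDiff Real

noncomputable section

namespace Pool.Agent.Lib.MP_1d0d1b_gt

theorem bchild_comp {X E : Type*} [NormedAddCommGroup X] [NormedSpace ℝ X] [NormedAddCommGroup E]
    [NormedSpace ℝ E] {F : X → E} {x v : X} (hF : DifferentiableAt ℝ F x) {c : ℝ → X}
    (hc : HasDerivAt c v 0) (h0 : c 0 = x) : HasDerivAt (fun t => F (c t)) (fderiv ℝ F x v) 0 :=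
  hF.hasFDerivAt.comp_hasDerivAt_of_eq 0 hc h0.symm

theorem bchild_diff {X E : Type*} [NormedAddCommGroup X] [NormedSpace ℝ X] [NormedAddCommGroup E]
    [NormedSpace ℝ E] {F : X → E} (hF : ContDiff ℝ ∞ F) (x : X) : DifferentiableAt ℝ F x :=
  hF.differentiable (by simp) x

theorem bchild_lin (x a : ℂ) : HasDerivAt (fun t : ℝ => x + (t : ℂ) * a) a 0 := by
  simpa using ((hasDerivAt_id (0 : ℝ)).ofReal_comp.mul_const a).const_add x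

theorem bchild_linR (x a : ℝ) : HasDerivAt (fun t : ℝ => x + t * a) a 0 := by
  simpa using ((hasDerivAt_id (0 : ℝ)).mul_const a).const_add x

theorem bchild_hh_one (κ : ℝ) : hh κ 1 = 1 := by
  rw [hh_of_le_two κ one_le_two]
  ring

theorem bchild_hh (κ m : ℝ) : HasDerivAt (fun t : ℝ => hh κ ((1 + t * m) ^ 2)) (-(2 * κ * m)) 0 := by
  have h : HasDerivAt (fun t : ℝ => 1 + κ * (1 - (1 + t * m) ^ 2)) (-(2 * κ * m)) 0 :=
    (((((bchild_linR 1 m).fun_pow 2).const_sub 1).const_mul κ).const_add 1).congr_deriv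
      (by simp; ring)
  refine h.congr_of_eventuallyEq ?_
  have hc : Continuous fun t : ℝ => (1 + t * m) ^ 2 := by fun_prop
  filter_upwards [(isOpen_lt hc continuous_const).mem_nhds
    (show (1 + 0 * m) ^ 2 < (2 : ℝ) by norm_num)] with t ht
  exact hh_of_le_two κ (le_of_lt ht)

theorem bchild_re : ContDiff ℝ ∞ fun e : ℂ × ℂ => e.2.re :=
  Complex.reCLM.contDiff.comp contDiff_snd

theorem bchild_im : ContDiff ℝ ∞ fun e : ℂ × ℂ => e.2.im :=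
  Complex.imCLM.contDiff.comp contDiff_snd

theorem bchild_ofReal {f : ℂ × ℂ → ℝ} (hf : ContDiff ℝ ∞ f) : ContDiff ℝ ∞ fun e => (f e : ℂ) :=
  Complex.ofRealCLM.contDiff.comp hf

theorem bchild_hh_smooth (κ : ℝ) : ContDiff ℝ ∞ fun e : ℂ × ℂ => hh κ ((1 + e.2.im) ^ 2) :=
  (hh_contDiff κ).comp ((contDiff_const.add bchild_im).pow 2)

theorem bchild_normSq : ContDiff ℝ ∞ fun e : ℂ × ℂ => ‖e.1‖ ^ 2 := contDiff_fst.norm_sq ℝ

/-- The family of linear maps that interpolates between the two models. -/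
def bchildT (Ψ : ℝ × ℝ × ℂ → E4) (G : ℂ × ℂ → E4) (s κ τ : ℝ) (q : ℂ × ℝ) : ℂ × ℂ →L[ℝ] E4 :=
  (fderiv ℝ Ψ (1, 0, q.1)).comp ((0 : ℂ × ℂ →L[ℝ] ℝ).prod
    ((Complex.reCLM.comp (ContinuousLinearMap.snd ℝ ℂ ℂ)).prod (ContinuousLinearMap.fst ℝ ℂ ℂ))) +
  ContinuousLinearMap.smulRightL ℝ (ℂ × ℂ) E4 (Complex.imCLM.comp (ContinuousLinearMap.snd ℝ ℂ ℂ))
    ((1 - q.2) • fderiv ℝ G (Cay q.1, (s : ℂ)) (0, τ * Complex.I) +
      q.2 • fderiv ℝ Ψ (1, 0, q.1) (-(2 * κ), 0, 0))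

theorem bchildT_apply (Ψ : ℝ × ℝ × ℂ → E4) (G : ℂ × ℂ → E4) (s κ τ : ℝ) (q : ℂ × ℝ) (v : ℂ × ℂ) :
    bchildT Ψ G s κ τ q v = fderiv ℝ Ψ (1, 0, q.1) (0, v.2.re, v.1) +
      v.2.im • ((1 - q.2) • fderiv ℝ G (Cay q.1, (s : ℂ)) (0, τ * Complex.I) +
        q.2 • fderiv ℝ Ψ (1, 0, q.1) (-(2 * κ), 0, 0)) := rfl

theorem bchild_I_ne : (0 : ℂ) ≠ -Complex.I := by
  simp

theorem bchild_T_inj {Ψ : ℝ × ℝ × ℂ → E4} (hΨ : ContDiff ℝ ∞ Ψ) {G : ℂ × ℂ → E4}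
    (hG : ContDiff ℝ ∞ G) {s κ : ℝ} (hκ : 0 < κ)
    (hc : ∀ᶠ e : ℝ × ℂ in 𝓝 (0, 0), Ψ (1, e.1, e.2) = G (Cay e.2, ((s + e.1 : ℝ) : ℂ)))
    (hb : Bijective (fderiv ℝ Ψ (1, 0, 0))) (hGb : Injective (fderiv ℝ G (1, (s : ℂ)))) :
    ∃ τ : ℝ, τ ≠ 0 ∧ ∀ᶠ w in 𝓝 (0 : ℂ), ∀ t ∈ Icc (0 : ℝ) 1,
      Injective (bchildT Ψ G s κ τ (w, t)) := by
  obtain ⟨⟨u, v, w⟩, h0⟩ := hb.2 (fderiv ℝ G (1, (s : ℂ)) (0, Complex.I))
  have hu : u ≠ 0 := by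
    rintro rfl
    have h1 := bchild_comp (bchild_diff hΨ (1, 0, 0))
      ((hasDerivAt_const 0 1).prodMk ((bchild_linR 0 v).prodMk (bchild_lin 0 w))) (by simp)
    have h2 : HasDerivAt (fun t : ℝ => Cay (0 + t * w)) (2 * Complex.I * w) 0 :=
      HasDerivAt.comp_ofReal (e := fun z : ℂ => Cay (0 + z * w)) (by
        have h3 : HasDerivAt (fun z : ℂ => 0 + z * w) w ((0 : ℝ) : ℂ) := by
          simpa using (hasDerivAt_id ((0 : ℝ) : ℂ)).mul_const w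
        exact HasDerivAt.comp_of_eq _ Cay_hasDerivAt_zero h3 (by simp))
    have h3 := bchild_comp (bchild_diff hG (1, (s : ℂ)))
      (h2.prodMk ((bchild_linR 0 v).const_add s).ofReal_comp) (by simp [Cay_zero])
    have h4 : Tendsto (fun t : ℝ => ((0 + t * v, 0 + t * w) : ℝ × ℂ)) (𝓝 0) (𝓝 (0, 0)) :=
      Continuous.tendsto' (by fun_prop) _ _ (by simp)
    have h5 := hGb (h0.symm.trans (h1.unique (h3.congr_of_eventuallyEq (h4.eventually hc))))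
    simpa using congrArg (fun x : ℂ × ℂ => x.2.im) h5
  refine ⟨-u, neg_ne_zero.2 hu, isCompact_Icc.eventually_forall_of_forall_eventually
    fun t ht => eventually_inj_clm (A := bchildT Ψ G s κ (-u)) ?_ ?_⟩
  · have h1 : Continuous fun q : ℂ × ℝ => fderiv ℝ Ψ (1, 0, q.1) :=
      (hΨ.continuous_fderiv (by simp)).comp (by fun_prop)
    have h2 : ContinuousAt (fun q : ℂ × ℝ => fderiv ℝ G (Cay q.1, (s : ℂ))) (0, t) :=
      (hG.continuous_fderiv (by simp)).continuousAt.comp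
        (((Cay_contDiffAt bchild_I_ne).continuousAt.comp_of_eq continuousAt_fst rfl).prodMk
          continuousAt_const)
    refine (h1.clm_comp continuous_const).continuousAt.add
      ((ContinuousLinearMap.continuous _).continuousAt.comp (ContinuousAt.add ?_ ?_))
    · exact (continuousAt_const.sub continuousAt_snd).smul (h2.clm_apply continuousAt_const)
    · exact continuousAt_snd.smul (h1.continuousAt.clm_apply continuousAt_const)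
  · refine (injective_iff_map_eq_zero _).2 fun x hx => ?_
    have h1 : fderiv ℝ G (1, (s : ℂ)) (0, ((-u : ℝ) : ℂ) * Complex.I) =
        (-u) • fderiv ℝ Ψ (1, 0, 0) (u, v, w) := by
      rw [h0, ← map_smul]
      simp
    rw [bchildT_apply, Cay_zero, h1, ← map_smul, ← map_smul, ← map_smul, ← map_add, ← map_smul,
      ← map_add, map_eq_zero_iff _ hb.1] at hx
    simp only [Prod.smul_mk, Prod.mk_add_mk, smul_eq_mul, Prod.mk_eq_zero, zero_add] at hx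
    obtain ⟨h2, h3, h4⟩ := hx
    have h5 : 0 < u * u := mul_self_pos.2 hu
    have h6 : (1 - t) * (-u * u) + t * -(2 * κ) < 0 := by
      rcases ht.2.eq_or_lt with h | h
      · rw [h]; linarith
      · nlinarith [mul_pos (sub_pos.2 h) h5, mul_nonneg ht.1 hκ.le]
    have h7 : x.2.im = 0 := (mul_eq_zero.1 h2).resolve_right h6.ne
    rw [h7] at h3 h4
    exact Prod.ext (by simpa using h4) (Complex.ext (by simpa using h3) h7)

/-- The leaf model. -/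
def bchildA (G : ℂ × ℂ → E4) (s σ τ r : ℝ) (e : ℂ × ℂ) : E4 :=
  G (CayR r e.1, ((s + σ * e.2.re : ℝ) : ℂ) + ((τ * e.2.im : ℝ) : ℂ) * Complex.I)

/-- The finger model. -/
def bchildP (Ψ : ℝ × ℝ × ℂ → E4) (σ κ r : ℝ) (e : ℂ × ℂ) : E4 :=
  Ψ (hh κ ((1 + e.2.im) ^ 2), σ * e.2.re, -((r * (1 + e.2.im) : ℝ) : ℂ) / e.1)

/-- The interpolation of the two models. -/
def bchildF (Ψ : ℝ × ℝ × ℂ → E4) (G : ℂ × ℂ → E4) (s σ κ τ r : ℝ) (e : ℂ × ℂ) : E4 :=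
  (1 - step (1 / 4) (9 / 16) (‖e.1‖ ^ 2)) • bchildA G s σ τ r e +
    step (1 / 4) (9 / 16) (‖e.1‖ ^ 2) • bchildP Ψ σ κ r e

section

variable {Ψ : ℝ × ℝ × ℂ → E4} {G : ℂ × ℂ → E4} {s σ κ τ r δ : ℝ}

theorem bchildF_small {e : ℂ × ℂ} (h : ‖e.1‖ < 1 / 2) :
    bchildF Ψ G s σ κ τ r e = bchildA G s σ τ r e := by
  rw [bchildF, step_of_le (by norm_num) (by nlinarith [norm_nonneg e.1])]
  simp

theorem bchildF_large {e : ℂ × ℂ} (h : 3 / 4 < ‖e.1‖) :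
    bchildF Ψ G s σ κ τ r e = bchildP Ψ σ κ r e := by
  rw [bchildF, step_of_ge (by norm_num) (by nlinarith)]
  simp

theorem bchild_ev_lt {e : ℂ × ℂ} {a : ℝ} (h : ‖e.1‖ < a) : ∀ᶠ x in 𝓝 e, ‖x.1‖ < a :=
  (isOpen_lt continuous_fst.norm continuous_const).mem_nhds h

theorem bchildA_smooth (hG : ContDiff ℝ ∞ G) (hr : 0 < r) {e : ℂ × ℂ} (h : -r < e.1.im) :
    ContDiffAt ℝ ∞ (bchildA G s σ τ r) e :=
  hG.contDiffAt.comp e (((CayR_contDiffAt hr h).comp e contDiffAt_fst).prodMk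
    ((bchild_ofReal (contDiff_const.add (contDiff_const.mul bchild_re))).add
      ((bchild_ofReal (contDiff_const.mul bchild_im)).mul contDiff_const)).contDiffAt)

theorem bchildP_smooth (hΨ : ContDiff ℝ ∞ Ψ) {e : ℂ × ℂ} (h : e.1 ≠ 0) :
    ContDiffAt ℝ ∞ (bchildP Ψ σ κ r) e :=
  hΨ.contDiffAt.comp e ((bchild_hh_smooth κ).contDiffAt.prodMk
    ((contDiff_const.mul bchild_re).contDiffAt.prodMk
      ((bchild_ofReal (contDiff_const.mul (contDiff_const.add bchild_im))).neg.contDiffAt.mul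
        (contDiffAt_fst.inv h))))

theorem bchildF_smooth (hΨ : ContDiff ℝ ∞ Ψ) (hG : ContDiff ℝ ∞ G) (hr : 0 < r) {e : ℂ × ℂ}
    (h : -r < e.1.im) : ContDiffAt ℝ ∞ (bchildF Ψ G s σ κ τ r) e := by
  by_cases h0 : e.1 = 0
  · refine (bchildA_smooth (s := s) (σ := σ) (τ := τ) hG hr h).congr_of_eventuallyEq ?_
    exact (bchild_ev_lt (by rw [h0]; norm_num)).mono fun x hx => bchildF_small hx
  · have hν : ContDiff ℝ ∞ fun e : ℂ × ℂ => step (1 / 4) (9 / 16) (‖e.1‖ ^ 2) :=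
      (step_contDiff _ _).comp bchild_normSq
    exact ((contDiff_const.sub hν).contDiffAt.smul (bchildA_smooth hG hr h)).add
      (hν.contDiffAt.smul (bchildP_smooth hΨ h0))

theorem bchildA_real (ξ : ℂ) (l : ℝ) :
    bchildA G s σ τ r (ξ, (l : ℂ)) = G (CayR r ξ, ((s + σ * l : ℝ) : ℂ)) := by
  simp [bchildA]

theorem bchildP_real (ξ : ℂ) (l : ℝ) :
    bchildP Ψ σ κ r (ξ, (l : ℂ)) = Ψ (1, σ * l, -(r : ℂ) / ξ) := by
  simp [bchildP, bchild_hh_one]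

theorem bchild_norm_w (hr : 0 < r) (hrδ : 4 * r < δ) {ξ : ℂ} (h : 1 / 4 < ‖ξ‖) :
    ‖-(r : ℂ) / ξ‖ < δ := by
  rw [norm_div, norm_neg, Complex.norm_real, Real.norm_eq_abs, abs_of_pos hr,
    div_lt_iff₀ (by linarith)]
  nlinarith

theorem bchild_agree (hσ : σ = 1 ∨ σ = -1) (hr : 0 < r) (hrδ : 4 * r < δ)
    (hc : ∀ (v : ℝ) (w : ℂ), |v| < δ → ‖w‖ < δ → Ψ (1, v, w) = G (Cay w, ((s + v : ℝ) : ℂ)))
    {ξ₀ : ℂ} (h : 0 ≤ ξ₀.im) (h' : 1 / 4 < ‖ξ₀‖) : ∀ᶠ e : ℂ × ℝ in 𝓝 (ξ₀, 0),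
      bchildF Ψ G s σ κ τ r (e.1, (e.2 : ℂ)) = G (CayR r e.1, ((s + σ * e.2 : ℝ) : ℂ)) ∧
      bchildF Ψ G s σ κ τ r (e.1, (e.2 : ℂ)) = Ψ (1, σ * e.2, -(r : ℂ) / e.1) := by
  have h1 : ∀ᶠ e : ℂ × ℝ in 𝓝 (ξ₀, 0), -r < e.1.im :=
    (isOpen_lt continuous_const (Complex.continuous_im.comp continuous_fst)).mem_nhds
      (show -r < ξ₀.im by linarith)
  have h2 : ∀ᶠ e : ℂ × ℝ in 𝓝 (ξ₀, 0), 1 / 4 < ‖e.1‖ :=
    (isOpen_lt continuous_const continuous_fst.norm).mem_nhds h'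
  have h3 : ∀ᶠ e : ℂ × ℝ in 𝓝 (ξ₀, 0), |e.2| < δ :=
    (isOpen_lt continuous_snd.abs continuous_const).mem_nhds
      (show |(0 : ℝ)| < δ by rw [abs_zero]; linarith)
  filter_upwards [h1, h2, h3] with e h1 h2 h3
  have h4 : Ψ (1, σ * e.2, -(r : ℂ) / e.1) = G (CayR r e.1, ((s + σ * e.2 : ℝ) : ℂ)) := by
    rw [CayR_eq_Cay hr (norm_pos_iff.1 (by linarith)) h1]
    exact hc _ _ (by rcases hσ with rfl | rfl <;> simpa using h3) (bchild_norm_w hr hrδ h2)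
  rw [bchildF, bchildA_real, bchildP_real, h4, ← add_smul, sub_add_cancel, one_smul]
  exact ⟨rfl, rfl⟩

theorem bchildA_inj (hG : ContDiff ℝ ∞ G) (hσ : σ ≠ 0) (hτ : τ ≠ 0) (hr : 0 < r) {ξ : ℂ}
    (h : -r < ξ.im) (hb : Injective (fderiv ℝ G (CayR r ξ, (s : ℂ)))) :
    Injective (fderiv ℝ (bchildA G s σ τ r) (ξ, 0)) := by
  refine (injective_iff_map_eq_zero _).2 fun x hx => ?_
  have h1 := bchild_comp ((bchildA_smooth (s := s) (σ := σ) (τ := τ) (e := (ξ, 0)) hG hr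
    h).differentiableAt (by simp)) ((bchild_lin ξ x.1).prodMk (bchild_lin 0 x.2)) (by simp)
  have h2 := bchild_comp ((CayR_contDiffAt hr h).differentiableAt (by simp)) (bchild_lin ξ x.1)
    (by simp)
  have h3 := bchild_comp (bchild_diff hG (CayR r ξ, (s : ℂ))) (h2.prodMk (bchild_lin s
    (((σ * x.2.re : ℝ) : ℂ) + ((τ * x.2.im : ℝ) : ℂ) * Complex.I))) (by simp)
  have h4 := h1.unique (h3.congr_of_eventuallyEq (Eventually.of_forall fun t => by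
    simp only [bchildA]
    congr 2
    simp
    ring))
  rw [hx, eq_comm, map_eq_zero_iff _ hb, Prod.mk_eq_zero,
    map_eq_zero_iff _ (CayR_fderiv_bij hr h).1] at h4
  have h5 := congrArg Complex.re h4.2
  have h6 := congrArg Complex.im h4.2
  simp [hσ, hτ] at h5 h6
  exact Prod.ext h4.1 (Complex.ext h5 h6)

theorem bchildF_inj (hΨ : ContDiff ℝ ∞ Ψ) (hG : ContDiff ℝ ∞ G) (hσ : σ ≠ 0) (hr : 0 < r) {ξ : ℂ}
    (h : -r < ξ.im) (h0 : ξ ≠ 0) (he : ∀ᶠ e : ℂ × ℝ in 𝓝 (ξ, 0),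
      bchildF Ψ G s σ κ τ r (e.1, (e.2 : ℂ)) = Ψ (1, σ * e.2, -(r : ℂ) / e.1))
    (hT : ∀ t ∈ Icc (0 : ℝ) 1, Injective (bchildT Ψ G s κ τ (-(r : ℂ) / ξ, t))) :
    Injective (fderiv ℝ (bchildF Ψ G s σ κ τ r) (ξ, 0)) := by
  refine (injective_iff_map_eq_zero _).2 fun x hx => ?_
  have hd := (bchildF_smooth (s := s) (σ := σ) (κ := κ) (τ := τ) (e := (ξ, 0)) hΨ hG hr
    h).differentiableAt (by simp)
  have h1 := bchild_comp hd ((bchild_lin ξ x.1).prodMk (bchild_linR 0 x.2.re).ofReal_comp)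
    (by simp)
  have h2 : HasDerivAt (fun t : ℝ => -(r : ℂ) / (ξ + t * x.1)) (r * x.1 / ξ ^ 2) 0 :=
    ((hasDerivAt_const (0 : ℝ) (-(r : ℂ))).fun_div (bchild_lin ξ x.1)
      (by simpa using h0)).congr_deriv (by simp)
  have h3 := bchild_comp (bchild_diff hΨ (1, 0, -(r : ℂ) / ξ)) ((hasDerivAt_const 0 1).prodMk
    (((bchild_linR 0 x.2.re).const_mul σ).prodMk h2)) (by simp)
  have h4 : Tendsto (fun t : ℝ => ((ξ + t * x.1, 0 + t * x.2.re) : ℂ × ℝ)) (𝓝 0) (𝓝 (ξ, 0)) :=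
    Continuous.tendsto' (by fun_prop) _ _ (by simp)
  have h5 := h1.unique (h3.congr_of_eventuallyEq (h4.eventually he))
  have h6 := bchild_comp hd ((hasDerivAt_const 0 ξ).prodMk (bchild_lin 0 Complex.I)) (by simp)
  have h7 := bchild_comp (bchild_diff hG (CayR r ξ, (s : ℂ))) ((hasDerivAt_const 0 (CayR r ξ)).prodMk
    (bchild_lin s (τ * Complex.I))) (by simp)
  have h8 := bchild_comp (bchild_diff hΨ (1, 0, -(r : ℂ) / ξ)) ((bchild_hh κ 1).prodMk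
    ((hasDerivAt_const 0 0).prodMk (bchild_lin (-(r : ℂ) / ξ) (-(r : ℂ) / ξ))))
    (by simp [bchild_hh_one])
  have h9 := h6.unique (((h7.const_smul (1 - step (1 / 4) (9 / 16) (‖ξ‖ ^ 2))).add
    (h8.const_smul (step (1 / 4) (9 / 16) (‖ξ‖ ^ 2)))).congr_of_eventuallyEq
      (Eventually.of_forall fun t => by
        simp only [bchildF, bchildA, bchildP, Pi.add_apply, Pi.smul_apply]
        congr 3
        · simp
          ring
        · simp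
          ring))
  have hx' : x = (x.1, (x.2.re : ℂ)) + x.2.im • ((0, Complex.I) : ℂ × ℂ) :=
    Prod.ext (by simp) (Complex.ext (by simp) (by simp))
  rw [hx', map_add, map_smul, h5, h9] at hx
  generalize hν : step (1 / 4) (9 / 16) (‖ξ‖ ^ 2) = ν at hx
  have h10 : bchildT Ψ G s κ τ (-(r : ℂ) / ξ, ν) (r * x.1 / ξ ^ 2 + (x.2.im * ν) • (-(r : ℂ) / ξ),
      ⟨σ * x.2.re, x.2.im⟩) = 0 := by
    have e1 : ((0, σ * x.2.re, r * x.1 / ξ ^ 2 + (x.2.im * ν) • (-(r : ℂ) / ξ)) : ℝ × ℝ × ℂ) =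
        (0, σ * x.2.re, r * x.1 / ξ ^ 2) + (x.2.im * ν) • (0, 0, -(r : ℂ) / ξ) := by simp
    have e2 : ((-(2 * κ * 1), 0, -(r : ℂ) / ξ) : ℝ × ℝ × ℂ) =
        (-(2 * κ), 0, 0) + (0, 0, -(r : ℂ) / ξ) := by simp
    rw [← hx, bchildT_apply, ← CayR_eq_Cay hr h0 h, e2]
    dsimp only
    rw [e1, map_add, map_add, map_smul]
    module
  rw [map_eq_zero_iff _ (hT ν (hν ▸ ⟨step_nonneg _ _ _, step_le_one _ _ _⟩)), Prod.mk_eq_zero]
    at h10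
  have h11 : x.2.im = 0 := congrArg Complex.im h10.2
  have h12 : σ * x.2.re = 0 := congrArg Complex.re h10.2
  have h13 := h10.1
  rw [h11] at h13
  refine Prod.ext ?_ (Complex.ext ((mul_eq_zero.1 h12).resolve_left hσ) h11)
  simpa [h0, hr.ne'] using h13

end

/-- The child of the second kind: a leaf with a notch at the finger. -/
theorem bchild_exists {Ψ : ℝ × ℝ × ℂ → E4} (hΨ : ContDiff ℝ ∞ Ψ) {G : ℂ × ℂ → E4}
    (hG : ContDiff ℝ ∞ G) {s σ κ : ℝ} (hσ : σ = 1 ∨ σ = -1) (hκ : 0 < κ)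
    (hc : ∀ᶠ e : ℝ × ℂ in 𝓝 (0, 0), Ψ (1, e.1, e.2) = G (Cay e.2, ((s + e.1 : ℝ) : ℂ)))
    (hb : Bijective (fderiv ℝ Ψ (1, 0, 0)))
    (hGb : ∀ ζ ∈ Disc, Bijective (fderiv ℝ G (ζ, (s : ℂ)))) :
    ∀ᶠ r in 𝓝[>] (0 : ℝ), ∃ Fc : ℂ × ℂ → E4, ContDiff ℝ ∞ Fc ∧
      (∀ ξ ∈ Half, Bijective (fderiv ℝ Fc (ξ, 0))) ∧
      (∀ ξ₀ ∈ Half, ∀ᶠ e : ℂ × ℝ in 𝓝 (ξ₀, 0),
        Fc (e.1, (e.2 : ℂ)) = G (CayR r e.1, ((s + σ * e.2 : ℝ) : ℂ))) ∧
      (∀ ξ₀ ∈ Semi, ∀ᶠ e : ℂ × ℂ in 𝓝 (ξ₀, 0),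
        Fc e = Ψ (hh κ ((1 + e.2.im) ^ 2), σ * e.2.re,
          -((r * (1 + e.2.im) : ℝ) : ℂ) / e.1)) := by
  obtain ⟨τ, hτ, hT⟩ := bchild_T_inj hΨ hG hκ hc hb (hGb 1 (by simp [Disc])).1
  obtain ⟨δ₁, hδ₁, h1⟩ := Metric.eventually_nhds_iff.1 hc
  obtain ⟨δ₂, hδ₂, h2⟩ := Metric.eventually_nhds_iff.1 hT
  have hσ0 : σ ≠ 0 := by rcases hσ with rfl | rfl <;> norm_num
  have hc' : ∀ (v : ℝ) (w : ℂ), |v| < δ₁ → ‖w‖ < δ₁ →
      Ψ (1, v, w) = G (Cay w, ((s + v : ℝ) : ℂ)) := fun v w hv hw =>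
    h1 (y := (v, w)) (by simp [Prod.dist_eq, hv, hw])
  filter_upwards [Ioo_mem_nhdsGT (show 0 < δ₁ / 4 by positivity),
    Ioo_mem_nhdsGT (show 0 < δ₂ / 4 by positivity)] with r hr1 hr2
  have hr := hr1.1
  have hr1' : 4 * r < δ₁ := by linarith [hr1.2]
  have hr2' : 4 * r < δ₂ := by linarith [hr2.2]
  obtain ⟨Fc, hFc, he⟩ := globalize (f := bchildF Ψ G s σ κ τ r) (U := {e : ℂ × ℂ | -r < e.1.im})
    (isCompact_Half.prod (isCompact_singleton (x := (0 : ℂ))))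
    (isOpen_lt continuous_const (Complex.continuous_im.comp continuous_fst))
    (fun e he => lt_of_lt_of_le (neg_lt_zero.2 hr) he.1.2)
    fun e he => (bchildF_smooth hΨ hG hr he).contDiffWithinAt
  have he' : ∀ ξ ∈ Half, Fc =ᶠ[𝓝 (ξ, 0)] bchildF Ψ G s σ κ τ r := fun ξ hξ =>
    he.filter_mono (nhds_le_nhdsSet (mk_mem_prod hξ (mem_singleton _)))
  refine ⟨Fc, hFc, fun ξ hξ => bij_of_inj_CC ?_, fun ξ hξ => ?_, fun ξ hξ => ?_⟩
  · have him : -r < ξ.im := lt_of_lt_of_le (neg_lt_zero.2 hr) hξ.2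
    rw [(he' ξ hξ).fderiv_eq]
    rcases lt_or_ge ‖ξ‖ (1 / 2) with h | h
    · have h3 : bchildF Ψ G s σ κ τ r =ᶠ[𝓝 (ξ, 0)] bchildA G s σ τ r :=
        (bchild_ev_lt h).mono fun x hx => bchildF_small hx
      rw [h3.fderiv_eq]
      exact bchildA_inj hG hσ0 hτ hr him (hGb _ (CayR_mem hr hξ)).1
    · have h3 : 1 / 4 < ‖ξ‖ := by linarith
      exact bchildF_inj hΨ hG hσ0 hr him (norm_pos_iff.1 (by linarith))
        ((bchild_agree hσ hr hr1' hc' hξ.2 h3).mono fun e he => he.2)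
        (h2 (by rw [dist_zero_right]; exact bchild_norm_w hr hr2' h3))
  · have h3 : Tendsto (fun e : ℂ × ℝ => ((e.1, e.2) : ℂ × ℂ)) (𝓝 (ξ, 0)) (𝓝 (ξ, 0)) :=
      Continuous.tendsto' (by fun_prop) _ _ (by simp)
    rcases lt_or_ge ‖ξ‖ (1 / 2) with h | h
    · filter_upwards [h3.eventually (he' ξ hξ), h3.eventually (bchild_ev_lt h)] with e h4 h5
      rw [h4, bchildF_small h5, bchildA_real]
    · filter_upwards [h3.eventually (he' ξ hξ),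
        bchild_agree (κ := κ) (τ := τ) hσ hr hr1' hc' hξ.2 (by linarith)] with e h4 h5
      rw [h4, h5.1]
  · have h3 : ∀ᶠ e : ℂ × ℂ in 𝓝 (ξ, 0), 3 / 4 < ‖e.1‖ :=
      (isOpen_lt continuous_const continuous_fst.norm).mem_nhds
        (show 3 / 4 < ‖ξ‖ by rw [hξ.1]; norm_num)
    filter_upwards [he' ξ (Semi_subset hξ), h3] with e h4 h5
    rw [h4, bchildF_large h5, bchildP]

theorem uchild_smooth {Ψ : ℝ × ℝ × ℂ → E4} (hΨ : ContDiff ℝ ∞ Ψ) (σ κ c r : ℝ) :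
    ContDiff ℝ ∞ (fun e : ℂ × ℂ => Ψ (hh κ ((1 + e.2.im) ^ 2),
      σ * e.2.re + c * (1 - ‖e.1‖ ^ 2), ((r * (1 + e.2.im) : ℝ) : ℂ) * e.1)) :=
  hΨ.comp ((bchild_hh_smooth κ).prodMk (((contDiff_const.mul bchild_re).add
    (contDiff_const.mul (contDiff_const.sub bchild_normSq))).prodMk
      ((bchild_ofReal (contDiff_const.mul (contDiff_const.add bchild_im))).mul contDiff_fst)))

/-- The child of the first kind: half of a test tube. -/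
theorem uchild_bij {Ψ : ℝ × ℝ × ℂ → E4} (hΨ : ContDiff ℝ ∞ Ψ) {σ κ c r : ℝ}
    (hσ : σ = 1 ∨ σ = -1) (hκ : 0 < κ) (hr : 0 < r) {ξ : ℂ}
    (hb : Bijective (fderiv ℝ Ψ (1, c * (1 - ‖ξ‖ ^ 2), (r : ℂ) * ξ))) :
    Bijective (fderiv ℝ (fun e : ℂ × ℂ => Ψ (hh κ ((1 + e.2.im) ^ 2),
      σ * e.2.re + c * (1 - ‖e.1‖ ^ 2), ((r * (1 + e.2.im) : ℝ) : ℂ) * e.1)) (ξ, 0)) := by
  refine bij_of_inj_CC ((injective_iff_map_eq_zero _).2 fun x hx => ?_)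
  have hσ0 : σ ≠ 0 := by rcases hσ with rfl | rfl <;> norm_num
  have h1 := bchild_comp (bchild_diff (uchild_smooth hΨ σ κ c r) (ξ, 0))
    ((bchild_lin ξ x.1).prodMk (bchild_lin 0 x.2)) (by simp)
  have h2 := bchild_comp (bchild_diff hΨ (1, c * (1 - ‖ξ‖ ^ 2), (r : ℂ) * ξ))
    ((bchild_hh κ x.2.im).prodMk ((((bchild_linR 0 x.2.re).const_mul σ).fun_add
      (((bchild_lin ξ x.1).norm_sq.const_sub 1).const_mul c)).prodMk
        (((bchild_linR 1 x.2.im).const_mul r).ofReal_comp.fun_mul (bchild_lin ξ x.1))))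
    (by simp [bchild_hh_one])
  have h3 := h1.unique (h2.congr_of_eventuallyEq (Eventually.of_forall fun t => by simp))
  rw [hx, eq_comm, map_eq_zero_iff _ hb.1, Prod.mk_eq_zero, Prod.mk_eq_zero] at h3
  obtain ⟨h4, h5, h6⟩ := h3
  have h7 : x.2.im = 0 := by simpa [hκ.ne'] using h4
  have h8 : x.1 = 0 := by simpa [h7, hr.ne'] using h6
  exact Prod.ext h8 (Complex.ext (by simpa [h8, hσ0] using h5) h7)

end Pool.Agent.Lib.MP_1d0d1b_gt
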