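import Pool.Agent.Lib.MP_1d0d1b_gt.Basic

open Set Function Filter Topology
open scoped ContDiff Real

noncomputable section

namespace Pool.Agent.Lib.MP_1d0d1b_gt

private theorem leaf_tube {K : Set ℂ} (hK : IsCompact K) {Q : ℂ × ℝ → Prop}
    (h : ∀ ζ ∈ K, ∀ᶠ q in 𝓝 (ζ, (0 : ℝ)), Q q) : ∀ᶠ s in 𝓝 (0 : ℝ), ∀ ζ ∈ K, Q (ζ, s) :=
  hK.eventually_forall_of_forall_eventually (P := fun s ζ => Q (ζ, s)) fun ζ hζ =>
    (continuous_swap.tendsto ((0 : ℝ), ζ)).eventually (h ζ hζ)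

private theorem leaf_emb (ζ : ℂ) :
    Tendsto (fun q : ℂ × ℝ => (q.1, (q.2 : ℂ))) (𝓝 (ζ, 0)) (𝓝 (ζ, 0)) :=
  Continuous.tendsto' (by fun_prop) _ _ (by simp)

private theorem leaf_tube' {K : Set ℂ} (hK : IsCompact K) {Q : ℂ × ℂ → Prop}
    (h : ∀ ζ ∈ K, ∀ᶠ q in 𝓝 (ζ, (0 : ℂ)), Q q) : ∀ᶠ s : ℝ in 𝓝 0, ∀ ζ ∈ K, Q (ζ, (s : ℂ)) :=
  leaf_tube hK (Q := fun q => Q (q.1, (q.2 : ℂ))) fun ζ hζ => (leaf_emb ζ).eventually (h ζ hζ)

private theorem leaf_tube2 {K K' : Set ℂ} (hK : IsCompact K) (hK' : IsCompact K')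
    {Q : ℝ → ℂ → ℂ → Prop}
    (h : ∀ ζ ∈ K, ∀ x ∈ K', ∀ᶠ q : ℝ × ℂ × ℂ in 𝓝 (0, ζ, x), Q q.1 q.2.1 q.2.2) :
    ∀ᶠ s in 𝓝 (0 : ℝ), ∀ ζ ∈ K, ∀ x ∈ K', Q s ζ x :=
  ((hK.prod hK').eventually_forall_of_forall_eventually (P := fun s y => Q s y.1 y.2)
    fun y hy => h y.1 hy.1 y.2 hy.2).mono fun _ hs ζ hζ x hx => hs (ζ, x) ⟨hζ, hx⟩

private theorem leaf_emb2 (ζ x : ℂ) :
    Tendsto (fun q : ℝ × ℂ × ℂ => (q.2.1, (q.1 : ℂ))) (𝓝 (0, ζ, x)) (𝓝 (ζ, 0)) :=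
  Continuous.tendsto' (by fun_prop) _ _ (by simp)

private theorem leaf_snd (s : ℝ) (ζ x : ℂ) :
    Tendsto (fun q : ℝ × ℂ × ℂ => q.2.2) (𝓝 (s, ζ, x)) (𝓝 x) :=
  Continuous.tendsto' (by fun_prop) _ _ rfl

private theorem leaf_fst (s : ℝ) (ζ x : ℂ) :
    Tendsto (fun q : ℝ × ℂ × ℂ => q.2.1) (𝓝 (s, ζ, x)) (𝓝 ζ) :=
  Continuous.tendsto' (by fun_prop) _ _ rfl

private theorem leaf_ne {G : ℂ × ℂ → E4} (hG : Continuous G) {f : ℂ → E4} (hf : Continuous f)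
    {ζ x : ℂ} (h : G (ζ, 0) ≠ f x) :
    ∀ᶠ q : ℝ × ℂ × ℂ in 𝓝 (0, ζ, x), G (q.2.1, (q.1 : ℂ)) ≠ f q.2.2 :=
  (isOpen_ne_fun (f := fun q : ℝ × ℂ × ℂ => G (q.2.1, (q.1 : ℂ))) (by fun_prop)
    (by fun_prop)).mem_nhds (by simpa using h)

private theorem leaf_land {F G : ℂ × ℂ → E4} (hF : ContDiff ℝ ∞ F) {d t₀ : ℝ}
    (hi : Injective (fderiv ℝ F ((t₀ : ℂ), 0)))
    (hc : ∀ᶠ q : ℝ × ℂ in 𝓝 (t₀, 0), F ((q.1 : ℂ), q.2) = G (Cay q.2, ((q.1 - d : ℝ) : ℂ))) :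
    ∀ᶠ q : ℝ × ℂ × ℂ in 𝓝 (t₀, 1, (t₀ : ℂ)), G (q.2.1, ((q.1 - d : ℝ) : ℂ)) = F (q.2.2, 0) →
      q.2.1 = 1 ∧ q.2.2 = (q.1 : ℂ) := by
  obtain ⟨U, hU, hinj⟩ := locInj hF hi
  have h1 : ∀ᶠ q : ℝ × ℂ in 𝓝 (t₀, 0), ((q.1 : ℂ), q.2) ∈ U :=
    (Continuous.tendsto' (f := fun q : ℝ × ℂ => ((q.1 : ℂ), q.2)) (by fun_prop) _ _
      rfl).eventually hU
  obtain ⟨V, hV, W, hW, hs⟩ := mem_nhds_prod_iff.1 (hc.and h1)
  have h2 := (leaf_fst t₀ 1 t₀).eventually (cay_eventually (Q := (· ∈ W)) hW)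
  have h3 : ∀ᶠ q : ℝ × ℂ × ℂ in 𝓝 (t₀, 1, (t₀ : ℂ)), q.1 ∈ V := continuous_fst.tendsto _ hV
  have h4 : ∀ᶠ q : ℝ × ℂ × ℂ in 𝓝 (t₀, 1, (t₀ : ℂ)), (q.2.2, (0 : ℂ)) ∈ U :=
    (Continuous.tendsto' (f := fun q : ℝ × ℂ × ℂ => (q.2.2, (0 : ℂ))) (by fun_prop) _ _
      rfl).eventually hU
  filter_upwards [h2, h3, h4] with q ⟨w, e, hw⟩ hq hq' he
  obtain ⟨h5, h6⟩ := hs (mk_mem_prod hq hw)
  rw [e] at he
  have h7 := Prod.ext_iff.1 (hinj h6 hq' (h5.trans he))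
  exact ⟨by rw [e, show w = 0 from h7.2, Cay_zero], h7.1.symm⟩

private theorem leaf_onD (B : Base) (a : B.R) : ∀ᶠ s : ℝ in 𝓝 0, ∀ ζ ∈ Disc, ∀ j, ∀ z ∈ Disc,
    B.G a (ζ, (s : ℂ)) = B.f j z → ‖ζ‖ = 1 ∧ j = B.lo a := by
  suffices h : ∀ j, ∀ᶠ s : ℝ in 𝓝 0, ∀ ζ ∈ Disc, ∀ z ∈ Disc,
      B.G a (ζ, (s : ℂ)) = B.f j z → ‖ζ‖ = 1 ∧ j = B.lo a from
    (eventually_all.2 h).mono fun s hs ζ hζ j => hs j ζ hζ
  intro j
  refine leaf_tube2 isCompact_Disc isCompact_Disc fun ζ hζ z hz => ?_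
  by_cases he : B.G a (ζ, 0) = B.f j z
  swap
  · exact (leaf_ne (B.G_smooth a).continuous (B.f_smooth j).continuous he).mono
      fun q hq h => absurd h hq
  obtain ⟨h1, rfl⟩ := B.G_D a ζ hζ j z hz he
  have hb := B.G_bot a ζ h1
  have h2 : z = B.γ a (ζ, 0) := B.f_inj _ hz (oDisc_subset (B.γ_mem a ζ h1))
    (he.symm.trans (by simpa using hb.self_of_nhds h1))
  obtain ⟨U, hU, hinj⟩ := locInj (B.G_smooth a) (B.G_bij a ζ hζ).1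
  have h3 := gamma_eventually (B.G_smooth a) (B.f_smooth _) (B.γ_smooth a) (q₀ := (ζ, 0)) h1
    (by simpa using (B.G_bij a ζ hζ).1) hb (hb.and ((leaf_emb ζ).eventually hU))
  rw [← h2] at h3
  filter_upwards [(leaf_snd 0 ζ z).eventually h3, (leaf_emb2 ζ z).eventually hU] with
    q ⟨r, h4, h5, h6, h7⟩ h8 h9
  rw [h5, ← h6 h4] at h9
  exact ⟨by rw [show q.2.1 = r.1 from (Prod.ext_iff.1 (hinj h8 h7 h9)).1, h4], rfl⟩

namespace Config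

variable {B : Base} {C : Config B}

private theorem leaf_good (hC : C.Valid) {Z S : C.I} {p q : ℂ} (h : C.Good (.inl Z) p (.inl S) q)
    {η : ℝ} (hP : C.Prep Z p η) {a : B.R} {s' : C.I ⊕ B.R} {ζ x : ℂ}
    (hg : C.Good (.inr a) ζ s' x) : ∀ᶠ r : ℝ × ℂ × ℂ in 𝓝 (0, ζ, x), r.1 ≠ 0 →
      B.G a (r.2.1, (r.1 : ℂ)) = C.sh s' r.2.2 → r.2.1 ∈ oDisc ∧ r.2.2 ∈ C.sodom s' ∧
      Transv (fun ζ => B.G a (ζ, (r.1 : ℂ))) (C.sh s') r.2.1 r.2.2 ∧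
      (∀ s'' x'', x'' ∈ C.sdom s'' → C.sh s'' x'' = C.sh s' r.2.2 → (s'', x'') = (s', r.2.2)) ∧
      (s' = .inl Z → r.2.2 ∉ Metric.closedBall p η) ∧
      ∀ j, s' = .inl j → Acc r.2.2 (C.TrP Z p η j) (C.d j) := by
  have hζ : ζ ∈ oDisc := hg.2.1
  have h1 := (leaf_fst 0 ζ x).eventually (isOpen_oDisc.mem_nhds hζ)
  have h2 := (leaf_snd 0 ζ x).eventually ((isOpen_sodom s').mem_nhds hg.2.2.1)
  have h3 := transv_eventually (T := ℝ) (φ := fun r => B.G a (r.2, (r.1 : ℂ)))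
    (ψ := fun r => C.sh s' r.2)
    ((B.G_smooth a).comp (contDiff_snd.prodMk (Complex.ofRealCLM.contDiff.comp contDiff_fst)))
    ((hC.sh_smooth s').comp contDiff_snd) (t₀ := 0) (x := ζ) (y := x) hg.2.2.2.2.1
  obtain ⟨U, hU, hinj⟩ := locInj (B.G_smooth a) (B.G_bij a ζ (oDisc_subset hζ)).1
  have h4 := (leaf_emb2 ζ x).eventually hU
  have hfin : ({y | ∃ s'' x'', C.Good s'' x'' s' y} \ {x}).Finite :=
    (hC.fin.image fun r => r.2.2).subset fun y ⟨⟨s'', x'', hy⟩, _⟩ =>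
      ⟨((s'', x''), (s', y)), hy, rfl⟩
  have h5 := (leaf_snd 0 ζ x).eventually (hfin.isClosed.isOpen_compl.mem_nhds fun h => h.2 rfl)
  have hb : s' = .inl Z → x ∉ Metric.closedBall p η := by
    rintro rfl hx
    obtain rfl := hP.only x hx _ _ hg.symm
    rcases h.2.2.2.2.2 (.inr a) ζ (oDisc_subset hζ) hg.2.2.2.1 with e | e <;> simp at e
  have h6 : ∀ᶠ y in 𝓝 x, (∀ j, s' = .inl j → y ∉ C.Tr j) ∧
      (s' = .inl Z → y ∉ Metric.closedBall p η) ∧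
      ∀ j, s' = .inl j → Acc y (C.TrP Z p η j) (C.d j) := by
    rcases s' with j | a'
    swap
    · exact .of_forall fun y => ⟨fun _ e => by simp at e, fun e => by simp at e,
        fun _ e => by simp at e⟩
    have h7 : Acc x (C.TrP Z p η j) (C.d j) := by
      by_cases e : j = Z
      · subst e
        exact (hP.acc x _ _ hg.symm fun e => hb rfl
          (e ▸ Metric.mem_closedBall_self hP.η_pos.le)).mono fun y hy => hy.imp id And.right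
      · exact (hC.acc j x _ _ hg.symm).mono fun y hy => hy.resolve_right fun h => e h.1
    have h8 : ∀ᶠ y in 𝓝 x, Acc y (C.TrP Z p η j) (C.d j) :=
      (Continuous.tendsto' (f := fun y : ℂ => (y, C.d j)) (by fun_prop) _ _ rfl).eventually
        (h7.eventually (hC.isClosed_TrP Z p η j))
    have h9 : ∀ᶠ y in 𝓝 x, y ∉ C.Tr j :=
      (hC.isCompact_Tr j).isClosed.isOpen_compl.mem_nhds (hC.good_not_Tr hg.symm)
    have h10 : ∀ᶠ y in 𝓝 x, (Sum.inl j : C.I ⊕ B.R) = .inl Z → y ∉ Metric.closedBall p η := by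
      by_cases e : (Sum.inl j : C.I ⊕ B.R) = .inl Z
      · exact Eventually.mono (Metric.isClosed_closedBall.isOpen_compl.mem_nhds (hb e))
          fun y hy _ => hy
      · exact .of_forall fun y e' => absurd e' e
    filter_upwards [h8, h9, h10] with y h8 h9 h10
    exact ⟨fun j' e => Sum.inl.inj e ▸ h9, h10, fun j' e => Sum.inl.inj e ▸ h8⟩
  filter_upwards [h1, h2, h3, h4, h5, (leaf_snd 0 ζ x).eventually h6] with r h1 h2 h3 h4 h5 h6 hr he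
  refine ⟨h1, h2, h3, fun s'' x'' hx'' e => by_contra fun hne => ?_, h6.2⟩
  rcases hC.gen s'' x'' s' r.2.2 hx'' (sodom_subset s' h2) hne e with h7 | h7 | h7
  · rcases h7 with ⟨i, X, -, e1, e2, e3, e4⟩ | ⟨a', -, e1, -, e2⟩
    · exact h6.1 X e1 ⟨i, e2, x'', e3, e4⟩
    · rw [e1, e2] at h2
      exact absurd (show ‖(1 : ℂ)‖ < 1 from h2) (by simp)
  · exact hC.not_str_of_mem h7 h2
  · have h8 : r.2.2 = x := by_contra fun h8 => h5 ⟨⟨s'', x'', h7⟩, h8⟩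
    rw [h8, ← hg.2.2.2.1] at he
    exact hr (by simpa using (Prod.ext_iff.1 (hinj h4 (mem_of_mem_nhds hU) he)).2)

private theorem leaf_cross (hC : C.Valid) {Z S : C.I} {p q : ℂ} (h : C.Good (.inl Z) p (.inl S) q)
    {η : ℝ} (hP : C.Prep Z p η) (a : B.R) (s' : C.I ⊕ B.R) :
    ∀ᶠ s : ℝ in 𝓝 0, ∀ ζ ∈ Disc, ∀ x ∈ C.sdom s', s ≠ 0 → B.G a (ζ, (s : ℂ)) = C.sh s' x →
    (ζ = 1 ∧ s' = .inl (C.rt a) ∧ x = ((B.d a + s : ℝ) : ℂ)) ∨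
    (ζ ∈ oDisc ∧ x ∈ C.sodom s' ∧ Transv (fun ζ => B.G a (ζ, (s : ℂ))) (C.sh s') ζ x ∧
      (∀ s'' x'', x'' ∈ C.sdom s'' → C.sh s'' x'' = C.sh s' x → (s'', x'') = (s', x)) ∧
      (s' = .inl Z → x ∉ Metric.closedBall p η) ∧
      ∀ j, s' = .inl j → Acc x (C.TrP Z p η j) (C.d j)) := by
  refine leaf_tube2 isCompact_Disc (isCompact_sdom s') fun ζ hζ x hx => ?_
  by_cases he : B.G a (ζ, 0) = C.sh s' x
  swap
  · exact (leaf_ne (B.G_smooth a).continuous (hC.sh_smooth s').continuous he).mono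
      fun q hq _ h => absurd h hq
  by_cases h0 : ((.inr a : C.I ⊕ B.R), ζ) = (s', x)
  · obtain ⟨rfl, rfl⟩ := Prod.ext_iff.1 h0
    obtain ⟨U, hU, hinj⟩ := locInj (B.G_smooth a) (B.G_bij a ζ hζ).1
    have h4 : ∀ᶠ r : ℝ × ℂ × ℂ in 𝓝 (0, ζ, ζ), (r.2.2, (0 : ℂ)) ∈ U :=
      (Continuous.tendsto' (f := fun r : ℝ × ℂ × ℂ => (r.2.2, (0 : ℂ))) (by fun_prop) _ _
        rfl).eventually hU
    filter_upwards [h4, (leaf_emb2 ζ ζ).eventually hU] with r h1 h2 hr e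
    exact absurd (by simpa using (Prod.ext_iff.1 (hinj h2 h1 e)).2) hr
  rcases hC.gen (.inr a) ζ s' x hζ hx h0 he with h1 | h1 | h1
  · rcases h1 with ⟨i, X, e, -⟩ | ⟨a', e, -⟩ <;> simp at e
  · rcases h1 with ⟨i, X, -, e, -⟩ | ⟨a', rfl, e, rfl, rfl⟩
    · simp at e
    obtain rfl := Sum.inr.inj e
    have h2 := leaf_land (hC.smooth (C.rt a)) (hC.bij (C.rt a) _ hx).1 (hC.compat a)
    have h3 : Tendsto (fun r : ℝ × ℂ × ℂ => (B.d a + r.1, r.2)) (𝓝 (0, 1, (B.d a : ℂ)))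
        (𝓝 (B.d a, 1, (B.d a : ℂ))) := Continuous.tendsto' (by fun_prop) _ _ (by simp)
    filter_upwards [h3.eventually h2] with r hr _ e
    rw [add_sub_cancel_left] at hr
    exact .inl ⟨(hr e).1, rfl, (hr e).2⟩
  · exact (leaf_good hC h hP h1).mono fun r hr h2 h3 => .inr (hr h2 h3)

theorem Valid.leaf_kit (hC : C.Valid) {Z S : C.I} {p q : ℂ} (h : C.Good (.inl Z) p (.inl S) q)
    {η : ℝ} (hP : C.Prep Z p η) (a : B.R) :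
    ∀ᶠ s in 𝓝[≠] (0 : ℝ), C.LeafOK Z p η a s := by
  have := hC.finI
  have := B.finR
  have hG := B.G_smooth a
  have h1 : ∀ᶠ s : ℝ in 𝓝 0, |B.d a + s| < 1 :=
    (isOpen_lt (f := fun s : ℝ => |B.d a + s|) (by fun_prop) continuous_const).mem_nhds
      (by simpa [hC.d_rt] using hC.d_mem (C.rt a))
  obtain ⟨N, hN, hi, hb⟩ := bij_nhdsSet hG (isCompact_Disc.prod (isCompact_singleton (x := 0)))
    (by
      rintro ⟨x, _⟩ ⟨hx, rfl⟩ ⟨y, _⟩ ⟨hy, rfl⟩ e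
      exact Prod.ext (hC.sh_injOn (.inr a) hx hy e) rfl)
    (by
      rintro ⟨x, _⟩ ⟨hx, rfl⟩
      exact B.G_bij a x hx)
  have h2 := leaf_tube' isCompact_Disc (Q := (· ∈ N)) fun ζ hζ =>
    mem_nhdsSet_iff_forall.1 hN (ζ, 0) ⟨hζ, rfl⟩
  have h3 := leaf_tube' isCompact_Disc (Q := fun q => 0 < (B.G a q).2) fun ζ hζ =>
    (isOpen_lt continuous_const hG.continuous.snd).mem_nhds (B.G_pos a ζ hζ)
  have h4 := leaf_tube' isCompact_Disc (Q := fun q => B.G a q ∉ B.O) fun ζ hζ =>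
    (B.O_closed.isOpen_compl.preimage hG.continuous).mem_nhds (B.G_O a ζ hζ)
  have h5 := leaf_tube (isCompact_sphere (0 : ℂ) 1) (Q := fun q => B.γ a q ∈ oDisc) fun ζ hζ =>
    (isOpen_oDisc.preimage (B.γ_smooth a).continuous).mem_nhds
      (B.γ_mem a ζ (mem_sphere_zero_iff_norm.1 hζ))
  have h6 := leaf_tube (isCompact_sphere (0 : ℂ) 1) fun ζ hζ =>
    (B.G_bot a ζ (mem_sphere_zero_iff_norm.1 hζ)).eventually_nhds
  have h7 := (Continuous.tendsto' (f := fun s : ℝ => (B.d a + s, (0 : ℂ))) (by fun_prop) 0 _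
    (by simp)).eventually (hC.compat a).eventually_nhds
  have h8 := eventually_all.2 (leaf_cross hC h hP a)
  filter_upwards [self_mem_nhdsWithin, nhdsWithin_le_nhds
    (h1.and (h2.and (h3.and (h4.and (h5.and (h6.and (h7.and (h8.and (leaf_onD B a)))))))))] with
    s hs ⟨h1, h2, h3, h4, h5, h6, h7, h8, h9⟩
  refine ⟨hs, h1, fun ζ hζ => hb _ (h2 ζ hζ),
    fun x hx y hy e => (Prod.ext_iff.1 (hi (h2 x hx) (h2 y hy) e)).1, h3, h4, h9,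
    fun ζ hζ => h5 ζ (mem_sphere_zero_iff_norm.2 hζ),
    fun ζ hζ => h6 ζ (mem_sphere_zero_iff_norm.2 hζ), h7,
    fun ζ hζ s' x hx => h8 s' ζ hζ x hx hs, ?_⟩
  have hGs : ContDiff ℝ ∞ fun ζ => B.G a (ζ, (s : ℂ)) := hG.comp (contDiff_id.prodMk contDiff_const)
  have key : ∀ s', {r : ℂ × ℂ | r.1 ∈ Disc ∧ r.2 ∈ C.sdom s' ∧
      B.G a (r.1, (s : ℂ)) = C.sh s' r.2}.Finite := fun s' => by
    refine finite_coinc hGs.continuous (hC.sh_smooth s').continuous isCompact_Disc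
      (isCompact_sdom s') fun ζ hζ x hx e => ?_
    rcases h8 s' ζ hζ x hx hs e with ⟨rfl, rfl, rfl⟩ | h10
    · have h11 := leaf_land (hC.smooth (C.rt a)) (hC.bij (C.rt a) _ hx).1 h7
      filter_upwards [(Continuous.tendsto' (f := fun r : ℂ × ℂ => (B.d a + s, r)) (by fun_prop) _ _
        rfl).eventually h11] with r hr _ _ e
      rw [add_sub_cancel_left] at hr
      exact Prod.ext (hr e).1 (hr e).2
    · exact (transv_isolated hGs (hC.sh_smooth s') h10.2.2.1 e).mono fun r hr _ _ => hr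
  refine (finite_iUnion fun s' => (key s').image fun r => (r.1, (s', r.2))).subset ?_
  rintro ⟨ζ, s', x⟩ hr
  exact mem_iUnion.2 ⟨s', (ζ, x), hr, rfl⟩

end Config

end Pool.Agent.Lib.MP_1d0d1b_gt
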