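import Pool.Agent.Lib.MP_1d0d1b_gt.Kit
import Pool.Agent.Lib.MP_1d0d1b_gt.BChild
import Pool.Agent.Lib.MP_1d0d1b_gt.Leaf

open Set Function Filter Topology
open scoped ContDiff Real

noncomputable section

namespace Pool.Agent.Lib.MP_1d0d1b_gt

/-- The linear map placing the semicircle of a child of the second kind. -/
def BCase_M (L : ℂ ≃L[ℝ] ℂ) (r : ℝ) : ℂ →L[ℝ] ℂ :=
  (L : ℂ →L[ℝ] ℂ).comp ((-r) • (Complex.conjCLE : ℂ →L[ℝ] ℂ))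

theorem BCase_M_apply (L : ℂ ≃L[ℝ] ℂ) (r : ℝ) (ξ : ℂ) :
    BCase_M L r ξ = L (-(r : ℂ) * (starRingEnd ℂ) ξ) := by
  change L ((-r) • (starRingEnd ℂ) ξ) = _
  rw [Complex.real_smul, Complex.ofReal_neg]

theorem BCase_M_unit (L : ℂ ≃L[ℝ] ℂ) (r t : ℝ) {ξ : ℂ} (h : ‖ξ‖ = 1) :
    BCase_M L r (t • ξ) = L (-((r * t : ℝ) : ℂ) / ξ) := by
  rw [BCase_M_apply, div_eq_mul_inv, Complex.inv_def, Complex.normSq_eq_norm_sq, h]
  congr 1
  simp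
  ring

theorem BCase_norm {r t : ℝ} (hr : 0 < r) {ξ : ℂ} (h : ‖ξ‖ = 1) :
    ‖-((r * t : ℝ) : ℂ) / ξ‖ = r * |t| := by
  rw [norm_div, norm_neg, h, div_one, Complex.norm_real, Real.norm_eq_abs, abs_mul, abs_of_pos hr]

theorem BCase_cay {r : ℝ} (hr : 0 < r) {ξ W : ℂ} (hξ : ξ ∈ Half) (hW : W ≠ -Complex.I)
    (hn : ‖W‖ = r) (he : CayR r ξ = Cay W) : ‖ξ‖ = 1 ∧ W = -((r * 1 : ℝ) : ℂ) / ξ := by
  have h0 : ξ ≠ 0 := by
    rintro rfl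
    rw [CayR_zero hr, Cay] at he
    have h1 : Complex.I + W ≠ 0 := fun e => hW (by linear_combination e)
    rw [eq_div_iff h1] at he
    exact Complex.I_ne_zero (by linear_combination (-1 / 2 : ℂ) * he)
  have him : -r < ξ.im := by linarith [hξ.2]
  rw [CayR_eq_Cay hr h0 him] at he
  have h2 : -(r : ℂ) / ξ ≠ -Complex.I := by
    intro e
    rw [div_eq_iff h0] at e
    have := congrArg Complex.re e
    simp at this
    linarith [hξ.2]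
  have h3 := Cay_inj h2 hW he
  refine ⟨?_, by rw [mul_one, h3]⟩
  rw [← h3, norm_div, norm_neg, Complex.norm_real, Real.norm_eq_abs, abs_of_pos hr,
    div_eq_iff (norm_ne_zero_iff.2 h0)] at hn
  exact (mul_left_cancel₀ hr.ne' (by rw [mul_one]; exact hn)).symm

namespace Config

variable {B : Base} {C : Config B}

theorem BCase_swap {Z : C.I} {p : ℂ} {η : ℝ} {F' : ℂ × ℂ → E4} {j : Fin 2} {e₁ e₂ : ℂ}
    (h : C.FingerOK Z p η F' j e₁ e₂) : C.FingerOK Z p η F' j e₂ e₁ :=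
  { h with onD := fun ξ hξ j' z hz e => ⟨(h.onD ξ hξ j' z hz e).1, (h.onD ξ hξ j' z hz e).2.symm⟩ }

/-- The move, once all choices are made. -/
theorem BCase_build {Z : C.I} {a : B.R} {p : ℂ} {η : ℝ} (hP : C.Prep Z p η) {s κ σ r : ℝ}
    (hs : C.LeafOK Z p η a s) (hκ : 0 < κ) (hκ' : κ ≤ 1 / 3) (hr : 0 < r)
    {Ψ : ℝ × ℝ × ℂ → E4} {L : ℂ ≃L[ℝ] ℂ} (hL1 : (L 1).im = 0) (hLI : 0 < (L Complex.I).im)
    {F' Fc : ℂ × ℂ → E4} (hF : IsFinger (C.F Z) Ψ L p κ σ r F')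
    (hOK : C.FingerOK Z p η F' (B.lo a) (p + L (r : ℂ)) (p + L (-(r : ℂ))))
    (hW : ∀ W, ‖W‖ ≤ 3 * r → (∀ ζ ∈ Disc, B.G a (ζ, (s : ℂ)) = Ψ (hh κ (‖W‖ ^ 2 / r ^ 2), 0, W) →
      hh κ (‖W‖ ^ 2 / r ^ 2) = 1 ∧ ζ = Cay W ∧ W ≠ -Complex.I) ∧ p + L W ∈ Metric.ball p η)
    (hsm : ContDiff ℝ ∞ Fc) (hbij : ∀ ξ ∈ Half, Bijective (fderiv ℝ Fc (ξ, 0)))
    (hz : ∀ ξ₀ ∈ Half, ∀ᶠ e : ℂ × ℝ in 𝓝 (ξ₀, 0),
      Fc (e.1, (e.2 : ℂ)) = B.G a (CayR r e.1, ((s + σ * e.2 : ℝ) : ℂ)))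
    (ht : ∀ ξ₀ ∈ Semi, ∀ᶠ e : ℂ × ℂ in 𝓝 (ξ₀, 0),
      Fc e = Ψ (hh κ ((1 + e.2.im) ^ 2), σ * e.2.re, -((r * (1 + e.2.im) : ℝ) : ℂ) / e.1)) :
    Nonempty (C.Upd Z p η) := by
  have hz1 : ∀ ξ ∈ Half, leaf Fc =ᶠ[𝓝 ξ] fun x => B.G a (CayR r x, (s : ℂ)) := by
    intro ξ hξ
    have h1 : Tendsto (fun x : ℂ => (x, (0 : ℝ))) (𝓝 ξ) (𝓝 (ξ, 0)) :=
      (continuous_id.prodMk continuous_const).tendsto ξ
    filter_upwards [h1.eventually (hz ξ hξ)] with x hx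
    simpa [leaf] using hx
  have hz0 : ∀ ξ ∈ Half, Fc (ξ, 0) = B.G a (CayR r ξ, (s : ℂ)) := fun ξ hξ =>
    (hz1 ξ hξ).self_of_nhds
  have htop : ∀ ξ₀ ∈ Semi, ∀ᶠ q : ℂ × ℂ in 𝓝 (ξ₀, 0), ‖q.1‖ = 1 →
      Fc q = F' (p + BCase_M L r ((1 + q.2.im) • q.1), (q.2.re : ℂ)) := by
    intro ξ₀ hξ₀
    have h1 : ∀ᶠ q : ℂ × ℂ in 𝓝 (ξ₀, 0), |1 + q.2.im| < 2 := by
      have hc : Continuous fun q : ℂ × ℂ => |1 + q.2.im| := by fun_prop
      exact hc.continuousAt.eventually_lt continuousAt_const (by simp)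
    filter_upwards [ht ξ₀ hξ₀, h1] with q hq hq' hn
    have h2 := BCase_norm (t := 1 + q.2.im) hr hn
    rw [hq, BCase_M_unit L r _ hn, hF.slab _ _ (by rw [h2]; nlinarith), h2, mul_pow, sq_abs,
      mul_div_cancel_left₀ _ (pow_ne_zero 2 hr.ne')]
  have hβ : ∀ ξ ∈ Semi, p + BCase_M L r ξ ∈ Metric.ball p η := by
    intro ξ hξ
    rw [← one_smul ℝ ξ, BCase_M_unit L r _ hξ.1]
    exact (hW _ (by rw [BCase_norm hr hξ.1, abs_one]; linarith)).2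
  have hreal : ∀ x : ℝ, |x| ≤ 1 → (x : ℂ) ∈ Half := fun x hx => Diam_subset (ofReal_mem_Diam hx)
  refine ⟨{
    F' := F'
    Fc := Fc
    loc := B.lo a
    αc := fun q => B.γ a (CayR r (q.1 : ℂ), s + σ * q.2)
    Mc := BCase_M L r
    finger := ?_
    smooth := hsm
    bij := hbij
    inj := ?_
    α_smooth := ?_
    α_mem := ?_
    bot := ?_
    top := htop
    β_mem := hβ
    M_one := ?_
    M_I := ?_
    pos := fun ξ hξ => by rw [hz0 ξ hξ]; exact hs.pos _ (CayR_mem hr hξ)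
    notO := fun ξ hξ => by rw [hz0 ξ hξ]; exact hs.notO _ (CayR_mem hr hξ)
    onD := ?_
    onF := ?_
    onOld := ?_
    finOld := ?_ }⟩
  · have := BCase_swap hOK
    simpa [BCase_M_apply] using this
  · intro ξ hξ ξ' hξ' e
    have e' : Fc (ξ, 0) = Fc (ξ', 0) := e
    rw [hz0 ξ hξ, hz0 ξ' hξ'] at e'
    exact CayR_injOn hr hξ hξ' (hs.inj (CayR_mem hr hξ) (CayR_mem hr hξ') e')
  · exact (B.γ_smooth a).comp (((CayR_real_contDiff hr).comp contDiff_fst).prodMk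
      (contDiff_const.add (contDiff_const.mul contDiff_snd)))
  · intro x _
    simpa using hs.γ_mem _ (norm_CayR_real hr x)
  · intro x₀ hx₀
    have h1 : Tendsto (fun q : ℝ × ℝ => ((q.1 : ℂ), q.2)) (𝓝 (x₀, 0)) (𝓝 ((x₀ : ℂ), 0)) :=
      Continuous.tendsto' (by fun_prop) _ _ rfl
    have h2 : Tendsto (fun q : ℝ × ℝ => (CayR r (q.1 : ℂ), s + σ * q.2)) (𝓝 (x₀, 0))
        (𝓝 (CayR r (x₀ : ℂ), s)) :=
      Continuous.tendsto' (((CayR_real_contDiff hr).continuous.comp continuous_fst).prodMk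
        (by fun_prop)) _ _ (by simp)
    filter_upwards [h1.eventually (hz _ (hreal x₀ hx₀)),
      h2.eventually (hs.bot _ (norm_CayR_real hr x₀))] with q hq hq'
    exact hq.trans (hq' (norm_CayR_real hr q.1))
  · have h1 : BCase_M L r 1 = (-r) • L 1 := by
      rw [← map_smul, BCase_M_apply]; simp
    rw [h1]
    refine ⟨by simp [hL1], smul_ne_zero (neg_ne_zero.2 hr.ne') ?_⟩
    simp
  · have h1 : BCase_M L r Complex.I = r • L Complex.I := by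
      rw [← map_smul, BCase_M_apply]; simp
    rw [h1, Complex.smul_im]
    exact mul_pos hr hLI
  · intro ξ hξ j z hzz e
    rw [hz0 ξ hξ] at e
    obtain ⟨h1, h2⟩ := hs.onD _ (CayR_mem hr hξ) j z hzz e
    exact ⟨⟨hξ.1, (norm_CayR_eq_one_iff hr hξ).1 h1⟩, h2⟩
  · intro ξ hξ ξ' hξ' e
    rw [hz0 ξ hξ] at e
    by_cases hw : ‖L.symm (ξ' - p)‖ ≤ 3 * r
    · obtain ⟨W, rfl⟩ : ∃ W, ξ' = p + L W := ⟨L.symm (ξ' - p), by simp⟩
      rw [add_sub_cancel_left, L.symm_apply_apply] at hw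
      rw [hF.zero] at e
      obtain ⟨h1, h2, h3⟩ := (hW W hw).1 _ (CayR_mem hr hξ) e
      rw [hh_eq_one_iff hκ hκ', div_eq_one_iff_eq (pow_ne_zero 2 hr.ne'),
        sq_eq_sq₀ (norm_nonneg _) hr.le] at h1
      obtain ⟨h4, h5⟩ := BCase_cay hr hξ h3 h1 h2
      refine ⟨⟨h4, hξ.2⟩, ?_⟩
      rw [h5, ← BCase_M_unit L r 1 h4, one_smul]
    · exfalso
      rw [hF.out _ _ (not_le.1 hw).le] at e
      have h1 := Metric.ball_subset_closedBall hξ'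
      rcases hs.cross _ (CayR_mem hr hξ) (.inl Z) ξ' (oHalf_subset (hP.sub h1)) e with h2 | h2
      · exact CayR_ne_one hr hξ h2.1
      · exact h2.2.2.2.2.1 rfl h1
  · intro ξ hξ s' x hx e
    have e' := e
    rw [hz0 ξ hξ] at e'
    rcases hs.cross _ (CayR_mem hr hξ) s' x hx.1 e' with h2 | ⟨h1, h2, h3, h4, -, h6⟩
    · exact (CayR_ne_one hr hξ h2.1).elim
    have him : -r < ξ.im := by linarith [hξ.2]
    refine ⟨⟨lt_of_le_of_ne hξ.1 fun hn => ?_, lt_of_le_of_ne hξ.2 fun hn => ?_⟩, h2, ?_,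
      fun s'' x'' hx'' => h4 s'' x'' hx''.1, h6⟩
    · have h7 := (htop ξ ⟨hn, hξ.2⟩).self_of_nhds hn
      simp only [Complex.zero_im, add_zero, one_smul, Complex.zero_re, Complex.ofReal_zero] at h7
      exact hOK.old _ (hβ ξ ⟨hn, hξ.2⟩) s' x hx (h7.symm.trans e)
    · exact ne_of_lt h1 ((norm_CayR_eq_one_iff hr hξ).2 hn.symm)
    · refine Transv.comp_left (κ := CayR r) h3 ?_
        ((CayR_contDiffAt hr him).differentiableAt (by simp)) (CayR_fderiv_bij hr him).2 (hz1 ξ hξ)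
      exact (((B.G_smooth a).comp (contDiff_id.prodMk contDiff_const)).differentiable
        (by simp)) _
  · refine Set.Finite.of_injOn (f := fun q : ℂ × ((C.I ⊕ B.R) × ℂ) => (CayR r q.1, q.2)) ?_ ?_
      hs.fin
    · rintro q ⟨h1, h2, h3⟩
      exact ⟨CayR_mem hr h1, h2.1, (hz0 _ h1).symm.trans h3⟩
    · rintro q ⟨h1, -⟩ q' ⟨h1', -⟩ e
      exact Prod.ext (CayR_injOn hr h1 h1' (Prod.ext_iff.1 e).1) (Prod.ext_iff.1 e).2

theorem Valid.upd_B (hC : C.Valid) {Z : C.I} {a : B.R} {p q : ℂ}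
    (h : C.Good (.inl Z) p (.inl (C.rt a)) q) {η : ℝ} (hP : C.Prep Z p η) :
    Nonempty (C.Upd Z p η) := by
  have hq : q ∈ oHalf := h.2.2.1
  have hp : p ∈ oHalf := h.2.1
  have hacc : ∀ᶠ s in 𝓝[≠] (0 : ℝ), Acc q (C.Tr (C.rt a)) (B.d a + s) := by
    have h1 := (hC.acc _ q _ p h.symm).eventually (hC.isCompact_Tr _).isClosed
    rw [hC.d_rt] at h1
    have h2 : Tendsto (fun s : ℝ => (q, B.d a + s)) (𝓝 0) (𝓝 (q, B.d a)) :=
      Continuous.tendsto' (by fun_prop) _ _ (by simp)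
    exact (h2.eventually h1).filter_mono nhdsWithin_le_nhds
  obtain ⟨s, hs, hacc⟩ := ((hC.leaf_kit h hP a).and hacc).exists
  let P : Set ℂ := {x | x ∈ oHalf ∧ ∃ ζ ∈ Disc, B.G a (ζ, (s : ℂ)) = C.F (C.rt a) (x, 0)}
  have hPf : P.Finite := by
    refine (hs.fin.image fun e => e.2.2).subset ?_
    rintro x ⟨hx, ζ, hζ, e⟩
    exact ⟨(ζ, .inl (C.rt a), x), ⟨hζ, oHalf_subset hx, e⟩, rfl⟩
  have hqP : q ∉ P := by
    rintro ⟨-, ζ, hζ, e⟩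
    rcases hs.cross ζ hζ (.inl Z) p (oHalf_subset hp) (e.trans h.2.2.2.1.symm) with h2 | h2
    · exact h.1 h2.2.1
    · exact h2.2.2.2.2.1 rfl (Metric.mem_closedBall_self hP.η_pos.le)
  obtain ⟨g, hg, hg1, hgP⟩ := hC.goodPath h.symm hacc (fun a' ha' e => by
    have h1 := hC.par_rt a
    rw [ha', hC.par_rt] at h1
    rw [Sum.inl_injective h1] at e
    exact hs.ne (by linarith)) hPf (fun x hx => hx.1) hqP
  obtain ⟨Ψ, L, N, hΨ, hN, hi, hb⟩ := hC.chart_kit h hg (v₁ := 0) le_rfl (by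
    rw [hg1, add_zero]; exact (abs_lt.1 hs.land_mem).2.le)
  have hk : ((1 : ℝ), (0 : ℝ), (0 : ℂ)) ∈ Kcore 0 := Or.inl ⟨1, ⟨zero_le_one, le_rfl⟩, rfl⟩
  have hN1 : N ∈ 𝓝 ((1 : ℝ), (0 : ℝ), (0 : ℂ)) := mem_nhdsSet_iff_forall.1 hN _ hk
  have hc : ∀ᶠ e : ℝ × ℂ in 𝓝 (0, 0),
      Ψ (1, e.1, e.2) = B.G a (Cay e.2, ((s + e.1 : ℝ) : ℂ)) := by
    have h2 : Tendsto (fun e : ℝ × ℂ => (B.d a + s + e.1, e.2)) (𝓝 (0, 0)) (𝓝 (B.d a + s, 0)) :=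
      Continuous.tendsto' (by fun_prop) _ _ (by simp)
    filter_upwards [h2.eventually hs.compat] with e he
    rw [hΨ.atD, hg1, he]
    congr 3
    ring
  have hstd := standard (φ := fun ζ => B.G a (ζ, (s : ℂ)))
    ((B.G_smooth a).continuous.comp (continuous_id.prodMk continuous_const)) isCompact_Disc
    hΨ.smooth.continuous hN hi (P := fun n ζ => n.1 = 1 ∧ ζ = Cay n.2.2 ∧ n.2.2 ≠ -Complex.I) (by
      intro ζ hζ k hk e
      obtain ⟨u, hu, rfl⟩ : ∃ u ∈ Icc (0 : ℝ) 1, k = (u, 0, 0) := by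
        rcases hk with hk | ⟨v, hv, rfl⟩
        · exact hk
        · exact ⟨1, ⟨zero_le_one, le_rfl⟩, by rw [le_antisymm hv.2 hv.1]⟩
      rw [hΨ.atS, Complex.ofReal_zero, add_zero] at e
      have h1 : path g q.im u ∈ Half :=
        ⟨(hg.norm_lt u hu).le, mul_nonneg (sub_nonneg.2 hu.2) hq.2.le⟩
      have h2 : ζ = 1 := by
        rcases hs.cross ζ hζ (.inl (C.rt a)) _ h1 e with h2 | h2
        · exact h2.1
        · exact (hgP u hu ⟨h2.2.1, ζ, hζ, e⟩).elim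
      subst h2
      have h3 : Tendsto (fun w : ℂ => ((1 : ℝ), (0 : ℝ), w)) (𝓝 0) (𝓝 (1, 0, 0)) :=
        Continuous.tendsto' (by fun_prop) _ _ rfl
      have h4 : Tendsto (fun w : ℂ => ((0 : ℝ), w)) (𝓝 0) (𝓝 (0, 0)) :=
        Continuous.tendsto' (by fun_prop) _ _ rfl
      have h5 : ∀ᶠ w : ℂ in 𝓝 0, w ≠ -Complex.I :=
        eventually_ne_nhds (neg_ne_zero.2 Complex.I_ne_zero).symm
      filter_upwards [cay_eventually ((h3.eventually hN1).and ((h4.eventually hc).and h5))]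
      rintro _ ⟨w, rfl, h6, h7, h8⟩
      refine ⟨(1, 0, w), h6, ?_, rfl, rfl, h8⟩
      rw [h7, add_zero])
  obtain ⟨κ, σ, hκ, hκ', hσ, hr⟩ := hC.finger_kit h hP hg hΨ (inter_mem hN hstd)
    (hi.mono inter_subset_left) fun n hn => hb n hn.1
  have hch := bchild_exists hΨ.smooth (B.G_smooth a) hσ hκ hc (hb _ (mem_of_mem_nhds hN1)) hs.bij
  obtain ⟨r, ⟨⟨F', hF, hOK, hW⟩, Fc, hsm, hbij, hz, ht⟩, hr0⟩ :=
    ((hr.and hch).and self_mem_nhdsWithin).exists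
  rw [hC.lo_rt] at hOK
  exact BCase_build hP hs hκ hκ' hr0 hΨ.L_one hΨ.L_I hF hOK
    (fun W hw => ⟨(hW W hw).1.2, (hW W hw).2⟩) hsm hbij hz ht

end Config

end Pool.Agent.Lib.MP_1d0d1b_gt
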