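import Pool.Agent.Lib.MP_1d0d1b_gt.Basic1

open Set Function Filter Topology
open scoped ContDiff Real

noncomputable section

namespace Pool.Agent.Lib.MP_1d0d1b_gt

namespace Config

variable {B : Base} {C : Config B}

private theorem Basic2_real_not_mem {d : ℝ} {P : Set ℂ} (hP : P ⊆ oHalf) : (d : ℂ) ∉ P := by
  intro h
  have := (hP h).2
  simp at this

private theorem Basic2_ball {p : ℂ} {U : Set ℂ} (hU : U ∈ 𝓝 p) :
    ∀ᶠ η in 𝓝[>] (0 : ℝ), Metric.closedBall p η ⊆ U :=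
  mem_nhdsWithin_of_mem_nhds (eventually_closedBall_subset hU)

private theorem Basic2_thick {q p : ℂ} {T : Set ℂ} {d : ℝ} (h : Acc q T d) (hT : IsClosed T)
    (hq : q ∈ oHalf) (hp : p ∈ oHalf) (hqp : q ≠ p) :
    ∀ᶠ η in 𝓝[>] (0 : ℝ), Acc q (T ∪ Metric.closedBall p η) d :=
  (h.avoid hT hq.2 (finite_singleton p) (by simpa using hqp)
    (Basic2_real_not_mem (singleton_subset_iff.2 hp))).thicken

theorem Valid.prep (hC : C.Valid) {Z : C.I} {p : ℂ} {s' : C.I ⊕ B.R} {x' : ℂ}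
    (h : C.Good (.inl Z) p s' x') : ∀ᶠ η in 𝓝[>] (0 : ℝ), C.Prep Z p η := by
  have hfinI := hC.finI
  have hp : p ∈ oHalf := h.2.1
  have hpT : p ∉ C.Tr Z := hC.good_not_Tr h
  have hTc : IsClosed (C.Tr Z) := (hC.isCompact_Tr Z).isClosed
  have hG := hC.finite_good Z
  have h1 : ∀ᶠ η in 𝓝[>] (0 : ℝ), 0 < η := self_mem_nhdsWithin
  have h2 : ∀ᶠ η in 𝓝[>] (0 : ℝ), Metric.closedBall p η ⊆ oHalf :=
    Basic2_ball ((isOpen_sodom (C := C) (.inl Z)).mem_nhds hp)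
  have h3 : ∀ᶠ η in 𝓝[>] (0 : ℝ), Metric.closedBall p η ⊆
      ({x | ∃ s' x', C.Good (.inl Z) x s' x'} \ {p})ᶜ :=
    Basic2_ball ((hG.subset sdiff_subset).isClosed.isOpen_compl.mem_nhds (by simp))
  have h4 : ∀ᶠ η in 𝓝[>] (0 : ℝ), Metric.closedBall p η ⊆ (C.Tr Z)ᶜ :=
    Basic2_ball (hTc.isOpen_compl.mem_nhds hpT)
  have h5 : ∀ᶠ η in 𝓝[>] (0 : ℝ), ∀ x ∈ {x | ∃ s' x', C.Good (.inl Z) x s' x'}, x ≠ p →
      Acc x (C.Tr Z ∪ Metric.closedBall p η) (C.d Z) := by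
    rw [eventually_all_finite hG]
    rintro x ⟨s'', x'', hx⟩
    by_cases hxp : x = p
    · exact Eventually.of_forall fun _ hne => absurd hxp hne
    · exact (Basic2_thick (hC.acc Z x s'' x'' hx) hTc hx.2.1 hp hxp).mono fun _ hh _ => hh
  have h6 : ∀ᶠ η in 𝓝[>] (0 : ℝ), ∀ c, C.par c = .inr Z →
      Acc (C.β c 1) (C.TrX Z c ∪ Metric.closedBall p η) (C.d Z) := by
    rw [eventually_all]
    intro c
    by_cases hc : C.par c = .inr Z
    · have h1S : (1 : ℂ) ∈ Semi := by simp [Semi]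
      have hne : C.β c 1 ≠ p := fun he => hpT ⟨c, hc, 1, h1S, he.symm⟩
      exact (Basic2_thick (hC.accE c Z hc) (hC.isCompact_TrX Z c).isClosed
        (hC.β_mem c Z hc 1 h1S) hp hne).mono fun _ hh _ => hh
    · exact Eventually.of_forall fun _ hh => absurd hh hc
  have h7 : ∀ᶠ η in 𝓝[>] (0 : ℝ), Metric.closedBall p η ⊆ {x | Acc x (C.Tr Z) (C.d Z)} := by
    apply Basic2_ball
    have hc : ContinuousAt (fun x : ℂ => (x, C.d Z)) p := by fun_prop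
    exact hc.eventually ((hC.acc Z p s' x' h).eventually hTc)
  filter_upwards [h1, h2, h3, h4, h5, h6, h7] with η h1 h2 h3 h4 h5 h6 h7
  refine ⟨h1, h2, ?_, ?_, ?_, h6, fun x hx => h7 hx⟩
  · intro x hx s'' x'' hg
    by_contra hne
    exact h3 hx ⟨⟨s'', x'', hg⟩, hne⟩
  · exact disjoint_left.2 fun x hx hxT => h4 hx hxT
  · intro x s'' x'' hg hne
    exact h5 x ⟨s'', x'', hg⟩ hne

/-- A good path from any accessible double point, avoiding any further finite set. -/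
theorem Valid.goodPath (hC : C.Valid) {S : C.I} {q : ℂ} {s' : C.I ⊕ B.R} {x' : ℂ}
    (h : C.Good (.inl S) q s' x') {d' : ℝ} (ha : Acc q (C.Tr S) d')
    (hl : ∀ a, S = C.rt a → d' ≠ B.d a) {P : Set ℂ} (hP : P.Finite) (hPs : P ⊆ oHalf)
    (hq : q ∉ P) :
    ∃ g, C.GoodPath S q g ∧ g 1 = d' ∧ ∀ u ∈ Icc (0 : ℝ) 1, path g q.im u ∉ P := by
  have hqo : q ∈ oHalf := h.2.1
  have hG := hC.finite_good S
  have hfin : (P ∪ ({x | ∃ s' x', C.Good (.inl S) x s' x'} \ {q})).Finite :=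
    hP.union (hG.subset sdiff_subset)
  have hsub : P ∪ ({x | ∃ s' x', C.Good (.inl S) x s' x'} \ {q}) ⊆ oHalf := by
    rintro x (hx | ⟨⟨s'', x'', hx⟩, -⟩)
    · exact hPs hx
    · exact hx.2.1
  obtain ⟨g, hg, hg0, hg1, hgu⟩ := ha.avoid (hC.isCompact_Tr S).isClosed hqo.2 hfin
    (by simp [hq]) (Basic2_real_not_mem hsub)
  refine ⟨g, ⟨hg, hg0, fun u hu => (hgu u hu).1, fun u hu hT => (hgu u hu).2 (Or.inl hT), ?_, ?_⟩,
    hg1, fun u hu hT => (hgu u hu).2 (Or.inr (Or.inl hT))⟩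
  · intro u hu s'' x'' hgood
    by_contra hne
    exact (hgu u hu).2 (Or.inr (Or.inr ⟨⟨s'', x'', hgood⟩, hne⟩))
  · intro a hS
    rw [hg1]
    exact hl a hS

end Config

end Pool.Agent.Lib.MP_1d0d1b_gt
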