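import Pool.Agent.Lib.MP_1d0d1b_gt.State

open Set Function Filter Topology
open scoped ContDiff Real

noncomputable section

namespace Pool.Agent.Lib.MP_1d0d1b_gt

theorem path_zero {g : ℝ → ℝ} {q : ℂ} (h : g 0 = q.re) : path g q.im 0 = q := by
  apply Complex.ext <;> simp [path, h]

theorem path_one (g : ℝ → ℝ) (y : ℝ) : path g y 1 = (g 1 : ℂ) := by
  apply Complex.ext <;> simp [path]

private theorem paths_eq (g : ℝ → ℝ) (y u : ℝ) :
    path g y u = (g u : ℂ) + (((1 - u) * y : ℝ) : ℂ) * Complex.I := by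
  apply Complex.ext <;> simp [path]

theorem path_continuous {g : ℝ → ℝ} (hg : Continuous g) (y : ℝ) : Continuous (path g y) := by
  have : path g y = fun u => (g u : ℂ) + (((1 - u) * y : ℝ) : ℂ) * Complex.I :=
    funext fun u => paths_eq g y u
  rw [this]
  fun_prop

theorem Acc.mono {q : ℂ} {T T' : Set ℂ} {d : ℝ} (h : Acc q T d) (hT : T' ⊆ T) : Acc q T' d := by
  obtain ⟨g, hg, h0, h1, hu⟩ := h
  exact ⟨g, hg, h0, h1, fun u hu' => ⟨(hu u hu').1, fun hx => (hu u hu').2 (hT hx)⟩⟩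

theorem Acc.empty {q : ℂ} (h : q ∈ oHalf) {d : ℝ} (hd : |d| < 1) : Acc q ∅ d := by
  refine ⟨fun u => (1 - u) * q.re + u * d, by fun_prop, by simp, by simp, fun u hu => ⟨?_, by simp⟩⟩
  have he : path (fun u => (1 - u) * q.re + u * d) q.im u = (1 - u) • q + u • (d : ℂ) := by
    apply Complex.ext <;> simp [path]
  rw [he]
  have hq : q ∈ Metric.ball (0 : ℂ) 1 := by simpa using h.1
  have hd' : (d : ℂ) ∈ Metric.ball (0 : ℂ) 1 := by simpa using hd
  have := convex_ball (0 : ℂ) 1 hq hd' (sub_nonneg.2 hu.2) hu.1 (by ring)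
  simpa using this

private theorem paths_open {E : Type*} [TopologicalSpace E] {T : Set ℂ} (hT : IsClosed T)
    {Γ : E → ℝ → ℂ} (hΓ : Continuous fun p : E × ℝ => Γ p.1 p.2) {e0 : E}
    (h0 : ∀ u ∈ Icc (0 : ℝ) 1, ‖Γ e0 u‖ < 1 ∧ Γ e0 u ∉ T) :
    ∀ᶠ e in 𝓝 e0, ∀ u ∈ Icc (0 : ℝ) 1, ‖Γ e u‖ < 1 ∧ Γ e u ∉ T := by
  refine isCompact_Icc.eventually_forall_of_forall_eventually fun u hu => ?_
  have hU : IsOpen {z : ℂ | ‖z‖ < 1 ∧ z ∉ T} :=
    (isOpen_lt continuous_norm continuous_const).inter hT.isOpen_compl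
  exact (hΓ.continuousAt (x := (e0, u))).eventually (hU.mem_nhds (h0 u hu))

/-- Finitely many points can be avoided. -/
theorem Acc.avoid {q : ℂ} {T : Set ℂ} {d : ℝ} (h : Acc q T d) (hT : IsClosed T) (hq : 0 < q.im)
    {P : Set ℂ} (hP : P.Finite) (hqP : q ∉ P) (hdP : (d : ℂ) ∉ P) : Acc q (T ∪ P) d := by
  obtain ⟨g, hg, h0, h1, hu⟩ := h
  set G : ℝ → ℝ → ℝ := fun c u => g u + c * (u * (1 - u)) with hG
  have hgc : Continuous g := hg.continuous
  have hcont : Continuous fun p : ℝ × ℝ => path (G p.1) q.im p.2 := by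
    simp only [paths_eq, hG]
    fun_prop
  have hev : ∀ᶠ c in 𝓝 (0 : ℝ), ∀ u ∈ Icc (0 : ℝ) 1,
      ‖path (G c) q.im u‖ < 1 ∧ path (G c) q.im u ∉ T := by
    refine paths_open hT (Γ := fun c u => path (G c) q.im u) hcont ?_
    have : G 0 = g := by funext u; simp [hG]
    rw [this]
    exact hu
  have hbad : {c : ℝ | ∃ p ∈ P, ∃ u : ℝ, path (G c) q.im u = p}.Finite := by
    have : {c : ℝ | ∃ p ∈ P, ∃ u : ℝ, path (G c) q.im u = p} =
        ⋃ p ∈ P, {c : ℝ | ∃ u : ℝ, path (G c) q.im u = p} := by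
      ext c; simp
    rw [this]
    refine hP.biUnion fun p hp => Set.Subsingleton.finite ?_
    rintro c ⟨u, hcu⟩ c' ⟨u', hcu'⟩
    have him : (1 - u) * q.im = (1 - u') * q.im := by
      have e1 := congrArg Complex.im hcu
      have e2 := congrArg Complex.im hcu'
      simp only [path] at e1 e2
      rw [e1, e2]
    have huu : u = u' := by
      have := mul_right_cancel₀ hq.ne' him
      linarith
    subst huu
    have hre : c * (u * (1 - u)) = c' * (u * (1 - u)) := by
      have e1 := congrArg Complex.re hcu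
      have e2 := congrArg Complex.re hcu'
      simp only [path, hG] at e1 e2
      linarith
    have hne : u * (1 - u) ≠ 0 := by
      intro hz
      rcases mul_eq_zero.1 hz with hz | hz
      · subst hz
        rw [path_zero (by simp [hG, h0])] at hcu
        exact hqP (hcu ▸ hp)
      · have : u = 1 := by linarith
        subst this
        rw [path_one] at hcu
        have : G c 1 = d := by simp [hG, h1]
        rw [this] at hcu
        exact hdP (hcu ▸ hp)
    exact mul_right_cancel₀ hne hre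
  obtain ⟨c, hc, hcb⟩ := (infinite_of_mem_nhds (0 : ℝ) hev).exists_notMem_finite hbad
  refine ⟨G c, ?_, by simp [hG, h0], by simp [hG, h1], fun u hu' => ⟨(hc u hu').1, ?_⟩⟩
  · simp only [hG]
    exact hg.add (by fun_prop)
  · rintro (hx | hx)
    · exact (hc u hu').2 hx
    · exact hcb ⟨_, hx, u, rfl⟩

/-- Accessibility is stable under moving both end points. -/
theorem Acc.eventually {q : ℂ} {T : Set ℂ} {d : ℝ} (h : Acc q T d) (hT : IsClosed T) :
    ∀ᶠ e : ℂ × ℝ in 𝓝 (q, d), Acc e.1 T e.2 := by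
  obtain ⟨g, hg, h0, h1, hu⟩ := h
  set G : ℂ × ℝ → ℝ → ℝ := fun e u => g u + ((1 - u) * (e.1.re - q.re) + u * (e.2 - d)) with hG
  have hgc : Continuous g := hg.continuous
  have hcont : Continuous fun p : (ℂ × ℝ) × ℝ => path (G p.1) p.1.1.im p.2 := by
    simp only [paths_eq, hG]
    fun_prop
  have hev : ∀ᶠ e in 𝓝 (q, d), ∀ u ∈ Icc (0 : ℝ) 1,
      ‖path (G e) e.1.im u‖ < 1 ∧ path (G e) e.1.im u ∉ T := by
    refine paths_open hT (Γ := fun e u => path (G e) e.1.im u) hcont ?_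
    have : G (q, d) = g := by funext u; simp [hG]
    rw [this]
    exact hu
  filter_upwards [hev] with e he
  refine ⟨G e, ?_, by simp [hG, h0], by simp [hG, h1], he⟩
  simp only [hG]
  exact hg.add (by fun_prop)

theorem Acc.thicken {q p : ℂ} {T : Set ℂ} {d : ℝ} (h : Acc q (T ∪ {p}) d) :
    ∀ᶠ η in 𝓝[>] (0 : ℝ), Acc q (T ∪ Metric.closedBall p η) d := by
  obtain ⟨g, hg, h0, h1, hu⟩ := h
  have hev : ∀ᶠ η in 𝓝 (0 : ℝ), ∀ u ∈ Icc (0 : ℝ) 1, η < dist (path g q.im u) p := by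
    refine isCompact_Icc.eventually_forall_of_forall_eventually fun u hu' => ?_
    have hc := path_continuous hg.continuous q.im
    have hU : IsOpen {z : ℝ × ℝ | z.1 < dist (path g q.im z.2) p} :=
      isOpen_lt continuous_fst (by fun_prop)
    refine hU.mem_nhds ?_
    have : path g q.im u ≠ p := fun hx => (hu u hu').2 (Or.inr hx)
    exact dist_pos.2 this
  filter_upwards [nhdsWithin_le_nhds hev] with η hη
  refine ⟨g, hg, h0, h1, fun u hu' => ⟨(hu u hu').1, ?_⟩⟩
  rintro (hx | hx)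
  · exact (hu u hu').2 (Or.inl hx)
  · exact absurd (Metric.mem_closedBall.1 hx) (not_le.2 (hη u hu'))

/-- Descending paths also avoid any set lying weakly above the starting point. -/
theorem Acc.above {q : ℂ} {T L : Set ℂ} {d : ℝ} (h : Acc q T d) (hq : 0 < q.im)
    (hL : ∀ x ∈ L, q.im ≤ x.im) (hqL : q ∉ L) : Acc q (T ∪ L) d := by
  obtain ⟨g, hg, h0, h1, hu⟩ := h
  refine ⟨g, hg, h0, h1, fun u hu' => ⟨(hu u hu').1, ?_⟩⟩
  rintro (hx | hx)
  · exact (hu u hu').2 hx
  · have hle := hL _ hx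
    simp only [path] at hle
    have hu0 : u = 0 := by
      by_contra hne
      have hpos : 0 < u := lt_of_le_of_ne hu'.1 (Ne.symm hne)
      nlinarith [mul_pos hpos hq]
    subst hu0
    rw [path_zero h0] at hx
    exact hqL hx

end Pool.Agent.Lib.MP_1d0d1b_gt
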