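import Pool.Agent.Lib.MP_1d0d1b_gt.KitDefs
import Pool.Agent.Lib.MP_1d0d1b_gt.Polar
import Pool.Agent.Lib.MP_1d0d1b_gt.Paths

open Set Function Filter Topology
open scoped ContDiff Real

noncomputable section

namespace Pool.Agent.Lib.MP_1d0d1b_gt

namespace Config

variable {B : Base} {C : Config B}

theorem Good.symm {s s' : C.I ⊕ B.R} {x x' : ℂ} (h : C.Good s x s' x') : C.Good s' x' s x := by
  obtain ⟨h1, h2, h3, h4, h5, h6⟩ := h
  refine ⟨h1.symm, h3, h2, h4.symm, fun y => ?_, fun s'' x'' a b => (h6 s'' x'' a (b.trans h4.symm)).symm⟩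
  obtain ⟨p, q, e⟩ := h5 y
  exact ⟨q, p, by rw [add_comm, e]⟩

theorem sodom_subset (s : C.I ⊕ B.R) : C.sodom s ⊆ C.sdom s := by
  rcases s with i | a
  · exact fun z hz => ⟨hz.1.le, hz.2.le⟩
  · exact fun z hz => le_of_lt (show ‖z‖ < 1 from hz)

private theorem basic1_disc : IsCompact Disc := by
  have : Disc = Metric.closedBall (0 : ℂ) 1 := by
    ext z
    simp [Disc]
  rw [this]
  exact isCompact_closedBall _ _

private theorem basic1_half : IsCompact Half :=
  basic1_disc.inter_right (isClosed_le continuous_const Complex.continuous_im)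

private theorem basic1_semi : IsCompact Semi :=
  basic1_disc.of_isClosed_subset
    ((isClosed_eq continuous_norm continuous_const).inter
      (isClosed_le continuous_const Complex.continuous_im)) fun _ hz => hz.1.le

theorem isCompact_sdom (s : C.I ⊕ B.R) : IsCompact (C.sdom s) := by
  rcases s with i | a
  · exact basic1_half
  · exact basic1_disc

theorem isOpen_sodom (s : C.I ⊕ B.R) : IsOpen (C.sodom s) := by
  rcases s with i | a
  · exact (isOpen_lt continuous_norm continuous_const).inter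
      (isOpen_lt continuous_const Complex.continuous_im)
  · exact isOpen_lt continuous_norm continuous_const

theorem Valid.sh_smooth (hC : C.Valid) (s : C.I ⊕ B.R) : ContDiff ℝ ∞ (C.sh s) := by
  rcases s with i | a
  · exact (hC.smooth i).comp (contDiff_id.prodMk contDiff_const)
  · exact (B.G_smooth a).comp (contDiff_id.prodMk contDiff_const)

private theorem basic1_ne (hC : C.Valid) {i X : C.I} (h : C.par i = .inr X) : i ≠ X := by
  rintro rfl
  have := hC.ord_child _ _ h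
  omega

private theorem basic1_not_str (hC : C.Valid) {s : C.I ⊕ B.R} {x x' : ℂ} : ¬ C.Str s x s x' := by
  rintro (⟨i, X, rfl, e, h, -⟩ | ⟨a, rfl, e, -⟩)
  · exact basic1_ne hC h (Sum.inl.inj e)
  · cases e

theorem Valid.sh_injOn (hC : C.Valid) (s : C.I ⊕ B.R) : InjOn (C.sh s) (C.sdom s) := by
  intro x hx x' hx' e
  by_contra hne
  rcases hC.gen s x s x' hx hx' (fun h => hne (Prod.ext_iff.1 h).2) e with h | h | h
  · exact basic1_not_str hC h
  · exact basic1_not_str hC h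
  · exact h.1 rfl

theorem Valid.par_ne (hC : C.Valid) {i X : C.I} (h : C.par i = .inr X) : i ≠ X := basic1_ne hC h

theorem Valid.M_inj (hC : C.Valid) {i X : C.I} (h : C.par i = .inr X) : Injective (C.M i) := by
  rw [injective_iff_map_eq_zero]
  intro z hz
  obtain ⟨h1, h2⟩ := hC.M_one i X h
  have h3 := hC.M_I i X h
  have e : z = z.re • (1 : ℂ) + z.im • Complex.I := by
    simp
  rw [e, map_add, map_smul, map_smul] at hz
  have h4 : z.im = 0 := by
    have := congrArg Complex.im hz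
    simp only [Complex.add_im, Complex.smul_im, h1, smul_eq_mul, mul_zero, zero_add,
      Complex.zero_im] at this
    exact (mul_eq_zero.1 this).resolve_right h3.ne'
  rw [h4, zero_smul, add_zero] at hz
  exact Complex.ext ((smul_eq_zero.1 hz).resolve_right h2) h4

theorem Valid.top_eq (hC : C.Valid) {i X : C.I} (h : C.par i = .inr X) {ξ : ℂ} (hξ : ξ ∈ Semi) :
    C.F i (ξ, 0) = C.F X (C.β i ξ, 0) := by
  simpa using (hC.top i X h ξ hξ).self_of_nhds hξ.1

theorem Valid.bot_eq (hC : C.Valid) (i : C.I) {x : ℝ} (hx : |x| ≤ 1) :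
    C.F i ((x : ℂ), 0) = B.f (C.lo i) (C.α i (x, 0)) := by
  simpa using (hC.bot i x hx).self_of_nhds

private theorem basic1_cpt (hC : C.Valid) (P : C.I → Prop) :
    IsCompact {x | ∃ c, P c ∧ ∃ ξ ∈ Semi, x = C.β c ξ} := by
  have := hC.finI
  have e : {x | ∃ c, P c ∧ ∃ ξ ∈ Semi, x = C.β c ξ} = ⋃ c : {c // P c}, C.β c.1 '' Semi := by
    ext x
    simp only [mem_ofPred_eq, mem_iUnion, mem_image]
    constructor
    · rintro ⟨c, hc, ξ, hξ, rfl⟩
      exact ⟨⟨c, hc⟩, ξ, hξ, rfl⟩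
    · rintro ⟨⟨c, hc⟩, ξ, hξ, rfl⟩
      exact ⟨c, hc, ξ, hξ, rfl⟩
  rw [e]
  exact isCompact_iUnion fun c =>
    basic1_semi.image (continuous_const.add (C.M c.1).continuous)

theorem Valid.isCompact_Tr (hC : C.Valid) (X : C.I) : IsCompact (C.Tr X) := 
  basic1_cpt hC fun c => C.par c = .inr X

theorem Valid.isCompact_TrX (hC : C.Valid) (X c : C.I) : IsCompact (C.TrX X c) := by
  have := basic1_cpt hC fun c' => c' ≠ c ∧ C.par c' = .inr X
  simp only [and_assoc] at this
  exact this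

theorem Valid.isClosed_TrP (hC : C.Valid) (Z : C.I) (p : ℂ) (η : ℝ) (j : C.I) :
    IsClosed (C.TrP Z p η j) := by
  refine (hC.isCompact_Tr j).isClosed.union (s₂ := {x | j = Z ∧ x ∈ Metric.closedBall p η}) ?_
  exact isClosed_const.inter Metric.isClosed_closedBall

theorem Valid.Tr_subset (hC : C.Valid) (X : C.I) : C.Tr X ⊆ oHalf := by
  rintro _ ⟨c, hc, ξ, hξ, rfl⟩
  exact hC.β_mem c X hc ξ hξ

theorem Valid.good_not_Tr (hC : C.Valid) {i : C.I} {x : ℂ} {s' : C.I ⊕ B.R} {x' : ℂ}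
    (h : C.Good (.inl i) x s' x') : x ∉ C.Tr i := by
  rintro ⟨c, hc, ξ, hξ, rfl⟩
  obtain ⟨-, -, h3, -, -, h6⟩ := h
  rcases h6 (.inl c) ξ ⟨hξ.1.le, hξ.2⟩ (hC.top_eq hc hξ) with e | e
  · exact hC.par_ne hc (Sum.inl.inj (Prod.ext_iff.1 e).1)
  · cases e
    exact h3.1.ne hξ.1

/-- A structural pair is not an interior pair. -/
theorem Valid.not_str_of_mem (hC : C.Valid) {s s' : C.I ⊕ B.R} {x x' : ℂ} (h : C.Str s x s' x') :
    x ∉ C.sodom s := by
  have _ := hC
  rcases h with ⟨i, X, rfl, -, -, h, -⟩ | ⟨a, rfl, -, rfl, -⟩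
  · exact fun hx => hx.1.ne h.1
  · exact fun hx => hx.2.ne (Complex.ofReal_im _).symm

theorem Valid.finite_good (hC : C.Valid) (i : C.I) :
    {x | ∃ s' x', C.Good (.inl i) x s' x'}.Finite := by
  refine (hC.fin.image fun q => q.1.2).subset ?_
  rintro x ⟨s', x', h⟩
  exact ⟨((.inl i, x), (s', x')), h, rfl⟩

theorem Valid.finite_Pend (hC : C.Valid) (k : ℕ) : (C.Pend k).Finite := by
  refine (hC.fin.preimage (f := fun q : (C.I × ℂ) × (C.I × ℂ) =>
    ((Sum.inl q.1.1, q.1.2), (Sum.inl q.2.1, q.2.2))) ?_).subset fun q hq => hq.1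
  rintro ⟨⟨a, b⟩, ⟨c, d⟩⟩ - ⟨⟨a', b'⟩, ⟨c', d'⟩⟩ - e
  simp only [Prod.mk.injEq, Sum.inl.injEq] at e ⊢
  exact e

/-- Real points are never changed: the landing germ persists. -/
theorem Valid.compat (hC : C.Valid) (a : B.R) : ∀ᶠ q : ℝ × ℂ in 𝓝 (B.d a, 0),
    C.F (C.rt a) ((q.1 : ℂ), q.2) = B.G a (Cay q.2, ((q.1 - B.d a : ℝ) : ℂ)) := by
  obtain ⟨K, hK, hK', h⟩ := hC.root_eq a
  have h1 : ∀ᶠ q : ℝ × ℂ in 𝓝 (B.d a, 0), (q.1 : ℂ) ∈ Kᶜ :=
    Eventually.of_forall fun q hq => (hK' hq).2.ne (Complex.ofReal_im _).symm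
  filter_upwards [h1, B.compat a] with q h2 h3
  rw [h _ h2, h3]

end Config

end Pool.Agent.Lib.MP_1d0d1b_gt
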