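import Pool.Agent.Lib.MP_1d0d1b_gt.Dbl

open Set Function Filter Topology
open scoped ContDiff Real

noncomputable section

namespace Pool.Agent.Lib.MP_1d0d1b_gt

/-- The angle along the isotopy. -/
def bingA (s c : ℝ) : ℝ := (1 - s) * (3 * π / 4 * c) + s * Θ (37 / 20 * c)

/-- The collar coordinate of the link. -/
def bingn (t : ℝ) : ℝ := √(qf (pz (circ t)) / (16 / 100)) - 1

/-- The collar coordinate along the isotopy. -/
def bingN (s t : ℝ) : ℝ := (1 - s) * (-(Real.cos t) ^ 2 / 20) + s * bingn t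

/-- The height along the isotopy. -/
def bingS (s t : ℝ) : ℝ := (1 - s) * Real.sin t + s * Hs (kk (Real.cos t) * Real.sin t)

/-- The isotopy in collar coordinates. -/
def bingC (s : ℝ) (j : Fin 2) (t : ℝ) : ℝ × ℝ × ℝ :=
  ((j : ℝ) * π + bingA s (Real.cos t), bingN s t, (j : ℝ) - 1 / 2 + bingS s t)

theorem bing_conv {s a b : ℝ} (hs : s ∈ Icc (0 : ℝ) 1) (ha : 0 < a) (hb : 0 < b) :
    0 < (1 - s) * a + s * b := by
  rcases hs.1.eq_or_lt with h | h
  · rw [← h]; linarith
  · have := mul_nonneg (sub_nonneg.2 hs.2) ha.le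
    have := mul_pos h hb
    linarith

theorem bing_lt {c : ℝ} (h : |c| ≤ 1) : |37 / 20 * c| < 19 / 10 := by
  rw [abs_mul, abs_of_pos (by norm_num : (0 : ℝ) < 37 / 20)]
  linarith

theorem bing_disc (t : ℝ) : circ t ∈ Disc := (norm_circ t).le

theorem bingA_neg (s : ℝ) {c : ℝ} (h : |c| ≤ 1) : bingA s (-c) = -bingA s c := by
  rw [bingA, bingA, mul_neg (37 / 20 : ℝ), Θ_neg (bing_lt h)]
  ring

theorem bingA_lt {s : ℝ} (hs : s ∈ Icc (0 : ℝ) 1) {c c' : ℝ} (h : |c| ≤ 1) (h' : |c'| ≤ 1)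
    (hc : c < c') : bingA s c < bingA s c' := by
  have h1 := abs_lt.1 (bing_lt h)
  have h2 := abs_lt.1 (bing_lt h')
  have h3 : Θ (37 / 20 * c) < Θ (37 / 20 * c') :=
    Θ_strictMonoOn ⟨by linarith, h1.2⟩ ⟨by linarith, h2.2⟩ (by linarith)
  have h4 : 0 < 3 * π / 4 * (c' - c) := mul_pos (by positivity) (sub_pos.2 hc)
  have h5 := bing_conv hs h4 (sub_pos.2 h3)
  unfold bingA
  linarith

theorem bingA_abs {s : ℝ} (hs : s ∈ Icc (0 : ℝ) 1) {c : ℝ} (h : |c| ≤ 1) :
    |bingA s c| = bingA s |c| := by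
  have h0 : bingA s 0 = 0 := by
    have := bingA_neg s (c := 0) (by simp)
    rw [neg_zero] at this
    linarith
  rcases lt_trichotomy c 0 with hc | rfl | hc
  · have := bingA_lt hs h (by simp) hc
    rw [abs_of_neg hc, bingA_neg s h, abs_of_neg (by linarith)]
  · rw [abs_zero, h0, abs_zero]
  · have := bingA_lt hs (by simp) h hc
    rw [abs_of_pos hc, abs_of_pos (by linarith)]

theorem bingA_abs_lt {s : ℝ} (hs : s ∈ Icc (0 : ℝ) 1) {c : ℝ} (h : |c| ≤ 1) :
    |bingA s c| < π := by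
  have h1 := abs_lt.1 (abs_Θ_lt (bing_lt h))
  have h2 := abs_le.1 h
  have hp := Real.pi_pos
  have h3 := bing_conv hs (a := π - 3 * π / 4 * c) (by nlinarith) (sub_pos.2 h1.2)
  have h4 := bing_conv hs (a := π + 3 * π / 4 * c) (b := π + Θ (37 / 20 * c)) (by nlinarith)
    (by linarith)
  unfold bingA
  rw [abs_lt]
  constructor <;> linarith

theorem bingA_main {s : ℝ} (hs : s ∈ Icc (0 : ℝ) 1) {c : ℝ} (h : |c| ≤ 1)
    (hA : |bingA s c| ≤ π / 2) : |c| ≤ 28 / 37 := by
  by_contra hc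
  have h1 := bingA_lt hs (c := 28 / 37) (by rw [abs_of_pos] <;> norm_num)
    (by rwa [abs_abs]) (not_le.1 hc)
  have hp := Real.pi_pos
  have h2 := bing_conv hs (a := 3 * π / 4 * (28 / 37) - π / 2) (by linarith) (sub_pos.2 Θ_main)
  rw [← bingA_abs hs h, bingA, show (37 / 20 * (28 / 37) : ℝ) = 140 / 100 by norm_num] at h1
  linarith

theorem bing_pz (t : ℝ) :
    pz (circ t) = (1 + bingn t) • MM (circ (Θ (37 / 20 * Real.cos t))) := by
  have h1 := (sz_mem (bing_disc t)).1
  set a := (1 - ψh (σz (circ t)) / dd (tz (circ t))) * ‖MMi (Γ (tz (circ t)))‖ with ha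
  have h2 : 0 ≤ a := mul_nonneg h1.le (norm_nonneg _)
  have h3 : pz (circ t) = a • MM (circ (Θ (37 / 20 * Real.cos t))) := by
    rw [ha, mul_smul, ← circ_re, ← tz, ← Γ_eq_polar, pz]
  have h4 : qf (pz (circ t)) / (16 / 100) = a ^ 2 := by
    rw [h3, ← map_smul, qf_MM, norm_smul, norm_circ, Real.norm_eq_abs, mul_one, sq_abs]
    ring
  rw [bingn, h4, Real.sqrt_sq h2, add_sub_cancel, h3]

theorem bingn_mem (t : ℝ) : bingn t ∈ Icc (-7 / 10 : ℝ) 0 := by
  have h1 := qf_pz_ge (bing_disc t)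
  have h2 := qf_pz_bdry (norm_circ t)
  have h3 : 3 / 10 ≤ √(qf (pz (circ t)) / (16 / 100)) := Real.le_sqrt_of_sq_le (by linarith)
  have h4 : √(qf (pz (circ t)) / (16 / 100)) ≤ 1 := Real.sqrt_le_one.2 (by linarith)
  unfold bingn
  constructor <;> linarith

theorem bing_tz {t : ℝ} (h : |Real.cos t| ≤ 28 / 37) : |tz (circ t)| ≤ 143 / 100 := by
  rw [tz, circ_re, abs_mul, abs_of_pos (by norm_num : (0 : ℝ) < 37 / 20)]
  linarith

theorem bingn_main {t : ℝ} (h : |Real.cos t| ≤ 28 / 37) : bingn t = 0 := by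
  rw [bingn, (bdry_main (norm_circ t) (bing_tz h)).1, div_self (by norm_num), Real.sqrt_one,
    sub_self]

theorem bingN_mem {s : ℝ} (hs : s ∈ Icc (0 : ℝ) 1) (t : ℝ) :
    bingN s t ∈ Icc (-7 / 10 : ℝ) (1 / 10) := by
  have h1 := bingn_mem t
  have h2 := Real.cos_sq_le_one t
  have h3 := sq_nonneg (Real.cos t)
  have h4 := bing_conv hs (a := -(Real.cos t) ^ 2 / 20 + 7 / 10) (b := 1) (by linarith) one_pos
  have h5 := mul_nonneg (sub_nonneg.2 hs.2) h3
  have h6 := mul_nonneg hs.1 (sub_nonneg.2 h1.1)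
  have h7 := mul_nonneg hs.1 (sub_nonneg.2 h1.2)
  have h8 := mul_nonneg (sub_nonneg.2 hs.2) (sub_nonneg.2 h2)
  have := hs.2
  unfold bingN
  constructor <;> nlinarith

theorem bingS_abs_le {s : ℝ} (hs : s ∈ Icc (0 : ℝ) 1) (t : ℝ) : |bingS s t| ≤ 1 := by
  have h1 := abs_le.1 (abs_Hs_le (kk (Real.cos t) * Real.sin t))
  have h2 := abs_le.1 (Real.abs_sin_le_one t)
  have h3 := sub_nonneg.2 hs.2
  have := mul_nonneg h3 (sub_nonneg.2 h2.1)
  have := mul_nonneg h3 (sub_nonneg.2 h2.2)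
  have := mul_nonneg hs.1 (sub_nonneg.2 h1.1)
  have := mul_nonneg hs.1 (sub_nonneg.2 h1.2)
  unfold bingS
  rw [abs_le]
  constructor <;> linarith

theorem bing_h {s : ℝ} (hs : s ∈ Icc (0 : ℝ) 1) (j : Fin 2) (t : ℝ) :
    |(j : ℝ) - 1 / 2 + bingS s t| ≤ 3 := by
  have h1 := abs_le.1 (bingS_abs_le hs t)
  have h2 : (0 : ℝ) ≤ (j : ℝ) := Nat.cast_nonneg _
  have h3 : (j : ℝ) ≤ 2 := by exact_mod_cast j.2.le
  rw [abs_le]
  constructor <;> linarith

theorem bing_kk (t : ℝ) : 0 < kk (Real.cos t) :=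
  lt_of_lt_of_le (by norm_num) (kk_ge (Real.abs_cos_le_one t))

theorem bingS_pos {s : ℝ} (hs : s ∈ Icc (0 : ℝ) 1) {t : ℝ} (h : 0 < Real.sin t) : 0 < bingS s t :=
  bing_conv hs h (Hs_pos (mul_pos (bing_kk t) h))

theorem bingS_neg (s : ℝ) {t t' : ℝ} (hc : Real.cos t = Real.cos t')
    (h : Real.sin t' = -Real.sin t) : bingS s t' = -bingS s t := by
  rw [bingS, bingS, h, ← hc, mul_neg (kk _), Hs_neg]
  ring

theorem bingS_main {s : ℝ} (hs : s ∈ Icc (0 : ℝ) 1) {t : ℝ} (h : |Real.cos t| ≤ 28 / 37) :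
    |bingS s t| = (1 - s) * |Real.sin t| + s := by
  have h1 := (bdry_main (norm_circ t) (bing_tz h)).2
  rw [σz, circ_re, circ_im] at h1
  have h2 := bing_kk t
  have h3 := sub_nonneg.2 hs.2
  have h4 := hs.1
  rcases le_total 0 (Real.sin t) with h5 | h5
  · rw [abs_of_nonneg (mul_nonneg h2.le h5)] at h1
    rw [bingS, Hs_of_ge h1, abs_of_nonneg h5, mul_one, abs_of_nonneg (by positivity)]
  · rw [abs_of_nonpos (mul_nonpos_of_nonneg_of_nonpos h2.le h5)] at h1
    have h6 := mul_nonpos_of_nonneg_of_nonpos h3 h5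
    rw [bingS, Hs_of_le (by linarith), abs_of_nonpos h5, abs_of_nonpos (by linarith)]
    ring

theorem bing_key {s : ℝ} (hs : s ∈ Icc (0 : ℝ) 1) (hs1 : s < 1) {t t' : ℝ}
    (h1 : |bingA s (Real.cos t)| ≤ π / 2) (h2 : π / 2 ≤ |bingA s (Real.cos t')|)
    (hN : bingN s t = bingN s t') : |bingS s t - bingS s t'| ≠ 1 := by
  have hc := Real.abs_cos_le_one t
  have hc' := Real.abs_cos_le_one t'
  have h3 := bingA_main hs hc h1
  have h4 : |Real.cos t| ≤ |Real.cos t'| := not_lt.1 fun h => by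
    have := bingA_lt hs (by rwa [abs_abs]) (by rwa [abs_abs]) h
    rw [← bingA_abs hs hc, ← bingA_abs hs hc'] at this
    linarith
  have h5 : Real.cos t' ^ 2 ≤ Real.cos t ^ 2 := by
    have h6 := mul_nonpos_of_nonneg_of_nonpos hs.1 (bingn_mem t').2
    rw [bingN, bingN, bingn_main h3] at hN
    exact le_of_mul_le_mul_left (a := 1 - s) (by linarith) (sub_pos.2 hs1)
  have h6 : |Real.cos t'| = |Real.cos t| := le_antisymm (sq_le_sq.1 h5) h4
  have h7 : |Real.sin t'| = |Real.sin t| := by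
    rw [← sq_eq_sq_iff_abs_eq_abs, Real.sin_sq, Real.sin_sq, (sq_eq_sq_iff_abs_eq_abs _ _).2 h6]
  have h8 : 1 / 2 < |Real.sin t| := by
    have h9 := Real.sin_sq_add_cos_sq t
    have h10 : Real.cos t ^ 2 ≤ (28 / 37) ^ 2 := by
      rw [← sq_abs]
      exact pow_le_pow_left₀ (abs_nonneg _) h3 2
    refine lt_of_pow_lt_pow_left₀ 2 (abs_nonneg _) ?_
    rw [sq_abs]
    linarith
  have h9 := bingS_main hs h3
  have h10 := bingS_main hs (h6.le.trans h3)
  rw [h7, ← h9] at h10
  have h11 : 1 / 2 < |bingS s t| := by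
    have := bing_conv hs (sub_pos.2 h8) (b := 1 / 2) (by norm_num)
    linarith
  rcases abs_eq_abs.1 h10 with h | h
  · rw [h, sub_self, abs_zero]
    norm_num
  · rw [h, sub_neg_eq_add, ← two_mul, abs_mul, abs_two]
    linarith

theorem bing_Θ_smooth : ContDiff ℝ ∞ fun t => Θ (37 / 20 * Real.cos t) :=
  contDiff_iff_contDiffAt.2 fun t =>
    (Θ_contDiffAt (bing_lt (Real.abs_cos_le_one t))).comp t (f := fun t => 37 / 20 * Real.cos t)
      (by fun_prop)

theorem bingn_smooth : ContDiff ℝ ∞ bingn := by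
  have h1 : ContDiff ℝ ∞ qf := by
    unfold qf
    fun_prop
  refine ContDiff.sub (ContDiff.sqrt ((h1.comp (pz_smooth.comp circ_contDiff)).div_const _)
    fun t => ?_) contDiff_const
  have h2 : 0 < qf (pz (circ t)) := lt_of_lt_of_le (by norm_num) (qf_pz_ge (bing_disc t))
  exact (div_pos h2 (by norm_num)).ne'

theorem bingC_smooth (j : Fin 2) : ContDiff ℝ ∞ fun q : ℝ × ℝ => bingC q.1 j q.2 := by
  have h1 := bing_Θ_smooth.comp (contDiff_snd (E := ℝ))
  have h2 := bingn_smooth.comp (contDiff_snd (E := ℝ))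
  have h3 : ContDiff ℝ ∞ fun q : ℝ × ℝ => Hs (kk (Real.cos q.2) * Real.sin q.2) :=
    Hs_contDiff.comp ((kk_contDiff.comp (by fun_prop)).mul (by fun_prop))
  unfold bingC bingA bingN bingS
  refine (contDiff_const.add (ContDiff.add (by fun_prop) (contDiff_fst.mul h1))).prodMk
    ((ContDiff.add (by fun_prop) (contDiff_fst.mul h2)).prodMk
      (contDiff_const.add (ContDiff.add (by fun_prop) (contDiff_fst.mul h3))))

theorem bing_regular {s : ℝ} (hs : s ∈ Icc (0 : ℝ) 1) (j : Fin 2) (t : ℝ) :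
    deriv (fun t => φt (bingC s j t)) t ≠ 0 := by
  have hl := bing_lt (Real.abs_cos_le_one t)
  have hΘ := ((Θ_contDiffAt hl).differentiableAt (by simp)).hasDerivAt
  have hk := (kk_contDiff.differentiable (by simp) (Real.cos t)).hasDerivAt
  have hn := (bingn_smooth.differentiable (by simp) t).hasDerivAt
  have hc := Real.hasDerivAt_cos t
  have hsn := Real.hasDerivAt_sin t
  have h1 := (((hc.const_mul (3 * π / 4)).const_mul (1 - s)).add
    ((hΘ.comp t (hc.const_mul (37 / 20))).const_mul s)).const_add ((j : ℝ) * π)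
  have h2 := (((hc.pow 2).neg.div_const 20).const_mul (1 - s)).add (hn.const_mul s)
  have h3 := ((hsn.const_mul (1 - s)).add
    (((Hs_hasDerivAt _).comp t ((hk.comp t hc).mul hsn)).const_mul s)).const_add ((j : ℝ) - 1 / 2)
  have h4 : HasDerivAt (bingC s j) _ t := h1.prodMk (h2.prodMk h3)
  have h5 : HasDerivAt (fun t => φt (bingC s j t)) _ t :=
    (φt_smooth.differentiable (by simp) (bingC s j t)).hasFDerivAt.comp_hasDerivAt t h4
  rw [h5.deriv]
  intro h0
  have h6 := φt_imm _ (bingN_mem hs t) (bing_h hs j t) (h0.trans (map_zero _).symm)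
  have h7 := congrArg Prod.fst h6
  have h8 := congrArg (fun q => q.2.2) h6
  simp only [Prod.fst_zero, Prod.snd_zero, comp_apply, Pi.mul_apply] at h7 h8
  have h9 := bing_conv hs (a := 3 * π / 4) (by positivity)
    (mul_pos (Θ_deriv_pos hl) (by norm_num : (0 : ℝ) < 37 / 20))
  have h10 : Real.sin t = 0 := (mul_eq_zero.1 (by linarith)).resolve_left h9.ne'
  rw [h10] at h8
  have h11 := bing_conv hs one_pos (mul_pos (Hs_deriv_pos (σ := kk (Real.cos t) * 0) (by simp))
    (bing_kk t))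
  have h12 : Real.cos t = 0 := (mul_eq_zero.1 (by linarith)).resolve_left h11.ne'
  have h13 := Real.sin_sq_add_cos_sq t
  rw [h10, h12] at h13
  norm_num at h13

theorem bing_zero (j : Fin 2) (t : ℝ) : φt (bingC 0 j t) = φK (bing j t) := by
  simp only [φK, bing, bingC, bingA, bingN, bingS]
  congr 2
  · ring
  · congr 1 <;> ring

theorem bing_one (j : Fin 2) (t : ℝ) : φt (bingC 1 j t) = LL j t := by
  simp only [φt, bingC, bingA, bingN, bingS, LL, fD, sub_self, zero_mul, zero_add, one_mul]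
  congr 1
  obtain rfl | rfl : j = 0 ∨ j = 1 := by fin_cases j <;> simp
  · simp only [io, cj, if_true, hz, σz, circ_re, circ_im, bing_pz]
    simp only [Fin.val_zero, Nat.cast_zero, zero_mul, zero_add, zero_sub, neg_div]
  · have h1 : pz ((starRingEnd ℂ) (circ t)) = pz (circ t) := by
      simp only [pz, σz, tz, Complex.conj_re, Complex.conj_im, mul_neg, ψh_neg]
    simp only [io, cj, Fin.one_eq_zero_iff, OfNat.ofNat_ne_one, if_false, h1, hz, σz,
      Complex.conj_re, Complex.conj_im, circ_re, circ_im, bing_pz, mul_neg, Hs_neg, Fin.val_one,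
      Nat.cast_one, one_mul, circ_add, circ_pi, neg_mul, map_neg, smul_neg, Prod.neg_mk]
    congr 1
    ring

theorem bing_ne {s : ℝ} (hs : s ∈ Icc (0 : ℝ) 1) (t t' : ℝ) :
    φt (bingC s 0 t) ≠ φt (bingC s 1 t') := fun he => by
  rcases hs.2.eq_or_lt with rfl | hs1
  · rw [bing_one, bing_one] at he
    have h1 : fD 0 (circ t) = fD 1 (circ t') := by rw [fD_bdry, fD_bdry, he]
    have h2 := (dbl_time (by decide) (bing_disc t) (bing_disc t') h1).1
    rw [fD_bdry] at h2
    exact lt_irrefl _ h2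
  obtain ⟨h1, h2, k, h3⟩ := φt_inj (bingN_mem hs t) (bing_h hs 0 t) (bingN_mem hs t')
    (bing_h hs 1 t') he
  simp only [Fin.val_zero, Nat.cast_zero, Fin.val_one, Nat.cast_one] at h2 h3
  have h4 : bingS s t - bingS s t' = 1 := by linarith
  have h5 := bingA_abs_lt hs (Real.abs_cos_le_one t)
  have h6 := bingA_abs_lt hs (Real.abs_cos_le_one t')
  have h7 := abs_lt.1 h5
  have h8 := abs_lt.1 h6
  have hp := Real.pi_pos
  have hk : k = 0 ∨ k = 1 := by
    have a1 : (-1 : ℝ) < k := lt_of_mul_lt_mul_right (a := 2 * π) (by linarith) (by linarith)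
    have a2 : (k : ℝ) < 2 := lt_of_mul_lt_mul_right (a := 2 * π) (by linarith) (by linarith)
    have a3 : (-1 : ℤ) < k := by exact_mod_cast a1
    have a4 : k < 2 := by exact_mod_cast a2
    omega
  have h9 : |bingA s (Real.cos t)| + |bingA s (Real.cos t')| = π := by
    rcases hk with rfl | rfl
    · rw [Int.cast_zero] at h3
      rw [abs_of_pos (by linarith), abs_of_neg (by linarith)]
      linarith
    · rw [Int.cast_one] at h3
      rw [abs_of_neg (by linarith), abs_of_pos (by linarith)]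
      linarith
  rcases le_total |bingA s (Real.cos t)| (π / 2) with h | h
  · exact bing_key hs hs1 h (by linarith) h1 (by rw [h4, abs_one])
  · exact bing_key hs hs1 (by linarith) h h1.symm (by rw [abs_sub_comm, h4, abs_one])

theorem bing_same {s : ℝ} (hs : s ∈ Icc (0 : ℝ) 1) (j : Fin 2) {t t' : ℝ}
    (he : φt (bingC s j t) = φt (bingC s j t')) : ∃ k : ℤ, t' = t + k * (2 * π) := by
  obtain ⟨-, h2, k, h3⟩ := φt_inj (bingN_mem hs t) (bing_h hs j t) (bingN_mem hs t')
    (bing_h hs j t') he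
  have hc := Real.abs_cos_le_one t
  have hc' := Real.abs_cos_le_one t'
  have h7 := abs_lt.1 (bingA_abs_lt hs hc)
  have h8 := abs_lt.1 (bingA_abs_lt hs hc')
  have hp := Real.pi_pos
  have hk : k = 0 := by
    have a1 : (-1 : ℝ) < k := lt_of_mul_lt_mul_right (a := 2 * π) (by linarith) (by linarith)
    have a2 : (k : ℝ) < 1 := lt_of_mul_lt_mul_right (a := 2 * π) (by linarith) (by linarith)
    have a3 : (-1 : ℤ) < k := by exact_mod_cast a1
    have a4 : k < 1 := by exact_mod_cast a2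
    omega
  rw [hk, Int.cast_zero] at h3
  have h4 : Real.cos t = Real.cos t' := by
    rcases lt_trichotomy (Real.cos t) (Real.cos t') with h | h | h
    · linarith [bingA_lt hs hc hc' h]
    · exact h
    · linarith [bingA_lt hs hc' hc h]
  have h5 : Real.sin t = Real.sin t' := by
    have h6 : Real.sin t' ^ 2 = Real.sin t ^ 2 := by rw [Real.sin_sq, Real.sin_sq, h4]
    rcases sq_eq_sq_iff_eq_or_eq_neg.1 h6 with h | h
    · exact h.symm
    · have h9 := bingS_neg s h4 h
      rcases lt_trichotomy (Real.sin t) 0 with h' | h' | h'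
      · linarith [bingS_pos hs (t := t') (by linarith)]
      · linarith
      · linarith [bingS_pos hs h']
  exact (circ_eq_iff t t').1 (Complex.ext (by rw [circ_re, circ_re, h4])
    (by rw [circ_im, circ_im, h5]))

theorem isotopic_LL : Isotopic (fun j θ => φK (bing j θ)) LL := by
  have hsm : ∀ j, ContDiff ℝ ∞ fun q : ℝ × ℝ => φt (bingC q.1 j q.2) := fun j =>
    φt_smooth.comp (bingC_smooth j)
  refine ⟨fun s j t => φt (bingC s j t), hsm,
    fun s hs => ⟨fun j => ?_, fun j t => ?_, bing_regular hs, fun i j t t' he => ?_⟩,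
    funext₂ bing_zero, funext₂ bing_one⟩
  · exact (hsm j).comp (f := fun t : ℝ => (s, t)) (contDiff_prodMk_right s)
  · have h := circ_add_int t 1
    rw [Int.cast_one, one_mul] at h
    simp only [bingC, bingN, bingS, bingn, Real.cos_add_two_pi, Real.sin_add_two_pi, h]
  · obtain rfl | rfl : i = 0 ∨ i = 1 := by fin_cases i <;> simp
    · obtain rfl | rfl : j = 0 ∨ j = 1 := by fin_cases j <;> simp
      · exact ⟨rfl, bing_same hs 0 he⟩
      · exact absurd he (bing_ne hs t t')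
    · obtain rfl | rfl : j = 0 ∨ j = 1 := by fin_cases j <;> simp
      · exact absurd he.symm (bing_ne hs t' t)
      · exact ⟨rfl, bing_same hs 1 he⟩

theorem isBingDouble_LL : IsBingDouble KK LL :=
  ⟨φK, isTubular_φK, untwisted_φK, isotopic_LL⟩

end Pool.Agent.Lib.MP_1d0d1b_gt
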