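import Pool.Agent.Lib.MP_1d0d1b_gt.CableA1

open Set Function Filter Topology
open scoped ContDiff Real

noncomputable section

namespace Pool.Agent.Lib.MP_1d0d1b_gt

theorem cableA2_range {F : ℂ × ℂ → E4} {g : ℂ → E4} (hF : ContDiff ℝ ∞ F) (hg : ContDiff ℝ ∞ g)
    {γ : ℝ → ℂ × ℂ} {δ : ℝ → ℂ} {v : ℂ × ℂ} (hγ : HasDerivAt γ v 0) (hδ : DifferentiableAt ℝ δ 0)
    (he : ∀ᶠ t in 𝓝 (0 : ℝ), F (γ t) = g (δ t)) :
    ∃ p, fderiv ℝ g (δ 0) p = fderiv ℝ F (γ 0) v := by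
  have h1 := (hF.differentiable (by simp) (γ 0)).hasFDerivAt.comp_hasDerivAt 0 hγ
  have h2 := (hg.differentiable (by simp) (δ 0)).hasFDerivAt.comp_hasDerivAt 0 hδ.hasDerivAt
  have h3 : (F ∘ γ) =ᶠ[𝓝 0] (g ∘ δ) := he
  exact ⟨_, h2.unique (h1.congr_of_eventuallyEq h3.symm)⟩

namespace Config

variable {B : Base} {C : Config B}

/-- Near the trace of the diameter of `i`, the disc is described in the fat slab of `i`. -/
theorem Valid.cableA2_bot (hC : C.Valid) (i : C.I) {x₀ : ℝ} (h₀ : |x₀| ≤ 1) {U : Set (ℂ × ℂ)}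
    (hU : U ∈ 𝓝 ((x₀ : ℂ), (0 : ℂ))) :
    ∀ᶠ z in 𝓝 (C.α i (x₀, 0)), ∃ a b : ℝ, ((a : ℂ), (b : ℂ)) ∈ U ∧
      B.f (C.lo i) z = C.F i ((a : ℂ), (b : ℂ)) := by
  have ht : Tendsto (fun q : ℝ × ℝ => ((q.1 : ℂ), (q.2 : ℂ))) (𝓝 (x₀, 0))
      (𝓝 ((x₀ : ℂ), (0 : ℂ))) := Continuous.tendsto' (by fun_prop) _ _ (by simp)
  have hb := hC.bot i x₀ h₀
  have hi : Injective (fderiv ℝ (C.F i) (((x₀, (0 : ℝ)).1 : ℂ), (((x₀, (0 : ℝ)).2 : ℝ) : ℂ))) := by
    simpa using (hC.bij i x₀ (Diam_subset (ofReal_mem_Diam h₀))).1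
  have h1 := alpha_eventually (hC.smooth i) (B.f_smooth (C.lo i)) (hC.α_smooth i) hi hb
    (hb.and (ht.eventually hU))
  refine h1.mono ?_
  rintro z ⟨q, rfl, h2, h3⟩
  exact ⟨q.1, q.2, h3, h2.symm⟩

/-- The corners of a child are transverse double points. -/
theorem Valid.cableA2_transv (hC : C.Valid) {i c : C.I} (hp : C.par c = .inr i) {e : ℝ}
    (he : |e| = 1) :
    Transv (B.f (C.lo c)) (leaf (C.F i)) (C.α c (e, 0)) (C.β c (e : ℂ)) := by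
  intro y
  have hD : (e : ℂ) ∈ Diam := ofReal_mem_Diam he.le
  have hn : ‖(e : ℂ)‖ = 1 := by simpa using he
  have hS : (e : ℂ) ∈ Semi := ⟨hn, by simp⟩
  have he2 : e * e = 1 := by
    rcases abs_eq (zero_le_one' ℝ) |>.1 he with h | h <;> simp [h]
  obtain ⟨⟨a, b⟩, rfl⟩ := (hC.bij c e (Diam_subset hD)).2 y
  have t1 : Tendsto (fun t : ℝ => (e + t * a.re, t * b.re)) (𝓝 0) (𝓝 (e, 0)) :=
    Continuous.tendsto' (by fun_prop) _ _ (by simp)
  have d1 : HasDerivAt (fun t : ℝ => (((e + t * a.re : ℝ) : ℂ), ((t * b.re : ℝ) : ℂ)))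
      ((a.re : ℂ), (b.re : ℂ)) 0 := by
    refine HasDerivAt.prodMk ?_ ?_
    · simpa using (((hasDerivAt_id (0 : ℝ)).mul_const a.re).const_add e).ofReal_comp
    · simpa using ((hasDerivAt_id (0 : ℝ)).mul_const b.re).ofReal_comp
  have e1 : DifferentiableAt ℝ (fun t : ℝ => C.α c (e + t * a.re, t * b.re)) 0 :=
    ((hC.α_smooth c).differentiable (by simp) _).comp (0 : ℝ)
      (f := fun t : ℝ => (e + t * a.re, t * b.re)) (by fun_prop)
  obtain ⟨p, hp1⟩ := cableA2_range (hC.smooth c) (B.f_smooth (C.lo c)) d1 e1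
    (t1.eventually (hC.bot c e he.le))
  have cc := circ_contDiff.continuous
  have t2 : Tendsto (fun t : ℝ => ((e : ℂ) * circ (t * (e * a.im)),
      ((t * b.im : ℝ) : ℂ) * Complex.I)) (𝓝 0) (𝓝 ((e : ℂ), (0 : ℂ))) :=
    Continuous.tendsto' (by fun_prop) _ _ (by simp [circ_zero])
  have d0 : HasDerivAt (fun t : ℝ => circ (t * (e * a.im))) ((e * a.im) • Complex.I) 0 := by
    have h1 : HasDerivAt (fun t : ℝ => t * (e * a.im)) (e * a.im) 0 := by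
      simpa using (hasDerivAt_id (0 : ℝ)).mul_const (e * a.im)
    have h2 := (circ_hasDerivAt (0 * (e * a.im))).scomp (0 : ℝ) h1
    simpa [circ_zero, Function.comp_def] using h2
  have d2 : HasDerivAt (fun t : ℝ => ((e : ℂ) * circ (t * (e * a.im)),
      ((t * b.im : ℝ) : ℂ) * Complex.I)) ((a.im : ℂ) * Complex.I, (b.im : ℂ) * Complex.I) 0 := by
    refine HasDerivAt.prodMk ?_ ?_
    · have h3 := d0.const_mul (e : ℂ)
      have h4 : (e : ℂ) * ((e * a.im) • Complex.I) = (a.im : ℂ) * Complex.I := by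
        have h5 : (e : ℂ) * e = 1 := by exact_mod_cast he2
        rw [Complex.real_smul, Complex.ofReal_mul, ← mul_assoc, ← mul_assoc, h5, one_mul]
      rwa [h4] at h3
    · simpa using (((hasDerivAt_id (0 : ℝ)).mul_const b.im).ofReal_comp).mul_const Complex.I
  have e2 : DifferentiableAt ℝ
      (fun t : ℝ => C.β c ((1 + t * b.im) • ((e : ℂ) * circ (t * (e * a.im))))) 0 := by
    unfold β
    refine DifferentiableAt.const_add _ ((C.M c).differentiableAt.comp (0 : ℝ) ?_)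
    have h1 : DifferentiableAt ℝ (fun t : ℝ => 1 + t * b.im) 0 := by fun_prop
    exact h1.smul (d0.const_mul (e : ℂ)).differentiableAt
  obtain ⟨q, hq1⟩ := cableA2_range (hC.smooth c) (leaf_contDiff (hC.smooth i)) d2 e2 (by
    filter_upwards [t2.eventually (hC.top c i hp e hS)] with t ht
    rw [ht (by simp [norm_circ, he])]
    simp [leaf])
  refine ⟨p, q, ?_⟩
  simp only [zero_mul, add_zero, circ_zero, mul_one, one_smul, Complex.ofReal_zero] at hp1 hq1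
  rw [hp1, hq1, ← map_add]
  congr 1
  simp

theorem Valid.D_analysis (hC : C.Valid) (i : C.I) :
    ∀ᶠ l : ℝ in 𝓝 0, ∀ ξ ∈ Half, ∀ j, ∀ z ∈ Disc, C.F i (ξ, (l : ℂ)) = B.f j z →
      (ξ ∈ Diam ∧ j = C.lo i) ∨
      ∃ c, C.par c = .inr i ∧ ∃ e : ℂ, (e = 1 ∨ e = -1) ∧ ξ = C.β c e ∧
        C.F c (e, (l : ℂ)) = C.F i (ξ, (l : ℂ)) ∧
        Transv (B.f j) (fun x => C.F i (x, (l : ℂ))) z ξ := by
  suffices H : ∀ j, ∀ᶠ l : ℝ in 𝓝 0, ∀ y ∈ Half ×ˢ Disc, y.1 ∈ Half →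
      C.F i (y.1, (l : ℂ)) = B.f j y.2 → (y.1 ∈ Diam ∧ j = C.lo i) ∨
      ∃ c, C.par c = .inr i ∧ ∃ e : ℂ, (e = 1 ∨ e = -1) ∧ y.1 = C.β c e ∧
        C.F c (e, (l : ℂ)) = C.F i (y.1, (l : ℂ)) ∧
        Transv (B.f j) (fun x => C.F i (x, (l : ℂ))) y.2 y.1 from
    (eventually_all.2 H).mono fun l hl ξ hξ j z hz => hl j (ξ, z) ⟨hξ, hz⟩ hξ
  intro j
  refine (isCompact_Half.prod isCompact_Disc).eventually_forall_of_forall_eventually ?_
  rintro ⟨ξ₀, z₀⟩ ⟨h₀, h₀'⟩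
  dsimp only at h₀ h₀'
  have ci := (hC.smooth i).continuous
  have cj := (B.f_smooth j).continuous
  by_cases he : C.F i (ξ₀, 0) = B.f j z₀
  swap
  · have h1 : ContinuousAt (fun z : ℝ × ℂ × ℂ => C.F i (z.2.1, (z.1 : ℂ)))
        (0, ξ₀, z₀) := Continuous.continuousAt (by fun_prop)
    have h2 : ContinuousAt (fun z : ℝ × ℂ × ℂ => B.f j z.2.2)
        (0, ξ₀, z₀) := Continuous.continuousAt (by fun_prop)
    have h3 := (h1.sub h2).eventually_ne (y := 0) (by simpa [sub_eq_zero] using he)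
    exact h3.mono fun z hz _ hz' => absurd (sub_eq_zero.2 hz') hz
  rcases hC.onD i ξ₀ h₀ j z₀ h₀' he with ⟨hd, rfl⟩ | ⟨c, hp, rfl, hc⟩
  · obtain ⟨x₀, rfl, hx⟩ : ∃ x : ℝ, ξ₀ = x ∧ |x| ≤ 1 := ⟨_, Diam_eq hd⟩
    have hz : z₀ = C.α i (x₀, 0) :=
      B.f_inj _ h₀' (oDisc_subset (hC.α_mem i x₀ hx)) (he.symm.trans (hC.bot_eq i hx))
    subst hz
    obtain ⟨U, hU, hinj⟩ := locInj (hC.smooth i) (hC.bij i x₀ h₀).1
    have t1 : Tendsto (fun z : ℝ × ℂ × ℂ => (z.2.1, (z.1 : ℂ))) (𝓝 (0, (x₀ : ℂ), C.α i (x₀, 0)))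
        (𝓝 ((x₀ : ℂ), (0 : ℂ))) := Continuous.tendsto' (by fun_prop) _ _ (by simp)
    have t2 : Tendsto (fun z : ℝ × ℂ × ℂ => z.2.2) (𝓝 (0, (x₀ : ℂ), C.α i (x₀, 0)))
        (𝓝 (C.α i (x₀, 0))) := Continuous.tendsto' (by fun_prop) _ _ rfl
    filter_upwards [t1.eventually hU, t2.eventually (hC.cableA2_bot i hx hU)] with z h1 h2 h3 h4
    obtain ⟨a, b, h5, h6⟩ := h2
    have h7 := congrArg Prod.fst (hinj h1 h5 (h4.trans h6))
    dsimp only at h7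
    exact Or.inl ⟨⟨h3.1, by rw [h7]; simp⟩, rfl⟩
  · obtain ⟨e, he1, rfl⟩ : ∃ e : ℝ, (e = 1 ∨ e = -1) ∧ ξ₀ = C.β c (e : ℂ) := by
      rcases hc with hc | hc
      · exact ⟨1, Or.inl rfl, by simpa using hc⟩
      · exact ⟨-1, Or.inr rfl, by simpa using hc⟩
    have hae : |e| = 1 := by rcases he1 with h | h <;> simp [h]
    have hS : (e : ℂ) ∈ Semi := ⟨by simpa using hae, by simp⟩
    have hz : z₀ = C.α c (e, 0) :=
      B.f_inj _ h₀' (oDisc_subset (hC.α_mem c e hae.le))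
        (he.symm.trans ((hC.top_eq hp hS).symm.trans (hC.bot_eq c hae.le)))
    subst hz
    obtain ⟨U, hU, hinj⟩ := locInj (hC.smooth c) (hC.bij c e (Semi_subset hS)).1
    have hV : {u : ℂ × ℂ | 0 < u.1.re * e} ∈ 𝓝 ((e : ℂ), (0 : ℂ)) := by
      refine (isOpen_lt continuous_const (by fun_prop)).mem_nhds ?_
      rcases he1 with h | h <;> simp [h]
    have t1 : Tendsto (fun z : ℝ × ℂ × ℂ => (z.2.1, z.1))
        (𝓝 (0, C.β c (e : ℂ), C.α c (e, 0))) (𝓝 (C.β c (e : ℂ), (0 : ℝ))) :=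
      Continuous.tendsto' (by fun_prop) _ _ rfl
    have t2 : Tendsto (fun z : ℝ × ℂ × ℂ => z.2.2) (𝓝 (0, C.β c (e : ℂ), C.α c (e, 0)))
        (𝓝 (C.α c (e, 0))) := Continuous.tendsto' (by fun_prop) _ _ rfl
    have t3 : Tendsto (fun z : ℝ × ℂ × ℂ => (z.1, z.2.2, z.2.1))
        (𝓝 (0, C.β c (e : ℂ), C.α c (e, 0))) (𝓝 ((0 : ℝ), C.α c (e, 0), C.β c (e : ℂ))) :=
      Continuous.tendsto' (by fun_prop) _ _ rfl
    have s1 : ContDiff ℝ ∞ fun r : ℝ × ℂ => B.f (C.lo c) r.2 :=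
      (B.f_smooth _).comp contDiff_snd
    have s2 : ContDiff ℝ ∞ fun r : ℝ × ℂ => C.F i (r.2, (r.1 : ℂ)) :=
      (hC.smooth i).comp (contDiff_snd.prodMk (Complex.ofRealCLM.contDiff.comp contDiff_fst))
    have tr := transv_eventually s1 s2 (t₀ := 0) (hC.cableA2_transv hp hae)
    filter_upwards [t1.eventually (hC.cableA1_top hp hS (inter_mem hU hV)),
      t2.eventually (hC.cableA2_bot c hae.le hU), t3.eventually tr] with z h1 h2 h3 _ h4
    obtain ⟨ζ, m, h5, h6, ⟨h7, h8⟩, h9⟩ := h1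
    obtain ⟨a, b, h10, h11⟩ := h2
    have h12 := hinj h7 h10 (h9.symm.trans (h4.trans h11))
    simp only [Prod.mk.injEq] at h12
    obtain ⟨rfl, h13⟩ := h12
    have hm : m = 0 := by simpa using congrArg Complex.im h13
    subst hm
    have ha : a = e := by
      have h14 : |a| = 1 := by simpa using h5
      have h15 : 0 < a * e := by simpa using h8
      rcases abs_eq (zero_le_one' ℝ) |>.1 h14 with h | h <;> rcases he1 with h' | h' <;>
        simp only [h, h'] at h15 ⊢ <;> norm_num at h15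
    subst ha
    refine Or.inr ⟨c, hp, (a : ℂ), ?_, by simpa using h6, ?_, h3⟩
    · rcases he1 with h | h <;> simp [h]
    · rw [h9]
      rfl

end Config

end Pool.Agent.Lib.MP_1d0d1b_gt
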