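import Pool.Agent.Lib.MP_1d0d1b_gt.CableA2

open Set Function Filter Topology
open scoped ContDiff Real

noncomputable section

namespace Pool.Agent.Lib.MP_1d0d1b_gt

namespace Config

variable {B : Base} {C : Config B}

private theorem compact_half : IsCompact Half := by
  have h : Half = Metric.closedBall (0 : ℂ) 1 ∩ {z : ℂ | 0 ≤ z.im} := by
    ext z
    simp [Half]
  rw [h]
  exact (isCompact_closedBall _ _).inter_right (isClosed_le continuous_const Complex.continuous_im)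

private theorem compact_semi : IsCompact Semi := by
  have h : Semi = Metric.sphere (0 : ℂ) 1 ∩ {z : ℂ | 0 ≤ z.im} := by
    ext z
    simp [Semi]
  rw [h]
  exact (isCompact_sphere _ _).inter_right (isClosed_le continuous_const Complex.continuous_im)

private theorem compact_abs : IsCompact {x : ℝ | |x| ≤ 1} := by
  have h : {x : ℝ | |x| ≤ 1} = Icc (-1) 1 := by
    ext x
    simp [abs_le]
  rw [h]
  exact isCompact_Icc

private theorem spread {K : Set ℂ} (hK : IsCompact K) {P : ℂ × ℂ → Prop}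
    (h : ∀ ξ ∈ K, ∀ᶠ q in 𝓝 (ξ, (0 : ℂ)), P q) : ∀ᶠ l : ℝ in 𝓝 0, ∀ ξ ∈ K, P (ξ, (l : ℂ)) := by
  refine hK.eventually_forall_of_forall_eventually (P := fun (l : ℝ) ξ => P (ξ, (l : ℂ)))
    fun ξ hξ => ?_
  have c : Continuous fun z : ℝ × ℂ => (z.2, (z.1 : ℂ)) := by fun_prop
  exact (c.tendsto' (0, ξ) (ξ, 0) (by simp)).eventually (h ξ hξ)

private theorem spread_notO (hC : C.Valid) (i : C.I) {K : Set ℂ} (hK : IsCompact K)
    (h : ∀ ξ ∈ K, C.F i (ξ, 0) ∉ B.O) : ∀ᶠ l : ℝ in 𝓝 0, ∀ ξ ∈ K, C.F i (ξ, (l : ℂ)) ∉ B.O :=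
  spread hK (P := fun q => C.F i q ∉ B.O) fun ξ hξ =>
    (hC.smooth i).continuous.continuousAt.eventually
      (B.O_closed.isOpen_compl.mem_nhds (h ξ hξ))

theorem Valid.slab_facts (hC : C.Valid) (i : C.I) :
    ∀ᶠ l : ℝ in 𝓝 0,
      (∀ ξ ∈ Half, Bijective (fderiv ℝ (C.F i) (ξ, (l : ℂ))) ∧ 0 < (C.F i (ξ, (l : ℂ))).2) ∧
      (∀ x : ℝ, |x| ≤ 1 → C.α i (x, l) ∈ oDisc ∧ ∀ᶠ q : ℝ × ℝ in 𝓝 (x, l),
        C.F i ((q.1 : ℂ), (q.2 : ℂ)) = B.f (C.lo i) (C.α i q)) ∧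
      (∀ X, C.par i = .inr X → ∀ ξ₀ ∈ Semi, ∀ᶠ q : ℂ × ℂ in 𝓝 (ξ₀, (l : ℂ)), ‖q.1‖ = 1 →
        C.F i q = C.F X (C.β i ((1 + q.2.im) • q.1), (q.2.re : ℂ))) ∧
      (∀ X, C.par i = .inr X → ∀ ξ ∈ Half, C.F i (ξ, (l : ℂ)) ∉ B.O) := by
  refine Filter.Eventually.and ?_ (Filter.Eventually.and ?_ ?_)
  · refine spread compact_half
      (P := fun q => Bijective (fderiv ℝ (C.F i) q) ∧ 0 < (C.F i q).2) fun ξ hξ => ?_
    refine (eventually_bij_fderiv (hC.smooth i) (hC.bij i ξ hξ)).and ?_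
    exact (continuous_snd.comp (hC.smooth i).continuous).continuousAt.eventually
      (lt_mem_nhds (hC.pos i ξ hξ))
  · refine compact_abs.eventually_forall_of_forall_eventually
      (P := fun (l : ℝ) (x : ℝ) => C.α i (x, l) ∈ oDisc ∧ ∀ᶠ q : ℝ × ℝ in 𝓝 (x, l),
        C.F i ((q.1 : ℂ), (q.2 : ℂ)) = B.f (C.lo i) (C.α i q)) fun x hx => ?_
    have c : Tendsto (fun z : ℝ × ℝ => (z.2, z.1)) (𝓝 (0, x)) (𝓝 (x, 0)) :=
      continuous_swap.tendsto (0, x)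
    have ho : IsOpen oDisc := isOpen_lt continuous_norm continuous_const
    have h1 : ∀ᶠ q in 𝓝 (x, (0 : ℝ)), C.α i q ∈ oDisc :=
      (hC.α_smooth i).continuous.continuousAt.eventually (ho.mem_nhds (hC.α_mem i x hx))
    exact c.eventually (h1.and (hC.bot i x hx).eventually_nhds)
  · rcases hp : C.par i with a | X
    · exact Eventually.of_forall fun l => ⟨fun X h => (by cases h), fun X h => (by cases h)⟩
    · have h1 := spread compact_semi (P := fun q₀ => ∀ᶠ q : ℂ × ℂ in 𝓝 q₀, ‖q.1‖ = 1 →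
        C.F i q = C.F X (C.β i ((1 + q.2.im) • q.1), (q.2.re : ℂ)))
        fun ξ hξ => (hC.top i X hp ξ hξ).eventually_nhds
      have h2 := spread_notO hC i compact_half fun ξ hξ hO => by
        obtain ⟨⟨a, ha⟩, -⟩ := hC.notO i ξ hξ hO
        rw [hp] at ha
        cases ha
      filter_upwards [h1, h2] with l a1 a2
      refine ⟨fun X' h => ?_, fun _ _ => a2⟩
      cases h
      exact a1

theorem Valid.notO_eventually (hC : C.Valid) (i : C.I) {θ : ℝ} (hθ : 0 < θ) :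
    ∀ᶠ l : ℝ in 𝓝 0, ∀ ξ ∈ Half, ‖ξ‖ ≤ 1 - θ → C.F i (ξ, (l : ℂ)) ∉ B.O := by
  have hK : IsCompact (Half ∩ {ξ : ℂ | ‖ξ‖ ≤ 1 - θ}) :=
    compact_half.inter_right (isClosed_le continuous_norm continuous_const)
  have h := spread_notO hC i hK fun ξ hξ hO => by
    have h1 := (hC.notO i ξ hξ.1 hO).2
    have h2 : ‖ξ‖ ≤ 1 - θ := hξ.2
    linarith
  exact h.mono fun l hl ξ h1 h2 => hl ξ ⟨h1, h2⟩

/-- The span condition along the semicircle of a child. -/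
theorem span_of_top {Fi FX : ℂ × ℂ → E4} (hi : ContDiff ℝ ∞ Fi) (hX : ContDiff ℝ ∞ FX)
    (p : ℂ) (M : ℂ →L[ℝ] ℂ) {l t : ℝ} (hb : Bijective (fderiv ℝ Fi (circ t, (l : ℂ))))
    (ht : ∀ᶠ q : ℂ × ℂ in 𝓝 (circ t, (l : ℂ)), ‖q.1‖ = 1 →
      Fi q = FX (p + M ((1 + q.2.im) • q.1), (q.2.re : ℂ))) (y : E4) :
    ∃ (P : ℂ × ℝ) (Q : ℂ),
      fderiv ℝ (fun e : ℂ × ℝ => Fi (e.1, ((l + e.2 : ℝ) : ℂ))) (circ t, 0) P +
        fderiv ℝ (fun x => FX (x, (l : ℂ))) (p + M (circ t)) Q = y := by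
  obtain ⟨⟨P, w⟩, rfl⟩ := hb.2 y
  have dI := (hi.differentiable (by simp) (circ t, (l : ℂ))).hasFDerivAt
  have dX : Differentiable ℝ fun x : ℂ => FX (x, (l : ℂ)) :=
    (hX.differentiable (by simp)).comp (differentiable_id.prodMk (differentiable_const _))
  have e1 : ∀ e : ℂ × ℝ, fderiv ℝ (fun e : ℂ × ℝ => Fi (e.1, ((l + e.2 : ℝ) : ℂ))) (circ t, 0) e =
      fderiv ℝ Fi (circ t, (l : ℂ)) (e.1, (e.2 : ℂ)) := by
    intro e
    have a1 : HasFDerivAt (fun e : ℂ × ℝ => (e.1, ((l + e.2 : ℝ) : ℂ)))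
        ((ContinuousLinearMap.fst ℝ ℂ ℝ).prod
          (Complex.ofRealCLM.comp (ContinuousLinearMap.snd ℝ ℂ ℝ))) (circ t, 0) :=
      hasFDerivAt_fst.prodMk
        (Complex.ofRealCLM.hasFDerivAt.comp _ (hasFDerivAt_snd.const_add l))
    have a2 : HasFDerivAt Fi (fderiv ℝ Fi (circ t, (l : ℂ)))
        ((fun e : ℂ × ℝ => (e.1, ((l + e.2 : ℝ) : ℂ))) (circ t, 0)) := by
      simpa only [add_zero] using dI
    exact congrArg (fun A : ℂ × ℝ →L[ℝ] E4 => A e) (a2.comp (circ t, (0 : ℝ)) a1).fderiv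
  have e2 : fderiv ℝ Fi (circ t, (l : ℂ)) (0, Complex.I) =
      fderiv ℝ (fun x => FX (x, (l : ℂ))) (p + M (circ t)) (M (circ t)) := by
    have b1 : HasDerivAt (fun m : ℝ => ((circ t, (l : ℂ)) : ℂ × ℂ) + m • (0, Complex.I))
        (0, Complex.I) 0 := by
      have := ((hasDerivAt_id' (0 : ℝ)).smul_const ((0, Complex.I) : ℂ × ℂ)).const_add
        (circ t, (l : ℂ))
      rw [one_smul] at this
      exact this
    have b2 : HasDerivAt (fun m : ℝ => Fi ((circ t, (l : ℂ)) + m • (0, Complex.I)))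
        (fderiv ℝ Fi (circ t, (l : ℂ)) (0, Complex.I)) 0 :=
      dI.comp_hasDerivAt_of_eq (0 : ℝ) b1 (by simp)
    have b3 : HasDerivAt (fun m : ℝ => p + M (circ t) + m • M (circ t)) (M (circ t)) 0 := by
      have := ((hasDerivAt_id' (0 : ℝ)).smul_const (M (circ t))).const_add (p + M (circ t))
      rw [one_smul] at this
      exact this
    have b4 : HasDerivAt (fun m : ℝ => FX (p + M (circ t) + m • M (circ t), (l : ℂ)))
        (fderiv ℝ (fun x => FX (x, (l : ℂ))) (p + M (circ t)) (M (circ t))) 0 :=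
      (dX (p + M (circ t))).hasFDerivAt.comp_hasDerivAt_of_eq (0 : ℝ) b3 (by simp)
    refine b2.unique (b4.congr_of_eventuallyEq ?_)
    have b5 : Tendsto (fun m : ℝ => ((circ t, (l : ℂ)) : ℂ × ℂ) + m • (0, Complex.I)) (𝓝 0)
        (𝓝 (circ t, (l : ℂ))) := by
      simpa using b1.continuousAt.tendsto
    filter_upwards [b5.eventually ht] with m hm
    have n1 : ‖circ t‖ = 1 := Complex.norm_exp_ofReal_mul_I t
    rw [hm (by simpa using n1)]
    have q1 : (((circ t, (l : ℂ)) : ℂ × ℂ) + m • (0, Complex.I)).1 = circ t := by simp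
    have q2 : (((circ t, (l : ℂ)) : ℂ × ℂ) + m • (0, Complex.I)).2.im = m := by simp
    have q3 : (((circ t, (l : ℂ)) : ℂ × ℂ) + m • (0, Complex.I)).2.re = l := by simp
    rw [q1, q2, q3, map_smul, add_smul, one_smul, add_assoc]
  refine ⟨(P, w.re), w.im • M (circ t), ?_⟩
  rw [e1, map_smul, ← e2, ← map_smul, ← map_add]
  congr 1
  simp [Complex.re_add_im]

end Config

end Pool.Agent.Lib.MP_1d0d1b_gt
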