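import Pool.Agent.Lib.MP_1d0d1b_gt.CableA1
import Pool.Agent.Lib.MP_1d0d1b_gt.CableA2
import Pool.Agent.Lib.MP_1d0d1b_gt.CableA3
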