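import Pool.Agent.Lib.MP_1d0d1b_gt.Basic

open Set Function Filter Topology
open scoped ContDiff Real

noncomputable section

namespace Pool.Agent.Lib.MP_1d0d1b_gt

namespace Config

variable {B : Base} {C : Config B}

/-- Near the trace of the semicircle of `i`, the real slices of the parent are described in the
fat slab of `i`. -/
theorem Valid.cableA1_top (hC : C.Valid) {i j : C.I} (hp : C.par i = .inr j) {ξ₀ : ℂ}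
    (h₀ : ξ₀ ∈ Semi) {U : Set (ℂ × ℂ)} (hU : U ∈ 𝓝 (ξ₀, (0 : ℂ))) :
    ∀ᶠ y : ℂ × ℝ in 𝓝 (C.β i ξ₀, 0), ∃ (ζ : ℂ) (m : ℝ), ‖ζ‖ = 1 ∧ y.1 = C.β i ((1 + m) • ζ) ∧
      (ζ, (⟨y.2, m⟩ : ℂ)) ∈ U ∧ C.F j (y.1, (y.2 : ℂ)) = C.F i (ζ, (⟨y.2, m⟩ : ℂ)) := by
  have hc : Continuous fun r : (ℂ × ℝ) × ℝ => (r.1.1, (⟨r.2, r.1.2⟩ : ℂ)) := by
    refine (continuous_fst.comp continuous_fst).prodMk ?_
    have : (fun r : (ℂ × ℝ) × ℝ => (⟨r.2, r.1.2⟩ : ℂ)) =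
        fun r => (r.2 : ℂ) + (r.1.2 : ℂ) * Complex.I := by
      funext r
      apply Complex.ext <;> simp
    rw [this]
    fun_prop
  have ht : Tendsto (fun r : (ℂ × ℝ) × ℝ => (r.1.1, (⟨r.2, r.1.2⟩ : ℂ))) (𝓝 ((ξ₀, 0), 0))
      (𝓝 (ξ₀, (0 : ℂ))) := hc.tendsto' _ _ rfl
  have h1 := ht.eventually ((hC.top i j hp ξ₀ h₀).and hU)
  rw [nhds_prod_eq, eventually_prod_iff] at h1
  obtain ⟨pa, hpa, pb, hpb, hab⟩ := h1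
  have h2 := polar_eventually (C.p i) (hC.M_inj hp) h₀.1 hpa
  rw [nhds_prod_eq]
  refine (h2.prod_mk hpb).mono ?_
  rintro ⟨x, l⟩ ⟨⟨q, hq1, hq2, hq3⟩, hl⟩
  obtain ⟨h3, h4⟩ := hab hq3 hl
  refine ⟨q.1, q.2, hq1, hq2, h4, ?_⟩
  have h5 := h3 hq1
  dsimp only at h5 hq2 ⊢
  rw [h5, hq2]
  rfl

theorem Valid.cableA1_child (hC : C.Valid) {i j : C.I} (hp : C.par i = .inr j) {ξ₀ : ℂ}
    (h₀ : ξ₀ ∈ Semi) :
    ∀ᶠ y : (ℂ × ℝ) × ℂ × ℝ in 𝓝 ((ξ₀, 0), C.β i ξ₀, 0),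
      C.F i (y.1.1, (y.1.2 : ℂ)) = C.F j (y.2.1, (y.2.2 : ℂ)) →
        ‖y.1.1‖ = 1 ∧ y.2.1 = C.β i y.1.1 ∧ y.1.2 = y.2.2 := by
  obtain ⟨U, hU, hinj⟩ := locInj (hC.smooth i) (hC.bij i ξ₀ (Semi_subset h₀)).1
  have h1 := hC.cableA1_top hp h₀ hU
  have ht : Tendsto (fun r : ℂ × ℝ => (r.1, (r.2 : ℂ))) (𝓝 (ξ₀, 0)) (𝓝 (ξ₀, (0 : ℂ))) :=
    Continuous.tendsto' (by fun_prop) _ _ (by simp)
  have h2 : ∀ᶠ r : ℂ × ℝ in 𝓝 (ξ₀, 0), (r.1, (r.2 : ℂ)) ∈ U := ht.eventually hU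
  rw [nhds_prod_eq]
  refine (h2.prod_mk h1).mono ?_
  rintro ⟨⟨ξ, l⟩, ⟨x, l'⟩⟩ ⟨h3, ζ, m, h4, h5, h6, h7⟩ he
  dsimp only at h3 h5 h6 h7 he ⊢
  have h8 := hinj h3 h6 (he.trans h7)
  simp only [Prod.mk.injEq] at h8
  obtain ⟨h9, h10⟩ := h8
  have hm : m = 0 := by simpa using (congrArg Complex.im h10).symm
  have hl : l = l' := by simpa using congrArg Complex.re h10
  subst hm h9
  exact ⟨h4, by simpa using h5, hl⟩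

theorem Valid.pair_analysis (hC : C.Valid) {i j : C.I}
    (h : ∀ x x', ¬ C.Good (.inl i) x (.inl j) x') :
    ∀ᶠ l : ℝ × ℝ in 𝓝 (0, 0), ∀ ξ ∈ Half, ∀ ξ' ∈ Half,
      C.F i (ξ, (l.1 : ℂ)) = C.F j (ξ', (l.2 : ℂ)) →
      (i = j ∧ ξ = ξ' ∧ l.1 = l.2) ∨
      (C.par i = .inr j ∧ ξ ∈ Semi ∧ ξ' = C.β i ξ ∧ l.1 = l.2) ∨
      (C.par j = .inr i ∧ ξ' ∈ Semi ∧ ξ = C.β j ξ' ∧ l.1 = l.2) := by
  have key := (isCompact_Half.prod isCompact_Half).eventually_forall_of_forall_eventually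
    (x₀ := ((0, 0) : ℝ × ℝ)) (P := fun l y => y.1 ∈ Half → y.2 ∈ Half →
      C.F i (y.1, (l.1 : ℂ)) = C.F j (y.2, (l.2 : ℂ)) →
      (i = j ∧ y.1 = y.2 ∧ l.1 = l.2) ∨
      (C.par i = .inr j ∧ y.1 ∈ Semi ∧ y.2 = C.β i y.1 ∧ l.1 = l.2) ∨
      (C.par j = .inr i ∧ y.2 ∈ Semi ∧ y.1 = C.β j y.2 ∧ l.1 = l.2)) ?_
  · exact key.mono fun l hl ξ hξ ξ' hξ' => hl (ξ, ξ') ⟨hξ, hξ'⟩ hξ hξ'
  rintro ⟨ξ₀, ξ₀'⟩ ⟨h₀, h₀'⟩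
  dsimp only at h₀ h₀'
  have ci := (hC.smooth i).continuous
  have cj := (hC.smooth j).continuous
  by_cases he : C.F i (ξ₀, 0) = C.F j (ξ₀', 0)
  swap
  · have h1 : ContinuousAt (fun z : (ℝ × ℝ) × ℂ × ℂ => C.F i (z.2.1, (z.1.1 : ℂ)))
        ((0, 0), ξ₀, ξ₀') := Continuous.continuousAt (by fun_prop)
    have h2 : ContinuousAt (fun z : (ℝ × ℝ) × ℂ × ℂ => C.F j (z.2.2, (z.1.2 : ℂ)))
        ((0, 0), ξ₀, ξ₀') := Continuous.continuousAt (by fun_prop)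
    have h3 := (h1.sub h2).eventually_ne (y := 0) (by simpa [sub_eq_zero] using he)
    exact h3.mono fun z hz _ _ hz' => absurd (sub_eq_zero.2 hz') hz
  by_cases hij : ((.inl i, ξ₀) : (C.I ⊕ B.R) × ℂ) = (.inl j, ξ₀')
  · simp only [Prod.mk.injEq, Sum.inl.injEq] at hij
    obtain ⟨rfl, rfl⟩ := hij
    obtain ⟨U, hU, hinj⟩ := locInj (hC.smooth i) (hC.bij i ξ₀ h₀).1
    have t1 : Tendsto (fun z : (ℝ × ℝ) × ℂ × ℂ => (z.2.1, (z.1.1 : ℂ))) (𝓝 ((0, 0), ξ₀, ξ₀))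
        (𝓝 (ξ₀, (0 : ℂ))) := Continuous.tendsto' (by fun_prop) _ _ (by simp)
    have t2 : Tendsto (fun z : (ℝ × ℝ) × ℂ × ℂ => (z.2.2, (z.1.2 : ℂ))) (𝓝 ((0, 0), ξ₀, ξ₀))
        (𝓝 (ξ₀, (0 : ℂ))) := Continuous.tendsto' (by fun_prop) _ _ (by simp)
    filter_upwards [t1.eventually hU, t2.eventually hU] with z h1 h2 _ _ hz
    have h3 := hinj h1 h2 hz
    simp only [Prod.mk.injEq, Complex.ofReal_inj] at h3
    exact Or.inl ⟨rfl, h3⟩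
  rcases hC.gen (.inl i) ξ₀ (.inl j) ξ₀' h₀ h₀' hij he with hs | hs | hs
  · rcases hs with ⟨i', X, h1, h2, h3, h4, h5⟩ | ⟨a, -, h2, -⟩
    · obtain rfl := Sum.inl_injective h1
      obtain rfl := Sum.inl_injective h2
      subst h5
      have t : Tendsto (fun z : (ℝ × ℝ) × ℂ × ℂ => ((z.2.1, z.1.1), z.2.2, z.1.2))
          (𝓝 ((0, 0), ξ₀, C.β i ξ₀)) (𝓝 ((ξ₀, 0), C.β i ξ₀, 0)) :=
        Continuous.tendsto' (by fun_prop) _ _ rfl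
      filter_upwards [t.eventually (hC.cableA1_child h3 h4)] with z hz h6 _ h7
      obtain ⟨h8, h9, h10⟩ := hz h7
      exact Or.inr (Or.inl ⟨h3, ⟨h8, h6.2⟩, h9, h10⟩)
    · exact absurd h2 (by simp)
  · rcases hs with ⟨j', X, h1, h2, h3, h4, h5⟩ | ⟨a, -, h2, -⟩
    · obtain rfl := Sum.inl_injective h1
      obtain rfl := Sum.inl_injective h2
      subst h5
      have t : Tendsto (fun z : (ℝ × ℝ) × ℂ × ℂ => ((z.2.2, z.1.2), z.2.1, z.1.1))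
          (𝓝 ((0, 0), C.β j ξ₀', ξ₀')) (𝓝 ((ξ₀', 0), C.β j ξ₀', 0)) :=
        Continuous.tendsto' (by fun_prop) _ _ rfl
      filter_upwards [t.eventually (hC.cableA1_child h3 h4)] with z hz _ h6 h7
      obtain ⟨h8, h9, h10⟩ := hz h7.symm
      exact Or.inr (Or.inr ⟨h3, ⟨h8, h6.2⟩, h9, h10.symm⟩)
    · exact absurd h2 (by simp)
  · exact absurd hs (h _ _)

end Config

end Pool.Agent.Lib.MP_1d0d1b_gt
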