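import Pool.Agent.Lib.MP_1d0d1b_gt.CableA

open Set Function Filter Topology
open scoped ContDiff Real

noncomputable section

namespace Pool.Agent.Lib.MP_1d0d1b_gt

section aux

theorem cableB_mul_mem {ρ : ℝ} (h0 : 0 < ρ) (h1 : ρ ≤ 1) {z : ℂ} (hz : z ∈ oHalf) :
    (ρ : ℂ) * z ∈ oHalf := by
  refine ⟨?_, ?_⟩
  · rw [norm_mul, Complex.norm_real, Real.norm_of_nonneg h0.le]
    exact (mul_le_of_le_one_left (norm_nonneg _) h1).trans_lt hz.1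
  · rw [Complex.im_ofReal_mul]
    exact mul_pos h0 hz.2

theorem cableB_norm_div {ρ : ℝ} (h0 : 0 < ρ) (ξ : ℂ) : ‖ξ / (ρ : ℂ)‖ = ‖ξ‖ / ρ := by
  rw [norm_div, Complex.norm_real, Real.norm_of_nonneg h0.le]

theorem cableB_div_mem {ρ : ℝ} (h0 : 0 < ρ) {ξ : ℂ} (hξ : ξ ∈ Half) (h : ‖ξ‖ ≤ ρ) :
    ξ / (ρ : ℂ) ∈ Half := by
  refine ⟨?_, ?_⟩
  · rw [cableB_norm_div h0]
    exact (div_le_one h0).2 h
  · rw [Complex.div_ofReal_im]
    exact div_nonneg hξ.2 h0.le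

theorem cableB_notMem {ρ : ℝ} (h0 : 0 < ρ) {ξ : ℂ} (h : ρ ≤ ‖ξ‖) : ξ / (ρ : ℂ) ∉ oHalf := by
  intro h1
  have := h1.1
  rw [cableB_norm_div h0, div_lt_one h0] at this
  exact this.not_ge h

theorem cableB_semi {ξ : ℂ} (h : ξ ∈ Semi) : ∃ t ∈ Icc (0 : ℝ) π, ξ = circ t :=
  ⟨_, ⟨Real.arccos_nonneg _, Real.arccos_le_pi _⟩, (circ_arccos h).symm⟩

/-- The linear part of the reparametrisation of a slab. -/
def cableB_A (ρ : ℝ) : ℂ × ℝ →L[ℝ] ℂ × ℂ :=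
  (ρ⁻¹ • ContinuousLinearMap.fst ℝ ℂ ℝ).prod
    (Complex.ofRealCLM.comp (ContinuousLinearMap.snd ℝ ℂ ℝ))

/-- The reparametrisation of a slab. -/
def cableB_g (ρ l : ℝ) (e : ℂ × ℝ) : ℂ × ℂ := (e.1 / (ρ : ℂ), ((l + e.2 : ℝ) : ℂ))

theorem cableB_g_eq (ρ l : ℝ) : cableB_g ρ l = fun e => cableB_A ρ e + (0, (l : ℂ)) := by
  ext e <;> simp [cableB_g, cableB_A, div_eq_inv_mul, add_comm]

theorem cableB_g_contDiff (ρ l : ℝ) : ContDiff ℝ ∞ (cableB_g ρ l) := by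
  rw [cableB_g_eq]
  exact (cableB_A ρ).contDiff.add contDiff_const

theorem cableB_g_hasFDerivAt (ρ l : ℝ) (e : ℂ × ℝ) : HasFDerivAt (cableB_g ρ l) (cableB_A ρ) e := by
  rw [cableB_g_eq]
  exact (cableB_A ρ).hasFDerivAt.add_const _

theorem cableB_A_inj {ρ : ℝ} (h : ρ ≠ 0) : Injective (cableB_A ρ) := by
  rw [injective_iff_map_eq_zero]
  rintro ⟨x, y⟩ hx
  simpa [cableB_A, h] using hx

theorem cableB_g_zero (ρ l : ℝ) (ξ : ℂ) : cableB_g ρ l (ξ, 0) = (ξ / (ρ : ℂ), (l : ℂ)) := by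
  simp [cableB_g]

theorem cableB_div_hasFDerivAt (ρ : ℝ) (z : ℂ) :
    HasFDerivAt (fun x : ℂ => x / (ρ : ℂ)) (ρ⁻¹ • ContinuousLinearMap.id ℝ ℂ) z := by
  have : (fun x : ℂ => x / (ρ : ℂ)) = ⇑(ρ⁻¹ • ContinuousLinearMap.id ℝ ℂ) := by
    ext x
    simp [div_eq_inv_mul]
  rw [this]
  exact ContinuousLinearMap.hasFDerivAt _

end aux

section slabs

variable {B : Base} (C : Config B) (V : Variants B)

/-- The scale of the inner part. -/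
def cableB_rho (i : C.I) : ℝ := Sum.elim (fun _ => V.r₀) (fun _ => 1) (C.par i)

open Classical in
/-- The slab of the copy `κ` of the disc `i`. -/
def cableB_S (ε : ℝ) (i : C.I) (κ : Σ a, V.K a) (e : ℂ × ℝ) : E4 :=
  if (∃ a, C.par i = .inl a) ∧ V.r₀ ≤ ‖e.1‖ then V.W ε κ.1 κ.2 e
  else C.F i (cableB_g (cableB_rho C V i) (ε * V.c κ.1 κ.2) e)

variable {C V}

theorem cableB_rho_inl {i : C.I} (h : ∃ a, C.par i = .inl a) : cableB_rho C V i = V.r₀ := by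
  obtain ⟨a, h⟩ := h
  simp [cableB_rho, h]

theorem cableB_rho_inr {i X : C.I} (h : C.par i = .inr X) : cableB_rho C V i = 1 := by
  simp [cableB_rho, h]

theorem cableB_r_lt : V.r₀ < V.r₀ * (1 + V.θ) := by nlinarith [V.r₀_pos, V.θ_pos]

theorem cableB_r_lt_one : V.r₀ < 1 := cableB_r_lt.trans V.r₀_lt

theorem cableB_rho_pos (i : C.I) : 0 < cableB_rho C V i := by
  rcases h : C.par i with a | X
  · rw [cableB_rho_inl ⟨a, h⟩]
    exact V.r₀_pos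
  · rw [cableB_rho_inr h]
    exact one_pos

theorem cableB_rho_le (i : C.I) : cableB_rho C V i ≤ 1 := by
  rcases h : C.par i with a | X
  · rw [cableB_rho_inl ⟨a, h⟩]
    exact cableB_r_lt_one.le
  · rw [cableB_rho_inr h]

theorem cableB_root (hC : C.Valid) {i : C.I} {a : B.R} (ha : C.anc i = a)
    (h : ∃ a, C.par i = .inl a) : i = C.rt a := by
  obtain ⟨a', h⟩ := h
  have := hC.rt_par i a' h
  rw [← ha, this, hC.anc_rt]

theorem cableB_exK (hC : C.Valid) (V : Variants B) (a : B.R) :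
    ∃ K : Set ℂ, IsCompact K ∧ K ⊆ oHalf ∧ ∀ ε k (e : ℂ × ℝ), e.1 / (V.r₀ : ℂ) ∉ K →
      ‖e.1‖ < V.r₀ * (1 + V.θ) →
      V.W ε a k e = C.F (C.rt a) (cableB_g V.r₀ (ε * V.c a k) e) := by
  obtain ⟨K, hK, hK', h⟩ := hC.root_eq a
  obtain ⟨Kc, hKc, hKc', h'⟩ := V.agree a
  refine ⟨K ∪ Kc, hK.union hKc, union_subset hK' hKc', fun ε k e he hn => ?_⟩
  rw [mem_union, not_or] at he
  rw [cableB_g, h _ he.1]
  exact h' ε k e.1 e.2 he.2 hn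

theorem cableB_S_inner (hC : C.Valid) (ε : ℝ) {i : C.I} {κ : Σ a, V.K a} (ha : C.anc i = κ.1)
    {e : ℂ × ℝ} (h : (∃ a, C.par i = .inl a) → ‖e.1‖ < V.r₀ * (1 + V.θ)) :
    cableB_S C V ε i κ e = C.F i (cableB_g (cableB_rho C V i) (ε * V.c κ.1 κ.2) e) := by
  unfold cableB_S
  split_ifs with h1
  · obtain ⟨K, -, hK, h2⟩ := cableB_exK hC V κ.1
    rw [cableB_rho_inl h1.1, h2 ε κ.2 e (fun h3 => cableB_notMem V.r₀_pos h1.2 (hK h3)) (h h1.1),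
      ← cableB_root hC ha h1.1]
  · rfl

theorem cableB_S_inner_ev (hC : C.Valid) (ε : ℝ) {i : C.I} {κ : Σ a, V.K a} (ha : C.anc i = κ.1)
    {e : ℂ × ℝ} (h : (∃ a, C.par i = .inl a) → ‖e.1‖ < V.r₀ * (1 + V.θ)) :
    cableB_S C V ε i κ =ᶠ[𝓝 e] C.F i ∘ cableB_g (cableB_rho C V i) (ε * V.c κ.1 κ.2) := by
  by_cases h1 : ∃ a, C.par i = .inl a
  · filter_upwards [(isOpen_lt continuous_fst.norm continuous_const).mem_nhds (h h1)] with e' he'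
    exact cableB_S_inner hC ε ha fun _ => he'
  · exact Eventually.of_forall fun e' => cableB_S_inner hC ε ha fun h2 => (h1 h2).elim

theorem cableB_S_child (ε : ℝ) {i X : C.I} (κ : Σ a, V.K a) (h : C.par i = .inr X) :
    cableB_S C V ε i κ = fun e => C.F i (e.1, ((ε * V.c κ.1 κ.2 + e.2 : ℝ) : ℂ)) := by
  ext1 e
  simp [cableB_S, cableB_rho_inr h, h, cableB_g]

theorem cableB_S_out (ε : ℝ) {i : C.I} (κ : Σ a, V.K a) (h : ∃ a, C.par i = .inl a) {e : ℂ × ℝ}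
    (he : V.r₀ ≤ ‖e.1‖) : cableB_S C V ε i κ e = V.W ε κ.1 κ.2 e := if_pos ⟨h, he⟩

theorem cableB_S_outer (hC : C.Valid) (V : Variants B) (a : B.R) :
    ∃ K : Set ℂ, IsCompact K ∧ K ⊆ oHalf ∧ ∀ ε i k, C.anc i = a → (∃ a, C.par i = .inl a) →
      ∀ e : ℂ × ℝ, e.1 / (V.r₀ : ℂ) ∉ K → cableB_S C V ε i ⟨a, k⟩ e = V.W ε a k e := by
  obtain ⟨K, hK, hK', h⟩ := cableB_exK hC V a
  refine ⟨K, hK, hK', fun ε i k ha hi e he => ?_⟩
  unfold cableB_S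
  split_ifs with h1
  · rfl
  · have h2 : ‖e.1‖ < V.r₀ := not_le.1 fun h2 => h1 ⟨hi, h2⟩
    rw [h ε k e he (h2.trans cableB_r_lt), cableB_rho_inl hi, ← cableB_root hC ha hi]

theorem cableB_S_outer_ev (hC : C.Valid) (ε : ℝ) {i : C.I} {κ : Σ a, V.K a} (ha : C.anc i = κ.1)
    (hi : ∃ a, C.par i = .inl a) {e : ℂ × ℝ} (he : e.1 / (V.r₀ : ℂ) ∉ oHalf) :
    cableB_S C V ε i κ =ᶠ[𝓝 e] V.W ε κ.1 κ.2 := by
  obtain ⟨K, hK, hK', h⟩ := cableB_S_outer hC V κ.1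
  have hc : Continuous fun e : ℂ × ℝ => e.1 / (V.r₀ : ℂ) := continuous_fst.div_const _
  filter_upwards [(hK.isClosed.preimage hc).isOpen_compl.mem_nhds fun h1 => he (hK' h1)]
    with e' he'
  exact h ε i κ.2 ha hi e' he'

theorem cableB_S_smooth (hC : C.Valid) (ε : ℝ) {i : C.I} {κ : Σ a, V.K a} (ha : C.anc i = κ.1) :
    ContDiff ℝ ∞ (cableB_S C V ε i κ) := by
  rw [contDiff_iff_contDiffAt]
  intro e
  by_cases h : (∃ a, C.par i = .inl a) ∧ V.r₀ ≤ ‖e.1‖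
  · exact (V.smooth ε κ.1 κ.2).contDiffAt.congr_of_eventuallyEq
      (cableB_S_outer_ev hC ε ha h.1 (cableB_notMem V.r₀_pos h.2))
  · exact ((hC.smooth i).comp (cableB_g_contDiff _ _)).contDiffAt.congr_of_eventuallyEq
      (cableB_S_inner_ev hC ε ha fun h1 => (not_le.1 fun h2 => h ⟨h1, h2⟩).trans cableB_r_lt)

/-- Points of the half disc are outer or inner. -/
theorem cableB_cases (hC : C.Valid) (ε : ℝ) {i : C.I} {κ : Σ a, V.K a} (ha : C.anc i = κ.1)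
    {ξ : ℂ} (hξ : ξ ∈ Half) :
    ((∃ a, C.par i = .inl a) ∧ V.r₀ ≤ ‖ξ‖ ∧ cableB_S C V ε i κ (ξ, 0) = V.W ε κ.1 κ.2 (ξ, 0)) ∨
    (((∃ a, C.par i = .inl a) → ‖ξ‖ < V.r₀) ∧ ξ / (cableB_rho C V i : ℂ) ∈ Half ∧
      cableB_S C V ε i κ (ξ, 0) =
        C.F i (ξ / (cableB_rho C V i : ℂ), ((ε * V.c κ.1 κ.2 : ℝ) : ℂ))) := by
  by_cases h : (∃ a, C.par i = .inl a) ∧ V.r₀ ≤ ‖ξ‖
  · exact Or.inl ⟨h.1, h.2, cableB_S_out ε κ h.1 h.2⟩
  · have h1 : (∃ a, C.par i = .inl a) → ‖ξ‖ < V.r₀ := fun h1 => not_le.1 fun h2 => h ⟨h1, h2⟩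
    refine Or.inr ⟨h1, cableB_div_mem (cableB_rho_pos i) hξ ?_, ?_⟩
    · rcases h2 : C.par i with a | X
      · rw [cableB_rho_inl ⟨a, h2⟩]
        exact (h1 ⟨a, h2⟩).le
      · rw [cableB_rho_inr h2]
        exact hξ.1
    · rw [cableB_S_inner hC ε ha fun h2 => (h1 h2).trans cableB_r_lt, cableB_g_zero]

/-- The zero leaf near an inner point. -/
theorem cableB_leaf_ev (hC : C.Valid) (ε : ℝ) {i : C.I} {κ : Σ a, V.K a} (ha : C.anc i = κ.1)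
    {ξ : ℂ} (h : (∃ a, C.par i = .inl a) → ‖ξ‖ < V.r₀ * (1 + V.θ)) :
    (fun x => cableB_S C V ε i κ (x, 0)) =ᶠ[𝓝 ξ]
      fun x => C.F i (x / (cableB_rho C V i : ℂ), ((ε * V.c κ.1 κ.2 : ℝ) : ℂ)) := by
  have hc : ContinuousAt (fun x : ℂ => (x, (0 : ℝ))) ξ := by fun_prop
  filter_upwards [hc.eventually (cableB_S_inner_ev hC ε ha (e := (ξ, 0)) h)] with x hx
  rw [hx, comp_apply, cableB_g_zero]

theorem cableB_beta_norm {X : C.I} {z : ℂ} (hz : ‖z‖ < 1) (h : ∃ a, C.par X = .inl a) :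
    ‖(cableB_rho C V X : ℂ) * z‖ < V.r₀ * (1 + V.θ) := by
  rw [cableB_rho_inl h, norm_mul, Complex.norm_real, Real.norm_of_nonneg V.r₀_pos.le]
  exact mul_lt_mul_of_pos_left (by linarith [V.θ_pos]) V.r₀_pos

theorem cableB_mul_div (X : C.I) (z : ℂ) :
    (cableB_rho C V X : ℂ) * z / (cableB_rho C V X : ℂ) = z :=
  mul_div_cancel_left₀ _ (Complex.ofReal_ne_zero.2 (cableB_rho_pos X).ne')

theorem cableB_eq_mul {X : C.I} {ξ z : ℂ} (h : ξ / (cableB_rho C V X : ℂ) = z) :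
    ξ = (cableB_rho C V X : ℂ) * z := by
  rw [← h, mul_div_cancel₀ _ (Complex.ofReal_ne_zero.2 (cableB_rho_pos X).ne')]

variable (C V)

/-- The facts available for a small cabling width. -/
structure cableB_OK (n : ℕ) (ε : ℝ) : Prop where
  pos : 0 < ε
  good : VGood B V.K V.up V.r₀ V.θ (V.W ε)
  slab : ∀ i (κ : Σ a, V.K a) l, l = ε * V.c κ.1 κ.2 →
    (∀ ξ ∈ Half, Bijective (fderiv ℝ (C.F i) (ξ, (l : ℂ))) ∧ 0 < (C.F i (ξ, (l : ℂ))).2) ∧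
      (∀ x : ℝ, |x| ≤ 1 → C.α i (x, l) ∈ oDisc ∧ ∀ᶠ q : ℝ × ℝ in 𝓝 (x, l),
        C.F i ((q.1 : ℂ), (q.2 : ℂ)) = B.f (C.lo i) (C.α i q)) ∧
      (∀ X, C.par i = .inr X → ∀ ξ₀ ∈ Semi, ∀ᶠ q : ℂ × ℂ in 𝓝 (ξ₀, (l : ℂ)), ‖q.1‖ = 1 →
        C.F i q = C.F X (C.β i ((1 + q.2.im) • q.1), (q.2.re : ℂ))) ∧
      (∀ X, C.par i = .inr X → ∀ ξ ∈ Half, C.F i (ξ, (l : ℂ)) ∉ B.O)
  onD : ∀ i (κ : Σ a, V.K a) l, l = ε * V.c κ.1 κ.2 →
    ∀ ξ ∈ Half, ∀ j, ∀ z ∈ Disc, C.F i (ξ, (l : ℂ)) = B.f j z →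
      (ξ ∈ Diam ∧ j = C.lo i) ∨
      ∃ c, C.par c = .inr i ∧ ∃ e : ℂ, (e = 1 ∨ e = -1) ∧ ξ = C.β c e ∧
        C.F c (e, (l : ℂ)) = C.F i (ξ, (l : ℂ)) ∧
        Transv (B.f j) (fun x => C.F i (x, (l : ℂ))) z ξ
  pair : ∀ i j, C.ord i ≤ n → C.ord j ≤ n → ∀ (κ κ' : Σ a, V.K a) l l', l = ε * V.c κ.1 κ.2 →
    l' = ε * V.c κ'.1 κ'.2 → ∀ ξ ∈ Half, ∀ ξ' ∈ Half,
      C.F i (ξ, (l : ℂ)) = C.F j (ξ', (l' : ℂ)) →
      (i = j ∧ ξ = ξ' ∧ l = l') ∨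
      (C.par i = .inr j ∧ ξ ∈ Semi ∧ ξ' = C.β i ξ ∧ l = l') ∨
      (C.par j = .inr i ∧ ξ' ∈ Semi ∧ ξ = C.β j ξ' ∧ l = l')
  ann : ∀ i (κ : Σ a, V.K a), C.anc i = κ.1 → (∃ a, C.par i = .inl a) → ∀ ξ : ℂ,
    ξ / (V.r₀ : ℂ) ∈ Half → C.F i (ξ / (V.r₀ : ℂ), ((ε * V.c κ.1 κ.2 : ℝ) : ℂ)) ∈ B.O →
      V.r₀ * (1 - V.θ) ≤ ‖ξ‖ ∧ cableB_S C V ε i κ (ξ, 0) = V.W ε κ.1 κ.2 (ξ, 0)

variable {C V}

theorem cableB_exists_OK (hC : C.Valid) {n : ℕ} (hP : ∀ k ≤ n, C.Pend k = ∅) (V : Variants B) :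
    ∃ ε, cableB_OK C V n ε := by
  have := hC.finI
  have := B.finR
  have := V.finK
  have ht : ∀ c : ℝ, Tendsto (fun ε : ℝ => ε * c) (𝓝[>] 0) (𝓝 0) := fun c => by
    have : Tendsto (fun ε : ℝ => ε * c) (𝓝 0) (𝓝 (0 * c)) :=
      (continuous_id.mul continuous_const).tendsto 0
    rw [zero_mul] at this
    exact this.mono_left nhdsWithin_le_nhds
  have h1 := eventually_all.2 fun i => eventually_all.2 fun κ : Σ a, V.K a =>
    (ht (V.c κ.1 κ.2)).eventually (hC.slab_facts i)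
  have h2 := eventually_all.2 fun i => eventually_all.2 fun κ : Σ a, V.K a =>
    (ht (V.c κ.1 κ.2)).eventually (hC.D_analysis i)
  have hg : ∀ i j, C.ord i ≤ n → C.ord j ≤ n → ∀ x x', ¬ C.Good (.inl i) x (.inl j) x' :=
    fun i j hi hj x x' h => by
      have : ((i, x), (j, x')) ∈ C.Pend (max (C.ord i) (C.ord j)) := ⟨h, rfl⟩
      rw [hP _ (max_le hi hj)] at this
      exact this
  have h3 := eventually_all.2 fun i : {i // C.ord i ≤ n} => eventually_all.2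
    fun j : {i // C.ord i ≤ n} => eventually_all.2 fun κ : Σ a, V.K a =>
    eventually_all.2 fun κ' : Σ a, V.K a =>
    ((ht (V.c κ.1 κ.2)).prodMk_nhds (ht (V.c κ'.1 κ'.2))).eventually
      (hC.pair_analysis (hg i j i.2 j.2))
  have h4 : ∀ i (κ : Σ a, V.K a), ∀ᶠ ε in 𝓝[>] (0 : ℝ), C.anc i = κ.1 →
      (∃ a, C.par i = .inl a) → ∀ ξ : ℂ, ξ / (V.r₀ : ℂ) ∈ Half →
      C.F i (ξ / (V.r₀ : ℂ), ((ε * V.c κ.1 κ.2 : ℝ) : ℂ)) ∈ B.O →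
      V.r₀ * (1 - V.θ) ≤ ‖ξ‖ ∧ cableB_S C V ε i κ (ξ, 0) = V.W ε κ.1 κ.2 (ξ, 0) := fun i κ => by
    obtain ⟨K, hK, hK', h⟩ := cableB_S_outer hC V κ.1
    obtain ⟨r, hr, hr'⟩ := exists_lt_subset_ball (x := (0 : ℂ)) (r := 1) hK.isClosed
      fun z hz => mem_ball_zero_iff.2 (hK' hz).1
    have hθ : 0 < min V.θ (1 - r) := lt_min V.θ_pos (sub_pos.2 hr)
    filter_upwards [(ht (V.c κ.1 κ.2)).eventually (hC.notO_eventually i hθ)]
      with ε hε ha hi ξ hξ hO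
    have h5 : 1 - min V.θ (1 - r) < ‖ξ / (V.r₀ : ℂ)‖ := not_le.1 fun h5 => hε _ hξ h5 hO
    refine ⟨?_, h ε i κ.2 ha hi (ξ, 0) fun h6 => ?_⟩
    · rw [cableB_norm_div V.r₀_pos, lt_div_iff₀ V.r₀_pos] at h5
      nlinarith [min_le_left V.θ (1 - r), V.r₀_pos]
    · have := mem_ball_zero_iff.1 (hr' h6)
      linarith [min_le_right V.θ (1 - r)]
  obtain ⟨ε, hε, hgood, h1, h2, h3, h4⟩ := ((eventually_mem_nhdsWithin).and (V.good.and (h1.and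
    (h2.and (h3.and (eventually_all.2 fun i => eventually_all.2 (h4 i))))))).exists
  refine ⟨ε, hε, hgood, ?_, ?_, ?_, h4⟩
  · rintro i κ _ rfl
    exact h1 i κ
  · rintro i κ _ rfl
    exact h2 i κ
  · rintro i j hi hj κ κ' _ _ rfl rfl
    exact h3 ⟨i, hi⟩ ⟨j, hj⟩ κ κ'

end slabs

section main

variable {B : Base} {C : Config B} {V : Variants B} {n : ℕ} {ε : ℝ}

/-- The copies of the discs of order at most `n`. -/
abbrev cableB_W (C : Config B) (V : Variants B) (n : ℕ) : Type :=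
  {t : C.I × (Σ a, V.K a) // C.ord t.1 ≤ n ∧ C.anc t.1 = t.2.1}

/-- The slab of a copy. -/
abbrev cableB_T (ε : ℝ) (w : cableB_W C V n) : ℂ × ℝ → E4 := cableB_S C V ε w.1.1 w.1.2

/-- The upper sheet of a copy. -/
def cableB_Up (w : cableB_W C V n) (u : Fin 2 ⊕ cableB_W C V n) : Prop :=
  ((∃ a, C.par w.1.1 = .inl a) ∧ u = .inl (V.up w.1.2.1 w.1.2.2)) ∨
    ∃ w', u = .inr w' ∧ C.par w.1.1 = .inr w'.1.1 ∧ w'.1.2 = w.1.2

theorem cableB_ex_up (hC : C.Valid) (w : cableB_W C V n) : ∃ u, cableB_Up w u := by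
  rcases h : C.par w.1.1 with a | X
  · exact ⟨_, Or.inl ⟨⟨a, h⟩, rfl⟩⟩
  · refine ⟨_, Or.inr ⟨⟨(X, w.1.2), ?_, ?_⟩, rfl, h, rfl⟩⟩
    · have h1 := hC.ord_child _ _ h
      have h2 := w.2.1
      dsimp only
      omega
    · exact (hC.anc_child _ _ h).symm.trans w.2.2

theorem cableB_Up.eq_inr {w w' : cableB_W C V n} {u : Fin 2 ⊕ cableB_W C V n}
    (hu : cableB_Up w u) (h : C.par w.1.1 = .inr w'.1.1) (hκ : w.1.2 = w'.1.2) : u = .inr w' := by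
  rcases hu with ⟨⟨a, ha⟩, -⟩ | ⟨w'', rfl, h1, h2⟩
  · rw [h] at ha
    cases ha
  · rw [h] at h1
    congr 1
    exact Subtype.ext (Prod.ext (Sum.inr.inj h1).symm (h2.trans hκ))

theorem cableB_Up.eq_inl {w : cableB_W C V n} {u : Fin 2 ⊕ cableB_W C V n}
    (hu : cableB_Up w u) (h : ∃ a, C.par w.1.1 = .inl a) : u = .inl (V.up w.1.2.1 w.1.2.2) := by
  rcases hu with ⟨-, h1⟩ | ⟨w'', -, h1, -⟩
  · exact h1
  · obtain ⟨a, h⟩ := h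
    rw [h] at h1
    cases h1

theorem cableB_copy_eq (hε : 0 < ε) {κ κ' : Σ a, V.K a} (h : κ.1 = κ'.1)
    (hl : ε * V.c κ.1 κ.2 = ε * V.c κ'.1 κ'.2) : κ = κ' := by
  obtain ⟨a, k⟩ := κ
  obtain ⟨a', k'⟩ := κ'
  dsimp only at h hl
  subst h
  rw [V.c_inj a (mul_left_cancel₀ hε.ne' hl)]

theorem cableB_imm (hC : C.Valid) (h : cableB_OK C V n ε) (w : cableB_W C V n) {ξ : ℂ}
    (hξ : ξ ∈ Half) : Injective (fderiv ℝ (cableB_T ε w) (ξ, 0)) := by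
  rcases cableB_cases hC ε w.2.2 hξ with ⟨h1, h2, -⟩ | ⟨h1, h2, -⟩
  · rw [(cableB_S_outer_ev hC ε w.2.2 h1 (e := (ξ, 0)) (cableB_notMem V.r₀_pos h2)).fderiv_eq]
    exact h.good.imm _ _ ξ hξ h2
  · rw [(cableB_S_inner_ev hC ε w.2.2 (e := (ξ, 0))
      fun h3 => (h1 h3).trans cableB_r_lt).fderiv_eq,
      (((hC.smooth _).differentiable (by simp) _).hasFDerivAt.comp _
        (cableB_g_hasFDerivAt _ _ _)).fderiv, cableB_g_zero]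
    exact ((h.slab _ w.1.2 _ rfl).1 _ h2).1.1.comp (cableB_A_inj (cableB_rho_pos _).ne')

theorem cableB_pos (hC : C.Valid) (h : cableB_OK C V n ε) (w : cableB_W C V n) {ξ : ℂ}
    (hξ : ξ ∈ Half) : 0 < (cableB_T ε w (ξ, 0)).2 := by
  rcases cableB_cases hC ε w.2.2 hξ with ⟨-, h2, h3⟩ | ⟨-, h2, h3⟩
  · rw [cableB_T, h3]
    exact h.good.pos _ _ ξ hξ h2
  · rw [cableB_T, h3]
    exact ((h.slab _ w.1.2 _ rfl).1 _ h2).2

theorem cableB_ex_α (hC : C.Valid) (h : cableB_OK C V n ε) (w : cableB_W C V n) :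
    ∃ α : ℝ × ℝ → ℂ, ContDiff ℝ ∞ α ∧ (∀ x : ℝ, |x| ≤ 1 → α (x, 0) ∈ oDisc) ∧
      ∀ x₀ : ℝ, |x₀| ≤ 1 → ∀ᶠ q : ℝ × ℝ in 𝓝 (x₀, 0),
        cableB_T ε w ((q.1 : ℂ), q.2) = B.f (C.lo w.1.1) (α q) := by
  rcases hp : C.par w.1.1 with a | X
  · obtain ⟨α, h1, h2, h3⟩ := h.good.bot w.1.2.1 w.1.2.2
    refine ⟨α, h1, h2, fun x hx => ?_⟩
    have hc : ContinuousAt (fun q : ℝ × ℝ => ((q.1 : ℂ), q.2)) (x, 0) := by fun_prop
    have hn : (x : ℂ) / (V.r₀ : ℂ) ∉ oHalf := fun h4 => by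
      have := h4.2
      simp at this
    filter_upwards [h3 x hx, hc.eventually
      (cableB_S_outer_ev hC ε w.2.2 ⟨a, hp⟩ (e := ((x : ℂ), 0)) hn)] with q h4 h5
    rw [cableB_T, h5, h4, cableB_root hC w.2.2 ⟨a, hp⟩, hC.lo_rt]
  · have h1 := (h.slab w.1.1 w.1.2 _ rfl).2.1
    refine ⟨fun q => C.α w.1.1 (q.1, ε * V.c w.1.2.1 w.1.2.2 + q.2),
      (hC.α_smooth _).comp (by fun_prop), fun x hx => by simpa using (h1 x hx).1, fun x hx => ?_⟩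
    have hc : Tendsto (fun q : ℝ × ℝ => (q.1, ε * V.c w.1.2.1 w.1.2.2 + q.2)) (𝓝 (x, 0))
        (𝓝 (x, ε * V.c w.1.2.1 w.1.2.2)) := Continuous.tendsto' (by fun_prop) _ _ (by simp)
    filter_upwards [hc.eventually (h1 x hx).2] with q hq
    rw [cableB_T, cableB_S_child ε _ hp]
    exact hq

theorem cableB_ex_b (hC : C.Valid) (h : cableB_OK C V n ε) (w : cableB_W C V n)
    {u : Fin 2 ⊕ cableB_W C V n} (hu : cableB_Up w u) :
    ∃ b : ℝ → ℂ, ContDiff ℝ ∞ b ∧ (∀ t ∈ Icc (0 : ℝ) π, b t ∈ odom u) ∧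
      (∀ t₀ ∈ Icc (0 : ℝ) π, ∀ᶠ t in 𝓝 t₀, cableB_T ε w (circ t, 0) =
        Sum.elim B.f (fun w' z => cableB_T ε w' (z, 0)) u (b t)) ∧
      (∀ t ∈ Icc (0 : ℝ) π, ∀ y : E4, ∃ (P : ℂ × ℝ) (Q : ℂ),
        fderiv ℝ (cableB_T ε w) (circ t, 0) P +
          fderiv ℝ (Sum.elim B.f (fun w' z => cableB_T ε w' (z, 0)) u) (b t) Q = y) ∧
      ∀ X, C.par w.1.1 = .inr X → ∀ t, b t = (cableB_rho C V X : ℂ) * C.β w.1.1 (circ t) := by
  rcases hu with ⟨hr, rfl⟩ | ⟨w', rfl, hp, hκ⟩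
  · obtain ⟨b, h1, h2, h3, h4⟩ := h.good.top w.1.2.1 w.1.2.2
    have hn : ∀ t, V.r₀ ≤ ‖circ t‖ := fun t => by
      rw [norm_circ]
      exact cableB_r_lt_one.le
    refine ⟨b, h1, h2, fun t ht => ?_, fun t ht y => ?_, fun X hX => ?_⟩
    · filter_upwards [h3 t ht] with s hs
      rw [cableB_T, cableB_S_out ε _ hr (hn s)]
      exact hs
    · rw [(cableB_S_outer_ev hC ε w.2.2 hr (e := (circ t, 0))
        (cableB_notMem V.r₀_pos (hn t))).fderiv_eq]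
      exact h4 t ht y
    · obtain ⟨a, ha⟩ := hr
      rw [ha] at hX
      cases hX
  · have hβ : ContDiff ℝ ∞ fun t => C.β w.1.1 (circ t) :=
      contDiff_const.add ((C.M w.1.1).contDiff.comp circ_contDiff)
    obtain ⟨h1, -, h3, -⟩ := h.slab w.1.1 w.1.2 _ rfl
    refine ⟨fun t => (cableB_rho C V w'.1.1 : ℂ) * C.β w.1.1 (circ t), contDiff_const.mul hβ,
      fun t ht => cableB_mul_mem (cableB_rho_pos _) (cableB_rho_le _)
        (hC.β_mem _ _ hp _ (circ_mem_Semi ht)), fun t ht => ?_, fun t ht y => ?_, fun X hX t => ?_⟩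
    · have hc : ContinuousAt (fun s : ℝ => (circ s, ((ε * V.c w.1.2.1 w.1.2.2 : ℝ) : ℂ))) t :=
        (circ_contDiff.continuous.prodMk continuous_const).continuousAt
      filter_upwards [hc.eventually (h3 _ hp _ (circ_mem_Semi ht)),
        (isOpen_lt hβ.continuous.norm continuous_const).mem_nhds
          (hC.β_mem _ _ hp _ (circ_mem_Semi ht)).1] with s h4 h5
      rw [Sum.elim_inr, cableB_T, cableB_T, cableB_S_child ε _ hp,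
        cableB_S_inner hC ε w'.2.2 (cableB_beta_norm h5), cableB_g_zero, cableB_mul_div, hκ]
      simpa using h4 (norm_circ s)
    · obtain ⟨P, Q, hPQ⟩ := Config.span_of_top (hC.smooth w.1.1) (hC.smooth w'.1.1) (C.p w.1.1)
        (C.M w.1.1) (h1 _ (Semi_subset (circ_mem_Semi ht))).1 (h3 _ hp _ (circ_mem_Semi ht)) y
      refine ⟨P, cableB_rho C V w'.1.1 • Q, ?_⟩
      have hd : DifferentiableAt ℝ
          (fun x => C.F w'.1.1 (x, ((ε * V.c w.1.2.1 w.1.2.2 : ℝ) : ℂ)))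
          ((cableB_rho C V w'.1.1 : ℂ) * C.β w.1.1 (circ t) / (cableB_rho C V w'.1.1 : ℂ)) :=
        ((hC.smooth _).differentiable (by simp) _).comp _ (by fun_prop)
      have he := (HasFDerivAt.comp (f := fun x : ℂ => x / (cableB_rho C V w'.1.1 : ℂ))
        ((cableB_rho C V w'.1.1 : ℂ) * C.β w.1.1 (circ t)) hd.hasFDerivAt
        (cableB_div_hasFDerivAt (cableB_rho C V w'.1.1) _)).fderiv
      rw [Sum.elim_inr, (cableB_leaf_ev hC ε w'.2.2 (cableB_beta_norm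
        (hC.β_mem _ _ hp _ (circ_mem_Semi ht)).1)).fderiv_eq, hκ, cableB_T,
        cableB_S_child ε _ hp, ← hPQ]
      congr 1
      refine (congrArg (fun A : ℂ →L[ℝ] E4 => A _) he).trans ?_
      simp only [cableB_mul_div, ContinuousLinearMap.comp_apply, smul_apply,
        ContinuousLinearMap.id_apply, inv_smul_smul₀ (cableB_rho_pos (V := V) w'.1.1).ne']
      rfl
    · rw [hp] at hX
      cases hX
      rfl

theorem cableB_out_in (hC : C.Valid) (h : cableB_OK C V n ε) {w w' : cableB_W C V n} {ξ ξ' : ℂ}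
    (hξ : ξ ∈ Half) (hξ' : ξ' ∈ Half) (he : cableB_T ε w (ξ, 0) = cableB_T ε w' (ξ', 0))
    (h1 : ∃ a, C.par w.1.1 = .inl a) (h2 : V.r₀ ≤ ‖ξ‖) : w = w' ∧ ξ = ξ' := by
  have hθ : V.r₀ * (1 - V.θ) ≤ V.r₀ := by nlinarith [V.r₀_pos, V.θ_pos]
  have h3 := cableB_S_out ε w.1.2 h1 (e := (ξ, 0)) h2
  have key : (∃ a, C.par w'.1.1 = .inl a) ∧ V.r₀ * (1 - V.θ) ≤ ‖ξ'‖ ∧
      cableB_T ε w' (ξ', 0) = V.W ε w'.1.2.1 w'.1.2.2 (ξ', 0) := by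
    rcases cableB_cases hC ε w'.2.2 hξ' with ⟨h4, h5, h6⟩ | ⟨-, h5, h6⟩
    · exact ⟨h4, hθ.trans h5, h6⟩
    · have hO := h.good.inO w.1.2.1 w.1.2.2 ξ hξ h2
      rw [← h3, ← cableB_T, he, cableB_T, h6] at hO
      rcases hp : C.par w'.1.1 with a | X
      · rw [cableB_rho_inl ⟨a, hp⟩] at hO h5
        exact ⟨⟨a, rfl⟩, h.ann _ _ w'.2.2 ⟨a, hp⟩ ξ' h5 hO⟩
      · exact ((h.slab _ w'.1.2 _ rfl).2.2.2 X hp _ h5 hO).elim
  obtain ⟨h4, h5⟩ := h.good.inj _ _ _ _ ξ hξ ξ' hξ' (hθ.trans h2) key.2.1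
    (h3.symm.trans (he.trans key.2.2))
  have h6 : w.1.2 = w'.1.2 := h4
  refine ⟨Subtype.ext (Prod.ext ?_ h6), h5⟩
  rw [cableB_root hC w.2.2 h1, cableB_root hC w'.2.2 key.1, h6]

theorem cableB_WW (hC : C.Valid) (h : cableB_OK C V n ε) (w w' : cableB_W C V n) {ξ ξ' : ℂ}
    (hξ : ξ ∈ Half) (hξ' : ξ' ∈ Half) (he : cableB_T ε w (ξ, 0) = cableB_T ε w' (ξ', 0)) :
    (w = w' ∧ ξ = ξ') ∨
    (C.par w.1.1 = .inr w'.1.1 ∧ w.1.2 = w'.1.2 ∧ ξ ∈ Semi ∧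
      ξ' = (cableB_rho C V w'.1.1 : ℂ) * C.β w.1.1 ξ) ∨
    (C.par w'.1.1 = .inr w.1.1 ∧ w'.1.2 = w.1.2 ∧ ξ' ∈ Semi ∧
      ξ = (cableB_rho C V w.1.1 : ℂ) * C.β w'.1.1 ξ') := by
  rcases cableB_cases hC ε w.2.2 hξ with ⟨h1, h2, -⟩ | ⟨-, h2, h3⟩
  · exact Or.inl (cableB_out_in hC h hξ hξ' he h1 h2)
  rcases cableB_cases hC ε w'.2.2 hξ' with ⟨h1', h2', -⟩ | ⟨-, h2', h3'⟩
  · obtain ⟨h4, h5⟩ := cableB_out_in hC h hξ' hξ he.symm h1' h2'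
    exact Or.inl ⟨h4.symm, h5.symm⟩
  rcases h.pair _ _ w.2.1 w'.2.1 w.1.2 w'.1.2 _ _ rfl rfl _ h2 _ h2'
    (h3.symm.trans (he.trans h3')) with ⟨h4, h5, h6⟩ | ⟨h4, h5, h6, h7⟩ | ⟨h4, h5, h6, h7⟩
  · refine Or.inl ⟨Subtype.ext (Prod.ext h4 (cableB_copy_eq h.pos ?_ h6)), ?_⟩
    · rw [← w.2.2, ← w'.2.2, h4]
    · rw [cableB_eq_mul h5, h4, ← cableB_eq_mul rfl]
  · rw [cableB_rho_inr h4, Complex.ofReal_one, div_one] at h5 h6
    refine Or.inr (Or.inl ⟨h4, cableB_copy_eq h.pos ?_ h7, h5, cableB_eq_mul h6⟩)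
    rw [← w.2.2, ← w'.2.2, hC.anc_child _ _ h4]
  · rw [cableB_rho_inr h4, Complex.ofReal_one, div_one] at h5 h6
    refine Or.inr (Or.inr ⟨h4, cableB_copy_eq h.pos ?_ h7.symm, h5, cableB_eq_mul h6⟩)
    rw [← w.2.2, ← w'.2.2, hC.anc_child _ _ h4]

theorem cableB_WD (hC : C.Valid) (h : cableB_OK C V n ε) (w : cableB_W C V n) {ξ : ℂ}
    (hξ : ξ ∈ Half) (j : Fin 2) {z : ℂ} (hz : z ∈ Disc) (he : cableB_T ε w (ξ, 0) = B.f j z) :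
    (ξ ∈ Diam ∧ j = C.lo w.1.1) ∨
    (ξ ∈ Semi ∧ (∃ a, C.par w.1.1 = .inl a) ∧ j = V.up w.1.2.1 w.1.2.2) ∨
    (ξ ∈ oHalf ∧ Transv (B.f j) (fun x => cableB_T ε w (x, 0)) z ξ ∧
      ((∃ c : cableB_W C V n, cableB_T ε w (ξ, 0) = cableB_T ε c (1, 0) ∨
        cableB_T ε w (ξ, 0) = cableB_T ε c (-1, 0)) ∨ n ≤ C.ord w.1.1)) := by
  rcases cableB_cases hC ε w.2.2 hξ with ⟨h1, h2, h3⟩ | ⟨h1, h2, h3⟩
  · rcases h.good.onD _ _ ξ hξ h2 j z hz (h3.symm.trans he) with ⟨h4, h5⟩ | ⟨h4, h5⟩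
    · exact Or.inl ⟨h4, by rw [h5, cableB_root hC w.2.2 h1, hC.lo_rt]⟩
    · exact Or.inr (Or.inl ⟨h4, h1, h5⟩)
  rcases h.onD _ w.1.2 _ rfl _ h2 j z hz (h3.symm.trans he) with
    ⟨h4, h5⟩ | ⟨c, hc, e, he1, h4, h5, h6⟩
  · refine Or.inl ⟨⟨hξ.1, ?_⟩, h5⟩
    have := h4.2
    rwa [Complex.div_ofReal_im, div_eq_zero_iff, or_iff_left (cableB_rho_pos _).ne'] at this
  have hs : e ∈ Semi := by
    rcases he1 with rfl | rfl <;> simp [Semi]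
  refine Or.inr (Or.inr ⟨?_, ?_, ?_⟩)
  · rw [cableB_eq_mul h4]
    exact cableB_mul_mem (cableB_rho_pos _) (cableB_rho_le _) (hC.β_mem _ _ hc _ hs)
  · refine (Transv.comp_left (κ := fun x => x / (cableB_rho C V w.1.1 : ℂ)) h6.symm
      (((hC.smooth _).differentiable (by simp) _).comp _ (by fun_prop))
      (cableB_div_hasFDerivAt _ _).differentiableAt ?_
      (cableB_leaf_ev hC ε w.2.2 fun h7 => (h1 h7).trans cableB_r_lt)).symm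
    rw [(cableB_div_hasFDerivAt _ _).fderiv]
    exact fun y => ⟨cableB_rho C V w.1.1 • y, by
      simp only [smul_apply, ContinuousLinearMap.id_apply,
        inv_smul_smul₀ (cableB_rho_pos (V := V) w.1.1).ne']⟩
  · rcases le_or_gt n (C.ord w.1.1) with h7 | h7
    · exact Or.inr h7
    · refine Or.inl ⟨⟨(c, w.1.2), (hC.ord_child _ _ hc).trans_le h7,
        (hC.anc_child _ _ hc).trans w.2.2⟩, ?_⟩
      have h8 : cableB_T ε w (ξ, 0) = cableB_S C V ε c w.1.2 (e, 0) := by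
        rw [cableB_T, h3, ← h5, cableB_S_child ε _ hc]
        simp
      rcases he1 with rfl | rfl
      · exact Or.inl h8
      · exact Or.inr h8

end main

theorem cable {B : Base} {C : Config B} (hC : C.Valid) {n : ℕ} (hn : 1 ≤ n)
    (hP : ∀ k ≤ n, C.Pend k = ∅) (V : Variants B) : Nonempty (SlabTower B n) := by
  obtain ⟨ε, h⟩ := cableB_exists_OK hC hP V
  choose up hup using cableB_ex_up (V := V) (n := n) hC
  choose α hα1 hα2 hα3 using cableB_ex_α hC h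
  choose b hb1 hb2 hb3 hb4 hb5 using fun w => cableB_ex_b hC h w (hup w)
  have := hC.finI
  have := B.finR
  have := V.finK
  refine ⟨{
    W := cableB_W C V n
    finite := inferInstance
    S := cableB_T ε
    lo := fun w => C.lo w.1.1
    up := up
    ord := fun w => C.ord w.1.1
    ord_inl := fun w j hj => ?_
    ord_inr := fun w w' hw => ?_
    smooth := fun w => cableB_S_smooth hC ε w.2.2
    imm := fun w ξ hξ => cableB_imm hC h w hξ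
    pos := fun w ξ hξ => cableB_pos hC h w hξ
    α := α
    α_smooth := hα1
    α_mem := hα2
    bot := hα3
    b := b
    b_smooth := hb1
    b_mem := hb2
    top := hb3
    span := hb4
    WW := fun w w' ξ hξ ξ' hξ' he => ?_
    WD := fun w ξ hξ j z hz he => ?_
    DD := fun j j' hj z hz z' hz' he => ?_ }⟩
  · rcases hup w with ⟨h1, -⟩ | ⟨w', h1, -⟩
    · rw [cableB_root hC w.2.2 h1, hC.ord_rt]
    · rw [hj] at h1
      cases h1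
  · rcases hup w with ⟨-, h1⟩ | ⟨w'', h1, h2, -⟩
    · rw [hw] at h1
      cases h1
    · rw [hw] at h1
      cases h1
      exact hC.ord_child _ _ h2
  · rcases cableB_WW hC h w w' hξ hξ' he with h1 | ⟨h1, h2, h3, h4⟩ | ⟨h1, h2, h3, h4⟩
    · exact Or.inl h1
    · obtain ⟨t, ht, rfl⟩ := cableB_semi h3
      exact Or.inr (Or.inl ⟨(hup w).eq_inr h1 h2, t, ht, rfl, h4.trans (hb5 w _ h1 t).symm⟩)
    · obtain ⟨t, ht, rfl⟩ := cableB_semi h3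
      exact Or.inr (Or.inr ⟨(hup w').eq_inr h1 h2, t, ht, rfl, h4.trans (hb5 w' _ h1 t).symm⟩)
  · rcases cableB_WD hC h w hξ j hz he with h1 | ⟨h1, h2, h3⟩ | h1
    · exact Or.inl h1
    · exact Or.inr (Or.inl ⟨h1, h3 ▸ (hup w).eq_inl h2⟩)
    · exact Or.inr (Or.inr h1)
  · obtain ⟨a, k, hk⟩ := h.good.dbl j j' hj z hz z' hz' he
    refine ⟨⟨(C.rt a, ⟨a, k⟩), (hC.ord_rt a).trans_le hn, hC.anc_rt a⟩, ?_⟩
    have h1 : ∀ e : ℂ, ‖e‖ = 1 → cableB_S C V ε (C.rt a) ⟨a, k⟩ (e, 0) = V.W ε a k (e, 0) :=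
      fun e he => cableB_S_out ε _ ⟨a, hC.par_rt a⟩ (cableB_r_lt_one.le.trans he.ge)
    rcases hk with hk | hk
    · exact Or.inl (hk.trans (h1 1 (by simp)).symm)
    · exact Or.inr (hk.trans (h1 (-1) (by simp)).symm)

end Pool.Agent.Lib.MP_1d0d1b_gt
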