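import Pool.Agent.Lib.MP_1d0d1b_gt.TopA1

open Set Function Filter Topology
open scoped ContDiff Real

noncomputable section

namespace Pool.Agent.Lib.MP_1d0d1b_gt

theorem finrank_E4 : Module.finrank ℝ E4 = 4 := by
  simp [Module.finrank_prod]

private theorem finrank_CC : Module.finrank ℝ (ℂ × ℂ) = Module.finrank ℝ E4 := by
  simp [Module.finrank_prod]

theorem bij_of_inj_CC {A : ℂ × ℂ →L[ℝ] E4} (h : Injective A) : Bijective A :=
  ⟨h, (LinearMap.injective_iff_surjective_of_finrank_eq_finrank (f := (A : ℂ × ℂ →ₗ[ℝ] E4))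
    finrank_CC).1 h⟩

theorem bij_of_surj_CC {A : ℂ × ℂ →L[ℝ] E4} (h : Surjective A) : Bijective A :=
  ⟨(LinearMap.injective_iff_surjective_of_finrank_eq_finrank (f := (A : ℂ × ℂ →ₗ[ℝ] E4))
    finrank_CC).2 h, h⟩

theorem bij_of_inj_RRC {A : ℝ × ℝ × ℂ →L[ℝ] E4} (h : Injective A) : Bijective A :=
  ⟨h, (LinearMap.injective_iff_surjective_of_finrank_eq_finrank (f := (A : ℝ × ℝ × ℂ →ₗ[ℝ] E4))
    (by simp [Module.finrank_prod])).1 h⟩

section topology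

variable {X Y E : Type*} [TopologicalSpace X] [TopologicalSpace Y] [TopologicalSpace E]
  [T2Space E]

/-- Near the compact core `K` of a chart `Ψ`, a compact sheet `φ` is described by its local
descriptions at the points where it meets the core. -/
theorem standard {φ : X → E} (hφ : Continuous φ) {A : Set X} (hA : IsCompact A) {Ψ : Y → E}
    (hΨ : Continuous Ψ) {K N : Set Y} (hN : N ∈ 𝓝ˢ K) (hinj : InjOn Ψ N) {P : Y → X → Prop}
    (h : ∀ x₀ ∈ A, ∀ k ∈ K, φ x₀ = Ψ k → ∀ᶠ x in 𝓝 x₀, ∃ n ∈ N, φ x = Ψ n ∧ P n x) :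
    ∀ᶠ n in 𝓝ˢ K, ∀ x ∈ A, φ x = Ψ n → P n x := by
  have hc : IsClosed (φ '' (A \ interior {x | ∃ n ∈ N, φ x = Ψ n ∧ P n x})) :=
    ((hA.diff isOpen_interior).image hφ).isClosed
  have h1 : ∀ᶠ n in 𝓝ˢ K, Ψ n ∉ φ '' (A \ interior {x | ∃ n ∈ N, φ x = Ψ n ∧ P n x}) :=
    (hc.preimage hΨ).isOpen_compl.mem_nhdsSet.2 fun k hk ⟨x, hx, e⟩ =>
      hx.2 (mem_interior_iff_mem_nhds.2 (h x hx.1 k hk e))
  filter_upwards [h1, hN] with n h2 h3 x hx e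
  obtain ⟨n', h4, h5, h6⟩ : x ∈ {x | ∃ n ∈ N, φ x = Ψ n ∧ P n x} :=
    interior_subset (not_not.1 fun h4 => h2 ⟨x, ⟨hx, h4⟩, e⟩)
  rwa [hinj h3 h4 (e.symm.trans h5)]

theorem absent {Ψ : Y → E} (hΨ : Continuous Ψ) {K : Set Y} {O : Set E} (hO : IsClosed O)
    (h : ∀ k ∈ K, Ψ k ∉ O) : ∀ᶠ n in 𝓝ˢ K, Ψ n ∉ O :=
  (hO.preimage hΨ).isOpen_compl.mem_nhdsSet.2 h

theorem finite_coinc {f : X → E} {g : Y → E} (hf : Continuous f) (hg : Continuous g)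
    {A : Set X} {A' : Set Y} (hA : IsCompact A) (hA' : IsCompact A')
    (h : ∀ x ∈ A, ∀ y ∈ A', f x = g y →
      ∀ᶠ q : X × Y in 𝓝 (x, y), q.1 ∈ A → q.2 ∈ A' → f q.1 = g q.2 → q = (x, y)) :
    {q : X × Y | q.1 ∈ A ∧ q.2 ∈ A' ∧ f q.1 = g q.2}.Finite := by
  have hc : IsCompact {q : X × Y | q.1 ∈ A ∧ q.2 ∈ A' ∧ f q.1 = g q.2} := by
    convert (hA.prod hA').inter_right
      (isClosed_eq (hf.comp continuous_fst) (hg.comp continuous_snd)) using 1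
    exact Set.ext fun q => and_assoc.symm
  obtain ⟨t, -, ht⟩ := hc.elim_nhds_subcover
    (fun q => {r : X × Y | r.1 ∈ A → r.2 ∈ A' → f r.1 = g r.2 → r = q})
    fun q hq => h q.1 hq.1 q.2 hq.2.1 hq.2.2
  refine t.finite_toSet.subset fun q hq => ?_
  obtain ⟨r, hr, e⟩ := mem_iUnion₂.1 (ht hq)
  rwa [e hq.1 hq.2.1 hq.2.2]

end topology

theorem exists_dist_of_nhdsSet {Y : Type*} [PseudoMetricSpace Y] {K N : Set Y} (hK : IsCompact K)
    (hN : N ∈ 𝓝ˢ K) : ∃ δ > 0, ∀ k ∈ K, ∀ n, dist n k ≤ δ → n ∈ N := by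
  obtain ⟨δ, h0, h1⟩ := hK.exists_cthickening_subset_open isOpen_interior
    (subset_interior_iff_mem_nhdsSet.2 hN)
  exact ⟨δ, h0, fun k hk n hn =>
    interior_subset (h1 (Metric.mem_cthickening_of_dist_le n k δ K hk hn))⟩

theorem Transv.symm {f g : ℂ → E4} {z w : ℂ} (h : Transv f g z w) : Transv g f w z :=
  fun y => let ⟨p, q, e⟩ := h y; ⟨q, p, (add_comm _ _).trans e⟩

theorem Transv.congr {f f' g g' : ℂ → E4} {z w : ℂ} (h : Transv f g z w)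
    (hf : f' =ᶠ[𝓝 z] f) (hg : g' =ᶠ[𝓝 w] g) : Transv f' g' z w := by
  rwa [Transv, hf.fderiv_eq, hg.fderiv_eq]

theorem Transv.comp_left {f f' g : ℂ → E4} {κ : ℂ → ℂ} {z w : ℂ}
    (h : Transv f g (κ z) w) (hf : DifferentiableAt ℝ f (κ z)) (hκ : DifferentiableAt ℝ κ z)
    (hs : Surjective (fderiv ℝ κ z)) (he : f' =ᶠ[𝓝 z] fun x => f (κ x)) :
    Transv f' g z w := by
  intro y
  obtain ⟨p, q, e⟩ := h y
  obtain ⟨p, rfl⟩ := hs p
  refine ⟨p, q, ?_⟩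
  rw [he.fderiv_eq, fderiv_fun_comp z hf hκ]
  exact e

private theorem transv_iff {f g : ℂ → E4} {z w : ℂ} :
    Transv f g z w ↔ Surjective ((fderiv ℝ f z).coprod (fderiv ℝ g w)) :=
  forall_congr' fun _ => ⟨fun ⟨p, q, e⟩ => ⟨(p, q), e⟩, fun ⟨p, e⟩ => ⟨p.1, p.2, e⟩⟩

private theorem fderiv_slice {T : Type*} [NormedAddCommGroup T] [NormedSpace ℝ T]
    {φ : T × ℂ → E4} (hφ : ContDiff ℝ ∞ φ) (t : T) (x : ℂ) :
    fderiv ℝ (fun z => φ (t, z)) x = (fderiv ℝ φ (t, x)).comp (ContinuousLinearMap.inr ℝ T ℂ) :=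
  ((hφ.differentiable (by simp) (t, x)).hasFDerivAt.comp x (hasFDerivAt_prodMk_right t x)).fderiv

theorem transv_eventually {T : Type*} [NormedAddCommGroup T] [NormedSpace ℝ T]
    {φ ψ : T × ℂ → E4} (hφ : ContDiff ℝ ∞ φ) (hψ : ContDiff ℝ ∞ ψ) {t₀ : T} {x y : ℂ}
    (h : Transv (fun z => φ (t₀, z)) (fun z => ψ (t₀, z)) x y) :
    ∀ᶠ q : T × ℂ × ℂ in 𝓝 (t₀, x, y),
      Transv (fun z => φ (q.1, z)) (fun z => ψ (q.1, z)) q.2.1 q.2.2 := by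
  simp only [transv_iff, fderiv_slice hφ, fderiv_slice hψ,
    ← ContinuousLinearMap.comp_fst_add_comp_snd] at h ⊢
  have h1 := hφ.continuous_fderiv (by simp)
  have h2 := hψ.continuous_fderiv (by simp)
  refine eventually_surj_clm (t₀ := (t₀, x, y)) (Continuous.continuousAt ?_) h
  fun_prop

theorem transv_isolated {f g : ℂ → E4} (hf : ContDiff ℝ ∞ f) (hg : ContDiff ℝ ∞ g) {x y : ℂ}
    (h : Transv f g x y) (he : f x = g y) :
    ∀ᶠ q : ℂ × ℂ in 𝓝 (x, y), f q.1 = g q.2 → q = (x, y) := by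
  have hF : ContDiff ℝ ∞ fun q : ℂ × ℂ => f q.1 - g q.2 := by fun_prop
  have hd : HasFDerivAt (fun q : ℂ × ℂ => f q.1 - g q.2) _ (x, y) :=
    ((hf.differentiable (by simp) x).hasFDerivAt.comp (x, y) hasFDerivAt_fst).sub
      ((hg.differentiable (by simp) y).hasFDerivAt.comp (x, y) hasFDerivAt_snd)
  obtain ⟨U, hU, hi⟩ := locInj hF (x := (x, y)) (bij_of_surj_CC fun v => by
    obtain ⟨p, q, e⟩ := h v
    exact ⟨(p, -q), by rw [hd.fderiv, ← e]; simp⟩).1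
  filter_upwards [hU] with q hq e
  exact hi hq (mem_of_mem_nhds hU) (by simp only [e, he, sub_self])

theorem leaf_contDiff {F : ℂ × ℂ → E4} (hF : ContDiff ℝ ∞ F) : ContDiff ℝ ∞ (leaf F) :=
  hF.comp (contDiff_id.prodMk contDiff_const)

theorem fderiv_leaf {F : ℂ × ℂ → E4} (hF : ContDiff ℝ ∞ F) (z v : ℂ) :
    fderiv ℝ (leaf F) z v = fderiv ℝ F (z, 0) (v, 0) := by
  have h : HasFDerivAt (leaf F) _ z := (hF.differentiable (by simp) (z, 0)).hasFDerivAt.comp z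
    (hasFDerivAt_prodMk_left (𝕜 := ℝ) z (0 : ℂ))
  rw [h.fderiv]
  rfl

end Pool.Agent.Lib.MP_1d0d1b_gt
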