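import Pool.Agent.Lib.MP_1d0d1b_gt.KitDefs
import Pool.Agent.Lib.MP_1d0d1b_gt.TopA
import Pool.Agent.Lib.MP_1d0d1b_gt.Paths

open Set Function Filter Topology
open scoped ContDiff Real

noncomputable section

namespace Pool.Agent.Lib.MP_1d0d1b_gt

theorem Chart_smul_zero {𝕂 X E : Type*} [NormedAddCommGroup X] [NormedSpace ℝ X]
    [NormedRing 𝕂] [NormedAlgebra ℝ 𝕂] [NormedAddCommGroup E] [NormedSpace ℝ E] [Module 𝕂 E]
    [IsBoundedSMul 𝕂 E] [IsScalarTower ℝ 𝕂 E] {φ : X → 𝕂} {G : X → E} {G' : X →L[ℝ] E} {x : X}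
    (hφ : DifferentiableAt ℝ φ x) (hG : HasFDerivAt G G' x) (h0 : G x = 0) :
    HasFDerivAt (fun y => φ y • G y) (φ x • G') x := by
  have := hφ.hasFDerivAt.smul hG
  have e : (fderiv ℝ φ x).smulRight (0 : E) = 0 := by
    ext1 e
    simp
  rw [h0, e, add_zero] at this
  exact this

theorem Chart_path_eq (g : ℝ → ℝ) (y u : ℝ) :
    path g y u = (g u : ℂ) + (((1 - u) * y : ℝ) : ℂ) * Complex.I := by
  apply Complex.ext <;> simp [path]

theorem Chart_path_smooth {g : ℝ → ℝ} (hg : ContDiff ℝ ∞ g) (y : ℝ) : ContDiff ℝ ∞ (path g y) := by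
  have e : path g y = fun u => Complex.ofRealCLM (g u) +
      Complex.ofRealCLM ((1 - u) * y) * Complex.I := funext fun u => Chart_path_eq g y u
  rw [e]
  exact (Complex.ofRealCLM.contDiff.comp hg).add
    ((Complex.ofRealCLM.contDiff.comp ((contDiff_const.sub contDiff_id).mul contDiff_const)).mul
      contDiff_const)

theorem Chart_path_deriv {g : ℝ → ℝ} (hg : ContDiff ℝ ∞ g) (y u : ℝ) :
    ∃ c : ℂ, c.im = -y ∧ HasDerivAt (path g y) c u := by
  have h1 : HasDerivAt (path g y) (deriv (path g y) u) u :=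
    ((Chart_path_smooth hg y).differentiable (by simp) u).hasDerivAt
  refine ⟨_, ?_, h1⟩
  have h2 := Complex.imCLM.hasFDerivAt.comp_hasDerivAt u h1
  have h3 : HasDerivAt (fun u : ℝ => (1 - u) * y) (-1 * y) u :=
    ((hasDerivAt_id u).const_sub 1).mul_const y
  have := h2.unique h3
  simpa using this

theorem Chart_circ_smooth : ContDiff ℝ ∞ circ := by
  have e : circ = fun t => Complex.exp (Complex.ofRealCLM t * Complex.I) := rfl
  rw [e]
  exact Complex.contDiff_exp.comp (Complex.ofRealCLM.contDiff.mul contDiff_const)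

theorem Chart_leaf_fderiv {F : ℂ × ℂ → E4} (hF : ContDiff ℝ ∞ F) (z : ℂ) :
    HasFDerivAt (leaf F) ((fderiv ℝ F (z, 0)).comp (ContinuousLinearMap.inl ℝ ℂ ℂ)) z :=
  (hF.differentiable (by simp) (z, 0)).hasFDerivAt.comp z (hasFDerivAt_prodMk_left z 0)

/-- The linear algebra: a normalised inverse of a real linear automorphism of the plane. -/
theorem Chart_linear (B : ℂ →L[ℝ] ℂ) (hB : Surjective B) :
    ∃ (L : ℂ ≃L[ℝ] ℂ) (θ : ℝ), (L 1).im = 0 ∧ 0 < (L Complex.I).im ∧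
      ∀ w, B (L w) = circ θ * w := by
  have hi : Injective B := (LinearMap.injective_iff_surjective (f := (B : ℂ →ₗ[ℝ] ℂ))).2 hB
  let Be : ℂ ≃L[ℝ] ℂ := (LinearEquiv.ofBijective (B : ℂ →ₗ[ℝ] ℂ) ⟨hi, hB⟩).toContinuousLinearEquiv
  have hBe : ∀ w, B (Be.symm w) = w := fun w => Be.apply_symm_apply w
  have hBe' : ∀ w, Be.symm (B w) = w := fun w => Be.symm_apply_apply w
  have h1 : B 1 ≠ 0 := fun h => one_ne_zero (hi (h.trans (map_zero B).symm))
  have key : ∀ c : ℂ, (∃ r : ℝ, r ≠ 0 ∧ c = r • B 1) → ‖c‖ = 1 →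
      0 < (Be.symm (c * Complex.I)).im → ∃ (L : ℂ ≃L[ℝ] ℂ) (θ : ℝ), (L 1).im = 0 ∧
        0 < (L Complex.I).im ∧ ∀ w, B (L w) = circ θ * w := by
    rintro c ⟨r, -, hr⟩ hc him
    have hc0 : c ≠ 0 := fun h => by simp [h] at hc
    let M : ℂ ≃L[ℝ] ℂ := ((LinearEquiv.smulOfNeZero ℂ ℂ c hc0).restrictScalars ℝ).toContinuousLinearEquiv
    have hM : ∀ w, M w = c * w := fun w => rfl
    refine ⟨M.trans Be.symm, c.arg, ?_, ?_, fun w => ?_⟩
    · rw [ContinuousLinearEquiv.trans_apply, hM, mul_one, hr, map_smul, hBe']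
      simp
    · rwa [ContinuousLinearEquiv.trans_apply, hM]
    · rw [ContinuousLinearEquiv.trans_apply, hBe, hM]
      have := Complex.norm_mul_exp_arg_mul_I c
      rw [hc, Complex.ofReal_one, one_mul] at this
      rw [circ, this]
  have hn : ‖B 1‖ ≠ 0 := norm_ne_zero_iff.2 h1
  set c : ℂ := (‖B 1‖⁻¹ : ℝ) • B 1 with hc
  have hc1 : ‖c‖ = 1 := by rw [hc, norm_smul, norm_inv, norm_norm, inv_mul_cancel₀ hn]
  have hne : (Be.symm (c * Complex.I)).im ≠ 0 := by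
    intro h
    have e1 : Be.symm (c * Complex.I) = (Be.symm (c * Complex.I)).re • (1 : ℂ) := by
      apply Complex.ext <;> simp [h]
    have e2 := congrArg B e1
    rw [hBe, map_smul, hc, smul_mul_assoc, Complex.real_smul, Complex.real_smul, mul_comm (B 1),
      ← mul_assoc] at e2
    have e3 := congrArg Complex.im (mul_right_cancel₀ h1 e2)
    simp [hn] at e3
  rcases lt_or_gt_of_ne hne with h | h
  · refine key (-c) ⟨-‖B 1‖⁻¹, neg_ne_zero.2 (inv_ne_zero hn), by rw [hc, neg_smul]⟩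
      (by rw [norm_neg, hc1]) ?_
    rw [neg_mul, map_neg, Complex.neg_im]
    exact neg_pos.2 h
  · exact key c ⟨_, inv_ne_zero hn, hc⟩ hc1 h

theorem chart_exists {FS FZ : ℂ × ℂ → E4} (hS : ContDiff ℝ ∞ FS) (hZ : ContDiff ℝ ∞ FZ)
    {p q : ℂ} (hq : 0 < q.im) (hb : Bijective (fderiv ℝ FS (q, 0)))
    (ht : Transv (leaf FZ) (leaf FS) p q) (he : FZ (p, 0) = FS (q, 0))
    {g : ℝ → ℝ} (hg : ContDiff ℝ ∞ g) (hg0 : g 0 = q.re) :
    ∃ Ψ L, IsChart FS FZ p q g Ψ L := by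
  set A := fderiv ℝ FS (q, 0) with hA
  let Ae : (ℂ × ℂ) ≃L[ℝ] E4 :=
    (LinearEquiv.ofBijective (A : ℂ × ℂ →ₗ[ℝ] E4) hb).toContinuousLinearEquiv
  have hAe : ∀ y, A (Ae.symm y) = y := fun y => Ae.apply_symm_apply y
  have hAe' : ∀ y, Ae.symm (A y) = y := fun y => Ae.symm_apply_apply y
  set DZ := fderiv ℝ (leaf FZ) p with hDZ
  let B : ℂ →L[ℝ] ℂ × ℂ := (Ae.symm : E4 →L[ℝ] ℂ × ℂ).comp DZ
  have hB : ∀ w, A (B w) = DZ w := fun w => hAe _
  have hsurj : Surjective ((ContinuousLinearMap.snd ℝ ℂ ℂ).comp B) := by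
    intro w
    obtain ⟨a, b, hab⟩ := ht (A (0, w))
    rw [(Chart_leaf_fderiv hS q).fderiv, ← hDZ, ← hA, ← hB,
      show (A.comp (ContinuousLinearMap.inl ℝ ℂ ℂ)) b = A (b, 0) from rfl, ← map_add] at hab
    exact ⟨a, by simpa using congrArg Prod.snd (hb.1 hab)⟩
  obtain ⟨L, θ, hL1, hLI, hL⟩ := Chart_linear _ hsurj
  let τ : ℂ →L[ℝ] ℂ := ((ContinuousLinearMap.fst ℝ ℂ ℂ).comp B).comp (L : ℂ →L[ℝ] ℂ)
  have hτ : ∀ w, A (τ w, circ θ * w) = DZ (L w) := fun w => by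
    rw [← hB, ← hL w]
    rfl
  let Q : ℂ → E4 := fun w => FZ (p + L w, 0) - FS (q + τ w, circ θ * w)
  have hQ0 : Q 0 = 0 := by simp [Q, he]
  have hQs : ContDiff ℝ ∞ Q :=
    (hZ.comp ((contDiff_const.add L.contDiff).prodMk contDiff_const)).sub
      (hS.comp ((contDiff_const.add τ.contDiff).prodMk (contDiff_const.mul contDiff_id)))
  have hQd : HasFDerivAt Q (0 : ℂ →L[ℝ] E4) 0 := by
    have h1 : HasFDerivAt (leaf FZ) DZ (p + L 0) := by
      rw [map_zero, add_zero]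
      exact (Chart_leaf_fderiv hZ p).differentiableAt.hasFDerivAt
    have h2 := h1.comp 0 (L.hasFDerivAt.const_add p)
    have h3 : HasFDerivAt FS A (q + τ 0, circ θ * 0) := by
      rw [map_zero, add_zero, mul_zero]
      exact (hS.differentiable (by simp) _).hasFDerivAt
    have h4 := h3.comp 0 ((τ.hasFDerivAt.const_add q).prodMk
      ((hasFDerivAt_id (0 : ℂ)).const_mul (circ θ)))
    have e : DZ.comp (L : ℂ →L[ℝ] ℂ) -
        A.comp (τ.prod (circ θ • ContinuousLinearMap.id ℝ ℂ)) = 0 := by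
      ext1 w
      simp [← hτ]
    have h5 := h2.sub h4
    rw [e] at h5
    exact h5
  let Θ : ℝ × ℝ × ℂ → ℂ × ℂ := fun n =>
    (path g q.im n.1 + (n.2.1 : ℂ) + (1 - n.1) • τ n.2.2, circ (θ * (1 - n.1)) • n.2.2)
  have hu : ContDiff ℝ ∞ fun n : ℝ × ℝ × ℂ => 1 - n.1 := contDiff_const.sub contDiff_fst
  have hc : ContDiff ℝ ∞ fun n : ℝ × ℝ × ℂ => circ (θ * (1 - n.1)) :=
    Chart_circ_smooth.comp (contDiff_const.mul hu)
  have hΘ : ContDiff ℝ ∞ Θ :=
    ((((Chart_path_smooth hg _).comp contDiff_fst).add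
      (Complex.ofRealCLM.contDiff.comp contDiff_snd.fst)).add
      (hu.smul (τ.contDiff.comp contDiff_snd.snd))).prodMk (hc.smul contDiff_snd.snd)
  refine ⟨fun n => FS (Θ n) + (1 - n.1) • Q n.2.2, L,
    (hS.comp hΘ).add (hu.smul (hQs.comp contDiff_snd.snd)), hL1, hLI, fun w => ?_,
    fun u v => ?_, fun v w => ?_, fun u v hb' => ?_⟩
  · simp [Θ, Q, path_zero hg0]
  · simp [Θ, hQ0]
  · simp [Θ, path_one, circ]
  · obtain ⟨c, hc1, hc2⟩ := Chart_path_deriv hg q.im u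
    let π₁ : ℝ × ℝ × ℂ →L[ℝ] ℝ := ContinuousLinearMap.fst ℝ ℝ (ℝ × ℂ)
    let π₂ : ℝ × ℝ × ℂ →L[ℝ] ℝ :=
      (ContinuousLinearMap.fst ℝ ℝ ℂ).comp (ContinuousLinearMap.snd ℝ ℝ (ℝ × ℂ))
    let π₃ : ℝ × ℝ × ℂ →L[ℝ] ℂ :=
      (ContinuousLinearMap.snd ℝ ℝ ℂ).comp (ContinuousLinearMap.snd ℝ ℝ (ℝ × ℂ))
    have d1 := hc2.hasFDerivAt.comp ((u, v, 0) : ℝ × ℝ × ℂ) π₁.hasFDerivAt
    have d2 := (Complex.ofRealCLM.comp π₂).hasFDerivAt (x := ((u, v, 0) : ℝ × ℝ × ℂ))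
    have d3 := Chart_smul_zero (hu.differentiable (by simp) (u, v, 0))
      (τ.comp π₃).hasFDerivAt (by simp [π₃])
    have d4 := Chart_smul_zero (hc.differentiable (by simp) (u, v, 0)) π₃.hasFDerivAt
      (by simp [π₃])
    have d5 : HasFDerivAt Θ _ (u, v, 0) := ((d1.add d2).add d3).prodMk d4
    have d6 : HasFDerivAt FS (fderiv ℝ FS (path g q.im u + v, 0)) (Θ (u, v, 0)) := by
      have : Θ (u, v, 0) = (path g q.im u + v, 0) := by simp [Θ]
      rw [this]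
      exact (hS.differentiable (by simp) _).hasFDerivAt
    have d7 := Chart_smul_zero (hu.differentiable (by simp) (u, v, 0))
      (HasFDerivAt.comp ((u, v, 0) : ℝ × ℝ × ℂ) (g := Q) (f := π₃) hQd π₃.hasFDerivAt) hQ0
    have d8 : HasFDerivAt (fun n : ℝ × ℝ × ℂ => FS (Θ n) + (1 - n.1) • Q n.2.2) _ (u, v, 0) :=
      (d6.comp _ d5).add d7
    rw [d8.fderiv, ContinuousLinearMap.zero_comp, smul_zero, add_zero,
      ContinuousLinearMap.coe_comp]
    refine hb'.comp ?_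
    refine (fun hi => ⟨hi, (LinearMap.injective_iff_surjective_of_finrank_eq_finrank
      (f := ContinuousLinearMap.toLinearMap _) (by simp)).1 hi⟩) ?_
    refine (injective_iff_map_eq_zero _).2 ?_
    rintro ⟨a, b, w⟩ h
    simp only [π₁, π₂, π₃, Prod.ext_iff] at h
    obtain ⟨h1, h2⟩ := h
    have hw : w = 0 := by simpa [circ] using h2
    subst hw
    have ha : a = 0 := by simpa [hc1, hq.ne'] using congrArg Complex.im h1
    subst ha
    have hb0 : b = 0 := by simpa using h1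
    rw [hb0]
    rfl

end Pool.Agent.Lib.MP_1d0d1b_gt
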