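import Pool.Agent.Lib.MP_1d0d1b_gt.DiscB

open Set Function Filter Topology
open scoped ContDiff Real

noncomputable section

namespace Pool.Agent.Lib.MP_1d0d1b_gt

theorem Dbl_range {X y : ℝ} {m : ℤ} (hy : y ∈ Icc (29 / 100 : ℝ) (32 / 100))
    (hX : X ∈ Icc (-69 / 100 : ℝ) (29 / 100)) (hX' : -X + m ∈ Icc (-69 / 100 : ℝ) (29 / 100))
    (hq : 16 / 100 ≤ qf (-X + m, -y)) : X ∈ Icc (-58 / 100 : ℝ) (-5 / 100) := by
  obtain ⟨y1, y2⟩ := hy
  obtain ⟨x1, x2⟩ := hX
  obtain ⟨x3, x4⟩ := hX'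
  have m1 : (-2 : ℤ) < m := by
    have : ((-2 : ℤ) : ℝ) < m := by push_cast; linarith
    exact_mod_cast this
  have m2 : m < 1 := by
    have : (m : ℝ) < ((1 : ℤ) : ℝ) := by push_cast; linarith
    exact_mod_cast this
  have hm : m = -1 ∨ m = 0 := by omega
  simp only [qf] at hq
  rcases hm with rfl | rfl
  · push_cast at x3 x4 hq
    refine ⟨?_, by linarith⟩
    by_contra hn
    push Not at hn
    have a1 : 0 ≤ X + 69 / 100 := by linarith
    have a2 : 0 ≤ -58 / 100 - X := by linarith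
    have b1 : 0 ≤ y - 29 / 100 := by linarith
    have b2 : 0 ≤ 32 / 100 - y := by linarith
    nlinarith [mul_nonneg a1 a2, mul_nonneg b1 b2, mul_nonneg a1 b1, mul_nonneg a1 b2,
      mul_nonneg a2 b1, mul_nonneg a2 b2]
  · push_cast at x3 x4 hq
    refine ⟨by linarith, ?_⟩
    by_contra hn
    push Not at hn
    have a1 : 0 ≤ X + 5 / 100 := by linarith
    have a2 : 0 ≤ 29 / 100 - X := by linarith
    have b1 : 0 ≤ y - 29 / 100 := by linarith
    have b2 : 0 ≤ 32 / 100 - y := by linarith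
    nlinarith [mul_nonneg a1 a2, mul_nonneg b1 b2, mul_nonneg a1 b1, mul_nonneg a1 b2,
      mul_nonneg a2 b1, mul_nonneg a2 b2]

/-- The description of a wall point that is used below. -/
def Dbl_Wall (s : ℝ) (P : ℝ × ℝ) : Prop :=
  (P.2 ∈ Icc (-69 / 100 : ℝ) (-68 / 100) ∨ P.2 = 29 / 100) ∧
    (P.1 ∈ Icc (-58 / 100 : ℝ) (-5 / 100) → (P.2 = -69 / 100 ∨ P.2 = 29 / 100) ∧ s ≤ 16 / 10)

theorem Dbl_wall_pos {s : ℝ} (h0 : 0 ≤ s) :
    Dbl_Wall s (gg (-s), gg s) ∨ Dbl_Wall s (gg s, gg (-s)) := by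
  rcases le_total s (97 / 100) with h | h
  · refine Or.inl ⟨Or.inl (gg_low ⟨h0, h⟩), fun hX => ⟨Or.inl (gg_flat ⟨?_, ?_⟩), by linarith⟩⟩
    · by_contra hn
      push Not at hn
      have := gg_corner0 (t := -s) (by rw [abs_neg, abs_of_nonneg h0]; exact hn.le)
      linarith [this.2, hX.1]
    · by_contra hn
      push Not at hn
      have := gg_corner1 (t := -s) ⟨by linarith, by linarith⟩
      linarith [this.1, hX.2]
  · have h1 := gg_left (t := -s) (by linarith)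
    refine Or.inr ⟨Or.inr h1, fun hX => ⟨Or.inr h1, ?_⟩⟩
    have h2 := gg_up h
    linarith [hX.2]

theorem Dbl_wall (t : ℝ) : ∃ ty, Dbl_Wall |t| (sw ty (Γ t)) := by
  rcases le_total 0 t with h | h
  · rw [abs_of_nonneg h]
    rcases Dbl_wall_pos h with h1 | h1
    · exact ⟨true, h1⟩
    · exact ⟨false, h1⟩
  · rw [abs_of_nonpos h]
    rcases Dbl_wall_pos (neg_nonneg.2 h) with h1 | h1 <;> rw [neg_neg] at h1
    · exact ⟨false, h1⟩
    · exact ⟨true, h1⟩

theorem Dbl_bz {w : ℂ} (hw : w ∈ Disc) (hp : pz w = Γ (tz w)) (ht : |tz w| ≤ 16 / 10)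
    (hσ : |σz w| ≤ 1 / 2) : 1 ≤ bz w := by
  have h1 : 5 ≤ kk w.re := kk_ge ((Complex.abs_re_le_norm w).trans hw)
  have h2 : |w.im| ≤ 1 / 10 := by
    rw [σz, abs_mul, abs_of_nonneg (by linarith : 0 ≤ kk w.re)] at hσ
    nlinarith [abs_nonneg w.im]
  have h3 : |w.re| ≤ 9 / 10 := by
    rw [tz, abs_mul, abs_of_pos (by norm_num : (0 : ℝ) < 37 / 20)] at ht
    linarith
  have h4 : 1 ≤ 10 * (1 - ‖w‖ ^ 2) := by
    rw [Complex.sq_norm, Complex.normSq_apply]
    nlinarith [abs_nonneg w.im, abs_nonneg w.re, abs_mul_abs_self w.im, abs_mul_abs_self w.re]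
  have hν : νb (tz w) = step (140 / 100) (143 / 100) |tz w| := by
    rcases le_total 0 (tz w) with h | h
    · rw [νb, abs_of_nonneg h, step_of_le (x := -tz w) (by norm_num) (by linarith), add_zero]
    · rw [νb, abs_of_nonpos h, step_of_le (x := tz w) (by norm_num) (by linarith), zero_add]
  rw [bz, hν]
  rcases le_total |tz w| (143 / 100) with h | h
  · have h5 := qf_Γ_main' h
    rw [← hp] at h5
    have h6 : 1 ≤ (qf (pz w) - 16 / 100) / (6 / 1000) := by
      rw [le_div_iff₀ (by norm_num)]; linarith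
    have h7 := step_nonneg (140 / 100) (143 / 100) |tz w|
    have h8 := step_le_one (140 / 100) (143 / 100) |tz w|
    nlinarith [mul_nonneg h7 (sub_nonneg.2 h4), mul_nonneg (sub_nonneg.2 h8) (sub_nonneg.2 h6)]
  · rw [step_of_ge (by norm_num) h]
    linarith

theorem Dbl_core {w w' : ℂ} (hw : w ∈ Disc) (hw' : w' ∈ Disc) {k l : ℤ}
    (hp : pz w' = -pz w + ((k : ℝ), (l : ℝ))) (h1 : -1 / 2 ≤ hz w) (h2 : hz w ≤ 0) :
    ∃ (ty : Bool) (X e : ℝ) (n : ℤ), (e = 1 ∨ e = -1) ∧ X ∈ Icc (-58 / 100 : ℝ) (-5 / 100) ∧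
      sw ty (pz w) = (X, 3 / 10 + e / 100 + n) ∧ Tz w = 1 - cT ty := by
  have hpl : pz w = Γ (tz w) := class_plateau (by rw [abs_le]; constructor <;> linarith)
  have hH : Hs (σz w) = hz w + 1 / 2 := by rw [hz]; ring
  have hσ : |σz w| ≤ 1 / 2 := by
    have := Hs_of_abs_le ((abs_Hs_le_iff (σz w)).1 (by rw [hH, abs_le]; constructor <;> linarith))
    rw [← this, hH, abs_le]
    constructor <;> linarith
  obtain ⟨ty, hW1, hW2⟩ := Dbl_wall (tz w)
  rw [← hpl] at hW1 hW2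
  obtain ⟨m, n, hmn⟩ : ∃ m n : ℤ, sw ty (pz w') =
      (-(sw ty (pz w)).1 + m, -(sw ty (pz w)).2 + n) := by
    cases ty
    · exact ⟨k, l, by rw [hp]; rfl⟩
    · exact ⟨l, k, by rw [hp]; rfl⟩
  have hb : ∀ v ∈ Disc, (sw ty (pz v)).1 ∈ Icc (-69 / 100 : ℝ) (29 / 100) ∧
      (sw ty (pz v)).2 ∈ Icc (-69 / 100 : ℝ) (29 / 100) := fun v hv => by
    cases ty
    · exact pz_mem hv
    · exact (pz_mem hv).symm
  obtain ⟨b1, b2⟩ := hb w' hw'
  rw [hmn] at b1 b2
  obtain ⟨y, hy, hy'⟩ : ∃ y ∈ Icc (29 / 100 : ℝ) (32 / 100), -(sw ty (pz w)).2 + n = -y := by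
    obtain ⟨b3, b4⟩ := b2
    dsimp only at b3 b4
    rcases hW1 with ⟨c1, c2⟩ | c
    · have m1 : (-2 : ℤ) < n := by
        have : ((-2 : ℤ) : ℝ) < n := by push_cast; linarith
        exact_mod_cast this
      have m2 : n < 0 := by
        have : (n : ℝ) < ((0 : ℤ) : ℝ) := by push_cast; linarith
        exact_mod_cast this
      obtain rfl : n = -1 := by omega
      exact ⟨(sw ty (pz w)).2 + 1, ⟨by linarith, by linarith⟩, by push_cast; ring⟩
    · have m1 : (-1 : ℤ) < n := by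
        have : ((-1 : ℤ) : ℝ) < n := by push_cast; linarith
        exact_mod_cast this
      have m2 : n < 1 := by
        have : (n : ℝ) < ((1 : ℤ) : ℝ) := by push_cast; linarith
        exact_mod_cast this
      obtain rfl : n = 0 := by omega
      exact ⟨29 / 100, ⟨le_rfl, by norm_num⟩, by rw [c]; simp⟩
  rw [hy'] at hmn
  have hq := (class_other hw' ty (by
    rw [hmn]; exact ⟨by linarith [hy.2], by linarith [hy.1]⟩)).1
  have hq' : qf (pz w') = qf (sw ty (pz w')) := by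
    cases ty
    · rfl
    · simp only [qf, sw, if_true]; ring
  rw [hq', hmn] at hq
  have hX := Dbl_range hy (hb w hw).1 b1 hq
  obtain ⟨hy2, ht⟩ := hW2 hX
  have hT : Tz w = 1 - cT ty := by
    have c1 := χX_eq_one hX
    have c2 : χX (sw ty (pz w)).2 = 0 := χX_eq_zero (by
      rcases hy2 with h | h <;> rw [h] <;> norm_num)
    rw [Tz, Hs_of_ge (Dbl_bz hw hpl ht hσ), χh_eq_one ⟨by linarith, h2⟩]
    cases ty
    · change χX (pz w).1 = 1 at c1
      change χX (pz w).2 = 0 at c2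
      rw [c1, c2]; norm_num [cT]
    · change χX (pz w).2 = 1 at c1
      change χX (pz w).1 = 0 at c2
      rw [c1, c2]; norm_num [cT]
  rcases hy2 with h | h
  · exact ⟨ty, _, 1, -1, Or.inl rfl, hX, Prod.ext rfl (by rw [h]; norm_num), hT⟩
  · exact ⟨ty, _, -1, 0, Or.inr rfl, hX, Prod.ext rfl (by rw [h]; norm_num), hT⟩

theorem Dbl_rel {j : Fin 2} {z z' : ℂ} (h : z ∈ Disc) (h' : z' ∈ Disc)
    (he : fD j z = fD (oth j) z') : hz (cj (oth j) z') = -hz (cj j z) ∧
      ∃ k l : ℤ, pz (cj (oth j) z') = -pz (cj j z) + ((k : ℝ), (l : ℝ)) := by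
  have hb : ∀ v, |hz v| ≤ 3 := fun v => by
    rw [abs_le]; constructor <;> linarith [(hz_mem v).1, (hz_mem v).2]
  have hs : ςj j * ςj (oth j) = -1 := by
    fin_cases j <;> simp [ςj, oth]
  obtain ⟨h1, k, l, h2⟩ := Φa_inj (j, false) (oth j, false) (pz_Dom (cj_mem.2 h))
    (pz_Dom (cj_mem.2 h')) (hb _) (hb _) (congrArg Prod.fst he)
  dsimp only at h1 h2
  rw [hs] at h1 h2
  exact ⟨by rw [h1, neg_one_mul], k, l, by rw [neg_one_smul] at h2; exact h2⟩

theorem Dbl_aux {j : Fin 2} {z z' : ℂ} (h : z ∈ Disc) (h' : z' ∈ Disc)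
    (he : fD j z = fD (oth j) z') (h0 : hz (cj j z) ≤ 0) :
    ∃ (a : Rt) (k : KV a) (e : ℝ), (e = 1 ∨ e = -1) ∧
      fD j z = (Φa a (XV a.2 k.1 (e / 100)) (3 / 10 + e / 100) (-1 / 4 - sg a.2 * ρV a.2 k.1),
        1 - cT a.2) := by
  obtain ⟨h1, k, l, h2⟩ := Dbl_rel h h' he
  have h3 : -1 / 2 ≤ hz (cj j z) := by linarith [(hz_mem (cj (oth j) z')).2]
  obtain ⟨ty, X, e, n, he1, hX, hP, hT⟩ := Dbl_core (cj_mem.2 h) (cj_mem.2 h') h2 h3 h0
  have hf : fD j z = (Φa (j, ty) X (3 / 10 + e / 100) (hz (cj j z)), 1 - cT ty) := by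
    have e1 := Φa_periodic (j, ty) X (3 / 10 + e / 100) (hz (cj j z)) 0 n
    have e2 : sw ty (sw ty (pz (cj j z))) = pz (cj j z) := by cases ty <;> rfl
    rw [Int.cast_zero, add_zero] at e1
    rw [← e1, Φa, ← hP, e2, ← hT]
    rfl
  have hy : 3 / 10 + e / 100 ∈ Icc (29 / 100 : ℝ) (31 / 100) := by
    rcases he1 with rfl | rfl <;> norm_num
  have hc : 1 / 3 ≤ cT ty := by cases ty <;> norm_num [cT]
  rcases onD_other (j, ty) ⟨by linarith [hX.1], by linarith [hX.2]⟩ hy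
    (by rw [abs_le]; constructor <;> linarith) h' (hf.symm.trans he) with
    ⟨c1, c2⟩ | ⟨-, -, c⟩ | ⟨-, c1, c2⟩
  · have c3 : hz (cj j z) = -1 / 2 := c1.resolve_right fun c => by linarith
    rcases c2 (by linarith) with c | c
    · refine ⟨(j, ty), ⟨0, fun _ => Or.inl rfl⟩, e, he1, ?_⟩
      have e1 : XV ty 0 (e / 100) = xp (R2 ty) (3 / 10 + e / 100) - 1 := by rw [XV, if_pos rfl]
      have e2 : -1 / 4 - sg ty * ρV ty 0 = -1 / 2 := by
        cases ty
        · rw [ρV, if_neg (by decide), if_neg (by decide)]; norm_num [sg]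
        · norm_num [ρV, sg]
      rw [hf, c3, c]
      dsimp only
      rw [e1, e2, R2]
    · refine ⟨(j, ty), ⟨3, fun _ => Or.inr rfl⟩, e, he1, ?_⟩
      have e1 : XV ty 3 (e / 100) = xm (R2 ty) (3 / 10 + e / 100) := by
        rw [XV, if_neg (by decide), if_neg (by decide), if_neg (by decide)]
      have e2 : -1 / 4 - sg ty * ρV ty 3 = -1 / 2 := by
        cases ty
        · rw [ρV, if_neg (by decide), if_neg (by decide)]; norm_num [sg]
        · norm_num [ρV, sg]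
      rw [hf, c3, c]
      dsimp only
      rw [e1, e2, R2]
  · linarith
  · have c3 := (χh_mem (-hz (cj j z))).2
    cases ty
    · have c4 : hz (cj j z) = -1 / 20 := by
        have := (χh_eq_half_iff (h := -hz (cj j z)) (by linarith)).1 (by
          norm_num [cT] at c2; linarith)
        linarith
      rcases c1 with c | c
      · refine ⟨(j, false), ⟨1, fun h => by simp at h⟩, e, he1, ?_⟩
        rw [hf, c4, c]
        norm_num [XV, ρV, sg]
      · refine ⟨(j, false), ⟨2, fun h => by simp at h⟩, e, he1, ?_⟩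
        have e1 : XV false 2 (e / 100) = -29 / 100 := by
          rw [XV, if_neg (by decide), if_neg (by decide), if_pos rfl]
        have e2 : -1 / 4 - sg false * ρV false 2 = -1 / 20 := by norm_num [ρV, sg]
        rw [hf, c4, c]
        dsimp only
        rw [e1, e2]
    · norm_num [cT] at c2
      linarith

/-- The double points of the two discs, in slot coordinates. -/
theorem dbl_points {j j' : Fin 2} (hj : j ≠ j') {z z' : ℂ} (hz : z ∈ Disc) (hz' : z' ∈ Disc)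
    (he : fD j z = fD j' z') : ∃ (a : Rt) (k : KV a) (e : ℝ), (e = 1 ∨ e = -1) ∧
      fD j z = (Φa a (XV a.2 k.1 (e / 100)) (3 / 10 + e / 100) (-1 / 4 - sg a.2 * ρV a.2 k.1),
        1 - cT a.2) := by
  have h1 : j' = oth j ∧ j = oth j' := by
    revert hj
    fin_cases j <;> fin_cases j' <;> simp [oth]
  have he1 : fD j z = fD (oth j) z' := h1.1 ▸ he
  have he2 : fD j' z' = fD (oth j') z := h1.2 ▸ he.symm
  have h2 := (Dbl_rel hz hz' he1).1
  rw [← h1.1] at h2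
  rcases le_total (MP_1d0d1b_gt.hz (cj j z)) 0 with h | h
  · exact Dbl_aux hz hz' he1 h
  · rw [he]
    exact Dbl_aux hz' hz he2 (by linarith)

theorem dbl_time {j j' : Fin 2} (hj : j ≠ j') {z z' : ℂ} (hz : z ∈ Disc) (hz' : z' ∈ Disc)
    (he : fD j z = fD j' z') : (fD j z).2 ∈ Ioo (0 : ℝ) 1 := by
  obtain ⟨⟨i, ty⟩, k, e, -, h⟩ := dbl_points hj hz hz' he
  rw [h]
  cases ty <;> norm_num [cT]

end Pool.Agent.Lib.MP_1d0d1b_gt
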