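import Mathlib

/-!
Definitions for MP_1d0d1b_gt: knots, Arf invariant one, Bing doubles and framed Whitney towers,
all smooth.  Three-space is `ℂ × ℝ`; the four-ball minus a boundary point is the half-space
`(ℂ × ℝ) × [0, ∞)`, whose boundary is three-space (the three-sphere minus a point).
-/

open Set Function
open scoped ContDiff Real

noncomputable section

namespace Pool.Agent.Lib.MP_1d0d1b_gt

/-- Three-space. -/
abbrev V3 := ℂ × ℝ

/-- Four-space; the last coordinate is the depth into the four-ball. -/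
abbrev E4 := V3 × ℝ

/-- The closed unit disc. -/
def Disc : Set ℂ := {z | ‖z‖ ≤ 1}

/-- The open unit disc. -/
def oDisc : Set ℂ := {z | ‖z‖ < 1}

/-- The closed upper half disc, the domain of a Whitney disc. -/
def Half : Set ℂ := {z | ‖z‖ ≤ 1 ∧ 0 ≤ z.im}

/-- The interior of the half disc. -/
def oHalf : Set ℂ := {z | ‖z‖ < 1 ∧ 0 < z.im}

/-- The diameter of the half disc. -/
def Diam : Set ℂ := {z | ‖z‖ ≤ 1 ∧ z.im = 0}

/-- The closed upper semicircle. -/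
def Semi : Set ℂ := {z | ‖z‖ = 1 ∧ 0 ≤ z.im}

/-- The point of the unit circle at angle `t`. -/
def circ (t : ℝ) : ℂ := Complex.exp (t * Complex.I)

/-- A smooth link: disjoint smoothly embedded circles, parametrised with period `2π`. -/
structure IsLink {m : ℕ} (L : Fin m → ℝ → V3) : Prop where
  smooth : ∀ i, ContDiff ℝ ∞ (L i)
  periodic : ∀ i t, L i (t + 2 * π) = L i t
  regular : ∀ i t, deriv (L i) t ≠ 0
  inj : ∀ i j s t, L i s = L j t → i = j ∧ ∃ k : ℤ, t = s + k * (2 * π)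

/-- A smooth knot. -/
def IsKnot (K : ℝ → V3) : Prop := IsLink (fun _ : Fin 1 => K)

/-- Smooth isotopy of links. -/
def Isotopic {m : ℕ} (L L' : Fin m → ℝ → V3) : Prop :=
  ∃ H : ℝ → Fin m → ℝ → V3, (∀ i, ContDiff ℝ ∞ (fun q : ℝ × ℝ => H q.1 i q.2)) ∧
    (∀ s ∈ Icc (0 : ℝ) 1, IsLink (H s)) ∧ H 0 = L ∧ H 1 = L'

/-- `c` bounds a smoothly embedded disc which the closed curve `c'` meets transversally, in the
interior, an odd number of times: the linking number of `c` and `c'` is odd. -/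
def OddLinking (c c' : ℝ → V3) : Prop :=
  ∃ Δ : ℂ → V3, ContDiff ℝ ∞ Δ ∧ InjOn Δ Disc ∧ (∀ z ∈ Disc, Injective (fderiv ℝ Δ z)) ∧
    (∀ t, Δ (circ t) = c t) ∧
    (∀ z ∈ Disc, ∀ t, Δ z = c' t → z ∈ oDisc ∧ deriv c' t ∉ range (fderiv ℝ Δ z)) ∧
    Odd {t ∈ Ico (0 : ℝ) (2 * π) | c' t ∈ Δ '' Disc}.ncard

/-- The plane minus all integer translates of the open ellipse `M (oDisc)`; modulo `ℤ²` this is
a torus minus an open disc. -/
def Surf (M : ℂ →L[ℝ] ℝ × ℝ) : Set (ℝ × ℝ) :=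
  {p | ∀ k l : ℤ, ∀ z ∈ oDisc, p ≠ M z + ((k : ℝ), (l : ℝ))}

/-- A thickened genus one Seifert surface of `K`: a smooth embedding `Φ` of
(torus minus an open disc) `× [-1, 1]` whose middle level has boundary `K`. -/
structure GenusOneSeifert (K : ℝ → V3) where
  Φ : (ℝ × ℝ) × ℝ → V3
  M : ℂ →L[ℝ] ℝ × ℝ
  M_inj : Injective M
  M_small : ∀ z ∈ Disc, |(M z).1| < 1 / 2 ∧ |(M z).2| < 1 / 2
  smooth : ContDiff ℝ ∞ Φ
  periodic : ∀ (p : ℝ × ℝ) (h : ℝ) (k l : ℤ), Φ (p + ((k : ℝ), (l : ℝ)), h) = Φ (p, h)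
  immersion : ∀ p ∈ Surf M, ∀ h ∈ Icc (-1 : ℝ) 1, Injective (fderiv ℝ Φ (p, h))
  inj : ∀ p ∈ Surf M, ∀ h ∈ Icc (-1 : ℝ) 1, ∀ p' ∈ Surf M, ∀ h' ∈ Icc (-1 : ℝ) 1,
    Φ (p, h) = Φ (p', h') → h = h' ∧ ∃ k l : ℤ, p' = p + ((k : ℝ), (l : ℝ))
  bdry : ∀ t, K t = Φ (M (circ t), 0)

/-- `K` has a genus one Seifert surface whose symplectic basis `u, v` has `lk(u, u⁺)` and
`lk(v, v⁺)` odd, so that `Arf K = lk(u, u⁺) lk(v, v⁺) mod 2 = 1`. -/
def ArfOne (K : ℝ → V3) : Prop :=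
  ∃ S : GenusOneSeifert K,
    OddLinking (fun t => S.Φ ((t / (2 * π), 1 / 2), 0)) (fun t => S.Φ ((t / (2 * π), 1 / 2), 1)) ∧
    OddLinking (fun t => S.Φ ((1 / 2, t / (2 * π)), 0)) (fun t => S.Φ ((1 / 2, t / (2 * π)), 1))

/-- `φ` is a smooth embedding of the solid torus `(ℝ / 2π) × Disc` with core `K`. -/
structure IsTubular (K : ℝ → V3) (φ : ℝ × ℂ → V3) : Prop where
  smooth : ContDiff ℝ ∞ φ
  periodic : ∀ t z, φ (t + 2 * π, z) = φ (t, z)
  core : ∀ t, φ (t, 0) = K t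
  immersion : ∀ t, ∀ z ∈ Disc, Injective (fderiv ℝ φ (t, z))
  inj : ∀ t t', ∀ z ∈ Disc, ∀ z' ∈ Disc, φ (t, z) = φ (t', z') →
    z = z' ∧ ∃ k : ℤ, t' = t + k * (2 * π)

/-- A longitude of `φ` misses a Seifert surface of `K`, so it has linking number zero with `K`. -/
def Untwisted (K : ℝ → V3) (φ : ℝ × ℂ → V3) : Prop :=
  ∃ S : GenusOneSeifert K, ∃ z ∈ Disc, ∀ t, ∀ p ∈ Surf S.M, φ (t, z) ≠ S.Φ (p, 0)

/-- The Bing link in the solid torus `(ℝ / 2π) × Disc`: component `j` is a thin loop over the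
arc of half-length `3π/4` centred at angle `jπ`; the two loops clasp at both ends. -/
def bing (j : Fin 2) (θ : ℝ) : ℝ × ℂ :=
  ((j : ℝ) * π + 3 * π / 4 * Real.cos θ,
    ⟨-(Real.cos θ) ^ 2 / 2, ((j : ℝ) - 1 / 2 + Real.sin θ) / 2⟩)

/-- `L` is (isotopic to) the untwisted satellite of `K` with pattern the Bing link. -/
def IsBingDouble (K : ℝ → V3) (L : Fin 2 → ℝ → V3) : Prop :=
  ∃ φ : ℝ × ℂ → V3, IsTubular K φ ∧ Untwisted K φ ∧ Isotopic (fun j θ => φ (bing j θ)) L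

/-- Coordinates on four-space. -/
def coords (v : E4) : Fin 4 → ℝ := ![v.1.1.re, v.1.1.im, v.1.2, v.2]

/-- The determinant of four vectors. -/
def det4 (a b c d : E4) : ℝ := Matrix.det (Matrix.of ![coords a, coords b, coords c, coords d])

/-- Its sign is the sign of the intersection point `f z = g w` of the sheets `f` and `g`. -/
def interDet (f g : ℂ → E4) (z w : ℂ) : ℝ :=
  det4 (fderiv ℝ f z 1) (fderiv ℝ f z Complex.I) (fderiv ℝ g w 1) (fderiv ℝ g w Complex.I)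

/-- The tangent planes of `f` at `z` and of `g` at `w` span four-space. -/
def Transv (f g : ℂ → E4) (z w : ℂ) : Prop :=
  ∀ y : E4, ∃ p q : ℂ, fderiv ℝ f z p + fderiv ℝ g w q = y

/-- Domains: discs bounded by link components, half discs for Whitney discs. -/
def dom {m : ℕ} {W : Type} : Fin m ⊕ W → Set ℂ
  | .inl _ => Disc
  | .inr _ => Half

/-- Interiors of the domains. -/
def odom {m : ℕ} {W : Type} : Fin m ⊕ W → Set ℂ
  | .inl _ => oDisc
  | .inr _ => oHalf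

/-- A framed Whitney tower of order `n` in the half-space bounded by the link `L`.
Surfaces are indexed by `Fin m ⊕ W`: the discs `D_i` and finitely many Whitney discs.
The Whitney disc `w` has its diameter on the sheet `lo w` (arc `a w`) and its semicircle on the
sheet `up w` (arc `b w`); its corners `1` and `-1` are the two intersection points it pairs. -/
structure FramedTower {m : ℕ} (L : Fin m → ℝ → V3) (n : ℕ) where
  W : Type
  finite : Finite W
  f : Fin m ⊕ W → ℂ → E4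
  smooth : ∀ s, ContDiff ℝ ∞ (f s)
  immersion : ∀ s, ∀ z ∈ dom s, Injective (fderiv ℝ (f s) z)
  /-- `D_i` is properly immersed with boundary `L_i` -/
  bdry : ∀ i t, f (.inl i) (circ t) = (L i t, 0)
  neat : ∀ i z, ‖z‖ = 1 → ∃ p, (fderiv ℝ (f (.inl i)) z p).2 ≠ 0
  disc_pos : ∀ i, ∀ z ∈ oDisc, 0 < (f (.inl i) z).2
  whitney_pos : ∀ w, ∀ z ∈ Half, 0 < (f (.inr w) z).2
  lo : W → Fin m ⊕ W
  up : W → Fin m ⊕ W
  /-- the number of trivalent vertices of the rooted tree of a surface -/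
  ord : Fin m ⊕ W → ℕ
  ord_disc : ∀ i, ord (.inl i) = 0
  ord_whitney : ∀ w, ord (.inr w) = ord (lo w) + ord (up w) + 1
  a : W → ℂ → ℂ
  b : W → ℂ → ℂ
  a_cont : ∀ w, ContinuousOn (a w) Diam
  b_cont : ∀ w, ContinuousOn (b w) Semi
  a_mem : ∀ w, ∀ z ∈ Diam, a w z ∈ odom (lo w)
  b_mem : ∀ w, ∀ z ∈ Semi, b w z ∈ odom (up w)
  a_eq : ∀ w, ∀ z ∈ Diam, f (lo w) (a w z) = f (.inr w) z
  b_eq : ∀ w, ∀ z ∈ Semi, f (up w) (b w z) = f (.inr w) z
  /-- the two paired points are transverse with opposite signs -/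
  sign : ∀ w, interDet (f (lo w)) (f (up w)) (a w 1) (b w 1) *
    interDet (f (lo w)) (f (up w)) (a w (-1)) (b w (-1)) < 0
  /-- the boundary of a Whitney disc is embedded, misses the other boundaries, and meets the
  tower only along its two arcs -/
  clean : ∀ w, ∀ z ∈ Diam ∪ Semi, ∀ s, ∀ x ∈ dom s, f s x = f (.inr w) z →
    (s = .inr w ∧ x = z) ∨ (z ∈ Diam ∧ s = lo w ∧ x = a w z) ∨ (z ∈ Semi ∧ s = up w ∧ x = b w z)
  /-- interiors meet transversally, in double points only -/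
  transv : ∀ s s', ∀ x ∈ odom s, ∀ x' ∈ odom s', (s, x) ≠ (s', x') → f s x = f s' x' →
    Transv (f s) (f s') x x'
  no_triple : ∀ s s' s'', ∀ x ∈ odom s, ∀ x' ∈ odom s', ∀ x'' ∈ odom s'', (s, x) ≠ (s', x') →
    f s x = f s' x' → f s'' x'' = f s x → (s'', x'') = (s, x) ∨ (s'', x'') = (s', x')
  /-- every unpaired intersection has order at least `n` -/
  order : ∀ s s', ∀ x ∈ odom s, ∀ x' ∈ odom s', (s, x) ≠ (s', x') → f s x = f s' x' →
    (∃ w, f s x = f (.inr w) 1 ∨ f s x = f (.inr w) (-1)) ∨ n ≤ ord s + ord s'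
  /-- the framing: a nowhere vanishing normal section over the Whitney disc, tangent to the
  sheet `lo w` along the diameter and normal to the sheet `up w` along the semicircle -/
  v : W → ℂ → E4
  v_cont : ∀ w, ContinuousOn (v w) Half
  v_normal : ∀ w, ∀ z ∈ Half, v w z ∉ range (fderiv ℝ (f (.inr w)) z)
  v_lo : ∀ w, ∀ z ∈ Diam, v w z ∈ range (fderiv ℝ (f (lo w)) (a w z))
  v_up : ∀ w, ∀ z ∈ Semi, ∀ y : E4, ∃ p q : ℂ, ∃ c : ℝ,
    fderiv ℝ (f (.inr w)) z p + fderiv ℝ (f (up w)) (b w z) q + c • v w z = y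

end Pool.Agent.Lib.MP_1d0d1b_gt
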