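import Pool.Agent.Lib.MP_1d0d1b_gt.DiscA1

open Set Function Filter Topology
open scoped ContDiff Real

noncomputable section

namespace Pool.Agent.Lib.MP_1d0d1b_gt

theorem DiscA2_abs_re {z : ℂ} (h : z ∈ Disc) : |z.re| ≤ 1 := (Complex.abs_re_le_norm z).trans h

theorem DiscA2_abs_tz {z : ℂ} (h : z ∈ Disc) : |tz z| < 19 / 10 := by
  have := abs_le.1 (DiscA2_abs_re h)
  rw [tz, abs_lt]
  constructor <;> linarith

theorem DiscA2_dd_pos (t : ℝ) : 0 < dd t := lt_of_lt_of_le (by norm_num) (dd_mem t).1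

theorem DiscA2_kk_pos {z : ℂ} (h : z ∈ Disc) : 0 < kk z.re :=
  lt_of_lt_of_le (by norm_num) (kk_ge (DiscA2_abs_re h))

/-- The saturation and the overshoot together determine the level. -/
theorem DiscA2_joint {a b : ℝ} (h1 : Hs a = Hs b) (h2 : ψh a = ψh b) : a = b := by
  by_cases ha : |a| ≤ 9 / 10
  · have hb : |b| ≤ 9 / 10 := by rwa [← abs_Hs_le_iff, ← h1, abs_Hs_le_iff]
    rwa [Hs_of_abs_le ha, Hs_of_abs_le hb] at h1
  have hb : ¬|b| ≤ 9 / 10 := by rwa [← abs_Hs_le_iff, ← h1, abs_Hs_le_iff]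
  rw [ψh_eq, ψh_eq, div_left_inj' (by norm_num)] at h2
  have h3 := ramp_strictMonoOn.injOn (mem_Ici.2 (by linarith [not_le.1 ha]))
    (mem_Ici.2 (by linarith [not_le.1 hb])) h2
  rcases abs_eq_abs.1 (sub_left_injective h3) with h4 | h4
  · exact h4
  · rw [h4, Hs_neg] at h1
    have h5 : Hs b = 0 := by linarith
    rw [← abs_Hs_le_iff, h5] at hb
    exact absurd (by norm_num) hb

theorem ph_inj {z z' : ℂ} (h : z ∈ Disc) (h' : z' ∈ Disc) (hp : pz z = pz z') (hh : hz z = hz z') :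
    z = z' := by
  obtain ⟨h1, h2⟩ := Γ_smul_inj (DiscA2_abs_tz h) (DiscA2_abs_tz h') (sz_mem h).1 (sz_mem h').1 hp
  have h3 : z.re = z'.re := by
    simp only [tz] at h1
    linarith
  rw [← h1, sub_right_inj, div_left_inj' (DiscA2_dd_pos _).ne'] at h2
  have h4 := DiscA2_joint (add_left_cancel hh) h2
  rw [σz, σz, ← h3] at h4
  exact Complex.ext h3 (mul_left_cancel₀ (DiscA2_kk_pos h).ne' h4)

theorem DiscA2_line {E F : Type*} [NormedAddCommGroup E] [NormedSpace ℝ E] [NormedAddCommGroup F]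
    [NormedSpace ℝ F] {f : E → F} {z : E} (hf : DifferentiableAt ℝ f z) (v : E) :
    HasDerivAt (fun r : ℝ => f (z + r • v)) (fderiv ℝ f z v) 0 :=
  hf.hasFDerivAt.hasLineDerivAt v

theorem DiscA2_pair {E F : Type*} [NormedAddCommGroup E] [NormedSpace ℝ E] [NormedAddCommGroup F]
    [NormedSpace ℝ F] {f : ℝ → E × F} {v : E × F} {x : ℝ} (hf : HasDerivAt f v x) :
    HasDerivAt (fun r => (f r).1) v.1 x ∧ HasDerivAt (fun r => (f r).2) v.2 x :=
  ⟨(ContinuousLinearMap.fst ℝ E F).hasFDerivAt.comp_hasDerivAt x hf,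
    (ContinuousLinearMap.snd ℝ E F).hasFDerivAt.comp_hasDerivAt x hf⟩

theorem DiscA2_affine {f : ℝ → ℝ} {a f' : ℝ} (hf : HasDerivAt f f' a) (c : ℝ) :
    HasDerivAt (fun r : ℝ => f (a + r * c)) (f' * c) 0 := by
  have h1 : HasDerivAt (fun r : ℝ => a + r * c) c 0 := by
    simpa using ((hasDerivAt_id (0 : ℝ)).mul_const c).const_add a
  exact HasDerivAt.comp_of_eq 0 hf h1 (by simp)

/-- The derivative of the overshoot has the sign of the level. -/
theorem DiscA2_ψh_deriv {σ : ℝ} (h : 1 ≤ |σ|) : ∃ c, HasDerivAt ψh c σ ∧ 0 < c * σ := by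
  have h1 : HasDerivAt (fun x : ℝ => ramp (x - 9 / 10)) (deriv ramp (σ - 9 / 10) * 1) σ :=
    (ramp_hasDerivAt _).comp σ ((hasDerivAt_id σ).sub_const _)
  have h2 : HasDerivAt (fun x : ℝ => ramp (-x - 9 / 10)) (deriv ramp (-σ - 9 / 10) * -1) σ :=
    (ramp_hasDerivAt _).comp σ ((hasDerivAt_neg σ).sub_const _)
  refine ⟨_, (h1.add h2).div_const 100, ?_⟩
  rcases le_abs.1 h with h3 | h3
  · rw [ramp_deriv_of_ge (by linarith), ramp_deriv_of_nonpos (by linarith)]
    linarith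
  · rw [ramp_deriv_of_nonpos (by linarith), ramp_deriv_of_ge (by linarith)]
    linarith

theorem DiscA2_ph_diff : Differentiable ℝ fun x => (pz x, hz x) :=
  (pz_smooth.prodMk hz_smooth).differentiable (by simp)

theorem DiscA2_sz_diff : Differentiable ℝ fun x => 1 - ψh (σz x) / dd (tz x) := by
  have h1 := (ψh_contDiff.comp σz_smooth).differentiable (by simp)
  have h2 : Differentiable ℝ tz := by
    unfold tz
    fun_prop
  have h3 : Differentiable ℝ fun x => dd (tz x) := (dd_contDiff.differentiable (by simp)).comp h2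
  have h4 : Differentiable ℝ fun x => (dd (tz x))⁻¹ := h3.inv fun x => (DiscA2_dd_pos _).ne'
  simp only [div_eq_mul_inv]
  exact (h1.mul h4).const_sub 1

theorem DiscA2_vert (z : ℂ) {v : ℂ} (hv : v.re = 0) (r : ℝ) :
    tz (z + r • v) = tz z ∧ σz (z + r • v) = σz z + r * (kk z.re * v.im) := by
  have h1 : (z + r • v).re = z.re := by simp [hv]
  have h2 : (z + r • v).im = z.im + r * v.im := by simp
  rw [tz, tz, σz, σz, h1, h2]
  exact ⟨rfl, by ring⟩

theorem ph_imm {z : ℂ} (h : z ∈ Disc) : Injective (fderiv ℝ (fun x => (pz x, hz x)) z) := by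
  refine (injective_iff_map_eq_zero _).2 fun v hv => ?_
  have h0 := DiscA2_line (DiscA2_ph_diff z) v
  rw [hv] at h0
  have hs := DiscA2_line (DiscA2_sz_diff z) v
  have ht : HasDerivAt (fun r : ℝ => tz (z + r • v)) (37 / 20 * v.re) 0 := by
    have : (fun r : ℝ => tz (z + r • v)) = fun r => tz z + r * (37 / 20 * v.re) := by
      funext r
      simp only [tz, Complex.add_re, Complex.smul_re, smul_eq_mul]
      ring
    rw [this]
    simpa using ((hasDerivAt_id (0 : ℝ)).mul_const (37 / 20 * v.re)).const_add (tz z)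
  have hΓ := HasDerivAt.scomp_of_eq (0 : ℝ)
    ((Γ_contDiff.differentiable (by simp)) (tz z)).hasDerivAt ht (by simp)
  have h1 := (hs.smul hΓ).unique (DiscA2_pair h0).1
  simp only [zero_smul, add_zero, comp_apply, smul_smul] at h1
  obtain ⟨h2, h3⟩ := Γ_indep (DiscA2_abs_tz h) ((add_comm _ _).trans h1)
  have h4 : v.re = 0 := by
    have := (mul_eq_zero.1 h3).resolve_left (sz_mem h).1.ne'
    linarith
  refine Complex.ext h4 ((mul_eq_zero.1 ?_).resolve_left (DiscA2_kk_pos h).ne')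
  by_cases hσ : |σz z| < 1
  · have h5 := (DiscA2_pair h0).2
    simp only [hz, (DiscA2_vert z h4 _).2] at h5
    have h6 := ((DiscA2_affine (Hs_hasDerivAt (σz z)) (kk z.re * v.im)).const_add
      (-1 / 2)).unique h5
    exact (mul_eq_zero.1 h6).resolve_left (Hs_deriv_pos hσ).ne'
  · obtain ⟨c, hc, hc'⟩ := DiscA2_ψh_deriv (not_lt.1 hσ)
    rw [h2] at hs
    simp only [(DiscA2_vert z h4 _).1, (DiscA2_vert z h4 _).2] at hs
    have h6 := (((DiscA2_affine hc (kk z.re * v.im)).div_const (dd (tz z))).const_sub 1).unique hs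
    rw [neg_eq_zero, div_eq_zero_iff, or_iff_left (DiscA2_dd_pos _).ne'] at h6
    exact (mul_eq_zero.1 h6).resolve_left (left_ne_zero_of_mul hc'.ne')

theorem DiscA2_comp {E F H : Type*} [NormedAddCommGroup E] [NormedSpace ℝ E]
    [NormedAddCommGroup F] [NormedSpace ℝ F] [NormedAddCommGroup H] [NormedSpace ℝ H]
    {g : F → H} {f : E → F} {x : E} (hg : Differentiable ℝ g) (hf : Differentiable ℝ f)
    (h1 : Injective (fderiv ℝ g (f x))) (h2 : Injective (fderiv ℝ f x)) :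
    Injective (fderiv ℝ (fun y => g (f y)) x) := by
  rw [fderiv_fun_comp x (hg _) (hf _)]
  exact h1.comp h2

theorem DiscA2_io (j : Fin 2) : Differentiable ℝ (io j) ∧ ∀ q, Injective (fderiv ℝ (io j) q) := by
  unfold io
  split_ifs
  · exact ⟨differentiable_id, fun q => by rw [fderiv_fun_id]; exact injective_id⟩
  · refine ⟨differentiable_id.neg, fun q => ?_⟩
    rw [fderiv_fun_neg, fderiv_fun_id]
    exact neg_injective

theorem DiscA2_cj (j : Fin 2) : Differentiable ℝ (cj j) ∧ ∀ q, Injective (fderiv ℝ (cj j) q) := by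
  unfold cj
  split_ifs
  · exact ⟨differentiable_id, fun q => by rw [fderiv_fun_id]; exact injective_id⟩
  · refine ⟨Complex.conjCLE.differentiable, fun q => ?_⟩
    have h : fderiv ℝ (fun z : ℂ => (starRingEnd ℂ) z) q = _ := Complex.conjCLE.fderiv
    rw [h]
    exact Complex.conjCLE.injective

theorem DiscA2_io_mem (j : Fin 2) {z : ℂ} (h : z ∈ Disc) :
    (io j (pz z, hz z)).1 ∈ Dom ∧ |(io j (pz z, hz z)).2| ≤ 3 := by
  have h1 : |hz z| ≤ 3 := abs_le.2 ⟨by linarith [(hz_mem z).1], by linarith [(hz_mem z).2]⟩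
  unfold io
  split_ifs
  · exact ⟨pz_Dom h, h1⟩
  · exact ⟨neg_mem_Dom (pz_Dom h), (abs_neg _).trans_le h1⟩

theorem DiscA2_norm_cj (j : Fin 2) (z : ℂ) : ‖cj j z‖ = ‖z‖ := by
  unfold cj
  split_ifs <;> simp

theorem DiscA2_cj_line (j : Fin 2) (z p : ℂ) (r : ℝ) :
    cj j (z + r • cj j p) = cj j z + r • p := by
  unfold cj
  split_ifs <;> simp

theorem DiscA2_int {a b : ℝ} {k : ℤ} (ha : a ∈ Icc (-69 / 100 : ℝ) (29 / 100))
    (hb : b ∈ Icc (-69 / 100 : ℝ) (29 / 100)) (h : b = a + k ∨ -b = -a + k) : a = b := by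
  have h1 : |(k : ℝ)| < 1 := by
    rw [abs_lt]
    rcases h with h | h <;> constructor <;> linarith [ha.1, ha.2, hb.1, hb.2]
  have h2 : k = 0 := Int.abs_lt_one_iff.1 (by exact_mod_cast h1)
  rw [h2, Int.cast_zero] at h
  rcases h with h | h <;> linarith

theorem DiscA2_space_imm (j : Fin 2) {z : ℂ} (h : z ∈ Disc) :
    Injective (fderiv ℝ (fun z => (fD j z).1) z) :=
  DiscA2_comp (g := Φ) (f := fun z => io j (pz (cj j z), hz (cj j z)))
    (Φ_smooth.differentiable (by simp))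
    ((DiscA2_io j).1.comp (DiscA2_ph_diff.comp (DiscA2_cj j).1))
    (Φ_imm (DiscA2_io_mem j (cj_mem.2 h)).1 (DiscA2_io_mem j (cj_mem.2 h)).2)
    (DiscA2_comp (g := io j) (f := fun z => (pz (cj j z), hz (cj j z))) (DiscA2_io j).1
      (DiscA2_ph_diff.comp (DiscA2_cj j).1) ((DiscA2_io j).2 _)
      (DiscA2_comp (g := fun x => (pz x, hz x)) (f := cj j) DiscA2_ph_diff (DiscA2_cj j).1
        (ph_imm (cj_mem.2 h)) ((DiscA2_cj j).2 _)))

theorem DiscA2_space_inj (j : Fin 2) : InjOn (fun z => (fD j z).1) Disc := by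
  intro z h z' h' he
  have m := cj_mem (j := j).2 h
  have m' := cj_mem (j := j).2 h'
  obtain ⟨h1, k, l, h2⟩ := Φ_inj (DiscA2_io_mem j m).1 (DiscA2_io_mem j m').1
    (DiscA2_io_mem j m).2 (DiscA2_io_mem j m').2 he
  rw [← cj_cj j z, ← cj_cj j z']
  congr 1
  have a1 := congrArg Prod.fst h2
  have a2 := congrArg Prod.snd h2
  unfold io at h1 a1 a2
  split_ifs at h1 a1 a2
  · exact ph_inj m m' (Prod.ext (DiscA2_int (pz_mem m).1 (pz_mem m').1 (Or.inl a1))
      (DiscA2_int (pz_mem m).2 (pz_mem m').2 (Or.inl a2))) h1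
  · exact ph_inj m m' (Prod.ext (DiscA2_int (pz_mem m).1 (pz_mem m').1 (Or.inr a1))
      (DiscA2_int (pz_mem m).2 (pz_mem m').2 (Or.inr a2))) (neg_injective h1)

theorem fD_imm (j : Fin 2) {z : ℂ} (h : z ∈ Disc) : Injective (fderiv ℝ (fD j) z) := by
  have h1 := DiscA2_space_imm j h
  rw [fderiv.fst ((fD_smooth j).differentiable (by simp) z)] at h1
  exact Injective.of_comp (f := Prod.fst) h1
theorem fD_inj (j : Fin 2) : InjOn (fD j) Disc :=
  fun _ h _ h' he => DiscA2_space_inj j h h' (congrArg Prod.fst he)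
theorem fD_space_inj (j : Fin 2) : InjOn (fun z => (fD j z).1) Disc := DiscA2_space_inj j
theorem fD_space_imm (j : Fin 2) {z : ℂ} (h : z ∈ Disc) :
    Injective (fderiv ℝ (fun z => (fD j z).1) z) := DiscA2_space_imm j h
theorem fD_time_mem (j : Fin 2) {z : ℂ} (h : z ∈ Disc) : (fD j z).2 ∈ Icc (0 : ℝ) 1 :=
  Tz_mem (cj_mem.2 h)
theorem fD_pos (j : Fin 2) {z : ℂ} (h : z ∈ oDisc) : 0 < (fD j z).2 := Tz_pos (cj_mem_o.2 h)
theorem fD_bdry (j : Fin 2) (t : ℝ) : fD j (circ t) = (LL j t, 0) :=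
  Prod.ext rfl (Tz_zero ((DiscA2_norm_cj j _).trans (norm_circ t)))

theorem DiscA2_νb_mem (t : ℝ) : 0 ≤ νb t ∧ νb t ≤ 1 := by
  refine ⟨add_nonneg (step_nonneg _ _ _) (step_nonneg _ _ _), ?_⟩
  rcases le_total t 0 with h | h
  · rw [νb, step_of_le (by norm_num) (by linarith), zero_add]
    exact step_le_one _ _ _
  · rw [νb, step_of_le (x := -t) (by norm_num) (by linarith), add_zero]
    exact step_le_one _ _ _

theorem DiscA2_νb_one {t : ℝ} (h : 143 / 100 ≤ |t|) : νb t = 1 := by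
  rcases le_abs.1 h with h | h
  · rw [νb, step_of_ge (by norm_num) h, step_of_le (by norm_num) (by linarith), add_zero]
  · rw [νb, step_of_ge (x := -t) (by norm_num) h, step_of_le (by norm_num) (by linarith), zero_add]

theorem DiscA2_normsq (w p : ℂ) : HasDerivAt (fun r : ℝ => 10 * (1 - ‖w + r • p‖ ^ 2))
    (-20 * (w.re * p.re + w.im * p.im)) 0 := by
  have h : (fun r : ℝ => 10 * (1 - ‖w + r • p‖ ^ 2)) = fun r =>
      10 * (1 - ((w.re + r * p.re) * (w.re + r * p.re) + (w.im + r * p.im) * (w.im + r * p.im))) := by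
    funext r
    rw [Complex.sq_norm, Complex.normSq_apply]
    simp
  have h1 := fun a c : ℝ => ((hasDerivAt_id (0 : ℝ)).mul_const c).const_add a
  rw [h]
  refine ((((h1 _ _).mul (h1 _ _)).add ((h1 _ _).mul (h1 _ _))).const_sub 1).const_mul 10
    |>.congr_deriv ?_
  simp only [id]
  ring

theorem DiscA2_qf_smul (s : ℝ) (p : ℝ × ℝ) : qf (s • p) = s * s * qf p := by
  simp only [qf, Prod.smul_fst, Prod.smul_snd, smul_eq_mul]
  ring

theorem DiscA2_bz_line {w : ℂ} (h : ‖w‖ = 1) :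
    ∃ p c, c ≠ 0 ∧ HasDerivAt (fun r : ℝ => bz (w + r • p)) c 0 := by
  rcases le_or_gt |tz w| (143 / 100) with ht | ht
  · obtain ⟨c, hc, hc'⟩ := DiscA2_ψh_deriv (bdry_main h ht).2
    have hs := ((DiscA2_affine hc (kk w.re * Complex.I.im)).div_const (dd (tz w))).const_sub 1
    have h1 := (((((hs.mul hs).mul_const (qf (Γ (tz w)))).sub_const (16 / 100)).div_const
      (6 / 1000)).const_mul (1 - νb (tz w))).add ((DiscA2_normsq w Complex.I).const_mul (νb (tz w)))
    refine ⟨Complex.I, _, ?_, h1.congr_of_eventuallyEq (Eventually.of_forall fun r => ?_)⟩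
    · have a1 := (sz_mem (z := w) h.le).1
      have a2 := DiscA2_dd_pos (tz w)
      have a3 := DiscA2_kk_pos (z := w) h.le
      have a4 := qf_Γ_pos (tz w)
      obtain ⟨a5, a6⟩ := DiscA2_νb_mem (tz w)
      have a7 : w.im ≠ 0 := fun e => by simp [σz, e] at hc'
      have a8 : 0 < w.im * w.im := mul_self_pos.2 a7
      simp only [Complex.I_im, Complex.I_re, mul_one, mul_zero, zero_mul, add_zero, zero_add]
      generalize 1 - ψh (σz w) / dd (tz w) = s at a1
      have a9 : 0 < c * σz w / dd (tz w) * s * qf (Γ (tz w)) := by positivity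
      intro e
      have e' := congrArg (· * w.im) e
      have b1 : ((1 - νb (tz w)) * ((-(c * kk w.re / dd (tz w)) * s +
          s * -(c * kk w.re / dd (tz w))) * qf (Γ (tz w)) / (6 / 1000)) +
          νb (tz w) * (-20 * w.im)) * w.im =
          -((1 - νb (tz w)) * (1000 / 3 * (c * σz w / dd (tz w) * s * qf (Γ (tz w)))) +
            νb (tz w) * (20 * (w.im * w.im))) := by
        rw [σz]
        ring
      simp only [b1, zero_mul, neg_eq_zero] at e'
      rcases a5.eq_or_lt with b2 | b2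
      · rw [← b2] at e'
        linarith
      · have b3 : 0 ≤ (1 - νb (tz w)) * (1000 / 3 * (c * σz w / dd (tz w) * s * qf (Γ (tz w)))) :=
          mul_nonneg (sub_nonneg.2 a6) (by positivity)
        have b4 : 0 < νb (tz w) * (20 * (w.im * w.im)) := by positivity
        linarith
    · simp only [bz, pz, DiscA2_qf_smul, (DiscA2_vert w Complex.I_re r).1,
        (DiscA2_vert w Complex.I_re r).2, Pi.add_apply, Pi.mul_apply]
  · refine ⟨w, _, ?_, (DiscA2_normsq w w).congr_of_eventuallyEq ?_⟩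
    · rw [← Complex.normSq_apply, ← Complex.sq_norm, h]
      norm_num
    · have h1 : Continuous fun r : ℝ => |tz (w + r • w)| := by
        unfold tz
        fun_prop
      have h2 : ∀ᶠ r : ℝ in 𝓝 0, 143 / 100 < |tz (w + r • w)| :=
        (isOpen_lt continuous_const h1).mem_nhds (by simpa using ht)
      filter_upwards [h2] with r hr
      rw [bz, DiscA2_νb_one hr.le]
      ring

theorem DiscA2_bz_zero {w : ℂ} (h : ‖w‖ = 1) : bz w = 0 := by
  rcases le_total |tz w| (143 / 100) with ht | ht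
  · rw [bz, (bdry_main h ht).1, h]
    ring
  · rw [bz, DiscA2_νb_one ht, h]
    ring

theorem DiscA2_fac_pos {w : ℂ} (h : ‖w‖ = 1) :
    0 < 1 - 1 / 3 * (χX (pz w).1 * χh (hz w)) - 2 / 3 * (χX (pz w).2 * χh (hz w)) := by
  rcases le_total |tz w| (143 / 100) with ht | ht
  · have h1 : χh (hz w) = 0 := by
      rw [χh_eq_zero_iff, hz]
      rcases le_abs.1 (bdry_main h ht).2 with h2 | h2
      · rw [Hs_of_ge h2]
        norm_num
      · rw [Hs_of_le (by linarith)]
        norm_num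
    rw [h1]
    norm_num
  · have h1 : ∀ x, χX x * χh (hz w) ≤ 1 := fun x =>
      mul_le_one₀ (χX_mem x).2 (χh_mem _).1 (χh_mem _).2
    have h2 := (sz_mem (z := w) h.le).1
    rcases le_abs.1 ht with h3 | h3
    · have h4 : χX (pz w).2 = 0 := χX_eq_zero (Or.inr (by
        simp only [pz, Γ, Prod.smul_snd, smul_eq_mul]
        rw [gg_left (by linarith)]
        linarith))
      rw [h4]
      linarith [h1 (pz w).1]
    · have h4 : χX (pz w).1 = 0 := χX_eq_zero (Or.inr (by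
        simp only [pz, Γ, Prod.smul_fst, smul_eq_mul]
        rw [gg_left (by linarith)]
        linarith))
      rw [h4]
      linarith [h1 (pz w).2]

theorem DiscA2_Tz_line {w : ℂ} (h : ‖w‖ = 1) :
    ∃ p c, c ≠ 0 ∧ HasDerivAt (fun r : ℝ => Tz (w + r • p)) c 0 := by
  obtain ⟨p, c, hc, h1⟩ := DiscA2_bz_line h
  have hP : ContDiff ℝ ∞ fun z =>
      1 - 1 / 3 * (χX (pz z).1 * χh (hz z)) - 2 / 3 * (χX (pz z).2 * χh (hz z)) :=
    (contDiff_const.sub (contDiff_const.mul ((χX_contDiff.comp pz_smooth.fst).mul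
      (χh_contDiff.comp hz_smooth)))).sub (contDiff_const.mul
      ((χX_contDiff.comp pz_smooth.snd).mul (χh_contDiff.comp hz_smooth)))
  have h2 := DiscA2_line (hP.differentiable (by simp) w) p
  have h3 := HasDerivAt.comp_of_eq 0 (Hs_hasDerivAt 0) h1 (by simp [DiscA2_bz_zero h])
  refine ⟨p, _, ?_, h3.mul h2⟩
  simp only [comp_apply, zero_smul, add_zero, DiscA2_bz_zero h]
  rw [Hs_of_abs_le (σ := 0) (by norm_num), zero_mul, add_zero]
  exact mul_ne_zero (mul_ne_zero (Hs_deriv_pos (by norm_num)).ne' hc) (DiscA2_fac_pos h).ne'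

theorem fD_neat (j : Fin 2) {z : ℂ} (h : ‖z‖ = 1) : ∃ p, (fderiv ℝ (fD j) z p).2 ≠ 0 := by
  obtain ⟨p, c, hc, h1⟩ := DiscA2_Tz_line ((DiscA2_norm_cj j z).trans h)
  refine ⟨cj j p, ?_⟩
  have h2 := (DiscA2_pair (DiscA2_line ((fD_smooth j).differentiable (by simp) z) (cj j p))).2
  simp only [fD, DiscA2_cj_line] at h2
  rwa [h2.unique h1]

end Pool.Agent.Lib.MP_1d0d1b_gt
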