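import Pool.Agent.Lib.MP_1d0d1b_gt.Gamma

open Set Function Filter Topology
open scoped ContDiff Real

noncomputable section

namespace Pool.Agent.Lib.MP_1d0d1b_gt

private theorem re_sm : ContDiff ℝ ∞ (fun z : ℂ => z.re) := Complex.reCLM.contDiff

private theorem tz_sm : ContDiff ℝ ∞ tz := contDiff_const.mul re_sm

private theorem dd_pos (t : ℝ) : 0 < dd t := lt_of_lt_of_le (by norm_num) (dd_mem t).1

theorem σz_smooth : ContDiff ℝ ∞ σz := (kk_contDiff.comp re_sm).mul Complex.imCLM.contDiff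
theorem pz_smooth : ContDiff ℝ ∞ pz :=
  (contDiff_const.sub ((ψh_contDiff.comp σz_smooth).div (dd_contDiff.comp tz_sm)
    fun _ => (dd_pos _).ne')).smul (Γ_contDiff.comp tz_sm)
theorem hz_smooth : ContDiff ℝ ∞ hz := contDiff_const.add (Hs_contDiff.comp σz_smooth)
theorem Tz_smooth : ContDiff ℝ ∞ Tz := by
  have h1 : ContDiff ℝ ∞ νb :=
    (step_contDiff _ _).add ((step_contDiff _ _).comp contDiff_neg)
  have h2 : ContDiff ℝ ∞ qf := by unfold qf; fun_prop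
  have h3 : ContDiff ℝ ∞ bz :=
    ((contDiff_const.sub (h1.comp tz_sm)).mul
      (((h2.comp pz_smooth).sub contDiff_const).div_const _)).add
      ((h1.comp tz_sm).mul (contDiff_const.mul (contDiff_const.sub (contDiff_norm_sq ℝ))))
  have h4 := χh_contDiff.comp hz_smooth
  exact (Hs_contDiff.comp h3).mul ((contDiff_const.sub (contDiff_const.mul
    ((χX_contDiff.comp pz_smooth.fst).mul h4))).sub
    (contDiff_const.mul ((χX_contDiff.comp pz_smooth.snd).mul h4)))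
theorem fD_smooth (j : Fin 2) : ContDiff ℝ ∞ (fD j) := by
  have h1 : ContDiff ℝ ∞ (cj j) := by
    unfold cj
    split_ifs
    · exact contDiff_id
    · exact Complex.conjCLE.contDiff
  have h2 : ContDiff ℝ ∞ (io j) := by
    unfold io
    split_ifs
    · exact contDiff_id
    · exact contDiff_neg
  exact (Φ_smooth.comp (h2.comp ((pz_smooth.comp h1).prodMk (hz_smooth.comp h1)))).prodMk
    (Tz_smooth.comp h1)

private theorem norm_cj (j : Fin 2) (z : ℂ) : ‖cj j z‖ = ‖z‖ := by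
  unfold cj
  split_ifs <;> simp

theorem cj_mem {j : Fin 2} {z : ℂ} : cj j z ∈ Disc ↔ z ∈ Disc := by
  simp only [Disc, mem_ofPred_eq, norm_cj]
theorem cj_mem_o {j : Fin 2} {z : ℂ} : cj j z ∈ oDisc ↔ z ∈ oDisc := by
  simp only [oDisc, mem_ofPred_eq, norm_cj]
theorem cj_cj (j : Fin 2) (z : ℂ) : cj j (cj j z) = z := by
  unfold cj
  split_ifs <;> simp

private theorem re_le {z : ℂ} (h : z ∈ Disc) : |z.re| ≤ 1 := (Complex.abs_re_le_norm z).trans h

private theorem tz_le {z : ℂ} (h : z ∈ Disc) : |tz z| ≤ 37 / 20 := by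
  have := re_le h
  rw [tz, abs_mul, abs_of_pos (by norm_num : (0 : ℝ) < 37 / 20)]
  linarith

private theorem sq_eq (z : ℂ) : z.im ^ 2 = ‖z‖ ^ 2 - z.re ^ 2 := by
  rw [Complex.sq_norm, Complex.normSq_apply]
  ring

private theorem abs_σz {z : ℂ} (h : z ∈ Disc) : |σz z| = kk z.re * |z.im| := by
  rw [σz, abs_mul, abs_of_pos (by linarith [kk_ge (re_le h)])]

theorem abs_σz_le {z : ℂ} (h : z ∈ Disc) : |σz z| ≤ kk z.re * √(1 - z.re ^ 2) := by
  rw [abs_σz h]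
  refine mul_le_mul_of_nonneg_left (Real.abs_le_sqrt ?_) (by linarith [kk_ge (re_le h)])
  rw [sq_eq]
  have : ‖z‖ ≤ 1 := h
  nlinarith [norm_nonneg z]

private theorem abs_σz_lt {z : ℂ} (h : z ∈ oDisc) : |σz z| < kk z.re * √(1 - z.re ^ 2) := by
  have h' := oDisc_subset h
  rw [abs_σz h']
  refine mul_lt_mul_of_pos_left (Real.lt_sqrt_of_sq_lt ?_) (by linarith [kk_ge (re_le h')])
  rw [sq_abs, sq_eq]
  have : ‖z‖ < 1 := h
  nlinarith [norm_nonneg z]

private theorem abs_σz_eq {z : ℂ} (h : ‖z‖ = 1) : |σz z| = kk z.re * √(1 - z.re ^ 2) := by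
  rw [abs_σz h.le, ← Real.sqrt_sq_eq_abs, sq_eq, h, one_pow]

private theorem ψh_nonneg (σ : ℝ) : 0 ≤ ψh σ := by
  rw [ψh_eq]
  exact div_nonneg (ramp_nonneg _) (by norm_num)

private theorem ψh_σL' {t : ℝ} (h : |t| ≤ 143 / 100) : ψh (σL t) = ramp (σL t - 9 / 10) / 100 := by
  rw [ψh_eq, abs_of_pos (by linarith [σL_ge (t := t) (by linarith)])]

private theorem main_ge {z : ℂ} (h : z ∈ Disc) (ht : |tz z| ≤ 143 / 100) :
    (2 / 5) / √(qf (Γ (tz z))) ≤ 1 - ψh (σz z) / dd (tz z) := by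
  have h1 : |σz z| ≤ σL (tz z) := (abs_σz_le h).trans_eq (kk_main ht)
  rw [← ψh_σL (by linarith), ψh_σL' ht, ψh_eq]
  have := ramp_mono (sub_le_sub_right h1 (9 / 10))
  have := dd_pos (tz z)
  gcongr

private theorem main_gt {z : ℂ} (h : z ∈ oDisc) (ht : |tz z| ≤ 143 / 100) :
    (2 / 5) / √(qf (Γ (tz z))) < 1 - ψh (σz z) / dd (tz z) := by
  have h1 : |σz z| < σL (tz z) := (abs_σz_lt h).trans_eq (kk_main ht)
  have h2 := σL_ge (t := tz z) (by linarith)
  rw [← ψh_σL (by linarith), ψh_σL' ht, ψh_eq]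
  have : ramp (|σz z| - 9 / 10) < ramp (σL (tz z) - 9 / 10) := by
    rcases le_total (|σz z| - 9 / 10) 0 with a | a
    · rw [ramp_of_nonpos a]
      exact ramp_pos (by linarith)
    · exact ramp_strictMonoOn a (show (0 : ℝ) ≤ _ by linarith) (by linarith)
  have := dd_pos (tz z)
  gcongr

private theorem c_pos (t : ℝ) : 0 < (2 / 5) / √(qf (Γ t)) :=
  div_pos (by norm_num) (Real.sqrt_pos.2 (qf_Γ_pos t))

private theorem c_sq (t : ℝ) : ((2 / 5) / √(qf (Γ t))) ^ 2 * qf (Γ t) = 16 / 100 := by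
  have := qf_Γ_pos t
  rw [div_pow, Real.sq_sqrt this.le]
  field_simp
  norm_num

private theorem qf_pz (z : ℂ) :
    qf (pz z) = (1 - ψh (σz z) / dd (tz z)) ^ 2 * qf (Γ (tz z)) := by
  simp only [qf, pz, Prod.smul_fst, Prod.smul_snd, smul_eq_mul]
  ring

private theorem tip {z : ℂ} (h : z ∈ Disc) (ht : 140 / 100 ≤ |tz z|) :
    2 / 3 ≤ 1 - ψh (σz z) / dd (tz z) := by
  have h1 : |σz z| ≤ 21 / 2 := (abs_σz_le h).trans (kk_tip_le ht (re_le h))
  have h2 := (ramp_mono (sub_le_sub_right h1 (9 / 10))).trans (ramp_le (by norm_num))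
  rw [dd_of_ge (by linarith), ψh_eq]
  linarith

/-- The radial factor. -/
theorem sz_mem {z : ℂ} (h : z ∈ Disc) : 1 - ψh (σz z) / dd (tz z) ∈ Ioc (0 : ℝ) 1 := by
  refine ⟨?_, sub_le_self _ (div_nonneg (ψh_nonneg _) (dd_pos _).le)⟩
  rcases le_total |tz z| (143 / 100) with a | a
  · exact (c_pos _).trans_le (main_ge h a)
  · linarith [tip h (by linarith)]
theorem sz_tip {z : ℂ} (h : z ∈ Disc) (ht : 140 / 100 ≤ |tz z|) :
    2 / 3 ≤ 1 - ψh (σz z) / dd (tz z) := tip h ht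
theorem pz_mem {z : ℂ} (h : z ∈ Disc) :
    (pz z).1 ∈ Icc (-69 / 100 : ℝ) (29 / 100) ∧ (pz z).2 ∈ Icc (-69 / 100 : ℝ) (29 / 100) := by
  obtain ⟨s0, s1⟩ := sz_mem h
  obtain ⟨t0, t1⟩ := abs_le.1 (tz_le h)
  obtain ⟨a0, a1⟩ := gg_mem (t := tz z) (by linarith)
  obtain ⟨b0, b1⟩ := gg_mem (t := -tz z) (by linarith)
  simp only [pz, Γ, Prod.smul_mk, smul_eq_mul, mem_Icc]
  generalize 1 - ψh (σz z) / dd (tz z) = s at s0 s1
  refine ⟨⟨?_, ?_⟩, ?_, ?_⟩ <;> nlinarith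
theorem qf_pz_main {z : ℂ} (h : z ∈ Disc) (ht : |tz z| ≤ 143 / 100) : 16 / 100 ≤ qf (pz z) := by
  rw [qf_pz, ← c_sq (tz z)]
  exact mul_le_mul_of_nonneg_right (pow_le_pow_left₀ (c_pos _).le (main_ge h ht) 2)
    (qf_Γ_pos _).le

private theorem qf_Γ_tip {t : ℝ} (h : 97 / 100 ≤ |t|) :
    qf (Γ t) = ((|t| - 136 / 100) / 2) ^ 2 + (|t| - 194 / 100) ^ 2 := by
  rcases le_total 0 t with a | a
  · rw [abs_of_nonneg a] at h ⊢
    simp only [qf, Γ]
    rw [gg_up h, gg_left (by linarith)]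
    ring
  · rw [abs_of_nonpos a] at h ⊢
    simp only [qf, Γ]
    rw [gg_up h, gg_left (by linarith)]
    ring

theorem qf_pz_ge {z : ℂ} (h : z ∈ Disc) : 2 / 100 ≤ qf (pz z) := by
  rcases le_total |tz z| (143 / 100) with a | a
  · linarith [qf_pz_main h a]
  · have h1 := tip h (by linarith)
    have h2 : 6 / 100 ≤ qf (Γ (tz z)) := by
      rw [qf_Γ_tip (by linarith)]
      nlinarith [sq_nonneg (|tz z| - 1824 / 1000)]
    rw [qf_pz]
    have := mul_le_mul (pow_le_pow_left₀ (by norm_num) h1 2) h2 (by norm_num) (sq_nonneg _)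
    linarith
theorem pz_Dom {z : ℂ} (h : z ∈ Disc) : pz z ∈ Dom := by
  obtain ⟨⟨a0, a1⟩, b0, b1⟩ := pz_mem h
  exact mem_Dom_of_qf (by linarith [qf_pz_ge h]) (abs_le.2 ⟨by linarith, by linarith⟩)
    (abs_le.2 ⟨by linarith, by linarith⟩)
theorem hz_mem (z : ℂ) : hz z ∈ Icc (-3 / 2 : ℝ) (1 / 2) := by
  obtain ⟨a, b⟩ := abs_le.1 (abs_Hs_le (σz z))
  rw [hz]
  exact ⟨by linarith, by linarith⟩

private theorem νb_abs (t : ℝ) : νb t = step (140 / 100) (143 / 100) |t| := by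
  rcases le_total 0 t with a | a
  · rw [νb, abs_of_nonneg a, step_of_le (x := -t) (by norm_num) (by linarith), add_zero]
  · rw [νb, abs_of_nonpos a, step_of_le (x := t) (by norm_num) (by linarith), zero_add]

private theorem νb_one {t : ℝ} (h : 143 / 100 ≤ |t|) : νb t = 1 := by
  rw [νb_abs, step_of_ge (by norm_num) h]

private theorem νb_mem (t : ℝ) : 0 ≤ νb t ∧ νb t ≤ 1 := by
  rw [νb_abs]
  exact ⟨step_nonneg _ _ _, step_le_one _ _ _⟩

private theorem Hs_zero : Hs 0 = 0 := Hs_of_abs_le (by norm_num)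

private theorem bdry {z : ℂ} (h : ‖z‖ = 1) (ht : |tz z| ≤ 143 / 100) :
    qf (pz z) = 16 / 100 ∧ 1 ≤ |σz z| := by
  have h1 : |σz z| = σL (tz z) := (abs_σz_eq h).trans (kk_main ht)
  refine ⟨?_, by linarith [σL_ge (t := tz z) (by linarith)]⟩
  rw [qf_pz, ψh_eq, h1, ← ψh_σL' ht, ψh_σL (by linarith), c_sq]

theorem Tz_mem {z : ℂ} (h : z ∈ Disc) : Tz z ∈ Icc (0 : ℝ) 1 := by
  have h0 : 0 ≤ 1 - ‖z‖ ^ 2 := by
    have : ‖z‖ ≤ 1 := h
    nlinarith [norm_nonneg z]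
  have h1 : 0 ≤ bz z := by
    obtain ⟨a0, a1⟩ := νb_mem (tz z)
    refine add_nonneg ?_ (by positivity)
    rcases le_total |tz z| (143 / 100) with a | a
    · exact mul_nonneg (by linarith) (div_nonneg (by linarith [qf_pz_main h a]) (by norm_num))
    · rw [νb_one a, sub_self, zero_mul]
  have h2 : 0 ≤ Hs (bz z) := Hs_zero.ge.trans (Hs_mono h1)
  have h3 : Hs (bz z) ≤ 1 := (le_abs_self _).trans (abs_Hs_le _)
  obtain ⟨a0, a1⟩ := χX_mem (pz z).1
  obtain ⟨b0, b1⟩ := χX_mem (pz z).2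
  obtain ⟨c0, c1⟩ := χh_mem (hz z)
  have d0 := mul_nonneg a0 c0
  have d1 := mul_le_one₀ a1 c0 c1
  have e0 := mul_nonneg b0 c0
  have e1 := mul_le_one₀ b1 c0 c1
  exact ⟨mul_nonneg h2 (by linarith), mul_le_one₀ h3 (by linarith) (by linarith)⟩

private theorem χX_gg {t : ℝ} (h : 0 ≤ t) : χX (gg t) = 0 ∨ χX (gg (-t)) = 0 := by
  rcases le_total t (97 / 100) with a | a
  · exact .inl (χX_eq_zero (.inl (by linarith [(gg_low ⟨h, a⟩).2])))
  · exact .inr (χX_eq_zero (.inr (by rw [gg_left (by linarith)]; norm_num)))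

theorem Tz_pos {z : ℂ} (h : z ∈ oDisc) : 0 < Tz z := by
  have h0 : 0 < 10 * (1 - ‖z‖ ^ 2) := by
    have : ‖z‖ < 1 := h
    nlinarith [norm_nonneg z]
  have h1 : 0 < bz z := by
    obtain ⟨a0, a1⟩ := νb_mem (tz z)
    rw [bz]
    rcases le_total |tz z| (143 / 100) with a | a
    · have a2 : 16 / 100 < qf (pz z) := by
        rw [qf_pz, ← c_sq (tz z)]
        exact mul_lt_mul_of_pos_right (pow_lt_pow_left₀ (main_gt h a) (c_pos _).le two_ne_zero)
          (qf_Γ_pos _)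
      have a3 : 0 < (qf (pz z) - 16 / 100) / (6 / 1000) := div_pos (by linarith) (by norm_num)
      rcases a0.eq_or_lt with a4 | a4
      · rw [← a4]
        linarith
      · exact add_pos_of_nonneg_of_pos (mul_nonneg (by linarith) a3.le) (mul_pos a4 h0)
    · rw [νb_one a]
      linarith
  refine mul_pos (Hs_pos h1) ?_
  obtain ⟨a0, a1⟩ := χX_mem (pz z).1
  obtain ⟨b0, b1⟩ := χX_mem (pz z).2
  obtain ⟨c0, c1⟩ := χh_mem (hz z)
  have d1 := mul_le_one₀ a1 c0 c1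
  have e1 := mul_le_one₀ b1 c0 c1
  by_cases hc : χh (hz z) = 0
  · rw [hc]
    norm_num
  have h2 : |σz z| ≤ 9 / 10 := by
    rw [χh_eq_zero_iff, hz, not_or, not_le, not_le] at hc
    exact (abs_Hs_le_iff _).1 (abs_le.2 ⟨by linarith [hc.1], by linarith [hc.2]⟩)
  have h3 : pz z = (gg (tz z), gg (-tz z)) := by
    rw [pz, ψh_eq, ramp_of_nonpos (by linarith)]
    simp [Γ]
  have h4 : χX (pz z).1 = 0 ∨ χX (pz z).2 = 0 := by
    rw [h3]
    rcases le_total 0 (tz z) with a | a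
    · exact χX_gg a
    · simpa using (χX_gg (neg_nonneg.2 a)).symm
  rcases h4 with a | a <;> rw [a] <;> linarith
theorem Tz_zero {z : ℂ} (h : ‖z‖ = 1) : Tz z = 0 := by
  have h1 : bz z = 0 := by
    rw [bz, h]
    rcases le_total |tz z| (143 / 100) with a | a
    · rw [(bdry h a).1]
      norm_num
    · rw [νb_one a]
      norm_num
  rw [Tz, h1, Hs_zero, zero_mul]
theorem qf_pz_bdry {z : ℂ} (h : ‖z‖ = 1) : qf (pz z) ≤ 16 / 100 := by
  obtain ⟨s0, s1⟩ := sz_mem (z := z) h.le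
  rcases le_total |tz z| (143 / 100) with a | a
  · exact (bdry h a).1.le
  rw [qf_pz]
  rcases le_total |tz z| (16 / 10) with b | b
  · have h1 : σL (tz z) ≤ |σz z| := (kk_tip_ge a b).trans_eq (abs_σz_eq h).symm
    have h2 : 5 * (1 / 2) ≤ |σz z| := by
      rw [abs_σz_eq h]
      have := kk_ge (re_le (z := z) h.le)
      refine mul_le_mul this (Real.le_sqrt_of_sq_le ?_) (by norm_num) (by linarith)
      obtain ⟨c0, c1⟩ := abs_le.1 b
      rw [tz] at c0 c1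
      nlinarith
    have h3 : 1 - ψh (σz z) / dd (tz z) ≤ (2 / 5) / √(qf (Γ (tz z))) := by
      rw [ψh_eq, ramp_of_ge (by linarith), sub_le_comm, le_div_iff₀ (dd_pos _)]
      rw [σL] at h1
      linarith
    rw [← c_sq (tz z)]
    exact mul_le_mul_of_nonneg_right (pow_le_pow_left₀ s0.le h3 2) (qf_Γ_pos _).le
  · have h1 := tz_le (z := z) h.le
    have h2 : qf (Γ (tz z)) ≤ 16 / 100 := by
      rw [qf_Γ_tip (by linarith)]
      nlinarith
    exact (mul_le_of_le_one_left (qf_Γ_pos _).le (pow_le_one₀ s0.le s1)).trans h2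
theorem bdry_main {z : ℂ} (h : ‖z‖ = 1) (ht : |tz z| ≤ 143 / 100) :
    qf (pz z) = 16 / 100 ∧ 1 ≤ |σz z| := bdry h ht

end Pool.Agent.Lib.MP_1d0d1b_gt
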