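import Pool.Agent.Lib.MP_1d0d1b_gt.DiscB1

open Set Function Filter Topology
open scoped ContDiff Real

noncomputable section

namespace Pool.Agent.Lib.MP_1d0d1b_gt

private theorem hz_add (z : ℂ) : hz z + 1 / 2 = Hs (σz z) := by
  unfold hz
  ring

theorem class_plateau {z : ℂ} (hh : |hz z + 1 / 2| ≤ 9 / 10) : pz z = Γ (tz z) := by
  rw [hz_add, abs_Hs_le_iff] at hh
  rw [pz, ψh_eq, ramp_of_nonpos (sub_nonpos.2 hh), zero_div, zero_div, sub_zero, one_smul]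

private theorem qf_smul (s : ℝ) (p : ℝ × ℝ) : qf (s • p) = s ^ 2 * qf p := by
  simp only [qf, Prod.smul_fst, Prod.smul_snd, smul_eq_mul]
  ring

private theorem qf_sw (ty : Bool) (p : ℝ × ℝ) : qf (sw ty p) = qf p := by
  cases ty
  · rfl
  · simp only [sw, qf, if_true]
    ring

private theorem sw_smul_Γ (ty : Bool) (s t : ℝ) : ∃ t', |t'| = |t| ∧
    sw ty (s • Γ t) = (s * gg (-t'), s * gg t') := by
  cases ty
  · exact ⟨-t, abs_neg t, by simp [sw, Γ]⟩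
  · exact ⟨t, rfl, by simp [sw, Γ]⟩

private theorem gg_other {t : ℝ} (h : gg t ∈ Icc (-33 / 100 : ℝ) (-27 / 100)) :
    gg (-t) = -69 / 100 ∨ gg (-t) = 29 / 100 := by
  obtain ⟨h1, h2⟩ := h
  rcases le_total t (-97 / 100) with a | a
  · linarith [gg_left a]
  rcases le_total t (-96 / 100) with b | b
  · linarith [(gg_corner1 ⟨a, b⟩).1]
  rcases le_total t 0 with c | c
  · rw [gg_down ⟨b, c⟩] at h1 h2
    exact Or.inl (gg_flat ⟨by linarith, by linarith⟩)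
  rcases le_total t (97 / 100) with d | d
  · linarith [(gg_low ⟨c, d⟩).2]
  · exact Or.inr (gg_left (by linarith))

theorem class_other {z : ℂ} (hz' : z ∈ Disc) (ty : Bool)
    (h : (sw ty (pz z)).2 ∈ Icc (-33 / 100 : ℝ) (-27 / 100)) :
    16 / 100 ≤ qf (pz z) ∧
    (((hz z = 1 / 2 ∨ hz z = -3 / 2) ∧ Tz z = Hs ((qf (pz z) - 16 / 100) / (6 / 1000))) ∨
      (9 / 10 < |hz z + 1 / 2| ∧ |hz z + 1 / 2| < 1 ∧ Tz z = 1) ∨
      (|hz z + 1 / 2| ≤ 9 / 10 ∧ ((sw ty (pz z)).1 = -69 / 100 ∨ (sw ty (pz z)).1 = 29 / 100) ∧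
        Tz z = 1 - cT (!ty) * χh (hz z))) := by
  have ht : |tz z| ≤ 140 / 100 := by
    by_contra hn
    have h1 := (not_le.1 hn).le
    have h2 := sz_tip hz' h1
    have h3 := (sz_mem hz').2
    obtain ⟨t, e1, e2⟩ := sw_smul_Γ ty (1 - ψh (σz z) / dd (tz z)) (tz z)
    rw [pz, e2] at h
    have h4 := h.2
    rw [← e1, le_abs'] at h1
    rcases h1 with h1 | h1
    · rw [gg_left (t := t) (by linarith)] at h4
      dsimp only at h4
      linarith
    · rw [gg_up (t := t) (by linarith)] at h4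
      dsimp only at h4
      nlinarith
  have hb : bz z = (qf (pz z) - 16 / 100) / (6 / 1000) := by
    rw [abs_le] at ht
    rw [bz, νb, step_of_le (by norm_num) ht.2, step_of_le (by norm_num) (by linarith)]
    ring
  have hq := qf_Γ_main' (ht.trans (by norm_num))
  refine ⟨qf_pz_main hz' (ht.trans (by norm_num)), ?_⟩
  rcases le_or_gt |σz z| (9 / 10) with h1 | h1
  · have h2 : |hz z + 1 / 2| ≤ 9 / 10 := by rwa [hz_add, abs_Hs_le_iff]
    have h3 := class_plateau h2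
    have h4 : (sw ty (pz z)).1 = -69 / 100 ∨ (sw ty (pz z)).1 = 29 / 100 := by
      obtain ⟨t, -, e2⟩ := sw_smul_Γ ty 1 (tz z)
      rw [one_smul, ← h3, one_mul, one_mul] at e2
      rw [e2] at h ⊢
      exact gg_other h
    have h5 : χX (sw ty (pz z)).1 = 0 := χX_eq_zero (h4.imp (fun e => by linarith) fun e => by linarith)
    have h6 : χX (sw ty (pz z)).2 = 1 := χX_eq_one ⟨by linarith [h.1], by linarith [h.2]⟩
    refine Or.inr (Or.inr ⟨h2, h4, ?_⟩)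
    rw [Tz, Hs_of_ge (by rw [hb, h3]; linarith)]
    cases ty
    · change χX (pz z).1 = 0 at h5
      change χX (pz z).2 = 1 at h6
      simp [h5, h6, cT]
    · change χX (pz z).2 = 0 at h5
      change χX (pz z).1 = 1 at h6
      simp [h5, h6, cT]
  have h2 : 9 / 10 < |hz z + 1 / 2| := by
    rw [hz_add]
    exact not_le.1 fun h => h1.not_ge ((abs_Hs_le_iff _).1 h)
  have h3 : Tz z = Hs ((qf (pz z) - 16 / 100) / (6 / 1000)) := by
    rw [Tz, hb, (χh_eq_zero_iff _).2 ((lt_abs.1 h2).symm.imp (fun e => by linarith)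
      fun e => by linarith)]
    ring
  rcases lt_or_ge |σz z| 1 with h4 | h4
  · refine Or.inr (Or.inl ⟨h2, by rwa [hz_add, abs_Hs_lt_one_iff], ?_⟩)
    rw [h3]
    refine Hs_of_ge ?_
    have h5 : ψh (σz z) / dd (tz z) ≤ 1 / 100 := by
      have := (dd_mem (tz z)).1
      rw [div_le_iff₀ (by linarith), ψh_eq]
      linarith [ramp_le (u := |σz z| - 9 / 10) (by linarith)]
    have h6 : (9 / 10 : ℝ) ^ 2 ≤ (1 - ψh (σz z) / dd (tz z)) ^ 2 :=
      pow_le_pow_left₀ (by norm_num) (by linarith) 2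
    rw [pz, qf_smul]
    nlinarith
  · refine Or.inl ⟨?_, h3⟩
    rcases le_abs'.1 h4 with h5 | h5
    · exact Or.inr (by rw [hz, Hs_of_le h5]; norm_num)
    · exact Or.inl (by rw [hz, Hs_of_ge h5]; norm_num)

private theorem fD_slot (a : Rt) (z : ℂ) : (fD a.1 z).1 =
    Φa a (sw a.2 (pz (cj a.1 z))).1 (sw a.2 (pz (cj a.1 z))).2 (hz (cj a.1 z)) := by
  obtain ⟨j, ty⟩ := a
  cases ty <;> rfl

private theorem sw_pz_mem {z : ℂ} (h : z ∈ Disc) (ty : Bool) :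
    (sw ty (pz z)).1 ∈ Icc (-69 / 100 : ℝ) (29 / 100) ∧
      (sw ty (pz z)).2 ∈ Icc (-69 / 100 : ℝ) (29 / 100) := by
  cases ty
  exacts [pz_mem h, (pz_mem h).symm]

private theorem abs_hz_le (z : ℂ) : |hz z| ≤ 3 :=
  abs_le.2 ⟨by linarith [(hz_mem z).1], by linarith [(hz_mem z).2]⟩

private theorem int_cases {k : ℤ} (h1 : (-2 : ℝ) < k) (h2 : (k : ℝ) < 1) :
    (k : ℝ) = 0 ∨ (k : ℝ) = -1 := by
  have h3 : -2 < k := by exact_mod_cast h1
  have h4 : k < 1 := by exact_mod_cast h2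
  obtain rfl | rfl : k = 0 ∨ k = -1 := by omega
  all_goals simp

/-- In its own slot a disc consists of the two walls. -/
theorem onD_same (a : Rt) {X y h τ : ℝ} (hy : y ∈ Icc (29 / 100 : ℝ) (31 / 100)) (hh : |h| ≤ 3)
    {z : ℂ} (hz' : z ∈ Disc) (he : ((Φa a X y h, τ) : E4) = fD a.1 z) :
    y = 29 / 100 ∨ y = 31 / 100 := by
  obtain ⟨y1, y2⟩ := hy
  have hw : cj a.1 z ∈ Disc := cj_mem.2 hz'
  have hD : (X, y) ∈ Dom := mem_Dom_snd (le_abs.2 (Or.inl (by linarith)))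
    (abs_le.2 ⟨by linarith, by linarith⟩)
  obtain ⟨-, k, l, -, h1⟩ := Φa_inj_same a (X' := (sw a.2 (pz (cj a.1 z))).1)
    (y' := (sw a.2 (pz (cj a.1 z))).2) hD (sw_mem_Dom a.2 (pz_Dom hw)) hh (abs_hz_le _)
    ((congrArg Prod.fst he).trans (fD_slot a z))
  obtain ⟨h2, h3⟩ := (sw_pz_mem hw a.2).2
  rcases int_cases (k := l) (by linarith) (by linarith) with e | e
  · exact Or.inl (by linarith)
  · exact Or.inr (by linarith)

theorem qf_xp {R y : ℝ} (h : 0 ≤ 5 * R - 4 * y ^ 2) : qf (xp R y, y) = R := by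
  have := Real.sq_sqrt h
  simp only [qf, xp]
  nlinarith

theorem qf_xm {R y : ℝ} (h : 0 ≤ 5 * R - 4 * y ^ 2) : qf (xm R y, y) = R := by
  have := Real.sq_sqrt h
  simp only [qf, xm]
  nlinarith

private theorem qf_root (x y : ℝ) : x = xp (qf (x, y)) y ∨ x = xm (qf (x, y)) y := by
  have h : 5 * qf (x, y) - 4 * y ^ 2 = ((5 * x - 3 * y) / 2) ^ 2 := by
    simp only [qf]
    ring
  rw [xp, xm, h, Real.sqrt_sq_eq_abs]
  rcases abs_choice ((5 * x - 3 * y) / 2) with e | e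
  · exact Or.inl (by linarith)
  · exact Or.inr (by linarith)

theorem xp_mem {R y : ℝ} (hR : R ∈ Icc (16 / 100 : ℝ) (166 / 1000))
    (hy : y ∈ Icc (28 / 100 : ℝ) (32 / 100)) : xp R y - 1 ∈ Icc (-57 / 100 : ℝ) (-53 / 100) := by
  obtain ⟨r1, r2⟩ := hR
  obtain ⟨y1, y2⟩ := hy
  have h1 : (215 / 100 - 3 * y) / 2 ≤ √(5 * R - 4 * y ^ 2) := Real.le_sqrt_of_sq_le (by nlinarith)
  have h2 : √(5 * R - 4 * y ^ 2) ≤ (235 / 100 - 3 * y) / 2 :=
    Real.sqrt_le_iff.2 ⟨by linarith, by nlinarith [sq_nonneg (y - 282 / 1000)]⟩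
  unfold xp
  constructor <;> linarith

theorem xm_mem {R y : ℝ} (hR : R ∈ Icc (16 / 100 : ℝ) (166 / 1000))
    (hy : y ∈ Icc (28 / 100 : ℝ) (32 / 100)) : xm R y ∈ Icc (-13 / 100 : ℝ) (-55 / 1000) := by
  obtain ⟨r1, r2⟩ := hR
  obtain ⟨y1, y2⟩ := hy
  have h1 : 62 / 100 ≤ √(5 * R - 4 * y ^ 2) := Real.le_sqrt_of_sq_le (by nlinarith)
  have h2 : √(5 * R - 4 * y ^ 2) ≤ 72 / 100 := Real.sqrt_le_iff.2 ⟨by norm_num, by nlinarith⟩
  unfold xm
  constructor <;> linarith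

/-- The other disc in a slot. -/
theorem onD_other (a : Rt) {X y h τ : ℝ} (hX : X ∈ Icc (-6 / 10 : ℝ) (-3 / 100))
    (hy : y ∈ Icc (29 / 100 : ℝ) (31 / 100)) (hh : |h| ≤ 3) {z : ℂ} (hz' : z ∈ Disc)
    (he : ((Φa a X y h, τ) : E4) = fD (oth a.1) z) :
    ((h = -1 / 2 ∨ h = 3 / 2) ∧ (τ ≤ 9 / 10 →
        X = xp (16 / 100 + 6 / 1000 * τ) y - 1 ∨ X = xm (16 / 100 + 6 / 1000 * τ) y)) ∨
      (9 / 10 < |h - 1 / 2| ∧ |h - 1 / 2| < 1 ∧ τ = 1) ∨
      (|h - 1 / 2| ≤ 9 / 10 ∧ (X = -31 / 100 ∨ X = -29 / 100) ∧ τ = 1 - cT (!a.2) * χh (-h)) := by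
  obtain ⟨y1, y2⟩ := hy
  obtain ⟨x1, x2⟩ := hX
  have hw : cj (oth a.1) z ∈ Disc := cj_mem.2 hz'
  have hD : (-y, -X) ∈ Dom := mem_Dom_fst (le_abs.2 (Or.inr (by linarith)))
    (abs_le.2 ⟨by linarith, by linarith⟩)
  obtain ⟨h0, k, l, h1, h2⟩ := Φa_inj_same (oth a.1, !a.2)
    (X' := (sw (!a.2) (pz (cj (oth a.1) z))).1) (y' := (sw (!a.2) (pz (cj (oth a.1) z))).2) hD
    (sw_mem_Dom (!a.2) (pz_Dom hw)) (by rwa [abs_neg]) (abs_hz_le _) ((Φa_swap a X y h).symm.trans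
      ((congrArg Prod.fst he).trans (fD_slot (oth a.1, !a.2) z)))
  have hτ : τ = Tz (cj (oth a.1) z) := congrArg Prod.snd he
  generalize cj (oth a.1) z = w at hw h0 h1 h2 hτ
  have e1 : (sw (!a.2) (pz w)).1 = (sw a.2 (pz w)).2 := by cases a.2 <;> rfl
  have e2 : (sw (!a.2) (pz w)).2 = (sw a.2 (pz w)).1 := by cases a.2 <;> rfl
  rw [e1] at h1
  rw [e2] at h2
  obtain ⟨⟨h3, h4⟩, h5, h6⟩ := sw_pz_mem hw a.2
  have hk : (k : ℝ) = 0 :=
    (int_cases (k := k) (by linarith) (by linarith)).resolve_right fun e => by linarith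
  rw [hk, add_zero] at h1
  have hl := int_cases (k := l) (by linarith) (by linarith)
  obtain ⟨h7, h8⟩ := class_other hw a.2 ⟨by linarith, by linarith⟩
  have e3 : |-h + 1 / 2| = |h - 1 / 2| := by rw [← abs_neg, neg_add, neg_neg, sub_eq_add_neg]
  rw [← h0, ← hτ, e3] at h8
  refine h8.imp (fun h9 => ⟨h9.1.imp (fun e => by linarith) fun e => by linarith, fun h10 => ?_⟩)
    (Or.imp_right fun h9 => ⟨h9.1, ?_, h9.2.2⟩)
  · have h11 : 0 ≤ (qf (pz w) - 16 / 100) / (6 / 1000) := by linarith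
    have h12 : 0 ≤ τ := by
      rw [h9.2, ← Hs_of_abs_le (σ := 0) (by norm_num)]
      exact Hs_mono h11
    have h13 := h9.2
    rw [Hs_of_abs_le ((abs_Hs_le_iff _).1 (h13 ▸ abs_le.2 ⟨by linarith, h10⟩))] at h13
    have h14 : qf (X - l, y) = 16 / 100 + 6 / 1000 * τ := by
      have : qf (X - l, y) = qf (sw a.2 (pz w)) := by
        simp only [qf, h1, h2]
        ring
      rw [this, qf_sw]
      linarith
    have h15 := qf_root (X - l) y
    rw [h14] at h15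
    have h16 := xp_mem (R := 16 / 100 + 6 / 1000 * τ) (y := y) ⟨by linarith, by linarith⟩
      ⟨by linarith, by linarith⟩
    have h17 := xm_mem (R := 16 / 100 + 6 / 1000 * τ) (y := y) ⟨by linarith, by linarith⟩
      ⟨by linarith, by linarith⟩
    rcases hl with e | e <;> rcases h15 with e' | e'
    · linarith [h16.1]
    · exact Or.inr (by linarith)
    · exact Or.inl (by linarith)
    · linarith [h17.2]
  · rcases hl with e | e <;> rcases h9.2.1 with e' | e'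
    · linarith
    · exact Or.inr (by linarith)
    · exact Or.inl (by linarith)
    · linarith

private theorem R2_mem (ty : Bool) : R2 ty ∈ Icc (16 / 100 : ℝ) (166 / 1000) := by
  cases ty <;> norm_num [R2, cT]

theorem XV_contDiffOn (ty : Bool) (k : Fin 4) :
    ContDiffOn ℝ ∞ (XV ty k) (Ioo (-1 / 50) (1 / 50)) := by
  have h : ContDiffOn ℝ ∞ (fun y' : ℝ => √(5 * R2 ty - 4 * (3 / 10 + y') ^ 2))
      (Ioo (-1 / 50) (1 / 50)) := by
    refine ContDiffOn.sqrt (by fun_prop) fun y hy => ne_of_gt ?_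
    nlinarith [(R2_mem ty).1, hy.1, hy.2]
  unfold XV xp xm
  split_ifs
  · exact (((by fun_prop : ContDiffOn ℝ ∞ (fun y' : ℝ => 3 * (3 / 10 + y')) _).add
      (contDiffOn_const.mul h)).div_const 5).sub contDiffOn_const
  · exact contDiffOn_const
  · exact contDiffOn_const
  · exact ((by fun_prop : ContDiffOn ℝ ∞ (fun y' : ℝ => 3 * (3 / 10 + y')) _).sub
      (contDiffOn_const.mul h)).div_const 5

theorem XV_mem (ty : Bool) (k : Fin 4) {y' : ℝ} (h : |y'| ≤ 1 / 50) :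
    XV ty k y' ∈ Icc (-57 / 100 : ℝ) (-55 / 1000) := by
  rw [abs_le] at h
  have h1 := xp_mem (R2_mem ty) (y := 3 / 10 + y') ⟨by linarith, by linarith⟩
  have h2 := xm_mem (R2_mem ty) (y := 3 / 10 + y') ⟨by linarith, by linarith⟩
  unfold XV
  split_ifs
  · exact ⟨h1.1, by linarith [h1.2]⟩
  · norm_num
  · norm_num
  · exact ⟨by linarith [h2.1], h2.2⟩

theorem XV_lt (ty : Bool) {k k' : Fin 4} (hk : k < k') {y' : ℝ} (h : |y'| ≤ 1 / 50) :
    XV ty k y' < XV ty k' y' := by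
  rw [abs_le] at h
  have h1 := (xp_mem (R2_mem ty) (y := 3 / 10 + y') ⟨by linarith, by linarith⟩).2
  have h2 := (xm_mem (R2_mem ty) (y := 3 / 10 + y') ⟨by linarith, by linarith⟩).1
  unfold XV
  split_ifs <;> first | linarith | omega

end Pool.Agent.Lib.MP_1d0d1b_gt
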