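import Pool.Agent.Lib.MP_1d0d1b_gt.DiscA

open Set Function Filter Topology
open scoped ContDiff Real

noncomputable section

namespace Pool.Agent.Lib.MP_1d0d1b_gt

private theorem b1_exists {t σ : ℝ} (ht : |t| ≤ 37 / 20)
    (hσ : |σ| < kk (20 / 37 * t) * √(1 - (20 / 37 * t) ^ 2)) :
    ∃ z ∈ oDisc, z.re = 20 / 37 * t ∧ tz z = t ∧ σz z = σ := by
  have hx : |20 / 37 * t| ≤ 1 := by
    rw [abs_mul, abs_of_pos (by norm_num : (0 : ℝ) < 20 / 37)]
    linarith
  have hk : 0 < kk (20 / 37 * t) := lt_of_lt_of_le (by norm_num) (kk_ge hx)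
  refine ⟨⟨20 / 37 * t, σ / kk (20 / 37 * t)⟩, ?_, rfl, by simp only [tz]; ring,
    mul_div_cancel₀ σ hk.ne'⟩
  have h1 : |σ / kk (20 / 37 * t)| < √(1 - (20 / 37 * t) ^ 2) := by
    rw [abs_div, abs_of_pos hk, div_lt_iff₀ hk, mul_comm]
    exact hσ
  have h2 := (Real.lt_sqrt (abs_nonneg _)).1 h1
  rw [sq_abs] at h2
  change ‖_‖ < 1
  rw [← sq_lt_one_iff₀ (norm_nonneg _), Complex.sq_norm, Complex.normSq_mk]
  nlinarith

private theorem b1_of (j : Fin 2) {z : ℂ} (h : z ∈ oDisc) :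
    ((Φ (io j (pz z, hz z)), Tz z) : E4) ∈ fD j '' oDisc :=
  ⟨cj j z, cj_mem_o.2 h, by simp only [fD, cj_cj]⟩

private theorem b1_νb {t : ℝ} (ht : |t| ≤ 140 / 100) : νb t = 0 := by
  rw [abs_le] at ht
  rw [νb, step_of_le (by norm_num) ht.2, step_of_le (by norm_num) (by linarith), add_zero]

private theorem b1_main (j : Fin 2) {t σ : ℝ} (ht : |t| ≤ 140 / 100) (hσ : 9 / 10 ≤ |σ|)
    (hσ' : |σ| < σL t) {p : ℝ × ℝ} (hp : p = (1 - ψh σ / dd t) • Γ t) :
    ((Φ (io j (p, -1 / 2 + Hs σ)), Hs ((qf p - 16 / 100) / (6 / 1000))) : E4) ∈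
      fD j '' oDisc := by
  have e : 37 / 20 * (20 / 37 * t) = t := by ring
  obtain ⟨z, hz', -, h1, h2⟩ := b1_exists (t := t) (σ := σ) (by linarith)
    (by rw [kk_main (by rw [e]; linarith), e]; exact hσ')
  have h3 : pz z = p := by rw [hp, pz, h1, h2]
  have h4 : hz z = -1 / 2 + Hs σ := by rw [hz, h2]
  have h5 : χh (hz z) = 0 := by
    rw [χh_eq_zero_iff, h4]
    have h9 : Hs (9 / 10) = 9 / 10 := Hs_of_abs_le (abs_le.2 ⟨by norm_num, le_rfl⟩)
    rcases le_abs.1 hσ with h | h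
    · have := Hs_mono h
      exact .inr (by linarith)
    · have := Hs_mono h
      rw [Hs_neg] at this
      exact .inl (by linarith)
  have h6 : Tz z = Hs ((qf p - 16 / 100) / (6 / 1000)) := by
    rw [Tz, h5, bz, h1, b1_νb ht, h3]
    simp
  have := b1_of j hz'
  rwa [h3, h4, h6] at this

private theorem b1_plateau (j : Fin 2) {t σ : ℝ} (ht : |t| ≤ 162 / 100) (hσ : |σ| ≤ 9 / 10) :
    ((Φ (io j (Γ t, -1 / 2 + σ)), 1 - 1 / 3 * (χX (gg t) * χh (-1 / 2 + σ)) -
      2 / 3 * (χX (gg (-t)) * χh (-1 / 2 + σ))) : E4) ∈ fD j '' oDisc := by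
  have hx : |20 / 37 * t| ≤ 876 / 1000 := by
    rw [abs_mul, abs_of_pos (by norm_num : (0 : ℝ) < 20 / 37)]
    linarith
  have hx2 : (20 / 37 * t) ^ 2 ≤ 77 / 100 := by
    have := pow_le_pow_left₀ (abs_nonneg _) hx 2
    rw [sq_abs] at this
    linarith
  have hk := kk_ge (hx.trans (by norm_num))
  have hs : 2 / 5 ≤ √(1 - (20 / 37 * t) ^ 2) := Real.le_sqrt_of_sq_le (by linarith)
  obtain ⟨z, hz', h0, h1, h2⟩ := b1_exists (t := t) (σ := σ) (by linarith) (by nlinarith)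
  have h3 : pz z = Γ t := by
    rw [pz, h1, h2, ψh_eq, ramp_of_nonpos (by linarith)]
    simp
  have h4 : hz z = -1 / 2 + σ := by rw [hz, h2, Hs_of_abs_le hσ]
  have h5 : 1 ≤ 10 * (1 - ‖z‖ ^ 2) := by
    have h6 : |z.im| ≤ 1 / 5 := by
      rw [← h2, σz, h0, abs_mul, abs_of_pos (by linarith : 0 < kk (20 / 37 * t))] at hσ
      nlinarith [abs_nonneg z.im]
    have := pow_le_pow_left₀ (abs_nonneg _) h6 2
    rw [sq_abs] at this
    rw [Complex.sq_norm, Complex.normSq_apply, h0]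
    nlinarith
  have h7 : 0 ≤ νb t ∧ νb t ≤ 1 ∧ (143 / 100 ≤ |t| → νb t = 1) := by
    refine ⟨add_nonneg (step_nonneg _ _ _) (step_nonneg _ _ _), ?_⟩
    rcases le_total 0 t with h | h
    · rw [νb, step_of_le (x := -t) (by norm_num) (by linarith), add_zero, abs_of_nonneg h]
      exact ⟨step_le_one _ _ _, step_of_ge (by norm_num)⟩
    · rw [νb, step_of_le (x := t) (by norm_num) (by linarith), zero_add, abs_of_nonpos h]
      exact ⟨step_le_one _ _ _, step_of_ge (by norm_num)⟩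
  have h8 : 1 ≤ bz z := by
    rw [bz, h1, h3]
    rcases le_total |t| (147 / 100) with h | h
    · have h9 : 1 ≤ (qf (Γ t) - 16 / 100) / (6 / 1000) := by
        have := qf_Γ_main h
        rw [le_div_iff₀ (by norm_num)]
        linarith
      nlinarith [mul_nonneg h7.1 (sub_nonneg.2 h5),
        mul_nonneg (sub_nonneg.2 h7.2.1) (sub_nonneg.2 h9)]
    · rw [h7.2.2 (by linarith)]
      linarith
  have := b1_of j hz'
  rwa [Tz, Hs_of_ge h8, one_mul, h3, h4] at this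

private theorem b1_qf (ty : Bool) (X y : ℝ) : qf (sw ty (X, y)) = qf (X, y) := by
  cases ty <;> simp only [sw, qf, if_true, if_false, Bool.false_eq_true]
  ring

private theorem b1_one {x : ℝ} (h : 166 / 1000 ≤ x) : Hs ((x - 16 / 100) / (6 / 1000)) = 1 :=
  Hs_of_ge (by rw [le_div_iff₀ (by norm_num)]; linarith)

private theorem b1_wall (a : Rt) {t σ : ℝ} (ht : |t| ≤ 162 / 100) (hσ : |σ| ≤ 9 / 10)
    (h0 : χX (gg (-t)) = 0) :
    ((Φa a (gg t) (gg (-t)) (-1 / 2 + σ), 1 - cT a.2 * (χX (gg t) * χh (-1 / 2 + σ))) : E4) ∈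
      fD a.1 '' oDisc := by
  obtain ⟨j, ty⟩ := a
  cases ty
  · have := b1_plateau j ht hσ
    rw [h0] at this
    simpa [Φa, sw, cT, Γ] using this
  · have := b1_plateau j (t := -t) (by rwa [abs_neg]) hσ
    rw [h0, neg_neg] at this
    simpa [Φa, sw, cT, Γ] using this

private theorem b1_slot (a : Rt) {t σ : ℝ} (ht : |t| ≤ 140 / 100) (hσ : 9 / 10 ≤ |σ|)
    (hσ' : |σ| < 5) {X y : ℝ} (hX : X = (1 - ψh σ / dd t) * gg t)
    (hy : y = (1 - ψh σ / dd t) * gg (-t)) (hq : 166 / 1000 ≤ qf (X, y)) :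
    ((Φa a X y (-1 / 2 + Hs σ), 1) : E4) ∈ fD a.1 '' oDisc := by
  obtain ⟨j, ty⟩ := a
  cases ty
  · have := b1_main j ht hσ (hσ'.trans_le (σL_ge (by linarith))) (p := (X, y))
      (by rw [hX, hy]; rfl)
    rw [b1_one hq] at this
    exact this
  · have := b1_main j (t := -t) (by rwa [abs_neg]) hσ
      (hσ'.trans_le (σL_ge (by rw [abs_neg]; linarith))) (p := (y, X))
      (by rw [hX, hy, dd_neg, Γ_neg]; rfl)
    rw [b1_one (by rw [← b1_qf true] at hq; exact hq)] at this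
    exact this

/-- Flat sheets (with the collar of the link). -/
theorem mem_sheet (j : Fin 2) {p : ℝ × ℝ} (h1 : p.1 + p.2 ≤ 0) (h2 : 16 / 100 < qf p)
    (h3 : p.1 ∈ Icc (-66 / 100 : ℝ) (28 / 100)) (h4 : p.2 ∈ Icc (-66 / 100 : ℝ) (28 / 100))
    {e : ℝ} (he : e = 1 ∨ e = -1) :
    ((Φ (io j (p, -1 / 2 + e)), Hs ((qf p - 16 / 100) / (6 / 1000))) : E4) ∈ fD j '' oDisc := by
  obtain ⟨t, s, ht, hs, hp⟩ := exists_Γ (p := p) (by
    rintro rfl
    norm_num [qf] at h2) h1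
  have hp1 : p.1 = s * gg t := by rw [hp]; rfl
  have hp2 : p.2 = s * gg (-t) := by rw [hp]; rfl
  have hs1 : s ≤ 98 / 100 := by
    by_contra hc
    rw [not_le] at hc
    have k1 : ∀ {u}, u ∈ Icc (0 : ℝ) (97 / 100) → s * gg u < -66 / 100 := fun hu => by
      nlinarith [(gg_low hu).2]
    have k2 : ∀ {u : ℝ}, u ≤ -97 / 100 → 28 / 100 < s * gg u := fun hu => by
      rw [gg_left hu]
      linarith
    rcases le_total 0 t with h | h
    · rcases le_total t (97 / 100) with h' | h'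
      · linarith [k1 ⟨h, h'⟩, h3.1]
      · linarith [k2 (u := -t) (by linarith), h4.2]
    · rcases le_total (-t) (97 / 100) with h' | h'
      · linarith [k1 (u := -t) ⟨by linarith, h'⟩, h4.1]
      · linarith [k2 (u := t) (by linarith), h3.2]
  have hd := dd_mem t
  have hu : 1 / 10 ≤ 100 * dd t * (1 - s) := by nlinarith [hd.1]
  have ha : |e * (9 / 10 + 100 * dd t * (1 - s))| = 9 / 10 + 100 * dd t * (1 - s) := by
    rw [abs_mul, abs_of_pos (by linarith : 0 < 9 / 10 + 100 * dd t * (1 - s))]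
    rcases he with rfl | rfl <;> simp
  have hq : 2 / 5 / √(qf (Γ t)) < s := by
    rw [div_lt_iff₀ (Real.sqrt_pos.2 (qf_Γ_pos t)), ← Real.sqrt_sq hs.le,
      ← Real.sqrt_mul (sq_nonneg s)]
    refine Real.lt_sqrt_of_sq_lt ?_
    have : qf p = s ^ 2 * qf (Γ t) := by
      rw [qf, hp1, hp2, qf, Γ]
      ring
    linarith
  have := b1_main j (t := t) (σ := e * (9 / 10 + 100 * dd t * (1 - s))) ht.le
    (by rw [ha]; linarith) (by rw [ha, σL]; nlinarith [hd.1]) (p := p) (by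
      rw [ψh_eq, ha, add_sub_cancel_left, ramp_of_ge (by linarith), hp]
      congr 1
      have : dd t ≠ 0 := by linarith [hd.1]
      field_simp
      ring)
  have hH : Hs (e * (9 / 10 + 100 * dd t * (1 - s))) = e := by
    rcases he with rfl | rfl
    · exact Hs_of_ge (by linarith)
    · exact Hs_of_le (by linarith)
  rwa [hH] at this

private theorem b1_sheet (a : Rt) {X y : ℝ} (h1 : X + y ≤ 0) (h2 : 16 / 100 < qf (X, y))
    (h3 : X ∈ Icc (-66 / 100 : ℝ) (28 / 100)) (h4 : y ∈ Icc (-66 / 100 : ℝ) (28 / 100))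
    {e : ℝ} (he : e = 1 ∨ e = -1) :
    ((Φa a X y (-1 / 2 + e), Hs ((qf (X, y) - 16 / 100) / (6 / 1000))) : E4) ∈
      fD a.1 '' oDisc := by
  rw [← b1_qf a.2] at h2 ⊢
  obtain ⟨j, ty⟩ := a
  cases ty
  · exact mem_sheet j h1 h2 h3 h4 he
  · exact mem_sheet j (p := (y, X)) (by rwa [add_comm] at h1) h2 h4 h3 he

theorem mem_wallP (a : Rt) {X σ : ℝ} (hX : X ∈ Icc (-67 / 100 : ℝ) (28 / 100))
    (hσ : |σ| ≤ 9 / 10) :
    ((Φa a X (31 / 100) (-1 / 2 + σ), 1 - cT a.2 * (χX X * χh (-1 / 2 + σ))) : E4) ∈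
      fD a.1 '' oDisc := by
  have h1 : gg (-68 / 100 - X) = X := by
    rw [gg_down ⟨by linarith [hX.2], by linarith [hX.1]⟩]
    ring
  have h2 : gg (-(-68 / 100 - X)) = -69 / 100 :=
    gg_flat ⟨by linarith [hX.1], by linarith [hX.2]⟩
  have := b1_wall a (t := -68 / 100 - X) (abs_le.2 ⟨by linarith [hX.2], by linarith [hX.1]⟩) hσ
    (by rw [h2]; exact χX_eq_zero (.inl (by norm_num)))
  rw [h1, h2, ← Φa_periodic a X _ _ 0 1] at this
  convert this using 3 <;> norm_num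

theorem mem_wallM (a : Rt) {X σ : ℝ} (hX : X ∈ Icc (-67 / 100 : ℝ) (-3 / 100))
    (hσ : |σ| ≤ 9 / 10) :
    ((Φa a X (29 / 100) (-1 / 2 + σ), 1 - cT a.2 * (χX X * χh (-1 / 2 + σ))) : E4) ∈
      fD a.1 '' oDisc := by
  have h1 : gg (X + 165 / 100) = X := by
    rw [gg_up (by linarith [hX.1])]
    ring
  have h2 : gg (-(X + 165 / 100)) = 29 / 100 := gg_left (by linarith [hX.1])
  have := b1_wall a (t := X + 165 / 100) (abs_le.2 ⟨by linarith [hX.1], by linarith [hX.2]⟩) hσ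
    (by rw [h2]; exact χX_eq_zero (.inr (by norm_num)))
  rwa [h1, h2] at this

theorem mem_fold (a : Rt) {X u e e' : ℝ} (hX : X ∈ Icc (-52 / 100 : ℝ) (-48 / 100))
    (hu : u ∈ Icc (0 : ℝ) 4) (he : e = 1 ∨ e = -1) (he' : e' = 1 ∨ e' = -1) :
    ((Φa a X (3 / 10 + e * (1 / 100 + ramp u / 100)) (-1 / 2 + Hs (e' * (9 / 10 + u))), 1) : E4) ∈
      fD a.1 '' oDisc := by
  have ha : |e' * (9 / 10 + u)| = 9 / 10 + u := by
    rw [abs_mul, abs_of_pos (by linarith [hu.1] : 0 < 9 / 10 + u)]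
    rcases he' with rfl | rfl <;> simp
  have hψ : ψh (e' * (9 / 10 + u)) = ramp u / 100 := by rw [ψh_eq, ha, add_sub_cancel_left]
  have r0 := ramp_nonneg u
  have r1 : ramp u ≤ 4 := (ramp_le hu.1).trans hu.2
  obtain ⟨x1, x2⟩ := hX
  rcases he with rfl | rfl
  · set s := 1 - ramp u / 100 / (69 / 100) with hs
    have s1 : 9 / 10 ≤ s := by rw [hs]; linarith
    have s2 : s ≤ 1 := by rw [hs]; linarith
    have s0 : 0 < s := by linarith
    have q1 : -6 / 10 ≤ X / s := by rw [le_div_iff₀ s0]; linarith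
    have q2 : X / s ≤ -48 / 100 := by rw [div_le_iff₀ s0]; linarith
    have hd : dd (-68 / 100 - X / s) = 69 / 100 := dd_of_le (abs_le.2 ⟨by linarith, by linarith⟩)
    have := b1_slot a (t := -68 / 100 - X / s) (σ := e' * (9 / 10 + u))
      (abs_le.2 ⟨by linarith, by linarith⟩) (by rw [ha]; linarith [hu.1])
      (by rw [ha]; linarith [hu.2]) (X := X) (y := -69 / 100 + ramp u / 100)
      (by rw [hψ, hd, ← hs, gg_down ⟨by linarith, by linarith⟩]; field_simp; ring)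
      (by rw [hψ, hd, gg_flat ⟨by linarith, by linarith⟩]; ring)
      (by simp only [qf]; nlinarith [sq_nonneg (5 * (-69 / 100 + ramp u / 100) - 3 * X)])
    rw [← Φa_periodic a X _ _ 0 1] at this
    convert this using 3 <;> push_cast <;> ring
  · set s := 1 - ramp u / 100 / (29 / 100) with hs
    have s1 : 86 / 100 ≤ s := by rw [hs]; linarith
    have s2 : s ≤ 1 := by rw [hs]; linarith
    have s0 : 0 < s := by linarith
    have q1 : -61 / 100 ≤ X / s := by rw [le_div_iff₀ s0]; linarith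
    have q2 : X / s ≤ -48 / 100 := by rw [div_le_iff₀ s0]; linarith
    have hd : dd (X / s + 165 / 100) = 29 / 100 := dd_of_ge (le_abs.2 (.inl (by linarith)))
    have := b1_slot a (t := X / s + 165 / 100) (σ := e' * (9 / 10 + u))
      (abs_le.2 ⟨by linarith, by linarith⟩) (by rw [ha]; linarith [hu.1])
      (by rw [ha]; linarith [hu.2]) (X := X) (y := 29 / 100 - ramp u / 100)
      (by rw [hψ, hd, ← hs, gg_up (by linarith)]; field_simp; ring)
      (by rw [hψ, hd, gg_left (by linarith)]; ring)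
      (by simp only [qf]; nlinarith [sq_nonneg (5 * (29 / 100 - ramp u / 100) - 3 * X)])
    convert this using 3
    ring

/-- The sheet in slot coordinates near the line `X = -1/2`. -/
theorem mem_sheet_slot (a : Rt) {X y' e : ℝ} (hX : X ∈ Icc (-52 / 100 : ℝ) (-48 / 100))
    (hy : 4 / 100 ≤ |y'|) (hy' : |y'| ≤ 1 / 2) (he : e = 1 ∨ e = -1) :
    ((Φa a X (3 / 10 + y') (-1 / 2 + e), 1) : E4) ∈ fD a.1 '' oDisc := by
  obtain ⟨x1, x2⟩ := hX
  have hq : ∀ y : ℝ, 166 / 1000 ≤ qf (X, y) := fun y => by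
    simp only [qf]
    nlinarith [sq_nonneg (5 * y - 3 * X)]
  rw [abs_le] at hy'
  rcases le_abs.1 hy with h | h
  · have := b1_sheet a (X := X) (y := -7 / 10 + y') (by linarith) (by linarith [hq (-7 / 10 + y')])
      ⟨by linarith, by linarith⟩ ⟨by linarith, by linarith⟩ he
    rw [b1_one (hq _), ← Φa_periodic a X _ _ 0 1] at this
    convert this using 3 <;> push_cast <;> ring
  · have := b1_sheet a (X := X) (y := 3 / 10 + y') (by linarith) (by linarith [hq (3 / 10 + y')])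
      ⟨by linarith, by linarith⟩ ⟨by linarith, by linarith⟩ he
    rwa [b1_one (hq _)] at this

/-- The collar of the other disc, in slot coordinates. -/
theorem mem_collar (a : Rt) {X y : ℝ} (hy : y ∈ Icc (28 / 100 : ℝ) (32 / 100))
    {X' : ℝ} (hX : (X' = X ∧ X ∈ Icc (-15 / 100 : ℝ) (-3 / 100)) ∨
      (X' = X + 1 ∧ X ∈ Icc (-6 / 10 : ℝ) (-5 / 10)))
    (hq : 16 / 100 < qf (X', y)) :
    ((Φa a X y (-1 / 2), Hs ((qf (X', y) - 16 / 100) / (6 / 1000))) : E4) ∈
      fD (oth a.1) '' oDisc := by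
  have hq' : qf (-y, -X') = qf (X', y) := by
    simp only [qf]
    ring
  obtain ⟨y1, y2⟩ := hy
  have h1 : X' ∈ Icc (-15 / 100 : ℝ) (5 / 10) := by
    rcases hX with ⟨rfl, h1, h2⟩ | ⟨rfl, h1, h2⟩ <;> constructor <;> linarith
  have := b1_sheet (oth a.1, !a.2) (X := -y) (y := -X') (by linarith [h1.1]) (by rwa [hq'])
    ⟨by linarith, by linarith⟩ ⟨by linarith [h1.2], by linarith [h1.1]⟩ (.inl rfl)
  rw [hq'] at this
  rw [Φa_swap]
  rcases hX with ⟨rfl, -⟩ | ⟨rfl, -⟩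
  · convert this using 3
    norm_num
  · rw [← Φa_periodic _ _ _ _ 0 1] at this
    convert this using 3 <;> push_cast <;> ring

/-- The walls of the other disc, in slot coordinates. -/
theorem mem_cross (a : Rt) {X y h : ℝ} (hX : X = -31 / 100 ∨ X = -29 / 100)
    (hy : y ∈ Icc (28 / 100 : ℝ) (32 / 100)) (hh : |h - 1 / 2| ≤ 9 / 10) :
    ((Φa a X y h, 1 - cT (!a.2) * χh (-h)) : E4) ∈ fD (oth a.1) '' oDisc := by
  have hσ : |1 / 2 - h| ≤ 9 / 10 := by rwa [abs_sub_comm]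
  have e : -1 / 2 + (1 / 2 - h) = -h := by ring
  have h1 : χX (-y) = 1 := χX_eq_one ⟨by linarith [hy.2], by linarith [hy.1]⟩
  rw [Φa_swap]
  rcases hX with rfl | rfl
  · have := mem_wallP (oth a.1, !a.2) (X := -y) ⟨by linarith [hy.2], by linarith [hy.1]⟩ hσ
    rw [e, h1, one_mul] at this
    convert this using 3
    norm_num
  · have := mem_wallM (oth a.1, !a.2) (X := -y) ⟨by linarith [hy.2], by linarith [hy.1]⟩ hσ
    rw [e, h1, one_mul] at this
    convert this using 3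
    norm_num

end Pool.Agent.Lib.MP_1d0d1b_gt
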