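import Pool.Agent.Lib.MP_1d0d1b_gt.TopA
import Pool.Agent.Lib.MP_1d0d1b_gt.Prof

open Set Function Filter Topology
open scoped ContDiff Real

noncomputable section

namespace Pool.Agent.Lib.MP_1d0d1b_gt

theorem sign_det4_eq (a b c d : E4) : det4 a b c d =
    (a.1.1.re * b.1.1.im - a.1.1.im * b.1.1.re) * (c.1.2 * d.2 - c.2 * d.1.2) -
    (a.1.1.re * b.1.2 - a.1.2 * b.1.1.re) * (c.1.1.im * d.2 - c.2 * d.1.1.im) +
    (a.1.1.re * b.2 - a.2 * b.1.1.re) * (c.1.1.im * d.1.2 - c.1.2 * d.1.1.im) +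
    (a.1.1.im * b.1.2 - a.1.2 * b.1.1.im) * (c.1.1.re * d.2 - c.2 * d.1.1.re) -
    (a.1.1.im * b.2 - a.2 * b.1.1.im) * (c.1.1.re * d.1.2 - c.1.2 * d.1.1.re) +
    (a.1.2 * b.2 - a.2 * b.1.2) * (c.1.1.re * d.1.1.im - c.1.1.im * d.1.1.re) := by
  simp [det4, coords, Matrix.det_succ_row_zero, Fin.sum_univ_succ, Fin.succAbove]
  ring

theorem det4_continuous :
    Continuous (fun q : E4 × E4 × E4 × E4 => det4 q.1 q.2.1 q.2.2.1 q.2.2.2) := by
  simp only [sign_det4_eq]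
  fun_prop

private theorem sign_coords_inj : Injective coords := fun _ _ h =>
  Prod.ext (Prod.ext (Complex.ext (congrFun h 0) (congrFun h 1)) (congrFun h 2)) (congrFun h 3)

private theorem sign_coords_surj : Surjective coords := fun y =>
  ⟨((⟨y 0, y 1⟩, y 2), y 3), by funext i; fin_cases i <;> rfl⟩

private theorem sign_vecMul (a b c d : E4) (x : Fin 4 → ℝ) :
    Matrix.vecMul x (Matrix.of ![coords a, coords b, coords c, coords d]) =
      coords (x 0 • a + x 1 • b + x 2 • c + x 3 • d) := by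
  funext i
  fin_cases i <;> simp [Matrix.vecMul, dotProduct, Fin.sum_univ_four, coords]

/-- Four vectors span iff their determinant is nonzero. -/
theorem det4_ne_zero_iff (a b c d : E4) :
    det4 a b c d ≠ 0 ↔ ∀ y : E4, ∃ x₁ x₂ x₃ x₄ : ℝ, x₁ • a + x₂ • b + x₃ • c + x₄ • d = y := by
  rw [det4, ← isUnit_iff_ne_zero, ← Matrix.isUnit_iff_isUnit_det,
    ← Matrix.vecMul_surjective_iff_isUnit]
  refine ⟨fun h y => ?_, fun h y => ?_⟩
  · obtain ⟨x, hx⟩ := h (coords y)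
    exact ⟨x 0, x 1, x 2, x 3, sign_coords_inj ((sign_vecMul a b c d x).symm.trans hx)⟩
  · obtain ⟨y, rfl⟩ := sign_coords_surj y
    obtain ⟨x₁, x₂, x₃, x₄, rfl⟩ := h y
    exact ⟨![x₁, x₂, x₃, x₄], sign_vecMul a b c d _⟩

theorem det4_ne_zero_iff_indep (a b c d : E4) :
    det4 a b c d ≠ 0 ↔ ∀ x₁ x₂ x₃ x₄ : ℝ, x₁ • a + x₂ • b + x₃ • c + x₄ • d = 0 →
      x₁ = 0 ∧ x₂ = 0 ∧ x₃ = 0 ∧ x₄ = 0 := by
  have h0 : coords 0 = 0 := by funext i; fin_cases i <;> rfl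
  rw [det4, Ne, ← Matrix.exists_vecMul_eq_zero_iff]
  refine ⟨fun h x₁ x₂ x₃ x₄ hx => ?_, fun h ⟨x, hx, e⟩ => hx ?_⟩
  · have : (![x₁, x₂, x₃, x₄] : Fin 4 → ℝ) = 0 := by_contra fun hn =>
      h ⟨_, hn, (sign_vecMul a b c d _).trans ((congrArg coords hx).trans h0)⟩
    exact ⟨congrFun this 0, congrFun this 1, congrFun this 2, congrFun this 3⟩
  · obtain ⟨h1, h2, h3, h4⟩ := h (x 0) (x 1) (x 2) (x 3)
      (sign_coords_inj (((sign_vecMul a b c d x).symm.trans e).trans h0.symm))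
    funext i
    fin_cases i <;> assumption

private theorem sign_lin (f : ℂ →L[ℝ] E4) (u : ℂ) : f u = u.re • f 1 + u.im • f Complex.I := by
  rw [← map_smul, ← map_smul, ← map_add]
  exact congrArg f (Complex.ext (by simp) (by simp))

theorem transv_of_interDet {f g : ℂ → E4} {z w : ℂ} (h : interDet f g z w ≠ 0) :
    Transv f g z w := fun y => by
  obtain ⟨x₁, x₂, x₃, x₄, e⟩ := (det4_ne_zero_iff _ _ _ _).1 h y
  refine ⟨⟨x₁, x₂⟩, ⟨x₃, x₄⟩, ?_⟩
  rw [sign_lin (fderiv ℝ f z), sign_lin (fderiv ℝ g w), ← e, ← add_assoc]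

private theorem sign_alg (f g : ℂ →L[ℝ] E4) (u v w : ℂ) :
    det4 (f u) (g w) (f v) (g (Complex.I * w)) = -((u.re * v.im - u.im * v.re) *
      Complex.normSq w * det4 (f 1) (f Complex.I) (g 1) (g Complex.I)) := by
  rw [sign_lin f u, sign_lin f v, sign_lin g w, sign_lin g (Complex.I * w)]
  generalize f 1 = a
  generalize f Complex.I = b
  generalize g 1 = c
  generalize g Complex.I = d
  simp [sign_det4_eq, Complex.normSq_apply]
  ring

private theorem sign_neg (a b c d : E4) : det4 a (-b) c d = -det4 a b c d := by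
  simp [sign_det4_eq]
  ring

private theorem sign_ivt {f : ℝ → ℝ} (hf : Continuous f) {a b : ℝ} (hab : a ≤ b)
    (h : ∀ t ∈ Icc a b, f t ≠ 0) : 0 < f a * f b := by
  by_contra! hn
  rcases mul_nonpos_iff.1 hn with h1 | h1
  · obtain ⟨t, ht, e⟩ := intermediate_value_Icc' hab hf.continuousOn ⟨h1.2, h1.1⟩
    exact h t ht e
  · obtain ⟨t, ht, e⟩ := intermediate_value_Icc hab hf.continuousOn ⟨h1.1, h1.2⟩
    exact h t ht e

private theorem sign_circ (t : ℝ) : HasDerivAt circ (Complex.I * circ t) t := by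
  refine ((hasDerivAt_id (t : ℂ)).mul_const Complex.I).cexp.comp_ofReal.congr_deriv ?_
  simp [circ, mul_comm]

private theorem sign_half {t : ℝ} (ht : t ∈ Icc (0 : ℝ) π) : circ t ∈ Half :=
  ⟨(Complex.norm_exp_ofReal_mul_I t).le, by
    rw [circ, Complex.exp_ofReal_mul_I_im]
    exact Real.sin_nonneg_of_mem_Icc ht⟩

private theorem sign_top {S : ℂ × ℝ → E4} {fu : ℂ → E4} {b : ℝ → ℂ} (hS : ContDiff ℝ ∞ S)
    (hfu : ContDiff ℝ ∞ fu) (hb : ContDiff ℝ ∞ b) {t₀ : ℝ}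
    (h : ∀ᶠ t in 𝓝 t₀, S (circ t, 0) = fu (b t)) :
    fderiv ℝ S (circ t₀, 0) (Complex.I * circ t₀, 0) = fderiv ℝ fu (b t₀) (deriv b t₀) := by
  have h1 := (hS.differentiable (by simp) (circ t₀, 0)).hasFDerivAt.comp_hasDerivAt t₀
    ((sign_circ t₀).prodMk (hasDerivAt_const t₀ (0 : ℝ)))
  have h2 := (hfu.differentiable (by simp) (b t₀)).hasFDerivAt.comp_hasDerivAt t₀
    (hb.differentiable (by simp) t₀).hasDerivAt
  exact h1.unique (h2.congr_of_eventuallyEq h)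

private theorem sign_bot {S : ℂ × ℝ → E4} {fl : ℂ → E4} {α : ℝ × ℝ → ℂ} (hS : ContDiff ℝ ∞ S)
    (hfl : ContDiff ℝ ∞ fl) (hα : ContDiff ℝ ∞ α) {x : ℝ}
    (h : ∀ᶠ q : ℝ × ℝ in 𝓝 (x, 0), S ((q.1 : ℂ), q.2) = fl (α q)) (p : ℝ × ℝ) :
    fderiv ℝ S (x, 0) (p.1, p.2) = fderiv ℝ fl (α (x, 0)) (fderiv ℝ α (x, 0) p) := by
  have h1 := (hS.differentiable (by simp) (x, 0)).hasFDerivAt.comp (x, (0 : ℝ))
    (Complex.ofRealCLM.prodMap (ContinuousLinearMap.id ℝ ℝ)).hasFDerivAt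
  have h2 := (hfl.differentiable (by simp) (α (x, 0))).hasFDerivAt.comp (x, (0 : ℝ))
    (hα.differentiable (by simp) (x, 0)).hasFDerivAt
  exact DFunLike.congr_fun (h1.unique (h2.congr_of_eventuallyEq h)) p

/-- The two corners of a framed Whitney disc have opposite signs. -/
theorem opp_signs {S : ℂ × ℝ → E4} {fl fu : ℂ → E4} {α : ℝ × ℝ → ℂ} {b : ℝ → ℂ}
    (hS : ContDiff ℝ ∞ S) (hfl : ContDiff ℝ ∞ fl) (hfu : ContDiff ℝ ∞ fu)
    (hα : ContDiff ℝ ∞ α) (hb : ContDiff ℝ ∞ b)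
    (hi : ∀ ξ ∈ Half, Injective (fderiv ℝ S (ξ, 0)))
    (hbot : ∀ x₀ : ℝ, |x₀| ≤ 1 → ∀ᶠ q : ℝ × ℝ in 𝓝 (x₀, 0), S ((q.1 : ℂ), q.2) = fl (α q))
    (htop : ∀ t₀ ∈ Icc (0 : ℝ) π, ∀ᶠ t in 𝓝 t₀, S (circ t, 0) = fu (b t))
    (hspan : ∀ t ∈ Icc (0 : ℝ) π, ∀ y : E4, ∃ (P : ℂ × ℝ) (Q : ℂ),
      fderiv ℝ S (circ t, 0) P + fderiv ℝ fu (b t) Q = y) :
    interDet fl fu (α (1, 0)) (b 0) * interDet fl fu (α (-1, 0)) (b π) < 0 := by
  have cS := hS.continuous_fderiv (by simp)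
  have cu := hfu.continuous_fderiv (by simp)
  have cα := hα.continuous_fderiv (by simp)
  have cb := hb.continuous
  have cb' := hb.continuous_deriv (by simp)
  have cc : Continuous circ := continuous_iff_continuousAt.2 fun t => (sign_circ t).continuousAt
  have hb' (t : ℝ) (ht : t ∈ Icc (0 : ℝ) π) : deriv b t ≠ 0 := fun h => by
    have h1 := sign_top hS hfu hb (htop t ht)
    rw [h, map_zero, map_eq_zero_iff _ (hi _ (sign_half ht)), Prod.mk_eq_zero] at h1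
    exact mul_ne_zero Complex.I_ne_zero (Complex.exp_ne_zero _) h1.1
  have hD := sign_ivt (f := fun t => det4 (fderiv ℝ S (circ t, 0) (1, 0))
    (fderiv ℝ S (circ t, 0) (Complex.I, 0)) (fderiv ℝ S (circ t, 0) (0, 1))
    (fderiv ℝ fu (b t) (Complex.I * deriv b t)))
    (det4_continuous.comp (f := fun t => (fderiv ℝ S (circ t, 0) (1, 0),
      fderiv ℝ S (circ t, 0) (Complex.I, 0), fderiv ℝ S (circ t, 0) (0, 1),
      fderiv ℝ fu (b t) (Complex.I * deriv b t))) (by fun_prop)) Real.pi_pos.le fun t ht => by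
      refine (det4_ne_zero_iff _ _ _ _).2 fun y => ?_
      obtain ⟨P, Q, rfl⟩ := hspan t ht y
      obtain ⟨c, rfl⟩ : ∃ c : ℂ, Q = c.re • deriv b t + c.im • (Complex.I * deriv b t) := by
        refine ⟨Q / deriv b t, ?_⟩
        rw [Complex.real_smul, Complex.real_smul, ← mul_assoc, ← add_mul, Complex.re_add_im,
          div_mul_cancel₀ _ (hb' t ht)]
      refine ⟨(P.1 + c.re • (Complex.I * circ t)).re, (P.1 + c.re • (Complex.I * circ t)).im, P.2,
        c.im, ?_⟩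
      rw [map_add, map_smul, map_smul, ← sign_top hS hfu hb (htop t ht), ← add_assoc]
      simp only [← map_smul, ← map_add]
      congr 2
      exact Prod.ext (Complex.ext (by simp) (by simp)) (by simp)
  have hJ := sign_ivt (f := fun x : ℝ => (fderiv ℝ α (x, 0) (1, 0)).re *
    (fderiv ℝ α (x, 0) (0, 1)).im - (fderiv ℝ α (x, 0) (1, 0)).im * (fderiv ℝ α (x, 0) (0, 1)).re)
    (by fun_prop) (show (-1 : ℝ) ≤ 1 by norm_num) fun x hx h => by
      have h0 (c d : ℝ) (e : c • fderiv ℝ α (x, 0) (1, 0) + d • fderiv ℝ α (x, 0) (0, 1) = 0) :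
          c = 0 ∧ d = 0 := by
        have h1 := sign_bot hS hfl hα (hbot x (abs_le.2 hx)) (c, d)
        rw [← map_smul, ← map_smul, ← map_add] at e
        simp only [Prod.smul_mk, Prod.mk_add_mk, smul_eq_mul, mul_one, mul_zero, add_zero,
          zero_add] at e
        rw [e, map_zero, map_eq_zero_iff _ (hi _ ⟨by simpa using abs_le.2 hx, by simp⟩)] at h1
        simpa using h1
      generalize fderiv ℝ α (x, 0) (1, 0) = u at h h0
      generalize fderiv ℝ α (x, 0) (0, 1) = v at h h0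
      have h1 := h0 v.im (-u.im) (Complex.ext (by simp; linarith) (by simp; ring))
      have h2 := h0 v.re (-u.re) (Complex.ext (by simp; ring) (by simp; linarith))
      exact one_ne_zero (h0 1 0 (Complex.ext (by simpa using h2.2) (by simpa using h1.2))).1
  have t0 := sign_top hS hfu hb (htop 0 ⟨le_rfl, Real.pi_pos.le⟩)
  have t1 := sign_top hS hfu hb (htop π ⟨Real.pi_pos.le, le_rfl⟩)
  have b0 := sign_bot hS hfl hα (hbot 1 (by simp))
  have b1 := sign_bot hS hfl hα (hbot (-1) (by simp))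
  have n0 := Complex.normSq_pos.2 (hb' 0 ⟨le_rfl, Real.pi_pos.le⟩)
  have n1 := Complex.normSq_pos.2 (hb' π ⟨Real.pi_pos.le, le_rfl⟩)
  have c0 : circ 0 = ((1 : ℝ) : ℂ) := by simp [circ]
  have c1 : circ π = ((-1 : ℝ) : ℂ) := by simp [circ]
  have t1' : fderiv ℝ S (circ π, 0) (Complex.I, 0) = -fderiv ℝ fu (b π) (deriv b π) := by
    rw [← t1, ← map_neg, c1]
    simp
  have t0' : fderiv ℝ S (circ 0, 0) (Complex.I, 0) = fderiv ℝ fu (b 0) (deriv b 0) := by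
    rw [← t0, c0]
    simp
  simp only [t0', t1'] at hD
  rw [c0, c1, show fderiv ℝ S ((1 : ℝ), 0) (1, 0) = _ from b0 (1, 0),
    show fderiv ℝ S ((1 : ℝ), 0) (0, 1) = _ from b0 (0, 1),
    show fderiv ℝ S ((-1 : ℝ), 0) (1, 0) = _ from b1 (1, 0),
    show fderiv ℝ S ((-1 : ℝ), 0) (0, 1) = _ from b1 (0, 1), sign_neg, sign_alg, sign_alg] at hD
  have := mul_pos (mul_pos hJ n0) n1
  unfold interDet
  by_contra! hn
  nlinarith [mul_nonneg this.le hn]

end Pool.Agent.Lib.MP_1d0d1b_gt
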