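import Pool.Agent.Lib.MP_1d0d1b_gt.Lift
import Pool.Agent.Lib.MP_1d0d1b_gt.Sign

open Set Function Filter Topology
open scoped ContDiff Real

noncomputable section

namespace Pool.Agent.Lib.MP_1d0d1b_gt

theorem fat_coords {f : ℂ → E4} (hf : ContDiff ℝ ∞ f) (j : Fin 4) :
    ContDiff ℝ ∞ fun x => coords (f x) j := by
  fin_cases j
  · exact Complex.reCLM.contDiff.comp hf.fst.fst
  · exact Complex.imCLM.contDiff.comp hf.fst.fst
  · exact hf.fst.snd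
  · exact hf.snd

theorem fat_det {a b c : ℂ → E4} (ha : ContDiff ℝ ∞ a) (hb : ContDiff ℝ ∞ b)
    (hc : ContDiff ℝ ∞ c) (e : E4) : ContDiff ℝ ∞ fun x => det4 (a x) (b x) (c x) e := by
  simp only [det4, Matrix.det_apply']
  refine ContDiff.sum fun σ _ => contDiff_const.mul (contDiff_prod fun i _ => ?_)
  generalize σ i = k
  fin_cases k
  · exact fat_coords ha i
  · exact fat_coords hb i
  · exact fat_coords hc i
  · exact contDiff_const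

/-- The cofactor vector. -/
def fatCof (a b c : E4) : E4 :=
  det4 a b c ((1, 0), 0) • ((1, 0), 0) + det4 a b c ((Complex.I, 0), 0) • ((Complex.I, 0), 0) +
    det4 a b c ((0, 1), 0) • ((0, 1), 0) + det4 a b c ((0, 0), 1) • ((0, 0), 1)

theorem fat_expand (a b c y : E4) : det4 a b c y =
    y.1.1.re * det4 a b c ((1, 0), 0) + y.1.1.im * det4 a b c ((Complex.I, 0), 0) +
      y.1.2 * det4 a b c ((0, 1), 0) + y.2 * det4 a b c ((0, 0), 1) := by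
  simp [det4, coords, Matrix.det_succ_row_zero, Fin.sum_univ_succ, Fin.succAbove]
  ring

theorem fat_lin (a b c y z : E4) (s t : ℝ) :
    det4 a b c (s • y + t • z) = s * det4 a b c y + t * det4 a b c z := by
  rw [fat_expand a b c (s • y + t • z), fat_expand a b c y, fat_expand a b c z]
  simp
  ring

theorem fat_cof_pos {a b c y : E4} (h : det4 a b c y ≠ 0) : 0 < det4 a b c (fatCof a b c) := by
  have e : det4 a b c (fatCof a b c) = det4 a b c ((1, 0), 0) ^ 2 +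
      det4 a b c ((Complex.I, 0), 0) ^ 2 + det4 a b c ((0, 1), 0) ^ 2 +
      det4 a b c ((0, 0), 1) ^ 2 := by
    rw [fat_expand a b c (fatCof a b c)]
    simp [fatCof]
    ring
  rw [e]
  by_contra h0
  apply h
  have h1 := sq_nonneg (det4 a b c ((1, 0), 0))
  have h2 := sq_nonneg (det4 a b c ((Complex.I, 0), 0))
  have h3 := sq_nonneg (det4 a b c ((0, 1), 0))
  have h4 := sq_nonneg (det4 a b c ((0, 0), 1))
  rw [fat_expand, pow_eq_zero_iff two_ne_zero |>.1 (show det4 a b c ((1, 0), 0) ^ 2 = 0 by linarith),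
    pow_eq_zero_iff two_ne_zero |>.1 (show det4 a b c ((Complex.I, 0), 0) ^ 2 = 0 by linarith),
    pow_eq_zero_iff two_ne_zero |>.1 (show det4 a b c ((0, 1), 0) ^ 2 = 0 by linarith),
    pow_eq_zero_iff two_ne_zero |>.1 (show det4 a b c ((0, 0), 1) ^ 2 = 0 by linarith)]
  simp

theorem fat_exists {T : ℂ × ℝ →L[ℝ] E4} (hT : Injective T) :
    ∃ y, det4 (T (1, 0)) (T (Complex.I, 0)) (T (0, 1)) y ≠ 0 := by
  have h1 : ¬ Surjective T := fun h => by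
    have := LinearMap.finrank_le_finrank_of_surjective (f := (T : ℂ × ℝ →ₗ[ℝ] E4)) h
    simp [Module.finrank_prod] at this
  obtain ⟨y, hy⟩ := not_forall.1 h1
  refine ⟨y, (det4_ne_zero_iff_indep _ _ _ _).2 fun x₁ x₂ x₃ x₄ h => ?_⟩
  have e : x₁ • T (1, 0) + x₂ • T (Complex.I, 0) + x₃ • T (0, 1) = T (⟨x₁, x₂⟩, x₃) := by
    rw [← map_smul, ← map_smul, ← map_smul, ← map_add, ← map_add]
    congr 1
    refine Prod.ext (Complex.ext ?_ ?_) ?_ <;> simp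
  rw [e] at h
  have h4 : x₄ = 0 := by
    by_contra h4
    refine hy ⟨-(x₄⁻¹ • (⟨x₁, x₂⟩, x₃)), ?_⟩
    rw [map_neg, map_smul, eq_neg_of_add_eq_zero_left h, smul_neg, neg_neg, smul_smul,
      inv_mul_cancel₀ h4, one_smul]
  rw [h4, zero_smul, add_zero, ← T.map_zero] at h
  have h5 := hT h
  exact ⟨congrArg (fun p : ℂ × ℝ => p.1.re) h5, congrArg (fun p : ℂ × ℝ => p.1.im) h5,
    congrArg Prod.snd h5, h4⟩

theorem fat_comb (T : ℂ × ℂ →L[ℝ] E4) (x₁ x₂ x₃ x₄ : ℝ) :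
    x₁ • T (1, 0) + x₂ • T (Complex.I, 0) + x₃ • T (0, 1) + x₄ • T (0, Complex.I) =
      T (⟨x₁, x₂⟩, ⟨x₃, x₄⟩) := by
  rw [← map_smul, ← map_smul, ← map_smul, ← map_smul, ← map_add, ← map_add, ← map_add]
  congr 1
  refine Prod.ext (Complex.ext ?_ ?_) (Complex.ext ?_ ?_) <;> simp

theorem fat_bij_iff (T : ℂ × ℂ →L[ℝ] E4) : Bijective T ↔
    det4 (T (1, 0)) (T (Complex.I, 0)) (T (0, 1)) (T (0, Complex.I)) ≠ 0 := by
  refine ⟨fun h => (det4_ne_zero_iff _ _ _ _).2 fun y => ?_, fun h => ⟨?_, fun y => ?_⟩⟩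
  · obtain ⟨p, hp⟩ := h.2 y
    exact ⟨p.1.re, p.1.im, p.2.re, p.2.im, by rw [fat_comb]; exact hp⟩
  · refine (injective_iff_map_eq_zero T).2 fun p hp => ?_
    obtain ⟨h1, h2, h3, h4⟩ := (det4_ne_zero_iff_indep _ _ _ _).1 h p.1.re p.1.im p.2.re p.2.im
      (by rw [fat_comb]; exact hp)
    exact Prod.ext (Complex.ext h1 h2) (Complex.ext h3 h4)
  · obtain ⟨x₁, x₂, x₃, x₄, hx⟩ := (det4_ne_zero_iff _ _ _ _).1 h y
    exact ⟨_, (fat_comb T _ _ _ _).symm.trans hx⟩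

/-- The derivative along the three-dimensional slab. -/
theorem fat_restrict {F : ℂ × ℝ → E4} {G : ℂ × ℂ → E4} {ξ : ℂ} (hG : DifferentiableAt ℝ G (ξ, 0))
    (he : ∀ᶠ q : ℂ × ℝ in 𝓝 (ξ, 0), G (q.1, (q.2 : ℂ)) = F q) (a : ℂ) (l : ℝ) :
    fderiv ℝ G (ξ, 0) (a, (l : ℂ)) = fderiv ℝ F (ξ, 0) (a, l) := by
  let ι : ℂ × ℝ →L[ℝ] ℂ × ℂ := (ContinuousLinearMap.id ℝ ℂ).prodMap Complex.ofRealCLM
  have h1 : HasFDerivAt (G ∘ ι) ((fderiv ℝ G (ξ, 0)).comp ι) (ξ, 0) :=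
    HasFDerivAt.comp (ξ, (0 : ℝ)) (g := G) (f := ι) hG.hasFDerivAt ι.hasFDerivAt
  have h2 : HasFDerivAt F ((fderiv ℝ G (ξ, 0)).comp ι) (ξ, 0) :=
    h1.congr_of_eventuallyEq (he.mono fun q hq => hq.symm)
  rw [h2.fderiv]
  rfl

/-- The derivative in the fourth direction. -/
theorem fat_line {G : ℂ × ℂ → E4} {ξ : ℂ} (hG : DifferentiableAt ℝ G (ξ, 0)) :
    HasDerivAt (fun t : ℝ => G (ξ, t * Complex.I)) (fderiv ℝ G (ξ, 0) (0, Complex.I)) 0 := by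
  have h1 : HasDerivAt (fun t : ℝ => (ξ, (t : ℂ) * Complex.I)) (0, Complex.I) 0 := by
    refine (hasDerivAt_const _ _).prodMk ?_
    simpa using (Complex.ofRealCLM.hasDerivAt (x := 0)).mul_const Complex.I
  exact hG.hasFDerivAt.comp_hasDerivAt_of_eq 0 h1 (by simp)

/-- The determinant with the three slab directions. -/
def fatD (F : ℂ × ℝ → E4) (ξ : ℂ) (y : E4) : ℝ := det4 (fderiv ℝ F (ξ, 0) (1, 0))
  (fderiv ℝ F (ξ, 0) (Complex.I, 0)) (fderiv ℝ F (ξ, 0) (0, 1)) y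

/-- A normal field of the slab. -/
def fatN (F : ℂ × ℝ → E4) (ξ : ℂ) : E4 := fatCof (fderiv ℝ F (ξ, 0) (1, 0))
  (fderiv ℝ F (ξ, 0) (Complex.I, 0)) (fderiv ℝ F (ξ, 0) (0, 1))

theorem fat_key {F : ℂ × ℝ → E4} {H : ℂ × ℂ → E4} {ξ : ℂ} (h1 : DifferentiableAt ℝ H (ξ, 0))
    (h2 : ∀ᶠ q : ℂ × ℝ in 𝓝 (ξ, 0), H (q.1, (q.2 : ℂ)) = F q) :
    Bijective (fderiv ℝ H (ξ, 0)) ↔ fatD F ξ (fderiv ℝ H (ξ, 0) (0, Complex.I)) ≠ 0 := by
  rw [fat_bij_iff, fatD, ← fat_restrict h1 h2, ← fat_restrict h1 h2, ← fat_restrict h1 h2,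
    Complex.ofReal_zero, Complex.ofReal_one]

theorem fat_sF {F : ℂ × ℝ → E4} (hF : ContDiff ℝ ∞ F) (p : ℂ × ℝ) :
    ContDiff ℝ ∞ fun ξ : ℂ => fderiv ℝ F (ξ, 0) p :=
  ContDiff.clm_apply (ContDiff.comp (f := fun ξ : ℂ => (ξ, (0 : ℝ)))
    (hF.fderiv_right (m := ∞) (by simp)) (contDiff_id.prodMk contDiff_const)) contDiff_const

theorem fat_sN {F : ℂ × ℝ → E4} (hF : ContDiff ℝ ∞ F) : ContDiff ℝ ∞ (fatN F) := by
  have := fun e => fat_det (fat_sF hF (1, 0)) (fat_sF hF (Complex.I, 0)) (fat_sF hF (0, 1)) e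
  unfold fatN fatCof
  exact ((((this _).smul contDiff_const).add ((this _).smul contDiff_const)).add
    ((this _).smul contDiff_const)).add ((this _).smul contDiff_const)

theorem fat_cD {F : ℂ × ℝ → E4} (hF : ContDiff ℝ ∞ F) {v : ℂ → E4} (hv : Continuous v) :
    Continuous fun ξ => fatD F ξ (v ξ) :=
  Continuous.comp (f := fun ξ : ℂ => (fderiv ℝ F (ξ, 0) (1, 0), fderiv ℝ F (ξ, 0) (Complex.I, 0),
    fderiv ℝ F (ξ, 0) (0, 1), v ξ)) det4_continuous ((fat_sF hF _).continuous.prodMk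
      ((fat_sF hF _).continuous.prodMk ((fat_sF hF _).continuous.prodMk hv)))

/-- The interpolated fat slab. -/
def fatF (F : ℂ × ℝ → E4) (G : ℂ × ℂ → E4) (χ : ℂ → ℝ) (n : ℂ → E4) (q : ℂ × ℂ) : E4 :=
  F (q.1, q.2.re) + χ q.1 • (G q - G (q.1, (q.2.re : ℂ))) + q.2.im • n q.1

theorem fatF_smooth {F : ℂ × ℝ → E4} {G : ℂ × ℂ → E4} {χ : ℂ → ℝ} {n : ℂ → E4}
    (hF : ContDiff ℝ ∞ F) (hG : ContDiff ℝ ∞ G) (hχ : ContDiff ℝ ∞ χ) (hn : ContDiff ℝ ∞ n) :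
    ContDiff ℝ ∞ (fatF F G χ n) := by
  have sre : ContDiff ℝ ∞ fun q : ℂ × ℂ => q.2.re := Complex.reCLM.contDiff.comp contDiff_snd
  have sim : ContDiff ℝ ∞ fun q : ℂ × ℂ => q.2.im := Complex.imCLM.contDiff.comp contDiff_snd
  have a1 : ContDiff ℝ ∞ fun q : ℂ × ℂ => F (q.1, q.2.re) := hF.comp (contDiff_fst.prodMk sre)
  have a2 : ContDiff ℝ ∞ fun q : ℂ × ℂ => ((q.2.re : ℝ) : ℂ) := Complex.ofRealCLM.contDiff.comp sre
  have a3 : ContDiff ℝ ∞ fun q : ℂ × ℂ => G (q.1, (q.2.re : ℂ)) := hG.comp (contDiff_fst.prodMk a2)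
  have a4 : ContDiff ℝ ∞ fun q : ℂ × ℂ => χ q.1 := hχ.comp contDiff_fst
  have a5 : ContDiff ℝ ∞ fun q : ℂ × ℂ => n q.1 := hn.comp contDiff_fst
  exact (a1.add (a4.smul (hG.sub a3))).add (sim.smul a5)

theorem fatF_real (F : ℂ × ℝ → E4) (G : ℂ × ℂ → E4) (χ : ℂ → ℝ) (n : ℂ → E4) (ξ : ℂ) (l : ℝ) :
    fatF F G χ n (ξ, (l : ℂ)) = F (ξ, l) := by simp [fatF]

theorem fatF_line (F : ℂ × ℝ → E4) {G : ℂ × ℂ → E4} (χ : ℂ → ℝ) (n : ℂ → E4) {ξ : ℂ}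
    (hG : DifferentiableAt ℝ G (ξ, 0)) : HasDerivAt (fun t : ℝ => fatF F G χ n (ξ, t * Complex.I))
      (χ ξ • fderiv ℝ G (ξ, 0) (0, Complex.I) + n ξ) 0 := by
  have h2 := ((((fat_line hG).sub_const (G (ξ, 0))).const_smul (χ ξ)).const_add
    (F (ξ, 0))).add ((hasDerivAt_id (0 : ℝ)).smul_const (n ξ))
  rw [one_smul] at h2
  refine h2.congr_of_eventuallyEq (Eventually.of_forall fun t => ?_)
  simp [fatF]

theorem fat_ne {c s a e : ℝ} (h0 : 0 ≤ c) (h1 : c ≤ 1) (hs : s ≠ 0) (he : 0 < e)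
    (h : c ≠ 0 → 0 < s * a) : c * a + (1 - c) * s * e ≠ 0 := by
  have p3 := mul_pos (mul_self_pos.2 hs) he
  refine fun h' => (?_ : 0 < s * (c * a + (1 - c) * s * e)).ne' (by rw [h', mul_zero])
  rcases h0.eq_or_lt with h0 | h0
  · rw [← h0]; nlinarith
  · nlinarith [mul_pos h0 (h h0.ne'), mul_nonneg (sub_nonneg.2 h1) p3.le]

/-- A three-dimensional slab extends to a fat slab with a prescribed germ at one point. -/
theorem fatten {F : ℂ × ℝ → E4} (hF : ContDiff ℝ ∞ F)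
    (hi : ∀ ξ ∈ Half, Injective (fderiv ℝ F (ξ, 0))) {Ft : ℂ × ℂ → E4} {U : Set (ℂ × ℂ)}
    (hU : IsOpen U) {d : ℂ} (hd : (d, (0 : ℂ)) ∈ U) (hFt : ContDiffOn ℝ ∞ Ft U)
    (he : ∀ᶠ q : ℂ × ℝ in 𝓝 (d, 0), Ft (q.1, (q.2 : ℂ)) = F q)
    (hb : Bijective (fderiv ℝ Ft (d, 0))) :
    ∃ F4 : ℂ × ℂ → E4, ContDiff ℝ ∞ F4 ∧ (∀ ξ (l : ℝ), F4 (ξ, (l : ℂ)) = F (ξ, l)) ∧
      (∀ ξ ∈ Half, Bijective (fderiv ℝ F4 (ξ, 0))) ∧ ∀ᶠ q in 𝓝 (d, (0 : ℂ)), F4 q = Ft q := by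
  obtain ⟨G, hG, hG'⟩ := globalize isCompact_singleton hU (singleton_subset_iff.2 hd) hFt
  rw [nhdsSet_singleton] at hG'
  have dG : Differentiable ℝ G := hG.differentiable (by simp)
  have sG : Continuous fun ξ : ℂ => fderiv ℝ G (ξ, 0) (0, Complex.I) :=
    Continuous.clm_apply (Continuous.comp (f := fun ξ : ℂ => (ξ, (0 : ℂ)))
      (hG.continuous_fderiv (by simp)) (by fun_prop)) continuous_const
  have c1 : Tendsto (fun q : ℂ × ℝ => (q.1, (q.2 : ℂ))) (𝓝 (d, 0)) (𝓝 (d, 0)) :=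
    Continuous.tendsto' (by fun_prop) _ _ (by simp)
  have heG : ∀ᶠ q : ℂ × ℝ in 𝓝 (d, 0), G (q.1, (q.2 : ℂ)) = F q := by
    filter_upwards [he, c1.eventually hG'] with q h1 h2 using h2.trans h1
  obtain ⟨s, hs⟩ : ∃ s, s = fatD F d (fderiv ℝ G (d, 0) (0, Complex.I)) := ⟨_, rfl⟩
  have s0 : s ≠ 0 :=
    hs ▸ (fat_key (dG _) heG).1 (by rw [EventuallyEq.fderiv_eq hG']; exact hb)
  obtain ⟨χ, hχ, χ0, χ1, -, χ2⟩ := exists_bump (K := {d})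
    (U := {ξ | 0 < s * fatD F ξ (fderiv ℝ G (ξ, 0) (0, Complex.I))}) isCompact_singleton
    (isOpen_lt continuous_const (continuous_const.mul (fat_cD hF sG)))
    (singleton_subset_iff.2 (by rw [mem_ofPred_eq, ← hs]; exact mul_self_pos.2 s0))
  rw [nhdsSet_singleton] at χ1
  have s4 : ContDiff ℝ ∞ (fatF F G χ fun ξ => ((1 - χ ξ) * s) • fatN F ξ) :=
    fatF_smooth hF hG hχ (((contDiff_const.sub hχ).mul contDiff_const).smul (fat_sN hF))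
  refine ⟨_, s4, fatF_real _ _ _ _, fun ξ hξ => ?_, ?_⟩
  · have d4 := s4.differentiable (by simp) (ξ, 0)
    rw [fat_key d4 (Eventually.of_forall fun q => fatF_real _ _ _ _ _ _),
      (fat_line d4).unique (fatF_line _ _ _ (dG _)), fatD, fat_lin]
    obtain ⟨y, hy⟩ := fat_exists (hi ξ hξ)
    exact fat_ne (χ0 ξ).1 (χ0 ξ).2 s0 (fat_cof_pos hy) fun h => χ2 (subset_tsupport _ h)
  · have c2 : Tendsto (fun q : ℂ × ℂ => (q.1, q.2.re)) (𝓝 (d, 0)) (𝓝 (d, 0)) :=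
      Continuous.tendsto' (by fun_prop) _ _ (by simp)
    filter_upwards [hG', c2.eventually heG, (continuous_fst.tendsto (d, (0 : ℂ))).eventually χ1]
      with q h1 h2 h3
    simp only [fatF, h3, h2, h1, sub_self, zero_mul, zero_smul, smul_zero, add_zero, one_smul,
      add_sub_cancel]

end Pool.Agent.Lib.MP_1d0d1b_gt
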