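import Pool.Agent.Lib.MP_1d0d1b_gt.KitDefs
import Pool.Agent.Lib.MP_1d0d1b_gt.TopA
import Pool.Agent.Lib.MP_1d0d1b_gt.Prof

open Set Function Filter Topology
open scoped ContDiff Real

noncomputable section

namespace Pool.Agent.Lib.MP_1d0d1b_gt

theorem finger_solve {a b : ℂ} {σ τ : ℝ} (hd : 0 < σ * τ * (b.re * a.im - b.im * a.re))
    (ht : 0 ≤ σ * b.re + τ * a.im) {t : ℝ} (ht0 : 0 ≤ t) (ht1 : t ≤ 1) {w : ℂ}
    (h : (1 - t) • w + t • ((τ * w.im) • a + (σ * w.re) • b) = 0) : w = 0 := by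
  have h1 := congrArg Complex.re h
  have h2 := congrArg Complex.im h
  simp only [Complex.add_re, Complex.add_im, Complex.smul_re, Complex.smul_im, smul_eq_mul,
    Complex.zero_re, Complex.zero_im] at h1 h2
  have hD : 0 < (1 - t) ^ 2 + t * (1 - t) * (σ * b.re + τ * a.im) +
      t ^ 2 * (σ * τ * (b.re * a.im - b.im * a.re)) := by
    have e1 : 0 ≤ t * (1 - t) * (σ * b.re + τ * a.im) :=
      mul_nonneg (mul_nonneg ht0 (by linarith)) ht
    rcases eq_or_lt_of_le ht0 with h0 | h0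
    · subst h0
      norm_num
    · have e2 : 0 < t ^ 2 * (σ * τ * (b.re * a.im - b.im * a.re)) := mul_pos (by positivity) hd
      nlinarith [sq_nonneg (1 - t)]
  have hx : ((1 - t) ^ 2 + t * (1 - t) * (σ * b.re + τ * a.im) +
      t ^ 2 * (σ * τ * (b.re * a.im - b.im * a.re))) * w.re = 0 := by
    linear_combination ((1 - t) + t * τ * a.im) * h1 - t * τ * a.re * h2
  have hy : ((1 - t) ^ 2 + t * (1 - t) * (σ * b.re + τ * a.im) +
      t ^ 2 * (σ * τ * (b.re * a.im - b.im * a.re))) * w.im = 0 := by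
    linear_combination ((1 - t) + t * σ * b.re) * h2 - t * σ * b.im * h1
  apply Complex.ext
  · exact (mul_eq_zero.1 hx).resolve_left hD.ne'
  · exact (mul_eq_zero.1 hy).resolve_left hD.ne'

theorem finger_sign {a b : ℂ} (h : ∀ x y : ℝ, y • a + x • b = 0 → x = 0 ∧ y = 0) :
    ∃ σ τ : ℝ, (σ = 1 ∨ σ = -1) ∧ (τ = 1 ∨ τ = -1) ∧ ∀ t ∈ Icc (0 : ℝ) 1, ∀ w : ℂ,
      (1 - t) • w + t • ((τ * w.im) • a + (σ * w.re) • b) = 0 → w = 0 := by
  have hδ : b.re * a.im - b.im * a.re ≠ 0 := by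
    intro h0
    have e1 := h a.im (-b.im) (by
      apply Complex.ext
      · simp only [Complex.add_re, Complex.smul_re, smul_eq_mul, Complex.zero_re]
        linear_combination h0
      · simp only [Complex.add_im, Complex.smul_im, smul_eq_mul, Complex.zero_im]
        ring)
    have e2 := h a.re (-b.re) (by
      apply Complex.ext
      · simp only [Complex.add_re, Complex.smul_re, smul_eq_mul, Complex.zero_re]
        ring
      · simp only [Complex.add_im, Complex.smul_im, smul_eq_mul, Complex.zero_im]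
        linear_combination -h0)
    have ha : a = 0 := Complex.ext e2.1 e1.1
    have e3 := h 0 1 (by simp [ha])
    exact one_ne_zero e3.2
  rcases lt_or_gt_of_ne hδ with hn | hp
  · rcases le_total 0 (b.re - a.im) with h1 | h1
    · exact ⟨1, -1, Or.inl rfl, Or.inr rfl, fun t ht w hw =>
        finger_solve (by linarith) (by linarith) ht.1 ht.2 hw⟩
    · exact ⟨-1, 1, Or.inr rfl, Or.inl rfl, fun t ht w hw =>
        finger_solve (by linarith) (by linarith) ht.1 ht.2 hw⟩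
  · rcases le_total 0 (b.re + a.im) with h1 | h1
    · exact ⟨1, 1, Or.inl rfl, Or.inl rfl, fun t ht w hw =>
        finger_solve (by linarith) (by linarith) ht.1 ht.2 hw⟩
    · exact ⟨-1, -1, Or.inr rfl, Or.inr rfl, fun t ht w hw =>
        finger_solve (by linarith) (by linarith) ht.1 ht.2 hw⟩

/-- The triangular coordinate change into the chart. -/
def fingerT (L : ℂ ≃L[ℝ] ℂ) (p : ℂ) (σ τ : ℝ) (h : ℂ → ℝ) (q : ℂ × ℂ) : ℝ × ℝ × ℂ :=
  (h q.1 + τ * q.2.im, σ * q.2.re, L.symm (q.1 - p))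

/-- Its derivative. -/
def fingerD (L : ℂ ≃L[ℝ] ℂ) (σ τ : ℝ) (h' : ℂ →L[ℝ] ℝ) : ℂ × ℂ →L[ℝ] ℝ × ℝ × ℂ :=
  (h'.comp (ContinuousLinearMap.fst ℝ ℂ ℂ) +
      τ • Complex.imCLM.comp (ContinuousLinearMap.snd ℝ ℂ ℂ)).prod
    ((σ • Complex.reCLM.comp (ContinuousLinearMap.snd ℝ ℂ ℂ)).prod
      ((L.symm : ℂ →L[ℝ] ℂ).comp (ContinuousLinearMap.fst ℝ ℂ ℂ)))

theorem fingerD_apply (L : ℂ ≃L[ℝ] ℂ) (σ τ : ℝ) (h' : ℂ →L[ℝ] ℝ) (v : ℂ × ℂ) :
    fingerD L σ τ h' v = (h' v.1 + τ * v.2.im, σ * v.2.re, L.symm v.1) := by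
  simp [fingerD]

theorem fingerT_contDiff (L : ℂ ≃L[ℝ] ℂ) (p : ℂ) (σ τ : ℝ) {h : ℂ → ℝ} (hh' : ContDiff ℝ ∞ h) :
    ContDiff ℝ ∞ (fingerT L p σ τ h) := by
  unfold fingerT
  refine ContDiff.prodMk ?_ (ContDiff.prodMk ?_ ?_)
  · exact (hh'.comp contDiff_fst).add
      (contDiff_const.mul (Complex.imCLM.contDiff.comp contDiff_snd))
  · exact contDiff_const.mul (Complex.reCLM.contDiff.comp contDiff_snd)
  · exact L.symm.contDiff.comp (contDiff_fst.sub contDiff_const)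

theorem fingerT_hasFDerivAt (L : ℂ ≃L[ℝ] ℂ) (p : ℂ) (σ τ : ℝ) {h : ℂ → ℝ} {h' : ℂ →L[ℝ] ℝ}
    {q : ℂ × ℂ} (hd : HasFDerivAt h h' q.1) :
    HasFDerivAt (fingerT L p σ τ h) (fingerD L σ τ h') q := by
  unfold fingerT fingerD
  refine HasFDerivAt.prodMk ?_ (HasFDerivAt.prodMk ?_ ?_)
  · exact (hd.comp q hasFDerivAt_fst).add
      (((Complex.imCLM.comp (ContinuousLinearMap.snd ℝ ℂ ℂ)).hasFDerivAt (x := q)).const_mul τ)
  · exact ((Complex.reCLM.comp (ContinuousLinearMap.snd ℝ ℂ ℂ)).hasFDerivAt (x := q)).const_mul σ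
  · exact (L.symm : ℂ →L[ℝ] ℂ).hasFDerivAt.comp q (hasFDerivAt_fst.sub_const p)

theorem fingerD_inj (L : ℂ ≃L[ℝ] ℂ) {σ τ : ℝ} (hσ : σ ≠ 0) (hτ : τ ≠ 0) (h' : ℂ →L[ℝ] ℝ) :
    Injective (fingerD L σ τ h') := by
  refine (injective_iff_map_eq_zero _).2 fun v hv => ?_
  rw [fingerD_apply, Prod.mk_eq_zero, Prod.mk_eq_zero] at hv
  obtain ⟨h1, h2, h3⟩ := hv
  have e1 : v.1 = 0 := by simpa using h3
  rw [e1, map_zero, zero_add] at h1
  have e2 : v.2 = 0 := Complex.ext ((mul_eq_zero.1 h2).resolve_left hσ)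
    ((mul_eq_zero.1 h1).resolve_left hτ)
  exact Prod.ext e1 e2

/-- The choice of signs making the whole segment between the two derivatives injective. -/
theorem finger_linear {A : ℂ × ℂ →L[ℝ] E4} (hA : Bijective A) {D : ℝ × ℝ × ℂ →L[ℝ] E4}
    (hD : Injective D) {L : ℂ ≃L[ℝ] ℂ} (hAD : ∀ w, D (0, 0, w) = A (L w, 0)) :
    ∃ σ τ : ℝ, (σ = 1 ∨ σ = -1) ∧ (τ = 1 ∨ τ = -1) ∧ ∀ t ∈ Icc (0 : ℝ) 1,
      Injective (A + t • (D.comp (fingerD L σ τ 0) - A)) := by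
  obtain ⟨a, ha⟩ := hA.2 (D (1, 0, 0))
  obtain ⟨b, hb⟩ := hA.2 (D (0, 1, 0))
  have key : ∀ (y x : ℝ) (c : ℂ), D (y, x, L.symm c) = A ((c, 0) + y • a + x • b) := by
    intro y x c
    have e : ((y, x, L.symm c) : ℝ × ℝ × ℂ) =
        (0, 0, L.symm c) + y • (1, 0, 0) + x • (0, 1, 0) := by simp
    rw [e, map_add, map_add, map_smul, map_smul, hAD, ← ha, ← hb, map_add, map_add, map_smul,
      map_smul, L.apply_symm_apply]
  obtain ⟨σ, τ, hσ, hτ, H⟩ := finger_sign (a := a.2) (b := b.2) (by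
    intro x y hxy
    have e := key y x (-(y • a.1 + x • b.1))
    have e0 : ((-(y • a.1 + x • b.1), 0) : ℂ × ℂ) + y • a + x • b = 0 := by
      apply Prod.ext
      · simp only [Prod.fst_add, Prod.smul_fst, Prod.fst_zero]
        abel
      · simp only [Prod.snd_add, Prod.smul_snd, Prod.snd_zero, zero_add]
        exact hxy
    rw [e0, map_zero, ← map_zero D] at e
    have e2 := hD e
    rw [Prod.mk_eq_zero, Prod.mk_eq_zero] at e2
    exact ⟨e2.2.1, e2.1⟩)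
  refine ⟨σ, τ, hσ, hτ, fun t ht => (injective_iff_map_eq_zero _).2 fun v hv => ?_⟩
  have e : (A + t • (D.comp (fingerD L σ τ 0) - A)) v =
      A (v + t • (((v.1, 0) + (τ * v.2.im) • a + (σ * v.2.re) • b) - v)) := by
    rw [map_add, map_smul, map_sub, ← key]
    simp [fingerD_apply]
  rw [e, ← map_zero A] at hv
  have e2 := hA.1 hv
  have e3 := congrArg Prod.snd e2
  have e4 := congrArg Prod.fst e2
  simp only [Prod.snd_add, Prod.smul_snd, Prod.snd_sub, Prod.snd_zero, zero_add] at e3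
  have e5 : v.2 = 0 := H t ht v.2 (by rw [← e3]; module)
  simp only [e5, Prod.fst_add, Prod.smul_fst, Prod.fst_sub, Prod.fst_zero, Complex.zero_im,
    Complex.zero_re, mul_zero, zero_smul, add_zero, sub_self, smul_zero] at e4
  exact Prod.ext e4 e5

theorem finger_exists {FZ : ℂ × ℂ → E4} (hZ : ContDiff ℝ ∞ FZ) {Ψ : ℝ × ℝ × ℂ → E4}
    (hΨ : ContDiff ℝ ∞ Ψ) {L : ℂ ≃L[ℝ] ℂ} {p : ℂ} (hb : Bijective (fderiv ℝ FZ (p, 0)))
    (hat : ∀ w, Ψ (0, 0, w) = FZ (p + L w, 0)) {κ : ℝ} (hκ : 0 < κ) (hκ' : κ ≤ 1 / 3)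
    (hΨb : ∀ u ∈ Icc (0 : ℝ) (1 + κ), Bijective (fderiv ℝ Ψ (u, 0, 0))) :
    ∃ σ : ℝ, (σ = 1 ∨ σ = -1) ∧ ∀ᶠ r in 𝓝[>] (0 : ℝ), ∃ F', IsFinger FZ Ψ L p κ σ r F' := by
  have hZd : Differentiable ℝ FZ := hZ.differentiable (by simp)
  have hΨd : Differentiable ℝ Ψ := hΨ.differentiable (by simp)
  have hAD : ∀ w, fderiv ℝ Ψ (0, 0, 0) (0, 0, w) = fderiv ℝ FZ (p, 0) (L w, 0) := by
    intro w
    have h1 : HasFDerivAt (fun w : ℂ => ((0 : ℝ), (0 : ℝ), w))
        ((0 : ℂ →L[ℝ] ℝ).prod ((0 : ℂ →L[ℝ] ℝ).prod (ContinuousLinearMap.id ℝ ℂ))) 0 :=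
      (hasFDerivAt_const _ _).prodMk ((hasFDerivAt_const _ _).prodMk (hasFDerivAt_id _))
    have h2 : HasFDerivAt (fun w : ℂ => (p + L w, (0 : ℂ)))
        ((L : ℂ →L[ℝ] ℂ).prod (0 : ℂ →L[ℝ] ℂ)) 0 :=
      ((L : ℂ →L[ℝ] ℂ).hasFDerivAt.const_add p).prodMk (hasFDerivAt_const _ _)
    have h3 := (hΨd (0, 0, 0)).hasFDerivAt.comp (0 : ℂ) h1
    have h4 : HasFDerivAt FZ (fderiv ℝ FZ (p, 0)) (p + L 0, (0 : ℂ)) := by
      rw [map_zero, add_zero]
      exact (hZd _).hasFDerivAt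
    have h5 := HasFDerivAt.comp (f := fun w : ℂ => (p + L w, (0 : ℂ))) (0 : ℂ) h4 h2
    have h6 : (Ψ ∘ fun w : ℂ => ((0 : ℝ), (0 : ℝ), w)) = FZ ∘ fun w : ℂ => (p + L w, (0 : ℂ)) :=
      funext hat
    rw [h6] at h3
    have h7 := congrArg (fun A : ℂ →L[ℝ] E4 => A w) (h3.unique h5)
    simpa using h7
  obtain ⟨σ, τ, hσ, hτ, hlin⟩ := finger_linear hb
    (hΨb 0 ⟨le_rfl, by linarith⟩).1 hAD
  have hσ0 : σ ≠ 0 := by rcases hσ with h | h <;> rw [h] <;> norm_num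
  have hτ0 : τ ≠ 0 := by rcases hτ with h | h <;> rw [h] <;> norm_num
  refine ⟨σ, hσ, ?_⟩
  -- the chart is immersive near the segment
  have hE1 : ∀ᶠ W in 𝓝 (0 : ℂ), ∀ u ∈ Icc (0 : ℝ) (1 + κ), Bijective (fderiv ℝ Ψ (u, 0, W)) := by
    refine isCompact_Icc.eventually_forall_of_forall_eventually fun u hu => ?_
    have hc : Continuous fun z : ℂ × ℝ => ((z.2, 0, z.1) : ℝ × ℝ × ℂ) := by fun_prop
    exact (hc.tendsto (0, u)).eventually (eventually_bij_fderiv hΨ (hΨb u hu))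
  -- the interpolation is immersive near the point
  set G0 : ℂ × ℂ → E4 := fun q => Ψ (fingerT L p σ τ (fun _ => 0) q) with hG0
  have hG0s : ContDiff ℝ ∞ G0 := hΨ.comp (fingerT_contDiff L p σ τ contDiff_const)
  have hG0d : Differentiable ℝ G0 := hG0s.differentiable (by simp)
  have hE2 : ∀ᶠ W in 𝓝 (0 : ℂ), ∀ t ∈ Icc (0 : ℝ) 1, Injective (fderiv ℝ FZ (p + L W, 0) +
      t • (fderiv ℝ G0 (p + L W, 0) - fderiv ℝ FZ (p + L W, 0))) := by
    refine isCompact_Icc.eventually_forall_of_forall_eventually fun t ht => ?_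
    have c1 : Continuous (fderiv ℝ FZ) := hZ.continuous_fderiv (by simp)
    have c2 : Continuous (fderiv ℝ G0) := hG0s.continuous_fderiv (by simp)
    have c3 : Continuous fun z : ℂ × ℝ => ((p + L z.1, 0) : ℂ × ℂ) := by fun_prop
    have hc : Continuous fun z : ℂ × ℝ => fderiv ℝ FZ (p + L z.1, 0) +
        z.2 • (fderiv ℝ G0 (p + L z.1, 0) - fderiv ℝ FZ (p + L z.1, 0)) :=
      (c1.comp c3).add (continuous_snd.smul ((c2.comp c3).sub (c1.comp c3)))
    refine eventually_inj_clm (t₀ := ((0 : ℂ), t)) hc.continuousAt ?_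
    have e : fderiv ℝ G0 (p, 0) = (fderiv ℝ Ψ (0, 0, 0)).comp (fingerD L σ τ 0) := by
      have h1 := fingerT_hasFDerivAt L p σ τ (h := fun _ => 0) (q := (p, 0))
        (hasFDerivAt_const (0 : ℝ) _)
      have h2 : HasFDerivAt Ψ (fderiv ℝ Ψ (0, 0, 0)) (fingerT L p σ τ (fun _ => 0) (p, 0)) := by
        have : fingerT L p σ τ (fun _ => 0) (p, 0) = (0, 0, 0) := by simp [fingerT]
        rw [this]
        exact (hΨd _).hasFDerivAt
      exact (h2.comp (p, 0) h1).fderiv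
    simp only [map_zero, add_zero, e]
    exact hlin t ht
  obtain ⟨ε, hε, hE⟩ := Metric.eventually_nhds_iff.1 (hE1.and hE2)
  have hr : ∀ᶠ r in 𝓝[>] (0 : ℝ), r ∈ Ioo 0 (ε / 3) := Ioo_mem_nhdsGT (by linarith)
  filter_upwards [hr] with r hr
  obtain ⟨hr0, hr1⟩ := hr
  have hr2 : 0 < r ^ 2 := by positivity
  set s : ℂ → ℝ := fun ξ => ‖L.symm (ξ - p)‖ ^ 2 / r ^ 2 with hs
  have hss : ContDiff ℝ ∞ s :=
    ((contDiff_norm_sq ℝ).comp (L.symm.contDiff.comp (contDiff_id.sub contDiff_const))).div_const _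
  have hsW : ∀ W, s (p + L W) = ‖W‖ ^ 2 / r ^ 2 := by
    intro W
    simp [hs]
  set h : ℂ → ℝ := fun ξ => hh κ (s ξ) with hh0
  have hhs : ContDiff ℝ ∞ h := (hh_contDiff κ).comp hss
  set G : ℂ × ℂ → E4 := fun q => Ψ (fingerT L p σ τ h q) with hG
  have hGs : ContDiff ℝ ∞ G := hΨ.comp (fingerT_contDiff L p σ τ hhs)
  set om : ℂ × ℂ → ℝ := fun q => 1 - step 5 9 (s q.1) with hom
  have homs : ContDiff ℝ ∞ om :=
    contDiff_const.sub ((step_contDiff 5 9).comp (hss.comp contDiff_fst))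
  have hom1 : ∀ q : ℂ × ℂ, s q.1 ≤ 5 → om q = 1 := by
    intro q hq
    simp only [hom, step_of_le (show (5 : ℝ) < 9 by norm_num) hq, sub_zero]
  have hGW : ∀ W (l : ℝ), G (p + L W, (l : ℂ)) = Ψ (hh κ (‖W‖ ^ 2 / r ^ 2), σ * l, W) := by
    intro W l
    simp [hG, fingerT, hh0, hsW]
  refine ⟨fun q => FZ q + om q • (G q - FZ q), hZ.add (homs.smul (hGs.sub hZ)), ?_, ?_, ?_, ?_⟩
  · intro ξ w hξ
    have h9 : 9 ≤ s ξ := by
      rw [hs, le_div_iff₀ hr2]
      nlinarith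
    simp only [hom, step_of_ge (show (5 : ℝ) < 9 by norm_num) h9, sub_self, zero_smul, add_zero]
  · intro W
    have e := hGW W 0
    rw [Complex.ofReal_zero, mul_zero] at e
    rcases le_total (‖W‖ ^ 2 / r ^ 2) 5 with h5 | h5
    · have e1 := hom1 (p + L W, 0) (by rw [hsW]; exact h5)
      simp only [e1, e, one_smul, add_sub_cancel]
    · simp only [e, hh_of_ge_four κ (show (4 : ℝ) ≤ ‖W‖ ^ 2 / r ^ 2 by linarith), hat, sub_self,
        smul_zero, add_zero]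
  · intro W l hW
    have h5 : ‖W‖ ^ 2 / r ^ 2 ≤ 5 := by
      rw [div_le_iff₀ hr2]
      nlinarith [norm_nonneg W]
    have e1 := hom1 (p + L W, (l : ℂ)) (by rw [hsW]; exact h5)
    simp only [e1, hGW, one_smul, add_sub_cancel]
  · intro W hW
    obtain ⟨hW1, hW2⟩ := hE (y := W) (by rw [dist_zero_right]; linarith)
    have hsc : Continuous fun q : ℂ × ℂ => s q.1 := hss.continuous.comp continuous_fst
    apply bij_of_inj_CC
    rcases lt_or_ge (‖W‖ ^ 2 / r ^ 2) 5 with h5 | h5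
    · have hev : (fun q => FZ q + om q • (G q - FZ q)) =ᶠ[𝓝 (p + L W, 0)] G := by
        have : ∀ᶠ q : ℂ × ℂ in 𝓝 (p + L W, 0), s q.1 < 5 :=
          hsc.continuousAt.eventually_lt continuousAt_const (by rw [hsW]; exact h5)
        filter_upwards [this] with q hq
        simp only [hom1 q hq.le, one_smul, add_sub_cancel]
      rw [hev.fderiv_eq]
      have h1 := fingerT_hasFDerivAt L p σ τ (h := h) (q := (p + L W, 0))
        ((hhs.differentiable (by simp)) _).hasFDerivAt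
      have h2 : HasFDerivAt Ψ (fderiv ℝ Ψ (hh κ (‖W‖ ^ 2 / r ^ 2), 0, W))
          (fingerT L p σ τ h (p + L W, 0)) := by
        have : fingerT L p σ τ h (p + L W, 0) = (hh κ (‖W‖ ^ 2 / r ^ 2), 0, W) := by
          simp [fingerT, hh0, hsW]
        rw [this]
        exact (hΨd _).hasFDerivAt
      have h3 : HasFDerivAt G _ (p + L W, 0) := h2.comp (p + L W, 0) h1
      rw [h3.fderiv]
      exact (hW1 _ ⟨hh_nonneg hκ.le hκ' _, hh_le hκ.le hκ' (by positivity)⟩).1.comp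
        (fingerD_inj L hσ0 hτ0 _)
    · have hev : (fun q => FZ q + om q • (G q - FZ q)) =ᶠ[𝓝 (p + L W, 0)]
          fun q => FZ q + om q • (G0 q - FZ q) := by
        have : ∀ᶠ q : ℂ × ℂ in 𝓝 (p + L W, 0), 4 < s q.1 :=
          continuousAt_const.eventually_lt hsc.continuousAt (by rw [hsW]; linarith)
        filter_upwards [this] with q hq
        simp only [hG, hG0, fingerT, hh0, hh_of_ge_four κ hq.le]
      rw [hev.fderiv_eq]
      have h1 := (hZd (p + L W, 0)).hasFDerivAt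
      have h2 := (hG0d (p + L W, 0)).hasFDerivAt
      have h3 := ((homs.differentiable (by simp)) (p + L W, 0)).hasFDerivAt
      have h4 := h1.add (h3.smul (h2.sub h1))
      have h0 : G0 (p + L W, 0) - FZ (p + L W, 0) = 0 := by
        simp [hG0, fingerT, hat]
      have h5 : HasFDerivAt (fun q => FZ q + om q • (G0 q - FZ q))
          (fderiv ℝ FZ (p + L W, 0) + om (p + L W, 0) •
            (fderiv ℝ G0 (p + L W, 0) - fderiv ℝ FZ (p + L W, 0))) (p + L W, 0) := by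
        refine h4.congr_fderiv ?_
        ext v <;> simp [h0]
      rw [h5.fderiv]
      refine hW2 _ ⟨?_, ?_⟩
      · simp only [hom]
        linarith [step_le_one 5 9 (s (p + L W))]
      · simp only [hom]
        linarith [step_nonneg 5 9 (s (p + L W))]

end Pool.Agent.Lib.MP_1d0d1b_gt
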