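import Pool.Agent.Lib.MP_1d0d1b_gt.Gamma1

open Set Function Filter Topology
open scoped ContDiff Real

noncomputable section

namespace Pool.Agent.Lib.MP_1d0d1b_gt

/-- The derivative of `gg`. -/
def Gamma2_dg (t : ℝ) : ℝ :=
  -deriv ramp (1 / 100 - t) + deriv ramp (t - 96 / 100) + (1 - deriv ramp (t + 97 / 100))

theorem Gamma2_hasDerivAt_gg (t : ℝ) : HasDerivAt gg (Gamma2_dg t) t := by
  have h1 := (ramp_hasDerivAt (1 / 100 - t)).comp t ((hasDerivAt_id t).const_sub (1 / 100))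
  have h2 := (ramp_hasDerivAt (t - 96 / 100)).comp t ((hasDerivAt_id t).sub_const (96 / 100))
  have h3 := (ramp_hasDerivAt (t + 97 / 100)).comp t ((hasDerivAt_id t).add_const (97 / 100))
  have h4 := (((h1.const_add (-69 / 100)).add h2).add
    (((hasDerivAt_id t).add_const (97 / 100)).sub h3))
  exact h4.congr_deriv (by unfold Gamma2_dg; ring)

theorem Gamma2_hasDerivAt_Γ (t : ℝ) : HasDerivAt Γ (Gamma2_dg t, -Gamma2_dg (-t)) t := by
  have h1 := (Gamma2_hasDerivAt_gg (-t)).comp t (hasDerivAt_neg t)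
  exact (Gamma2_hasDerivAt_gg t).prodMk (h1.congr_deriv (by ring))

theorem Gamma2_det_pos_of_nonneg {t : ℝ} (h : 0 ≤ t) :
    0 < gg (-t) * Gamma2_dg t + gg t * Gamma2_dg (-t) := by
  have e1 : Gamma2_dg t = -deriv ramp (1 / 100 - t) + deriv ramp (t - 96 / 100) := by
    unfold Gamma2_dg
    rw [ramp_deriv_of_ge (u := t + 97 / 100) (by linarith)]
    ring
  have e2 : Gamma2_dg (-t) = -deriv ramp (97 / 100 - t) := by
    unfold Gamma2_dg
    rw [ramp_deriv_of_ge (u := 1 / 100 - -t) (by linarith),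
      ramp_deriv_of_nonpos (u := -t - 96 / 100) (by linarith),
      show -t + 97 / 100 = 97 / 100 - t by ring]
    ring
  rw [e1, e2]
  rcases le_total t (96 / 100) with h1 | h1
  · have a1 := gg_low (t := t) ⟨h, by linarith⟩
    rw [ramp_deriv_of_nonpos (u := t - 96 / 100) (by linarith),
      ramp_deriv_of_ge (u := 97 / 100 - t) (by linarith)]
    rcases le_total t (1 / 100) with h2 | h2
    · rw [gg_down (t := -t) ⟨by linarith, by linarith⟩]
      have a2 := ramp_deriv_nonneg (1 / 100 - t)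
      nlinarith [a1.2, mul_nonneg a2 (show (0 : ℝ) ≤ 68 / 100 - t by linarith)]
    · rw [ramp_deriv_of_nonpos (u := 1 / 100 - t) (by linarith)]
      nlinarith [a1.2]
  · rw [ramp_deriv_of_nonpos (u := 1 / 100 - t) (by linarith)]
    rcases le_total t (97 / 100) with h2 | h2
    · have a1 := gg_low (t := t) ⟨h, h2⟩
      have a2 := gg_corner1 (t := -t) ⟨by linarith, by linarith⟩
      have b1 := ramp_deriv_nonneg (t - 96 / 100)
      have b2 := ramp_deriv_nonneg (97 / 100 - t)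
      have c1 := mul_nonneg b1 (sub_nonneg.mpr a2.1)
      have c2 := mul_nonneg b2 (sub_nonneg.mpr a1.2)
      rcases lt_or_eq_of_le h2 with h3 | h3
      · have b3 := ramp_deriv_pos (u := 97 / 100 - t) (by linarith)
        nlinarith
      · have b3 := ramp_deriv_pos (u := t - 96 / 100) (by linarith)
        nlinarith
    · rw [ramp_deriv_of_ge (u := t - 96 / 100) (by linarith),
        ramp_deriv_of_nonpos (u := 97 / 100 - t) (by linarith), gg_left (t := -t) (by linarith)]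
      norm_num

theorem Gamma2_det_pos (t : ℝ) : 0 < gg (-t) * Gamma2_dg t + gg t * Gamma2_dg (-t) := by
  rcases le_total 0 t with h | h
  · exact Gamma2_det_pos_of_nonneg h
  · have h1 := Gamma2_det_pos_of_nonneg (t := -t) (by linarith)
    rw [neg_neg] at h1
    linarith

/-- `MMi` as a linear map. -/
def Gamma2_L : (ℝ × ℝ) →L[ℝ] ℂ :=
  (ContinuousLinearMap.fst ℝ ℝ ℝ).smulRight (⟨-(5 / 4), -(5 / 2)⟩ : ℂ) +
    (ContinuousLinearMap.snd ℝ ℝ ℝ).smulRight (⟨-(5 / 4), 5 / 2⟩ : ℂ)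

theorem Gamma2_L_apply (p : ℝ × ℝ) : Gamma2_L p = MMi p := by
  apply Complex.ext
  · simp [Gamma2_L, MMi]
    ring
  · simp [Gamma2_L, MMi]
    ring

theorem Gamma2_MMi_smul (s : ℝ) (p : ℝ × ℝ) : MMi (s • p) = (s : ℂ) * MMi p := by
  rw [← Gamma2_L_apply, map_smul, Gamma2_L_apply, Complex.real_smul]

theorem Gamma2_MMi_neg (t : ℝ) : MMi (Γ (-t)) = (starRingEnd ℂ) (MMi (Γ t)) := by
  rw [Γ_neg]
  apply Complex.ext
  · simp [MMi]
    ring
  · simp [MMi]
    ring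

theorem Gamma2_polar (p : ℝ × ℝ) : p = ‖MMi p‖ • MM (circ (Complex.arg (MMi p))) := by
  rw [← map_smul, Complex.real_smul, circ, Complex.norm_mul_exp_arg_mul_I, MM_MMi]

theorem Gamma2_slit {t : ℝ} (h0 : 0 ≤ t) (h : t < 19 / 10) : MMi (Γ t) ∈ Complex.slitPlane := by
  rcases le_total t (97 / 100) with h1 | h1
  · have a1 := gg_low (t := t) ⟨h0, h1⟩
    have a2 := gg_mem (t := -t) (by linarith)
    refine Or.inl ?_
    change 0 < -(5 / 4) * (gg t + gg (-t))
    linarith [a1.2, a2.2]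
  · refine Or.inr (ne_of_gt ?_)
    change 0 < -(5 / 2) * (gg t - gg (-t))
    rw [gg_up h1, gg_left (t := -t) (by linarith)]
    linarith

theorem MMi_Γ_slit {t : ℝ} (h : |t| < 19 / 10) : MMi (Γ t) ∈ Complex.slitPlane := by
  obtain ⟨h1, h2⟩ := abs_lt.mp h
  rcases le_total 0 t with h0 | h0
  · exact Gamma2_slit h0 h2
  · have h3 := Gamma2_slit (t := -t) (by linarith) (by linarith)
    rw [Gamma2_MMi_neg, Complex.mem_slitPlane_iff, Complex.conj_re, Complex.conj_im,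
      neg_ne_zero] at h3
    exact h3

theorem Gamma2_Θ_eq : Θ = fun t => Complex.imCLM (Complex.log (Gamma2_L (Γ t))) := by
  funext t
  rw [Gamma2_L_apply, Complex.imCLM_apply, Complex.log_im, Θ]

theorem Θ_contDiffAt {t : ℝ} (h : |t| < 19 / 10) : ContDiffAt ℝ ∞ Θ t := by
  rw [Gamma2_Θ_eq]
  have h1 : ContDiffAt ℝ ∞ Complex.log (Gamma2_L (Γ t)) :=
    (Complex.contDiffAt_log (by rw [Gamma2_L_apply]; exact MMi_Γ_slit h)).restrict_scalars ℝ
  have h2 : ContDiffAt ℝ ∞ (fun t => Gamma2_L (Γ t)) t :=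
    (Gamma2_L.contDiff.comp Γ_contDiff).contDiffAt
  have h3 := ContDiffAt.comp (g := Complex.log) t h1 h2
  exact Complex.imCLM.contDiff.contDiffAt.comp t h3

theorem Θ_deriv_pos {t : ℝ} (h : |t| < 19 / 10) : 0 < deriv Θ t := by
  have h0 : Gamma2_L (Γ t) ∈ Complex.slitPlane := by
    rw [Gamma2_L_apply]
    exact MMi_Γ_slit h
  have h1 := Gamma2_L.hasFDerivAt.comp_hasDerivAt t (Gamma2_hasDerivAt_Γ t)
  have h2 := Complex.imCLM.hasFDerivAt.comp_hasDerivAt t (h1.clog_real h0)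
  have h3 : deriv Θ t = (MMi (Gamma2_dg t, -Gamma2_dg (-t)) / MMi (Γ t)).im := by
    rw [Gamma2_Θ_eq, ← Gamma2_L_apply, ← Gamma2_L_apply]
    exact h2.deriv
  have h4 : 0 < Complex.normSq (MMi (Γ t)) :=
    Complex.normSq_pos.mpr (Complex.slitPlane_ne_zero (MMi_Γ_slit h))
  rw [h3, Complex.div_im, ← sub_div]
  refine div_pos ?_ h4
  have h5 := Gamma2_det_pos t
  simp only [MMi, Γ]
  nlinarith

theorem Θ_strictMonoOn : StrictMonoOn Θ (Ioo (-19 / 10) (19 / 10)) := by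
  refine strictMonoOn_of_deriv_pos (convex_Ioo _ _) (fun t ht => ?_) fun t ht => ?_
  · exact (Θ_contDiffAt (abs_lt.mpr ⟨by linarith [ht.1], ht.2⟩)).continuousAt.continuousWithinAt
  · rw [interior_Ioo] at ht
    exact Θ_deriv_pos (abs_lt.mpr ⟨by linarith [ht.1], ht.2⟩)

theorem Θ_neg {t : ℝ} (h : |t| < 19 / 10) : Θ (-t) = -Θ t := by
  rw [Θ, Gamma2_MMi_neg, Complex.arg_conj, if_neg (Complex.slitPlane_arg_ne_pi (MMi_Γ_slit h)), Θ]

theorem abs_Θ_lt {t : ℝ} (h : |t| < 19 / 10) : |Θ t| < π :=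
  abs_lt.mpr ⟨Complex.neg_pi_lt_arg _,
    lt_of_le_of_ne (Complex.arg_le_pi _) (Complex.slitPlane_arg_ne_pi (MMi_Γ_slit h))⟩

theorem Θ_main : π / 2 < Θ (140 / 100) := by
  rw [Θ, ← not_le, Complex.arg_le_pi_div_two_iff]
  simp only [MMi, Γ]
  rw [gg_up (t := 140 / 100) (by norm_num), gg_left (t := -(140 / 100)) (by norm_num)]
  norm_num

theorem Γ_eq_polar (t : ℝ) : Γ t = ‖MMi (Γ t)‖ • MM (circ (Θ t)) := Gamma2_polar (Γ t)

/-- The wall curve is star-shaped: positive multiples determine the parameter. -/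
theorem Γ_smul_inj {t t' s s' : ℝ} (h : |t| < 19 / 10) (h' : |t'| < 19 / 10) (hs : 0 < s)
    (hs' : 0 < s') (he : s • Γ t = s' • Γ t') : t = t' ∧ s = s' := by
  have h1 := congrArg MMi he
  rw [Gamma2_MMi_smul, Gamma2_MMi_smul] at h1
  have h2 := congrArg Complex.arg h1
  rw [Complex.arg_real_mul _ hs, Complex.arg_real_mul _ hs'] at h2
  have h3 : t = t' := Θ_strictMonoOn.injOn
    ⟨by linarith [(abs_lt.mp h).1], (abs_lt.mp h).2⟩
    ⟨by linarith [(abs_lt.mp h').1], (abs_lt.mp h').2⟩ h2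
  subst h3
  exact ⟨rfl, Complex.ofReal_injective
    (mul_right_cancel₀ (Complex.slitPlane_ne_zero (MMi_Γ_slit h)) h1)⟩

/-- `Γ t` and `Γ' t` are independent. -/
theorem Γ_indep {t : ℝ} (h : |t| < 19 / 10) {x y : ℝ} (he : x • Γ t + y • deriv Γ t = 0) :
    x = 0 ∧ y = 0 := by
  rw [(Gamma2_hasDerivAt_Γ t).deriv] at he
  have h1 : x * gg t + y * Gamma2_dg t = 0 := congrArg Prod.fst he
  have h2 : x * gg (-t) + y * -Gamma2_dg (-t) = 0 := congrArg Prod.snd he
  have h3 := (Gamma2_det_pos t).ne'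
  constructor
  · apply mul_right_cancel₀ h3
    linear_combination Gamma2_dg (-t) * h1 + Gamma2_dg t * h2
  · apply mul_right_cancel₀ h3
    linear_combination gg (-t) * h1 - gg t * h2

/-- Every direction with `x + y ≤ 0` meets the main part of the wall curve. -/
theorem exists_Γ {p : ℝ × ℝ} (h0 : p ≠ 0) (h : p.1 + p.2 ≤ 0) :
    ∃ t s : ℝ, |t| < 140 / 100 ∧ 0 < s ∧ p = s • Γ t := by
  have h1 : |Complex.arg (MMi p)| ≤ π / 2 := by
    rw [Complex.abs_arg_le_pi_div_two_iff]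
    change 0 ≤ -(5 / 4) * (p.1 + p.2)
    linarith
  have h2 : ContinuousOn Θ (Icc (-(140 / 100)) (140 / 100)) := fun t ht =>
    (Θ_contDiffAt (abs_lt.mpr
      ⟨by linarith [ht.1], by linarith [ht.2]⟩)).continuousAt.continuousWithinAt
  have h3 : Θ (-(140 / 100)) = -Θ (140 / 100) := Θ_neg (by norm_num [abs_of_pos])
  obtain ⟨t, ht, hΘ⟩ := intermediate_value_Ioo (by norm_num) h2
    (show Complex.arg (MMi p) ∈ Ioo (Θ (-(140 / 100))) (Θ (140 / 100)) from
      ⟨by rw [h3]; linarith [Θ_main, (abs_le.mp h1).1], by linarith [Θ_main, (abs_le.mp h1).2]⟩)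
  have h4 : |t| < 19 / 10 := abs_lt.mpr ⟨by linarith [ht.1], by linarith [ht.2]⟩
  have h5 : 0 < ‖MMi (Γ t)‖ := norm_pos_iff.mpr (Complex.slitPlane_ne_zero (MMi_Γ_slit h4))
  have h6 : 0 < ‖MMi p‖ := norm_pos_iff.mpr fun h7 => h0 (by rw [← MM_MMi p, h7, map_zero])
  refine ⟨t, ‖MMi p‖ / ‖MMi (Γ t)‖, abs_lt.mpr ht, div_pos h6 h5, ?_⟩
  have h7 := Γ_eq_polar t
  rw [hΘ] at h7
  calc p = ‖MMi p‖ • MM (circ (Complex.arg (MMi p))) := Gamma2_polar p
    _ = (‖MMi p‖ / ‖MMi (Γ t)‖) • ‖MMi (Γ t)‖ • MM (circ (Complex.arg (MMi p))) := by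
      rw [smul_smul, div_mul_cancel₀ _ h5.ne']
    _ = _ := by rw [← h7]

end Pool.Agent.Lib.MP_1d0d1b_gt
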