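import Pool.Agent.Lib.MP_1d0d1b_gt.Knot

open Set Function Filter Topology
open scoped ContDiff Real

noncomputable section

namespace Pool.Agent.Lib.MP_1d0d1b_gt

theorem gg_contDiff : ContDiff ℝ ∞ gg :=
  ((contDiff_const.add (ramp_contDiff.comp (contDiff_const.sub contDiff_id))).add
    (ramp_contDiff.comp (contDiff_id.sub contDiff_const))).add
    ((contDiff_id.add contDiff_const).sub (ramp_contDiff.comp (contDiff_id.add contDiff_const)))

theorem gg_left {t : ℝ} (h : t ≤ -97 / 100) : gg t = 29 / 100 := by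
  rw [gg, ramp_of_ge (u := 1 / 100 - t) (by linarith), ramp_of_nonpos (u := t - 96 / 100) (by linarith),
    ramp_of_nonpos (u := t + 97 / 100) (by linarith)]
  ring

theorem gg_down {t : ℝ} (h : t ∈ Icc (-96 / 100 : ℝ) 0) : gg t = -68 / 100 - t := by
  rw [gg, ramp_of_ge (u := 1 / 100 - t) (by linarith [h.2]),
    ramp_of_nonpos (u := t - 96 / 100) (by linarith [h.2]),
    ramp_of_ge (u := t + 97 / 100) (by linarith [h.1])]
  ring

theorem gg_flat {t : ℝ} (h : t ∈ Icc (1 / 100 : ℝ) (96 / 100)) : gg t = -69 / 100 := by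
  rw [gg, ramp_of_nonpos (u := 1 / 100 - t) (by linarith [h.1]),
    ramp_of_nonpos (u := t - 96 / 100) (by linarith [h.2]),
    ramp_of_ge (u := t + 97 / 100) (by linarith [h.1])]
  ring

theorem gg_up {t : ℝ} (h : 97 / 100 ≤ t) : gg t = t - 165 / 100 := by
  rw [gg, ramp_of_nonpos (u := 1 / 100 - t) (by linarith),
    ramp_of_ge (u := t - 96 / 100) (by linarith), ramp_of_ge (u := t + 97 / 100) (by linarith)]
  ring

theorem gg_low {t : ℝ} (h : t ∈ Icc (0 : ℝ) (97 / 100)) :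
    gg t ∈ Icc (-69 / 100 : ℝ) (-68 / 100) := by
  obtain ⟨h1, h2⟩ := h
  rw [gg, ramp_of_ge (u := t + 97 / 100) (by linarith)]
  have a1 := ramp_nonneg (1 / 100 - t)
  have a2 := ramp_nonneg (t - 96 / 100)
  refine ⟨by linarith, ?_⟩
  rcases le_total t (1 / 100) with h3 | h3
  · rw [ramp_of_nonpos (u := t - 96 / 100) (by linarith)]
    linarith [ramp_le (u := 1 / 100 - t) (by linarith)]
  · rw [ramp_of_nonpos (u := 1 / 100 - t) (by linarith)]
    rcases le_total t (96 / 100) with h4 | h4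
    · rw [ramp_of_nonpos (u := t - 96 / 100) (by linarith)]
      linarith
    · linarith [ramp_le (u := t - 96 / 100) (by linarith)]

theorem gg_corner0 {t : ℝ} (h : |t| ≤ 1 / 100) : gg t ∈ Icc (-69 / 100 : ℝ) (-67 / 100) := by
  obtain ⟨h1, h2⟩ := abs_le.1 h
  rcases le_total t 0 with h3 | h3
  · rw [gg_down ⟨by linarith, h3⟩]
    constructor <;> linarith
  · have := gg_low (t := t) ⟨h3, by linarith⟩
    exact ⟨this.1, by linarith [this.2]⟩

theorem gg_corner1 {t : ℝ} (h : t ∈ Icc (-97 / 100 : ℝ) (-96 / 100)) :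
    gg t ∈ Icc (28 / 100 : ℝ) (29 / 100) := by
  obtain ⟨h1, h2⟩ := h
  rw [gg, ramp_of_ge (u := 1 / 100 - t) (by linarith),
    ramp_of_nonpos (u := t - 96 / 100) (by linarith)]
  have a1 := ramp_nonneg (t + 97 / 100)
  have a2 := ramp_le (u := t + 97 / 100) (by linarith)
  constructor <;> linarith

theorem gg_mem {t : ℝ} (h : t ≤ 194 / 100) : gg t ∈ Icc (-69 / 100 : ℝ) (29 / 100) := by
  rcases le_total t (-97 / 100) with h1 | h1
  · rw [gg_left h1]
    constructor <;> norm_num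
  rcases le_total t (-96 / 100) with h2 | h2
  · have := gg_corner1 ⟨h1, h2⟩
    exact ⟨by linarith [this.1], this.2⟩
  rcases le_total t 0 with h3 | h3
  · rw [gg_down ⟨h2, h3⟩]
    constructor <;> linarith
  rcases le_total t (97 / 100) with h4 | h4
  · have := gg_low ⟨h3, h4⟩
    exact ⟨this.1, by linarith [this.2]⟩
  · rw [gg_up h4]
    constructor <;> linarith

theorem Γ_contDiff : ContDiff ℝ ∞ Γ := gg_contDiff.prodMk (gg_contDiff.comp contDiff_neg)

theorem Γ_neg (t : ℝ) : Γ (-t) = ((Γ t).2, (Γ t).1) := by simp [Γ]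

theorem gamma1_qf_neg (t : ℝ) : qf (Γ (-t)) = qf (Γ t) := by
  rw [Γ_neg]
  simp only [qf]
  ring

theorem gamma1_qf_abs (t : ℝ) : qf (Γ |t|) = qf (Γ t) := by
  rcases abs_choice t with h | h <;> rw [h]
  exact gamma1_qf_neg t

theorem gamma1_qf_low {t : ℝ} (h : |t| ≤ 97 / 100) : 36 / 100 ≤ qf (Γ t) := by
  rw [← gamma1_qf_abs]
  obtain ⟨h1, h2⟩ := gg_low ⟨abs_nonneg t, h⟩
  simp only [qf, Γ]
  nlinarith [sq_nonneg (gg (-|t|) - 3 / 5 * gg |t|)]

theorem gamma1_qf_up {t : ℝ} (h : 97 / 100 ≤ |t|) :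
    qf (Γ t) = ((|t| - 136 / 100) / 2) ^ 2 + (|t| - 194 / 100) ^ 2 := by
  rw [← gamma1_qf_abs]
  simp only [qf, Γ]
  rw [gg_up h, gg_left (t := -|t|) (by linarith)]
  ring

theorem qf_Γ_pos (t : ℝ) : 0 < qf (Γ t) := by
  rcases le_total |t| (97 / 100) with h | h
  · linarith [gamma1_qf_low h]
  · rw [gamma1_qf_up h]
    nlinarith [sq_nonneg (|t| - 1824 / 1000)]

theorem qf_Γ_main {t : ℝ} (h : |t| ≤ 147 / 100) : 22 / 100 ≤ qf (Γ t) := by
  rcases le_total |t| (97 / 100) with h1 | h1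
  · linarith [gamma1_qf_low h1]
  · rw [gamma1_qf_up h1]
    nlinarith [sq_nonneg ((|t| - 136 / 100) / 2)]

theorem qf_Γ_main' {t : ℝ} (h : |t| ≤ 143 / 100) : 26 / 100 ≤ qf (Γ t) := by
  rcases le_total |t| (97 / 100) with h1 | h1
  · linarith [gamma1_qf_low h1]
  · rw [gamma1_qf_up h1]
    nlinarith [sq_nonneg ((|t| - 136 / 100) / 2)]

theorem gamma1_pair {a b : ℝ} (ha : 0 ≤ a) (hab : a < b) (t : ℝ) :
    step a b t + step a b (-t) = step a b |t| := by
  rcases le_total 0 t with h | h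
  · rw [abs_of_nonneg h, step_of_le hab (x := -t) (by linarith), add_zero]
  · rw [abs_of_nonpos h, step_of_le hab (x := t) (by linarith), zero_add]

theorem gamma1_dd (t : ℝ) : dd t = 69 / 100 - 2 / 5 * step (96 / 100) (97 / 100) |t| := by
  rw [dd, gamma1_pair (by norm_num) (by norm_num)]

theorem dd_contDiff : ContDiff ℝ ∞ dd :=
  contDiff_const.sub (contDiff_const.mul
    ((step_contDiff _ _).add ((step_contDiff _ _).comp contDiff_neg)))

theorem dd_neg (t : ℝ) : dd (-t) = dd t := by rw [gamma1_dd, gamma1_dd, abs_neg]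

theorem dd_mem (t : ℝ) : dd t ∈ Icc (29 / 100 : ℝ) (69 / 100) := by
  rw [gamma1_dd]
  have h1 := step_nonneg (96 / 100) (97 / 100) |t|
  have h2 := step_le_one (96 / 100) (97 / 100) |t|
  constructor <;> linarith

theorem dd_of_le {t : ℝ} (h : |t| ≤ 96 / 100) : dd t = 69 / 100 := by
  rw [gamma1_dd, step_of_le (by norm_num) h]
  norm_num

theorem dd_of_ge {t : ℝ} (h : 97 / 100 ≤ |t|) : dd t = 29 / 100 := by
  rw [gamma1_dd, step_of_ge (by norm_num) h]
  norm_num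

theorem ψh_contDiff : ContDiff ℝ ∞ ψh :=
  ((ramp_contDiff.comp (contDiff_id.sub contDiff_const)).add
    (ramp_contDiff.comp (contDiff_neg.sub contDiff_const))).div_const _

theorem ψh_neg (σ : ℝ) : ψh (-σ) = ψh σ := by rw [ψh, ψh, neg_neg, add_comm]

theorem ψh_eq (σ : ℝ) : ψh σ = ramp (|σ| - 9 / 10) / 100 := by
  rcases le_total 0 σ with h | h
  · rw [ψh, abs_of_nonneg h, ramp_of_nonpos (u := -σ - 9 / 10) (by linarith), add_zero]
  · rw [ψh, abs_of_nonpos h, ramp_of_nonpos (u := σ - 9 / 10) (by linarith), zero_add]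

theorem σL_contDiff : ContDiff ℝ ∞ σL := by
  have h1 : ContDiff ℝ ∞ fun t => qf (Γ t) :=
    (((Γ_contDiff.fst.add Γ_contDiff.snd).div_const 2).pow 2).add
      ((Γ_contDiff.fst.sub Γ_contDiff.snd).pow 2)
  exact contDiff_const.add ((contDiff_const.mul dd_contDiff).mul (contDiff_const.sub
    (contDiff_const.div (h1.sqrt fun t => (qf_Γ_pos t).ne')
      fun t => (Real.sqrt_pos.2 (qf_Γ_pos t)).ne')))

theorem σL_neg (t : ℝ) : σL (-t) = σL t := by rw [σL, σL, dd_neg, gamma1_qf_neg]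

theorem σL_ge {t : ℝ} (h : |t| ≤ 147 / 100) : 5 ≤ σL t := by
  have h1 : 469 / 1000 ≤ √(qf (Γ t)) := Real.le_sqrt_of_sq_le (by linarith [qf_Γ_main h])
  have h2 : (2 / 5) / √(qf (Γ t)) ≤ 855 / 1000 := by
    rw [div_le_iff₀ (by linarith)]
    linarith
  have h3 := (dd_mem t).1
  rw [σL]
  nlinarith

theorem gamma1_σL_le {t s : ℝ} (h : 97 / 100 ≤ |t|) (hs : 0 < s) (h' : qf (Γ t) ≤ s ^ 2) :
    σL t ≤ 9 / 10 + 29 * (1 - (2 / 5) / s) := by
  have h1 : √(qf (Γ t)) ≤ s := Real.sqrt_le_iff.2 ⟨hs.le, h'⟩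
  have h2 : (2 / 5) / s ≤ (2 / 5) / √(qf (Γ t)) :=
    div_le_div_of_nonneg_left (by norm_num) (Real.sqrt_pos.2 (qf_Γ_pos t)) h1
  rw [σL, dd_of_ge h]
  linarith

theorem σL_le {t : ℝ} (h : 143 / 100 ≤ |t|) (h' : |t| ≤ 37 / 20) : σL t ≤ 73 / 10 := by
  have := gamma1_σL_le (t := t) (s := 512 / 1000) (by linarith) (by norm_num) (by
    rw [gamma1_qf_up (by linarith)]
    nlinarith)
  linarith

/-- On the level `σL` the point lies on the ellipse. -/
theorem ψh_σL {t : ℝ} (h : |t| ≤ 147 / 100) :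
    1 - ψh (σL t) / dd t = (2 / 5) / √(qf (Γ t)) := by
  have h1 := σL_ge h
  have h2 : dd t ≠ 0 := (by linarith [(dd_mem t).1] : 0 < dd t).ne'
  rw [ψh_eq, abs_of_nonneg (by linarith), ramp_of_ge (by linarith), σL]
  generalize (2 / 5) / √(qf (Γ t)) = a
  field_simp
  ring

theorem gamma1_νk (t : ℝ) : νk t = step (143 / 100) (147 / 100) |t| :=
  gamma1_pair (by norm_num) (by norm_num) t

theorem gamma1_sqrt_pos {x : ℝ} (h : |37 / 20 * x| ≤ 16 / 10) : 1 / 2 ≤ √(1 - x ^ 2) := by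
  obtain ⟨h1, h2⟩ := abs_le.1 h
  exact Real.le_sqrt_of_sq_le (by nlinarith)

theorem gamma1_kk_of_ge {x : ℝ} (h : 147 / 100 ≤ |37 / 20 * x|) : kk x = 16 := by
  rw [kk, gamma1_νk, step_of_ge (by norm_num) h]
  simp

theorem kk_contDiff : ContDiff ℝ ∞ kk := by
  refine contDiff_iff_contDiffAt.2 fun x => ?_
  rcases le_or_gt |37 / 20 * x| (16 / 10) with h | h
  · have h1 := gamma1_sqrt_pos h
    have hl : ContDiff ℝ ∞ fun x : ℝ => 37 / 20 * x := contDiff_const.mul contDiff_id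
    have hν : ContDiff ℝ ∞ fun x : ℝ => νk (37 / 20 * x) :=
      ((step_contDiff _ _).add ((step_contDiff _ _).comp contDiff_neg)).comp hl
    have h2 : 1 - x ^ 2 ≠ 0 := fun e => by
      rw [e, Real.sqrt_zero] at h1
      norm_num at h1
    exact ((((contDiff_const.sub hν).mul (σL_contDiff.comp hl)).contDiffAt).div
      ((contDiffAt_const.sub (contDiffAt_id.pow 2)).sqrt h2)
      (by linarith : 0 < √(1 - x ^ 2)).ne').add
      (contDiff_const.mul hν).contDiffAt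
  · refine (contDiffAt_const (c := (16 : ℝ))).congr_of_eventuallyEq ?_
    have hc : ContinuousAt (fun x : ℝ => |37 / 20 * x|) x := by fun_prop
    filter_upwards [hc.eventually (lt_mem_nhds h)] with y hy
    exact gamma1_kk_of_ge (by linarith)

theorem kk_neg (x : ℝ) : kk (-x) = kk x := by
  rw [kk, kk, mul_neg, σL_neg, gamma1_νk, gamma1_νk, abs_neg, neg_sq]

theorem kk_ge {x : ℝ} (h : |x| ≤ 1) : 5 ≤ kk x := by
  rcases le_total |37 / 20 * x| (147 / 100) with h1 | h1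
  · have h2 := gamma1_sqrt_pos (x := x) (by linarith)
    have h3 : √(1 - x ^ 2) ≤ 1 := Real.sqrt_le_one.2 (by nlinarith [sq_nonneg x])
    have h4 := σL_ge h1
    have h5 : 5 ≤ σL (37 / 20 * x) / √(1 - x ^ 2) := by
      rw [le_div_iff₀ (by linarith)]
      linarith
    have a1 := step_nonneg (143 / 100) (147 / 100) |37 / 20 * x|
    have a2 := step_le_one (143 / 100) (147 / 100) |37 / 20 * x|
    rw [kk, gamma1_νk, mul_div_assoc]
    nlinarith
  · rw [gamma1_kk_of_ge h1]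
    norm_num

theorem gamma1_kk_mul {x : ℝ} (h : |37 / 20 * x| ≤ 16 / 10) :
    kk x * √(1 - x ^ 2) = (1 - step (143 / 100) (147 / 100) |37 / 20 * x|) * σL (37 / 20 * x) +
      step (143 / 100) (147 / 100) |37 / 20 * x| * (16 * √(1 - x ^ 2)) := by
  have h1 := gamma1_sqrt_pos h
  rw [kk, gamma1_νk, add_mul, div_mul_cancel₀ _ (by linarith : 0 < √(1 - x ^ 2)).ne']
  ring

theorem kk_main {x : ℝ} (h : |37 / 20 * x| ≤ 143 / 100) :
    kk x * √(1 - x ^ 2) = σL (37 / 20 * x) := by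
  rw [gamma1_kk_mul (by linarith), step_of_le (by norm_num) h]
  ring

theorem kk_tip_le {x : ℝ} (h : 140 / 100 ≤ |37 / 20 * x|) (h' : |x| ≤ 1) :
    kk x * √(1 - x ^ 2) ≤ 21 / 2 := by
  have h1 : √(1 - x ^ 2) ≤ 655 / 1000 := by
    refine Real.sqrt_le_iff.2 ⟨by norm_num, ?_⟩
    have : (140 / 100 : ℝ) ^ 2 ≤ |37 / 20 * x| ^ 2 := pow_le_pow_left₀ (by norm_num) h 2
    rw [sq_abs] at this
    nlinarith
  rcases le_total |37 / 20 * x| (147 / 100) with h2 | h2
  · have h3 := gamma1_σL_le (t := 37 / 20 * x) (s := 55 / 100) (by linarith) (by norm_num) (by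
      rw [gamma1_qf_up (by linarith)]
      nlinarith)
    have a1 := step_nonneg (143 / 100) (147 / 100) |37 / 20 * x|
    have a2 := step_le_one (143 / 100) (147 / 100) |37 / 20 * x|
    rw [gamma1_kk_mul (by linarith)]
    nlinarith
  · rw [gamma1_kk_of_ge h2]
    linarith

theorem kk_tip_ge {x : ℝ} (h : 143 / 100 ≤ |37 / 20 * x|) (h' : |37 / 20 * x| ≤ 16 / 10) :
    σL (37 / 20 * x) ≤ kk x * √(1 - x ^ 2) := by
  have h1 := gamma1_sqrt_pos h'
  have h2 := σL_le h (by linarith)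
  have a1 := step_nonneg (143 / 100) (147 / 100) |37 / 20 * x|
  rw [gamma1_kk_mul h']
  nlinarith

end Pool.Agent.Lib.MP_1d0d1b_gt
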