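import Pool.Agent.Lib.MP_1d0d1b_gt.TopA

open Set Function Filter Topology
open scoped ContDiff Real

noncomputable section

namespace Pool.Agent.Lib.MP_1d0d1b_gt

open MeasureTheory

private instance genA_i1 : Measure.IsAddHaarMeasure (volume : Measure V3) :=
  Measure.prod.instIsAddHaarMeasure _ _

private instance genA_i2 : Measure.IsAddHaarMeasure (volume : Measure E4) :=
  Measure.prod.instIsAddHaarMeasure _ _

private instance genA_i3 : Measure.IsAddHaarMeasure (volume : Measure (E4 × E4)) :=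
  Measure.prod.instIsAddHaarMeasure _ _

private instance genA_i4 {T : Type} [Fintype T] :
    Measure.IsAddHaarMeasure (volume : Measure (T → E4)) :=
  Measure.pi.isAddHaarMeasure _

/-- Sard: almost every translate is transverse. -/
theorem ae_transv {φ ψ : ℂ → E4} (hφ : ContDiff ℝ ∞ φ) (hψ : ContDiff ℝ ∞ ψ) :
    ∀ᵐ b : E4, ∀ x y, φ x - ψ y = b → Transv φ ψ x y := by
  let L : E4 ≃L[ℝ] ℂ × ℂ := ContinuousLinearEquiv.ofFinrankEq (by simp)
  let F : E4 → E4 := fun e => φ (L e).1 - ψ (L e).2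
  let F' : E4 → E4 →L[ℝ] E4 := fun e =>
    (fderiv ℝ φ (L e).1).comp ((ContinuousLinearMap.fst ℝ ℂ ℂ).comp (L : E4 →L[ℝ] ℂ × ℂ)) -
      (fderiv ℝ ψ (L e).2).comp ((ContinuousLinearMap.snd ℝ ℂ ℂ).comp (L : E4 →L[ℝ] ℂ × ℂ))
  have hF : ∀ e, HasFDerivAt F (F' e) e := fun e =>
    ((hφ.differentiable (by simp) _).hasFDerivAt.comp e
      ((ContinuousLinearMap.fst ℝ ℂ ℂ).comp (L : E4 →L[ℝ] ℂ × ℂ)).hasFDerivAt).sub
    ((hψ.differentiable (by simp) _).hasFDerivAt.comp e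
      ((ContinuousLinearMap.snd ℝ ℂ ℂ).comp (L : E4 →L[ℝ] ℂ × ℂ)).hasFDerivAt)
  have h0 : volume (F '' {e | (F' e).det = 0}) = 0 :=
    addHaar_image_eq_zero_of_det_fderivWithin_eq_zero volume
      (fun e _ => (hF e).hasFDerivWithinAt) fun _ h => h
  filter_upwards [measure_eq_zero_iff_ae_notMem.1 h0] with b hb x y hxy v
  have h1 : (F' (L.symm (x, y))).det ≠ 0 := fun h => hb ⟨_, h, by simpa [F] using hxy⟩
  obtain ⟨u, hu⟩ := ((F' (L.symm (x, y))).toContinuousLinearEquivOfDetNeZero h1).surjective v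
  refine ⟨(L u).1, -(L u).2, ?_⟩
  rw [← hu, map_neg, ← sub_eq_add_neg]
  simp [F']

theorem ae_no_triple {φ ψ ϑ : ℂ → E4} (hφ : ContDiff ℝ ∞ φ) (hψ : ContDiff ℝ ∞ ψ)
    (hϑ : ContDiff ℝ ∞ ϑ) :
    ∀ᵐ b : E4 × E4, ∀ x y z, ¬ (φ x - ψ y = b.1 ∧ φ x - ϑ z = b.2) := by
  let G : ℂ × ℂ × ℂ → E4 × E4 := fun q => (φ q.1 - ψ q.2.1, φ q.1 - ϑ q.2.2)
  have hG : ContDiff ℝ 1 G := by
    have h1 := hφ.of_le (show (1 : WithTop ℕ∞) ≤ ∞ by simp)
    have h2 := hψ.of_le (show (1 : WithTop ℕ∞) ≤ ∞ by simp)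
    have h3 := hϑ.of_le (show (1 : WithTop ℕ∞) ≤ ∞ by simp)
    fun_prop
  have h1 : dimH (range G) < (Module.finrank ℝ (E4 × E4) : NNReal) :=
    hG.dimH_range_le.trans_lt (by simp; norm_num)
  have h0 : volume (range G) = 0 := by
    refine measure_zero_of_dimH_lt ?_ h1
    rw [NNReal.coe_natCast]
    exact Measure.absolutelyContinuous_isAddHaarMeasure _ _
  filter_upwards [measure_eq_zero_iff_ae_notMem.1 h0] with b hb x y z h
  exact hb ⟨(x, y, z), Prod.ext h.1 h.2⟩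

private theorem genA_comp {T F : Type} [Fintype T] [NormedAddCommGroup F] [NormedSpace ℝ F]
    [MeasureSpace F] [BorelSpace F] [FiniteDimensional ℝ F]
    [Measure.IsAddHaarMeasure (volume : Measure F)] (L : (T → E4) →ₗ[ℝ] F) (hL : Surjective L)
    {p : F → Prop} (h : ∀ᵐ y : F, p y) : ∀ᵐ b : T → E4, p (L b) := by
  obtain ⟨s, h1, h2, h3⟩ := h.exists_measurable_mem
  exact ((ae_comp_linearMap_mem_iff L volume volume hL h2).2 h1).mono fun b hb => h3 _ hb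

theorem exists_generic {T : Type} [Finite T] (φ : T → ℂ → E4) (hφ : ∀ s, ContDiff ℝ ∞ (φ s))
    {V : Set E4} (hV : V ∈ 𝓝 (0 : E4)) : ∃ b : T → E4, (∀ s, b s ∈ V) ∧
      (∀ s s', s ≠ s' → ∀ x x', φ s x + b s = φ s' x' + b s' → Transv (φ s) (φ s') x x') ∧
      ∀ s s' s'', s ≠ s' → s ≠ s'' → s' ≠ s'' → ∀ x x' x'',
        φ s x + b s = φ s' x' + b s' → φ s x + b s ≠ φ s'' x'' + b s'' := by
  classical
  have i1 := Fintype.ofFinite T
  have h1 : ∀ᵐ b : T → E4, ∀ s s', s ≠ s' → ∀ x x', φ s x + b s = φ s' x' + b s' →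
      Transv (φ s) (φ s') x x' := by
    refine ae_all_iff.2 fun s => ae_all_iff.2 fun s' => ?_
    by_cases h : s = s'
    · exact Eventually.of_forall fun _ h' => (h' h).elim
    filter_upwards [genA_comp ((LinearMap.proj s' : (T → E4) →ₗ[ℝ] E4) - LinearMap.proj s)
      (fun v => ⟨Pi.single s' v, by simp [h]⟩) (ae_transv (hφ s) (hφ s'))] with b hb _ x x' he
    refine hb x x' ?_
    show _ = b s' - b s
    rw [sub_eq_sub_iff_add_eq_add, he, add_comm]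
  have h2 : ∀ᵐ b : T → E4, ∀ s s' s'', s ≠ s' → s ≠ s'' → s' ≠ s'' → ∀ x x' x'',
      φ s x + b s = φ s' x' + b s' → φ s x + b s ≠ φ s'' x'' + b s'' := by
    refine ae_all_iff.2 fun s => ae_all_iff.2 fun s' => ae_all_iff.2 fun s'' => ?_
    by_cases h : s ≠ s' ∧ s ≠ s'' ∧ s' ≠ s''
    swap
    · exact Eventually.of_forall fun _ a b c => (h ⟨a, b, c⟩).elim
    obtain ⟨a1, a2, a3⟩ := h
    filter_upwards [genA_comp (((LinearMap.proj s' : (T → E4) →ₗ[ℝ] E4) - LinearMap.proj s).prod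
      ((LinearMap.proj s'' : (T → E4) →ₗ[ℝ] E4) - LinearMap.proj s))
      (fun v => ⟨Pi.single s' v.1 + Pi.single s'' v.2, by simp [a1, a2, a3, a3.symm]⟩)
      (ae_no_triple (hφ s) (hφ s') (hφ s''))] with b hb _ _ _ x x' x'' he he'
    refine hb x x' x'' ⟨?_, ?_⟩
    · show _ = b s' - b s
      rw [sub_eq_sub_iff_add_eq_add, he, add_comm]
    · show _ = b s'' - b s
      rw [sub_eq_sub_iff_add_eq_add, he', add_comm]
  have h3 : {b : T → E4 | ∀ s, b s ∈ V} ∈ 𝓝 (0 : T → E4) :=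
    eventually_all.2 fun s => (continuous_apply s).continuousAt hV
  obtain ⟨b, hb, hb'⟩ := (Measure.dense_of_ae (h1.and h2)).inter_nhds_nonempty h3
  exact ⟨b, hb', hb⟩

end Pool.Agent.Lib.MP_1d0d1b_gt
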