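import Pool.Agent.Lib.MP_1d0d1b_gt.Lift
import Pool.Agent.Lib.MP_1d0d1b_gt.GenA

open Set Function Filter Topology
open scoped ContDiff Real

noncomputable section

namespace Pool.Agent.Lib.MP_1d0d1b_gt

/-- Generic translation of the deep parts of finitely many embedded compact surfaces. -/
theorem generic_translate {T : Type} [Finite T] (φ : T → ℂ → E4) (A A₀ : T → Set ℂ)
    (Str : T → ℂ → T → ℂ → Prop) (t₀ : ℝ)
    (hφ : ∀ s, ContDiff ℝ ∞ (φ s)) (hA : ∀ s, IsCompact (A s)) (hA₀ : ∀ s, IsOpen (A₀ s))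
    (hsub : ∀ s, A₀ s ⊆ A s)
    (himm : ∀ s, ∀ x ∈ A s, Injective (fderiv ℝ (φ s) x)) (hinj : ∀ s, InjOn (φ s) (A s))
    (hlow : ∀ s, ∀ x ∈ A s, x ∉ A₀ s → (φ s x).2 ≤ t₀)
    (hcoin : ∀ s s', s ≠ s' → ∀ x ∈ A s, ∀ x' ∈ A s', φ s x = φ s' x' →
      Str s x s' x' ∨ Str s' x' s x ∨ t₀ < (φ s x).2)
    (hstr : ∀ s x s' x', Str s x s' x' → (φ s x).2 ≤ t₀ ∧ (φ s' x').2 ≤ t₀ ∧
      ∀ᶠ q : ℂ × ℂ in 𝓝 (x, x'), φ s q.1 = φ s' q.2 → q = (x, x')) :
    ∃ χ : T → ℂ → ℝ, (∀ s, ContDiff ℝ ∞ (χ s)) ∧ (∀ s, IsCompact (tsupport (χ s))) ∧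
      (∀ s, tsupport (χ s) ⊆ A₀ s ∩ {x | t₀ < (φ s x).2}) ∧
      ∀ V ∈ 𝓝 (0 : E4), ∃ b : T → E4, (∀ s, b s ∈ V) ∧
        (∀ s, InjOn (fun x => φ s x + χ s x • b s) (A s)) ∧
        (∀ s, ∀ x ∈ A s, t₀ < (φ s x).2 → t₀ < (φ s x + χ s x • b s).2) ∧
        (∀ s s', s ≠ s' → ∀ x ∈ A s, ∀ x' ∈ A s',
          φ s x + χ s x • b s = φ s' x' + χ s' x' • b s' →
          Str s x s' x' ∨ Str s' x' s x ∨
            (x ∈ A₀ s ∧ x' ∈ A₀ s' ∧
              Transv (fun y => φ s y + χ s y • b s) (fun y => φ s' y + χ s' y • b s') x x' ∧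
              ∀ s'', ∀ x'' ∈ A s'', φ s'' x'' + χ s'' x'' • b s'' = φ s x + χ s x • b s →
                (s'', x'') = (s, x) ∨ (s'', x'') = (s', x'))) ∧
        {q : (T × ℂ) × (T × ℂ) | q.1.1 ≠ q.2.1 ∧ q.1.2 ∈ A q.1.1 ∧ q.2.2 ∈ A q.2.1 ∧
          φ q.1.1 q.1.2 + χ q.1.1 q.1.2 • b q.1.1 =
            φ q.2.1 q.2.2 + χ q.2.1 q.2.2 • b q.2.1}.Finite := by
  cases nonempty_fintype T
  have hc := fun s => (hφ s).continuous
  have hiso : ∀ s s', s ≠ s' → ∀ x ∈ A s, ∀ x' ∈ A s', φ s x = φ s' x' → ¬t₀ < (φ s x).2 →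
      (Str s x s' x' ∨ Str s' x' s x) ∧
        ∀ᶠ q : ℂ × ℂ in 𝓝 (x, x'), φ s q.1 = φ s' q.2 → q = (x, x') := by
    intro s s' h x hx x' hx' e ht
    rcases hcoin s s' h x hx x' hx' e with h1 | h1 | h1
    · exact ⟨.inl h1, (hstr _ _ _ _ h1).2.2⟩
    · exact ⟨.inr h1, ((continuous_swap.tendsto (x, x')).eventually (hstr _ _ _ _ h1).2.2).mono
        fun q hq e => Prod.swap_inj.1 (hq e.symm)⟩
    · exact absurd h1 ht
  let Dp : T → T → Set (ℂ × ℂ) := fun s s' =>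
    {q | s ≠ s' ∧ q ∈ A s ×ˢ A s' ∧ φ s q.1 = φ s' q.2 ∧ t₀ < (φ s q.1).2}
  have hD : ∀ s s', IsCompact (Dp s s') := fun s s' => by
    have h0 := (hA s).prod (hA s')
    refine h0.of_isClosed_subset (isClosed_of_closure_subset fun q hq => ?_) fun q hq => hq.2.1
    have h1 := mem_closure_iff_frequently.1 hq
    have h2 := h0.isClosed.closure_subset (closure_mono (fun q hq => hq.2.1) hq)
    have h3 : φ s q.1 = φ s' q.2 := (isClosed_eq (f := fun q : ℂ × ℂ => φ s q.1)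
      (g := fun q => φ s' q.2) (by fun_prop) (by fun_prop)).closure_subset
        (closure_mono (fun q hq => hq.2.2.1) hq)
    refine ⟨h1.exists.choose_spec.1, h2, h3, by_contra fun ht => ?_⟩
    obtain ⟨q', h4, h5⟩ := (h1.and_eventually
      (hiso s s' h1.exists.choose_spec.1 _ h2.1 _ h2.2 h3 ht).2).exists
    exact ht (by simpa [h5 h4.2.2.1] using h4.2.2.2)
  choose χ h1 h2 h3 h4 h5 using fun s => exists_bump (K := ⋃ s', Prod.fst '' Dp s s')
    (U := A₀ s ∩ {x | t₀ < (φ s x).2}) (isCompact_iUnion fun s' => (hD s s').image continuous_fst)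
    ((hA₀ s).inter (isOpen_lt continuous_const (hc s).snd)) (by
      rintro _ ⟨_, ⟨s', rfl⟩, q, hq, rfl⟩
      exact ⟨by_contra fun h => (hlow s _ hq.2.1.1 h).not_gt hq.2.2.2, hq.2.2.2⟩)
  have hχ := fun s => (h1 s).continuous
  have hz : ∀ s x, ¬t₀ < (φ s x).2 → ∀ᶠ y in 𝓝 x, χ s y = 0 := fun s x h =>
    notMem_tsupport_iff_eventuallyEq.1 fun e => h (h5 s e).2
  refine ⟨χ, h1, h4, h5, fun V hV => ?_⟩
  have e1 : ∀ᶠ b : T → E4 in 𝓝 0, ∀ s, InjOn (fun x => φ s x + χ s x • b s) (A s) :=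
    eventually_all.2 fun s => ((continuous_apply s).tendsto (0 : T → E4)).eventually
      (eventually_injOn_perturb (hφ s) (h1 s) (hA s) (himm s) (hinj s))
  have e2 : ∀ᶠ b : T → E4 in 𝓝 0, ∀ s, ∀ x ∈ tsupport (χ s), t₀ < (φ s x + χ s x • b s).2 :=
    eventually_all.2 fun s => (h4 s).eventually_forall_of_forall_eventually fun x hx =>
      (isOpen_lt (f := fun _ => t₀) (g := fun z : (T → E4) × ℂ => (φ s z.2 + χ s z.2 • z.1 s).2)
        continuous_const (by fun_prop)).mem_nhds (by simpa using (h5 s hx).2)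
  have e3 : ∀ᶠ b : T → E4 in 𝓝 0, ∀ s s', s ≠ s' → ∀ q ∈ A s ×ˢ A s',
      φ s q.1 + χ s q.1 • b s = φ s' q.2 + χ s' q.2 • b s' →
        (φ s q.1 = φ s' q.2 ∧ ¬t₀ < (φ s q.1).2) ∨
          ((∀ᶠ y in 𝓝 q.1, χ s y = 1) ∧ ∀ᶠ y in 𝓝 q.2, χ s' y = 1) := by
    refine eventually_all.2 fun s => eventually_all.2 fun s' => eventually_all.2 fun h =>
      ((hA s).prod (hA s')).eventually_forall_of_forall_eventually fun q hq => ?_
    have t1 : Tendsto (fun z : (T → E4) × ℂ × ℂ => z.2.1) (𝓝 (0, q)) (𝓝 q.1) :=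
      continuous_snd.fst.tendsto _
    have t2 : Tendsto (fun z : (T → E4) × ℂ × ℂ => z.2.2) (𝓝 (0, q)) (𝓝 q.2) :=
      continuous_snd.snd.tendsto _
    by_cases e : φ s q.1 = φ s' q.2
    · by_cases ht : t₀ < (φ s q.1).2
      · have m1 : q ∈ Dp s s' := ⟨h, hq, e, ht⟩
        have m2 : q.swap ∈ Dp s' s := ⟨h.symm, ⟨hq.2, hq.1⟩, e.symm, ht.trans_eq (congrArg _ e)⟩
        have a1 := (h3 s).filter_mono
          (nhds_le_nhdsSet (mem_iUnion_of_mem s' (mem_image_of_mem _ m1)))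
        have a2 := (h3 s').filter_mono
          (nhds_le_nhdsSet (mem_iUnion_of_mem s (mem_image_of_mem _ m2)))
        filter_upwards [t1.eventually a1.eventually_nhds, t2.eventually a2.eventually_nhds]
          with z a3 a4 _ using .inr ⟨a3, a4⟩
      · filter_upwards [t1.eventually (hz s _ ht), t2.eventually (hz s' _ (e ▸ ht)),
          (continuous_snd.tendsto _).eventually (hiso s s' h _ hq.1 _ hq.2 e ht).2]
          with z a1 a2 a3 a4
        rw [a1, a2, zero_smul, zero_smul, add_zero, add_zero] at a4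
        exact .inl ⟨a4, a3 a4 ▸ ht⟩
    · filter_upwards [(isOpen_ne_fun (f := fun z : (T → E4) × ℂ × ℂ => φ s z.2.1 + χ s z.2.1 • z.1 s)
        (g := fun z => φ s' z.2.2 + χ s' z.2.2 • z.1 s') (by fun_prop) (by fun_prop)).mem_nhds
          (x := (0, q)) (by simpa using e)] with z a1 a2 using absurd a2 a1
  obtain ⟨ε, hε, h6⟩ := Metric.eventually_nhds_iff.1 (e1.and (e2.and e3))
  obtain ⟨b, hb, g1, g2⟩ := exists_generic φ hφ (inter_mem hV (Metric.ball_mem_nhds 0 hε))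
  obtain ⟨b1, b2, b3⟩ := h6 ((dist_pi_lt_iff hε).2 fun s => (hb s).2)
  have htr : ∀ s s', s ≠ s' → ∀ x x', φ s x + χ s x • b s = φ s' x' + χ s' x' • b s' →
      (∀ᶠ y in 𝓝 x, χ s y = 1) → (∀ᶠ y in 𝓝 x', χ s' y = 1) →
      Transv (fun y => φ s y + χ s y • b s) (fun y => φ s' y + χ s' y • b s') x x' := by
    intro s s' h x x' e a1 a2
    rw [a1.self_of_nhds, a2.self_of_nhds, one_smul, one_smul] at e
    refine Transv.congr (f := fun y => φ s y + b s) (g := fun y => φ s' y + b s') ?_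
      (a1.mono fun y hy => by simp [hy]) (a2.mono fun y hy => by simp [hy])
    simpa only [Transv, fderiv_add_const] using g1 s s' h x x' e
  refine ⟨b, fun s => (hb s).1, b1, fun s x _ ht => ?_, fun s s' h x hx x' hx' e => ?_, ?_⟩
  · by_cases hx : x ∈ tsupport (χ s)
    · exact b2 s x hx
    · rwa [image_eq_zero_of_notMem_tsupport hx, zero_smul, add_zero]
  · rcases b3 s s' h (x, x') ⟨hx, hx'⟩ e with a | ⟨a1, a2⟩
    · exact or_assoc.1 (.inl (hiso s s' h x hx x' hx' a.1 a.2).1)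
    have a3 : χ s x = 1 := a1.self_of_nhds
    have a4 : χ s' x' = 1 := a2.self_of_nhds
    refine .inr (.inr ⟨(h5 s (subset_tsupport _ (by simp [a3]))).1,
      (h5 s' (subset_tsupport _ (by simp [a4]))).1, htr s s' h x x' e a1 a2,
      fun s'' x'' hx'' e' => ?_⟩)
    rcases eq_or_ne s s'' with rfl | n1
    · exact .inl (by rw [b1 s hx'' hx e'])
    rcases eq_or_ne s' s'' with rfl | n2
    · exact .inr (by rw [b1 s' hx'' hx' (e'.trans e)])
    rcases b3 s s'' n1 (x, x'') ⟨hx, hx''⟩ e'.symm with a | ⟨-, a5⟩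
    · simp [(hz s x a.2).self_of_nhds] at a3
    · have a6 : χ s'' x'' = 1 := a5.self_of_nhds
      simp only [a3, a4, a6, one_smul] at e e'
      exact absurd e'.symm (g2 s s' s'' h n1 n2 x x' x'' e)
  · refine (finite_iUnion fun p : {p : T × T // p.1 ≠ p.2} => (finite_coinc
      (f := fun y => φ p.1.1 y + χ p.1.1 y • b p.1.1) (g := fun y => φ p.1.2 y + χ p.1.2 y • b p.1.2)
      (by fun_prop) (by fun_prop) (hA p.1.1) (hA p.1.2) fun x hx y hy e => ?_).image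
        fun q => ((p.1.1, q.1), (p.1.2, q.2))).subset
      fun q hq => mem_iUnion.2 ⟨⟨(q.1.1, q.2.1), hq.1⟩, (q.1.2, q.2.2), hq.2, rfl⟩
    rcases b3 _ _ p.2 (x, y) ⟨hx, hy⟩ e with a | ⟨a1, a2⟩
    · filter_upwards [(continuous_fst.tendsto (x, y)).eventually (hz _ _ a.2),
        (continuous_snd.tendsto (x, y)).eventually (hz p.1.2 y (a.1 ▸ a.2)),
        (hiso _ _ p.2 x hx y hy a.1 a.2).2] with q a1 a2 a3 _ _ a4
      exact a3 (by simpa [a1, a2] using a4)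
    · exact (transv_isolated ((hφ _).add ((h1 _).smul contDiff_const))
        ((hφ _).add ((h1 _).smul contDiff_const)) (htr _ _ p.2 x y e a1 a2) e).mono
          fun q hq _ _ => hq

end Pool.Agent.Lib.MP_1d0d1b_gt
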