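import Pool.Agent.Lib.MP_1d0d1b_gt.DiscB
import Pool.Agent.Lib.MP_1d0d1b_gt.TopA
import Pool.Agent.Lib.MP_1d0d1b_gt.Polar

open Set Function Filter Topology
open scoped ContDiff Real

noncomputable section

namespace Pool.Agent.Lib.MP_1d0d1b_gt

theorem ghost_re (ty : Bool) (q : ℂ × ℂ) : (Zg ty q).re = (45 / 100 - 8 * q.2.re) * q.1.im := by
  cases ty <;> simp [Zg, sg, cs, -Complex.ofReal_sub, -Complex.ofReal_neg]
  ring

theorem ghost_im (ty : Bool) (q : ℂ × ℂ) :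
    (Zg ty q).im = -sg ty * ((45 / 100 - 8 * q.2.re) * q.1.re) := by
  cases ty <;> simp [Zg, sg, cs, -Complex.ofReal_sub, -Complex.ofReal_neg]
  ring

theorem ghost_sg (ty : Bool) : sg ty = 1 ∨ sg ty = -1 := by cases ty <;> simp [sg]

theorem ghost_norm (ty : Bool) (q : ℂ × ℂ) : ‖Zg ty q‖ = |45 / 100 - 8 * q.2.re| * ‖q.1‖ := by
  rw [Zg, norm_mul, norm_mul, norm_neg, Complex.norm_I, one_mul, Complex.norm_real,
    Real.norm_eq_abs, abs_mul]
  cases ty <;> simp [sg, cs]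

theorem ghost_eq (a : Rt) : Gh a = fun q : ℂ × ℂ =>
    ((fun p : ℝ × ℝ × ℝ => Φa a p.1 p.2.1 p.2.2)
      (S1 ((45 / 100 - 8 * q.2.re) * q.1.im), 31 / 100 + q.2.im,
        -1 / 4 + -sg a.2 * ((45 / 100 - 8 * q.2.re) * q.1.re)),
      1 + (45 / 100 - 8 * q.2.re) * (45 / 100 - 8 * q.2.re) *
        (1 - (q.1.re * q.1.re + q.1.im * q.1.im))) := by
  funext q
  rw [Gh, ghost_re, ghost_im, Complex.sq_norm, Complex.normSq_apply, sq]

theorem ghost_dom (X : ℝ) : (X, (31 / 100 : ℝ)) ∈ Dom :=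
  mem_Dom_snd (by rw [abs_of_pos] <;> norm_num) (by rw [abs_of_pos] <;> norm_num)

theorem ghost_h (ty : Bool) {ζ : ℂ} (h : ζ ∈ Disc) :
    |-1 / 4 + -sg ty * (45 / 100 * ζ.re)| ≤ 3 := by
  have h1 := abs_le.1 ((Complex.abs_re_le_norm ζ).trans h)
  rw [abs_le]
  rcases ghost_sg ty with e | e <;> rw [e] <;> constructor <;> linarith [h1.1, h1.2]

theorem Gh_smooth (a : Rt) : ContDiff ℝ ∞ (Gh a) := by
  have h1 : ContDiff ℝ ∞ fun q : ℂ × ℂ => q.1.re := Complex.reCLM.contDiff.comp contDiff_fst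
  have h2 : ContDiff ℝ ∞ fun q : ℂ × ℂ => q.1.im := Complex.imCLM.contDiff.comp contDiff_fst
  have h3 : ContDiff ℝ ∞ fun q : ℂ × ℂ => q.2.re := Complex.reCLM.contDiff.comp contDiff_snd
  have h4 : ContDiff ℝ ∞ fun q : ℂ × ℂ => q.2.im := Complex.imCLM.contDiff.comp contDiff_snd
  have h5 : ContDiff ℝ ∞ fun q : ℂ × ℂ => 45 / 100 - 8 * q.2.re :=
    contDiff_const.sub (contDiff_const.mul h3)
  rw [ghost_eq]
  exact ((Φa_smooth a).comp ((S1_contDiff.comp (h5.mul h2)).prodMk ((contDiff_const.add h4).prodMk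
    (contDiff_const.add (contDiff_const.mul (h5.mul h1)))))).prodMk
      (contDiff_const.add ((h5.mul h5).mul (contDiff_const.sub ((h1.mul h1).add (h2.mul h2)))))

theorem ghost_inj (a : Rt) {ζ : ℂ} (h : ζ ∈ Disc) : Injective (fderiv ℝ (Gh a) (ζ, 0)) := by
  have h1 : HasFDerivAt (fun q : ℂ × ℂ => q.1.re) _ (ζ, 0) :=
    (Complex.reCLM.comp (ContinuousLinearMap.fst ℝ ℂ ℂ)).hasFDerivAt
  have h2 : HasFDerivAt (fun q : ℂ × ℂ => q.1.im) _ (ζ, 0) :=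
    (Complex.imCLM.comp (ContinuousLinearMap.fst ℝ ℂ ℂ)).hasFDerivAt
  have h3 : HasFDerivAt (fun q : ℂ × ℂ => q.2.re) _ (ζ, 0) :=
    (Complex.reCLM.comp (ContinuousLinearMap.snd ℝ ℂ ℂ)).hasFDerivAt
  have h4 : HasFDerivAt (fun q : ℂ × ℂ => q.2.im) _ (ζ, 0) :=
    (Complex.imCLM.comp (ContinuousLinearMap.snd ℝ ℂ ℂ)).hasFDerivAt
  have h5 := (h3.const_mul 8).const_sub (45 / 100)
  have h6 := ((S1_contDiff.differentiable (by simp)) _).hasDerivAt.comp_hasFDerivAt (ζ, (0 : ℂ))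
    (h5.mul h2)
  have h7 := h6.prodMk ((h4.const_add (31 / 100)).prodMk
    (((h5.mul h1).const_mul (-sg a.2)).const_add (-1 / 4)))
  have h8 := (((Φa_smooth a).differentiable (by simp)) _).hasFDerivAt.comp (ζ, (0 : ℂ)) h7
  have h9 := ((h5.mul h5).mul (((h1.mul h1).add (h2.mul h2)).const_sub 1)).const_add 1
  have hG : HasFDerivAt (Gh a) _ (ζ, 0) := ghost_eq a ▸ h8.prodMk h9
  rw [hG.fderiv, injective_iff_map_eq_zero]
  intro v hv
  obtain ⟨k1, k2⟩ := Prod.ext_iff.1 hv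
  have k3 := (injective_iff_map_eq_zero _).1 (Φa_imm a
    (X := S1 ((45 / 100 - 8 * (0 : ℂ).re) * ζ.im)) (y := 31 / 100 + (0 : ℂ).im)
    (h := -1 / 4 + -sg a.2 * ((45 / 100 - 8 * (0 : ℂ).re) * ζ.re))
    (by simpa using ghost_dom _) (by simpa using ghost_h a.2 h)) _ k1
  have k4 := (S1_deriv_pos (45 / 100 * ζ.im)).ne'
  have k5 : sg a.2 ≠ 0 := by rcases ghost_sg a.2 with e | e <;> simp [e]
  simp at k3 k2
  obtain ⟨e1, e2, e3⟩ := k3
  have e5 : 45 / 100 * v.1.im - ζ.im * (8 * v.2.re) = 0 :=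
    mul_left_cancel₀ k4 (by linear_combination e1)
  have e6 : 45 / 100 * v.1.re - ζ.re * (8 * v.2.re) = 0 :=
    mul_left_cancel₀ k5 (by linear_combination -e3)
  have e4 : v.2.re = 0 := by
    linear_combination (-(10 / 72) : ℝ) * k2 - (1 / 8 * ζ.im) * e5 - (1 / 8 * ζ.re) * e6
  rw [e4] at e5 e6
  refine Prod.ext (Complex.ext ?_ ?_) (Complex.ext e4 e2)
  · simpa using e6
  · simpa using e5

theorem Gh_bij (a : Rt) {ζ : ℂ} (h : ζ ∈ Disc) : Bijective (fderiv ℝ (Gh a) (ζ, 0)) :=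
  ⟨ghost_inj a h, (LinearMap.injective_iff_surjective_of_finrank_eq_finrank
    (f := (fderiv ℝ (Gh a) (ζ, 0)).toLinearMap) (by simp)).1 (ghost_inj a h)⟩

theorem Gh_inj (a : Rt) : InjOn (leaf (Gh a)) Disc := fun ζ h ζ' h' e => by
  have e1 := congrArg Prod.fst e
  simp only [leaf, ghost_eq, Complex.zero_re, Complex.zero_im, mul_zero, sub_zero, add_zero] at e1
  obtain ⟨k1, k, l, k2, -⟩ := Φa_inj_same a (ghost_dom _) (ghost_dom _) (ghost_h a.2 h)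
    (ghost_h a.2 h') e1
  have k3 := S1_mem (45 / 100 * ζ.im)
  have k4 := S1_mem (45 / 100 * ζ'.im)
  have k5 : k = 0 := by
    have a1 : (k : ℝ) < 1 := by linarith [k3.1, k4.2]
    have a2 : (-1 : ℝ) < k := by linarith [k3.2, k4.1]
    have a3 : k < 1 := by exact_mod_cast a1
    have a4 : -1 < k := by exact_mod_cast a2
    omega
  rw [k5, Int.cast_zero, add_zero] at k2
  have k6 := S1_strictMono.injective k2
  refine Complex.ext ?_ (by linarith)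
  rcases ghost_sg a.2 with e | e <;> rw [e] at k1 <;> linarith

theorem Gh_time (a : Rt) {ζ : ℂ} (h : ζ ∈ oDisc) : 1 < (Gh a (ζ, 0)).2 := by
  have h1 : ‖ζ‖ < 1 := h
  simp only [Gh, Complex.zero_re]
  nlinarith [norm_nonneg ζ]

theorem Gh_time_eq (a : Rt) {ζ : ℂ} (h : ‖ζ‖ = 1) (w : ℂ) : (Gh a (ζ, w)).2 = 1 := by
  simp [Gh, h]

theorem Gh_circ (a : Rt) {ζ : ℂ} (h : ‖ζ‖ = 1) : ∃ Z : ℂ, ‖Z‖ = 45 / 100 ∧
    (Z = -Complex.I * ((sg a.2 * (45 / 100) : ℝ) : ℂ) → ζ = 1) ∧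
    Gh a (ζ, 0) = (Φa a (S1 Z.re) (31 / 100) (-1 / 4 + Z.im), 1) := by
  refine ⟨Zg a.2 (ζ, 0), ?_, fun e => ?_, by simp [Gh, h]⟩
  · rw [ghost_norm, h, abs_of_pos] <;> norm_num
  · have e1 := congrArg Complex.re e
    have e2 := congrArg Complex.im e
    rw [ghost_re] at e1
    rw [ghost_im] at e2
    simp only [Complex.mul_re, Complex.mul_im, Complex.neg_re, Complex.neg_im, Complex.I_re,
      Complex.I_im, Complex.ofReal_re, Complex.ofReal_im, Complex.zero_re] at e1 e2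
    refine Complex.ext ?_ (by rw [Complex.one_im]; linarith)
    rw [Complex.one_re]
    rcases ghost_sg a.2 with e | e <;> rw [e] at e2 <;> linarith

/-- A wall point at distance at least `37/100` from the centre is outside the time drop. -/
theorem low_zero {Z : ℂ} (h : 37 / 100 ≤ ‖Z‖) : χX (S1 Z.re) * χh (-1 / 4 + Z.im) = 0 := by
  by_cases h1 : Z.re ≤ -1 / 10
  · rw [χX_eq_zero (Or.inl (S1_lt h1).le), zero_mul]
  by_cases h2 : 1 / 10 ≤ Z.re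
  · rw [χX_eq_zero (Or.inr (lt_S1 h2).le), zero_mul]
  refine mul_eq_zero_of_right _ ((χh_eq_zero_iff _).2 ?_)
  by_contra! hc
  have h3 := Complex.sq_norm Z
  rw [Complex.normSq_apply] at h3
  push Not at h1 h2
  nlinarith [hc.1, hc.2]

/-- Near the boundary circle the spatial part of the leaves lies on the disc at time one. -/
theorem Gh_patch (a : Rt) {ζ₀ : ℂ} (h : ‖ζ₀‖ = 1) : ∀ᶠ q : ℂ × ℝ in 𝓝 (ζ₀, 0),
    (((Gh a (q.1, (q.2 : ℂ))).1, 1) : E4) ∈ fD a.1 '' oDisc := by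
  have hc : Continuous fun q : ℂ × ℝ => |45 / 100 - 8 * q.2| * ‖q.1‖ := by fun_prop
  have h0 : |45 / 100 - 8 * (0 : ℝ)| * ‖ζ₀‖ ∈ Ioo (37 / 100 : ℝ) (1 / 2) := by
    rw [h, abs_of_pos] <;> norm_num
  filter_upwards [(hc.tendsto (ζ₀, 0)).eventually (isOpen_Ioo.mem_nhds h0)] with q hq
  have h1 : ‖Zg a.2 (q.1, (q.2 : ℂ))‖ ∈ Ioo (37 / 100 : ℝ) (1 / 2) := by
    rw [ghost_norm]
    exact hq
  have h2 := abs_le.1 ((Complex.abs_im_le_norm _).trans h1.2.le)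
  have h3 := S1_mem (Zg a.2 (q.1, (q.2 : ℂ))).re
  have h4 := mem_wallP a (X := S1 (Zg a.2 (q.1, (q.2 : ℂ))).re)
    (σ := 1 / 4 + (Zg a.2 (q.1, (q.2 : ℂ))).im) ⟨by linarith [h3.1], by linarith [h3.2]⟩
    (abs_le.2 ⟨by linarith [h2.1], by linarith [h2.2]⟩)
  rw [← add_assoc, show (-1 / 2 + 1 / 4 : ℝ) = -1 / 4 by norm_num, low_zero h1.1.le, mul_zero,
    sub_zero] at h4
  simpa only [Gh, Complex.ofReal_im, add_zero] using h4

end Pool.Agent.Lib.MP_1d0d1b_gt
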