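import Pool.Agent.Lib.MP_1d0d1b_gt.UCaseAux1

open Set Function Filter Topology
open scoped ContDiff Real

noncomputable section

namespace Pool.Agent.Lib.MP_1d0d1b_gt

/-- The segment `[d, 1]` of the lower arc in the chart of a slab. -/
def ucase_K (d : ℝ) : Set (ℂ × ℂ) := (fun y : ℝ => ((y : ℂ), (0 : ℂ))) '' Icc d 1

theorem ucase_K_isCompact (d : ℝ) : IsCompact (ucase_K d) :=
  isCompact_Icc.image (by fun_prop)

theorem ucase_abs_le {d y : ℝ} (hd : |d| < 1) (hy : y ∈ Icc d 1) : |y| ≤ 1 := by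
  rw [abs_lt] at hd
  rw [abs_le]
  exact ⟨by linarith [hy.1], hy.2⟩

theorem ucase_mem_Half {d y : ℝ} (hd : |d| < 1) (hy : y ∈ Icc d 1) : (y : ℂ) ∈ Half :=
  Diam_subset (ofReal_mem_Diam (ucase_abs_le hd hy))

theorem ucase_not_oHalf (y : ℝ) : (y : ℂ) ∉ oHalf := fun h => by simpa using h.2

theorem ucase_one_mem_Semi : (1 : ℂ) ∈ Semi := ⟨by simp, by simp⟩

theorem ucase_neg_one_mem_Semi : (-1 : ℂ) ∈ Semi := ⟨by simp, by simp⟩

namespace Config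

variable {B : Base} {C : Config B}

theorem Valid.ucase_chart (hC : C.Valid) (S : C.I) :
    ∃ N ∈ 𝓝ˢ (ucase_K (C.d S)), InjOn (C.F S) N ∧ ∀ n ∈ N, Bijective (fderiv ℝ (C.F S) n) := by
  refine bij_nhdsSet (hC.smooth S) (ucase_K_isCompact _) ?_ ?_
  · rintro _ ⟨y, hy, rfl⟩ _ ⟨y', hy', rfl⟩ he
    have := hC.sh_injOn (.inl S) (ucase_mem_Half (hC.d_mem S) hy)
      (ucase_mem_Half (hC.d_mem S) hy') he
    simp only [this]
  · rintro _ ⟨y, hy, rfl⟩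
    exact hC.bij S _ (ucase_mem_Half (hC.d_mem S) hy)

theorem Valid.ucase_pos (hC : C.Valid) (S : C.I) :
    ∀ᶠ n in 𝓝ˢ (ucase_K (C.d S)), 0 < (C.F S n).2 := by
  rw [eventually_nhdsSet_iff_forall]
  rintro _ ⟨y, hy, rfl⟩
  have hc : Continuous fun n => (C.F S n).2 := (hC.smooth S).continuous.snd
  exact hc.continuousAt.eventually (lt_mem_nhds (hC.pos S _ (ucase_mem_Half (hC.d_mem S) hy)))

theorem Valid.ucase_notO (hC : C.Valid) {S X : C.I} (hX : C.par S = .inr X) :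
    ∀ᶠ n in 𝓝ˢ (ucase_K (C.d S)), C.F S n ∉ B.O := by
  refine absent (hC.smooth S).continuous B.O_closed ?_
  rintro _ ⟨y, hy, rfl⟩ hO
  obtain ⟨⟨a, ha⟩, -⟩ := hC.notO S _ (ucase_mem_Half (hC.d_mem S) hy) hO
  rw [hX] at ha
  cases ha

theorem Valid.ucase_alpha (hC : C.Valid) (S : C.I) :
    ∀ᶠ n in 𝓝ˢ (ucase_K (C.d S)), C.α S (n.1.re, n.2.re) ∈ oDisc ∧
      ∀ᶠ q : ℝ × ℝ in 𝓝 (n.1.re, n.2.re),
        C.F S ((q.1 : ℂ), (q.2 : ℂ)) = B.f (C.lo S) (C.α S q) := by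
  rw [eventually_nhdsSet_iff_forall]
  rintro _ ⟨y, hy, rfl⟩
  have hy' := ucase_abs_le (hC.d_mem S) hy
  have hc : Continuous fun n : ℂ × ℂ => (n.1.re, n.2.re) := by fun_prop
  have ht : Tendsto (fun n : ℂ × ℂ => (n.1.re, n.2.re)) (𝓝 ((y : ℂ), (0 : ℂ))) (𝓝 (y, 0)) := by
    simpa using hc.tendsto ((y : ℂ), (0 : ℂ))
  have h1 : ∀ᶠ q : ℝ × ℝ in 𝓝 (y, 0), C.α S q ∈ oDisc :=
    (hC.α_smooth S).continuous.continuousAt.eventually
      (isOpen_oDisc.mem_nhds (hC.α_mem S y hy'))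
  exact ht.eventually (h1.and (hC.bot S y hy').eventually_nhds)

theorem Valid.ucase_onD (hC : C.Valid) (S : C.I) :
    ∀ᶠ n in 𝓝ˢ (ucase_K (C.d S)), ∀ j, ∀ z ∈ Disc, B.f j z = C.F S n →
      j = C.lo S ∧ n.2.im = 0 := by
  obtain ⟨N, hN, hinj, -⟩ := hC.ucase_chart S
  rw [Filter.eventually_all]
  intro j
  refine standard (P := fun n _ => j = C.lo S ∧ n.2.im = 0) (B.f_smooth j).continuous
    isCompact_Disc (hC.smooth S).continuous hN hinj ?_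
  rintro z₀ hz₀ _ ⟨y, hy, rfl⟩ he
  have hy' := ucase_abs_le (hC.d_mem S) hy
  have hyH := ucase_mem_Half (hC.d_mem S) hy
  have hj : j = C.lo S := by
    rcases hC.onD S _ hyH j z₀ hz₀ he.symm with h | ⟨c, hc, -, h | h⟩
    · exact h.2
    · exact absurd (h ▸ hC.β_mem c S hc 1 ucase_one_mem_Semi) (ucase_not_oHalf y)
    · exact absurd (h ▸ hC.β_mem c S hc (-1) ucase_neg_one_mem_Semi) (ucase_not_oHalf y)
  subst hj
  have hz : z₀ = C.α S (y, 0) :=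
    B.f_inj _ hz₀ (oDisc_subset (hC.α_mem S y hy')) (he.trans (hC.bot_eq S hy'))
  have hNy : N ∈ 𝓝 ((y : ℂ), (0 : ℂ)) := mem_nhdsSet_iff_forall.1 hN _ ⟨y, hy, rfl⟩
  have hc : Continuous fun q : ℝ × ℝ => ((q.1 : ℂ), (q.2 : ℂ)) := by fun_prop
  have ht : Tendsto (fun q : ℝ × ℝ => ((q.1 : ℂ), (q.2 : ℂ))) (𝓝 (y, 0))
      (𝓝 ((y : ℂ), (0 : ℂ))) := by
    simpa using hc.tendsto (y, 0)
  have hQ := (ht.eventually hNy).and (hC.bot S y hy')
  have := alpha_eventually (q₀ := (y, 0)) (hC.smooth S) (B.f_smooth _) (hC.α_smooth S)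
    (by simpa using (hC.bij S _ hyH).1) (hC.bot S y hy') hQ
  rw [hz]
  filter_upwards [this] with z ⟨q, hq, hqN, hqe⟩
  exact ⟨_, hqN, by rw [hq, hqe], rfl, by simp⟩

theorem Valid.ucase_ball (hC : C.Valid) {Z S : C.I} (hZS : Z ≠ S) {p : ℂ} {η : ℝ}
    (hP : C.Prep Z p η) :
    ∀ᶠ n in 𝓝ˢ (ucase_K (C.d S)), C.F S n ∉ leaf (C.F Z) '' Metric.closedBall p η := by
  refine absent (hC.smooth S).continuous
    ((isCompact_closedBall p η).image (leaf_contDiff (hC.smooth Z)).continuous).isClosed ?_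
  rintro _ ⟨y, hy, rfl⟩ ⟨x, hx, he⟩
  have hyH := ucase_mem_Half (hC.d_mem S) hy
  rcases hC.gen (.inl Z) x (.inl S) y (oHalf_subset (hP.sub hx)) hyH (by simp [hZS]) he with
    h | h | h
  · exact hC.not_str_of_mem h (hP.sub hx)
  · rcases h with ⟨i, X, h1, h2, h3, h4, h5⟩ | ⟨a, -, h2, -⟩
    · cases h1
      cases h2
      exact Set.disjoint_left.1 hP.disj hx ⟨S, h3, y, h4, h5⟩
    · cases h2
  · exact ucase_not_oHalf y h.2.2.1

/-- The description of the parent sheet near the corner. -/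
def ucase_PX (C : Config B) (S X : C.I) (T : Set ℂ) (n : ℂ × ℂ) (x : ℂ) : Prop :=
  ‖n.1‖ = 1 ∧ n.2.re = 0 ∧ x = C.β S ((1 + n.2.im) • n.1) ∧ x ∈ oHalf ∧ Acc x T (C.d X) ∧
    ∀ᶠ e in 𝓝 n, ‖e.1‖ = 1 → C.F S e = C.F X (C.β S ((1 + e.2.im) • e.1), (e.2.re : ℂ))

theorem Valid.ucase_old (hC : C.Valid) {S X : C.I} (hX : C.par S = .inr X) {T : Set ℂ}
    (hT : IsClosed T) (hA : Acc (C.β S 1) T (C.d X)) :
    ∀ᶠ n in 𝓝ˢ (ucase_K (C.d S)), ∀ s, ∀ x ∈ C.sdom s, C.sh s x = C.F S n →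
      (s = .inl S ∧ n = (x, 0)) ∨ (s = .inl X ∧ C.ucase_PX S X T n x) := by
  obtain ⟨N, hN, hinj, -⟩ := hC.ucase_chart S
  have := hC.finI
  have := B.finR
  rw [Filter.eventually_all]
  intro s
  refine standard (P := fun n x => (s = .inl S ∧ n = (x, 0)) ∨ (s = .inl X ∧ C.ucase_PX S X T n x))
    (hC.sh_smooth s).continuous (isCompact_sdom s) (hC.smooth S).continuous hN hinj ?_
  rintro x₀ hx₀ _ ⟨y, hy, rfl⟩ he
  have hyH := ucase_mem_Half (hC.d_mem S) hy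
  have hNy : N ∈ 𝓝 ((y : ℂ), (0 : ℂ)) := mem_nhdsSet_iff_forall.1 hN _ ⟨y, hy, rfl⟩
  by_cases hs : s = .inl S
  · subst hs
    have hxy : x₀ = y := hC.sh_injOn (.inl S) hx₀ hyH he
    subst hxy
    have hc : Continuous fun x : ℂ => (x, (0 : ℂ)) := by fun_prop
    filter_upwards [(hc.tendsto (y : ℂ)).eventually hNy] with x hx
    exact ⟨_, hx, rfl, Or.inl ⟨rfl, rfl⟩⟩
  rcases hC.gen s x₀ (.inl S) y hx₀ hyH (by simp [hs]) he with h | h | h
  · rcases h with ⟨i, X', h1, h2, h3, h4, h5⟩ | ⟨a, -, h2, -⟩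
    · cases h2
      exact absurd (h5 ▸ hC.β_mem i S h3 x₀ h4) (ucase_not_oHalf y)
    · cases h2
  · rcases h with ⟨i, X', h1, h2, h3, h4, h5⟩ | ⟨a, h1, -⟩
    · cases h1
      have hXX : X' = X := by
        rw [hX] at h3
        cases h3
        rfl
      subst hXX
      subst h2
      have hy1 : y = 1 := by
        have h6 : |y| = 1 := by simpa using h4.1
        have h7 := (abs_lt.1 (hC.d_mem S)).1
        rcases abs_eq (zero_le_one) |>.1 h6 with h | h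
        · exact h
        · linarith [hy.1]
      subst hy1
      have hN1 : N ∈ 𝓝 ((1 : ℂ), (0 : ℂ)) := by simpa using hNy
      have htop := hC.top S X' hX 1 ucase_one_mem_Semi
      have hc : Continuous fun q : ℂ × ℝ => (q.1, (q.2 : ℂ) * Complex.I) := by fun_prop
      have ht : Tendsto (fun q : ℂ × ℝ => (q.1, (q.2 : ℂ) * Complex.I)) (𝓝 (1, 0))
          (𝓝 ((1 : ℂ), (0 : ℂ))) := by
        simpa using hc.tendsto (1, 0)
      have hQ := ht.eventually ((Filter.Eventually.and hN1 htop).and htop.eventually_nhds)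
      have hpol := polar_eventually (C.p S) (hC.M_inj hX) (ξ₀ := 1) (by simp) hQ
      have hx1 : x₀ = C.p S + C.M S 1 := by simpa [β] using h5
      have hH : ∀ᶠ x in 𝓝 (C.p S + C.M S 1), x ∈ oHalf :=
        isOpen_oHalf.mem_nhds (hC.β_mem S X' hX 1 ucase_one_mem_Semi)
      have hAc : ∀ᶠ x in 𝓝 (C.p S + C.M S 1), Acc x T (C.d X') := by
        have hc' : Continuous fun x : ℂ => (x, C.d X') := by fun_prop
        exact (hc'.tendsto _).eventually (hA.eventually hT)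
      rw [hx1]
      filter_upwards [hpol, hH, hAc] with x ⟨q, hq1, hqx, ⟨hqN, hqt⟩, hqe⟩ hxH hxA
      refine ⟨_, hqN, ?_, Or.inr ⟨rfl, hq1, by simp, by simpa [β] using hqx, hxH, hxA, hqe⟩⟩
      rw [hqt hq1, hqx]
      simp [sh, leaf, β]
    · cases h1
      rw [hC.par_rt] at hX
      cases hX
  · exact absurd h.2.2.1 (ucase_not_oHalf y)

end Config

end Pool.Agent.Lib.MP_1d0d1b_gt
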