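import Pool.Agent.Lib.MP_1d0d1b_gt.Kit
import Pool.Agent.Lib.MP_1d0d1b_gt.BChild
import Pool.Agent.Lib.MP_1d0d1b_gt.UCaseAux2

open Set Function Filter Topology
open scoped ContDiff Real

noncomputable section

namespace Pool.Agent.Lib.MP_1d0d1b_gt

/-- The child of the first kind. -/
def ucase_F (Ψ : ℝ × ℝ × ℂ → E4) (σ κ c r : ℝ) (e : ℂ × ℂ) : E4 :=
  Ψ (hh κ ((1 + e.2.im) ^ 2), σ * e.2.re + c * (1 - ‖e.1‖ ^ 2),
    ((r * (1 + e.2.im) : ℝ) : ℂ) * e.1)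

theorem ucase_F_real (Ψ : ℝ × ℝ × ℂ → E4) (σ κ c r : ℝ) (ξ : ℂ) (l : ℝ) :
    ucase_F Ψ σ κ c r (ξ, (l : ℂ)) = Ψ (1, σ * l + c * (1 - ‖ξ‖ ^ 2), (r : ℂ) * ξ) := by
  have h : hh κ 1 = 1 := by rw [hh_of_le_two κ (by norm_num)]; ring
  simp [ucase_F, h]

theorem ucase_F_zero (Ψ : ℝ × ℝ × ℂ → E4) (σ κ c r : ℝ) (ξ : ℂ) :
    ucase_F Ψ σ κ c r (ξ, 0) = Ψ (1, c * (1 - ‖ξ‖ ^ 2), (r : ℂ) * ξ) := by
  simpa using ucase_F_real Ψ σ κ c r ξ 0

theorem ucase_n_re (d c r : ℝ) (ξ : ℂ) : (ucase_n d c r ξ).1.re = d + c * (1 - ‖ξ‖ ^ 2) := rfl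

theorem ucase_n_real (d c r x : ℝ) :
    ((ucase_n d c r x).1.re, (ucase_n d c r x).2.re) = (d + c * (1 - x ^ 2), r * x) := by
  rw [ucase_n_re]
  simp [ucase_n]

theorem ucase_near {d δ r : ℝ} (hd : |d| < 1) (hδ : 0 < δ) (hr : 0 < r) (hrδ : r ≤ δ) {ξ : ℂ}
    (hξ : ‖ξ‖ ≤ 1) : ∃ k ∈ ucase_K d, dist (ucase_n d (1 - d + δ) r ξ) k ≤ δ := by
  have hd' := abs_lt.1 hd
  have h0 : 0 ≤ 1 - ‖ξ‖ ^ 2 := by nlinarith [norm_nonneg ξ]
  have h1 : 1 - ‖ξ‖ ^ 2 ≤ 1 := by nlinarith [norm_nonneg ξ]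
  have hc : 0 < 1 - d + δ := by linarith
  have hy0 : d ≤ d + (1 - d + δ) * (1 - ‖ξ‖ ^ 2) := by nlinarith
  have hy1 : d + (1 - d + δ) * (1 - ‖ξ‖ ^ 2) ≤ 1 + δ := by nlinarith
  refine ⟨_, ⟨min (d + (1 - d + δ) * (1 - ‖ξ‖ ^ 2)) 1,
    ⟨le_min hy0 hd'.2.le, min_le_right _ _⟩, rfl⟩, ?_⟩
  rw [Prod.dist_eq, max_le_iff]
  constructor
  · simp only [ucase_n]
    rw [Complex.dist_of_im_eq (by simp only [Complex.ofReal_im]), Complex.ofReal_re,
      Complex.ofReal_re, Real.dist_eq, abs_le]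
    constructor
    · linarith [min_le_left (d + (1 - d + δ) * (1 - ‖ξ‖ ^ 2)) 1]
    · rcases le_total (d + (1 - d + δ) * (1 - ‖ξ‖ ^ 2)) 1 with h | h
      · rw [min_eq_left h]
        linarith
      · rw [min_eq_right h]
        linarith
  · simp only [ucase_n, dist_zero_right, norm_mul, Complex.norm_real, Real.norm_eq_abs,
      abs_of_pos hr]
    nlinarith

namespace Config

variable {B : Base} {C : Config B}

theorem Valid.upd_U (hC : C.Valid) {Z S X : C.I} {p q : ℂ} (h : C.Good (.inl Z) p (.inl S) q)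
    (hX : C.par S = .inr X) {η : ℝ} (hP : C.Prep Z p η) : Nonempty (C.Upd Z p η) := by
  have hZS : Z ≠ S := fun e => h.1 (by rw [e])
  have hd := hC.d_mem S
  have hd' := abs_lt.1 hd
  obtain ⟨g, hg, hg1, -⟩ := hC.goodPath h.symm (hC.acc S q _ p h.symm)
    (fun a ha => by rw [ha, hC.par_rt] at hX; cases hX) finite_empty (empty_subset _)
    (notMem_empty q)
  obtain ⟨Ψ, L, N, hΨ, hN, hinj, hb⟩ := hC.chart_kit h hg (v₁ := 1 - C.d S) (by linarith)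
    (by linarith)
  have hN0 : N ∈ 𝓝ˢ (Kcore 0) := by
    refine nhdsSet_mono ?_ hN
    rintro n (hn | ⟨v, hv, rfl⟩)
    · exact Or.inl hn
    · exact Or.inr ⟨v, ⟨hv.1, hv.2.trans (by linarith)⟩, rfl⟩
  obtain ⟨κ, σ, hκ, hκ', hσ, hr⟩ := hC.finger_kit h hP hg hΨ hN0 hinj hb
  have hT : IsClosed (C.TrX X S ∪ {x | X = Z ∧ x ∈ Metric.closedBall p η}) :=
    (hC.isCompact_TrX X S).isClosed.union (isClosed_const.and Metric.isClosed_closedBall)
  have hA : Acc (C.β S 1) (C.TrX X S ∪ {x | X = Z ∧ x ∈ Metric.closedBall p η}) (C.d X) := by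
    by_cases hXZ : X = Z
    · subst hXZ
      refine (hP.accE S hX).mono ?_
      rintro x (hx | hx)
      · exact Or.inl hx
      · exact Or.inr hx.2
    · refine (hC.accE S X hX).mono ?_
      rintro x (hx | hx)
      · exact hx
      · exact absurd hx.1 hXZ
  have hNN : ∀ᶠ n in 𝓝ˢ (ucase_K (C.d S)), ((1 : ℝ), n.1.re - C.d S, n.2) ∈ N := by
    rw [eventually_nhdsSet_iff_forall]
    rintro _ ⟨y, hy, rfl⟩
    have hc : Continuous fun n : ℂ × ℂ => ((1 : ℝ), n.1.re - C.d S, n.2) := by fun_prop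
    refine hc.continuousAt.eventually (mem_nhdsSet_iff_forall.1 hN _ (Or.inr ⟨y - C.d S, ?_, ?_⟩))
    · exact ⟨by linarith [hy.1], by linarith [hy.2]⟩
    · simp
  obtain ⟨N', hN', -, hb'⟩ := hC.ucase_chart S
  have hall := hNN.and ((Filter.Eventually.and hN' (hC.ucase_pos S)).and
    ((hC.ucase_notO hX).and ((hC.ucase_alpha S).and ((hC.ucase_onD S).and
      ((hC.ucase_ball hZS hP).and (hC.ucase_old hX hT hA))))))
  obtain ⟨δ, hδ, hδK⟩ := exists_dist_of_nhdsSet (ucase_K_isCompact _) hall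
  obtain ⟨r, ⟨F', hF, hOK, hW⟩, hr0, hrδ⟩ := (hr.and (Ioc_mem_nhdsGT hδ)).exists
  obtain ⟨c, hc⟩ : ∃ c, c = 1 - C.d S + δ := ⟨_, rfl⟩
  have hc0 : 0 < c := by rw [hc]; linarith
  have key := fun (ξ : ℂ) (hξ : ‖ξ‖ ≤ 1) =>
    (ucase_near hd hδ hr0 hrδ hξ).elim fun k hk => hδK k hk.1 _ hk.2
  rw [← hc] at key
  have hFn : ∀ ξ, ucase_F Ψ σ κ c r (ξ, 0) = C.F S (ucase_n (C.d S) c r ξ) := fun ξ => by
    rw [ucase_F_zero, hΨ.atD, hg1]
    rfl
  have hmem : ∀ ξ : ℂ, ‖ξ‖ ≤ 1 → ((1 : ℝ), c * (1 - ‖ξ‖ ^ 2), (r : ℂ) * ξ) ∈ N := fun ξ hξ => by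
    have := (key ξ hξ).1
    rwa [ucase_n_re, add_sub_cancel_left] at this
  have hM : ∀ ξ, (r • (L : ℂ →L[ℝ] ℂ)) ξ = L ((r : ℂ) * ξ) := fun ξ => by
    rw [← Complex.real_smul, map_smul]
    rfl
  have hr' : (r : ℂ) ≠ 0 := by exact_mod_cast hr0.ne'
  have ana : ∀ ξ ∈ Half, ∀ s, ∀ x ∈ C.sdom s, ucase_F Ψ σ κ c r (ξ, 0) = C.sh s x →
      s = .inl X ∧ C.ucase_PX S X (C.TrX X S ∪ {x | X = Z ∧ x ∈ Metric.closedBall p η})
        (ucase_n (C.d S) c r ξ) x ∧ (ucase_n (C.d S) c r ξ).1 = 1 ∧ ξ.re = 0 ∧ 0 < ξ.im ∧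
        c * ξ.im ^ 2 = δ := by
    intro ξ hξ s x hx he
    rw [hFn] at he
    rcases (key ξ hξ.1).2.2.2.2.2.2 s x hx he.symm with ⟨hs, hn⟩ | ⟨hs, hPX⟩
    · exfalso
      subst hs
      have h2 : (r : ℂ) * ξ = 0 := congrArg Prod.snd hn
      have h3 : ξ = 0 := (mul_eq_zero.1 h2).resolve_left hr'
      have h4 : ((C.d S + c * (1 - ‖ξ‖ ^ 2) : ℝ) : ℂ) = x := congrArg Prod.fst hn
      have h5 : ‖x‖ ≤ 1 := hx.1
      rw [← h4, h3, Complex.norm_real, Real.norm_eq_abs] at h5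
      have h6 := (abs_le.1 h5).2
      simp only [norm_zero] at h6
      nlinarith
    · have h1 : ‖((C.d S + c * (1 - ‖ξ‖ ^ 2) : ℝ) : ℂ)‖ = 1 := hPX.1
      have h2 : ((r : ℂ) * ξ).re = 0 := hPX.2.1
      rw [Complex.norm_real, Real.norm_eq_abs] at h1
      have h0 : 0 ≤ c * (1 - ‖ξ‖ ^ 2) :=
        mul_nonneg hc0.le (by nlinarith [norm_nonneg ξ, hξ.1])
      have h3 : C.d S + c * (1 - ‖ξ‖ ^ 2) = 1 := by
        rcases (abs_eq zero_le_one).1 h1 with h | h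
        · exact h
        · linarith
      have h4 : ξ.re = 0 := by simpa [hr0.ne'] using h2
      have h5 : c * ξ.im ^ 2 = δ := by
        rw [Complex.sq_norm, Complex.normSq_apply, h4] at h3
        nlinarith
      refine ⟨hs, hPX, by simp only [ucase_n, h3]; rfl, h4, ?_, h5⟩
      refine lt_of_le_of_ne hξ.2 fun h6 => ?_
      rw [← h6] at h5
      nlinarith
  refine ⟨{
    F' := F'
    Fc := ucase_F Ψ σ κ c r
    loc := C.lo S
    αc := fun e => C.α S (C.d S + (σ * e.2 + c * (1 - e.1 ^ 2)), r * e.1)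
    Mc := r • (L : ℂ →L[ℝ] ℂ)
    finger := by simpa only [hM, mul_one, mul_neg] using hOK
    smooth := uchild_smooth hΨ.smooth σ κ c r
    bij := fun ξ hξ => uchild_bij hΨ.smooth hσ hκ hr0 (hb _ (hmem ξ hξ.1))
    inj := ?_
    α_smooth := (hC.α_smooth S).comp (by fun_prop)
    α_mem := ?_
    bot := ?_
    top := ?_
    β_mem := ?_
    M_one := ?_
    M_I := ?_
    pos := fun ξ hξ => hFn ξ ▸ (key ξ hξ.1).2.1.2
    notO := fun ξ hξ => hFn ξ ▸ (key ξ hξ.1).2.2.1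
    onD := ?_
    onF := ?_
    onOld := ?_
    finOld := ?_ }⟩
  · intro ξ hξ ξ' hξ' he
    simp only [leaf, ucase_F_zero] at he
    have h1 := hinj (hmem ξ hξ.1) (hmem ξ' hξ'.1) he
    exact mul_left_cancel₀ hr' (congrArg (fun n => n.2.2) h1)
  · intro x hx
    have := (key x (by simpa using hx)).2.2.2.1.1
    rw [ucase_n_real] at this
    simpa using this
  · intro x₀ hx₀
    have h1 := (key x₀ (by simpa using hx₀)).2.2.2.1.2
    have hc' : Continuous fun e : ℝ × ℝ =>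
        (C.d S + (σ * e.2 + c * (1 - e.1 ^ 2)), r * e.1) := by fun_prop
    have ht : Tendsto (fun e : ℝ × ℝ => (C.d S + (σ * e.2 + c * (1 - e.1 ^ 2)), r * e.1))
        (𝓝 (x₀, 0)) (𝓝 ((ucase_n (C.d S) c r x₀).1.re, (ucase_n (C.d S) c r x₀).2.re)) := by
      rw [ucase_n_real]
      simpa using hc'.tendsto (x₀, 0)
    filter_upwards [ht.eventually h1] with e he
    rw [ucase_F_real, hΨ.atD, hg1, ← he]
    simp
  · intro ξ₀ _
    have hc' : Continuous fun e : ℂ × ℂ => |e.2.im| := by fun_prop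
    have h1 : ∀ᶠ e : ℂ × ℂ in 𝓝 (ξ₀, 0), |e.2.im| < 1 :=
      hc'.continuousAt.eventually (gt_mem_nhds (by simp))
    filter_upwards [h1] with e he h2
    have h3 := abs_lt.1 he
    have h4 : (r : ℂ) * ((1 + e.2.im) • e.1) = ((r * (1 + e.2.im) : ℝ) : ℂ) * e.1 := by
      rw [Complex.real_smul]
      push_cast
      ring
    have h5 : ‖((r * (1 + e.2.im) : ℝ) : ℂ) * e.1‖ = r * (1 + e.2.im) := by
      rw [norm_mul, h2, mul_one, Complex.norm_real, Real.norm_eq_abs,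
        abs_of_pos (mul_pos hr0 (by linarith))]
    rw [hM, h4, hF.slab _ _ (by rw [h5]; nlinarith), h5]
    have h6 : (r * (1 + e.2.im)) ^ 2 / r ^ 2 = (1 + e.2.im) ^ 2 := by
      have := hr0.ne'
      field_simp
    rw [h6]
    simp [ucase_F, h2]
  · intro ξ hξ
    rw [hM]
    refine (hW _ ?_).2
    rw [norm_mul, hξ.1, Complex.norm_real, Real.norm_eq_abs, abs_of_pos hr0]
    linarith
  · constructor
    · simp [hΨ.L_one]
    · rw [hM, mul_one]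
      exact fun h0 => hr' (L.injective (h0.trans (map_zero L).symm))
  · simpa using mul_pos hr0 hΨ.L_I
  · intro ξ hξ j z hz he
    rw [hFn] at he
    obtain ⟨h1, h2⟩ := (key ξ hξ.1).2.2.2.2.1 j z hz he.symm
    exact ⟨⟨hξ.1, by simpa [ucase_n, hr0.ne'] using h2⟩, h1⟩
  · intro ξ hξ ξ' hξ' he
    have e : ξ' = p + L (L.symm (ξ' - p)) := by simp
    rcases le_total ‖L.symm (ξ' - p)‖ (3 * r) with hle | hle
    · rw [ucase_F_zero, e, hF.zero] at he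
      have h1 := hinj (hmem ξ hξ.1) (hW _ hle).1 he
      have h2 : c * (1 - ‖ξ‖ ^ 2) = 0 := congrArg (fun n => n.2.1) h1
      have h3 : (r : ℂ) * ξ = L.symm (ξ' - p) := congrArg (fun n => n.2.2) h1
      have h4 : 1 - ‖ξ‖ ^ 2 = 0 := (mul_eq_zero.1 h2).resolve_left hc0.ne'
      refine ⟨⟨by nlinarith [norm_nonneg ξ], hξ.2⟩, ?_⟩
      rw [hM, h3]
      exact e
    · rw [hFn, hF.out _ _ hle] at he
      exact absurd ⟨ξ', Metric.ball_subset_closedBall hξ', he.symm⟩ (key ξ hξ.1).2.2.2.2.2.1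
  · intro ξ hξ s x hx he
    obtain ⟨hs, hPX, h1, h2, h3, h4⟩ := ana ξ hξ s x hx.1 he
    subst hs
    obtain ⟨-, -, hxe, hxH, hxA, htop⟩ := hPX
    refine ⟨⟨?_, h3⟩, hxH, ?_, ?_, ?_⟩
    · have h5 : ‖ξ‖ ^ 2 < 1 := by
        rw [Complex.sq_norm, Complex.normSq_apply, h2]
        by_contra h6
        nlinarith
      nlinarith [norm_nonneg ξ]
    · have h5 : leaf (ucase_F Ψ σ κ c r) = fun ζ => C.F S (ucase_n (C.d S) c r ζ) :=
        funext hFn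
      rw [h5, hxe]
      exact ucase_transv (hC.smooth S) (hC.smooth X) (C.p S) (C.M S) hc0 hr0 h2 h3 h1
        (hb' _ (key ξ hξ.1).2.1.1).2 htop
    · intro s' x' hx' he'
      obtain ⟨hs', -⟩ := ana ξ hξ s' x' hx'.1 (he.trans he'.symm)
      subst hs'
      rw [hC.sh_injOn (.inl X) hx'.1 hx.1 he']
    · intro j hj
      cases hj
      have hM1 := (hC.M_one S X hX).1
      have hMI := hC.M_I S X hX
      have hm : 0 < (ucase_n (C.d S) c r ξ).2.im := by simpa [ucase_n] using mul_pos hr0 h3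
      rw [h1] at hxe
      refine (hxA.above (L := C.β S '' Semi) hxH.2 ?_ ?_).mono ?_
      · rintro _ ⟨ζ, hζ, rfl⟩
        rw [hxe]
        have e1 := im_M hM1 ((1 + (ucase_n (C.d S) c r ξ).2.im) • (1 : ℂ))
        have e2 := im_M hM1 ζ
        have := mul_nonneg hζ.2 hMI.le
        rw [β, β, Complex.add_im, Complex.add_im, e1, e2]
        simpa using this
      · rintro ⟨ζ, hζ, he'⟩
        rw [hxe] at he'
        have h5 := hC.M_inj hX (add_left_cancel he')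
        have h6 := hζ.1
        rw [h5, norm_smul, norm_one, mul_one, Real.norm_eq_abs, abs_of_pos (by linarith)] at h6
        linarith
      · rintro y (⟨c', hc', ζ, hζ, rfl⟩ | hy)
        · by_cases h5 : c' = S
          · subst h5
            exact Or.inr ⟨ζ, hζ, rfl⟩
          · exact Or.inl (Or.inl ⟨c', h5, hc', ζ, hζ, rfl⟩)
        · exact Or.inl (Or.inr hy)
  · refine Set.Subsingleton.finite ?_
    rintro ⟨ξ, s, x⟩ ⟨hξ, hx, he⟩ ⟨ξ', s', x'⟩ ⟨hξ', hx', he'⟩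
    obtain ⟨hs, hPX, -, h2, h3, h4⟩ := ana ξ hξ s x hx.1 he
    obtain ⟨hs', hPX', -, h2', h3', h4'⟩ := ana ξ' hξ' s' x' hx'.1 he'
    have h5 : ξ.im = ξ'.im := by
      have := mul_left_cancel₀ hc0.ne' (h4.trans h4'.symm)
      exact (pow_left_inj₀ h3.le h3'.le two_ne_zero).1 this
    have h6 : ξ = ξ' := Complex.ext (h2.trans h2'.symm) h5
    subst h6
    rw [hs, hs', hPX.2.2.1, hPX'.2.2.1]

end Config

end Pool.Agent.Lib.MP_1d0d1b_gt
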