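import Pool.Agent.Lib.MP_1d0d1b_gt.Update
import Pool.Agent.Lib.MP_1d0d1b_gt.UCase
import Pool.Agent.Lib.MP_1d0d1b_gt.BCase

open Set Function Filter Topology
open scoped ContDiff Real

noncomputable section

namespace Pool.Agent.Lib.MP_1d0d1b_gt

namespace Config

variable {B : Base}

private theorem Induct_upd {C : Config B} (hC : C.Valid) {Z S : C.I} {p q : ℂ}
    (h : C.Good (.inl Z) p (.inl S) q) : ∃ η, C.Prep Z p η ∧ Nonempty (C.Upd Z p η) := by
  obtain ⟨η, hη⟩ := (hC.prep h).exists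
  refine ⟨η, hη, ?_⟩
  rcases hS : C.par S with a | X
  · have := hC.rt_par S a hS
    subst this
    exact hC.upd_B h hη
  · exact hC.upd_U h hS hη

private theorem Induct_mem {C : Config B} (hC : C.Valid) {Z : C.I} {p : ℂ} {η : ℝ}
    (hP : C.Prep Z p η) (U : C.Upd Z p η) {k : ℕ} (hk : k ≤ C.ord Z)
    {r : ((C.next U).I × ℂ) × ((C.next U).I × ℂ)} (hr : r ∈ (C.next U).Pend k) :
    ∃ r' ∈ C.Pend k, r'.1 ≠ (Z, p) ∧ r = ((some r'.1.1, r'.1.2), (some r'.2.1, r'.2.2)) := by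
  obtain ⟨⟨oi, x⟩, ⟨oj, y⟩⟩ := r
  obtain ⟨hg, hm⟩ := hr
  rcases oi with _ | i
  · exfalso
    have : C.ord Z + 1 ≤ k := by
      rw [← hm]
      exact le_max_left _ _
    omega
  rcases oj with _ | j
  · exfalso
    have : C.ord Z + 1 ≤ k := by
      rw [← hm]
      exact le_max_right _ _
    omega
  obtain ⟨h1, h2⟩ := hC.next_good hP U hg
  refine ⟨((i, x), (j, y)), ⟨h1, hm⟩, ?_, rfl⟩
  intro he
  simp only [Prod.mk.injEq] at he
  exact h2 ⟨he.1, by rw [he.2]; exact Metric.mem_ball_self hP.η_pos⟩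

private theorem Induct_level (n : ℕ) : ∀ (m : ℕ) (C : Config B), C.Valid →
    (∀ k < n, C.Pend k = ∅) → (C.Pend n).ncard = m →
    ∃ C' : Config B, C'.Valid ∧ ∀ k < n + 1, C'.Pend k = ∅ := by
  intro m
  induction m using Nat.strong_induction_on with
  | _ m ih =>
  intro C hC hlt hm
  rcases (C.Pend n).eq_empty_or_nonempty with he | ⟨r, hr⟩
  · refine ⟨C, hC, fun k hk => ?_⟩
    rcases Nat.lt_succ_iff_lt_or_eq.1 hk with h | h
    · exact hlt k h
    · rw [h, he]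
  have key : ∃ Z p S q, ((Z, p), (S, q)) ∈ C.Pend n ∧ C.ord Z = n := by
    obtain ⟨⟨i, x⟩, ⟨j, y⟩⟩ := r
    obtain ⟨hg, hmax⟩ := hr
    rcases le_total (C.ord j) (C.ord i) with hij | hij
    · exact ⟨i, x, j, y, ⟨hg, hmax⟩, by rw [← hmax]; exact (max_eq_left hij).symm⟩
    · exact ⟨j, y, i, x, ⟨hg.symm, by rw [← hmax]; exact max_comm _ _⟩,
        by rw [← hmax]; exact (max_eq_right hij).symm⟩
  obtain ⟨Z, p, S, q, hmem, hZ⟩ := key
  obtain ⟨η, hP, ⟨U⟩⟩ := Induct_upd hC hmem.1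
  have hfin := hC.finite_Pend n
  refine ih ((C.next U).Pend n).ncard ?_ (C.next U) (hC.next_valid hP U) ?_ rfl
  · have hsub : (C.next U).Pend n ⊆
        (fun r' : (C.I × ℂ) × (C.I × ℂ) => (((some r'.1.1, r'.1.2), (some r'.2.1, r'.2.2)) :
          ((C.next U).I × ℂ) × ((C.next U).I × ℂ))) '' (C.Pend n \ {((Z, p), (S, q))}) := by
      intro r₀ hr₀
      obtain ⟨r', h1, h2, h3⟩ := Induct_mem hC hP U hZ.ge hr₀
      refine ⟨r', ⟨h1, ?_⟩, h3.symm⟩
      intro he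
      exact h2 (by rw [mem_singleton_iff.1 he])
    have hfd : (C.Pend n \ {((Z, p), (S, q))}).Finite := hfin.subset sdiff_subset
    calc ((C.next U).Pend n).ncard ≤ _ := ncard_le_ncard hsub (hfd.image _)
      _ ≤ (C.Pend n \ {((Z, p), (S, q))}).ncard := ncard_image_le hfd
      _ < (C.Pend n).ncard := ncard_sdiff_singleton_lt_of_mem hmem hfin
      _ = m := hm
  · intro k hk
    rw [eq_empty_iff_forall_notMem]
    intro r₀ hr₀
    obtain ⟨r', h1, -, -⟩ := Induct_mem hC hP U (hk.le.trans hZ.ge) hr₀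
    rw [hlt k hk] at h1
    exact h1

theorem exists_clear {C : Config B} (hC : C.Valid) (n : ℕ) :
    ∃ C' : Config B, C'.Valid ∧ ∀ k ≤ n, C'.Pend k = ∅ := by
  have key : ∀ n : ℕ, ∃ C' : Config B, C'.Valid ∧ ∀ k < n, C'.Pend k = ∅ := by
    intro n
    induction n with
    | zero => exact ⟨C, hC, fun k hk => absurd hk (Nat.not_lt_zero k)⟩
    | succ n ih =>
      obtain ⟨C', hC', hlt⟩ := ih
      exact Induct_level n _ C' hC' hlt rfl
  obtain ⟨C', hC', h⟩ := key (n + 1)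
  exact ⟨C', hC', fun k hk => h k (Nat.lt_succ_of_le hk)⟩

end Config

end Pool.Agent.Lib.MP_1d0d1b_gt
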