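import Pool.Agent.Lib.MP_1d0d1b_gt.WSmooth
import Pool.Agent.Lib.MP_1d0d1b_gt.Lift

open Set Function Filter Topology
open scoped ContDiff Real

noncomputable section

namespace Pool.Agent.Lib.MP_1d0d1b_gt

theorem WTop_ρ0 {ξ : ℂ} (h : 9 / 10 ≤ ‖ξ‖) : ρ0 ξ ≤ -6 / 10 := by
  rw [ρ0_eq (by linarith)]; linarith

theorem WTop_sat (ty : Bool) {ξ : ℂ} (h : 9 / 10 ≤ ‖ξ‖) : ρ0 ξ ≤ ρf ty := by
  linarith [WTop_ρ0 h, (ρf_mem ty).1]

theorem WTop_form (ε : ℝ) (a : Rt) (k : KV a) {ξ : ℂ} (h : 9 / 10 ≤ ‖ξ‖) (l : ℝ) :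
    WV ε a k (ξ, l) = (Φa a (XV a.2 k.1 (yw a.2 ξ) + l) (3 / 10 + yw a.2 ξ)
      (-1 / 4 - sg a.2 * ρ1 a.2 (ρV a.2 k.1) ξ),
      1 - cT a.2 * χh (-1 / 4 - sg a.2 * ρ1 a.2 (ρV a.2 k.1) ξ)) := by
  have h0 := WTop_ρ0 h
  have h1 := ρab a.2
  have h2 := ρf_mem a.2
  rw [WV, Wf_outer a _ (ρV_le a.2 k.1) (by linarith), step_of_le h1.2.1 (by linarith [h1.1]),
    step_of_le (by linarith [h2.1]) (by linarith)]
  simp

theorem WTop_yw (ty : Bool) {ξ : ℂ} (h : 9 / 10 ≤ ‖ξ‖) : ContDiffAt ℝ ∞ (yw ty) ξ := by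
  refine yw_contDiffAt ty ?_ (.inl (ωw_re_pos ty ?_))
  · rintro rfl
    norm_num at h
  · have := ϱw_big ty (r := ‖ξ‖) (by linarith [show ρn (nr ‖ξ‖) ≤ ρf ty from WTop_sat ty h])
    rw [norm_ξt]
    linarith

theorem WTop_abs (ty : Bool) {ξ : ℂ} (h : 9 / 10 ≤ ‖ξ‖) : |yw ty ξ| < 1 / 50 :=
  abs_yw_sat ty (by linarith [WTop_sat ty h])

theorem WTop_XV (ty : Bool) (k : Fin 4) {ξ : ℂ} (h : 9 / 10 ≤ ‖ξ‖) :
    ContDiffAt ℝ ∞ (XV ty k) (yw ty ξ) := by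
  have := abs_lt.1 (WTop_abs ty h)
  exact (XV_contDiffOn ty k).contDiffAt (Ioo_mem_nhds (by linarith [this.1]) this.2)

theorem WTop_height (ty : Bool) (k : Fin 4) :
    -1 / 4 - sg ty * ρV ty k = -1 / 2 ∨ -1 / 4 - sg ty * ρV ty k = -1 / 20 := by
  unfold sg ρV
  split_ifs <;> norm_num

theorem WTop_circ (t : ℝ) : 9 / 10 ≤ ‖circ t‖ := by rw [norm_circ]; norm_num

/-- The differential of a copy at the upper arc fills the space directions. -/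
theorem WTop_surj (ε : ℝ) (a : Rt) (k : KV a) {ξ : ℂ} (hξ : ξ ∈ Semi) (v : V3) :
    ∃ P, fderiv ℝ (WV ε a k) (ξ, 0) P = (v, 0) := by
  have hn : 9 / 10 < ‖ξ‖ := by rw [hξ.1]; norm_num
  have hy := (WTop_yw a.2 hn.le).differentiableAt (by simp)
  have hX := (WTop_XV a.2 k.1 hn.le).differentiableAt (by simp)
  have hρ := (ρ1_smooth a.2 (ρV a.2 k.1)).differentiable (by simp) ξ
  have h1 := ρ1_one a.2 (ρV a.2 k.1) hξ.1
  set u : ℂ × ℝ → ℝ × ℝ × ℝ := fun q => (XV a.2 k.1 (yw a.2 q.1) + q.2, 3 / 10 + yw a.2 q.1,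
    -1 / 4 - sg a.2 * ρ1 a.2 (ρV a.2 k.1) q.1) with hu
  set F : ℝ × ℝ × ℝ → V3 := fun q => Φa a q.1 q.2.1 q.2.2 with hF
  have e1 : WV ε a k =ᶠ[𝓝 (ξ, 0)] fun q => (F (u q), 1 - cT a.2) := by
    have c1 : ∀ᶠ q : ℂ × ℝ in 𝓝 (ξ, 0), 9 / 10 < ‖q.1‖ :=
      (continuous_fst.norm.continuousAt).eventually (lt_mem_nhds hn)
    have c2 : ∀ᶠ q : ℂ × ℝ in 𝓝 (ξ, 0),
        -1 / 4 - sg a.2 * ρ1 a.2 (ρV a.2 k.1) q.1 ∈ Ioo (-55 / 100 : ℝ) 0 := by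
      have c3 : Continuous fun q : ℂ × ℝ => -1 / 4 - sg a.2 * ρ1 a.2 (ρV a.2 k.1) q.1 :=
        continuous_const.sub (continuous_const.mul
          ((ρ1_smooth _ _).continuous.comp continuous_fst))
      refine c3.continuousAt.eventually (isOpen_Ioo.mem_nhds ?_)
      simp only [h1]
      rcases WTop_height a.2 k.1 with h | h <;> rw [h] <;> norm_num
    filter_upwards [c1, c2] with q q1 q2
    rw [WTop_form ε a k q1.le, χh_eq_one (Ioo_subset_Icc_self q2), mul_one]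
  have d1 : HasFDerivAt (fun q : ℂ × ℝ => yw a.2 q.1)
      ((fderiv ℝ (yw a.2) ξ).comp (ContinuousLinearMap.fst ℝ ℂ ℝ)) (ξ, 0) :=
    HasFDerivAt.comp (ξ, (0 : ℝ)) (g := yw a.2) hy.hasFDerivAt hasFDerivAt_fst
  have d2 : HasFDerivAt (fun q : ℂ × ℝ => ρ1 a.2 (ρV a.2 k.1) q.1)
      ((fderiv ℝ (ρ1 a.2 (ρV a.2 k.1)) ξ).comp (ContinuousLinearMap.fst ℝ ℂ ℝ)) (ξ, 0) :=
    HasFDerivAt.comp (ξ, (0 : ℝ)) (g := ρ1 a.2 _) hρ.hasFDerivAt hasFDerivAt_fst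
  have d3 := HasDerivAt.comp_hasFDerivAt (ξ, (0 : ℝ)) (h₂ := XV a.2 k.1) hX.hasDerivAt d1
  have d4 := (d3.add hasFDerivAt_snd).prodMk ((d1.const_add (3 / 10)).prodMk
    ((d2.const_mul (sg a.2)).const_sub (-1 / 4)))
  have d5 := ((Φa_smooth a).differentiable (by simp) (u (ξ, 0))).hasFDerivAt
  have d6 := (HasFDerivAt.comp (ξ, (0 : ℝ)) (g := F) (f := u) d5 d4).prodMk
    (hasFDerivAt_const (1 - cT a.2) (ξ, (0 : ℝ)))
  have hab := abs_lt.1 (WTop_abs a.2 hn.le)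
  have i1 : Injective (fderiv ℝ F (u (ξ, 0))) := by
    refine Φa_imm a (mem_Dom_snd ?_ ?_) ?_
    · rw [abs_of_pos (by linarith [hab.1])]
      linarith [hab.1]
    · rw [abs_of_pos (by linarith [hab.1])]
      linarith [hab.2]
    · rw [h1]
      rcases WTop_height a.2 k.1 with h | h <;> rw [h] <;> norm_num [abs_le]
  have i2 : Surjective (fderiv ℝ F (u (ξ, 0))) :=
    (LinearMap.injective_iff_surjective_of_finrank_eq_finrank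
      (f := (fderiv ℝ F (u (ξ, 0))).toLinearMap) (by simp)).1 i1
  obtain ⟨w, hw⟩ := i2 v
  have r1 := fderiv_yw_radial a.2 (WTop_sat a.2 hn.le)
  have r2 := (fderiv_yw_angular a.2 hξ.2 (by linarith [WTop_sat a.2 hn.le])).ne
  have r3 := (fderiv_ρ1_radial (ρV_le a.2 k.1) (ξ := ξ) (by linarith)).ne
  have r4 := fderiv_ρ1_angular a.2 (ρV a.2 k.1) ξ
  have r5 : sg a.2 ≠ 0 := by rcases sg_cases a.2 with h | h <;> rw [h] <;> norm_num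
  rw [e1.fderiv_eq.trans d6.fderiv]
  refine ⟨((-w.2.2 / (sg a.2 * fderiv ℝ (ρ1 a.2 (ρV a.2 k.1)) ξ ξ)) • ξ +
    (w.2.1 / fderiv ℝ (yw a.2) ξ (Complex.I * ξ)) • (Complex.I * ξ),
    w.1 - deriv (XV a.2 k.1) (yw a.2 ξ) * w.2.1), Prod.ext ?_ rfl⟩
  rw [← hw]
  simp only [ContinuousLinearMap.prod_apply, ContinuousLinearMap.comp_apply]
  refine congrArg (fderiv ℝ F (u (ξ, 0))) ?_
  simp only [add_apply, smul_apply, ContinuousLinearMap.comp_apply, neg_apply,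
    ContinuousLinearMap.coe_fst', ContinuousLinearMap.coe_snd', map_add, map_smul, r1, r4,
    smul_eq_mul]
  refine Prod.ext ?_ (Prod.ext ?_ ?_) <;> simp only [] <;> field_simp <;> ring

theorem WTop_span (ε : ℝ) (a : Rt) (k : KV a) {g : ℝ × ℝ → E4} (hg : ContDiff ℝ ∞ g) {t : ℝ}
    (ht : t ∈ Icc (0 : ℝ) π) {τ : ℝ} (h : HasDerivAt (fun c => (g (t, c)).2) τ 0) (h0 : τ ≠ 0)
    (y : E4) : ∃ (P : ℂ × ℝ) (c : ℝ),
      fderiv ℝ (WV ε a k) (circ t, 0) P + c • fderiv ℝ g (t, 0) (0, 1) = y := by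
  have h1 : HasDerivAt (fun c : ℝ => g (t, c)) (fderiv ℝ g (t, 0) (0, 1)) 0 :=
    HasFDerivAt.comp_hasDerivAt (0 : ℝ) (l := g) (f := fun c : ℝ => (t, c))
      (hg.differentiable (by simp) _).hasFDerivAt
      ((hasDerivAt_const _ t).prodMk (hasDerivAt_id _))
  have h2 : (fderiv ℝ g (t, 0) (0, 1)).2 = τ :=
    ((ContinuousLinearMap.snd ℝ V3 ℝ).hasFDerivAt.comp_hasDerivAt (0 : ℝ) h1).unique h
  obtain ⟨P, hP⟩ := WTop_surj ε a k (circ_mem_Semi ht)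
    (y.1 - (y.2 / τ) • (fderiv ℝ g (t, 0) (0, 1)).1)
  refine ⟨P, y.2 / τ, ?_⟩
  rw [hP]
  refine Prod.ext (by simp) ?_
  simp [h2, h0]

theorem WTop_y (ty : Bool) : ContDiff ℝ ∞ fun t => yw ty (circ t) :=
  contDiff_iff_contDiffAt.2 fun t => (WTop_yw ty (WTop_circ t)).comp t circ_contDiff.contDiffAt

theorem WTop_x (ty : Bool) (k : Fin 4) : ContDiff ℝ ∞ fun t => XV ty k (yw ty (circ t)) :=
  contDiff_iff_contDiffAt.2 fun t => ContDiffAt.comp t (g := XV ty k) (f := fun t => yw ty (circ t))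
    (WTop_XV ty k (WTop_circ t)) (WTop_y ty).contDiffAt

theorem WTop_ymem (ty : Bool) (t : ℝ) :
    3 / 10 + yw ty (circ t) ∈ Icc (28 / 100 : ℝ) (32 / 100) := by
  have := abs_lt.1 (WTop_abs ty (WTop_circ t))
  constructor <;> linarith [this.1, this.2]

theorem WTop_small (t₀ : ℝ) : ∀ᶠ q : ℝ × ℝ in 𝓝 (t₀, 0), q.2 ∈ Ioo (-1 / 100 : ℝ) (1 / 100) :=
  continuous_snd.continuousAt.eventually (Ioo_mem_nhds (by norm_num) (by norm_num))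

theorem WTop_cT (ty : Bool) : cT ty = 1 / 3 ∨ cT ty = 2 / 3 := by
  cases ty <;> simp [cT]

theorem WTop_collar (ε : ℝ) (a : Rt) (k : KV a) (s : ℝ)
    (hh : -1 / 4 - sg a.2 * ρV a.2 k.1 = -1 / 2)
    (hq : ∀ t, qf (XV a.2 k.1 (yw a.2 (circ t)) + s, 3 / 10 + yw a.2 (circ t)) = R2 a.2)
    (hs : (s = 0 ∧ ∀ t, XV a.2 k.1 (yw a.2 (circ t)) ∈ Icc (-13 / 100 : ℝ) (-55 / 1000)) ∨
      (s = 1 ∧ ∀ t, XV a.2 k.1 (yw a.2 (circ t)) ∈ Icc (-57 / 100 : ℝ) (-53 / 100))) :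
    ∃ g : ℝ × ℝ → E4, ContDiff ℝ ∞ g ∧
    (∀ t, g (t, 0) = WV ε a k (circ t, 0)) ∧
    (∀ t₀ ∈ Icc (0 : ℝ) π, ∀ᶠ q in 𝓝 (t₀, (0 : ℝ)), g q ∈ fD (oth a.1) '' oDisc) ∧
    ∀ t ∈ Icc (0 : ℝ) π, ∀ y : E4, ∃ (P : ℂ × ℝ) (c : ℝ),
      fderiv ℝ (WV ε a k) (circ t, 0) P + c • fderiv ℝ g (t, 0) (0, 1) = y := by
  have hx : ContDiff ℝ ∞ fun q : ℝ × ℝ => XV a.2 k.1 (yw a.2 (circ q.1)) + q.2 :=
    ((WTop_x a.2 k.1).comp contDiff_fst).add contDiff_snd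
  have hy : ContDiff ℝ ∞ fun q : ℝ × ℝ => 3 / 10 + yw a.2 (circ q.1) :=
    contDiff_const.add ((WTop_y a.2).comp contDiff_fst)
  have hQ : ContDiff ℝ ∞ fun q : ℝ × ℝ =>
      qf (XV a.2 k.1 (yw a.2 (circ q.1)) + q.2 + s, 3 / 10 + yw a.2 (circ q.1)) :=
    ContDiff.comp (g := qf) (by unfold qf; fun_prop) ((hx.add contDiff_const).prodMk hy)
  have hR : (R2 a.2 - 16 / 100) / (6 / 1000) = 1 - cT a.2 := by unfold R2; ring
  have hc : |1 - cT a.2| ≤ 9 / 10 := by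
    rcases WTop_cT a.2 with h | h <;> rw [h] <;> norm_num [abs_le]
  have hg : ContDiff ℝ ∞ fun q : ℝ × ℝ => ((Φa a (XV a.2 k.1 (yw a.2 (circ q.1)) + q.2)
      (3 / 10 + yw a.2 (circ q.1)) (-1 / 2), Hs ((qf (XV a.2 k.1 (yw a.2 (circ q.1)) + q.2 + s,
        3 / 10 + yw a.2 (circ q.1)) - 16 / 100) / (6 / 1000))) : E4) := by
    refine ContDiff.prodMk ((Φa_smooth a).comp (f := fun q : ℝ × ℝ =>
      (XV a.2 k.1 (yw a.2 (circ q.1)) + q.2, 3 / 10 + yw a.2 (circ q.1), -1 / 2))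
      (hx.prodMk (hy.prodMk contDiff_const)))
      (Hs_contDiff.comp ((hQ.sub contDiff_const).div_const _))
  refine ⟨_, hg, fun t => ?_, fun t₀ _ => ?_, fun t ht y => ?_⟩
  · rw [WTop_form ε a k (WTop_circ t), ρ1_one _ _ (norm_circ t), hh,
      χh_eq_one (by norm_num), mul_one]
    simp only [add_zero, hq, hR, Hs_of_abs_le hc]
  · have c1 : ∀ᶠ q : ℝ × ℝ in 𝓝 (t₀, 0), 16 / 100 <
        qf (XV a.2 k.1 (yw a.2 (circ q.1)) + q.2 + s, 3 / 10 + yw a.2 (circ q.1)) := by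
      refine hQ.continuous.continuousAt.eventually (lt_mem_nhds ?_)
      simp only [add_zero, hq, R2]
      rcases WTop_cT a.2 with h | h <;> rw [h] <;> norm_num
    filter_upwards [c1, WTop_small t₀] with q q1 q2
    refine mem_collar a (WTop_ymem a.2 q.1) ?_ q1
    rcases hs with ⟨rfl, h⟩ | ⟨rfl, h⟩
    · exact .inl ⟨add_zero _, by linarith [(h q.1).1, q2.1], by linarith [(h q.1).2, q2.2]⟩
    · exact .inr ⟨rfl, by linarith [(h q.1).1, q2.1], by linarith [(h q.1).2, q2.2]⟩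
  · have hm := WTop_ymem a.2 t
    have h5 : 5 * (XV a.2 k.1 (yw a.2 (circ t)) + s) - 3 * (3 / 10 + yw a.2 (circ t)) ≠ 0 := by
      rcases hs with ⟨rfl, h⟩ | ⟨rfl, h⟩
      · exact ne_of_lt (by linarith [(h t).2, hm.1])
      · exact ne_of_gt (by linarith [(h t).1, hm.2])
    have hq' := hq t
    generalize hX : XV a.2 k.1 (yw a.2 (circ t)) = X at h5 hq'
    generalize hY : 3 / 10 + yw a.2 (circ t) = Y at h5 hq'
    have d1 : HasDerivAt (fun c : ℝ => (qf (X + c + s, Y) - 16 / 100) / (6 / 1000))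
        ((5 * (X + s) - 3 * Y) / 2 / (6 / 1000)) 0 := by
      have d0 : HasDerivAt (fun c : ℝ => X + c + s) 1 0 :=
        ((hasDerivAt_id (0 : ℝ)).const_add X).add_const s
      have d2 := (((((d0.add_const Y).div_const 2).pow 2).add ((d0.sub_const Y).pow 2)).sub_const
        (16 / 100)).div_const (6 / 1000)
      refine HasDerivAt.congr_deriv d2 ?_
      simp
      ring
    have d3 := (Hs_hasDerivAt _).comp (0 : ℝ) d1
    refine WTop_span ε a k hg ht (by simp only [hX, hY]; exact d3) (mul_ne_zero ?_ ?_) y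
    · rw [add_zero, hq', hR]
      exact (Hs_deriv_pos (by linarith)).ne'
    · exact div_ne_zero (div_ne_zero h5 two_ne_zero) (by norm_num)

theorem WTop_cross (ε : ℝ) (a : Rt) (k : KV a) (ha : a.2 = false)
    (hh : -1 / 4 - sg a.2 * ρV a.2 k.1 = -1 / 20) {X : ℝ} (hX : X = -31 / 100 ∨ X = -29 / 100)
    (hq : ∀ y, XV a.2 k.1 y = X) :
    ∃ g : ℝ × ℝ → E4, ContDiff ℝ ∞ g ∧
    (∀ t, g (t, 0) = WV ε a k (circ t, 0)) ∧
    (∀ t₀ ∈ Icc (0 : ℝ) π, ∀ᶠ q in 𝓝 (t₀, (0 : ℝ)), g q ∈ fD (oth a.1) '' oDisc) ∧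
    ∀ t ∈ Icc (0 : ℝ) π, ∀ y : E4, ∃ (P : ℂ × ℝ) (c : ℝ),
      fderiv ℝ (WV ε a k) (circ t, 0) P + c • fderiv ℝ g (t, 0) (0, 1) = y := by
  have hy : ContDiff ℝ ∞ fun q : ℝ × ℝ => 3 / 10 + yw a.2 (circ q.1) :=
    contDiff_const.add ((WTop_y a.2).comp contDiff_fst)
  have hχ := χh_contDiff
  have hg : ContDiff ℝ ∞ fun q : ℝ × ℝ => ((Φa a X (3 / 10 + yw a.2 (circ q.1)) (-1 / 20 + q.2),
      1 - cT (!a.2) * χh (-(-1 / 20 + q.2))) : E4) :=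
    ContDiff.prodMk ((Φa_smooth a).comp (f := fun q : ℝ × ℝ =>
      (X, 3 / 10 + yw a.2 (circ q.1), -1 / 20 + q.2))
      (contDiff_const.prodMk (hy.prodMk (by fun_prop)))) (by fun_prop)
  refine ⟨_, hg, fun t => ?_, fun t₀ _ => ?_, fun t ht y => ?_⟩
  · rw [WTop_form ε a k (WTop_circ t), ρ1_one _ _ (norm_circ t), hh,
      χh_eq_one (h := -1 / 20) (by norm_num), mul_one, hq]
    simp only [add_zero]
    rw [(χh_eq_half_iff (h := -(-1 / 20)) (by norm_num)).2 (by norm_num), ha]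
    norm_num [cT]
  · filter_upwards [WTop_small t₀] with q q2
    exact mem_cross a hX (WTop_ymem a.2 q.1) (abs_le.2 ⟨by linarith [q2.1], by linarith [q2.2]⟩)
  · have d0 : HasDerivAt (fun c : ℝ => -(-1 / 20 + c)) (-1) 0 :=
      ((hasDerivAt_id (0 : ℝ)).const_add _).neg
    have d1 := (((hχ.differentiable (by simp) _).hasDerivAt.comp (0 : ℝ) d0).const_mul
      (cT (!a.2))).const_sub 1
    refine WTop_span ε a k hg ht d1 (neg_ne_zero.2 (mul_ne_zero ?_ (mul_ne_zero ?_ (by norm_num)))) y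
    · rcases WTop_cT (!a.2) with h | h <;> rw [h] <;> norm_num
    · exact (χh_deriv_neg (by norm_num) (by norm_num)).ne

/-- A patch of the other disc along the upper arc. -/
theorem WV_patch (ε : ℝ) (a : Rt) (k : KV a) : ∃ g : ℝ × ℝ → E4, ContDiff ℝ ∞ g ∧
    (∀ t, g (t, 0) = WV ε a k (circ t, 0)) ∧
    (∀ t₀ ∈ Icc (0 : ℝ) π, ∀ᶠ q in 𝓝 (t₀, (0 : ℝ)), g q ∈ fD (oth a.1) '' oDisc) ∧
    ∀ t ∈ Icc (0 : ℝ) π, ∀ y : E4, ∃ (P : ℂ × ℝ) (c : ℝ),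
      fderiv ℝ (WV ε a k) (circ t, 0) P + c • fderiv ℝ g (t, 0) (0, 1) = y := by
  have hR : R2 a.2 ∈ Icc (16 / 100 : ℝ) (166 / 1000) := by
    unfold R2
    rcases WTop_cT a.2 with h | h <;> rw [h] <;> norm_num
  have hD : ∀ t, 0 ≤ 5 * R2 a.2 - 4 * (3 / 10 + yw a.2 (circ t)) ^ 2 := fun t => by
    have := WTop_ymem a.2 t
    nlinarith [this.1, this.2, hR.1]
  have hk : ∀ i : Fin 4, i = 0 ∨ i = 1 ∨ i = 2 ∨ i = 3 := by decide
  have ha : k.1 = 1 ∨ k.1 = 2 → a.2 = false := fun h => by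
    by_contra h'
    have := k.2 (by simpa using h')
    omega
  rcases hk k.1 with h | h | h | h
  · refine WTop_collar ε a k 1 ?_ (fun t => ?_) (.inr ⟨rfl, fun t => ?_⟩)
    · rw [h]
      cases a.2 <;> simp [sg, ρV] <;> norm_num
    · rw [h, ← qf_xp (hD t)]
      simp [XV]
    · rw [h]
      simpa only [XV, if_true] using xp_mem hR (WTop_ymem a.2 t)
  · refine WTop_cross ε a k (ha (.inl h)) ?_ (.inl rfl) fun y => ?_
    · rw [h, ha (.inl h)]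
      norm_num [sg, ρV]
    · rw [h]
      simp [XV]
  · refine WTop_cross ε a k (ha (.inr h)) ?_ (.inr rfl) fun y => ?_
    · rw [h, ha (.inr h)]
      norm_num [sg, ρV]
    · rw [h]
      simp [XV]
  · refine WTop_collar ε a k 0 ?_ (fun t => ?_) (.inl ⟨rfl, fun t => ?_⟩)
    · rw [h]
      cases a.2 <;> simp [sg, ρV] <;> norm_num
    · rw [h, ← qf_xm (hD t)]
      simp [XV]
    · rw [h]
      have : XV a.2 3 (yw a.2 (circ t)) = xm (R2 a.2) (3 / 10 + yw a.2 (circ t)) := by simp [XV]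
      rw [this]
      exact xm_mem hR (WTop_ymem a.2 t)

theorem WV_top (ε : ℝ) (a : Rt) (k : KV a) : ∃ b : ℝ → ℂ, ContDiff ℝ ∞ b ∧
    (∀ t ∈ Icc (0 : ℝ) π, b t ∈ oDisc) ∧
    (∀ t₀ ∈ Icc (0 : ℝ) π, ∀ᶠ t in 𝓝 t₀, WV ε a k (circ t, 0) = fD (oth a.1) (b t)) ∧
    ∀ t ∈ Icc (0 : ℝ) π, ∀ y : E4, ∃ (P : ℂ × ℝ) (Q : ℂ),
      fderiv ℝ (WV ε a k) (circ t, 0) P + fderiv ℝ (fD (oth a.1)) (b t) Q = y := by
  obtain ⟨g, hg, h1, h2, h3⟩ := WV_patch ε a k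
  obtain ⟨α, hα, h4, h5⟩ := lift_disc (fD_smooth (oth a.1)) (fD_inj _) (fun z hz => fD_imm _ hz) hg
    (K := Icc (0 : ℝ) π ×ˢ {(0 : ℝ)}) (isCompact_Icc.prod isCompact_singleton)
    (by rintro ⟨t, _⟩ ⟨ht, rfl⟩; exact h2 t ht)
  refine ⟨fun t => α (t, 0), by fun_prop, fun t ht => h4 _ ⟨ht, rfl⟩, fun t₀ ht => ?_,
    fun t ht y => ?_⟩
  · filter_upwards [(Continuous.prodMk_left (0 : ℝ)).continuousAt.eventually (h5 (t₀, 0) ⟨ht, rfl⟩)]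
      with t h
    rw [← h1, h]
  · obtain ⟨P, c, h⟩ := h3 t ht y
    have e : g =ᶠ[𝓝 (t, 0)] fD (oth a.1) ∘ α := h5 (t, 0) ⟨ht, rfl⟩
    rw [e.fderiv_eq, fderiv_comp _ ((fD_smooth _).differentiable (by simp) _)
      (hα.differentiable (by simp) _)] at h
    exact ⟨P, c • fderiv ℝ α (t, 0) (0, 1), by rw [map_smul]; exact h⟩

end Pool.Agent.Lib.MP_1d0d1b_gt
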