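import Pool.Agent.Lib.MP_1d0d1b_gt.WVar1

open Set Function Filter Topology
open scoped ContDiff Real

noncomputable section

namespace Pool.Agent.Lib.MP_1d0d1b_gt

private theorem S1_near : ∀ᶠ ε in 𝓝 (0 : ℝ), ∀ k : Fin 4,
    S1 (ε * (k : ℕ)) ∈ Ioo (-51 / 100 : ℝ) (-49 / 100) := by
  refine eventually_all.2 fun k => ?_
  have hc : Continuous fun ε : ℝ => S1 (ε * (k : ℕ)) :=
    S1_contDiff.continuous.comp (continuous_id.mul continuous_const)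
  refine hc.continuousAt.eventually (isOpen_Ioo.mem_nhds ?_)
  simp only [zero_mul, S1_zero]
  constructor <;> norm_num

/-- The wall coordinate of a copy. -/
private def XX (ε : ℝ) (a : Rt) (k : Fin 4) (ξ : ℂ) : ℝ :=
  step (ρb a.2) (ρa a.2) (ρ0 ξ) * S1 (ε * (k : ℕ)) +
    (1 - step (ρb a.2) (ρa a.2) (ρ0 ξ)) * XV a.2 k (yw a.2 ξ)

/-- The height of a copy. -/
private def HH (a : Rt) (k : Fin 4) (ξ : ℂ) : ℝ := -1 / 4 - sg a.2 * ρ1 a.2 (ρV a.2 k) ξ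

private theorem WV_eq (ε : ℝ) (a : Rt) (k : KV a) {ξ : ℂ} (h : 799 / 1000 ≤ ‖ξ‖) :
    WV ε a k (ξ, 0) = (Φa a (XX ε a k.1 ξ) (3 / 10 + yw a.2 ξ) (HH a k.1 ξ),
      1 - cT a.2 * χh (HH a k.1 ξ) + step (4 / 10) (ρf a.2 + 2 / 100) (ρ0 ξ) * uw a.2 ξ) := by
  unfold WV
  rw [Wf_outer a _ (ρV_le a.2 k.1) h]
  simp only [XX, HH, add_zero]

private theorem ρ0_le {ξ : ℂ} (h : 799 / 1000 ≤ ‖ξ‖) : ρ0 ξ ≤ 41 / 100 := by
  rw [ρ0_eq (by linarith)]; linarith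

private theorem yw_le (ty : Bool) {ξ : ℂ} (hξ : ξ ∈ Half) (h : 799 / 1000 ≤ ‖ξ‖) :
    |yw ty ξ| ≤ 1 / 100 :=
  abs_yw_sat_le ty hξ.2 (by linarith [ρ0_le h, (ρf_mem ty).1])

private theorem XX_mem {ε : ℝ} (a : Rt) (k : Fin 4)
    (hε : S1 (ε * (k : ℕ)) ∈ Ioo (-51 / 100 : ℝ) (-49 / 100)) {ξ : ℂ} (hξ : ξ ∈ Half)
    (h : 799 / 1000 ≤ ‖ξ‖) : XX ε a k ξ ∈ Icc (-57 / 100 : ℝ) (-55 / 1000) := by
  have h1 := XV_mem a.2 k (y' := yw a.2 ξ) (by linarith [yw_le a.2 hξ h])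
  have h2 := step_nonneg (ρb a.2) (ρa a.2) (ρ0 ξ)
  have h3 := step_le_one (ρb a.2) (ρa a.2) (ρ0 ξ)
  unfold XX
  obtain ⟨h4, h5⟩ := hε
  obtain ⟨h6, h7⟩ := h1
  constructor <;> nlinarith

private theorem ρ1_ge (ty : Bool) (k : Fin 4) {ξ : ℂ} (hξ : ξ ∈ Half) (h : 799 / 1000 ≤ ‖ξ‖) :
    ρV ty k ≤ ρ1 ty (ρV ty k) ξ ∧ (ρ1 ty (ρV ty k) ξ = ρV ty k → ‖ξ‖ = 1) := by
  rcases eq_or_lt_of_le hξ.1 with h1 | h1
  · exact ⟨(ρ1_one ty _ h1).ge, fun _ => h1⟩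
  · have h2 := ρ1_strictAnti (ρV_le ty k) (ξ := ξ) (ξ' := 1) (by linarith) (by simpa using h1)
    rw [ρ1_one ty _ norm_one] at h2
    exact ⟨h2.le, fun h3 => absurd h3 h2.ne'⟩

private theorem ρ1_le (ty : Bool) (k : Fin 4) {ξ : ℂ} (h : 799 / 1000 ≤ ‖ξ‖) :
    ρ1 ty (ρV ty k) ξ < 42 / 100 :=
  ρ1_lt_of_lt (ρV_le ty k) (by linarith [(ρab ty).2.1, (ρab ty).2.2]) (by linarith [ρ0_le h])

private theorem ρV_ge (ty : Bool) (k : Fin 4) : -1 / 4 ≤ ρV ty k := by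
  unfold ρV
  split_ifs <;> norm_num

private theorem HH_abs (a : Rt) (k : Fin 4) {ξ : ℂ} (hξ : ξ ∈ Half) (h : 799 / 1000 ≤ ‖ξ‖) :
    HH a k ξ ∈ Icc (-7 / 10 : ℝ) (2 / 10) := by
  have h1 := (ρ1_ge a.2 k hξ h).1
  have h2 := ρ1_le a.2 k h
  have h3 := ρV_ge a.2 k
  unfold HH
  rcases sg_cases a.2 with e | e <;> rw [e] <;> constructor <;> linarith

/-- If the bent radius is at least `ρb`, no bending has happened. -/
private theorem ρ1_eq' (ty : Bool) (k : Fin 4) {ξ : ℂ} (h : ρb ty ≤ ρ1 ty (ρV ty k) ξ) :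
    ρ1 ty (ρV ty k) ξ = ρ0 ξ := by
  rcases le_or_gt (ρb ty) (ρ0 ξ) with h1 | h1
  · exact ρ1_eq _ h1
  · exact absurd (ρ1_lt_of_lt (ρV_le ty k) le_rfl h1) (not_lt.2 h)

private theorem XX_true {ε : ℝ} (j : Fin 2) (k : Fin 4) {ξ : ℂ} (h : 0 ≤ HH (j, true) k ξ) :
    XX ε (j, true) k ξ = S1 (ε * (k : ℕ)) := by
  have h1 : 1 / 4 ≤ ρ1 true (ρV true k) ξ := by
    simp only [HH, sg, if_true] at h
    linarith
  have h2 := ρ1_eq' true k (ξ := ξ) (by simp only [ρb, if_true]; linarith)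
  have h3 : step (ρb true) (ρa true) (ρ0 ξ) = 1 :=
    step_of_ge (ρab true).2.1 (by simp only [ρa, if_true]; linarith)
  simp only [XX, h3]
  ring

private theorem HH_false (j : Fin 2) (k : Fin 4) {ξ : ℂ} (hξ : ξ ∈ Half) (h : 799 / 1000 ≤ ‖ξ‖) :
    HH (j, false) k ξ ≤ -1 / 20 := by
  have h1 := (ρ1_ge false k hξ h).1
  have h2 : -1 / 5 ≤ ρV false k := by
    simp only [ρV, Bool.false_eq_true, if_false]
    split_ifs <;> norm_num
  simp only [HH, sg, Bool.false_eq_true, if_false]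
  linarith

private theorem int_zero {m : ℤ} (h1 : (-1 : ℝ) < m) (h2 : (m : ℝ) < 1) : (m : ℝ) = 0 := by
  have h3 : (-1 : ℤ) < m := by exact_mod_cast h1
  have h4 : m < (1 : ℤ) := by exact_mod_cast h2
  have : m = 0 := by omega
  simp [this]

private theorem y_Dom (ty : Bool) (X : ℝ) {ξ : ℂ} (hξ : ξ ∈ Half) (h : 799 / 1000 ≤ ‖ξ‖) :
    (X, 3 / 10 + yw ty ξ) ∈ Dom := by
  obtain ⟨h1, h2⟩ := abs_le.1 (yw_le ty hξ h)
  have h3 : |3 / 10 + yw ty ξ| = 3 / 10 + yw ty ξ := abs_of_pos (by linarith)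
  exact mem_Dom_snd (by simp only [h3]; linarith) (by simp only [h3]; linarith)

private theorem step_eq (ty : Bool) (k k' : Fin 4) {ξ ξ' : ℂ}
    (h : ρ1 ty (ρV ty k) ξ = ρ1 ty (ρV ty k') ξ') :
    step (ρb ty) (ρa ty) (ρ0 ξ) = step (ρb ty) (ρa ty) (ρ0 ξ') := by
  rcases le_or_gt (ρb ty) (ρ1 ty (ρV ty k) ξ) with h1 | h1
  · rw [← ρ1_eq' ty k h1, ← ρ1_eq' ty k' (h ▸ h1), h]
  · have h2 : ρ0 ξ ≤ ρb ty := by
      by_contra hn
      rw [ρ1_eq _ (not_le.1 hn).le] at h1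
      exact hn h1.le
    have h3 : ρ0 ξ' ≤ ρb ty := by
      by_contra hn
      rw [h, ρ1_eq _ (not_le.1 hn).le] at h1
      exact hn h1.le
    rw [step_of_le (ρab ty).2.1 h2, step_of_le (ρab ty).2.1 h3]

private theorem XX_lt {ε : ℝ} (hε : 0 < ε) (a : Rt) {k k' : Fin 4} (hk : k < k') {ξ ξ' : ℂ}
    (hs : step (ρb a.2) (ρa a.2) (ρ0 ξ) = step (ρb a.2) (ρa a.2) (ρ0 ξ'))
    (hy : yw a.2 ξ = yw a.2 ξ') (hy' : |yw a.2 ξ| ≤ 1 / 100) : XX ε a k ξ < XX ε a k' ξ' := by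
  have h1 := XV_lt a.2 hk (y' := yw a.2 ξ) (by linarith)
  have h2 : S1 (ε * (k : ℕ)) < S1 (ε * (k' : ℕ)) :=
    S1_strictMono (mul_lt_mul_of_pos_left (by exact_mod_cast hk) hε)
  have h3 := step_nonneg (ρb a.2) (ρa a.2) (ρ0 ξ)
  have h4 := step_le_one (ρb a.2) (ρa a.2) (ρ0 ξ)
  unfold XX
  rw [← hs, ← hy]
  rcases eq_or_lt_of_le h3 with h5 | h5
  · rw [← h5]; linarith
  · nlinarith

private theorem inj_same {ε : ℝ} (hε : 0 < ε)
    (hS : ∀ k : Fin 4, S1 (ε * (k : ℕ)) ∈ Ioo (-51 / 100 : ℝ) (-49 / 100)) (a : Rt) (k k' : Fin 4)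
    {ξ ξ' : ℂ} (hξ : ξ ∈ Half) (hξ' : ξ' ∈ Half) (h : 799 / 1000 ≤ ‖ξ‖) (h' : 799 / 1000 ≤ ‖ξ'‖)
    (he : Φa a (XX ε a k ξ) (3 / 10 + yw a.2 ξ) (HH a k ξ) =
      Φa a (XX ε a k' ξ') (3 / 10 + yw a.2 ξ') (HH a k' ξ')) : k = k' ∧ ξ = ξ' := by
  obtain ⟨b1, b2⟩ := HH_abs a k hξ h
  obtain ⟨b3, b4⟩ := HH_abs a k' hξ' h'
  obtain ⟨e1, m, l, e2, e3⟩ := Φa_inj_same a (y_Dom a.2 _ hξ h) (y_Dom a.2 _ hξ' h')
    (abs_le.2 ⟨by linarith, by linarith⟩) (abs_le.2 ⟨by linarith, by linarith⟩) he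
  obtain ⟨x1, x2⟩ := XX_mem a k (hS k) hξ h
  obtain ⟨x3, x4⟩ := XX_mem a k' (hS k') hξ' h'
  obtain ⟨y1, y2⟩ := abs_le.1 (yw_le a.2 hξ h)
  obtain ⟨y3, y4⟩ := abs_le.1 (yw_le a.2 hξ' h')
  have hm : (m : ℝ) = 0 := int_zero (by linarith) (by linarith)
  have hl : (l : ℝ) = 0 := int_zero (by linarith) (by linarith)
  have hy : yw a.2 ξ = yw a.2 ξ' := by linarith
  have hρ : ρ1 a.2 (ρV a.2 k) ξ = ρ1 a.2 (ρV a.2 k') ξ' := by
    unfold HH at e1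
    rcases sg_cases a.2 with e | e <;> rw [e] at e1 <;> linarith
  have hs := step_eq a.2 k k' hρ
  have hk : k = k' := by
    rcases lt_trichotomy k k' with hk | hk | hk
    · have := XX_lt hε a hk hs hy (yw_le a.2 hξ h)
      linarith
    · exact hk
    · have := XX_lt hε a hk hs.symm hy.symm (yw_le a.2 hξ' h')
      linarith
  subst hk
  have hn : ‖ξ‖ = ‖ξ'‖ := by
    rcases lt_trichotomy ‖ξ‖ ‖ξ'‖ with hn | hn | hn
    · exact absurd hρ (ρ1_strictAnti (ρV_le a.2 k) (by linarith) hn).ne'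
    · exact hn
    · exact absurd hρ (ρ1_strictAnti (ρV_le a.2 k) (by linarith) hn).ne
  have hd := yw_sat_inj a.2 hξ.2 hξ'.2 (by linarith [ρ0_le h, (ρf_mem a.2).1])
    (by linarith [ρ0_le h', (ρf_mem a.2).1]) hy
  rw [← hn] at hd
  exact ⟨rfl, mul_left_cancel₀ (by exact_mod_cast (by linarith : (0 : ℝ) < ‖ξ‖).ne') hd⟩

private theorem ne_cross {ε : ℝ}
    (hS : ∀ k : Fin 4, S1 (ε * (k : ℕ)) ∈ Ioo (-51 / 100 : ℝ) (-49 / 100)) (j j' : Fin 2)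
    (k k' : Fin 4) {ξ ξ' : ℂ} (hξ : ξ ∈ Half) (hξ' : ξ' ∈ Half) (h : 799 / 1000 ≤ ‖ξ‖)
    (h' : 799 / 1000 ≤ ‖ξ'‖)
    (he : Φa (j, true) (XX ε (j, true) k ξ) (3 / 10 + yw true ξ) (HH (j, true) k ξ) =
      Φa (j', false) (XX ε (j', false) k' ξ') (3 / 10 + yw false ξ') (HH (j', false) k' ξ')) :
    False := by
  obtain ⟨b1, b2⟩ := HH_abs (j, true) k hξ h
  obtain ⟨b3, b4⟩ := HH_abs (j', false) k' hξ' h'
  obtain ⟨e1, m, l, e2⟩ := Φa_inj (j, true) (j', false) (y_Dom true _ hξ h) (y_Dom false _ hξ' h')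
    (abs_le.2 ⟨by linarith, by linarith⟩) (abs_le.2 ⟨by linarith, by linarith⟩) he
  obtain ⟨x1, x2⟩ := XX_mem (j, true) k (hS k) hξ h
  obtain ⟨x3, x4⟩ := XX_mem (j', false) k' (hS k') hξ' h'
  obtain ⟨y1, y2⟩ := abs_le.1 (yw_le true hξ h)
  obtain ⟨y3, y4⟩ := abs_le.1 (yw_le false hξ' h')
  have e3 := congrArg Prod.snd e2
  simp only [sw, if_true, Bool.false_eq_true, if_false, Prod.snd_add, Prod.smul_snd,
    smul_eq_mul] at e3 e1
  have hc : ςj j * ςj j' = 1 ∨ ςj j * ςj j' = -1 := by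
    rcases ςj_cases j with e | e <;> rcases ςj_cases j' with e' | e' <;> simp [e, e']
  rcases hc with hc | hc <;> rw [hc] at e1 e3
  · have h1 : ((l - 1 : ℤ) : ℝ) = 0 := int_zero (by push_cast; linarith) (by push_cast; linarith)
    push_cast at h1
    linarith
  · have hl : (l : ℝ) = 0 := int_zero (by linarith) (by linarith)
    have h1 := HH_false j' k' hξ' h'
    have h2 := XX_true (ε := ε) j k (ξ := ξ) (by linarith)
    have h3 := (hS k).2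
    linarith

theorem WV_inj : ∀ᶠ ε in 𝓝[>] (0 : ℝ), ∀ (a : Rt) (k : KV a) (a' : Rt) (k' : KV a'),
    ∀ ξ ∈ Half, ∀ ξ' ∈ Half, 799 / 1000 ≤ ‖ξ‖ → 799 / 1000 ≤ ‖ξ'‖ →
      WV ε a k (ξ, 0) = WV ε a' k' (ξ', 0) → (⟨a, k⟩ : Σ a, KV a) = ⟨a', k'⟩ ∧ ξ = ξ' := by
  filter_upwards [nhdsWithin_le_nhds S1_near, self_mem_nhdsWithin] with ε hS hε
  intro a k a' k' ξ hξ ξ' hξ' h h' he
  rw [WV_eq ε a k h, WV_eq ε a' k' h'] at he
  have he1 := congrArg Prod.fst he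
  simp only at he1
  by_cases ha : a = a'
  · subst ha
    obtain ⟨hk, hξξ⟩ := inj_same hε hS a k.1 k'.1 hξ hξ' h h' he1
    exact ⟨by rw [Subtype.ext hk], hξξ⟩
  exfalso
  obtain ⟨j, ty⟩ := a
  obtain ⟨j', ty'⟩ := a'
  by_cases hty : ty = ty'
  · subst hty
    have hj : j ≠ j' := fun e => ha (by rw [e])
    obtain ⟨b1, b2⟩ := HH_abs (j, ty) k.1 hξ h
    obtain ⟨b3, b4⟩ := HH_abs (j', ty) k'.1 hξ' h'
    obtain ⟨-, m, l, e2⟩ := Φa_inj (j, ty) (j', ty) (y_Dom ty _ hξ h) (y_Dom ty _ hξ' h')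
      (abs_le.2 ⟨by linarith, by linarith⟩) (abs_le.2 ⟨by linarith, by linarith⟩) he1
    obtain ⟨y1, y2⟩ := abs_le.1 (yw_le ty hξ h)
    obtain ⟨y3, y4⟩ := abs_le.1 (yw_le ty hξ' h')
    have hc : ςj j * ςj j' = -1 := by
      fin_cases j <;> fin_cases j' <;> simp [ςj] at hj ⊢
    simp only [hc] at e2
    cases ty
    · have e3 := congrArg Prod.snd e2
      simp only [sw, Bool.false_eq_true, if_false, Prod.snd_add, Prod.smul_snd, smul_eq_mul] at e3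
      have := int_zero (m := l) (by linarith) (by linarith)
      linarith
    · have e3 := congrArg Prod.fst e2
      simp only [sw, if_true, Prod.fst_add, Prod.smul_fst, smul_eq_mul] at e3
      have := int_zero (m := m) (by linarith) (by linarith)
      linarith
  · cases ty <;> cases ty'
    · exact hty rfl
    · exact ne_cross hS j' j k'.1 k.1 hξ' hξ h' h he1.symm
    · exact ne_cross hS j j' k.1 k'.1 hξ hξ' h h' he1
    · exact hty rfl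

private theorem onD_oth {ε : ℝ} (a : Rt) (k : KV a)
    (hS : S1 (ε * (k.1 : ℕ)) ∈ Ioo (-51 / 100 : ℝ) (-49 / 100)) {ξ : ℂ} (hξ : ξ ∈ Half)
    (h : 799 / 1000 ≤ ‖ξ‖) {z : ℂ} (hz : z ∈ Disc)
    (he : ((Φa a (XX ε a k.1 ξ) (3 / 10 + yw a.2 ξ) (HH a k.1 ξ),
      1 - cT a.2 * χh (HH a k.1 ξ)) : E4) = fD (oth a.1) z) : ‖ξ‖ = 1 := by
  obtain ⟨b1, b2⟩ := HH_abs a k.1 hξ h
  obtain ⟨x1, x2⟩ := XX_mem a k.1 hS hξ h
  obtain ⟨y1, y2⟩ := abs_le.1 (yw_le a.2 hξ h)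
  obtain ⟨r1, r2⟩ := ρ1_ge a.2 k.1 hξ h
  have hd := onD_other a ⟨by linarith, by linarith⟩ ⟨by linarith, by linarith⟩
    (abs_le.2 ⟨by linarith, by linarith⟩) hz he
  obtain ⟨j, ty⟩ := a
  obtain ⟨k, hk⟩ := k
  dsimp only at *
  refine r2 ?_
  cases ty
  · have hf := HH_false j k hξ h
    have hH : HH (j, false) k ξ = -1 / 4 - ρ1 false (ρV false k) ξ := by simp [HH, sg]
    have c1 : cT false = 1 / 3 := by simp [cT]
    have c2 : cT (!false) = 2 / 3 := by simp [cT]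
    rw [c1, c2] at hd
    by_cases hk12 : k = 1 ∨ k = 2
    · have hV : ρV false k = -1 / 5 := by simp only [ρV, Bool.false_eq_true, if_false, hk12, if_true]
      rcases hd with ⟨h1, h2⟩ | ⟨h1, h2, h3⟩ | ⟨h1, h2, h3⟩
      · exfalso
        have h3 : HH (j, false) k ξ = -1 / 2 := by rcases h1 with h1 | h1 <;> linarith
        rw [h3, χh_eq_one ⟨by norm_num, by norm_num⟩] at h2
        have h4 : ρ0 ξ ≤ ρb false := by
          by_contra hn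
          have h5 := ρ1_eq (ρV false k) (not_le.1 hn).le
          have h6 : ρb false = 28 / 100 := by simp [ρb]
          linarith [not_le.1 hn]
        have h5 : XX ε (j, false) k ξ = XV false k (yw false ξ) := by
          simp only [XX, step_of_le (ρab false).2.1 h4]
          ring
        have h6 : XV false k (yw false ξ) = -31 / 100 ∨ XV false k (yw false ξ) = -29 / 100 := by
          rcases hk12 with rfl | rfl
          · left; simp [XV]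
          · right; simp [XV]
        have h7 := xp_mem (R := 16 / 100 + 6 / 1000 * (1 - 1 / 3 * 1)) (y := 3 / 10 + yw false ξ)
          ⟨by norm_num, by norm_num⟩ ⟨by linarith, by linarith⟩
        have h8 := xm_mem (R := 16 / 100 + 6 / 1000 * (1 - 1 / 3 * 1)) (y := 3 / 10 + yw false ξ)
          ⟨by norm_num, by norm_num⟩ ⟨by linarith, by linarith⟩
        rcases h2 (by norm_num) with h9 | h9 <;> rcases h6 with h6 | h6 <;>
          linarith [h7.1, h7.2, h8.1, h8.2]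
      · exfalso
        have h4 := (abs_lt.1 h2).1
        rw [χh_eq_one ⟨by linarith, by linarith⟩] at h3
        norm_num at h3
      · have h4 := (abs_le.1 h1).1
        rw [χh_eq_one ⟨by linarith, by linarith⟩] at h3
        have h5 := (χh_eq_half_iff (h := -HH (j, false) k ξ) (by linarith)).1 (by linarith)
        linarith
    · have hV : ρV false k = 1 / 4 := by simp only [ρV, Bool.false_eq_true, if_false, hk12]
      rcases hd with ⟨h1, -⟩ | ⟨-, h2, -⟩ | ⟨h1, -⟩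
      · rcases h1 with h1 | h1 <;> linarith
      · linarith [(abs_lt.1 h2).1]
      · linarith [(abs_le.1 h1).1]
  · have hH : HH (j, true) k ξ = -1 / 4 + ρ1 true (ρV true k) ξ := by simp [HH, sg]
    have hV : ρV true k = -1 / 4 := by simp [ρV]
    have c1 : cT true = 2 / 3 := by simp [cT]
    have c2 : cT (!true) = 1 / 3 := by simp [cT]
    rw [c1, c2] at hd
    rcases hd with ⟨h1, -⟩ | ⟨h1, h2, h3⟩ | ⟨h1, h2, h3⟩
    · rcases h1 with h1 | h1 <;> linarith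
    · exfalso
      have h4 : HH (j, true) k ξ ≤ 0 := by
        rcases lt_abs.1 h1 with h1 | h1 <;> linarith
      rw [χh_eq_one ⟨by linarith, h4⟩] at h3
      norm_num at h3
    · exfalso
      rcases le_total (HH (j, true) k ξ) 0 with h4 | h4
      · rw [χh_eq_one ⟨by linarith, h4⟩] at h3
        linarith [(χh_mem (-HH (j, true) k ξ)).2]
      · rw [XX_true j k h4] at h2
        rcases h2 with h2 | h2 <;> linarith [hS.2]

theorem WV_onD : ∀ᶠ ε in 𝓝 (0 : ℝ), ∀ (a : Rt) (k : KV a), ∀ ξ ∈ Half, 4 / 5 ≤ ‖ξ‖ →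
    ∀ j, ∀ z ∈ Disc, WV ε a k (ξ, 0) = fD j z →
      (ξ ∈ Diam ∧ j = a.1) ∨ (ξ ∈ Semi ∧ j = oth a.1) := by
  filter_upwards [S1_near] with ε hS
  intro a k ξ hξ h j z hz he
  have h' : 799 / 1000 ≤ ‖ξ‖ := by linarith
  have h0 : step (4 / 10) (ρf a.2 + 2 / 100) (ρ0 ξ) = 0 :=
    step_of_le (by linarith [(ρf_mem a.2).1]) (by rw [ρ0_eq (by linarith)]; linarith)
  rw [WV_eq ε a k h', h0, zero_mul, add_zero] at he
  have hj : j = a.1 ∨ j = oth a.1 := by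
    obtain ⟨i, ty⟩ := a
    fin_cases j <;> fin_cases i <;> simp [oth]
  rcases hj with rfl | rfl
  · obtain ⟨b1, b2⟩ := HH_abs a k.1 hξ h'
    obtain ⟨y1, y2⟩ := abs_le.1 (yw_le a.2 hξ h')
    have h1 := onD_same a ⟨by linarith, by linarith⟩ (abs_le.2 ⟨by linarith, by linarith⟩) hz he
    refine Or.inl ⟨⟨hξ.1, abs_yw_sat_eq a.2 hξ.2 (by linarith [ρ0_le h', (ρf_mem a.2).1]) ?_⟩, rfl⟩
    rcases h1 with h1 | h1
    · rw [show yw a.2 ξ = -(1 / 100) by linarith, abs_neg, abs_of_pos (by norm_num)]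
    · rw [show yw a.2 ξ = 1 / 100 by linarith, abs_of_pos (by norm_num)]
  · exact Or.inr ⟨⟨onD_oth a k (hS k.1) hξ h' hz he, hξ.2⟩, rfl⟩

theorem WV_corner (ε : ℝ) (a : Rt) (k : KV a) {e : ℝ} (he : e = 1 ∨ e = -1) :
    WV ε a k ((e : ℂ), 0) =
      (Φa a (XV a.2 k.1 (e / 100)) (3 / 10 + e / 100) (-1 / 4 - sg a.2 * ρV a.2 k.1),
        1 - cT a.2) := by
  have h1 : |e| = 1 := by rcases he with rfl | rfl <;> simp
  have h2 : ‖(e : ℂ)‖ = 1 := by rw [Complex.norm_real, Real.norm_eq_abs, h1]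
  have h3 : ρ0 (e : ℂ) = -16 / 10 := by rw [ρ0_eq (by rw [h2]; norm_num), h2]; norm_num
  have h4 : yw a.2 (e : ℂ) = e / 100 := by
    rw [yw_real_large a.2 (by rw [h1]; norm_num), h1,
      ramp_of_nonpos (by linarith [(ρf_mem a.2).1])]
    rcases he with rfl | rfl <;> norm_num
  have h5 : HH a k.1 (e : ℂ) = -1 / 4 - sg a.2 * ρV a.2 k.1 := by rw [HH, ρ1_one _ _ h2]
  have h6 : χh (-1 / 4 - sg a.2 * ρV a.2 k.1) = 1 := by
    refine χh_eq_one ?_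
    unfold sg ρV
    split_ifs <;> constructor <;> norm_num
  have h7 : XX ε a k.1 (e : ℂ) = XV a.2 k.1 (e / 100) := by
    rw [XX, h3, h4, step_of_le (ρab a.2).2.1 (by linarith [(ρab a.2).1])]
    ring
  rw [WV_eq ε a k (by rw [h2]; norm_num), h7, h4, h5, h6, h3,
    step_of_le (by linarith [(ρf_mem a.2).1]) (by norm_num)]
  simp

theorem WV_dbl (ε : ℝ) {j j' : Fin 2} (hj : j ≠ j') {z z' : ℂ} (hz : z ∈ Disc) (hz' : z' ∈ Disc)
    (he : fD j z = fD j' z') :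
    ∃ (a : Rt) (k : KV a), fD j z = WV ε a k (1, 0) ∨ fD j z = WV ε a k (-1, 0) := by
  obtain ⟨a, k, e, he1, he2⟩ := dbl_points hj hz hz' he
  refine ⟨a, k, ?_⟩
  rw [← WV_corner ε a k he1] at he2
  rcases he1 with rfl | rfl
  · exact Or.inl (by simpa using he2)
  · exact Or.inr (by simpa using he2)

end Pool.Agent.Lib.MP_1d0d1b_gt
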