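import Pool.Agent.Lib.MP_1d0d1b_gt.InitA
import Pool.Agent.Lib.MP_1d0d1b_gt.WTop
import Pool.Agent.Lib.MP_1d0d1b_gt.WVar
import Pool.Agent.Lib.MP_1d0d1b_gt.Basic

open Set Function Filter Topology
open scoped ContDiff Real

noncomputable section

namespace Pool.Agent.Lib.MP_1d0d1b_gt

theorem exists_γ (a : Rt) : ∃ γ : ℂ × ℝ → ℂ, ContDiff ℝ ∞ γ ∧ (∀ ζ, ‖ζ‖ = 1 → γ (ζ, 0) ∈ oDisc) ∧
    ∀ ζ₀, ‖ζ₀‖ = 1 → ∀ᶠ q : ℂ × ℝ in 𝓝 (ζ₀, 0),
      (((Gh a (q.1, (q.2 : ℂ))).1, 1) : E4) = fD a.1 (γ q) := by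
  have hg : ContDiff ℝ ∞ (fun q : ℂ × ℝ => (((Gh a (q.1, (q.2 : ℂ))).1, 1) : E4)) :=
    (((Gh_smooth a).comp (contDiff_fst.prodMk
      (Complex.ofRealCLM.contDiff.comp contDiff_snd))).fst).prodMk contDiff_const
  obtain ⟨γ, h1, h2, h3⟩ := lift_disc (fD_smooth a.1) (fD_inj a.1) (fun z hz => fD_imm a.1 hz) hg
    (K := Metric.sphere (0 : ℂ) 1 ×ˢ ({0} : Set ℝ))
    ((isCompact_sphere _ _).prod isCompact_singleton) (by
      rintro ⟨ζ, l⟩ ⟨h, hl⟩
      obtain rfl : l = 0 := hl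
      exact Gh_patch a (by simpa using h))
  exact ⟨γ, h1, fun ζ h => h2 (ζ, 0) ⟨by simpa using h, rfl⟩,
    fun ζ h => h3 (ζ, 0) ⟨by simpa using h, rfl⟩⟩

theorem exists_α_of {j : Fin 2} {g : ℂ × ℝ → E4} (hg : ContDiff ℝ ∞ g)
    (h : ∀ x₀ : ℝ, |x₀| ≤ 1 → ∀ᶠ q : ℝ × ℝ in 𝓝 (x₀, 0), g ((q.1 : ℂ), q.2) ∈ fD j '' oDisc) :
    ∃ α : ℝ × ℝ → ℂ, ContDiff ℝ ∞ α ∧ (∀ x : ℝ, |x| ≤ 1 → α (x, 0) ∈ oDisc) ∧
      ∀ x₀ : ℝ, |x₀| ≤ 1 → ∀ᶠ q : ℝ × ℝ in 𝓝 (x₀, 0), g ((q.1 : ℂ), q.2) = fD j (α q) := by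
  have hg' : ContDiff ℝ ∞ (fun q : ℝ × ℝ => g ((q.1 : ℂ), q.2)) :=
    hg.comp ((Complex.ofRealCLM.contDiff.comp contDiff_fst).prodMk contDiff_snd)
  obtain ⟨α, h1, h2, h3⟩ := lift_disc (fD_smooth j) (fD_inj j) (fun z hz => fD_imm j hz) hg'
    (K := Icc (-1 : ℝ) 1 ×ˢ ({0} : Set ℝ)) (isCompact_Icc.prod isCompact_singleton) (by
      rintro ⟨x, l⟩ ⟨hx, hl⟩
      obtain rfl : l = 0 := hl
      exact h x (abs_le.2 hx))
  exact ⟨α, h1, fun x hx => h2 (x, 0) ⟨abs_le.1 hx, rfl⟩,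
    fun x hx => h3 (x, 0) ⟨abs_le.1 hx, rfl⟩⟩

namespace Pert

variable (P : Pert)

def F0 (a : Rt) : ℂ × ℂ → E4 := (P.exists_fat a).choose

theorem F0_real (a : Rt) (ξ : ℂ) (l : ℝ) : P.F0 a (ξ, (l : ℂ)) = P.F3 a (ξ, l) :=
  (P.exists_fat a).choose_spec.2.1 ξ l

theorem F0_zero (a : Rt) (ξ : ℂ) :
    P.F0 a (ξ, 0) = iφ (.inl a) ξ + P.χ (.inl a) ξ • P.b (.inl a) :=
  P.F0_real a ξ 0

theorem G_bdry (a : Rt) {ζ : ℂ} (h : ζ ∉ oDisc) (w : ℂ) : P.G a (ζ, w) = Gh a (ζ, w) := by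
  rw [G, P.χ_zero (.inr a) h, zero_smul, add_zero]

theorem F0_bdry (a : Rt) {ξ : ℂ} (h : ξ ∉ oHalf) : P.F0 a (ξ, 0) = Fcore a (ξ, 0) := by
  rw [F0_zero, P.χ_zero (.inl a) h, zero_smul, add_zero]; rfl

theorem F0_time (a : Rt) {ξ : ℂ} (h : ξ ∈ oHalf) : 1 < (P.F0 a (ξ, 0)).2 := by
  rw [F0_zero]; exact P.time (.inl a) ξ h

theorem G_time (a : Rt) {ζ : ℂ} (h : ζ ∈ oDisc) : 1 < (P.G a (ζ, 0)).2 := P.time (.inr a) ζ h

def base : Base where
  f := fD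
  f_smooth := fD_smooth
  f_imm := fun j _ hz => fD_imm j hz
  f_inj := fD_inj
  O := OO
  O_closed := OO_closed
  R := Rt
  finR := inferInstance
  lo := Prod.fst
  d := fun _ => dL
  F0 := P.F0
  G := P.G
  γ := fun a => (exists_γ a).choose
  G_smooth := P.G_smooth
  G_bij := fun a ζ h => bij_of_inj_CC (P.immG a ζ h)
  γ_smooth := fun a => (exists_γ a).choose_spec.1
  γ_mem := fun a => (exists_γ a).choose_spec.2.1
  G_bot := fun a ζ₀ h => by
    filter_upwards [(exists_γ a).choose_spec.2.2 ζ₀ h] with q hq h1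
    rw [P.G_bdry a (fun h2 => absurd h1 (ne_of_lt h2)), ← hq]
    exact Prod.ext rfl (Gh_time_eq a h1 _)
  G_D := fun a ζ h j z hz he => by
    have h0 : ζ ∉ oDisc := fun h1 => by
      have := P.G_time a h1
      rw [he] at this
      exact absurd (fD_time_mem j hz).2 (not_le.2 this)
    have h1 := norm_of_not_oDisc h h0
    rw [P.G_bdry a h0] at he
    exact ⟨h1, ghost_onD a h1 hz he⟩
  G_O := fun a ζ h hO => by
    have h0 : ζ ∉ oDisc := fun h1 =>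
      absurd (OO_time hO).2 (not_le.2 (P.G_time a h1))
    rw [P.G_bdry a h0] at hO
    exact ghost_O a (norm_of_not_oDisc h h0) hO
  G_pos := fun a ζ h => by
    by_cases h0 : ζ ∈ oDisc
    · exact lt_trans one_pos (P.G_time a h0)
    · rw [P.G_bdry a h0, Gh_time_eq a (norm_of_not_oDisc h h0)]; exact one_pos
  compat := fun a => by
    have hc : Continuous (fun q : ℝ × ℂ => (((q.1 : ℂ), q.2) : ℂ × ℂ)) := by fun_prop
    have h1 := (hc.tendsto (dL, 0)).eventually (P.exists_fat a).choose_spec.2.2.2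
    have h0 : (0 : ℂ) ≠ -Complex.I := fun h => Complex.I_ne_zero (neg_eq_zero.1 h.symm)
    have h2 : Tendsto (fun q : ℝ × ℂ => Cay q.2) (𝓝 (dL, 0)) (𝓝 1) := by
      have := (Cay_contDiffAt h0).continuousAt.tendsto
      rw [Cay_zero] at this
      exact this.comp (continuous_snd.tendsto (dL, (0 : ℂ)))
    have h3 := h2.eventually (P.χ_eventually (.inr a) (x := 1) (by
      intro h; have : ‖(1 : ℂ)‖ < 1 := h; simp at this))
    filter_upwards [h1, h3, Ftil_compat a] with q hq1 hq3 hq2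
    change P.F0 a _ = _ at hq1
    rw [hq1, hq2, G, hq3, zero_smul, add_zero]

theorem exists_α (a : Rt) : ∃ α : ℝ × ℝ → ℂ, ContDiff ℝ ∞ α ∧
    (∀ x : ℝ, |x| ≤ 1 → α (x, 0) ∈ oDisc) ∧ ∀ x₀ : ℝ, |x₀| ≤ 1 → ∀ᶠ q : ℝ × ℝ in 𝓝 (x₀, 0),
      Fcore a ((q.1 : ℂ), q.2) = fD a.1 (α q) :=
  exists_α_of (Fcore_smooth a) (fun _ h => Fcore_bot a h)

def config : Config P.base where
  I := Rt
  F := P.F0
  lo := Prod.fst
  α := fun a => (exists_α a).choose
  d := fun _ => dL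
  par := Sum.inl
  rt := id
  p := fun _ => 0
  M := fun _ => 0
  ord := fun _ => 1
  anc := id

theorem sh_eq (s : Rt ⊕ Rt) : P.config.sh s = fun y => iφ s y + P.χ s y • P.b s := by
  rcases s with a | a
  · funext y; exact P.F0_zero a y
  · rfl

theorem sdom_eq (s : Rt ⊕ Rt) : P.config.sdom s = iA s := by
  rcases s with a | a <;> rfl

theorem sodom_eq (s : Rt ⊕ Rt) : P.config.sodom s = iA₀ s := by
  rcases s with a | a <;> rfl

theorem Tr_eq (X : Rt) : P.config.Tr X = ∅ := by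
  ext x; constructor
  · rintro ⟨c, hc, -⟩; cases hc
  · exact False.elim

theorem valid : P.config.Valid where
  finI := (inferInstance : Finite Rt)
  par_rt := fun _ => rfl
  rt_par := fun i a h => Sum.inl.inj h
  lo_rt := fun _ => rfl
  d_rt := fun _ => rfl
  ord_rt := fun _ => rfl
  ord_child := fun i X h => by cases h
  anc_rt := fun _ => rfl
  anc_child := fun i X h => by cases h
  d_mem := fun _ => dL_abs
  smooth := fun a => (P.exists_fat a).choose_spec.1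
  bij := fun a => (P.exists_fat a).choose_spec.2.2.1
  α_smooth := fun a => (exists_α a).choose_spec.1
  α_mem := fun a => (exists_α a).choose_spec.2.1
  bot := fun a x₀ h => by
    have hc : Continuous (fun q : ℝ × ℝ => (q.1 : ℂ)) := by fun_prop
    have h1 := (hc.tendsto (x₀, 0)).eventually (P.χ_eventually (.inl a) (real_not_oHalf x₀))
    filter_upwards [h1, (exists_α a).choose_spec.2.2 x₀ h] with q hq1 hq2
    change P.F0 a _ = fD _ _
    rw [F0_real, F3, hq1, zero_smul, add_zero]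
    exact hq2
  top := fun i X h => by cases h
  β_mem := fun i X h => by cases h
  M_one := fun i X h => by cases h
  M_I := fun i X h => by cases h
  root_eq := fun a => ⟨∅, isCompact_empty, empty_subset _, fun _ _ _ => rfl⟩
  pos := fun a ξ h => by
    change 0 < (P.F0 a (ξ, 0)).2
    by_cases h0 : ξ ∈ oHalf
    · exact lt_trans one_pos (P.F0_time a h0)
    · rw [P.F0_bdry a h0, Fcore_time_eq a (bdry_of_not_oHalf h h0)]; exact one_pos
  notO := fun a ξ h hO => by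
    change P.F0 a (ξ, 0) ∈ OO at hO
    have h0 : ξ ∉ oHalf := fun h1 => absurd (OO_time hO).2 (not_le.2 (P.F0_time a h1))
    rw [P.F0_bdry a h0] at hO
    exact ⟨⟨a, rfl⟩, core_O a (bdry_of_not_oHalf h h0) hO⟩
  onD := fun a ξ h j z hz he => by
    change P.F0 a (ξ, 0) = fD j z at he
    have h0 : ξ ∉ oHalf := fun h1 => by
      have := P.F0_time a h1
      rw [he] at this
      exact absurd (fD_time_mem j hz).2 (not_le.2 this)
    rw [P.F0_bdry a h0] at he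
    exact Or.inl (core_onD a (bdry_of_not_oHalf h h0) hz he)
  gen := fun s x s' x' hx hx' hne he => by
    rw [P.sdom_eq] at hx hx'
    rw [P.sh_eq, P.sh_eq] at he
    have hs : s ≠ s' := by
      rintro rfl
      exact hne (by rw [P.inj s hx hx' he])
    rcases P.gen s s' hs x hx x' hx' he with ⟨a, h1, h2, h3, h4⟩ | ⟨a, h1, h2, h3, h4⟩ |
      ⟨h1, h2, h3, h4⟩
    · exact Or.inl (Or.inr ⟨a, h1, h2, h3, h4⟩)
    · exact Or.inr (Or.inl (Or.inr ⟨a, h1, h2, h3, h4⟩))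
    · refine Or.inr (Or.inr ⟨hs, ?_, ?_, ?_, ?_, ?_⟩)
      · rw [P.sodom_eq]; exact h1
      · rw [P.sodom_eq]; exact h2
      · rw [P.sh_eq, P.sh_eq]; exact he
      · rw [P.sh_eq, P.sh_eq]; exact h3
      · intro s'' x'' h5 h6
        rw [P.sdom_eq] at h5
        rw [P.sh_eq, P.sh_eq] at h6
        exact h4 s'' x'' h5 h6
  fin := P.fin.subset (by
    rintro ⟨⟨s, x⟩, s', x'⟩ ⟨h1, h2, h3, h4, -⟩
    rw [P.sodom_eq] at h2 h3
    rw [P.sh_eq, P.sh_eq] at h4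
    exact ⟨h1, iA₀_subset _ h2, iA₀_subset _ h3, h4⟩)
  acc := fun i x s' x' h => by
    rw [P.Tr_eq]
    exact Acc.empty h.2.1 dL_abs
  accE := fun c X h => by cases h

instance (a : Rt) : Finite (KV a) := by unfold KV; infer_instance

theorem vgood : ∀ᶠ ε in 𝓝[>] (0 : ℝ),
    VGood P.base KV (fun a _ => oth a.1) (4 / 5) (1 / 1000) (WV ε) := by
  obtain ⟨δ, hδ, hb⟩ := WV_bot
  have h0 : ∀ᶠ ε in 𝓝 (0 : ℝ), |ε| < δ / 4 := by
    have : Metric.ball (0 : ℝ) (δ / 4) ∈ 𝓝 (0 : ℝ) := Metric.ball_mem_nhds _ (by positivity)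
    filter_upwards [this] with ε h
    simpa using h
  filter_upwards [mem_nhdsWithin_of_mem_nhds WV_inO, WV_inj, mem_nhdsWithin_of_mem_nhds WV_onD,
    mem_nhdsWithin_of_mem_nhds h0] with ε h1 h2 h3 h4
  have hO : ∀ (a : Rt) (k : KV a), ∀ ξ ∈ Half, 4 / 5 ≤ ‖ξ‖ → WV ε a k (ξ, 0) ∈ OO :=
    fun a k ξ h hr => mem_iUnion.2 ⟨a, h1 a k ξ h hr⟩
  refine ⟨fun a k ξ h hr => WV_imm ε a k h hr, hO, fun a k ξ h hr => ?_,
    fun a k a' k' ξ h ξ' h' hr hr' he => h2 a k a' k' ξ h ξ' h' (by linarith) (by linarith) he,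
    h3, fun a k => ?_, fun a k => WV_top ε a k, fun j j' hj z hz z' hz' he => WV_dbl ε hj hz hz' he⟩
  · exact lt_of_lt_of_le (by norm_num) (OO_time (hO a k ξ h hr)).1
  · refine exists_α_of (WV_smooth ε a k) fun x₀ hx => ?_
    have e1 : ∀ᶠ q : ℝ × ℝ in 𝓝 (x₀, 0), |q.1| < 1 + δ :=
      (continuous_fst.abs.tendsto (x₀, (0 : ℝ))).eventually_lt_const (by simpa using by linarith)
    have e2 : ∀ᶠ q : ℝ × ℝ in 𝓝 (x₀, 0), |q.2| < δ / 4 :=
      (continuous_snd.abs.tendsto (x₀, (0 : ℝ))).eventually_lt_const (by simpa using hδ)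
    filter_upwards [e1, e2] with q hq1 hq2
    refine hb a k.1 q.1 _ _ hq1 ?_ (by linarith)
    have hk : ((k.1 : ℕ) : ℝ) ≤ 3 := by exact_mod_cast Nat.le_of_lt_succ k.1.2
    have hk0 : (0 : ℝ) ≤ ((k.1 : ℕ) : ℝ) := Nat.cast_nonneg _
    have h5 : |ε * ((k.1 : ℕ) : ℝ)| ≤ δ / 4 * 3 := by
      rw [abs_mul, abs_of_nonneg hk0]
      exact mul_le_mul (le_of_lt h4) hk hk0 (by positivity)
    calc |ε * ((k.1 : ℕ) : ℝ) + q.2| ≤ |ε * ((k.1 : ℕ) : ℝ)| + |q.2| := abs_add_le _ _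
      _ < δ := by linarith

def variants : Variants P.base where
  K := KV
  finK := fun _ => inferInstance
  c := fun _ k => ((k.1 : ℕ) : ℝ)
  c_inj := fun _ k k' h => Subtype.ext (Fin.ext (Nat.cast_injective (R := ℝ) h))
  r₀ := 4 / 5
  θ := 1 / 1000
  r₀_pos := by norm_num
  θ_pos := by norm_num
  r₀_lt := by norm_num
  up := fun a _ => oth a.1
  W := WV
  smooth := WV_smooth
  agree := fun a => ⟨tsupport (P.χ (.inl a)), P.cpt _, P.supp _, fun ε k ξ l h hr => by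
    change _ = P.F0 a _
    rw [F0_real, F3, image_eq_zero_of_notMem_tsupport h, zero_smul, add_zero]
    exact WV_agree ε a k (by linarith) l⟩
  good := P.vgood

end Pert

theorem exists_init : ∃ (B : Base) (C : Config B), C.Valid ∧ DFacts B LL ∧
    Nonempty (Variants B) := by
  obtain ⟨P⟩ := exists_pert
  exact ⟨P.base, P.config, P.valid,
    ⟨fD_bdry, fun j _ h => fD_neat j h, fun j _ h => fD_pos j h⟩, ⟨P.variants⟩⟩

end Pool.Agent.Lib.MP_1d0d1b_gt
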