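import Pool.Agent.Lib.MP_1d0d1b_gt.WImmB

open Set Function Filter Topology
open scoped ContDiff Real

noncomputable section

namespace Pool.Agent.Lib.MP_1d0d1b_gt

theorem wimm_ρ0_gt {η : ℂ} (h : ‖η‖ < 4 / 5) : 4 / 10 < ρ0 η := by
  rcases le_total (21 / 100) ‖η‖ with h1 | h1
  · rw [ρ0_eq h1]; linarith
  · have := nr_le h1
    simp only [ρ0, ρn, nn]; linarith

theorem wimm_X_diff (a : Rt) {η : ℂ} (h0 : 0 ≤ η.im) (hω : ωw a.2 η ≠ 0) :
    DifferentiableAt ℝ (fun q : ℂ × ℝ => Xw a (fun _ => -1 / 2) 0 q.1 q.2 0) (η, 0) := by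
  have h1 := (Xw_contDiffAt a (Xk := fun _ => -1 / 2) contDiffOn_const 0 (Half_ne h0) hω 0
    0).differentiableAt (by simp)
  exact h1.comp (η, (0 : ℝ)) (f := fun q : ℂ × ℝ => (q.1, q.2, (0 : ℝ))) (by fun_prop)

theorem wimm_H_diff (a : Rt) {η : ℂ} (h0 : 0 ≤ η.im) (hω : ωw a.2 η ≠ 0) :
    DifferentiableAt ℝ (fun q : ℂ × ℝ => hw a 0 q.1 q.2) (η, 0) :=
  (hw_contDiffAt a 0 (Half_ne h0) hω 0).differentiableAt (by simp)

theorem wimm_ldir {f : ℂ × ℝ → ℝ} {η : ℂ} (hf : DifferentiableAt ℝ f (η, 0)) {c : ℝ}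
    (h : HasDerivAt (fun l => f (η, l)) c 0) (δ : ℝ) : fderiv ℝ f (η, 0) (0, δ) = δ * c := by
  have h1 : HasDerivAt (fun l : ℝ => f ((η, 0) + l • ((0 : ℂ), (1 : ℝ)))) _ 0 :=
    hf.hasFDerivAt.hasLineDerivAt (0, 1)
  simp only [Prod.smul_mk, smul_zero, smul_eq_mul, mul_one, Prod.mk_add_mk, add_zero,
    zero_add] at h1
  rw [← h1.unique h, ← smul_eq_mul, ← map_smul]
  simp

theorem wimm_delta (a : Rt) {η : ℂ} (h0 : 0 ≤ η.im) (hr : ‖η‖ ≤ 4 / 5) (hω : ωw a.2 η ≠ 0) {δ : ℝ}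
    (hX : fderiv ℝ (fun q : ℂ × ℝ => Xw a (fun _ => -1 / 2) 0 q.1 q.2 0) (η, 0) (0, δ) = 0)
    (hH : fderiv ℝ (fun q : ℂ × ℝ => hw a 0 q.1 q.2) (η, 0) (0, δ) = 0) : δ = 0 := by
  obtain ⟨c, hc, c', hc', h1, h2⟩ := l_dir a h0 hr
  rw [wimm_ldir (wimm_X_diff a h0 hω) h1] at hX
  rw [wimm_ldir (wimm_H_diff a h0 hω) h2] at hH
  by_contra hδ
  have h3 := (mul_eq_zero.1 ((mul_eq_zero.1 hX).resolve_left hδ)).resolve_left hc.ne'
  have h4 := (mul_eq_zero.1 ((mul_eq_zero.1 hH).resolve_left hδ)).resolve_left hc'.ne'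
  have := Real.cos_sq_add_sin_sq (φw a 0 η)
  rw [h3, h4] at this
  norm_num at this

theorem wimm_Tw (a : Rt) {η : ℂ} (h : ‖η‖ < 4 / 5) :
    Tw a 0 η = 1 + step (4 / 10) (ρf a.2 + 2 / 100) (ρ0 η) * uw a.2 η := by
  have h1 := wimm_ρ0_gt h
  have h2 := ρab a.2
  have h3 : χh (-1 / 4 - sg a.2 * ρ1 a.2 0 η) = 0 := by
    rw [ρ1_eq 0 (by linarith), χh_eq_zero_iff]
    rcases sg_cases a.2 with e | e <;> rw [e]
    · left; linarith
    · right; linarith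
  rw [Tw, h3, mul_zero, sub_zero]

theorem wimm_T (a : Rt) {x : ℝ} (hx : |x| < 4 / 5) {w : ℂ}
    (hT : fderiv ℝ (Tw a 0) (x : ℂ) w = 0) : w.im = 0 := by
  have hn : ‖(x : ℂ)‖ < 4 / 5 := by rwa [Complex.norm_real, Real.norm_eq_abs]
  have hne : (x : ℂ) ≠ -Complex.I / 10 := Half_ne (by simp)
  let G : ℂ → ℝ := fun ξ => step (4 / 10) (ρf a.2 + 2 / 100) (ρ0 ξ) *
    (4 * γn a.2 (nn ξ) / ‖ξt a.2 ξ + Complex.I‖ ^ 2)
  have hpos : 0 < ‖ξt a.2 x + Complex.I‖ ^ 2 := pow_pos (norm_pos_iff.2 (ξt_add_I_ne a.2 hne)) 2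
  have hG : DifferentiableAt ℝ G x := by
    have h1 : ContDiffAt ℝ ∞ (fun ξ => γn a.2 (nn ξ)) (x : ℂ) :=
      ContDiffAt.comp (g := γn a.2) (f := nn) (x : ℂ) (γn_contDiffAt a.2 (nr_ge _))
        nn_smooth.contDiffAt
    have h2 : ContDiffAt ℝ ∞ (fun ξ => ‖ξt a.2 ξ + Complex.I‖ ^ 2) (x : ℂ) :=
      ((ξt_smooth a.2).contDiffAt.add contDiffAt_const).norm_sq ℝ
    exact ((((step_contDiff _ _).comp ρ0_smooth).contDiffAt).mul
      ((contDiffAt_const.mul h1).div h2 hpos.ne')).differentiableAt (by simp)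
  have hG0 : 0 < G x := by
    have := ρf_mem a.2
    exact mul_pos (step_pos (by linarith [this.1]) (wimm_ρ0_gt hn))
      (div_pos (mul_pos (by norm_num) (γn_pos a.2 (nr_ge _))) hpos)
  have he : Tw a 0 =ᶠ[𝓝 (x : ℂ)] fun ξ => 1 + G ξ * ξ.im := by
    filter_upwards [(isOpen_lt continuous_norm continuous_const).mem_nhds hn,
      isOpen_ne.mem_nhds hne] with ξ h1 h2
    rw [wimm_Tw a h1, uw_eq a.2 h2]
    simp only [G, ξt, Complex.im_ofReal_mul]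
    ring
  have h1 := (hG.hasFDerivAt.mul Complex.imCLM.hasFDerivAt).const_add 1
  rw [he.fderiv_eq] at hT
  have h2 := h1.fderiv ▸ (show fderiv ℝ (fun ξ => 1 + (G * ⇑Complex.imCLM) ξ) (x : ℂ) w = 0 from hT)
  simpa [hG0.ne'] using h2

theorem wimm_ω_real (ty : Bool) (x : ℝ) : ωw ty x = circ (-(2 * π * yw ty x)) := by
  have hu : uw ty x = 0 := (uw_eq_zero_iff ty (by simp)).2 (by simp)
  have h1 : ‖ωw ty x‖ = 1 := by
    have : ‖ωw ty x‖ ^ 2 = 1 := by rw [uw] at hu; linarith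
    exact (pow_eq_one_iff_of_nonneg (norm_nonneg _) two_ne_zero).1 this
  have h2 : yw ty x = y0 ty x := by rw [yw, hu, cu_small (by norm_num)]; ring
  rw [h2, ωw_polar, h1]
  simp

theorem wimm_line (x t τ : ℝ) : (x : ℂ) + τ • (t : ℂ) = ((x + τ * t : ℝ) : ℂ) := by simp

theorem wimm_real_inner (ty : Bool) {x t : ℝ} (hρ : ρf ty < ρ0 x)
    (hs : ωw ty x ∈ Complex.slitPlane) (hy : fderiv ℝ (yw ty) (x : ℂ) t = 0) : t = 0 := by
  have hne : (x : ℂ) ≠ -Complex.I / 10 := Half_ne (by simp)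
  have h1 : HasDerivAt (fun τ : ℝ => yw ty (x + τ • (t : ℂ))) _ 0 :=
    ((yw_contDiffAt ty hne hs).differentiableAt (by simp)).hasFDerivAt.hasLineDerivAt (t : ℂ)
  have h2 : HasDerivAt (fun τ : ℝ => ωw ty (x + τ • (t : ℂ))) _ 0 :=
    ((ωw_contDiffAt ty hne).differentiableAt (by simp)).hasFDerivAt.hasLineDerivAt (t : ℂ)
  rw [hy] at h1
  have h3 := (circ_hasDerivAt _).scomp (0 : ℝ) (h1.const_mul (2 * π)).neg
  have h4 : (fun τ : ℝ => ωw ty (x + τ • (t : ℂ))) =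
      circ ∘ (-fun τ : ℝ => 2 * π * yw ty (x + τ • (t : ℂ))) := by
    funext τ
    simp only [wimm_line, wimm_ω_real, comp_apply, Pi.neg_apply]
  rw [h4] at h2
  have h5 := h2.unique h3
  rw [mul_zero, neg_zero, zero_smul] at h5
  exact_mod_cast (injective_iff_map_eq_zero _).1 (ωw_fderiv_inj ty hne hρ) _ h5

theorem wimm_chi (ty : Bool) {σ : ℝ} (hσ : σ = 1 ∨ σ = -1) {x : ℝ} (h : 4 / 10 ≤ σ * x) :
    χw ty x = (1 + σ) / 2 ∧ ρ0 x = 84 / 10 - 10 * (σ * x) := by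
  have h1 : |x| = σ * x := by
    rcases hσ with rfl | rfl
    · rw [abs_of_nonneg (by linarith), one_mul]
    · rw [abs_of_nonpos (by linarith), neg_one_mul]
  refine ⟨?_, by rw [ρ0_eq (by rw [Complex.norm_real, Real.norm_eq_abs]; linarith),
    Complex.norm_real, Real.norm_eq_abs, h1]⟩
  have h2 := ramp_nonneg (84 / 10 - 10 * |x| - ρf ty)
  rw [χw, yw_real_large ty (h1 ▸ h)]
  rcases hσ with rfl | rfl
  · rw [if_pos (by linarith), step_of_ge (by norm_num) (by linarith)]; norm_num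
  · rw [if_neg (by linarith), step_of_le (by norm_num) (by linarith)]; norm_num

theorem wimm_φw (a : Rt) (x : ℝ) : φw a 0 x = ϑw a 0 x * χw a.2 x := by
  have hu : uw a.2 x = 0 := (uw_eq_zero_iff a.2 (by simp)).2 (by simp)
  rw [φw, hu, step_of_le (by norm_num) (by norm_num)]
  ring

theorem wimm_ϑ (a : Rt) {η : ℂ} (h : 6 / 10 ≤ ρ0 η) : ϑw a 0 η = -2 * π * ςj a.1 := by
  have h2 := ρab a.2
  rw [ϑw, ρ1_eq 0 (by linarith), step_of_ge (by norm_num) h, mul_one]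

theorem wimm_hw_untw (a : Rt) {x : ℝ} (h : 6 / 10 ≤ ρ0 x) :
    hw a 0 x 0 = -1 / 2 + Hs (1 / 4 - sg a.2 * ρ0 x) := by
  have hu : uw a.2 x = 0 := (uw_eq_zero_iff a.2 (by simp)).2 (by simp)
  have h2 := ρab a.2
  have h3 : circ (ϑw a 0 x) = 1 := by
    rw [wimm_ϑ a h, ← circ_zero]
    rcases ςj_cases a.1 with e | e <;> rw [e]
    · exact (circ_eq_iff _ _).2 ⟨1, by push_cast; ring⟩
    · exact (circ_eq_iff _ _).2 ⟨-1, by push_cast; ring⟩
  have h4 : (Zw a 0 x 0).im = -(sg a.2 * ρ0 x) := by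
    simp [Zw, h3, Cay_zero, ρ1_eq 0 (show ρb a.2 ≤ ρ0 x by linarith)]
  rw [hw, h4, hu, ρ1_eq 0 (show ρb a.2 ≤ ρ0 x by linarith),
    step_of_le (a := 2 / 10) (by norm_num) (by norm_num)]
  rcases le_total (64 / 100) (ρ0 x) with h5 | h5
  · rw [νκ, step_of_ge (by norm_num) h5]; ring
  · rw [Hs_of_abs_le]
    · ring
    · rcases sg_cases a.2 with e | e <;> rw [e, abs_le] <;> constructor <;> linarith

theorem wimm_Z (s ρ ρ' δ : ℝ) (hs : s = 1 ∨ s = -1) {θ ν : ℝ → ℝ} (hθ : DifferentiableAt ℝ θ 0)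
    (hν : DifferentiableAt ℝ ν 0) : ∃ Z' : ℂ, HasDerivAt (fun τ : ℝ => circ (θ τ) *
      (-Complex.I * ((s * (ρ + τ * ρ') : ℝ) : ℂ) + ((((1 - ν τ) * (τ * δ) : ℝ) : ℂ) +
        (ν τ : ℂ) * (-Complex.I * ((s * (ρ + τ * ρ') : ℝ) : ℂ)) *
          (Cay ((s * (τ * δ) : ℝ) : ℂ) - 1)))) Z' 0 ∧ (Z' = 0 → ρ' = 0) := by
  have h1 : HasDerivAt (fun τ : ℝ => circ (θ τ)) _ 0 := (circ_hasDerivAt _).scomp 0 hθ.hasDerivAt
  have hl : ∀ c : ℝ, HasDerivAt (fun τ : ℝ => τ * c) c 0 := fun c => by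
    simpa using (hasDerivAt_id (0 : ℝ)).mul_const c
  have h2 : HasDerivAt (fun τ : ℝ => -Complex.I * ((s * (ρ + τ * ρ') : ℝ) : ℂ)) _ 0 :=
    (((hl ρ').const_add ρ).const_mul s).ofReal_comp.const_mul _
  have h3 : HasDerivAt (fun τ : ℝ => (((1 - ν τ) * (τ * δ) : ℝ) : ℂ)) _ 0 :=
    ((hν.hasDerivAt.const_sub 1).mul (hl δ)).ofReal_comp
  have h4 : HasDerivAt (fun τ : ℝ => Cay ((s * (τ * δ) : ℝ) : ℂ) - 1)
      (2 * Complex.I * ((s * δ : ℝ) : ℂ)) 0 := by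
    refine HasDerivAt.sub_const _ (HasDerivAt.comp_of_eq (h := fun τ : ℝ => ((s * (τ * δ) : ℝ) : ℂ))
      0 Cay_hasDerivAt_zero ((hl δ).const_mul s).ofReal_comp (by simp))
  refine ⟨_, h1.mul (h2.add (h3.add ((hν.hasDerivAt.ofReal_comp.mul h2).mul h4))), fun h => ?_⟩
  have hc : circ (θ 0) ≠ 0 := norm_ne_zero_iff.1 (by rw [norm_circ]; exact one_ne_zero)
  have h5 : circ (θ 0) * ((deriv θ 0 * (s * ρ) + (1 - ν 0) * δ + ν 0 * (s * ρ) * 2 * (s * δ) : ℝ) +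
      ((-(s * ρ') : ℝ) : ℂ) * Complex.I) = 0 := by
    rw [← h]
    simp only [Pi.mul_apply, zero_mul, mul_zero, add_zero, Complex.ofReal_zero,
      Cay_zero, sub_self, Complex.real_smul, zero_add]
    push_cast
    linear_combination (circ (θ 0) * ((deriv θ 0 : ℝ) * (s * ρ) + ν 0 * (s * ρ) * 2 * (s * δ))) *
      Complex.I_mul_I
  have h6 := congrArg Complex.im ((mul_eq_zero.1 h5).resolve_left hc)
  simp only [Complex.add_im, Complex.ofReal_im, Complex.mul_I_im, Complex.ofReal_re, zero_add,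
    Complex.zero_im] at h6
  rcases hs with rfl | rfl <;> linarith

theorem wimm_real_sat (a : Rt) {x t δ : ℝ} (hx : |x| < 4 / 5) (hρ : ρ0 x ≤ ρf a.2)
    (hω : ωw a.2 x ≠ 0)
    (hX : fderiv ℝ (fun q : ℂ × ℝ => Xw a (fun _ => -1 / 2) 0 q.1 q.2 0) (x, 0) (t, δ) = 0)
    (hH : fderiv ℝ (fun q : ℂ × ℝ => hw a 0 q.1 q.2) (x, 0) (t, δ) = 0) : t = 0 := by
  have h0 : 0 ≤ (x : ℂ).im := by simp
  have hf := ρf_mem a.2
  have hab := ρab a.2
  have hn := norm_of_ρ0 (ξ := x) (by linarith [hf.2])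
  rw [Complex.norm_real, Real.norm_eq_abs] at hn
  obtain ⟨σ, hσ, hσx⟩ : ∃ σ : ℝ, (σ = 1 ∨ σ = -1) ∧ |x| = σ * x := by
    rcases le_total 0 x with h | h
    · exact ⟨1, Or.inl rfl, by rw [abs_of_nonneg h, one_mul]⟩
    · exact ⟨-1, Or.inr rfl, by rw [abs_of_nonpos h, neg_one_mul]⟩
  rw [hσx] at hn hx
  have hev : ∀ lo hi : ℝ, lo < σ * x → σ * x < hi →
      ∀ᶠ τ : ℝ in 𝓝 0, σ * (x + τ * t) ∈ Ioo lo hi := fun lo hi h1 h2 =>
    (by fun_prop : Continuous fun τ : ℝ => σ * (x + τ * t)).continuousAt.eventually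
      (Ioo_mem_nhds (by simpa using h1) (by simpa using h2))
  have hline : ∀ (d τ : ℝ), ((x : ℂ), (0 : ℝ)) + τ • ((t : ℂ), d) =
      (((x + τ * t : ℝ) : ℂ), τ * d) := fun d τ => by simp
  suffices h : σ * t = 0 by rcases hσ with rfl | rfl <;> linarith
  rcases lt_or_ge (6 / 10) (ρ0 x) with h6 | h6
  · obtain ⟨-, -, c', -, -, h2⟩ := l_dir a h0
      (by rw [Complex.norm_real, Real.norm_eq_abs, hσx]; exact hx.le)
    have h3 : Real.sin (φw a 0 x) = 0 := by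
      rw [wimm_φw, wimm_ϑ a h6.le, (wimm_chi a.2 hσ (by linarith [hf.2])).1, Real.sin_eq_zero_iff]
      rcases hσ with rfl | rfl
      · rcases ςj_cases a.1 with e | e <;> rw [e]
        · exact ⟨-2, by push_cast; ring⟩
        · exact ⟨2, by push_cast; ring⟩
      · exact ⟨0, by push_cast; ring⟩
    have h4 := wimm_ldir (wimm_H_diff a h0 hω) h2 δ
    rw [h3, mul_zero, mul_zero] at h4
    have h5 : fderiv ℝ (fun q : ℂ × ℝ => hw a 0 q.1 q.2) (x, 0) (t, 0) = 0 := by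
      rw [show ((t : ℂ), (0 : ℝ)) = ((t : ℂ), δ) - (0, δ) by simp, map_sub, hH, h4, sub_zero]
    have h7 : HasDerivAt (fun τ : ℝ => (fun q : ℂ × ℝ => hw a 0 q.1 q.2)
        (((x : ℂ), (0 : ℝ)) + τ • ((t : ℂ), (0 : ℝ)))) _ 0 :=
      (wimm_H_diff a h0 hω).hasFDerivAt.hasLineDerivAt _
    rw [h5] at h7
    have h8 : HasDerivAt (fun τ : ℝ => 1 / 4 - sg a.2 * (84 / 10 - 10 * (σ * (x + τ * t))))
        (sg a.2 * (10 * (σ * t))) 0 := by
      have := ((((((hasDerivAt_id (0 : ℝ)).mul_const t).const_add x).const_mul σ).const_mul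
        10).const_sub (84 / 10)).const_mul (sg a.2) |>.const_sub (1 / 4)
      simpa using this
    have h9 := ((Hs_hasDerivAt _).comp 0 h8).const_add (-1 / 2)
    have h10 := h7.unique (h9.congr_of_eventuallyEq (by
      filter_upwards [hev (4 / 10) (78 / 100) (by linarith [hf.2]) (by linarith)] with τ hτ
      have := (wimm_chi a.2 hσ hτ.1.le).2
      simp only [hline, mul_zero, comp_apply]
      rw [wimm_hw_untw a (by linarith [hτ.2]), this]))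
    have h11 : 0 < deriv Hs (1 / 4 - sg a.2 * (84 / 10 - 10 * (σ * (x + 0 * t)))) := by
      refine Hs_deriv_pos ?_
      rw [zero_mul, add_zero, ← hn, abs_lt]
      rw [ρf] at hρ
      rcases sg_cases a.2 with e | e <;> rw [e] at hρ ⊢ <;> constructor <;> linarith
    have h12 := (mul_eq_zero.1 h10.symm).resolve_left h11.ne'
    rcases sg_cases a.2 with e | e <;> rw [e] at h12 <;> linarith
  · have hr : DifferentiableAt ℝ (fun τ : ℝ => ρ0 x + τ * (-10 * (σ * t))) 0 := by fun_prop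
    obtain ⟨Z', hZ, hZ'⟩ := wimm_Z (sg a.2) (ρ0 x) (-10 * (σ * t)) δ (sg_cases a.2)
      (θ := fun τ => -2 * π * ςj a.1 * step (5 / 10) (6 / 10) (ρ0 x + τ * (-10 * (σ * t))) *
        ((1 + σ) / 2)) (ν := fun τ => νR (ρ0 x + τ * (-10 * (σ * t))))
      (((((step_contDiff _ _).differentiable (by simp) _).comp 0 hr).const_mul _).mul_const _)
      ((((step_contDiff _ _).differentiable (by simp) _).comp 0 hr).mul
        ((((step_contDiff _ _).differentiable (by simp) _).comp 0 hr).const_sub 1))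
    have hE : ∀ᶠ τ : ℝ in 𝓝 0, ρ0 ((x + τ * t : ℝ) : ℂ) ∈ Ioo (4 / 10 : ℝ) (625 / 1000) ∧
        ρ0 ((x + τ * t : ℝ) : ℂ) = ρ0 x + τ * (-10 * (σ * t)) ∧
        χw a.2 ((x + τ * t : ℝ) : ℂ) = (1 + σ) / 2 := by
      filter_upwards [hev (7775 / 10000) (4 / 5) (by linarith) hx] with τ hτ
      obtain ⟨e1, e2⟩ := wimm_chi a.2 hσ (x := x + τ * t) (by linarith [hτ.1])
      exact ⟨⟨by linarith [hτ.2], by linarith [hτ.1]⟩, by rw [e2, hn]; ring, e1⟩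
    have hZ2 : HasDerivAt (fun τ : ℝ => Zw a 0 ((x + τ * t : ℝ) : ℂ) (τ * δ)) Z' 0 := by
      refine hZ.congr_of_eventuallyEq ?_
      filter_upwards [hE] with τ ⟨e1, e2, e3⟩
      rw [Zw, ϑw, ρ1_eq 0 (by linarith [e1.1]), e2, e3]
      rcases hσ with rfl | rfl
      · norm_num; ring
      · norm_num [circ_zero]
    have h7 : HasDerivAt (fun τ : ℝ => (fun q : ℂ × ℝ => hw a 0 q.1 q.2)
        (((x : ℂ), (0 : ℝ)) + τ • ((t : ℂ), δ))) _ 0 :=
      (wimm_H_diff a h0 hω).hasFDerivAt.hasLineDerivAt _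
    have h8 : HasDerivAt (fun τ : ℝ => (fun q : ℂ × ℝ => Xw a (fun _ => -1 / 2) 0 q.1 q.2 0)
        (((x : ℂ), (0 : ℝ)) + τ • ((t : ℂ), δ))) _ 0 :=
      (wimm_X_diff a h0 hω).hasFDerivAt.hasLineDerivAt _
    rw [hH] at h7
    rw [hX] at h8
    have h9 := h7.unique (((Complex.imCLM.hasFDerivAt.comp_hasDerivAt 0 hZ2).const_add
      (-1 / 4)).congr_of_eventuallyEq (by
        filter_upwards [hE] with τ ⟨e1, _, _⟩
        simp only [hline, comp_apply, Complex.imCLM_apply]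
        rw [hw, ρ1_eq 0 (by linarith [e1.1]), νκ, step_of_le (by norm_num) e1.2.le]
        ring))
    have h10 := h8.unique (((S1_contDiff.differentiable (by simp) _).hasDerivAt.comp 0
      (Complex.reCLM.hasFDerivAt.comp_hasDerivAt 0 hZ2)).congr_of_eventuallyEq (by
        filter_upwards [hE] with τ ⟨e1, _, _⟩
        simp only [hline, comp_apply, Complex.reCLM_apply]
        rw [Xw, ρ1_eq 0 (by linarith [e1.1]), νκ, step_of_le (by norm_num) e1.2.le,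
          step_of_ge hab.2.1 (by linarith [e1.1])]
        ring))
    have h11 := (mul_eq_zero.1 h10.symm).resolve_left (S1_deriv_pos _).ne'
    linarith [hZ' (Complex.ext h11 h9.symm)]

theorem Fcore_imm_real (a : Rt) {x : ℝ} (h0 : x ≠ 0) (h : |x| < 1) :
    Injective (fderiv ℝ (Fcore a) ((x : ℂ), 0)) := by
  have hH : (x : ℂ) ∈ Half := Diam_subset (ofReal_mem_Diam h.le)
  have e : (4 / 5 : ℂ) * x = ((4 / 5 * x : ℝ) : ℂ) := by push_cast; ring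
  have hu : uw a.2 ((4 / 5 : ℂ) * x) < 11 / 20 := by
    rw [e, (uw_eq_zero_iff a.2 (by simp)).2 (by simp)]; norm_num
  by_cases hs : ωw a.2 ((4 / 5 : ℂ) * x) ∈ Complex.slitPlane
  swap
  · exact Fcore_imm_cut a hH hu hs
  refine (injective_iff_map_eq_zero _).2 fun ⟨v, δ⟩ hk => ?_
  obtain ⟨hy, hT, hX, hh⟩ := Fcore_kernel a hH hu hs hk
  rw [e] at hy hT hX hh hs
  have hx : |4 / 5 * x| < 4 / 5 := by rw [abs_mul, abs_of_pos (by norm_num)]; linarith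
  have hω := Complex.slitPlane_ne_zero hs
  obtain ⟨t, ht⟩ : ∃ t : ℝ, (4 / 5 : ℂ) * v = t :=
    ⟨((4 / 5 : ℂ) * v).re, Complex.ext rfl (wimm_T a hx hT)⟩
  rw [ht] at hy hX hh
  have h1 : t = 0 := by
    rcases lt_or_ge (ρf a.2) (ρ0 ((4 / 5 * x : ℝ) : ℂ)) with h2 | h2
    · exact wimm_real_inner a.2 h2 hs hy
    · exact wimm_real_sat a hx h2 hω hX hh
  subst h1
  have h2 := wimm_delta a (η := ((4 / 5 * x : ℝ) : ℂ)) (by simp)
    (by rw [Complex.norm_real, Real.norm_eq_abs]; exact hx.le) hω hX hh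
  exact Prod.ext (by simpa using ht) h2

theorem wimm_hw_semi (a : Rt) {η : ℂ} (h : ρ0 η ∈ Ioo (39 / 100 : ℝ) (41 / 100)) (l : ℝ) :
    hw a 0 η l = -1 / 4 - sg a.2 * ρ1 a.2 (-1) η := by
  have hab := ρab a.2
  have h1 : ∀ ρe, ρ1 a.2 ρe η = ρ0 η := fun ρe => ρ1_eq ρe (by linarith [h.1])
  have h2 : ϑw a 0 η = 0 := by rw [ϑw, h1, step_of_le (by norm_num) (by linarith [h.2]), mul_zero]
  have h3 : νR (ρ0 η) = 0 := by rw [νR, step_of_le (by norm_num) h.2.le, zero_mul]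
  have h4 : (Zw a 0 η l).im = -(sg a.2 * ρ0 η) := by simp [Zw, h1, h2, h3, circ_zero]
  rw [hw, h4, h1, h1, νκ, step_of_le (by norm_num) (by linarith [h.2])]
  ring

theorem Fcore_imm_semi (a : Rt) {ξ : ℂ} (h : ξ ∈ Semi) :
    Injective (fderiv ℝ (Fcore a) (ξ, 0)) := by
  have hH : ξ ∈ Half := Semi_subset h
  have hf := ρf_mem a.2
  have hab := ρab a.2
  have hn : ‖(4 / 5 : ℂ) * ξ‖ = 4 / 5 := by rw [norm_mul, h.1]; norm_num
  have h0 : 0 ≤ ((4 / 5 : ℂ) * ξ).im := by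
    rw [show (4 / 5 : ℂ) = ((4 / 5 : ℝ) : ℂ) by push_cast; ring, Complex.im_ofReal_mul]
    exact mul_nonneg (by norm_num) h.2
  have hρ : ρ0 ((4 / 5 : ℂ) * ξ) = 4 / 10 := by rw [ρ0_eq (by linarith), hn]; norm_num
  have hu : uw a.2 ((4 / 5 : ℂ) * ξ) < 11 / 20 := by
    linarith [(abs_lt.1 (uw_small a.2 (ξ := (4 / 5 : ℂ) * ξ) (by linarith [hf.1]))).2]
  by_cases hs : ωw a.2 ((4 / 5 : ℂ) * ξ) ∈ Complex.slitPlane
  swap
  · exact Fcore_imm_cut a hH hu hs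
  refine (injective_iff_map_eq_zero _).2 fun ⟨v, δ⟩ hk => ?_
  obtain ⟨hy, -, hX, hh⟩ := Fcore_kernel a hH hu hs hk
  have hω := Complex.slitPlane_ne_zero hs
  suffices hw0 : (4 / 5 : ℂ) * v = 0 by
    rw [hw0] at hX hh
    exact Prod.ext (by simpa using hw0) (wimm_delta a h0 hn.le hω hX hh)
  generalize (4 / 5 : ℂ) * v = w at hy hh
  generalize (4 / 5 : ℂ) * ξ = η at *
  have hη : η ≠ 0 := norm_ne_zero_iff.1 (by rw [hn]; norm_num)
  have hd := ((ρ1_smooth a.2 (-1)).differentiable (by simp) η).hasFDerivAt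
  have he : (fun q : ℂ × ℝ => hw a 0 q.1 q.2) =ᶠ[𝓝 (η, 0)]
      fun q => -1 / 4 - sg a.2 * (ρ1 a.2 (-1) ∘ Prod.fst) q := by
    have : ∀ᶠ q : ℂ × ℝ in 𝓝 (η, 0), ρ0 q.1 ∈ Ioo (39 / 100 : ℝ) (41 / 100) :=
      (ρ0_smooth.continuous.comp continuous_fst).continuousAt.eventually
        (Ioo_mem_nhds (by simp only [comp_apply, hρ]; norm_num)
          (by simp only [comp_apply, hρ]; norm_num))
    filter_upwards [this] with q hq using wimm_hw_semi a hq q.2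
  rw [he.fderiv_eq, (((hd.comp (η, (0 : ℝ)) hasFDerivAt_fst).const_mul (sg a.2)).const_sub
    (-1 / 4)).fderiv] at hh
  have h1 : fderiv ℝ (ρ1 a.2 (-1)) η w = 0 := by
    rcases sg_cases a.2 with e | e <;> simpa [e] using hh
  have hw' : w = (w / η).re • η + (w / η).im • (Complex.I * η) := by
    rw [Complex.real_smul, Complex.real_smul, ← mul_assoc, ← add_mul, Complex.re_add_im,
      div_mul_cancel₀ _ hη]
  rw [hw', map_add, map_smul, map_smul] at h1 hy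
  rw [fderiv_ρ1_angular, smul_zero, add_zero, smul_eq_mul] at h1
  have h2 := (mul_eq_zero.1 h1).resolve_right
    (fderiv_ρ1_radial (by linarith) (by rw [hn]; norm_num)).ne
  rw [h2, zero_smul, zero_add, smul_eq_mul] at hy
  have h3 := (mul_eq_zero.1 hy).resolve_right (fderiv_yw_angular a.2 h0 (by linarith [hf.1])).ne
  rw [hw', h2, h3, zero_smul, zero_smul, add_zero]

theorem Fcore_imm (a : Rt) {ξ : ℂ} (h : ξ ∈ Half) : Injective (fderiv ℝ (Fcore a) (ξ, 0)) := by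
  rcases lt_or_ge (1 / 2) (uw a.2 ((4 / 5 : ℂ) * ξ)) with hu | hu
  · exact Fcore_imm_deep a h hu
  have hu' : uw a.2 ((4 / 5 : ℂ) * ξ) < 11 / 20 := by linarith
  by_cases hs : ωw a.2 ((4 / 5 : ℂ) * ξ) ∈ Complex.slitPlane
  swap
  · exact Fcore_imm_cut a h hu' hs
  rcases Half_cases h with h1 | h1 | h1
  · exact Fcore_imm_mid a h1 hu' hs
  · obtain ⟨e, h2⟩ := Diam_eq h1
    rcases h2.eq_or_lt with h2 | h2
    · refine Fcore_imm_semi a ⟨?_, h.2⟩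
      rw [e, Complex.norm_real, Real.norm_eq_abs, h2]
    · rw [e]
      refine Fcore_imm_real a (fun h3 => ?_) h2
      rw [e, h3] at hs
      simp [ωw, ξt, Complex.mem_slitPlane_iff] at hs
      linarith
  · exact Fcore_imm_semi a h1

end Pool.Agent.Lib.MP_1d0d1b_gt
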