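import Pool.Agent.Lib.MP_1d0d1b_gt.WSmooth
import Pool.Agent.Lib.MP_1d0d1b_gt.Ghost
import Pool.Agent.Lib.MP_1d0d1b_gt.Lift

open Set Function Filter Topology
open scoped ContDiff Real

noncomputable section

namespace Pool.Agent.Lib.MP_1d0d1b_gt

/-- The wall coordinate near the landing point. -/
def wlandZ (ty : Bool) (ξ : ℂ) (l : ℝ) : ℂ :=
  -Complex.I * ((sg ty * ρ0 ξ : ℝ) : ℂ) * Cay ((sg ty * l : ℝ) : ℂ)

theorem wland_formula (a : Rt) {ξ : ℂ} (h1 : 43 / 100 ≤ ρ0 ξ) (h2 : ρ0 ξ ≤ 1 / 2) (hb : bW ξ = 1)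
    (l : ℝ) : Wf a (fun _ => -1 / 2) 0 ξ l 0 =
      (Φa a (S1 (wlandZ a.2 ξ l).re) (3 / 10 + yw a.2 ξ) (-1 / 4 + (wlandZ a.2 ξ l).im),
        1 + step (4 / 10) (ρf a.2 + 2 / 100) (ρ0 ξ) * uw a.2 ξ) := by
  obtain ⟨hb0, hba, ha⟩ := ρab a.2
  have hf := ρf_mem a.2
  have hρ : ρ1 a.2 0 ξ = ρ0 ξ := ρ1_eq 0 (by linarith)
  have hθ : ϑw a 0 ξ = 0 := by
    rw [ϑw, hρ, step_of_le (by norm_num) (by linarith), mul_zero]
  have hR : νR (ρ0 ξ) = 1 := by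
    rw [νR, step_of_ge (by norm_num) h1, step_of_le (by norm_num) (by linarith)]; norm_num
  have hK : νκ (ρ0 ξ) = 1 := by
    rw [νκ, step_of_le (by norm_num) (by linarith)]; norm_num
  have hs : step (ρb a.2) (ρa a.2) (ρ0 ξ) = 1 := step_of_ge hba (by linarith)
  have hu : uw a.2 ξ < 1 / 5 := (abs_lt.1 (uw_small a.2 (by linarith [hf.1]))).2
  have hu' : step (55 / 100) (65 / 100) (uw a.2 ξ) = 0 := step_of_le (by norm_num) (by linarith)
  have hZ : Zw a 0 ξ l = wlandZ a.2 ξ l := by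
    rw [Zw, hρ, hθ, hR, zero_mul, circ_zero, wlandZ]
    push_cast
    ring
  have hχ : χh (-1 / 4 - sg a.2 * ρ0 ξ) = 0 := by
    rw [χh_eq_zero_iff]
    rcases sg_cases a.2 with h | h <;> rw [h]
    · left; linarith
    · right; linarith
  have hX : Xw a (fun _ => -1 / 2) 0 ξ l 0 = S1 (wlandZ a.2 ξ l).re := by
    rw [Xw, hρ, hs, hK, hZ]; ring
  have hh : hw a 0 ξ l = -1 / 4 + (wlandZ a.2 ξ l).im := by
    rw [hw, hρ, hK, hZ]; ring
  have hT : Tw a 0 ξ = 1 + step (4 / 10) (ρf a.2 + 2 / 100) (ρ0 ξ) * uw a.2 ξ := by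
    rw [Tw, hρ, hχ]; ring
  rw [Wf, hb, hu', hX, hh, hT]
  simp

theorem wland_norm : ‖(4 / 5 : ℂ) * (dL : ℂ)‖ = 159 / 200 := by
  have : (4 / 5 : ℂ) * (dL : ℂ) = ((159 / 200 : ℝ) : ℂ) := by
    rw [dL]; push_cast; norm_num
  rw [this, Complex.norm_real]; norm_num

theorem wland_ρ0 : ρ0 ((4 / 5 : ℂ) * (dL : ℂ)) = 45 / 100 := by
  rw [ρ0_eq (by rw [wland_norm]; norm_num), wland_norm]; norm_num

theorem wland_im : 0 ≤ ((4 / 5 : ℂ) * (dL : ℂ)).im := by simp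

theorem wland_eventually (a : Rt) : ∀ᶠ ξ : ℂ in 𝓝 (dL : ℂ), ∀ l : ℝ, Fcore a (ξ, l) =
    (Φa a (S1 (wlandZ a.2 ((4 / 5 : ℂ) * ξ) l).re) (3 / 10 + yw a.2 ((4 / 5 : ℂ) * ξ))
      (-1 / 4 + (wlandZ a.2 ((4 / 5 : ℂ) * ξ) l).im),
      1 + step (4 / 10) (ρf a.2 + 2 / 100) (ρ0 ((4 / 5 : ℂ) * ξ)) * uw a.2 ((4 / 5 : ℂ) * ξ)) := by
  have hc : Continuous fun ξ : ℂ => (4 / 5 : ℂ) * ξ := by fun_prop
  have h1 : ∀ᶠ ξ in 𝓝 ((4 / 5 : ℂ) * (dL : ℂ)), ρ0 ξ ∈ Ioo (43 / 100 : ℝ) (1 / 2) :=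
    ρ0_smooth.continuous.continuousAt.eventually_mem
      (Ioo_mem_nhds (by rw [wland_ρ0]; norm_num) (by rw [wland_ρ0]; norm_num))
  filter_upwards [hc.continuousAt.eventually (h1.and (bW_eventually wland_im))] with ξ hξ l
  exact wland_formula a hξ.1.1.le hξ.1.2.le hξ.2 l

theorem wland_cs (ty : Bool) (l : ℝ) : cs ty (Cay (l : ℂ)) = Cay ((sg ty * l : ℝ) : ℂ) := by
  cases ty
  · simp [cs, sg]
  · simp only [cs, sg, if_true, neg_mul, one_mul]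
    rw [Cay_neg_real]

/-- Near the landing point the framing direction is the rotation along the ghost circles. -/
theorem Fcore_land (a : Rt) : ∀ᶠ q : ℝ × ℝ in 𝓝 (dL, 0),
    Fcore a ((q.1 : ℂ), q.2) = Gh a (Cay (q.2 : ℂ), ((q.1 - dL : ℝ) : ℂ)) := by
  have hc : Continuous fun q : ℝ × ℝ => (q.1 : ℂ) := by fun_prop
  have h1 := (hc.continuousAt (x := (dL, 0))).eventually (wland_eventually a)
  have h2 : ∀ᶠ q : ℝ × ℝ in 𝓝 (dL, 0), q.1 ∈ Ioo (99 / 100 : ℝ) 1 :=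
    continuous_fst.continuousAt.eventually_mem
      (Ioo_mem_nhds (by norm_num [dL]) (by norm_num [dL]))
  filter_upwards [h1, h2] with q hq hx
  obtain ⟨x, l⟩ := q
  simp only at hq hx ⊢
  have hf := ρf_mem a.2
  have he : (4 / 5 : ℂ) * (x : ℂ) = ((4 / 5 * x : ℝ) : ℂ) := by push_cast; ring
  have hpos : 0 < 4 / 5 * x := by linarith [hx.1]
  have hn : ‖((4 / 5 * x : ℝ) : ℂ)‖ = 4 / 5 * x := by
    rw [Complex.norm_real, Real.norm_eq_abs, abs_of_pos hpos]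
  have hρ : ρ0 ((4 / 5 * x : ℝ) : ℂ) = 45 / 100 - 8 * (x - dL) := by
    rw [ρ0_eq (by rw [hn]; linarith [hx.1]), hn, dL]; ring
  have hy : yw a.2 ((4 / 5 * x : ℝ) : ℂ) = 1 / 100 := by
    rw [yw_real_large a.2 (by rw [abs_of_pos hpos]; linarith [hx.1]), if_pos hpos,
      abs_of_pos hpos, ramp_of_nonpos (by linarith [hx.1, hf.1])]
    norm_num
  have hu : uw a.2 ((4 / 5 * x : ℝ) : ℂ) = 0 :=
    (uw_eq_zero_iff a.2 (by rw [Complex.ofReal_im])).2 (Complex.ofReal_im _)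
  have hZ : wlandZ a.2 ((4 / 5 * x : ℝ) : ℂ) l = Zg a.2 (Cay (l : ℂ), ((x - dL : ℝ) : ℂ)) := by
    rw [wlandZ, Zg, hρ, wland_cs, Complex.ofReal_re]
  rw [hq l, he, hZ, hy, hu, Gh, norm_Cay_real, Complex.ofReal_im]
  norm_num

theorem Ftil_contDiffOn (a : Rt) : ContDiffOn ℝ ∞ (Ftil a) {q | q.2 ≠ -Complex.I} := by
  intro q hq
  refine ContDiffAt.contDiffWithinAt ?_
  have hre : ContDiff ℝ ∞ fun q : ℂ × ℂ => q.2.re := Complex.reCLM.contDiff.comp contDiff_snd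
  have hd : ContDiff ℝ ∞ fun q : ℂ × ℂ => ((q.1.re - dL : ℝ) : ℂ) :=
    Complex.ofRealCLM.contDiff.comp
      ((Complex.reCLM.contDiff.comp contDiff_fst).sub contDiff_const)
  have h1 : ContDiff ℝ ∞ fun q : ℂ × ℂ => Fcore a (q.1, q.2.re) :=
    (Fcore_smooth a).comp (contDiff_fst.prodMk hre)
  have h2 : ContDiffAt ℝ ∞ (fun q : ℂ × ℂ => Gh a (Cay q.2, ((q.1.re - dL : ℝ) : ℂ))) q :=
    (Gh_smooth a).contDiffAt.comp q
      (((Cay_contDiffAt hq).comp q contDiffAt_snd).prodMk hd.contDiffAt)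
  have h3 : ContDiff ℝ ∞ fun q : ℂ × ℂ => Gh a (Cay (q.2.re : ℂ), ((q.1.re - dL : ℝ) : ℂ)) :=
    (Gh_smooth a).comp ((Cay_real_contDiff.comp hre).prodMk hd)
  exact (h1.contDiffAt.add h2).sub h3.contDiffAt

theorem Ftil_real (a : Rt) (ξ : ℂ) (l : ℝ) : Ftil a (ξ, (l : ℂ)) = Fcore a (ξ, l) := by
  simp only [Ftil, Complex.ofReal_re, add_sub_cancel_right]

theorem Ftil_compat (a : Rt) : ∀ᶠ q : ℝ × ℂ in 𝓝 (dL, 0),
    Ftil a ((q.1 : ℂ), q.2) = Gh a (Cay q.2, ((q.1 - dL : ℝ) : ℂ)) := by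
  have hc : Continuous fun q : ℝ × ℂ => (q.1, q.2.re) := by fun_prop
  have h1 := (hc.tendsto' (dL, 0) (dL, 0) (by simp)).eventually (Fcore_land a)
  filter_upwards [h1] with q hq
  simp only [Ftil, Complex.ofReal_re]
  rw [hq, add_sub_cancel_left]

theorem wland_contDiffAt (a : Rt) : ContDiffAt ℝ ∞ (Ftil a) ((dL : ℂ), 0) := by
  have hU : IsOpen {q : ℂ × ℂ | q.2 ≠ -Complex.I} := isOpen_ne_fun continuous_snd continuous_const
  refine (Ftil_contDiffOn a).contDiffAt (hU.mem_nhds ?_)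
  simp

theorem wland_ycomp {P : ℝ × ℝ × ℝ → V3} {q₀ : ℝ × ℝ × ℝ} (hP : DifferentiableAt ℝ P q₀)
    {lam : V3 →L[ℝ] ℝ} (hl : ∀ u, lam (fderiv ℝ P q₀ u) = u.2.1) {A : ℂ × ℂ → ℝ × ℝ × ℝ}
    {x₀ : ℂ × ℂ} (hA : DifferentiableAt ℝ A x₀) (h0 : A x₀ = q₀) (v : ℂ × ℂ) :
    DifferentiableAt ℝ (fun x => P (A x)) x₀ ∧
      lam (fderiv ℝ (fun x => P (A x)) x₀ v) = fderiv ℝ (fun x => (A x).2.1) x₀ v := by
  subst h0
  refine ⟨hP.comp x₀ hA, ?_⟩
  have h1 := (hP.hasFDerivAt.comp x₀ hA.hasFDerivAt).fderiv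
  have h2 := hA.hasFDerivAt.snd.fst.fderiv
  rw [show (fun x => P (A x)) = P ∘ A from rfl, h1, h2]
  simp [hl]

theorem wland_Zg_diff (ty : Bool) : Differentiable ℝ (Zg ty) := by
  have hcs : Differentiable ℝ (cs ty) := by
    cases ty
    · exact differentiable_id
    · exact Complex.conjCLE.differentiable
  have h1 : Differentiable ℝ fun q : ℂ × ℂ => ((sg ty * (45 / 100 - 8 * q.2.re) : ℝ) : ℂ) :=
    Complex.ofRealCLM.differentiable.comp (((differentiable_const _).sub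
      ((Complex.reCLM.differentiable.comp differentiable_snd).const_mul 8)).const_mul _)
  exact (h1.const_mul _).mul (hcs.comp differentiable_fst)

theorem wland_im_zero (a : Rt) {v : ℂ × ℂ} (hv : fderiv ℝ (Ftil a) ((dL : ℂ), 0) v = 0) :
    v.1.im = 0 := by
  have hf := ρf_mem a.2
  set ξ₀ : ℂ := (4 / 5 : ℂ) * (dL : ℂ) with hξ₀
  let P : ℝ × ℝ × ℝ → V3 := fun q => Φa a q.1 q.2.1 q.2.2
  let Z₀ : ℂ := Zg a.2 (1, 0)
  let q₀ : ℝ × ℝ × ℝ := (S1 Z₀.re, 31 / 100, -1 / 4 + Z₀.im)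
  have hP : DifferentiableAt ℝ P q₀ := (Φa_smooth a).differentiable (by simp) q₀
  have hZ₀ : Z₀.im = -(sg a.2 * (45 / 100)) := by
    cases h : a.2 <;> simp [Z₀, Zg, cs, h]
  have hinj : Injective (fderiv ℝ P q₀) := by
    refine Φa_imm a (mem_Dom_snd (by norm_num) (by norm_num)) ?_
    rw [hZ₀, abs_le]
    rcases sg_cases a.2 with h | h <;> rw [h] <;> norm_num
  obtain ⟨g, hg⟩ := (fderiv ℝ P q₀).toLinearMap.exists_leftInverse_of_injective
    (LinearMap.ker_eq_bot.2 hinj)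
  let lam : V3 →L[ℝ] ℝ := LinearMap.toContinuousLinearMap
    (((LinearMap.fst ℝ ℝ ℝ).comp (LinearMap.snd ℝ ℝ (ℝ × ℝ))).comp g)
  have hl : ∀ u, lam (fderiv ℝ P q₀ u) = u.2.1 := fun u => by
    have := LinearMap.congr_fun hg u
    change (g (fderiv ℝ P q₀ u)).2.1 = u.2.1
    exact congrArg (fun z : ℝ × ℝ × ℝ => z.2.1) this
  have hS : Differentiable ℝ S1 := S1_contDiff.differentiable (by simp)
  have hre : Differentiable ℝ fun q : ℂ × ℂ => q.2.re :=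
    Complex.reCLM.differentiable.comp differentiable_snd
  have hd : Differentiable ℝ fun q : ℂ × ℂ => ((q.1.re - dL : ℝ) : ℂ) :=
    Complex.ofRealCLM.differentiable.comp
      ((Complex.reCLM.differentiable.comp differentiable_fst).sub_const _)
  have hC : Differentiable ℝ fun x : ℝ => Cay (x : ℂ) := Cay_real_contDiff.differentiable (by simp)
  have hm : Differentiable ℝ fun q : ℂ × ℂ => (4 / 5 : ℂ) * q.1 := differentiable_fst.const_mul _
  have hyw : DifferentiableAt ℝ (yw a.2) ξ₀ := by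
    refine (yw_contDiffAt a.2 (Half_ne wland_im) (Or.inl (ωw_re_pos a.2 ?_))).differentiableAt
      (by simp)
    rw [norm_ξt]
    have := ϱw_big a.2 (r := ‖ξ₀‖) (by
      have h := wland_ρ0
      rw [ρ0, nn] at h
      rw [h]; linarith [hf.1])
    linarith
  have mk3 : ∀ {Z : ℂ × ℂ → ℂ} {y : ℂ × ℂ → ℝ}, DifferentiableAt ℝ Z ((dL : ℂ), 0) →
      DifferentiableAt ℝ y ((dL : ℂ), 0) → DifferentiableAt ℝ
        (fun q => ((S1 (Z q).re, y q, -1 / 4 + (Z q).im) : ℝ × ℝ × ℝ)) ((dL : ℂ), 0) := by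
    intro Z y hZ hy
    exact ((hS _).comp _ (Complex.reCLM.differentiableAt.comp _ hZ)).prodMk
      (hy.prodMk ((Complex.imCLM.differentiableAt.comp _ hZ).const_add _))
  have hZA : Differentiable ℝ fun q : ℂ × ℂ => wlandZ a.2 ((4 / 5 : ℂ) * q.1) q.2.re := by
    have h1 : Differentiable ℝ fun q : ℂ × ℂ => ((sg a.2 * ρ0 ((4 / 5 : ℂ) * q.1) : ℝ) : ℂ) :=
      Complex.ofRealCLM.differentiable.comp
        (((ρ0_smooth.differentiable (by simp)).comp hm).const_mul _)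
    exact (h1.const_mul _).mul (hC.comp (hre.const_mul _))
  have hyA : DifferentiableAt ℝ (fun q : ℂ × ℂ => 3 / 10 + yw a.2 ((4 / 5 : ℂ) * q.1))
      ((dL : ℂ), 0) := (hyw.comp ((dL : ℂ), (0 : ℂ)) (hm _)).const_add _
  have hy0 : yw a.2 ξ₀ = 1 / 100 := by
    have he : ξ₀ = ((159 / 200 : ℝ) : ℂ) := by rw [hξ₀, dL]; push_cast; norm_num
    rw [he, yw_real_large a.2 (by norm_num), if_pos (by norm_num),
      ramp_of_nonpos (by rw [abs_of_pos (by norm_num)]; linarith [hf.1])]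
    norm_num
  obtain ⟨dA, eA⟩ := wland_ycomp hP hl (mk3 (hZA _) hyA) (by
    have : wlandZ a.2 ξ₀ 0 = Z₀ := by
      simp only [wlandZ, Z₀, Zg, hξ₀, wland_ρ0]
      cases h : a.2 <;> simp [cs, Cay_zero]
    simp only [Complex.zero_re, ← hξ₀, this, hy0, q₀]
    norm_num) v
  have hCz : DifferentiableAt ℝ (fun q : ℂ × ℂ => Cay q.2) ((dL : ℂ), 0) :=
    DifferentiableAt.comp (g := Cay) (f := Prod.snd) ((dL : ℂ), (0 : ℂ))
      ((Cay_contDiffAt (w := 0) (by simp)).differentiableAt (by simp)) differentiableAt_snd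
  obtain ⟨dB, eB⟩ := wland_ycomp hP hl (mk3 (y := fun _ => 31 / 100)
    ((wland_Zg_diff a.2 _).comp _ (hCz.prodMk (hd _))) (differentiableAt_const _)) (by
      simp [q₀, Z₀, Cay_zero]) v
  obtain ⟨dC, eC⟩ := wland_ycomp hP hl (mk3 (y := fun _ => 31 / 100)
    ((wland_Zg_diff a.2 _).comp _ (((hC.comp hre) _).prodMk (hd _))) (differentiableAt_const _))
      (by simp [q₀, Z₀, Cay_zero]) v
  have hF := ((wland_contDiffAt a).differentiableAt (by simp)).hasFDerivAt.fst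
  have hG := (dA.hasFDerivAt.add dB.hasFDerivAt).sub dC.hasFDerivAt
  have hev := (continuous_fst.continuousAt (x := (((dL : ℂ), (0 : ℂ)) : ℂ × ℂ))).eventually
    (wland_eventually a)
  have heq := hF.unique (hG.congr_of_eventuallyEq (by
    filter_upwards [hev] with q hq
    simp only [Ftil, hq, Gh, Prod.fst_sub, Prod.fst_add, Pi.sub_apply, Pi.add_apply, P,
      Complex.ofReal_im, add_zero, Function.comp_apply]))
  have h1 := congrArg lam (DFunLike.congr_fun heq v)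
  simp only [ContinuousLinearMap.comp_apply, hv, map_zero, sub_apply,
    add_apply, map_sub, map_add, eA, eB, eC, fderiv_fun_const,
    Pi.zero_apply, zero_apply, add_zero, sub_zero] at h1
  have h2 : HasFDerivAt (fun q : ℂ × ℂ => 3 / 10 + yw a.2 ((4 / 5 : ℂ) * q.1))
      ((fderiv ℝ (yw a.2) ξ₀).comp ((4 / 5 : ℂ) • ContinuousLinearMap.fst ℝ ℂ ℂ)) ((dL : ℂ), 0) := by
    have h0 : HasFDerivAt (fun q : ℂ × ℂ => (4 / 5 : ℂ) * q.1)
        ((4 / 5 : ℂ) • ContinuousLinearMap.fst ℝ ℂ ℂ) ((dL : ℂ), (0 : ℂ)) :=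
      hasFDerivAt_fst.const_mul (4 / 5 : ℂ)
    exact (HasFDerivAt.comp (g := yw a.2) (f := fun q : ℂ × ℂ => (4 / 5 : ℂ) * q.1)
      ((dL : ℂ), (0 : ℂ)) hyw.hasFDerivAt h0).const_add _
  rw [h2.fderiv] at h1
  have hr := fderiv_yw_radial a.2 (ξ := ξ₀) (by rw [wland_ρ0]; linarith [hf.1])
  have ha := fderiv_yw_angular a.2 (ξ := ξ₀) wland_im (by rw [wland_ρ0]; linarith [hf.1])
  have hdec : (4 / 5 : ℂ) * v.1 = (v.1.re / dL) • ξ₀ + (v.1.im / dL) • (Complex.I * ξ₀) := by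
    have hdL : (dL : ℂ) ≠ 0 := by rw [dL]; norm_num
    rw [hξ₀, Complex.real_smul, Complex.real_smul]
    conv_lhs => rw [← Complex.re_add_im v.1]
    push_cast
    field_simp
  have h3 : fderiv ℝ (yw a.2) ξ₀ ((4 / 5 : ℂ) * v.1) = 0 := h1.symm
  rw [hdec, map_add, map_smul, map_smul, hr, smul_zero, zero_add, smul_eq_mul] at h3
  have h4 := (mul_eq_zero.1 h3).resolve_right ha.ne
  rw [dL] at h4
  linarith [(div_eq_zero_iff.1 h4).resolve_right (by norm_num)]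

theorem Ftil_bij (a : Rt) : Bijective (fderiv ℝ (Ftil a) ((dL : ℂ), 0)) := by
  refine bij_of_inj_CC ((injective_iff_map_eq_zero _).2 fun v hv => ?_)
  have him := wland_im_zero a hv
  let ι : ℝ × ℂ →L[ℝ] ℂ × ℂ :=
    (Complex.ofRealCLM.comp (ContinuousLinearMap.fst ℝ ℝ ℂ)).prod (ContinuousLinearMap.snd ℝ ℝ ℂ)
  have h1 : HasFDerivAt (fun q : ℝ × ℂ => Ftil a ((q.1 : ℂ), q.2))
      ((fderiv ℝ (Ftil a) ((dL : ℂ), 0)).comp ι) (dL, 0) :=
    HasFDerivAt.comp (f := ι) ((dL, 0) : ℝ × ℂ)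
      ((wland_contDiffAt a).differentiableAt (by simp)).hasFDerivAt ι.hasFDerivAt
  have hC : HasFDerivAt (fun q : ℝ × ℂ => Cay q.2)
      ((2 * Complex.I) • ContinuousLinearMap.snd ℝ ℝ ℂ) (dL, 0) := by
    have h := (Cay_hasDerivAt_zero.hasFDerivAt.restrictScalars ℝ).comp ((dL, 0) : ℝ × ℂ)
      (hasFDerivAt_snd (𝕜 := ℝ) (p := ((dL, 0) : ℝ × ℂ)))
    refine h.congr_fderiv ?_
    ext <;> simp [mul_comm]
  have hD : HasFDerivAt (fun q : ℝ × ℂ => ((q.1 - dL : ℝ) : ℂ))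
      (Complex.ofRealCLM.comp (ContinuousLinearMap.fst ℝ ℝ ℂ)) (dL, 0) :=
    Complex.ofRealCLM.hasFDerivAt.comp _ (hasFDerivAt_fst.sub_const dL)
  have hG : HasFDerivAt (Gh a) (fderiv ℝ (Gh a) (1, 0))
      ((fun q : ℝ × ℂ => (Cay q.2, ((q.1 - dL : ℝ) : ℂ))) (dL, 0)) := by
    simpa [Cay_zero] using ((Gh_smooth a).differentiable (by simp) (1, 0)).hasFDerivAt
  have h2 := hG.comp ((dL, 0) : ℝ × ℂ) (hC.prodMk hD)
  have heq := h1.unique (h2.congr_of_eventuallyEq (Ftil_compat a))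
  have h3 := DFunLike.congr_fun heq (v.1.re, v.2)
  have hv1 : ι (v.1.re, v.2) = v := by
    refine Prod.ext ?_ rfl
    apply Complex.ext <;> simp [ι, him]
  rw [ContinuousLinearMap.comp_apply, hv1, hv, ContinuousLinearMap.comp_apply] at h3
  have h4 := (injective_iff_map_eq_zero _).1 (Gh_bij a (ζ := 1) (by simp [Disc])).1 _ h3.symm
  have h5 : 2 * Complex.I * v.2 = 0 := congrArg Prod.fst h4
  have h6 : ((v.1.re : ℝ) : ℂ) = 0 := congrArg Prod.snd h4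
  refine Prod.ext ?_ ?_
  · apply Complex.ext
    · exact_mod_cast h6
    · exact him
  · simpa using h5

/-- The landing point is an isolated coincidence of the core and its ghost. -/
theorem land_isolated (a : Rt) : ∀ᶠ q : ℂ × ℂ in 𝓝 ((dL : ℂ), 1),
    Fcore a (q.1, 0) = Gh a (q.2, 0) → q = ((dL : ℂ), 1) := by
  have hU : IsOpen {q : ℂ × ℂ | q.2 ≠ -Complex.I} := isOpen_ne_fun continuous_snd continuous_const
  obtain ⟨g, hg, he⟩ := globalize (K := {(((dL : ℂ), (0 : ℂ)) : ℂ × ℂ)}) isCompact_singleton hU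
    (by simp) (Ftil_contDiffOn a)
  rw [nhdsSet_singleton] at he
  have he' : g =ᶠ[𝓝 ((dL : ℂ), (0 : ℂ))] Ftil a := he
  obtain ⟨U, hUn, hinj⟩ := locInj hg (x := ((dL : ℂ), (0 : ℂ)))
    (by rw [he'.fderiv_eq]; exact (Ftil_bij a).1)
  have hV := he.and (show ∀ᶠ x in 𝓝 ((dL : ℂ), (0 : ℂ)), x ∈ U from hUn)
  have c1 : Continuous fun ξ : ℂ => ((ξ, (0 : ℂ)) : ℂ × ℂ) := by fun_prop
  have c2 : Continuous fun w : ℂ => (((dL : ℂ), w) : ℂ × ℂ) := by fun_prop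
  have c3 : Continuous fun w : ℂ => ((dL, w) : ℝ × ℂ) := by fun_prop
  have h1 := (c1.continuousAt (x := (dL : ℂ))).eventually hV
  have h2 := cay_eventually (((c2.continuousAt (x := 0)).eventually hV).and
    ((c3.continuousAt (x := 0)).eventually (Ftil_compat a)))
  filter_upwards [h1.prod_nhds h2] with q hq hFG
  obtain ⟨hq1, w, hw, hw1, hw2⟩ := hq
  have e1 : Ftil a (q.1, 0) = Fcore a (q.1, 0) := by simpa using Ftil_real a q.1 0
  have e2 : Ftil a ((dL : ℂ), w) = Gh a (q.2, 0) := by simpa [hw] using hw2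
  have e3 := hinj hq1.2 hw1.2 (by rw [hq1.1, hw1.1, e1, e2, hFG])
  have e4 : q.1 = (dL : ℂ) := congrArg Prod.fst e3
  have e5 : (0 : ℂ) = w := congrArg Prod.snd e3
  exact Prod.ext e4 (by rw [hw, ← e5, Cay_zero])

end Pool.Agent.Lib.MP_1d0d1b_gt
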