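import Pool.Agent.Lib.MP_1d0d1b_gt.Low
import Pool.Agent.Lib.MP_1d0d1b_gt.WImm
import Pool.Agent.Lib.MP_1d0d1b_gt.WLand
import Pool.Agent.Lib.MP_1d0d1b_gt.Fat
import Pool.Agent.Lib.MP_1d0d1b_gt.Gen

open Set Function Filter Topology
open scoped ContDiff Real

noncomputable section

namespace Pool.Agent.Lib.MP_1d0d1b_gt

def iφ : Rt ⊕ Rt → ℂ → E4
  | .inl a => fun ξ => Fcore a (ξ, 0)
  | .inr a => leaf (Gh a)

def iA : Rt ⊕ Rt → Set ℂ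
  | .inl _ => Half
  | .inr _ => Disc

def iA₀ : Rt ⊕ Rt → Set ℂ
  | .inl _ => oHalf
  | .inr _ => oDisc

def iStr (s : Rt ⊕ Rt) (x : ℂ) (s' : Rt ⊕ Rt) (x' : ℂ) : Prop :=
  ∃ a, s = .inl a ∧ s' = .inr a ∧ x = (dL : ℂ) ∧ x' = 1

theorem dL_abs : |dL| < 1 := by
  unfold dL; rw [abs_lt]; constructor <;> norm_num

theorem dL_mem_Diam : (dL : ℂ) ∈ Diam := ofReal_mem_Diam dL_abs.le

theorem bdry_of_not_oHalf {ξ : ℂ} (h : ξ ∈ Half) (h' : ξ ∉ oHalf) : ξ ∈ Diam ∪ Semi := by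
  rcases Half_cases h with h1 | h1 | h1
  · exact absurd h1 h'
  · exact Or.inl h1
  · exact Or.inr h1

theorem norm_of_not_oDisc {ζ : ℂ} (h : ζ ∈ Disc) (h' : ζ ∉ oDisc) : ‖ζ‖ = 1 :=
  le_antisymm h (not_lt.1 h')

theorem iφ_smooth (s : Rt ⊕ Rt) : ContDiff ℝ ∞ (iφ s) := by
  rcases s with a | a
  · exact (Fcore_smooth a).comp (contDiff_id.prodMk contDiff_const)
  · exact leaf_contDiff (Gh_smooth a)

theorem iφ_time_gt (s : Rt ⊕ Rt) {x : ℂ} (h : x ∈ iA₀ s) : 1 < (iφ s x).2 := by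
  rcases s with a | a
  · exact Fcore_time_gt a h
  · exact Gh_time a h

theorem iφ_time_eq (s : Rt ⊕ Rt) {x : ℂ} (h : x ∈ iA s) (h' : x ∉ iA₀ s) : (iφ s x).2 = 1 := by
  rcases s with a | a
  · exact Fcore_time_eq a (bdry_of_not_oHalf h h')
  · exact Gh_time_eq a (norm_of_not_oDisc h h') 0

theorem iφ_imm (s : Rt ⊕ Rt) {x : ℂ} (h : x ∈ iA s) : Injective (fderiv ℝ (iφ s) x) := by
  rcases s with a | a
  · have h1 : HasFDerivAt (fun ξ : ℂ => ((ξ, (0 : ℝ)) : ℂ × ℝ))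
        (ContinuousLinearMap.inl ℝ ℂ ℝ) x := hasFDerivAt_prodMk_left x 0
    have h2 := (((Fcore_smooth a).differentiable (by simp)) (x, 0)).hasFDerivAt.comp x h1
    have h3 : fderiv ℝ (iφ (.inl a)) x = _ := h2.fderiv
    rw [h3]
    intro v w hvw
    have := Fcore_imm a h hvw
    simpa using this
  · intro v w hvw
    change fderiv ℝ (leaf (Gh a)) x v = fderiv ℝ (leaf (Gh a)) x w at hvw
    rw [fderiv_leaf (Gh_smooth a), fderiv_leaf (Gh_smooth a)] at hvw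
    have := (Gh_bij a h).1 hvw
    simpa using this

theorem iφ_inj (s : Rt ⊕ Rt) : InjOn (iφ s) (iA s) := by
  rcases s with a | a
  · exact Fcore_inj a
  · exact Gh_inj a

theorem iφ_coin (s s' : Rt ⊕ Rt) (hs : s ≠ s') (x : ℂ) (hx : x ∈ iA s) (x' : ℂ) (hx' : x' ∈ iA s')
    (he : iφ s x = iφ s' x') : iStr s x s' x' ∨ iStr s' x' s x ∨ 1 < (iφ s x).2 := by
  by_cases h0 : x ∈ iA₀ s
  · exact Or.inr (Or.inr (iφ_time_gt s h0))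
  by_cases h0' : x' ∈ iA₀ s'
  · exact Or.inr (Or.inr (he ▸ iφ_time_gt s' h0'))
  rcases s with a | a <;> rcases s' with a' | a'
  · exact absurd he (low_AA (fun h => hs (by rw [h])) (bdry_of_not_oHalf hx h0)
      (bdry_of_not_oHalf hx' h0'))
  · obtain ⟨h1, h2, h3⟩ := low_AG (bdry_of_not_oHalf hx h0) (norm_of_not_oDisc hx' h0') he
    exact Or.inl ⟨a, rfl, by rw [h1], h2, h3⟩
  · obtain ⟨h1, h2, h3⟩ := low_AG (bdry_of_not_oHalf hx' h0') (norm_of_not_oDisc hx h0) he.symm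
    exact Or.inr (Or.inl ⟨a', rfl, by rw [h1], h2, h3⟩)
  · exact absurd he (low_GG (fun h => hs (by rw [h])) (norm_of_not_oDisc hx h0)
      (norm_of_not_oDisc hx' h0'))

theorem iφ_str (s : Rt ⊕ Rt) (x : ℂ) (s' : Rt ⊕ Rt) (x' : ℂ) (h : iStr s x s' x') :
    (iφ s x).2 ≤ 1 ∧ (iφ s' x').2 ≤ 1 ∧
      ∀ᶠ q : ℂ × ℂ in 𝓝 (x, x'), iφ s q.1 = iφ s' q.2 → q = (x, x') := by
  obtain ⟨a, rfl, rfl, rfl, rfl⟩ := h
  refine ⟨(Fcore_time_eq a (Or.inl dL_mem_Diam)).le, (Gh_time_eq a (by simp) 0).le, ?_⟩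
  exact land_isolated a

/-- The perturbation data. -/
structure Pert where
  χ : Rt ⊕ Rt → ℂ → ℝ
  b : Rt ⊕ Rt → E4
  smooth : ∀ s, ContDiff ℝ ∞ (χ s)
  cpt : ∀ s, IsCompact (tsupport (χ s))
  supp : ∀ s, tsupport (χ s) ⊆ iA₀ s
  immF : ∀ a, ∀ ξ ∈ Half,
    Injective (fderiv ℝ (fun q : ℂ × ℝ => Fcore a q + χ (.inl a) q.1 • b (.inl a)) (ξ, 0))
  immG : ∀ a, ∀ ζ ∈ Disc,
    Injective (fderiv ℝ (fun q : ℂ × ℂ => Gh a q + χ (.inr a) q.1 • b (.inr a)) (ζ, 0))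
  inj : ∀ s, InjOn (fun x => iφ s x + χ s x • b s) (iA s)
  time : ∀ s, ∀ x ∈ iA₀ s, 1 < (iφ s x + χ s x • b s).2
  gen : ∀ s s', s ≠ s' → ∀ x ∈ iA s, ∀ x' ∈ iA s',
    iφ s x + χ s x • b s = iφ s' x' + χ s' x' • b s' →
    iStr s x s' x' ∨ iStr s' x' s x ∨
      (x ∈ iA₀ s ∧ x' ∈ iA₀ s' ∧
        Transv (fun y => iφ s y + χ s y • b s) (fun y => iφ s' y + χ s' y • b s') x x' ∧
        ∀ s'', ∀ x'' ∈ iA s'', iφ s'' x'' + χ s'' x'' • b s'' = iφ s x + χ s x • b s →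
          (s'', x'') = (s, x) ∨ (s'', x'') = (s', x'))
  fin : {q : ((Rt ⊕ Rt) × ℂ) × ((Rt ⊕ Rt) × ℂ) | q.1.1 ≠ q.2.1 ∧ q.1.2 ∈ iA q.1.1 ∧
    q.2.2 ∈ iA q.2.1 ∧ iφ q.1.1 q.1.2 + χ q.1.1 q.1.2 • b q.1.1 =
      iφ q.2.1 q.2.2 + χ q.2.1 q.2.2 • b q.2.1}.Finite

theorem iA₀_subset (s : Rt ⊕ Rt) : iA₀ s ⊆ iA s := by
  rcases s with a | a
  · exact oHalf_subset
  · exact oDisc_subset

theorem exists_pert : Nonempty Pert := by
  obtain ⟨χ, hχ, hc, hs, hV⟩ := generic_translate iφ iA iA₀ iStr 1 iφ_smooth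
    (fun s => by rcases s with a | a; exacts [isCompact_Half, isCompact_Disc])
    (fun s => by rcases s with a | a; exacts [isOpen_oHalf, isOpen_oDisc])
    iA₀_subset (fun s x hx => iφ_imm s hx) iφ_inj
    (fun s x hx hx' => (iφ_time_eq s hx hx').le) iφ_coin iφ_str
  have h1 : ∀ᶠ b in 𝓝 (0 : E4), ∀ a : Rt, ∀ q ∈ Half ×ˢ ({0} : Set ℝ),
      Injective (fderiv ℝ (fun q : ℂ × ℝ => Fcore a q + χ (.inl a) q.1 • b) q) := by
    refine eventually_all.2 fun a => ?_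
    refine eventually_inj_perturb (Fcore_smooth a) (χ := fun q : ℂ × ℝ => χ (.inl a) q.1)
      ((hχ _).comp contDiff_fst) (isCompact_Half.prod isCompact_singleton) ?_
    rintro ⟨ξ, l⟩ ⟨h, hl⟩
    obtain rfl : l = 0 := hl
    exact Fcore_imm a h
  have h2 : ∀ᶠ b in 𝓝 (0 : E4), ∀ a : Rt, ∀ q ∈ Disc ×ˢ ({0} : Set ℂ),
      Injective (fderiv ℝ (fun q : ℂ × ℂ => Gh a q + χ (.inr a) q.1 • b) q) := by
    refine eventually_all.2 fun a => ?_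
    refine eventually_inj_perturb (Gh_smooth a) (χ := fun q : ℂ × ℂ => χ (.inr a) q.1)
      ((hχ _).comp contDiff_fst) (isCompact_Disc.prod isCompact_singleton) ?_
    rintro ⟨ξ, l⟩ ⟨h, hl⟩
    obtain rfl : l = 0 := hl
    exact (Gh_bij a h).1
  obtain ⟨b, hb, hi, ht, hg, hf⟩ := hV _ (h1.and h2)
  exact ⟨⟨χ, b, hχ, hc, fun s => (hs s).trans inter_subset_left,
    fun a ξ h => (hb (.inl a)).1 a (ξ, 0) ⟨h, rfl⟩,
    fun a ξ h => (hb (.inr a)).2 a (ξ, 0) ⟨h, rfl⟩, hi,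
    fun s x hx => ht s x (iA₀_subset s hx) (iφ_time_gt s hx), hg, hf⟩⟩

namespace Pert

variable (P : Pert)

theorem χ_eventually (s : Rt ⊕ Rt) {x : ℂ} (h : x ∉ iA₀ s) : ∀ᶠ y in 𝓝 x, P.χ s y = 0 :=
  notMem_tsupport_iff_eventuallyEq.1 (fun h' => h (P.supp s h'))

theorem χ_zero (s : Rt ⊕ Rt) {x : ℂ} (h : x ∉ iA₀ s) : P.χ s x = 0 :=
  (P.χ_eventually s h).self_of_nhds

def F3 (a : Rt) (q : ℂ × ℝ) : E4 := Fcore a q + P.χ (.inl a) q.1 • P.b (.inl a)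

def G (a : Rt) (q : ℂ × ℂ) : E4 := Gh a q + P.χ (.inr a) q.1 • P.b (.inr a)

theorem F3_smooth (a : Rt) : ContDiff ℝ ∞ (P.F3 a) :=
  (Fcore_smooth a).add (((P.smooth _).comp contDiff_fst).smul contDiff_const)

theorem G_smooth (a : Rt) : ContDiff ℝ ∞ (P.G a) :=
  (Gh_smooth a).add (((P.smooth _).comp contDiff_fst).smul contDiff_const)

theorem real_not_oHalf (x : ℝ) : (x : ℂ) ∉ oHalf := fun h => by
  have := h.2; simp at this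

theorem exists_fat (a : Rt) : ∃ F4 : ℂ × ℂ → E4, ContDiff ℝ ∞ F4 ∧
    (∀ ξ (l : ℝ), F4 (ξ, (l : ℂ)) = P.F3 a (ξ, l)) ∧
    (∀ ξ ∈ Half, Bijective (fderiv ℝ F4 (ξ, 0))) ∧
    ∀ᶠ q in 𝓝 ((dL : ℂ), (0 : ℂ)), F4 q = Ftil a q := by
  refine fatten (P.F3_smooth a) (P.immF a) (U := {q | q.2 ≠ -Complex.I})
    (isOpen_ne_fun continuous_snd continuous_const) ?_ (Ftil_contDiffOn a) ?_ (Ftil_bij a)
  · show (0 : ℂ) ≠ -Complex.I
    intro h; exact Complex.I_ne_zero (neg_eq_zero.1 h.symm)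
  · have h := (continuous_fst.tendsto ((dL : ℂ), (0 : ℝ))).eventually
      (P.χ_eventually (.inl a) (real_not_oHalf dL))
    filter_upwards [h] with q hq
    rw [Ftil_real, F3, hq, zero_smul, add_zero]

end Pert

end Pool.Agent.Lib.MP_1d0d1b_gt
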