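import Pool.Agent.Lib.MP_1d0d1b_gt.Basic
import Pool.Agent.Lib.MP_1d0d1b_gt.Chart
import Pool.Agent.Lib.MP_1d0d1b_gt.Finger

open Set Function Filter Topology
open scoped ContDiff Real

noncomputable section

namespace Pool.Agent.Lib.MP_1d0d1b_gt

lemma kit_compact (v₁ : ℝ) : IsCompact (Kcore v₁) := by
  have e : Kcore v₁ = (fun u : ℝ => ((u, 0, 0) : ℝ × ℝ × ℂ)) '' Icc 0 1 ∪
      (fun v : ℝ => ((1, v, 0) : ℝ × ℝ × ℂ)) '' Icc 0 v₁ := by
    ext n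
    simp only [Kcore, mem_ofPred_eq, mem_union, mem_image, eq_comm]
  rw [e]
  exact (isCompact_Icc.image (by fun_prop)).union (isCompact_Icc.image (by fun_prop))

lemma kit_zero {k : ℝ × ℝ × ℂ} (hk : k ∈ Kcore 0) : ∃ u ∈ Icc (0 : ℝ) 1, k = (u, 0, 0) := by
  rcases hk with h | ⟨v, hv, rfl⟩
  · exact h
  · exact ⟨1, ⟨zero_le_one, le_rfl⟩, by rw [le_antisymm hv.2 hv.1]⟩

lemma kit_im (g : ℝ → ℝ) (y u : ℝ) : (path g y u).im = (1 - u) * y := rfl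

lemma kit_re (g : ℝ → ℝ) (y u : ℝ) : (path g y u).re = g u := rfl

lemma kit_one_semi : (1 : ℂ) ∈ Semi := by simp [Semi]

lemma kit_neg_semi : (-1 : ℂ) ∈ Semi := by simp [Semi]

namespace Config

variable {B : Base} {C : Config B}

lemma GoodPath.kit_half {S : C.I} {q : ℂ} {g : ℝ → ℝ} (hg : C.GoodPath S q g) (hq : 0 < q.im)
    {u : ℝ} (hu : u ∈ Icc (0 : ℝ) 1) : path g q.im u ∈ Half :=
  ⟨(hg.norm_lt u hu).le, by rw [kit_im]; exact mul_nonneg (sub_nonneg.2 hu.2) hq.le⟩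

lemma GoodPath.kit_abs {S : C.I} {q : ℂ} {g : ℝ → ℝ} (hg : C.GoodPath S q g) : |g 1| < 1 := by
  have h := hg.norm_lt 1 ⟨zero_le_one, le_rfl⟩
  rwa [path_one, Complex.norm_real, Real.norm_eq_abs] at h

theorem Valid.chart_kit (hC : C.Valid) {Z S : C.I} {p q : ℂ}
    (h : C.Good (.inl Z) p (.inl S) q) {g : ℝ → ℝ} (hg : C.GoodPath S q g) {v₁ : ℝ}
    (hv : 0 ≤ v₁) (hv' : g 1 + v₁ ≤ 1) :
    ∃ Ψ L N, IsChart (C.F S) (C.F Z) p q g Ψ L ∧ N ∈ 𝓝ˢ (Kcore v₁) ∧ InjOn Ψ N ∧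
      ∀ n ∈ N, Bijective (fderiv ℝ Ψ n) := by
  have hq : q ∈ oHalf := h.2.2.1
  obtain ⟨Ψ, L, hΨ⟩ := chart_exists (hC.smooth S) (hC.smooth Z) hq.2
    (hC.bij S q (oHalf_subset hq)) h.2.2.2.2.1 h.2.2.2.1 hg.smooth hg.start
  have key : ∀ k ∈ Kcore v₁, ∃ u v : ℝ, k = (u, v, 0) ∧ path g q.im u + v ∈ Half := by
    rintro k (⟨u, hu, rfl⟩ | ⟨v, hv1, rfl⟩)
    · exact ⟨u, 0, rfl, by simpa using hg.kit_half hq.2 hu⟩
    · refine ⟨1, v, rfl, ?_⟩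
      rw [path_one, ← Complex.ofReal_add]
      have := abs_lt.1 hg.kit_abs
      exact Diam_subset (ofReal_mem_Diam (abs_le.2 ⟨by linarith [hv1.1], by linarith [hv1.2]⟩))
  obtain ⟨N, h1, h2, h3⟩ := bij_nhdsSet hΨ.smooth (kit_compact v₁) (fun k hk k' hk' e => by
    obtain ⟨u, v, rfl, hx⟩ := key k hk
    obtain ⟨u', v', rfl, hx'⟩ := key k' hk'
    rw [hΨ.atS, hΨ.atS] at e
    have e1 := hC.sh_injOn (.inl S) hx hx' e
    have e2 := congrArg Complex.im e1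
    simp only [Complex.add_im, kit_im, Complex.ofReal_im, add_zero] at e2
    have e3 : u = u' := by have := mul_right_cancel₀ hq.2.ne' e2; linarith
    subst e3
    rw [Complex.ofReal_injective (add_left_cancel e1)]) (fun k hk => by
    obtain ⟨u, v, rfl, hx⟩ := key k hk
    exact hΨ.bij u v (hC.bij S _ hx))
  exact ⟨Ψ, L, N, hΨ, h1, h2, h3⟩

/-- The sheets through a point of a good path. -/
lemma Valid.kit_core (hC : C.Valid) {Z S : C.I} {p q : ℂ}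
    (h : C.Good (.inl Z) p (.inl S) q) {g : ℝ → ℝ} (hg : C.GoodPath S q g) {u : ℝ}
    (hu : u ∈ Icc (0 : ℝ) 1) {s x} (hx : x ∈ C.sdom s)
    (e : C.sh s x = C.F S (path g q.im u, 0)) :
    (s = .inl S ∧ x = path g q.im u) ∨ (s = .inl Z ∧ x = p ∧ u = 0) := by
  have hq : q ∈ oHalf := h.2.2.1
  by_cases hne : ((.inl S : C.I ⊕ B.R), path g q.im u) = (s, x)
  · exact Or.inl ⟨(Prod.mk.inj hne).1.symm, (Prod.mk.inj hne).2.symm⟩
  rcases hC.gen (.inl S) _ s x (hg.kit_half hq.2 hu) hx hne e.symm with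
    (⟨i, X, -, -, -, h1, -⟩ | ⟨a, h1, -, h2, -⟩) | (⟨i, X, -, h1, h2, h3, h4⟩ | ⟨a, -, h1, -⟩) | h1
  · exact absurd h1.1 (hg.norm_lt u hu).ne
  · have h3 := congrArg Complex.im h2
    rw [kit_im, Complex.ofReal_im, mul_eq_zero, sub_eq_zero] at h3
    obtain rfl := h3.resolve_right hq.2.ne'
    rw [path_one] at h2
    exact absurd (Complex.ofReal_injective h2) (hg.land a (Sum.inl_injective h1))
  · obtain rfl := Sum.inl_injective h1
    exact absurd ⟨i, h2, x, h3, h4⟩ (hg.notTr u hu)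
  · cases h1
  · have h2 := hg.notGood u hu _ _ h1
    have h3 := congrArg Complex.im h2
    rw [kit_im] at h3
    have h4 : u = 0 := by
      have : u * q.im = 0 := by linarith
      exact (mul_eq_zero.1 this).resolve_right hq.2.ne'
    rw [h2] at e hne
    rcases h.2.2.2.2.2 s x hx (e.trans h.2.2.2.1.symm) with h5 | h5
    · exact Or.inr ⟨(Prod.mk.inj h5).1, (Prod.mk.inj h5).2, h4⟩
    · exact absurd h5.symm hne

/-- The standard position of all sheets near the core of the chart. -/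
lemma Valid.kit_std (hC : C.Valid) {Z S : C.I} {p q : ℂ}
    (h : C.Good (.inl Z) p (.inl S) q) {g : ℝ → ℝ}
    (hg : C.GoodPath S q g) {Ψ : ℝ × ℝ × ℂ → E4} {L : ℂ ≃L[ℝ] ℂ} {N : Set (ℝ × ℝ × ℂ)}
    (hΨ : IsChart (C.F S) (C.F Z) p q g Ψ L) (hN : N ∈ 𝓝ˢ (Kcore 0)) (hi : InjOn Ψ N) :
    ∀ᶠ n in 𝓝ˢ (Kcore 0), n ∈ N ∧
      (∀ x ∈ Half, C.F Z (x, 0) = Ψ n → n = (0, 0, L.symm (x - p))) ∧
      (∀ x ∈ Half, C.F S (x, 0) = Ψ n → n.2.2 = 0 ∧ x.im = (1 - n.1) * q.im) ∧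
      (∀ s, s ≠ .inl Z → s ≠ .inl S → Ψ n ∉ C.sh s '' C.sdom s) ∧ Ψ n ∉ B.O ∧
      (∀ j, ∀ z ∈ Disc, B.f j z = Ψ n → j = C.lo S ∧ n.1 = 1 ∧ n.2.2.im = 0) ∧
      0 < (Ψ n).2 := by
  have hq : q ∈ oHalf := h.2.2.1
  have hc := hΨ.smooth.continuous
  have hK : ∀ u : ℝ, Ψ (u, 0, 0) = C.F S (path g q.im u, 0) := fun u => by
    simpa using hΨ.atS u 0
  have hN' : ∀ k ∈ Kcore 0, N ∈ 𝓝 k := mem_nhdsSet_iff_forall.1 hN
  have := hC.finI
  have := B.finR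
  refine Eventually.and hN (.and ?_ (.and ?_ (.and ?_ (.and ?_ (.and ?_ ?_)))))
  · refine standard (hC.sh_smooth (.inl Z)).continuous isCompact_Half hc hN hi
      (P := fun n x => n = (0, 0, L.symm (x - p))) fun x₀ hx₀ k hk e => ?_
    obtain ⟨u, hu, rfl⟩ := kit_zero hk
    rcases hC.kit_core h hg hu hx₀ (e.trans (hK u)) with ⟨h1, -⟩ | ⟨-, rfl, rfl⟩
    · exact absurd h1 h.1
    · have c : Continuous fun x : ℂ => ((0, 0, L.symm (x - x₀)) : ℝ × ℝ × ℂ) := by fun_prop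
      filter_upwards [c.continuousAt.preimage_mem_nhds (t := N) (by simpa using hN' _ hk)] with x hx
      exact ⟨_, hx, by rw [hΨ.atZ]; simp [sh, leaf], rfl⟩
  · refine standard (hC.sh_smooth (.inl S)).continuous isCompact_Half hc hN hi
      (P := fun n x => n.2.2 = 0 ∧ x.im = (1 - n.1) * q.im) fun x₀ hx₀ k hk e => ?_
    obtain ⟨u, hu, rfl⟩ := kit_zero hk
    obtain rfl : x₀ = path g q.im u :=
      hC.sh_injOn (.inl S) hx₀ (hg.kit_half hq.2 hu) (e.trans (hK u))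
    have cg := hg.smooth.continuous
    have c : Continuous fun x : ℂ =>
      ((1 - x.im / q.im, x.re - g (1 - x.im / q.im), 0) : ℝ × ℝ × ℂ) := by fun_prop
    have e1 : 1 - (1 - u) * q.im / q.im = u := by field_simp [hq.2.ne']; ring
    filter_upwards [c.continuousAt.preimage_mem_nhds (t := N) (x := path g q.im u) (by
      simpa only [kit_im, kit_re, e1, sub_self] using hN' _ hk)] with x hx
    have e2 : x.im = (1 - (1 - x.im / q.im)) * q.im := by field_simp [hq.2.ne']; ring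
    refine ⟨_, hx, ?_, rfl, e2⟩
    rw [hΨ.atS]
    change C.F S (x, 0) = _
    congr 2
    apply Complex.ext
    · simp [kit_re]
    · simpa only [Complex.add_im, kit_im, Complex.ofReal_im, add_zero] using e2
  · refine eventually_all.2 fun s => ?_
    by_cases h1 : s = .inl Z
    · exact .of_forall fun _ h => absurd h1 h
    by_cases h2 : s = .inl S
    · exact .of_forall fun _ _ h => absurd h2 h
    refine (absent hc ((isCompact_sdom s).image (hC.sh_smooth s).continuous).isClosed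
      fun k hk => ?_).mono fun n hn _ _ => hn
    obtain ⟨u, hu, rfl⟩ := kit_zero hk
    rintro ⟨x, hx, e⟩
    rcases hC.kit_core h hg hu hx (e.trans (hK u)) with h3 | h3
    exacts [h2 h3.1, h1 h3.1]
  · refine absent hc B.O_closed fun k hk hO => ?_
    obtain ⟨u, hu, rfl⟩ := kit_zero hk
    rw [hK] at hO
    exact (hg.norm_lt u hu).ne (hC.notO S _ (hg.kit_half hq.2 hu) hO).2
  · refine eventually_all.2 fun j => standard (B.f_smooth j).continuous isCompact_Disc hc hN hi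
      (P := fun n _ => j = C.lo S ∧ n.1 = 1 ∧ n.2.2.im = 0) fun z₀ hz₀ k hk e => ?_
    obtain ⟨u, hu, rfl⟩ := kit_zero hk
    rw [hK] at e
    rcases hC.onD S _ (hg.kit_half hq.2 hu) j z₀ hz₀ e.symm with ⟨h1, rfl⟩ | ⟨c, h1, -, h2⟩
    · have h2 := h1.2
      rw [kit_im, mul_eq_zero, sub_eq_zero] at h2
      obtain rfl := h2.resolve_right hq.2.ne'
      rw [path_one] at e h1
      have ha := hg.kit_abs.le
      obtain rfl : z₀ = C.α S (g 1, 0) :=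
        B.f_inj _ hz₀ (oDisc_subset (hC.α_mem S _ ha)) (e.trans (hC.bot_eq S ha))
      have c : Continuous fun q : ℝ × ℝ => ((1, q.1 - g 1, (q.2 : ℂ)) : ℝ × ℝ × ℂ) := by fun_prop
      filter_upwards [alpha_eventually (hC.smooth S) (B.f_smooth _) (hC.α_smooth S)
        (q₀ := (g 1, 0)) (hC.bij S _ (Diam_subset h1)).1 (hC.bot S _ ha)
        ((hC.bot S _ ha).and (c.continuousAt.preimage_mem_nhds (t := N)
          (by simpa using hN' _ hk)))] with z hz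
      obtain ⟨q', rfl, h3, h4⟩ := hz
      exact ⟨_, h4, by rw [hΨ.atD, ← h3, add_sub_cancel], rfl, rfl, Complex.ofReal_im _⟩
    · refine absurd ?_ (hg.notTr u hu)
      rcases h2 with h2 | h2
      exacts [⟨c, h1, 1, kit_one_semi, h2⟩, ⟨c, h1, -1, kit_neg_semi, h2⟩]
  · refine (isOpen_lt continuous_const (continuous_snd.comp hc)).mem_nhdsSet.2 fun k hk => ?_
    obtain ⟨u, hu, rfl⟩ := kit_zero hk
    change 0 < (Ψ (u, 0, 0)).2
    rw [hK]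
    exact hC.pos S _ (hg.kit_half hq.2 hu)

theorem Valid.finger_kit (hC : C.Valid) {Z S : C.I} {p q : ℂ}
    (h : C.Good (.inl Z) p (.inl S) q) {η : ℝ} (hP : C.Prep Z p η) {g : ℝ → ℝ}
    (hg : C.GoodPath S q g) {Ψ : ℝ × ℝ × ℂ → E4} {L : ℂ ≃L[ℝ] ℂ} {N : Set (ℝ × ℝ × ℂ)}
    (hΨ : IsChart (C.F S) (C.F Z) p q g Ψ L) (hN : N ∈ 𝓝ˢ (Kcore 0)) (hi : InjOn Ψ N)
    (hb : ∀ n ∈ N, Bijective (fderiv ℝ Ψ n)) :
    ∃ κ σ : ℝ, 0 < κ ∧ κ ≤ 1 / 3 ∧ (σ = 1 ∨ σ = -1) ∧ ∀ᶠ r in 𝓝[>] (0 : ℝ), ∃ F',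
      IsFinger (C.F Z) Ψ L p κ σ r F' ∧
      C.FingerOK Z p η F' (C.lo S) (p + L (r : ℂ)) (p + L (-(r : ℂ))) ∧
      ∀ W, ‖W‖ ≤ 3 * r → (hh κ (‖W‖ ^ 2 / r ^ 2), (0 : ℝ), W) ∈ N ∧ p + L W ∈ Metric.ball p η := by
  have hp : p ∈ oHalf := h.2.1
  have hq : q ∈ oHalf := h.2.2.1
  obtain ⟨δ, hδ, hd⟩ := exists_dist_of_nhdsSet (kit_compact 0) (hC.kit_std h hg hΨ hN hi)
  set κ := min δ (1 / 3) with hκ
  have κ0 : 0 < κ := lt_min hδ (by norm_num)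
  have κ1 : κ ≤ 1 / 3 := min_le_right _ _
  have κ2 : κ ≤ δ := min_le_left _ _
  have hd' := fun (u : ℝ) (hu : u ∈ Icc (0 : ℝ) (1 + κ)) (W : ℂ) (hW : ‖W‖ ≤ δ) =>
    hd (min u 1, 0, 0) (Or.inl ⟨_, ⟨le_min hu.1 zero_le_one, min_le_right _ _⟩, rfl⟩) (u, 0, W) (by
      simp only [Prod.dist_eq, dist_self, dist_zero_right, Real.dist_eq, max_le_iff]
      refine ⟨abs_le.2 ⟨?_, ?_⟩, hδ.le, hW⟩
      · linarith [min_le_left u 1]
      · rcases min_cases u 1 with e | e <;> linarith [hu.2, e.1])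
  obtain ⟨σ, hσ, hF⟩ := finger_exists (hC.smooth Z) hΨ.smooth (hC.bij Z p (oHalf_subset hp))
    hΨ.atZ κ0 κ1 fun u hu => hb _ (hd' u hu 0 (by simpa using hδ.le)).1
  refine ⟨κ, σ, κ0, κ1, hσ, ?_⟩
  have hr1 : ∀ᶠ r in 𝓝[>] (0 : ℝ), 3 * r < δ ∧ ‖(L : ℂ →L[ℝ] ℂ)‖ * (3 * r) < η / 2 := by
    refine nhdsWithin_le_nhds (Eventually.and ?_ ?_)
    · exact (isOpen_lt (by fun_prop) continuous_const).mem_nhds (by simpa using hδ)
    · exact (isOpen_lt (by fun_prop) continuous_const).mem_nhds (by simpa using hP.η_pos)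
  filter_upwards [hF, hr1, self_mem_nhdsWithin] with r ⟨F', hF'⟩ ⟨hr1, hr2⟩ hr
  replace hr : 0 < r := hr
  have hL : ∀ W : ℂ, ‖W‖ ≤ 3 * r → ‖L W‖ < η / 2 := fun W hW =>
    (((L : ℂ →L[ℝ] ℂ).le_opNorm W).trans
      (mul_le_mul_of_nonneg_left hW (norm_nonneg _))).trans_lt hr2
  have hin := fun (W : ℂ) (hW : ‖W‖ ≤ 3 * r) =>
    hd' (hh κ (‖W‖ ^ 2 / r ^ 2)) ⟨hh_nonneg κ0.le κ1 _, hh_le κ0.le κ1 (by positivity)⟩ W
      (hW.trans hr1.le)
  have cases : ∀ ξ ∈ Metric.ball p η,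
      (∃ W, ‖W‖ ≤ 3 * r ∧ ξ = p + L W ∧ F' (ξ, 0) = Ψ (hh κ (‖W‖ ^ 2 / r ^ 2), 0, W)) ∨
      (ξ ≠ p ∧ ξ ∈ oHalf ∧ ξ ∉ C.Tr Z ∧ F' (ξ, 0) = C.F Z (ξ, 0)) := fun ξ hξ => by
    have hξ' := Metric.ball_subset_closedBall hξ
    rcases le_total ‖L.symm (ξ - p)‖ (3 * r) with h1 | h1
    · refine Or.inl ⟨_, h1, by simp, ?_⟩
      rw [← hF'.zero]; simp
    · refine Or.inr ⟨?_, hP.sub hξ', disjoint_left.1 hP.disj hξ', hF'.out _ _ h1⟩
      rintro rfl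
      rw [sub_self, map_zero, norm_zero] at h1
      linarith
  have hZ : ∀ W, ‖W‖ ≤ 3 * r → ∀ x ∈ Half,
      C.F Z (x, 0) = Ψ (hh κ (‖W‖ ^ 2 / r ^ 2), 0, W) → x = p + L W := fun W hW x hx e => by
    have h1 : W = L.symm (x - p) := congrArg (fun n => n.2.2) ((hin W hW).2.1 x hx e)
    rw [h1]; simp
  refine ⟨F', hF', ⟨hF'.smooth, fun ξ hξ w => hF'.out _ _ ?_, fun ξ hξ => ?_,
    fun ξ hξ ξ' hξ' e => ?_, fun ξ hξ s x hs e => ?_, fun ξ hξ j z hz e => ?_, fun ξ hξ => ?_,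
    fun ξ hξ => ?_⟩, fun W hW => ⟨(hin W hW).1, ?_⟩⟩
  · by_contra h1
    have := hL _ (not_le.1 h1).le
    rw [ContinuousLinearEquiv.apply_symm_apply] at this
    linarith
  · rcases le_or_gt ‖L.symm (ξ - p)‖ (3 * r) with h1 | h1
    · simpa using hF'.bij _ h1
    · have e : F' =ᶠ[𝓝 (ξ, 0)] C.F Z := by
        have : {y : ℂ × ℂ | 3 * r < ‖L.symm (y.1 - p)‖} ∈ 𝓝 (ξ, (0 : ℂ)) :=
          (isOpen_lt continuous_const (by fun_prop)).mem_nhds h1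
        filter_upwards [this] with y hy using hF'.out _ _ hy.le
      rw [e.fderiv_eq]
      exact hC.bij Z ξ hξ
  · change F' (ξ, 0) = F' (ξ', 0) at e
    rcases cases ξ hξ with ⟨W, h1, h2, h3⟩ | ⟨-, h1, -, h3⟩ <;>
      rcases cases ξ' hξ' with ⟨W', h1', h2', h3'⟩ | ⟨-, h1', -, h3'⟩ <;> rw [h3, h3'] at e
    · have : W = W' := congrArg (fun n => n.2.2) (hi (hin W h1).1 (hin W' h1').1 e)
      rw [h2, h2', this]
    · exact h2.trans (hZ W h1 _ (oHalf_subset h1') e.symm).symm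
    · exact (hZ W' h1' _ (oHalf_subset h1) e).trans h2'.symm
    · exact hC.sh_injOn (.inl Z) (oHalf_subset h1) (oHalf_subset h1') e
  · rcases cases ξ hξ with ⟨W, h1, h2, h3⟩ | ⟨h0, h1, h2, h3⟩ <;> rw [h3] at e
    · by_cases s1 : s = .inl Z
      · subst s1
        exact hs.2 ⟨rfl, by rw [hZ W h1 x hs.1 e.symm, ← h2]; exact hξ⟩
      by_cases s2 : s = .inl S
      · subst s2
        obtain ⟨h4, h5⟩ := (hin W h1).2.2.1 x hs.1 e.symm
        change W = 0 at h4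
        subst h4
        simp only [norm_zero, ne_eq, OfNat.ofNat_ne_zero, not_false_eq_true, zero_pow, zero_div,
          hh_of_le_two κ (zero_le_two (α := ℝ))] at h5
        have h6 : 0 ≤ x.im := hs.1.2
        nlinarith [mul_pos κ0 hq.2]
      · exact (hin W h1).2.2.2.1 s s1 s2 ⟨x, hs.1, e.symm⟩
    · have hne : ((.inl Z : C.I ⊕ B.R), ξ) ≠ (s, x) := fun e' =>
        hs.2 ⟨(Prod.mk.inj e').1.symm, (Prod.mk.inj e').2 ▸ hξ⟩
      rcases hC.gen (.inl Z) ξ s x (oHalf_subset h1) hs.1 hne e with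
        h4 | (⟨i, X, -, h4, h5, h6, h7⟩ | ⟨a, -, h4, -⟩) | h4
      · exact hC.not_str_of_mem h4 h1
      · obtain rfl := Sum.inl_injective h4
        exact h2 ⟨i, h5, x, h6, h7⟩
      · cases h4
      · exact h0 (hP.only ξ (Metric.ball_subset_closedBall hξ) _ _ h4)
  · rcases cases ξ hξ with ⟨W, h1, h2, h3⟩ | ⟨h0, h1, h2, h3⟩ <;> rw [h3] at e
    · obtain ⟨h4, h5, h6⟩ := (hin W h1).2.2.2.2.2.1 j z hz e.symm
      refine ⟨h4, ?_⟩
      replace h5 := (hh_eq_one_iff κ0 κ1 _).1 h5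
      change W.im = 0 at h6
      obtain ⟨t, rfl⟩ : ∃ t : ℝ, W = t := ⟨W.re, Complex.ext rfl h6⟩
      rw [div_eq_one_iff_eq (by positivity), Complex.norm_real, Real.norm_eq_abs, sq_abs,
        sq_eq_sq_iff_eq_or_eq_neg] at h5
      rcases h5 with rfl | rfl
      · exact Or.inl h2
      · exact Or.inr (by rw [h2, Complex.ofReal_neg])
    · rcases hC.onD Z ξ (oHalf_subset h1) j z hz e with ⟨h4, -⟩ | ⟨c, h4, -, h5 | h5⟩
      · exact absurd h4.2 h1.2.ne'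
      · exact absurd ⟨c, h4, 1, kit_one_semi, h5⟩ h2
      · exact absurd ⟨c, h4, -1, kit_neg_semi, h5⟩ h2
  · rcases cases ξ hξ with ⟨W, h1, h2, h3⟩ | ⟨h0, h1, h2, h3⟩ <;> rw [h3]
    · exact (hin W h1).2.2.2.2.1
    · exact fun hO => h1.1.ne (hC.notO Z ξ (oHalf_subset h1) hO).2
  · rcases cases ξ hξ with ⟨W, h1, h2, h3⟩ | ⟨h0, h1, h2, h3⟩ <;> rw [h3]
    · exact (hin W h1).2.2.2.2.2.2
    · exact hC.pos Z ξ (oHalf_subset h1)
  · rw [mem_ball_iff_norm, add_sub_cancel_left]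
    linarith [hL W hW, hP.η_pos]

end Config

end Pool.Agent.Lib.MP_1d0d1b_gt
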