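import Pool.Agent.Lib.MP_1d0d1b_gt.State

open Set Function Filter Topology
open scoped ContDiff Real

noncomputable section

namespace Pool.Agent.Lib.MP_1d0d1b_gt

/-- A chart along a path in `S` from the double point with `Z` to the lower arc of `S`. -/
structure IsChart (FS FZ : ℂ × ℂ → E4) (p q : ℂ) (g : ℝ → ℝ) (Ψ : ℝ × ℝ × ℂ → E4)
    (L : ℂ ≃L[ℝ] ℂ) : Prop where
  smooth : ContDiff ℝ ∞ Ψ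
  L_one : (L 1).im = 0
  L_I : 0 < (L Complex.I).im
  atZ : ∀ w, Ψ (0, 0, w) = FZ (p + L w, 0)
  atS : ∀ u v : ℝ, Ψ (u, v, 0) = FS (path g q.im u + v, 0)
  atD : ∀ (v : ℝ) (w : ℂ), Ψ (1, v, w) = FS (((g 1 + v : ℝ) : ℂ), w)
  bij : ∀ u v : ℝ, Bijective (fderiv ℝ FS (path g q.im u + v, 0)) →
    Bijective (fderiv ℝ Ψ (u, v, 0))

/-- The slab `F'` is `FZ` with a finger of radius `r` in the chart `Ψ`. -/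
structure IsFinger (FZ : ℂ × ℂ → E4) (Ψ : ℝ × ℝ × ℂ → E4) (L : ℂ ≃L[ℝ] ℂ) (p : ℂ)
    (κ σ r : ℝ) (F' : ℂ × ℂ → E4) : Prop where
  smooth : ContDiff ℝ ∞ F'
  out : ∀ ξ w, 3 * r ≤ ‖L.symm (ξ - p)‖ → F' (ξ, w) = FZ (ξ, w)
  zero : ∀ W, F' (p + L W, 0) = Ψ (hh κ (‖W‖ ^ 2 / r ^ 2), 0, W)
  slab : ∀ W (l : ℝ), ‖W‖ ≤ 2 * r → F' (p + L W, (l : ℂ)) = Ψ (hh κ (‖W‖ ^ 2 / r ^ 2), σ * l, W)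
  bij : ∀ W, ‖W‖ ≤ 3 * r → Bijective (fderiv ℝ F' (p + L W, 0))

/-- The L-shaped core of the chart. -/
def Kcore (v₁ : ℝ) : Set (ℝ × ℝ × ℂ) :=
  {n | (∃ u ∈ Icc (0 : ℝ) 1, n = (u, 0, 0)) ∨ ∃ v ∈ Icc (0 : ℝ) v₁, n = (1, v, 0)}

namespace Config

variable {B : Base} (C : Config B)

/-- A path in `S` from `q` to the lower arc meeting no other sheet on the way. -/
structure GoodPath (S : C.I) (q : ℂ) (g : ℝ → ℝ) : Prop where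
  smooth : ContDiff ℝ ∞ g
  start : g 0 = q.re
  norm_lt : ∀ u ∈ Icc (0 : ℝ) 1, ‖path g q.im u‖ < 1
  notTr : ∀ u ∈ Icc (0 : ℝ) 1, path g q.im u ∉ C.Tr S
  notGood : ∀ u ∈ Icc (0 : ℝ) 1, ∀ s' x', C.Good (.inl S) (path g q.im u) s' x' →
    path g q.im u = q
  land : ∀ a, S = C.rt a → g 1 ≠ B.d a

/-- A leaf of the ghost family `a` close to the ghost. -/
structure LeafOK (Z : C.I) (p : ℂ) (η : ℝ) (a : B.R) (s : ℝ) : Prop where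
  ne : s ≠ 0
  land_mem : |B.d a + s| < 1
  bij : ∀ ζ ∈ Disc, Bijective (fderiv ℝ (B.G a) (ζ, (s : ℂ)))
  inj : InjOn (fun ζ => B.G a (ζ, (s : ℂ))) Disc
  pos : ∀ ζ ∈ Disc, 0 < (B.G a (ζ, (s : ℂ))).2
  notO : ∀ ζ ∈ Disc, B.G a (ζ, (s : ℂ)) ∉ B.O
  onD : ∀ ζ ∈ Disc, ∀ j, ∀ z ∈ Disc, B.G a (ζ, (s : ℂ)) = B.f j z → ‖ζ‖ = 1 ∧ j = B.lo a
  γ_mem : ∀ ζ, ‖ζ‖ = 1 → B.γ a (ζ, s) ∈ oDisc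
  bot : ∀ ζ₀, ‖ζ₀‖ = 1 → ∀ᶠ q : ℂ × ℝ in 𝓝 (ζ₀, s), ‖q.1‖ = 1 →
    B.G a (q.1, (q.2 : ℂ)) = B.f (B.lo a) (B.γ a q)
  compat : ∀ᶠ q : ℝ × ℂ in 𝓝 (B.d a + s, 0),
    C.F (C.rt a) ((q.1 : ℂ), q.2) = B.G a (Cay q.2, ((q.1 - B.d a : ℝ) : ℂ))
  cross : ∀ ζ ∈ Disc, ∀ s' x, x ∈ C.sdom s' → B.G a (ζ, (s : ℂ)) = C.sh s' x →
    (ζ = 1 ∧ s' = .inl (C.rt a) ∧ x = ((B.d a + s : ℝ) : ℂ)) ∨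
    (ζ ∈ oDisc ∧ x ∈ C.sodom s' ∧ Transv (fun ζ => B.G a (ζ, (s : ℂ))) (C.sh s') ζ x ∧
      (∀ s'' x'', x'' ∈ C.sdom s'' → C.sh s'' x'' = C.sh s' x → (s'', x'') = (s', x)) ∧
      (s' = .inl Z → x ∉ Metric.closedBall p η) ∧
      ∀ j, s' = .inl j → Acc x (C.TrP Z p η j) (C.d j))
  fin : {q : ℂ × ((C.I ⊕ B.R) × ℂ) | q.1 ∈ Disc ∧ q.2.2 ∈ C.sdom q.2.1 ∧
    B.G a (q.1, (s : ℂ)) = C.sh q.2.1 q.2.2}.Finite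

end Config

/-- A tower whose Whitney discs carry three-dimensional slabs. -/
structure SlabTower (B : Base) (n : ℕ) where
  W : Type
  finite : Finite W
  S : W → ℂ × ℝ → E4
  lo : W → Fin 2
  up : W → Fin 2 ⊕ W
  ord : W → ℕ
  ord_inl : ∀ w j, up w = .inl j → ord w = 1
  ord_inr : ∀ w w', up w = .inr w' → ord w = ord w' + 1
  smooth : ∀ w, ContDiff ℝ ∞ (S w)
  imm : ∀ w, ∀ ξ ∈ Half, Injective (fderiv ℝ (S w) (ξ, 0))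
  pos : ∀ w, ∀ ξ ∈ Half, 0 < (S w (ξ, 0)).2
  α : W → ℝ × ℝ → ℂ
  α_smooth : ∀ w, ContDiff ℝ ∞ (α w)
  α_mem : ∀ w (x : ℝ), |x| ≤ 1 → α w (x, 0) ∈ oDisc
  bot : ∀ w (x₀ : ℝ), |x₀| ≤ 1 → ∀ᶠ q : ℝ × ℝ in 𝓝 (x₀, 0),
    S w ((q.1 : ℂ), q.2) = B.f (lo w) (α w q)
  b : W → ℝ → ℂ
  b_smooth : ∀ w, ContDiff ℝ ∞ (b w)
  b_mem : ∀ w, ∀ t ∈ Icc (0 : ℝ) π, b w t ∈ odom (up w)
  top : ∀ w, ∀ t₀ ∈ Icc (0 : ℝ) π, ∀ᶠ t in 𝓝 t₀,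
    S w (circ t, 0) = Sum.elim B.f (fun w' z => S w' (z, 0)) (up w) (b w t)
  span : ∀ w, ∀ t ∈ Icc (0 : ℝ) π, ∀ y : E4, ∃ (P : ℂ × ℝ) (Q : ℂ),
    fderiv ℝ (S w) (circ t, 0) P +
      fderiv ℝ (Sum.elim B.f (fun w' z => S w' (z, 0)) (up w)) (b w t) Q = y
  WW : ∀ w w', ∀ ξ ∈ Half, ∀ ξ' ∈ Half, S w (ξ, 0) = S w' (ξ', 0) → (w = w' ∧ ξ = ξ') ∨
    (up w = .inr w' ∧ ∃ t ∈ Icc (0 : ℝ) π, ξ = circ t ∧ ξ' = b w t) ∨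
    (up w' = .inr w ∧ ∃ t ∈ Icc (0 : ℝ) π, ξ' = circ t ∧ ξ = b w' t)
  WD : ∀ w, ∀ ξ ∈ Half, ∀ j, ∀ z ∈ Disc, S w (ξ, 0) = B.f j z →
    (ξ ∈ Diam ∧ j = lo w) ∨ (ξ ∈ Semi ∧ up w = .inl j) ∨
    (ξ ∈ oHalf ∧ Transv (B.f j) (fun x => S w (x, 0)) z ξ ∧
      ((∃ c, S w (ξ, 0) = S c (1, 0) ∨ S w (ξ, 0) = S c (-1, 0)) ∨ n ≤ ord w))
  DD : ∀ j j', j ≠ j' → ∀ z ∈ Disc, ∀ z' ∈ Disc, B.f j z = B.f j' z' →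
    ∃ c, B.f j z = S c (1, 0) ∨ B.f j z = S c (-1, 0)

end Pool.Agent.Lib.MP_1d0d1b_gt
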