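import Pool.Agent.Lib.MP_1d0d1b_gt.Knot1

open Set Function Filter Topology
open scoped ContDiff Real

noncomputable section

namespace Pool.Agent.Lib.MP_1d0d1b_gt

/-- The twisting angle along a core circle. -/
def knot2θ (t : ℝ) : ℝ :=
  2 * π * step (-1 / 40) (1 / 40) (Int.fract (t / (2 * π) + 1 / 2) - 1 / 2)

theorem knot2_tw (t : ℝ) : tw (t / (2 * π)) = circ (knot2θ t) := rfl

theorem knot2_at (k : ℤ) : knot2θ (k * (2 * π)) = π := by
  have h1 : (k : ℝ) * (2 * π) / (2 * π) = k := mul_div_cancel_right₀ _ (by positivity)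
  have h2 : Int.fract (1 / 2 : ℝ) = 1 / 2 := Int.fract_eq_self.2 (by norm_num)
  have h3 : step (-1 / 40) (1 / 40) 0 = 1 / 2 :=
    (step_eq_half_iff (by norm_num) _).2 (by norm_num)
  rw [knot2θ, h1, Int.fract_intCast_add, h2, sub_self, h3]
  ring

theorem knot2_cos {t : ℝ} (h : Real.cos (knot2θ t) = -1) : ∃ k : ℤ, t = k * (2 * π) := by
  obtain ⟨n, hn⟩ := Real.cos_eq_neg_one_iff.1 h
  have hπ : (0 : ℝ) < 2 * π := by positivity
  set s := step (-1 / 40) (1 / 40) (Int.fract (t / (2 * π) + 1 / 2) - 1 / 2) with hs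
  have h0 : 0 ≤ s := step_nonneg _ _ _
  have h1 : s ≤ 1 := step_le_one _ _ _
  have h2 : s = 1 / 2 + n := mul_left_cancel₀ hπ.ne' (by
    rw [show 2 * π * s = knot2θ t from rfl, ← hn]
    ring)
  have h3 : n = 0 := by
    have h4 : (-1 : ℝ) < n := by linarith
    have h5 : (n : ℝ) < 1 := by linarith
    have h6 : -1 < n := by exact_mod_cast h4
    have h7 : n < 1 := by exact_mod_cast h5
    omega
  rw [h3, Int.cast_zero, add_zero, hs, step_eq_half_iff (by norm_num), Int.fract] at h2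
  refine ⟨⌊t / (2 * π) + 1 / 2⌋, (div_eq_iff hπ.ne').1 ?_⟩
  linarith

theorem knot2_deriv (k : ℤ) : ∃ d : ℝ, d ≠ 0 ∧ HasDerivAt knot2θ d (k * (2 * π)) := by
  have hπ : (0 : ℝ) < 2 * π := by positivity
  have h1 : (k : ℝ) * (2 * π) / (2 * π) = k := mul_div_cancel_right₀ _ hπ.ne'
  have h2 : HasDerivAt (fun t : ℝ => t / (2 * π) - k) (1 / (2 * π)) (k * (2 * π)) :=
    ((hasDerivAt_id _).div_const _).sub_const _
  have h3 := step_hasDerivAt (-1 / 40) (1 / 40) (k * (2 * π) / (2 * π) - k)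
  have h4 : 0 < deriv (step (-1 / 40) (1 / 40)) (k * (2 * π) / (2 * π) - k) :=
    step_deriv_pos (by rw [h1]; norm_num) (by rw [h1]; norm_num)
  refine ⟨_, ?_, ((h3.comp (h := fun t : ℝ => t / (2 * π) - k) _ h2).const_mul
    (2 * π)).congr_of_eventuallyEq ?_⟩
  · positivity
  · have h5 : ∀ᶠ t : ℝ in 𝓝 (k * (2 * π)), t / (2 * π) - k ∈ Ioo (-1 / 2 : ℝ) (1 / 2) :=
      h2.continuousAt.eventually (isOpen_Ioo.mem_nhds (by
        simp only [h1, sub_self]
        norm_num))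
    filter_upwards [h5] with t ht
    have h6 : Int.fract (t / (2 * π) + 1 / 2) = t / (2 * π) - k + 1 / 2 :=
      Int.fract_eq_iff.2 ⟨by linarith [ht.1], by linarith [ht.2], k, by ring⟩
    rw [knot2θ, h6, add_sub_cancel_right]
    rfl

theorem knot2_sin {x : ℝ} (h : Real.sin (2 * π * (Real.sin x / 25)) = 0) : Real.sin x = 0 := by
  have h1 := Real.sin_le_one x
  have h2 := Real.neg_one_le_sin x
  have h3 := Real.pi_pos
  have h4 := (Real.sin_eq_zero_iff_of_lt_of_lt (by nlinarith) (by nlinarith)).1 h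
  rcases mul_eq_zero.1 h4 with h5 | h5 <;> linarith

theorem knot2_gen {c c' : ℝ → V3} (c0 : V3) (L : ℂ →L[ℝ] V3) (hL : Injective L)
    (ℓ : V3 →L[ℝ] ℝ) (h0 : ℓ c0 = 0) (h1 : ∀ z, ℓ (L z) = 0) (hc : ∀ t, c0 + L (circ t) = c t)
    (hd : Differentiable ℝ c') {ρ : ℝ × ℝ → ℝ} (hρ : Differentiable ℝ ρ)
    (hρ0 : ∀ t, ρ (t, Real.cos (knot2θ t)) ≠ 0)
    (h2 : ∀ t, ℓ (c' t) = ρ (t, Real.cos (knot2θ t)) *
      Real.sin (2 * π * (Real.sin (knot2θ t) / 25))) {κ : ℝ} (hκ : 0 < κ) (hκ1 : κ ≤ 1)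
    (h3 : ∀ t, Real.sin (knot2θ t) = 0 →
      c' t = c0 + L (((1 + κ * Real.cos (knot2θ t) : ℝ) : ℂ) * circ t)) : OddLinking c c' := by
  have hf : ∀ z, fderiv ℝ (fun z => c0 + L z) z = L := fun z =>
    (L.hasFDerivAt.const_add c0).fderiv
  have hk : ∀ z ∈ Disc, ∀ t, c0 + L z = c' t → ‖z‖ < 1 ∧ ∃ k : ℤ, t = k * (2 * π) := by
    intro z hz t e
    have e1 := h2 t
    rw [← e, map_add, h0, h1, add_zero] at e1
    have e2 := knot2_sin ((mul_eq_zero.1 e1.symm).resolve_left (hρ0 t))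
    have e3 := hL (add_left_cancel (e.trans (h3 t e2)))
    have e4 : ‖z‖ = |1 + κ * Real.cos (knot2θ t)| := by
      rw [e3, norm_mul, norm_circ, mul_one, Complex.norm_real, Real.norm_eq_abs]
    rcases Real.sin_eq_zero_iff_cos_eq.1 e2 with e5 | e5
    · have e6 : ‖z‖ ≤ 1 := hz
      rw [e4, e5, abs_of_pos (by linarith)] at e6
      linarith
    · refine ⟨?_, knot2_cos e5⟩
      rw [e4, e5, abs_of_nonneg (by linarith)]
      linarith
  refine ⟨fun z => c0 + L z, contDiff_const.add L.contDiff, fun z _ z' _ e =>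
    hL (add_left_cancel e), fun z _ => by rw [hf]; exact hL, hc, fun z hz t e => ?_, ?_⟩
  · obtain ⟨e1, k, rfl⟩ := hk z hz t e
    refine ⟨e1, ?_⟩
    rintro ⟨w, hw⟩
    rw [hf] at hw
    obtain ⟨d, hd0, hθ⟩ := knot2_deriv k
    have e2 : HasDerivAt (fun t => ℓ (c' t)) (ℓ (deriv c' (k * (2 * π)))) (k * (2 * π)) :=
      ℓ.hasFDerivAt.comp_hasDerivAt _ (hd _).hasDerivAt
    have e3 : DifferentiableAt ℝ (fun t => ρ (t, Real.cos (knot2θ t))) (k * (2 * π)) :=
      (hρ _).comp _ (differentiableAt_id.prodMk hθ.cos.differentiableAt)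
    have e4 := e3.hasDerivAt.mul ((hθ.sin.div_const 25).const_mul (2 * π)).sin
    rw [← hw, h1, funext h2] at e2
    have e5 := e2.unique e4
    have e6 := hρ0 (k * (2 * π))
    rw [knot2_at] at e5 e6
    simp [hd0, e6] at e5
    exact e6 (by simpa using e5)
  · have e : {t ∈ Ico (0 : ℝ) (2 * π) | c' t ∈ (fun z => c0 + L z) '' Disc} = {0} := by
      have hπ : (0 : ℝ) < 2 * π := by positivity
      refine eq_singleton_iff_unique_mem.2 ⟨⟨⟨le_rfl, hπ⟩, ?_⟩, ?_⟩
      · have e1 : knot2θ 0 = π := by simpa using knot2_at 0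
        refine ⟨_, ?_, (h3 0 (by rw [e1, Real.sin_pi])).symm⟩
        show ‖_‖ ≤ 1
        rw [norm_mul, norm_circ, mul_one, Complex.norm_real, Real.norm_eq_abs, e1, Real.cos_pi,
          abs_of_nonneg (by linarith)]
        linarith
      · rintro t ⟨ht, z, hz, e⟩
        obtain ⟨-, k, rfl⟩ := hk z hz t e
        have h4 : (0 : ℝ) ≤ k := nonneg_of_mul_nonneg_left ht.1 hπ
        have h5 : (k : ℝ) < 1 := lt_of_mul_lt_mul_right (by simpa using ht.2) hπ.le
        have h6 : 0 ≤ k := by exact_mod_cast h4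
        have h7 : k < 1 := by exact_mod_cast h5
        rw [show k = 0 by omega]
        simp
    rw [e, ncard_singleton]
    exact odd_one

theorem knot2_re (h x : ℝ) : ((⟨0, h / 25⟩ : ℂ) * circ x).re = -(h * (Real.sin x / 25)) := by
  rw [Complex.mul_re, circ_re, circ_im]
  ring

theorem knot2_im (h x : ℝ) : ((⟨0, h / 25⟩ : ℂ) * circ x).im = h * (Real.cos x / 25) := by
  rw [Complex.mul_im, circ_re, circ_im]
  ring

theorem knot2_u (t h : ℝ) : Φ ((t / (2 * π), 1 / 2), h) =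
    (((3 + (1 + h * (Real.cos (knot2θ t) / 25)) *
      Real.cos (2 * π * (h * (Real.sin (knot2θ t) / 25))) : ℝ) : ℂ) * circ t,
      (1 + h * (Real.cos (knot2θ t) / 25)) *
        Real.sin (2 * π * (h * (Real.sin (knot2θ t) / 25)))) := by
  have e := Φ_near_u (t / (2 * π)) (a := 0) (by norm_num) h
  have e1 : 2 * π * (t / (2 * π)) = t := mul_div_cancel₀ _ (by positivity)
  rw [add_zero] at e
  rw [e, knot2_tw, knot2_re, knot2_im, Φ0, e1, show 2 * π * (1 / 2 + -(h *
    (Real.sin (knot2θ t) / 25))) = π - 2 * π * (h * (Real.sin (knot2θ t) / 25)) by ring,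
    Real.cos_pi_sub, Real.sin_pi_sub, mul_neg, sub_neg_eq_add]

theorem knot2_v (t h : ℝ) : Φ ((1 / 2, t / (2 * π)), h) =
    (((3 - (1 + h * (Real.cos (knot2θ t) / 25)) * Real.cos t : ℝ) : ℂ) *
      circ (π - 2 * π * (h * (Real.sin (knot2θ t) / 25))),
      (1 + h * (Real.cos (knot2θ t) / 25)) * Real.sin t) := by
  have e := Φ_near_v (t / (2 * π)) (a := 0) (by norm_num) h
  have e1 : 2 * π * (t / (2 * π)) = t := mul_div_cancel₀ _ (by positivity)
  rw [add_zero] at e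
  rw [e, knot2_tw, knot2_re, knot2_im, Φ0, e1, show 2 * π * (1 / 2 + -(h *
    (Real.sin (knot2θ t) / 25))) = π - 2 * π * (h * (Real.sin (knot2θ t) / 25)) by ring]

theorem knot2_odd_u : OddLinking (fun t => Φ ((t / (2 * π), 1 / 2), 0))
    (fun t => Φ ((t / (2 * π), 1 / 2), 1)) := by
  refine knot2_gen 0 ((4 : ℝ) • ContinuousLinearMap.inl ℝ ℂ ℝ) (fun z z' e => ?_)
    (ContinuousLinearMap.snd ℝ ℂ ℝ) rfl (fun z => by simp) (fun t => ?_)
    ((Φ_smooth.differentiable (by simp)).comp (by fun_prop)) (ρ := fun q => 1 + q.2 / 25)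
    (by fun_prop) (fun t => ?_) (fun t => ?_) (κ := 1 / 100) (by norm_num) (by norm_num)
    fun t ht => ?_
  · simpa using e
  · rw [knot2_u]
    simp
    norm_num
  · have := Real.neg_one_le_cos (knot2θ t)
    exact ne_of_gt (by linarith)
  · rw [knot2_u]
    simp
  · rw [knot2_u, ht]
    simp
    ring

theorem knot2_odd_v : OddLinking (fun t => Φ ((1 / 2, t / (2 * π)), 0))
    (fun t => Φ ((1 / 2, t / (2 * π)), 1)) := by
  refine knot2_gen (-3, 0) ((Complex.ofRealCLM.comp Complex.reCLM).prod Complex.imCLM)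
    (fun z z' e => ?_) (Complex.imCLM.comp (ContinuousLinearMap.fst ℝ ℂ ℝ)) (by simp)
    (fun z => by simp) (fun t => ?_)
    ((Φ_smooth.differentiable (by simp)).comp (by fun_prop))
    (ρ := fun q => 3 - (1 + q.2 / 25) * Real.cos q.1)
    (by fun_prop) (fun t => ?_) (fun t => ?_) (κ := 1 / 25) (by norm_num) (by norm_num)
    fun t ht => ?_
  · simpa [Complex.ext_iff] using e
  · rw [knot2_v]
    simp [circ_pi, circ_re, circ_im]
    ring
  · have h1 := Real.neg_one_le_cos (knot2θ t)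
    have h2 := Real.cos_le_one (knot2θ t)
    have h3 := Real.cos_le_one t
    exact ne_of_gt (by nlinarith)
  · rw [knot2_v]
    simp only [ContinuousLinearMap.comp_apply, ContinuousLinearMap.coe_fst', Complex.imCLM_apply,
      Complex.im_ofReal_mul, circ_im, Real.sin_pi_sub, one_mul]
  · rw [knot2_v, ht]
    simp only [zero_div, mul_zero, sub_zero, circ_pi, ContinuousLinearMap.prod_apply,
      ContinuousLinearMap.comp_apply, Complex.reCLM_apply, Complex.imCLM_apply,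
      Complex.ofRealCLM_apply, Complex.im_ofReal_mul, Complex.re_ofReal_mul, circ_im, circ_re,
      Prod.mk_add_mk, Prod.mk.injEq]
    constructor
    · push_cast
      ring
    · ring

theorem arfOne_KK : ArfOne KK := ⟨seif, knot2_odd_u, knot2_odd_v⟩

end Pool.Agent.Lib.MP_1d0d1b_gt
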