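import Pool.Agent.Lib.MP_1d0d1b_gt.Phi

open Set Function Filter Topology
open scoped ContDiff Real

noncomputable section

namespace Pool.Agent.Lib.MP_1d0d1b_gt

theorem MM_apply (z : ℂ) : MM z = (-(2 / 5) * (z.re + z.im / 2), -(2 / 5) * (z.re - z.im / 2)) := by
  refine Prod.ext ?_ ?_ <;> simp [MM] <;> ring

theorem MM_MMi (p : ℝ × ℝ) : MM (MMi p) = p := by
  rw [MM_apply]
  refine Prod.ext ?_ ?_ <;> simp only [MMi] <;> ring

theorem MMi_MM (z : ℂ) : MMi (MM z) = z := by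
  rw [MM_apply]
  refine Complex.ext ?_ ?_ <;> simp only [MMi] <;> ring

theorem qf_MM (z : ℂ) : qf (MM z) = 16 / 100 * ‖z‖ ^ 2 := by
  rw [MM_apply, Complex.sq_norm, Complex.normSq_apply]
  simp only [qf]
  ring

theorem qf_eq (p : ℝ × ℝ) : qf p = 16 / 100 * ‖MMi p‖ ^ 2 := by
  rw [← qf_MM, MM_MMi]

theorem Knot1_MM_inj : Injective MM := fun z w h => by
  rw [← MMi_MM z, h, MMi_MM]

theorem Knot1_small {z : ℂ} (hz : ‖z‖ ≤ 11 / 10) : |(MM z).1| < 1 / 2 ∧ |(MM z).2| < 1 / 2 := by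
  have h1 : z.re ^ 2 + z.im ^ 2 ≤ (11 / 10) ^ 2 := by
    have h2 : ‖z‖ ^ 2 ≤ (11 / 10) ^ 2 := pow_le_pow_left₀ (norm_nonneg z) hz 2
    rw [Complex.sq_norm, Complex.normSq_apply] at h2
    nlinarith
  rw [MM_apply]
  constructor
  · refine abs_lt_of_sq_lt_sq ?_ (by norm_num)
    nlinarith [sq_nonneg (z.re - 2 * z.im)]
  · refine abs_lt_of_sq_lt_sq ?_ (by norm_num)
    nlinarith [sq_nonneg (z.re + 2 * z.im)]

theorem Knot1_smul (t n : ℝ) : (1 + n) • MM (circ t) = MM ((1 + n) • circ t) := by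
  rw [map_smul]

theorem Knot1_norm (t : ℝ) {n : ℝ} (hn : n ∈ Icc (-7 / 10 : ℝ) (1 / 10)) :
    ‖(1 + n) • circ t‖ = 1 + n := by
  rw [norm_smul, norm_circ, mul_one, Real.norm_eq_abs, abs_of_nonneg (by linarith [hn.1])]

theorem Knot1_small' (t : ℝ) {n : ℝ} (hn : n ∈ Icc (-7 / 10 : ℝ) (1 / 10)) :
    |((1 + n) • MM (circ t)).1| < 1 / 2 ∧ |((1 + n) • MM (circ t)).2| < 1 / 2 := by
  rw [Knot1_smul]
  exact Knot1_small (by rw [Knot1_norm t hn]; linarith [hn.2])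

theorem Knot1_mem_Dom (t : ℝ) {n : ℝ} (hn : n ∈ Icc (-7 / 10 : ℝ) (1 / 10)) :
    (1 + n) • MM (circ t) ∈ Dom := by
  have h := Knot1_small' t hn
  refine mem_Dom_of_qf ?_ (by linarith [h.1]) (by linarith [h.2])
  rw [Knot1_smul, qf_MM, Knot1_norm t hn]
  nlinarith [hn.1]

/-- Collar coordinates in model space. -/
def Knot1_G (q : ℝ × ℝ × ℝ) : (ℝ × ℝ) × ℝ := (MM ((1 + q.2.1) • circ q.1), q.2.2)

theorem Knot1_φt : φt = Φ ∘ Knot1_G := by
  funext q
  simp only [φt, Knot1_G, comp_apply, Knot1_smul]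

theorem Knot1_G_smooth : ContDiff ℝ ∞ Knot1_G := by
  have h1 : ContDiff ℝ ∞ fun q : ℝ × ℝ × ℝ => 1 + q.2.1 :=
    contDiff_const.add (contDiff_fst.comp contDiff_snd)
  have h2 : ContDiff ℝ ∞ fun q : ℝ × ℝ × ℝ => circ q.1 := circ_contDiff.comp contDiff_fst
  exact ContDiff.prodMk (MM.contDiff.comp (h1.smul h2)) (contDiff_snd.comp contDiff_snd)

theorem φt_smooth : ContDiff ℝ ∞ φt := by
  rw [Knot1_φt]
  exact Φ_smooth.comp Knot1_G_smooth

theorem φt_periodic (t n h : ℝ) (k : ℤ) : φt (t + k * (2 * π), n, h) = φt (t, n, h) := by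
  simp only [φt, circ_add_int]

theorem Knot1_G_fderiv (t n h : ℝ) (v : ℝ × ℝ × ℝ) :
    fderiv ℝ Knot1_G (t, n, h) v =
      (MM ((1 + n) • (v.1 • (Complex.I * circ t)) + v.2.1 • circ t), v.2.2) := by
  have h1 : HasFDerivAt (fun q : ℝ × ℝ × ℝ => circ q.1)
      ((ContinuousLinearMap.toSpanSingleton ℝ (Complex.I * circ t)).comp
        (ContinuousLinearMap.fst ℝ ℝ (ℝ × ℝ))) (t, n, h) :=
    HasFDerivAt.comp (g := circ) (f := Prod.fst) (t, n, h) (circ_hasDerivAt t).hasFDerivAt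
      hasFDerivAt_fst
  have h2 : HasFDerivAt (fun q : ℝ × ℝ × ℝ => 1 + q.2.1)
      ((ContinuousLinearMap.fst ℝ ℝ ℝ).comp (ContinuousLinearMap.snd ℝ ℝ (ℝ × ℝ))) (t, n, h) :=
    (hasFDerivAt_fst.comp (t, n, h) hasFDerivAt_snd).const_add 1
  have h3 : HasFDerivAt (fun q : ℝ × ℝ × ℝ => q.2.2)
      ((ContinuousLinearMap.snd ℝ ℝ ℝ).comp (ContinuousLinearMap.snd ℝ ℝ (ℝ × ℝ))) (t, n, h) :=
    hasFDerivAt_snd.comp (t, n, h) hasFDerivAt_snd
  have h4 := (MM.hasFDerivAt.comp (t, n, h) (h2.smul h1)).prodMk h3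
  have h5 : fderiv ℝ Knot1_G (t, n, h) = _ := h4.fderiv
  rw [h5]
  rfl

theorem Knot1_G_imm (t : ℝ) {n : ℝ} (h : ℝ) (hn : n ∈ Icc (-7 / 10 : ℝ) (1 / 10)) :
    Injective (fderiv ℝ Knot1_G (t, n, h)) := by
  rw [injective_iff_map_eq_zero]
  intro v hv
  rw [Knot1_G_fderiv, Prod.mk_eq_zero] at hv
  have h1 : (1 + n) • (v.1 • (Complex.I * circ t)) + v.2.1 • circ t = 0 :=
    Knot1_MM_inj (hv.1.trans (map_zero MM).symm)
  have hc : circ t ≠ 0 := by
    intro h0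
    have := norm_circ t
    rw [h0, norm_zero] at this
    exact zero_ne_one this
  have h2 : (((v.2.1 : ℝ) : ℂ) + (((1 + n) * v.1 : ℝ) : ℂ) * Complex.I) * circ t = 0 := by
    rw [← h1]
    simp only [Complex.real_smul]
    push_cast
    ring
  have h3 := (mul_eq_zero.mp h2).resolve_right hc
  have h4 := congrArg Complex.re h3
  have h5 := congrArg Complex.im h3
  simp only [Complex.add_re, Complex.add_im, Complex.mul_re, Complex.mul_im, Complex.ofReal_re,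
    Complex.ofReal_im, Complex.I_re, Complex.I_im, Complex.zero_re, Complex.zero_im, mul_zero,
    mul_one, zero_add, add_zero, sub_zero] at h4 h5
  have h6 : v.1 = 0 := (mul_eq_zero.mp h5).resolve_left (by linarith [hn.1])
  exact Prod.ext h6 (Prod.ext h4 hv.2)

theorem φt_imm (t : ℝ) {n h : ℝ} (hn : n ∈ Icc (-7 / 10 : ℝ) (1 / 10)) (hh : |h| ≤ 3) :
    Injective (fderiv ℝ φt (t, n, h)) := by
  rw [Knot1_φt, fderiv_comp _ (Φ_smooth.differentiable (by simp)).differentiableAt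
    (Knot1_G_smooth.differentiable (by simp)).differentiableAt, ContinuousLinearMap.coe_comp]
  refine Injective.comp ?_ (Knot1_G_imm t h hn)
  have hp := Knot1_mem_Dom t hn
  rw [Knot1_smul] at hp
  exact Φ_imm hp hh

theorem Knot1_int {x y : ℝ} {k : ℤ} (hx : |x| < 1 / 2) (hy : |y| < 1 / 2) (h : y = x + k) :
    k = 0 := by
  have h1 : |(k : ℝ)| < 1 := by
    rw [abs_lt] at hx hy ⊢
    constructor <;> linarith [hx.1, hx.2, hy.1, hy.2]
  have h2 : |k| < 1 := by exact_mod_cast h1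
  exact Int.abs_lt_one_iff.mp h2

theorem φt_inj {t n h t' n' h' : ℝ} (hn : n ∈ Icc (-7 / 10 : ℝ) (1 / 10)) (hh : |h| ≤ 3)
    (hn' : n' ∈ Icc (-7 / 10 : ℝ) (1 / 10)) (hh' : |h'| ≤ 3)
    (he : φt (t, n, h) = φt (t', n', h')) :
    n = n' ∧ h = h' ∧ ∃ k : ℤ, t' = t + k * (2 * π) := by
  obtain ⟨e1, k, l, e2⟩ := Φ_inj (Knot1_mem_Dom t hn) (Knot1_mem_Dom t' hn') hh hh' he
  have s := Knot1_small' t hn
  have s' := Knot1_small' t' hn'
  have hk : k = 0 := Knot1_int s.1 s'.1 (congrArg Prod.fst e2)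
  have hl : l = 0 := Knot1_int s.2 s'.2 (congrArg Prod.snd e2)
  subst hk hl
  rw [Int.cast_zero, Prod.mk_zero_zero, add_zero, Knot1_smul, Knot1_smul] at e2
  have e3 := Knot1_MM_inj e2
  have e4 : n = n' := by
    have := congrArg norm e3
    rw [Knot1_norm t hn, Knot1_norm t' hn'] at this
    linarith
  subst e4
  have e5 : circ t' = circ t := smul_right_injective ℂ (by linarith [hn.1] : 1 + n ≠ 0) e3
  exact ⟨rfl, e1, (circ_eq_iff t t').mp e5.symm⟩

theorem Knot1_KK (t : ℝ) : KK t = φt (t, 0, 0) := by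
  simp only [KK, φt, add_zero, one_smul]

theorem Knot1_zero_mem : (0 : ℝ) ∈ Icc (-7 / 10 : ℝ) (1 / 10) := by
  constructor <;> norm_num

theorem isKnot_KK : IsKnot KK := by
  have hK : KK = φt ∘ fun t : ℝ => (t, (0 : ℝ), (0 : ℝ)) := funext Knot1_KK
  refine ⟨fun _ => ?_, fun _ t => ?_, fun _ t => ?_, fun i j s t h => ⟨Subsingleton.elim _ _, ?_⟩⟩
  · rw [hK]
    exact φt_smooth.comp (contDiff_id.prodMk contDiff_const)
  · have := φt_periodic t 0 0 1
    rw [Int.cast_one, one_mul] at this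
    rw [Knot1_KK, Knot1_KK, this]
  · have h1 : HasDerivAt (fun t : ℝ => (t, (0 : ℝ), (0 : ℝ))) (1, 0, 0) t :=
      (hasDerivAt_id t).prodMk (hasDerivAt_const t _)
    have h2 := (φt_smooth.differentiable (by simp) (t, 0, 0)).hasFDerivAt.comp_hasDerivAt t h1
    rw [hK, h2.deriv]
    intro h0
    have := (injective_iff_map_eq_zero _).mp (φt_imm t Knot1_zero_mem (h := 0) (by simp)) _ h0
    simp at this
  · rw [Knot1_KK, Knot1_KK] at h
    exact (φt_inj Knot1_zero_mem (by simp) Knot1_zero_mem (by simp) h).2.2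

/-- The linear change of coordinates of the tubular neighbourhood. -/
def Knot1_L : ℝ × ℂ →L[ℝ] ℝ × ℝ × ℝ :=
  (ContinuousLinearMap.fst ℝ ℝ ℂ).prod
    (((1 / 10 : ℝ) • Complex.reCLM.comp (ContinuousLinearMap.snd ℝ ℝ ℂ)).prod
      ((2 : ℝ) • Complex.imCLM.comp (ContinuousLinearMap.snd ℝ ℝ ℂ)))

theorem Knot1_L_apply (q : ℝ × ℂ) : Knot1_L q = (q.1, q.2.re / 10, 2 * q.2.im) := by
  refine Prod.ext rfl (Prod.ext ?_ ?_)
  · simp [Knot1_L]
    ring
  · simp [Knot1_L]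

theorem Knot1_bounds {z : ℂ} (hz : z ∈ Disc) :
    z.re / 10 ∈ Icc (-7 / 10 : ℝ) (1 / 10) ∧ |2 * z.im| ≤ 3 := by
  have h1 := abs_le.mp ((Complex.abs_re_le_norm z).trans hz)
  have h2 := abs_le.mp ((Complex.abs_im_le_norm z).trans hz)
  refine ⟨⟨by linarith [h1.1], by linarith [h1.2]⟩, abs_le.mpr ⟨by linarith [h2.1], ?_⟩⟩
  linarith [h2.2]

theorem isTubular_φK : IsTubular KK φK := by
  have hK : φK = φt ∘ Knot1_L := funext fun q => by rw [comp_apply, Knot1_L_apply, φK]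
  refine ⟨?_, fun t z => ?_, fun t => ?_, fun t z hz => ?_, fun t t' z hz z' hz' h => ?_⟩
  · rw [hK]
    exact φt_smooth.comp Knot1_L.contDiff
  · have := φt_periodic t (z.re / 10) (2 * z.im) 1
    rw [Int.cast_one, one_mul] at this
    exact this
  · simp [φK, Knot1_KK]
  · rw [hK, fderiv_comp _ (φt_smooth.differentiable (by simp)).differentiableAt
      Knot1_L.differentiableAt, ContinuousLinearMap.coe_comp, Knot1_L.fderiv, Knot1_L_apply]
    refine Injective.comp (φt_imm t (Knot1_bounds hz).1 (Knot1_bounds hz).2) ?_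
    intro q q' e
    rw [Knot1_L_apply, Knot1_L_apply] at e
    simp only [Prod.mk.injEq] at e
    exact Prod.ext e.1 (Complex.ext (by linarith [e.2.1]) (by linarith [e.2.2]))
  · obtain ⟨e1, e2, e3⟩ := φt_inj (Knot1_bounds hz).1 (Knot1_bounds hz).2 (Knot1_bounds hz').1
      (Knot1_bounds hz').2 h
    exact ⟨Complex.ext (by linarith) (by linarith), e3⟩

theorem Surf_subset_Dom : Surf MM ⊆ Dom := by
  intro p hp
  set q : ℝ × ℝ := p - ((round p.1 : ℝ), (round p.2 : ℝ)) with hq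
  have e : p = q + ((round p.1 : ℝ), (round p.2 : ℝ)) := by rw [hq, sub_add_cancel]
  have h1 : 1 ≤ ‖MMi q‖ := by
    by_contra hlt
    exact hp (round p.1) (round p.2) (MMi q) (not_le.mp hlt) (by rw [MM_MMi]; exact e)
  have h2 : q ∈ Dom := by
    refine mem_Dom_of_qf ?_ ((abs_sub_round p.1).trans (by norm_num))
      ((abs_sub_round p.2).trans (by norm_num))
    rw [qf_eq]
    nlinarith
  rw [e]
  exact add_int_mem_Dom h2 _ _

theorem Knot1_abs {h : ℝ} (hh : h ∈ Icc (-1 : ℝ) 1) : |h| ≤ 3 :=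
  abs_le.mpr ⟨by linarith [hh.1], by linarith [hh.2]⟩

/-- The Seifert surface of the knot. -/
def seif : GenusOneSeifert KK where
  Φ := Φ
  M := MM
  M_inj := Knot1_MM_inj
  M_small := fun _ hz => Knot1_small (le_trans hz (by norm_num))
  smooth := Φ_smooth
  periodic := Φ_periodic
  immersion := fun _ hp _ hh => Φ_imm (Surf_subset_Dom hp) (Knot1_abs hh)
  inj := fun _ hp _ hh _ hp' _ hh' he =>
    Φ_inj (Surf_subset_Dom hp) (Surf_subset_Dom hp') (Knot1_abs hh) (Knot1_abs hh') he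
  bdry := fun _ => rfl

theorem untwisted_φK : Untwisted KK φK := by
  refine ⟨seif, ⟨0, 1 / 2⟩, ?_, fun t p hp he => ?_⟩
  · change ‖(⟨0, 1 / 2⟩ : ℂ)‖ ≤ 1
    refine (Complex.norm_le_abs_re_add_abs_im _).trans ?_
    norm_num [abs_of_pos]
  · have hn : ((0 : ℝ) / 10) ∈ Icc (-7 / 10 : ℝ) (1 / 10) := by
      constructor <;> norm_num
    have he' : Φ ((1 + (0 : ℝ) / 10) • MM (circ t), 2 * (1 / 2 : ℝ)) = Φ (p, 0) := he
    have := (Φ_inj (Knot1_mem_Dom t hn) (Surf_subset_Dom hp) (by norm_num [abs_of_pos])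
      (by simp) he').1
    norm_num at this

end Pool.Agent.Lib.MP_1d0d1b_gt
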