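import Pool.Agent.Lib.MP_1d0d1b_gt.Low1

open Set Function Filter Topology
open scoped ContDiff Real

noncomputable section

namespace Pool.Agent.Lib.MP_1d0d1b_gt

private theorem low2_sw (ty : Bool) (p : ℝ × ℝ) : sw ty (sw ty p) = p := by
  cases ty <;> simp [sw]

private theorem low2_oth (j : Fin 2) : ςj j * ςj (oth j) = -1 := by
  fin_cases j <;> simp [ςj, oth]

private theorem low2_cases (i j : Fin 2) : j = i ∨ j = oth i := by
  fin_cases i <;> fin_cases j <;> simp [oth]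

private theorem low2_qf (ty : Bool) (p : ℝ × ℝ) : qf (sw ty p) = qf p := by
  cases ty <;> simp only [sw, qf, if_true, Bool.false_eq_true, if_false]
  ring

private theorem low2_int {k : ℤ} {m : ℤ} (h1 : (m : ℝ) - 1 < k) (h2 : (k : ℝ) < m + 1) :
    (k : ℝ) = m := by
  have e1 : m - 1 < k := by exact_mod_cast h1
  have e2 : k < m + 1 := by exact_mod_cast h2
  have : k = m := by omega
  rw [this]

/-- A point of the other disc in slot coordinates. -/
private theorem low2_coord (a : Rt) {X y h τ : ℝ} (hp : (X, y) ∈ Dom) (hh : |h| ≤ 3) {z : ℂ}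
    (hz' : z ∈ Disc) (he : ((Φa a X y h, τ) : E4) = fD (oth a.1) z) :
    ∃ w ∈ Disc, hz w = -h ∧ Tz w = τ ∧ ∃ k l : ℤ,
      (sw a.2 (pz w)).1 = -X + k ∧ (sw a.2 (pz w)).2 = -y + l := by
  have hw : cj (oth a.1) z ∈ Disc := cj_mem.2 hz'
  set w := cj (oth a.1) z with hwd
  have e1 : Φa a X y h =
      Φa (oth a.1, a.2) (sw a.2 (pz w)).1 (sw a.2 (pz w)).2 (hz w) := by
    have := congrArg Prod.fst he
    simp only [fD] at this
    rw [this]
    simp only [Φa, Prod.mk.eta, low2_sw]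
    rfl
  have e2 : τ = Tz w := congrArg Prod.snd he
  have hm := hz_mem w
  obtain ⟨h1, k, l, h3⟩ := Φa_inj a (oth a.1, a.2) (X' := (sw a.2 (pz w)).1)
    (y' := (sw a.2 (pz w)).2) hp (sw_mem_Dom a.2 (pz_Dom hw)) hh
    (abs_le.2 ⟨by linarith [hm.1], by linarith [hm.2]⟩) e1
  have h2 : pz w = (ςj a.1 * ςj (oth a.1)) • sw a.2 (X, y) + ((k : ℝ), (l : ℝ)) :=
    (low2_sw a.2 (pz w)).symm.trans h3
  simp only [low2_oth] at h1 h2
  refine ⟨w, hw, by rw [h1]; ring, e2.symm, ?_⟩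
  rcases a with ⟨j, ty⟩
  cases ty
  · refine ⟨k, l, ?_, ?_⟩ <;> simp [h2, sw]
  · refine ⟨l, k, ?_, ?_⟩ <;> simp [h2, sw]

private theorem low2_mem (ty : Bool) {w : ℂ} (hw : w ∈ Disc) :
    (sw ty (pz w)).1 ∈ Icc (-69 / 100 : ℝ) (29 / 100) ∧
      (sw ty (pz w)).2 ∈ Icc (-69 / 100 : ℝ) (29 / 100) := by
  have := pz_mem hw
  cases ty
  · exact this
  · exact ⟨this.2, this.1⟩

theorem shape_notD (a : Rt) {X y h : ℝ} (hs : Shape a.2 X y h) {z : ℂ} (hz : z ∈ Disc) :
    ((Φa a X y h, 1) : E4) ≠ fD (oth a.1) z := by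
  intro he
  obtain ⟨hp, hh⟩ := hs.dom
  obtain ⟨w, hw, e1, e2, k, l, e3, e4⟩ := low2_coord a hp hh hz he
  obtain ⟨⟨m1, m2⟩, m3, m4⟩ := low2_mem a.2 hw
  rcases hs with ⟨rfl, Z, hX, hZ, n1, n2⟩ | ⟨rfl, hy, ρ, hρ, hZ⟩ | ⟨rfl, hy, -, g1, g2⟩
  · by_cases hin : X ∈ Icc (-6 / 10 : ℝ) (-3 / 100)
    · have r1 := abs_lt.1 (abs_re_lt_of_S1 (hX ▸ hin))
      have hn : ‖Z‖ ^ 2 = Z.re ^ 2 + Z.im ^ 2 := by
        rw [Complex.sq_norm, Complex.normSq_apply]
        ring
      have i1 : 15 / 100 < Z.im ^ 2 := by nlinarith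
      have i2 := abs_le.1 ((Complex.abs_im_le_norm Z).trans n2)
      have i3 : Z.im < -38 / 100 ∨ 38 / 100 < Z.im := by
        by_contra hc
        push Not at hc
        nlinarith [hc.1, hc.2]
      rcases onD_other a hin ⟨by norm_num, le_rfl⟩ hh hz he with ⟨c, -⟩ | ⟨c1, c2, -⟩ | ⟨c1, -, c3⟩
      · rcases c with c | c <;> rcases i3 with i3 | i3 <;> linarith [i2.1, i2.2]
      · have c2' := abs_lt.1 c2
        rcases i3 with i3 | i3
        · linarith [c2'.1]
        · rw [abs_of_nonpos (by linarith [i2.2])] at c1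
          linarith
      · have c1' := abs_le.1 c1
        have c4 : χh (-h) = 0 := by
          have : cT (!a.2) ≠ 0 := by unfold cT; split_ifs <;> norm_num
          have e : cT (!a.2) * χh (-h) = 0 := by linarith
          exact (mul_eq_zero.1 e).resolve_left this
        rcases (χh_eq_zero_iff _).1 c4 with c5 | c5 <;> rcases i3 with i3 | i3 <;>
          linarith [i2.1, i2.2, c1'.1]
    · have hl : (l : ℝ) = ((0 : ℤ) : ℝ) :=
        low2_int (by push_cast; linarith) (by push_cast; linarith)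
      have e5 : (sw a.2 (pz w)).2 = -31 / 100 := by rw [e4, hl]; norm_num
      have hq := (class_other hw a.2 (by rw [e5]; constructor <;> norm_num)).1
      rw [← low2_qf a.2, qf, e5] at hq
      have hS := S1_mem Z.re
      rw [← hX] at hS
      rcases not_and_or.1 hin with c | c
      · have c' := not_le.1 c
        have hk : (k : ℝ) = ((-1 : ℤ) : ℝ) :=
          low2_int (by push_cast; linarith [hS.1]) (by push_cast; linarith [hS.1])
        rw [e3, hk] at hq
        push_cast at hq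
        nlinarith [hS.1]
      · have c' := not_le.1 c
        have hk : (k : ℝ) = ((0 : ℤ) : ℝ) :=
          low2_int (by push_cast; linarith [hS.2]) (by push_cast; linarith [hS.2])
        rw [e3, hk] at hq
        push_cast at hq
        nlinarith [hS.2]
  · have hr : (-14 / 10 ≤ h ∧ h ≤ -65 / 100) ∨ (15 / 100 ≤ h ∧ h ≤ 4 / 10) := by
      obtain ⟨r1, r2⟩ := hρ
      rcases a with ⟨j, ty⟩
      cases ty
      · simp only [ρf, sg, Bool.false_eq_true, if_false] at r2 hZ
        left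
        constructor <;> linarith
      · simp only [ρf, sg, if_true] at r2 hZ
        right
        constructor <;> linarith
    rcases onD_other a ⟨by norm_num, by norm_num⟩ hy hh hz he with
      ⟨c, -⟩ | ⟨c1, c2, -⟩ | ⟨-, c2, -⟩
    · rcases c with c | c <;> rcases hr with hr | hr <;> linarith [hr.1, hr.2]
    · have c2' := abs_lt.1 c2
      rcases hr with hr | hr
      · linarith [c2'.1, hr.2]
      · rw [abs_of_nonpos (by linarith [hr.2])] at c1
        linarith [hr.1]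
    · rcases c2 with c2 | c2 <;> norm_num at c2
  · have g3 := abs_le.1 g2
    have hm := hz_mem w
    rcases a with ⟨j, ty⟩
    cases ty
    · simp only [sg, Bool.false_eq_true, if_false] at g1
      linarith [hm.2]
    · simp only [sg, if_true] at g1
      have hk : (k : ℝ) = ((-1 : ℤ) : ℝ) :=
        low2_int (by push_cast; linarith) (by push_cast; linarith)
      have e5 : (pz w).2 = -1 / 2 := by
        have : (sw true (pz w)).1 = (pz w).2 := rfl
        rw [← this, e3, hk]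
        norm_num
      have c1 : χX (pz w).2 = 1 := χX_eq_one (by rw [e5]; constructor <;> norm_num)
      have c2 : χh (Pool.Agent.Lib.MP_1d0d1b_gt.hz w) = 1 :=
        χh_eq_one (by rw [e1]; constructor <;> linarith [g3.2])
      have c3 := χX_mem (pz w).1
      have c4 := abs_le.1 (abs_Hs_le (bz w))
      rw [Tz, c1, c2] at e2
      nlinarith [c3.1, c3.2, c4.1, c4.2]

theorem core_onD (a : Rt) {ξ : ℂ} (h : ξ ∈ Diam ∪ Semi) {j : Fin 2} {z : ℂ} (hz : z ∈ Disc)
    (he : Fcore a (ξ, 0) = fD j z) : ξ ∈ Diam ∧ j = a.1 := by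
  have hj : j = a.1 := by
    obtain ⟨X, y, h', e, hs⟩ := core_shape a h
    refine (low2_cases a.1 j).resolve_right fun hj => shape_notD a hs hz ?_
    rw [← e, he, hj]
  refine ⟨?_, hj⟩
  rcases h with h | ⟨h1, h2⟩
  · exact h
  have hn : ‖(4 / 5 : ℂ) * ξ‖ = 4 / 5 := by
    rw [norm_mul, h1]
    norm_num
  have him : ((4 / 5 : ℂ) * ξ).im = 4 / 5 * ξ.im := by
    rw [show (4 / 5 : ℂ) = ((4 / 5 : ℝ) : ℂ) by push_cast; ring, Complex.im_ofReal_mul]
  have h0 : 0 ≤ ((4 / 5 : ℂ) * ξ).im := by rw [him]; positivity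
  have hρ : ρ0 ((4 / 5 : ℂ) * ξ) ≤ ρf a.2 := by
    rw [ρ0_eq (by rw [hn]; norm_num), hn]
    linarith [(ρf_mem a.2).1]
  have hy := abs_le.1 (abs_yw_sat_le a.2 h0 hρ)
  rw [Fcore_semi a h1, hj] at he
  have hh : |-1 / 4 - sg a.2 * (4 / 10)| ≤ 3 := by
    rcases sg_cases a.2 with e | e <;> rw [e] <;> norm_num [abs_le]
  have key := onD_same a ⟨by linarith [hy.1], by linarith [hy.2]⟩ hh hz he
  have : |yw a.2 ((4 / 5 : ℂ) * ξ)| = 1 / 100 := by
    rcases key with e | e
    · rw [show yw a.2 ((4 / 5 : ℂ) * ξ) = -(1 / 100) by linarith, abs_neg]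
      norm_num
    · rw [show yw a.2 ((4 / 5 : ℂ) * ξ) = 1 / 100 by linarith]
      norm_num
  have h3 := abs_yw_sat_eq a.2 h0 hρ this
  rw [him] at h3
  exact ⟨h1.le, by linarith⟩

theorem ghost_onD (a : Rt) {ζ : ℂ} (h : ‖ζ‖ = 1) {j : Fin 2} {z : ℂ} (hz : z ∈ Disc)
    (he : Gh a (ζ, 0) = fD j z) : j = a.1 := by
  obtain ⟨X, y, h', e, hs⟩ := ghost_shape a h
  refine (low2_cases a.1 j).resolve_right fun hj => shape_notD a hs hz ?_
  rw [← e, he, hj]

end Pool.Agent.Lib.MP_1d0d1b_gt
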