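import Pool.Agent.Lib.MP_1d0d1b_gt.Low1

open Set Function Filter Topology
open scoped ContDiff Real

noncomputable section

namespace Pool.Agent.Lib.MP_1d0d1b_gt

theorem OO_closed : IsClosed OO := by
  refine isClosed_iUnion_of_finite fun a => ?_
  have hc : Continuous fun q : ℝ × ℝ × ℝ => ((Φa a q.1 (3 / 10 + q.2.1) (-1 / 4 - sg a.2 * q.2.2),
      1 - cT a.2 * χh (-1 / 4 - sg a.2 * q.2.2)) : E4) := by
    have h1 := χh_contDiff.continuous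
    refine Continuous.prodMk ?_ (by fun_prop)
    exact (Φa_smooth a).continuous.comp (f := fun q : ℝ × ℝ × ℝ =>
      ((q.1, 3 / 10 + q.2.1, -1 / 4 - sg a.2 * q.2.2) : ℝ × ℝ × ℝ)) (by fun_prop)
  have hk := ((isCompact_Icc (a := (-58 / 100 : ℝ)) (b := -5 / 100)).prod
    ((isCompact_Icc (a := (-1 / 100 : ℝ)) (b := 1 / 100)).prod
      (isCompact_Icc (a := (-3 / 10 : ℝ)) (b := 4 / 10)))).image hc
  convert hk.isClosed using 1
  ext v
  constructor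
  · rintro ⟨X, hX, y, hy, ρ, hρ, rfl⟩
    exact ⟨(X, y, ρ), ⟨hX, hy, hρ⟩, rfl⟩
  · rintro ⟨⟨X, y, ρ⟩, ⟨hX, hy, hρ⟩, rfl⟩
    exact ⟨X, hX, y, hy, ρ, hρ, rfl⟩

private theorem Low3_cT (ty : Bool) : 1 / 3 ≤ cT ty ∧ cT ty ≤ 2 / 3 := by
  cases ty <;> norm_num [cT]

theorem OO_time {v : E4} (h : v ∈ OO) : v.2 ∈ Icc (1 / 3 : ℝ) 1 := by
  obtain ⟨a, X, -, y, -, ρ, -, rfl⟩ := mem_iUnion.1 h
  have h1 := χh_mem (-1 / 4 - sg a.2 * ρ)
  have h2 := Low3_cT a.2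
  constructor <;> dsimp only <;> nlinarith [h1.1, h1.2, h2.1, h2.2]

private theorem Low3_O {a : Rt} {w : V3} (h : ((w, 1) : E4) ∈ Oa a) :
    ∃ X ∈ Icc (-58 / 100 : ℝ) (-5 / 100), ∃ y ∈ Icc (29 / 100 : ℝ) (31 / 100),
      ∃ ρ ∈ Icc (35 / 100 : ℝ) (4 / 10), w = Φa a X y (-1 / 4 - sg a.2 * ρ) ∧ (X, y) ∈ Dom ∧
        |-1 / 4 - sg a.2 * ρ| ≤ 3 := by
  obtain ⟨X, hX, y, hy, ρ, hρ, he⟩ := h
  have h2 := Low3_cT a.2
  have e2 : (1 : ℝ) = 1 - cT a.2 * χh (-1 / 4 - sg a.2 * ρ) := congrArg Prod.snd he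
  have e3 : χh (-1 / 4 - sg a.2 * ρ) = 0 :=
    (mul_eq_zero.1 (by linarith : cT a.2 * χh (-1 / 4 - sg a.2 * ρ) = 0)).resolve_left
      (by linarith [h2.1])
  rw [χh_eq_zero_iff] at e3
  have hy0 : 0 < 3 / 10 + y := by linarith [hy.1]
  refine ⟨X, hX, 3 / 10 + y, ⟨by linarith [hy.1], by linarith [hy.2]⟩, ρ, ⟨?_, hρ.2⟩,
    congrArg Prod.fst he, mem_Dom_snd ?_ ?_, ?_⟩
  · rcases sg_cases a.2 with e | e <;> rw [e] at e3 <;> rcases e3 with e3 | e3 <;>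
      linarith [hρ.1, hρ.2]
  · dsimp only
    rw [abs_of_pos hy0]
    linarith [hy.1]
  · dsimp only
    rw [abs_of_pos hy0]
    linarith [hy.2]
  · rcases sg_cases a.2 with e | e <;> rw [e, abs_le] <;> constructor <;> linarith [hρ.1, hρ.2]

private theorem Low3_int (k : ℤ) : (k : ℝ) ≤ -1 ∨ (k : ℝ) = 0 ∨ (k : ℝ) = 1 ∨ 2 ≤ (k : ℝ) := by
  have : k ≤ -1 ∨ k = 0 ∨ k = 1 ∨ 2 ≤ k := by omega
  rcases this with h | h | h | h
  · exact .inl (by exact_mod_cast h)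
  · exact .inr (.inl (by exact_mod_cast h))
  · exact .inr (.inr (.inl (by exact_mod_cast h)))
  · exact .inr (.inr (.inr (by exact_mod_cast h)))

private theorem Low3_sq (Z : ℂ) : ‖Z‖ ^ 2 = Z.re ^ 2 + Z.im ^ 2 := by
  rw [Complex.sq_norm, Complex.normSq_apply]
  ring

private theorem Low3_A {ty : Bool} {X y h Y : ℝ} (hs : Shape ty X y h)
    (hY : Y ∈ Icc (29 / 100 : ℝ) (31 / 100)) (k : ℤ) : Y ≠ X + k := by
  intro e
  obtain ⟨h1, h2⟩ := hY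
  rcases hs with ⟨-, Z, rfl, -⟩ | ⟨rfl, -⟩ | ⟨rfl, -⟩
  · obtain ⟨h3, h4⟩ := S1_mem Z.re
    rcases Low3_int k with hk | hk | hk | hk <;> linarith
  · rcases Low3_int k with hk | hk | hk | hk <;> linarith
  · rcases Low3_int k with hk | hk | hk | hk <;> linarith

private theorem Low3_B {ty : Bool} {X y h Y ρ : ℝ} (hs : Shape ty X y h)
    (hY : Y ∈ Icc (29 / 100 : ℝ) (31 / 100)) (hρ : ρ ∈ Icc (35 / 100 : ℝ) (4 / 10))
    (hh : -1 / 4 - sg ty * ρ = -h) (k : ℤ) : Y ≠ -y + k := by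
  intro e
  obtain ⟨h1, h2⟩ := hY
  obtain ⟨h3, h4⟩ := hρ
  rcases hs with ⟨rfl, -⟩ | ⟨-, ⟨h5, h6⟩, -⟩ | ⟨-, -, -, h5, -⟩
  · rcases Low3_int k with hk | hk | hk | hk <;> linarith
  · rcases Low3_int k with hk | hk | hk | hk <;> linarith
  · rcases sg_cases ty with e | e <;> rw [e] at hh h5 <;> linarith

private theorem Low3_C {ty ty' : Bool} {X y h Y ρ : ℝ} (hs : Shape ty X y h)
    (hY : Y ∈ Icc (29 / 100 : ℝ) (31 / 100)) (hρ : ρ ∈ Icc (35 / 100 : ℝ) (4 / 10))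
    (hh : -1 / 4 - sg ty' * ρ = -h) (k : ℤ) : Y ≠ -X + k := by
  intro e
  obtain ⟨h1, h2⟩ := hY
  obtain ⟨h3, h4⟩ := hρ
  rcases hs with ⟨-, Z, rfl, rfl, h5, h6⟩ | ⟨rfl, -⟩ | ⟨rfl, -⟩
  · obtain ⟨h7, h8⟩ := S1_mem Z.re
    have h9 : S1 Z.re ∈ Icc (-6 / 10 : ℝ) (-3 / 100) := by
      rcases Low3_int k with hk | hk | hk | hk <;> constructor <;> linarith
    have h10 := abs_lt.1 (abs_re_lt_of_S1 h9)
    have h11 := Low3_sq Z
    have h12 := abs_le.1 (Complex.abs_im_le_norm Z)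
    rcases sg_cases ty' with e | e <;> rw [e] at hh
    · linarith [h12.2]
    · have h13 : Z.im = 1 / 2 - ρ := by linarith
      rw [h13] at h11
      nlinarith [h10.1, h10.2]
  · rcases Low3_int k with hk | hk | hk | hk <;> linarith
  · rcases Low3_int k with hk | hk | hk | hk <;> linarith

theorem shape_notO {a a' : Rt} (ha : a ≠ a') {X y h : ℝ} (hs : Shape a.2 X y h) :
    ((Φa a X y h, 1) : E4) ∉ Oa a' := by
  intro hO
  obtain ⟨X', hX, Y, hY, ρ, hρ, he, hd, hh⟩ := Low3_O hO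
  obtain ⟨e1, k, l, e2⟩ := Φa_inj a a' hs.dom.1 hd hs.dom.2 hh he
  obtain ⟨j, ty⟩ := a
  obtain ⟨j', ty'⟩ := a'
  dsimp only at e1 e2 hs
  by_cases hj : j = j'
  · subst hj
    have hς : ςj j * ςj j = 1 := by rcases ςj_cases j with e | e <;> rw [e] <;> norm_num
    rw [hς, one_smul] at e2
    cases ty <;> cases ty'
    · exact ha rfl
    · exact Low3_A hs hY k (by simpa [sw] using congrArg Prod.fst e2)
    · exact Low3_A hs hY l (by simpa [sw] using congrArg Prod.snd e2)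
    · exact ha rfl
  · have hς : ςj j * ςj j' = -1 := by
      fin_cases j <;> fin_cases j' <;> simp_all [ςj]
    rw [hς] at e1 e2
    rw [neg_one_mul] at e1
    cases ty <;> cases ty'
    · exact Low3_B hs hY hρ e1 l (by simpa [sw] using congrArg Prod.snd e2)
    · exact Low3_C hs hY hρ e1 k (by simpa [sw] using congrArg Prod.fst e2)
    · exact Low3_C hs hY hρ e1 l (by simpa [sw] using congrArg Prod.snd e2)
    · exact Low3_B hs hY hρ e1 k (by simpa [sw] using congrArg Prod.fst e2)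

private theorem Low3_D (a : Rt) {Z : ℂ} (hZ : ‖Z‖ ≤ 64 / 100)
    (hO : ((Φa a (S1 Z.re) (31 / 100) (-1 / 4 + Z.im), 1) : E4) ∈ Oa a) :
    ‖Z‖ ^ 2 < 17 / 100 ∧ |Z.im| ≤ 4 / 10 := by
  obtain ⟨X', hX, Y, hY, ρ, hρ, he, hd, hh⟩ := Low3_O hO
  have h12 := abs_le.1 (Complex.abs_im_le_norm Z)
  obtain ⟨e1, k, l, e2, -⟩ := Φa_inj_same a (mem_Dom_snd (by norm_num [abs_of_pos])
    (by norm_num [abs_of_pos])) hd (by rw [abs_le]; constructor <;> linarith [h12.1, h12.2]) hh he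
  obtain ⟨h7, h8⟩ := S1_mem Z.re
  have h9 : S1 Z.re ∈ Icc (-6 / 10 : ℝ) (-3 / 100) := by
    rcases Low3_int k with hk | hk | hk | hk <;> constructor <;> linarith [hX.1, hX.2]
  have h10 := abs_lt.1 (abs_re_lt_of_S1 h9)
  have h13 : |Z.im| ≤ 4 / 10 := by
    rcases sg_cases a.2 with e | e <;> rw [e] at e1 <;> rw [abs_le] <;> constructor <;>
      linarith [hρ.1, hρ.2]
  refine ⟨?_, h13⟩
  rw [abs_le] at h13
  rw [Low3_sq]
  nlinarith [h10.1, h10.2, h13.1, h13.2]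

theorem core_O (a : Rt) {ξ : ℂ} (h : ξ ∈ Diam ∪ Semi) (hO : Fcore a (ξ, 0) ∈ OO) : ‖ξ‖ = 1 := by
  obtain ⟨a', hO⟩ := mem_iUnion.1 hO
  by_cases ha : a = a'
  swap
  · obtain ⟨X, y, hh, e, hs⟩ := core_shape a h
    exact absurd (e ▸ hO) (shape_notO ha hs)
  subst ha
  rcases h with h | h
  swap
  · exact h.1
  obtain ⟨e0, hx⟩ := Diam_eq h
  rw [e0] at hO ⊢
  generalize ξ.re = x at hO hx
  rw [Complex.norm_real, Real.norm_eq_abs]
  refine le_antisymm hx ?_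
  obtain ⟨X, y, hh, e, -, -, hc⟩ := Fcore_diam a hx
  rw [e] at hO
  have hD : ∀ y : ℝ, ((-1 / 2 : ℝ), y) ∈ Dom := fun y =>
    mem_Dom_fst (by norm_num [abs_of_neg]) (by norm_num [abs_of_neg])
  rcases hc with ⟨rfl, Z, rfl, rfl, h1, h2, h3⟩ | ⟨rfl, -, rfl, h1, -⟩ | ⟨rfl, -, h1, h2⟩
  · rw [show (3 / 10 + 1 / 100 : ℝ) = 31 / 100 by norm_num] at hO
    obtain ⟨h4, h5⟩ := Low3_D a h2 hO
    have h6 := congrArg Complex.im (h3 (by nlinarith [norm_nonneg Z]))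
    have h7 : |Z.im| = ‖Z‖ := by
      rw [h6]
      rcases sg_cases a.2 with e | e <;> simp [e]
    linarith [le_abs_self x]
  · obtain ⟨X', hX, Y, hY, ρ, hρ, he, hd, hh⟩ := Low3_O hO
    have h2 := (ρf_mem a.2).2
    obtain ⟨e1, -⟩ := Φa_inj_same a (hD _) hd (by
      rcases sg_cases a.2 with e | e <;> rw [e, abs_le] <;> constructor <;> linarith) hh he
    rcases sg_cases a.2 with e | e <;> rw [e] at e1 <;> linarith [hρ.2]
  · obtain ⟨X', hX, Y, hY, ρ, hρ, he, hd, hh'⟩ := Low3_O hO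
    rw [abs_le] at h2
    obtain ⟨e1, -⟩ := Φa_inj_same a (hD _) hd
      (by rw [abs_le]; constructor <;> linarith [h2.1, h2.2]) hh' he
    rcases sg_cases a.2 with e | e <;> rw [e] at e1 h1 <;> linarith [hρ.2]

theorem ghost_O (a : Rt) {ζ : ℂ} (h : ‖ζ‖ = 1) : Gh a (ζ, 0) ∉ OO := by
  intro hO
  obtain ⟨a', hO⟩ := mem_iUnion.1 hO
  by_cases ha : a = a'
  · subst ha
    obtain ⟨Z, h1, -, e⟩ := Gh_circ a h
    have := (Low3_D a (by rw [h1]; norm_num) (e ▸ hO)).1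
    rw [h1] at this
    norm_num at this
  · obtain ⟨X, y, hh, e, hs⟩ := ghost_shape a h
    exact shape_notO ha hs (e ▸ hO)

end Pool.Agent.Lib.MP_1d0d1b_gt
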