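import Pool.Agent.Lib.MP_1d0d1b_gt.WBot

open Set Function Filter Topology
open scoped ContDiff Real

noncomputable section

namespace Pool.Agent.Lib.MP_1d0d1b_gt

private lemma WInj_ρ0_ge {ζ : ℂ} (h : ‖ζ‖ ≤ 4 / 5) : 4 / 10 ≤ ρ0 ζ := by
  have h1 := nr_mono h
  rw [nr_eq (r := 4 / 5) (by norm_num)] at h1
  unfold ρ0 ρn nn
  linarith

private lemma WInj_ρ0_gt {ζ : ℂ} (h : ‖ζ‖ < 4 / 5) : 4 / 10 < ρ0 ζ := by
  by_cases h1 : 21 / 100 ≤ ‖ζ‖
  · rw [ρ0_eq h1]; linarith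
  · have h2 := nr_le (le_of_lt (not_le.mp h1))
    unfold ρ0 ρn nn
    linarith

private lemma WInj_ρ1 (ty : Bool) {ζ : ℂ} (h : ‖ζ‖ ≤ 4 / 5) : ρ1 ty 0 ζ = ρ0 ζ := by
  apply ρ1_eq
  have h1 := ρab ty
  have h2 := WInj_ρ0_ge h
  linarith [h1.2.1, h1.2.2]

private lemma WInj_bW {ζ : ℂ} (h : 0 ≤ ζ.im) : bW ζ = 1 := by
  apply bW_eq_one
  have h1 := Complex.im_le_norm (ζ + Complex.I / 10)
  have h2 : (ζ + Complex.I / 10).im = ζ.im + 1 / 10 := by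
    simp
  linarith

private lemma WInj_Tw (a : Rt) {ζ : ℂ} (h : ‖ζ‖ ≤ 4 / 5) :
    Tw a 0 ζ = 1 + step (4 / 10) (ρf a.2 + 2 / 100) (ρ0 ζ) * uw a.2 ζ := by
  unfold Tw
  rw [WInj_ρ1 a.2 h]
  have h2 := WInj_ρ0_ge h
  have h3 : χh (-1 / 4 - sg a.2 * ρ0 ζ) = 0 := by
    rw [χh_eq_zero_iff]
    rcases sg_cases a.2 with h4 | h4 <;> rw [h4]
    · left; linarith
    · right; linarith
  rw [h3]
  ring

private lemma WInj_scale {ξ : ℂ} (_h : ξ ∈ Half) :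
    ‖(4 / 5 : ℂ) * ξ‖ = 4 / 5 * ‖ξ‖ ∧ ((4 / 5 : ℂ) * ξ).im = 4 / 5 * ξ.im := by
  constructor
  · rw [norm_mul]
    congr 1
    simp
  · have : (4 / 5 : ℂ) = ((4 / 5 : ℝ) : ℂ) := by push_cast; ring
    rw [this, Complex.im_ofReal_mul]

private lemma WInj_scale' {ξ : ℂ} (h : ξ ∈ Half) :
    ‖(4 / 5 : ℂ) * ξ‖ ≤ 4 / 5 ∧ 0 ≤ ((4 / 5 : ℂ) * ξ).im := by
  obtain ⟨h1, h2⟩ := WInj_scale h
  obtain ⟨h3, h4⟩ := h
  rw [h1, h2]
  constructor <;> linarith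

theorem Fcore_time (a : Rt) {ξ : ℂ} (h : ξ ∈ Half) (l : ℝ) : (Fcore a (ξ, l)).2 =
    1 + step (4 / 10) (ρf a.2 + 2 / 100) (ρ0 ((4 / 5 : ℂ) * ξ)) * uw a.2 ((4 / 5 : ℂ) * ξ) := by
  obtain ⟨h1, h2⟩ := WInj_scale' h
  unfold Fcore Wf
  simp only [WInj_bW h2, one_smul]
  exact WInj_Tw a h1

theorem Fcore_time_gt (a : Rt) {ξ : ℂ} (h : ξ ∈ oHalf) : 1 < (Fcore a (ξ, 0)).2 := by
  have hH := oHalf_subset h
  rw [Fcore_time a hH]
  obtain ⟨h1, h2⟩ := WInj_scale hH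
  obtain ⟨h3, h4⟩ := h
  have h5 : ‖(4 / 5 : ℂ) * ξ‖ < 4 / 5 := by rw [h1]; linarith
  have h6 : 0 < ((4 / 5 : ℂ) * ξ).im := by rw [h2]; linarith
  have h7 := ρf_mem a.2
  have h8 : 0 < step (4 / 10) (ρf a.2 + 2 / 100) (ρ0 ((4 / 5 : ℂ) * ξ)) :=
    step_pos (by linarith [h7.1]) (WInj_ρ0_gt h5)
  have h9 : 0 < uw a.2 ((4 / 5 : ℂ) * ξ) := by
    refine lt_of_le_of_ne (uw_mem a.2 h6.le).1 ?_
    intro h0
    exact h6.ne' ((uw_eq_zero_iff a.2 h6.le).1 h0.symm)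
  have := mul_pos h8 h9
  linarith

theorem Fcore_time_eq (a : Rt) {ξ : ℂ} (h : ξ ∈ Diam ∪ Semi) : (Fcore a (ξ, 0)).2 = 1 := by
  rcases h with h | h
  · have hH := Diam_subset h
    rw [Fcore_time a hH]
    obtain ⟨_, h2⟩ := WInj_scale hH
    have h3 : ((4 / 5 : ℂ) * ξ).im = 0 := by rw [h2, h.2]; ring
    rw [(uw_eq_zero_iff a.2 h3.ge).2 h3]
    ring
  · have hH := Semi_subset h
    rw [Fcore_time a hH]
    obtain ⟨h1, _⟩ := WInj_scale hH
    have h3 : ‖(4 / 5 : ℂ) * ξ‖ = 4 / 5 := by rw [h1, h.1]; ring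
    have h7 := ρf_mem a.2
    rw [ρ0_eq (by rw [h3]; norm_num), h3, step_of_le (by linarith [h7.1]) (by norm_num)]
    ring

/-- The wall coordinate at framing parameter zero. -/
private def WInj_Z (a : Rt) (ζ : ℂ) : ℂ :=
  -Complex.I * ((sg a.2 * ρ0 ζ : ℝ) : ℂ) *
    (1 + (χw a.2 ζ : ℂ) * (circ (-2 * π * ςj a.1 * step (5 / 10) (6 / 10) (ρ0 ζ)) - 1))

private def WInj_X (a : Rt) (ζ : ℂ) : ℝ :=
  (1 - νκ (ρ0 ζ)) * (-1 / 2) + νκ (ρ0 ζ) * S1 (WInj_Z a ζ).re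

private def WInj_h (a : Rt) (ζ : ℂ) : ℝ :=
  (1 - νκ (ρ0 ζ)) *
      ((1 - step (2 / 10) (3 / 10) (uw a.2 ζ)) * (-1 / 2 + Hs (1 / 4 - sg a.2 * ρ0 ζ))) +
    νκ (ρ0 ζ) * (-1 / 4 + (WInj_Z a ζ).im)

private lemma WInj_Zw (a : Rt) {ζ : ℂ} (h : ‖ζ‖ ≤ 4 / 5) : Zw a 0 ζ 0 = WInj_Z a ζ := by
  unfold Zw WInj_Z ϑw
  rw [WInj_ρ1 a.2 h]
  have : Cay ((sg a.2 * 0 : ℝ) : ℂ) = 1 := by
    simp [Cay]
  rw [this]
  simp

private lemma WInj_Xw (a : Rt) {ζ : ℂ} (h : ‖ζ‖ ≤ 4 / 5) :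
    Xw a (fun _ => -1 / 2) 0 ζ 0 0 = WInj_X a ζ := by
  unfold Xw WInj_X
  rw [WInj_ρ1 a.2 h, WInj_Zw a h]
  have h1 := ρab a.2
  have h2 := WInj_ρ0_ge h
  rw [step_of_ge h1.2.1 (by linarith [h1.2.2])]
  ring

private lemma WInj_hw (a : Rt) {ζ : ℂ} (h : ‖ζ‖ ≤ 4 / 5) : hw a 0 ζ 0 = WInj_h a ζ := by
  unfold hw WInj_h
  rw [WInj_ρ1 a.2 h, WInj_Zw a h]
  ring

private lemma WInj_space (a : Rt) {ζ : ℂ} (h : ‖ζ‖ ≤ 4 / 5) (h0 : 0 ≤ ζ.im) :
    (Wf a (fun _ => -1 / 2) 0 ζ 0 0).1 =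
      (1 - step (55 / 100) (65 / 100) (uw a.2 ζ)) •
        Φa a (WInj_X a ζ) (3 / 10 + yw a.2 ζ) (WInj_h a ζ) +
      step (55 / 100) (65 / 100) (uw a.2 ζ) • deep a ζ 0 := by
  unfold Wf
  simp only [WInj_bW h0, one_smul, WInj_Xw a h, WInj_hw a h]

private lemma WInj_νκ_mem (ρ : ℝ) : νκ ρ ∈ Icc (0 : ℝ) 1 := by
  unfold νκ
  have h1 := step_nonneg (625 / 1000) (64 / 100) ρ
  have h2 := step_le_one (625 / 1000) (64 / 100) ρ
  constructor <;> linarith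

private lemma WInj_νκ_zero {ρ : ℝ} (h : 64 / 100 ≤ ρ) : νκ ρ = 0 := by
  unfold νκ
  rw [step_of_ge (by norm_num) h]
  ring

private lemma WInj_νκ_one {ρ : ℝ} (h : ρ ≤ 625 / 1000) : νκ ρ = 1 := by
  unfold νκ
  rw [step_of_le (by norm_num) h]
  ring

private lemma WInj_norm_pre (ty : Bool) {ρ : ℝ} (h : 0 ≤ ρ) :
    ‖-Complex.I * ((sg ty * ρ : ℝ) : ℂ)‖ = ρ := by
  rw [norm_mul, norm_neg, Complex.norm_I, one_mul, Complex.norm_real, Real.norm_eq_abs]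
  rcases sg_cases ty with h4 | h4 <;> rw [h4]
  · rw [one_mul, abs_of_nonneg h]
  · rw [neg_one_mul, abs_neg, abs_of_nonneg h]

private lemma WInj_Z_le (a : Rt) {ζ : ℂ} (h : ‖ζ‖ ≤ 4 / 5) : ‖WInj_Z a ζ‖ ≤ ρ0 ζ := by
  have h2 := WInj_ρ0_ge h
  unfold WInj_Z
  rw [norm_mul, WInj_norm_pre a.2 (by linarith)]
  set c := circ (-2 * π * ςj a.1 * step (5 / 10) (6 / 10) (ρ0 ζ)) with hc
  have hn : ‖c‖ = 1 := norm_circ _
  have h3 : 0 ≤ χw a.2 ζ := step_nonneg _ _ _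
  have h4 : χw a.2 ζ ≤ 1 := step_le_one _ _ _
  have h5 : (1 + (χw a.2 ζ : ℂ) * (c - 1)) = ((1 - χw a.2 ζ : ℝ) : ℂ) + (χw a.2 ζ : ℂ) * c := by
    push_cast; ring
  have h6 : ‖(1 + (χw a.2 ζ : ℂ) * (c - 1))‖ ≤ 1 := by
    rw [h5]
    refine (norm_add_le _ _).trans ?_
    rw [norm_mul, hn, Complex.norm_real, Complex.norm_real, Real.norm_eq_abs, Real.norm_eq_abs,
      abs_of_nonneg (by linarith), abs_of_nonneg h3]
    linarith
  nlinarith [norm_nonneg (1 + (χw a.2 ζ : ℂ) * (c - 1))]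

private lemma WInj_X_mem (a : Rt) (ζ : ℂ) : WInj_X a ζ ∈ Ioo (-66 / 100 : ℝ) (14 / 100) := by
  unfold WInj_X
  obtain ⟨h1, h2⟩ := WInj_νκ_mem (ρ0 ζ)
  obtain ⟨h3, h4⟩ := S1_mem (WInj_Z a ζ).re
  constructor <;> nlinarith

private lemma WInj_dom (a : Rt) {ζ : ℂ} (h : ‖ζ‖ ≤ 4 / 5) :
    (WInj_X a ζ, 3 / 10 + yw a.2 ζ) ∈ Dom ∧ |WInj_h a ζ| ≤ 3 := by
  have hf := ρf_mem a.2
  have hH := abs_le.1 (abs_Hs_le (1 / 4 - sg a.2 * ρ0 ζ))
  have s1 := step_nonneg (2 / 10) (3 / 10) (uw a.2 ζ)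
  have s2 := step_le_one (2 / 10) (3 / 10) (uw a.2 ζ)
  have hA : |(1 - step (2 / 10) (3 / 10) (uw a.2 ζ)) *
      (-1 / 2 + Hs (1 / 4 - sg a.2 * ρ0 ζ))| ≤ 3 / 2 := by
    rw [abs_le]
    constructor <;> nlinarith [hH.1, hH.2]
  by_cases hρ : 64 / 100 ≤ ρ0 ζ
  · constructor
    · apply mem_Dom_fst
      · simp only [WInj_X, WInj_νκ_zero hρ]
        rw [abs_of_nonpos (by norm_num)]; norm_num
      · simp only [WInj_X, WInj_νκ_zero hρ]
        rw [abs_of_nonpos (by norm_num)]; norm_num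
    · simp only [WInj_h, WInj_νκ_zero hρ]
      rw [sub_zero, one_mul, zero_mul, add_zero]
      linarith
  · have hy := abs_lt.1 (abs_yw_sat a.2 (ξ := ζ) (by linarith [hf.1]))
    constructor
    · apply mem_Dom_snd
      · simp only
        rw [abs_of_nonneg (by linarith [hy.1])]; linarith [hy.1]
      · simp only
        rw [abs_of_nonneg (by linarith [hy.1])]; linarith [hy.2]
    · have h1 := WInj_Z_le a h
      have h2 := abs_le.1 ((Complex.abs_im_le_norm (WInj_Z a ζ)).trans h1)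
      obtain ⟨h3, h4⟩ := WInj_νκ_mem (ρ0 ζ)
      have h5 := abs_le.1 hA
      unfold WInj_h
      rw [abs_le]
      constructor <;> nlinarith [h2.1, h2.2, h5.1, h5.2]

private lemma WInj_L3 (ty : Bool) {ζ ζ' : ℂ} (he : ξt ty ζ = ξt ty ζ') (hn : ‖ζ‖ = ‖ζ'‖) :
    ζ = ζ' := by
  unfold ξt nn at he
  rw [hn] at he
  have h1 : 0 < γn ty (nr ‖ζ'‖) := γn_pos ty (nr_ge _)
  exact mul_left_cancel₀ (Complex.ofReal_ne_zero.2 h1.ne') he

private lemma WInj_L2 (ty : Bool) {ζ ζ' : ℂ} (he : ξt ty ζ = ξt ty ζ') (hn : ‖ζ‖ ≤ ‖ζ'‖)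
    (hρ : ρf ty < ρ0 ζ) : ζ = ζ' := by
  apply WInj_L3 ty he
  rcases hn.lt_or_eq with h | h
  · have h1 := ϱw_strict ty h hρ
    rw [← norm_ξt, ← norm_ξt, he] at h1
    exact absurd h1 (lt_irrefl _)
  · exact h

private lemma WInj_norm_ω (ty : Bool) {ζ ζ' : ℂ} (hu : uw ty ζ = uw ty ζ') :
    ‖ωw ty ζ‖ = ‖ωw ty ζ'‖ := by
  unfold uw at hu
  have h1 : ‖ωw ty ζ‖ ^ 2 = ‖ωw ty ζ'‖ ^ 2 := by linarith
  exact (sq_eq_sq₀ (norm_nonneg _) (norm_nonneg _)).1 h1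

private lemma WInj_L1 (ty : Bool) {ζ ζ' : ℂ} (h0 : 0 ≤ ζ.im) (h0' : 0 ≤ ζ'.im)
    (hu : uw ty ζ = uw ty ζ') (hy : yw ty ζ = yw ty ζ') : ξt ty ζ = ξt ty ζ' := by
  apply ωw_inj ty h0 h0'
  have hc := cu_mem (uw_mem ty h0').1
  have hm := corr_strictMono (c := cu (uw ty ζ')) (by
    rw [abs_of_nonneg hc.1]; linarith [hc.2])
  have h1 : y0 ty ζ = y0 ty ζ' := by
    apply hm.injective
    unfold yw at hy
    rw [hu] at hy
    exact hy
  rw [ωw_polar ty ζ, ωw_polar ty ζ', h1, WInj_norm_ω ty hu]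

private lemma WInj_lin_smul (a : Rt) (c : ℝ) (z : ℂ) : lin a ((c : ℂ) * z) = c • lin a z := by
  unfold lin
  rw [Complex.re_ofReal_mul, Complex.im_ofReal_mul, smul_add, smul_smul, smul_smul]

private lemma WInj_lin_inj (a : Rt) {z z' : ℂ} (h : lin a z = lin a z') : z = z' := by
  have h1 : (z.re - z'.re) • e1 a + (z.im - z'.im) • e2 a + (0 : ℝ) • e3 a = 0 := by
    unfold lin at h
    rw [sub_smul, sub_smul, zero_smul, add_zero]
    have := sub_eq_zero.2 h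
    rw [← this]
    abel
  obtain ⟨h2, h3, _⟩ := frame_indep a h1
  apply Complex.ext <;> linarith

private lemma WInj_big (ty : Bool) {ζ : ℂ} (hu : 1 / 5 ≤ uw ty ζ) : ρf ty + 2 / 100 < ρ0 ζ := by
  by_contra hc
  have := abs_lt.1 (uw_small ty (not_lt.1 hc))
  linarith [this.2]

/-- The spatial part in the deep zone. -/
private lemma WInj_deep (a : Rt) {ζ : ℂ} (h : ‖ζ‖ ≤ 4 / 5) (h0 : 0 ≤ ζ.im)
    (hu : 3 / 10 ≤ uw a.2 ζ) (hω : ωw a.2 ζ ≠ 0) :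
    (Wf a (fun _ => -1 / 2) 0 ζ 0 0).1 = c0 a +
      ((1 - step (55 / 100) (65 / 100) (uw a.2 ζ)) / ‖ωw a.2 ζ‖ +
        step (55 / 100) (65 / 100) (uw a.2 ζ) *
          ((1 - step (7 / 10) (8 / 10) (uw a.2 ζ)) / ‖ωw a.2 ζ‖ +
            2 * step (7 / 10) (8 / 10) (uw a.2 ζ))) •
        lin a (circ (6 / 10 * π) * (starRingEnd ℂ) (ωw a.2 ζ)) := by
  rw [WInj_space a h h0]
  have hf := ρf_mem a.2
  have hρ := WInj_big a.2 (ζ := ζ) (by linarith)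
  have hν : νκ (ρ0 ζ) = 0 := WInj_νκ_zero (by linarith [hf.1])
  have hX : WInj_X a ζ = -1 / 2 := by
    unfold WInj_X; rw [hν]; ring
  have hh : WInj_h a ζ = 0 := by
    unfold WInj_h; rw [hν, step_of_ge (by norm_num) hu]; ring
  have hR : ‖ωw a.2 ζ‖ ≠ 0 := norm_ne_zero_iff.2 hω
  have hc : circ (2 * π * (3 / 10 + yw a.2 ζ)) =
      ((‖ωw a.2 ζ‖⁻¹ : ℝ) : ℂ) * (circ (6 / 10 * π) * (starRingEnd ℂ) (ωw a.2 ζ)) := by
    rw [← circ_yw a.2 hu, ← mul_assoc, ← Complex.ofReal_mul, inv_mul_cancel₀ hR]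
    simp
  rw [hX, hh, Φa_core, hc, WInj_lin_smul]
  unfold deep
  module

private lemma WInj_caseA (a : Rt) {ζ ζ' : ℂ} (h : ‖ζ‖ ≤ 4 / 5) (h0 : 0 ≤ ζ.im)
    (h' : ‖ζ'‖ ≤ 4 / 5) (h0' : 0 ≤ ζ'.im) (hu : 3 / 10 ≤ uw a.2 ζ) (he : uw a.2 ζ = uw a.2 ζ')
    (hs : (Wf a (fun _ => -1 / 2) 0 ζ 0 0).1 = (Wf a (fun _ => -1 / 2) 0 ζ' 0 0).1) :
    ξt a.2 ζ = ξt a.2 ζ' := by
  apply ωw_inj a.2 h0 h0'
  have hn := WInj_norm_ω a.2 he
  by_cases hω : ωw a.2 ζ = 0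
  · rw [hω, norm_zero] at hn
    rw [hω, norm_eq_zero.1 hn.symm]
  · have hω' : ωw a.2 ζ' ≠ 0 := by
      intro hc
      rw [hc, norm_zero] at hn
      exact hω (norm_eq_zero.1 hn)
    rw [WInj_deep a h h0 hu hω, WInj_deep a h' h0' (he ▸ hu) hω', ← he, ← hn] at hs
    have hR : 0 < ‖ωw a.2 ζ‖ := norm_pos_iff.2 hω
    have s1 := step_nonneg (55 / 100) (65 / 100) (uw a.2 ζ)
    have s2 := step_le_one (55 / 100) (65 / 100) (uw a.2 ζ)
    have s3 := step_nonneg (7 / 10) (8 / 10) (uw a.2 ζ)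
    have s4 := step_le_one (7 / 10) (8 / 10) (uw a.2 ζ)
    have hG : 0 < (1 - step (55 / 100) (65 / 100) (uw a.2 ζ)) / ‖ωw a.2 ζ‖ +
        step (55 / 100) (65 / 100) (uw a.2 ζ) *
          ((1 - step (7 / 10) (8 / 10) (uw a.2 ζ)) / ‖ωw a.2 ζ‖ +
            2 * step (7 / 10) (8 / 10) (uw a.2 ζ)) := by
      set t := step (55 / 100) (65 / 100) (uw a.2 ζ)
      set t' := step (7 / 10) (8 / 10) (uw a.2 ζ)
      have hi : 0 < ‖ωw a.2 ζ‖⁻¹ := inv_pos.2 hR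
      rw [div_eq_mul_inv, div_eq_mul_inv]
      set r := ‖ωw a.2 ζ‖⁻¹
      have g1 : 0 < (1 - t') * r + 2 * t' := by
        rcases s3.lt_or_eq with h1 | h1
        · nlinarith [mul_nonneg (sub_nonneg.2 s4) hi.le]
        · rw [← h1]; linarith
      rcases s1.lt_or_eq with h1 | h1
      · nlinarith [mul_nonneg (sub_nonneg.2 s2) hi.le, mul_pos h1 g1]
      · rw [← h1]; linarith
    have h2 := smul_right_injective V3 hG.ne' (add_left_cancel hs)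
    have h3 := WInj_lin_inj a h2
    have h4 : circ (6 / 10 * π) ≠ 0 := by
      intro hc
      have := norm_circ (6 / 10 * π)
      rw [hc, norm_zero] at this
      exact zero_ne_one this
    exact (starRingEnd ℂ).injective (mul_left_cancel₀ h4 h3)

private lemma WInj_q (x : ℂ) (hx : 0 ≤ x.im) :
    2 * ((x - Complex.I) / (x + Complex.I)).re * (‖x‖ ^ 2 + 1) =
      (1 + ‖(x - Complex.I) / (x + Complex.I)‖ ^ 2) * (‖x‖ ^ 2 - 1) := by
  have hD : 0 < x.re * x.re + (x.im + 1) * (x.im + 1) := by nlinarith [mul_self_nonneg x.re]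
  rw [norm_div, div_pow, Complex.sq_norm, Complex.sq_norm, Complex.sq_norm, Complex.div_re]
  simp only [Complex.normSq_apply, Complex.add_re, Complex.add_im, Complex.sub_re, Complex.sub_im,
    Complex.I_re, Complex.I_im, add_zero, sub_zero]
  field_simp
  ring

private lemma WInj_ξt_im (ty : Bool) {ζ : ℂ} (h0 : 0 ≤ ζ.im) : 0 ≤ (ξt ty ζ).im := by
  unfold ξt nn
  rw [Complex.im_ofReal_mul]
  exact mul_nonneg (γn_pos ty (nr_ge _)).le h0

private lemma WInj_abs_le {c c' y y' : ℝ} (hc : 0 ≤ c) (hcc : c ≤ c') (hc' : c' ≤ 1 / 2)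
    (hy : |y'| ≤ 1 / 2)
    (he : y - c * Real.sin (2 * π * y) / (2 * π) = y' - c' * Real.sin (2 * π * y') / (2 * π)) :
    |y| ≤ |y'| := by
  have hm := corr_strictMono (c := c) (by rw [abs_of_nonneg hc]; linarith)
  have hm' := corr_strictMono (c := c') (by rw [abs_of_nonneg (by linarith)]; linarith)
  have hp := Real.pi_pos
  have hb := abs_le.1 hy
  rcases le_total 0 y' with h | h
  · have s1 : 0 ≤ Real.sin (2 * π * y') :=
      Real.sin_nonneg_of_nonneg_of_le_pi (by positivity) (by nlinarith [hb.2])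
    have s2 : c * Real.sin (2 * π * y') / (2 * π) ≤ c' * Real.sin (2 * π * y') / (2 * π) := by
      gcongr
    have s3 : y ≤ y' := by
      apply hm.le_iff_le.1
      linarith
    have s4 : 0 ≤ y := by
      apply hm.le_iff_le.1
      have := hm'.monotone h
      simp only [mul_zero, Real.sin_zero, zero_div, sub_zero] at this ⊢
      linarith
    rw [abs_of_nonneg s4, abs_of_nonneg h]
    exact s3
  · have s1 : Real.sin (2 * π * y') ≤ 0 :=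
      Real.sin_nonpos_of_nonpos_of_neg_pi_le (by nlinarith) (by nlinarith [hb.1])
    have s2 : c' * Real.sin (2 * π * y') / (2 * π) ≤ c * Real.sin (2 * π * y') / (2 * π) := by
      apply div_le_div_of_nonneg_right _ (by positivity)
      nlinarith
    have s3 : y' ≤ y := by
      apply hm.le_iff_le.1
      linarith
    have s4 : y ≤ 0 := by
      apply hm.le_iff_le.1
      have := hm'.monotone h
      simp only [mul_zero, Real.sin_zero, zero_div, sub_zero] at this ⊢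
      linarith
    rw [abs_of_nonpos s4, abs_of_nonpos h]
    linarith

private lemma WInj_re_ω (ty : Bool) (ζ : ℂ) :
    (ωw ty ζ).re = ‖ωw ty ζ‖ * Real.cos (2 * π * |y0 ty ζ|) := by
  have h1 : Real.cos (2 * π * |y0 ty ζ|) = Real.cos (-(2 * π * y0 ty ζ)) := by
    rw [Real.cos_neg, ← Real.cos_abs (2 * π * y0 ty ζ), abs_mul,
      abs_of_nonneg (a := 2 * π) (by positivity)]
  rw [h1, ← circ_re, ← Complex.re_ofReal_mul, ← ωw_polar]

private lemma WInj_not_lt (ty : Bool) {ζ ζ' : ℂ} (h0 : 0 ≤ ζ.im) (h0' : 0 ≤ ζ'.im)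
    (hn : ‖ζ‖ ≤ ‖ζ'‖) (hρ : ρ0 ζ' ≤ ρf ty + 2 / 100) (hy : yw ty ζ = yw ty ζ') :
    ¬ uw ty ζ < uw ty ζ' := by
  intro hu
  have hu' := (abs_lt.1 (uw_small ty hρ)).2
  have hm := uw_mem ty h0
  have hy0 := y0_mem ty ζ'
  have hab : |y0 ty ζ| ≤ |y0 ty ζ'| := by
    unfold yw at hy
    rw [cu_small (by linarith), cu_small hu'.le] at hy
    exact WInj_abs_le (by linarith [hm.1]) (by linarith) (by linarith)
      (abs_le.2 ⟨by linarith [hy0.1], hy0.2.le⟩) hy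
  have hp := Real.pi_pos
  have hb : |y0 ty ζ'| ≤ 1 / 2 := abs_le.2 ⟨by linarith [hy0.1], hy0.2.le⟩
  have hcos : Real.cos (2 * π * |y0 ty ζ'|) ≤ Real.cos (2 * π * |y0 ty ζ|) :=
    Real.cos_le_cos_of_nonneg_of_le_pi (by positivity) (by nlinarith) (by gcongr)
  have hbig : 30 < ‖ξt ty ζ'‖ := by
    rw [norm_ξt]; exact ϱw_big ty hρ
  have hle : ‖ξt ty ζ‖ ≤ ‖ξt ty ζ'‖ := by
    rw [norm_ξt, norm_ξt]; exact ϱw_mono ty hn
  have hre := ωw_re_pos ty (ξ := ζ') (by linarith)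
  have q1 := WInj_q _ (WInj_ξt_im ty h0)
  have q2 := WInj_q _ (WInj_ξt_im ty h0')
  change 2 * (ωw ty ζ).re * _ = (1 + ‖ωw ty ζ‖ ^ 2) * _ at q1
  change 2 * (ωw ty ζ').re * _ = (1 + ‖ωw ty ζ'‖ ^ 2) * _ at q2
  rw [WInj_re_ω] at q1 q2 hre
  unfold uw at hu hm
  set R := ‖ωw ty ζ‖
  set R' := ‖ωw ty ζ'‖
  set c := Real.cos (2 * π * |y0 ty ζ|)
  set c' := Real.cos (2 * π * |y0 ty ζ'|)
  have hR : 0 ≤ R := norm_nonneg _
  have hR' : 0 ≤ R' := norm_nonneg _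
  have hc' : 0 < c' := by
    by_contra hc
    nlinarith [mul_nonneg hR' (neg_nonneg.2 (not_lt.1 hc))]
  have hRR : R' < R := by nlinarith
  have hR1 : R ≤ 1 := by nlinarith [hm.1]
  set A := ‖ξt ty ζ‖ ^ 2 with hA
  set B := ‖ξt ty ζ'‖ ^ 2 with hB
  have hAB : A ≤ B := by rw [hA, hB]; gcongr
  have hA0 : 0 ≤ A := by positivity
  -- (A-1)/(A+1) = 2 R c/(1+R^2) > 2 R' c'/(1+R'^2) = (B-1)/(B+1)
  have k1 : R' * (1 + R ^ 2) < R * (1 + R' ^ 2) := by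
    have : 0 < (R - R') * (1 - R * R') := by
      apply mul_pos (by linarith)
      nlinarith
    nlinarith
  have k2 : R' * c' * (1 + R ^ 2) < R * c * (1 + R' ^ 2) := by
    have e1 : R' * c' * (1 + R ^ 2) < R * c' * (1 + R' ^ 2) := by nlinarith
    have e2 : R * c' * (1 + R' ^ 2) ≤ R * c * (1 + R' ^ 2) := by gcongr
    linarith
  have k3 : (A - 1) * (B + 1) ≤ (B - 1) * (A + 1) := by nlinarith
  have k4 : 0 < (A + 1) * (B + 1) := by positivity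
  have k5 : 0 < (1 + R ^ 2) * (1 + R' ^ 2) := by positivity
  have k6 : 2 * (R' * c' * (1 + R ^ 2)) * ((A + 1) * (B + 1)) =
      (1 + R ^ 2) * (1 + R' ^ 2) * ((B - 1) * (A + 1)) := by
    calc _ = (2 * (R' * c') * (B + 1)) * ((1 + R ^ 2) * (A + 1)) := by ring
      _ = _ := by rw [q2]; ring
  have k7 : 2 * (R * c * (1 + R' ^ 2)) * ((A + 1) * (B + 1)) =
      (1 + R ^ 2) * (1 + R' ^ 2) * ((A - 1) * (B + 1)) := by
    calc _ = (2 * (R * c) * (A + 1)) * ((1 + R' ^ 2) * (B + 1)) := by ring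
      _ = _ := by rw [q1]; ring
  have k8 := mul_le_mul_of_nonneg_left k3 k5.le
  have k9 := mul_lt_mul_of_pos_right k2 k4
  linarith

private lemma WInj_real_eq {ζ : ℂ} (h : ζ.im = 0) : ζ = (ζ.re : ℂ) ∧ ‖ζ‖ = |ζ.re| := by
  have h1 : ζ = (ζ.re : ℂ) := by
    apply Complex.ext <;> simp [h]
  refine ⟨h1, ?_⟩
  conv_lhs => rw [h1]
  rw [Complex.norm_real, Real.norm_eq_abs]

private lemma WInj_real_nonsat (ty : Bool) {ζ : ℂ} (h : ζ.im = 0) (hρ : ρf ty < ρ0 ζ) :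
    1 / 100 < |yw ty ζ| := by
  obtain ⟨h1, h2⟩ := WInj_real_eq h
  rcases le_total |ζ.re| (4 / 10) with h3 | h3
  · have := yw_real_small ty h3
    rw [← h1] at this
    linarith
  · have h4 := yw_real_large ty h3
    rw [← h1] at h4
    rw [ρ0_eq (by rw [h2]; linarith), h2] at hρ
    have h5 := ramp_pos (u := 84 / 10 - 10 * |ζ.re| - ρf ty) (by linarith)
    rw [h4]
    split_ifs
    · rw [abs_of_pos (by linarith)]; linarith
    · rw [abs_of_neg (by linarith)]; linarith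

private lemma WInj_wall (a : Rt) {ζ : ℂ} (h : ‖ζ‖ ≤ 4 / 5) (h0 : 0 ≤ ζ.im)
    (hρ : ρ0 ζ ≤ ρf a.2)
    (hb : step (4 / 10) (ρf a.2 + 2 / 100) (ρ0 ζ) * uw a.2 ζ = 0) :
    WInj_X a ζ = S1 (WInj_Z a ζ).re ∧ WInj_h a ζ = -1 / 4 + (WInj_Z a ζ).im ∧
      ‖WInj_Z a ζ‖ = ρ0 ζ := by
  have hf := ρf_mem a.2
  have hge := WInj_ρ0_ge h
  have hnorm : ‖WInj_Z a ζ‖ = ρ0 ζ := by
    unfold WInj_Z
    rw [norm_mul, WInj_norm_pre a.2 (by linarith)]
    by_cases h5 : ρ0 ζ ≤ 5 / 10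
    · rw [step_of_le (by norm_num) h5, mul_zero, circ_zero]
      simp
    · have hs : 0 < step (4 / 10) (ρf a.2 + 2 / 100) (ρ0 ζ) :=
        step_pos (by linarith [hf.1]) (by linarith)
      have hu : uw a.2 ζ = 0 := (mul_eq_zero.1 hb).resolve_left hs.ne'
      have him := (uw_eq_zero_iff a.2 h0).1 hu
      obtain ⟨h1, h2⟩ := WInj_real_eq him
      have h6 := norm_of_ρ0 (ξ := ζ) (by linarith [hf.2])
      have h4 := yw_real_large a.2 (x := ζ.re) (by rw [← h2]; linarith [hf.2])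
      rw [← h1, ← h2, ← h6, ramp_of_nonpos (by linarith)] at h4
      unfold χw
      rw [h4]
      split_ifs
      · rw [step_of_ge (a := 0) (by norm_num) (by norm_num)]
        simp [norm_circ]
      · rw [step_of_le (a := 0) (by norm_num) (by norm_num)]
        simp
  refine ⟨?_, ?_, hnorm⟩
  · by_cases h5 : ρ0 ζ ≤ 625 / 1000
    · unfold WInj_X
      rw [WInj_νκ_one h5]; ring
    · have hZ : WInj_Z a ζ = -Complex.I * ((sg a.2 * ρ0 ζ : ℝ) : ℂ) := by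
        unfold WInj_Z
        rw [step_of_ge (by norm_num) (by linarith)]
        have : circ (-2 * π * ςj a.1 * 1) = 1 := by
          rcases ςj_cases a.1 with h4 | h4 <;> rw [h4]
          · have := circ_add_int 0 (-1)
            rw [circ_zero] at this
            rw [← this]; congr 1; push_cast; ring
          · have := circ_add_int 0 1
            rw [circ_zero] at this
            rw [← this]; congr 1; push_cast; ring
        rw [this]; ring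
      have hre : (WInj_Z a ζ).re = 0 := by rw [hZ]; simp
      unfold WInj_X
      rw [hre, S1_zero]; ring
  · by_cases h5 : ρ0 ζ ≤ 625 / 1000
    · unfold WInj_h
      rw [WInj_νκ_one h5]; ring
    · have hZ : WInj_Z a ζ = -Complex.I * ((sg a.2 * ρ0 ζ : ℝ) : ℂ) := by
        unfold WInj_Z
        rw [step_of_ge (by norm_num) (by linarith)]
        have : circ (-2 * π * ςj a.1 * 1) = 1 := by
          rcases ςj_cases a.1 with h4 | h4 <;> rw [h4]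
          · have := circ_add_int 0 (-1)
            rw [circ_zero] at this
            rw [← this]; congr 1; push_cast; ring
          · have := circ_add_int 0 1
            rw [circ_zero] at this
            rw [← this]; congr 1; push_cast; ring
        rw [this]; ring
      have him : (WInj_Z a ζ).im = -(sg a.2 * ρ0 ζ) := by rw [hZ]; simp
      have hs : 0 < step (4 / 10) (ρf a.2 + 2 / 100) (ρ0 ζ) :=
        step_pos (by linarith [hf.1]) (by linarith)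
      have hu : uw a.2 ζ = 0 := (mul_eq_zero.1 hb).resolve_left hs.ne'
      have hH : Hs (1 / 4 - sg a.2 * ρ0 ζ) = 1 / 4 - sg a.2 * ρ0 ζ := by
        apply Hs_of_abs_le
        unfold ρf at hρ
        rw [abs_le]
        rcases sg_cases a.2 with h4 | h4 <;> rw [h4] at hρ ⊢ <;> constructor <;> linarith
      unfold WInj_h
      rw [him, hu, hH, step_of_le (by norm_num) (by norm_num)]
      ring

private lemma WInj_main (a : Rt) {ζ ζ' : ℂ} (h : ‖ζ‖ ≤ 4 / 5) (h0 : 0 ≤ ζ.im)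
    (h' : ‖ζ'‖ ≤ 4 / 5) (h0' : 0 ≤ ζ'.im) (hn : ‖ζ‖ ≤ ‖ζ'‖)
    (he : Wf a (fun _ => -1 / 2) 0 ζ 0 0 = Wf a (fun _ => -1 / 2) 0 ζ' 0 0) : ζ = ζ' := by
  have hf := ρf_mem a.2
  have hab : (4 / 10 : ℝ) < ρf a.2 + 2 / 100 := by linarith [hf.1]
  have hT : step (4 / 10) (ρf a.2 + 2 / 100) (ρ0 ζ) * uw a.2 ζ =
      step (4 / 10) (ρf a.2 + 2 / 100) (ρ0 ζ') * uw a.2 ζ' := by
    have h1 := congrArg Prod.snd he
    unfold Wf at h1
    simp only [WInj_bW h0, WInj_bW h0', one_smul, WInj_Tw a h, WInj_Tw a h'] at h1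
    linarith
  have hS := congrArg Prod.fst he
  have hρ := ρ0_anti hn
  have hss := step_mono hab hρ
  have hum := uw_mem a.2 h0
  have hum' := uw_mem a.2 h0'
  have s1 := step_nonneg (4 / 10) (ρf a.2 + 2 / 100) (ρ0 ζ)
  have s2 := step_le_one (4 / 10) (ρf a.2 + 2 / 100) (ρ0 ζ)
  have s1' := step_nonneg (4 / 10) (ρf a.2 + 2 / 100) (ρ0 ζ')
  have s2' := step_le_one (4 / 10) (ρf a.2 + 2 / 100) (ρ0 ζ')
  by_cases hA : 3 / 10 ≤ step (4 / 10) (ρf a.2 + 2 / 100) (ρ0 ζ) * uw a.2 ζ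
  · have hu : 3 / 10 ≤ uw a.2 ζ := by nlinarith [hum.1]
    have hu' : 3 / 10 ≤ uw a.2 ζ' := by nlinarith [hum'.1]
    have b1 := WInj_big a.2 (ζ := ζ) (by linarith)
    have b2 := WInj_big a.2 (ζ := ζ') (by linarith)
    rw [step_of_ge hab b1.le, step_of_ge hab b2.le, one_mul, one_mul] at hT
    exact WInj_L2 a.2 (WInj_caseA a h h0 h' h0' hu hT hS) hn (by linarith)
  have hlt : ∀ z : ℂ, step (4 / 10) (ρf a.2 + 2 / 100) (ρ0 z) * uw a.2 z < 3 / 10 →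
      uw a.2 z < 3 / 10 := by
    intro z hz
    by_contra hc
    have b1 := WInj_big a.2 (ζ := z) (by linarith [not_lt.1 hc])
    rw [step_of_ge hab b1.le, one_mul] at hz
    exact hc hz
  have hu := hlt ζ (not_le.1 hA)
  have hu' := hlt ζ' (by rw [← hT]; exact not_le.1 hA)
  rw [WInj_space a h h0, WInj_space a h' h0', step_of_le (by norm_num) (by linarith),
    step_of_le (by norm_num) (by linarith)] at hS
  simp only [sub_zero, one_smul, zero_smul, add_zero] at hS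
  obtain ⟨d1, d2⟩ := WInj_dom a h
  obtain ⟨d1', d2'⟩ := WInj_dom a h'
  obtain ⟨hh, k, l, hk, hl⟩ := Φa_inj_same a d1 d1' d2 d2' hS
  have hX : WInj_X a ζ = WInj_X a ζ' := by
    have m1 := WInj_X_mem a ζ
    have m2 := WInj_X_mem a ζ'
    have k1 : (k : ℝ) < 1 := by linarith [m1.1, m2.2]
    have k2 : (-1 : ℝ) < k := by linarith [m1.2, m2.1]
    have k3 : k = 0 := by
      have k4 : k < 1 := by exact_mod_cast k1
      have k5 : -1 < k := by exact_mod_cast k2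
      omega
    rw [hk, k3]; simp
  have hy : yw a.2 ζ = yw a.2 ζ' := by
    have m1 := yw_mem a.2 h0
    have m2 := yw_mem a.2 h0'
    have k1 : (l : ℝ) < 1 := by linarith [m1.1, m2.2]
    have k2 : (-1 : ℝ) < l := by linarith [m1.2, m2.1]
    have k3 : l = 0 := by
      have k4 : l < 1 := by exact_mod_cast k1
      have k5 : -1 < l := by exact_mod_cast k2
      omega
    rw [k3] at hl
    simp only [Int.cast_zero, add_zero] at hl
    linarith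
  by_cases hB : step (4 / 10) (ρf a.2 + 2 / 100) (ρ0 ζ) * uw a.2 ζ = 0
  · by_cases hsat : ρf a.2 < ρ0 ζ
    · have p1 : 0 < step (4 / 10) (ρf a.2 + 2 / 100) (ρ0 ζ) := step_pos hab (by linarith [hf.1])
      have u1 : uw a.2 ζ = 0 := (mul_eq_zero.1 hB).resolve_left p1.ne'
      have y1 := WInj_real_nonsat a.2 ((uw_eq_zero_iff a.2 h0).1 u1) hsat
      have hsat' : ρf a.2 < ρ0 ζ' := by
        by_contra hc
        have := abs_yw_sat_le a.2 h0' (not_lt.1 hc)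
        rw [← hy] at this
        linarith
      have p2 : 0 < step (4 / 10) (ρf a.2 + 2 / 100) (ρ0 ζ') := step_pos hab (by linarith [hf.1])
      have u2 : uw a.2 ζ' = 0 := (mul_eq_zero.1 (hT ▸ hB)).resolve_left p2.ne'
      exact WInj_L2 a.2 (WInj_L1 a.2 h0 h0' (u1.trans u2.symm) hy) hn hsat
    · have hs1 : ρ0 ζ ≤ ρf a.2 := not_lt.1 hsat
      have hs2 : ρ0 ζ' ≤ ρf a.2 := hρ.trans hs1
      obtain ⟨w1, w2, w3⟩ := WInj_wall a h h0 hs1 hB
      obtain ⟨w1', w2', w3'⟩ := WInj_wall a h' h0' hs2 (hT ▸ hB)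
      have hZ : WInj_Z a ζ = WInj_Z a ζ' := by
        apply Complex.ext
        · apply S1_strictMono.injective
          rw [← w1, ← w1', hX]
        · linarith
      have hρe : ρ0 ζ = ρ0 ζ' := by rw [← w3, ← w3', hZ]
      have n1 := norm_of_ρ0 (ξ := ζ) (by linarith [hf.2])
      have n2 := norm_of_ρ0 (ξ := ζ') (by linarith [hf.2])
      have hne : ‖ζ‖ = ‖ζ'‖ := by linarith
      have hd := yw_sat_inj a.2 h0 h0' hs1 hs2 hy
      rw [hne] at hd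
      have hz : (‖ζ'‖ : ℂ) ≠ 0 := by
        apply Complex.ofReal_ne_zero.2
        intro hc
        rw [hc] at n2
        linarith [hf.2]
      exact mul_left_cancel₀ hz hd
  · have p1 : 0 < step (4 / 10) (ρf a.2 + 2 / 100) (ρ0 ζ) :=
      lt_of_le_of_ne s1 (fun hc => hB (by rw [← hc, zero_mul]))
    have p2 : 0 < step (4 / 10) (ρf a.2 + 2 / 100) (ρ0 ζ') :=
      lt_of_le_of_ne s1' (fun hc => hB (by rw [hT, ← hc, zero_mul]))
    have u1 : 0 < uw a.2 ζ := lt_of_le_of_ne hum.1 (fun hc => hB (by rw [← hc, mul_zero]))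
    by_cases hsat : ρf a.2 + 2 / 100 ≤ ρ0 ζ'
    · rw [step_of_ge hab hsat, step_of_ge hab (hsat.trans hρ), one_mul, one_mul] at hT
      exact WInj_L2 a.2 (WInj_L1 a.2 h0 h0' hT hy) hn (by linarith)
    · have hsat' := (not_le.1 hsat).le
      have hle : uw a.2 ζ ≤ uw a.2 ζ' := by
        have : step (4 / 10) (ρf a.2 + 2 / 100) (ρ0 ζ) * uw a.2 ζ ≤
            step (4 / 10) (ρf a.2 + 2 / 100) (ρ0 ζ) * uw a.2 ζ' := by
          rw [hT]; exact mul_le_mul_of_nonneg_right hss hum'.1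
        exact le_of_mul_le_mul_left this p1
      have hue : uw a.2 ζ = uw a.2 ζ' :=
        le_antisymm hle (not_lt.1 (WInj_not_lt a.2 h0 h0' hn hsat' hy))
      have hξ := WInj_L1 a.2 h0 h0' hue hy
      by_cases hns : ρf a.2 < ρ0 ζ
      · exact WInj_L2 a.2 hξ hn hns
      · have hs1 : ρ0 ζ ≤ ρf a.2 := not_lt.1 hns
        rw [← hue] at hT
        have hse := mul_right_cancel₀ u1.ne' hT
        have hρe : ρ0 ζ = ρ0 ζ' := (step_strictMonoOn hab).injOn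
          ⟨WInj_ρ0_ge h, by linarith⟩ ⟨WInj_ρ0_ge h', hsat'⟩ hse
        have n1 := norm_of_ρ0 (ξ := ζ) (by linarith [hf.2])
        have n2 := norm_of_ρ0 (ξ := ζ') (by linarith [hf.2])
        exact WInj_L3 a.2 hξ (by linarith)

theorem Fcore_inj (a : Rt) : InjOn (fun ξ => Fcore a (ξ, 0)) Half := by
  intro ξ h ξ' h' he
  obtain ⟨h1, h2⟩ := WInj_scale' h
  obtain ⟨h1', h2'⟩ := WInj_scale' h'
  have h3 : (4 / 5 : ℂ) * ξ = (4 / 5 : ℂ) * ξ' := by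
    rcases le_total ‖(4 / 5 : ℂ) * ξ‖ ‖(4 / 5 : ℂ) * ξ'‖ with hn | hn
    · exact WInj_main a h1 h2 h1' h2' hn he
    · exact (WInj_main a h1' h2' h1 h2 hn he.symm).symm
  exact mul_left_cancel₀ (by norm_num) h3

end Pool.Agent.Lib.MP_1d0d1b_gt
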