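import Pool.Agent.Lib.MP_1d0d1b_gt.WBot
import Pool.Agent.Lib.MP_1d0d1b_gt.WInj

open Set Function Filter Topology
open scoped ContDiff Real

noncomputable section

namespace Pool.Agent.Lib.MP_1d0d1b_gt

/-- The possible slot coordinates of a boundary point of a core or of a ghost. -/
def Shape (ty : Bool) (X y h : ℝ) : Prop :=
  (y = 31 / 100 ∧ ∃ Z : ℂ, X = S1 Z.re ∧ h = -1 / 4 + Z.im ∧ 4 / 10 ≤ ‖Z‖ ∧ ‖Z‖ ≤ 64 / 100) ∨
  (X = -1 / 2 ∧ y ∈ Icc (29 / 100 : ℝ) (31 / 100) ∧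
    ∃ ρ ∈ Icc (4 / 10 : ℝ) (ρf ty), h = -1 / 4 - sg ty * ρ) ∨
  (X = -1 / 2 ∧ y ∈ Icc (-2 / 10 : ℝ) (8 / 10) ∧ 1 / 100 < |y - 3 / 10| ∧
    9 / 10 < -sg ty * (h + 1 / 2) ∧ |h + 1 / 2| ≤ 1)

private theorem low1_int (k : ℤ) :
    (k : ℝ) ≤ -2 ∨ (k : ℝ) = -1 ∨ (k : ℝ) = 0 ∨ (k : ℝ) = 1 ∨ 2 ≤ (k : ℝ) := by
  have h : k ≤ -2 ∨ k = -1 ∨ k = 0 ∨ k = 1 ∨ 2 ≤ k := by omega
  exact_mod_cast h

private theorem low1_dom_half (y : ℝ) : ((-1 / 2 : ℝ), y) ∈ Dom :=
  mem_Dom_fst (by rw [abs_of_neg] <;> norm_num) (by rw [abs_of_neg] <;> norm_num)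

private theorem low1_dom_wall (X : ℝ) : (X, (31 / 100 : ℝ)) ∈ Dom :=
  mem_Dom_snd (by rw [abs_of_pos] <;> norm_num) (by rw [abs_of_pos] <;> norm_num)

theorem Shape.dom {ty : Bool} {X y h : ℝ} (hs : Shape ty X y h) : (X, y) ∈ Dom ∧ |h| ≤ 3 := by
  rcases hs with ⟨rfl, Z, -, rfl, -, h2⟩ | ⟨rfl, -, ρ, ⟨h1, h2⟩, rfl⟩ | ⟨rfl, -, -, -, h1⟩
  · have := abs_le.1 ((Complex.abs_im_le_norm Z).trans h2)
    exact ⟨low1_dom_wall _, abs_le.2 ⟨by linarith [this.1], by linarith [this.2]⟩⟩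
  · have := (ρf_mem ty).2
    refine ⟨low1_dom_half _, abs_le.2 ?_⟩
    rcases sg_cases ty with e | e <;> rw [e] <;> constructor <;> linarith
  · have := abs_le.1 h1
    exact ⟨low1_dom_half _, abs_le.2 ⟨by linarith [this.1], by linarith [this.2]⟩⟩

private theorem low1_yw_semi (ty : Bool) {ξ : ℂ} (h : ξ ∈ Semi) :
    |yw ty ((4 / 5 : ℂ) * ξ)| ≤ 1 / 100 := by
  have hn : ‖(4 / 5 : ℂ) * ξ‖ = 4 / 5 := by rw [norm_mul, h.1]; norm_num
  refine abs_yw_sat_le ty ?_ ?_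
  · have e : ((4 / 5 : ℂ) * ξ).im = 4 / 5 * ξ.im := by
      rw [show (4 / 5 : ℂ) = ((4 / 5 : ℝ) : ℂ) by norm_num, Complex.im_ofReal_mul]
    rw [e]; have := h.2; positivity
  · rw [ρ0_eq (by rw [hn]; norm_num), hn]
    linarith [(ρf_mem ty).1]

theorem core_shape (a : Rt) {ξ : ℂ} (h : ξ ∈ Diam ∪ Semi) : ∃ X y h : ℝ,
    Fcore a (ξ, 0) = (Φa a X y h, 1) ∧ Shape a.2 X y h := by
  rcases h with h | h
  · obtain ⟨e, hx⟩ := Diam_eq h
    obtain ⟨X, y', h', h1, -, h2, h3⟩ := Fcore_diam a hx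
    rw [← e] at h1
    refine ⟨X, _, h', h1, ?_⟩
    have hx' := abs_le.1 hx
    have h2' := abs_le.1 h2
    rcases h3 with ⟨rfl, Z, e1, e2, e3, e4, -⟩ | ⟨e1, e2, e3, e4, -⟩ | ⟨e1, e2, e3, e4⟩
    · exact Or.inl ⟨by norm_num, Z, e1, e2, by linarith [hx'.2], e4⟩
    · have := abs_le.1 e2.le
      exact Or.inr (Or.inl ⟨e1, ⟨by linarith [this.1], by linarith [this.2]⟩, _,
        ⟨by linarith, e4⟩, e3⟩)
    · exact Or.inr (Or.inr ⟨e1, ⟨by linarith [h2'.1], by linarith [h2'.2]⟩,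
        by rwa [add_sub_cancel_left], e3, e4⟩)
  · have := abs_le.1 (low1_yw_semi a.2 h)
    exact ⟨_, _, _, Fcore_semi a h.1, Or.inr (Or.inl ⟨rfl,
      ⟨by linarith [this.1], by linarith [this.2]⟩, _, ⟨le_rfl, by linarith [(ρf_mem a.2).1]⟩, rfl⟩)⟩

theorem ghost_shape (a : Rt) {ζ : ℂ} (h : ‖ζ‖ = 1) : ∃ X y h : ℝ,
    Gh a (ζ, 0) = (Φa a X y h, 1) ∧ Shape a.2 X y h := by
  obtain ⟨Z, h1, -, h2⟩ := Gh_circ a h
  exact ⟨_, _, _, h2, Or.inl ⟨rfl, Z, rfl, rfl, by rw [h1]; norm_num, by rw [h1]; norm_num⟩⟩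

theorem abs_re_lt_of_S1 {u : ℝ} (h : S1 u ∈ Icc (-6 / 10 : ℝ) (-3 / 100)) : |u| < 1 / 10 := by
  refine abs_lt.2 ⟨lt_of_not_ge fun hu => ?_, lt_of_not_ge fun hu => ?_⟩
  · have := S1_lt (u := u) (by linarith)
    linarith [h.1]
  · have := lt_S1 hu
    linarith [h.2]

/-- Numerical consequences of a shape. -/
private def Num (ty : Bool) (X y h : ℝ) : Prop :=
  (y = 31 / 100 ∧ -66 / 100 < X ∧ X < 14 / 100 ∧ -89 / 100 ≤ h ∧ h ≤ 39 / 100 ∧
    (X < -6 / 10 ∨ -3 / 100 < X ∨ h ≤ -63 / 100 ∨ 13 / 100 ≤ h)) ∨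
  (X = -1 / 2 ∧ 29 / 100 ≤ y ∧ y ≤ 31 / 100 ∧ (if ty then 15 / 100 else -14 / 10) ≤ h ∧
    h ≤ (if ty then 4 / 10 else -65 / 100)) ∨
  (X = -1 / 2 ∧ (if ty then 4 / 10 else -15 / 10) ≤ h ∧ h ≤ (if ty then 5 / 10 else -14 / 10))

private theorem low1_num {ty : Bool} {X y h : ℝ} (hs : Shape ty X y h) : Num ty X y h := by
  rcases hs with ⟨rfl, Z, rfl, rfl, h1, h2⟩ | ⟨rfl, h0, ρ, ⟨h1, h2⟩, rfl⟩ | ⟨rfl, -, -, h1, h2⟩
  · have h3 := abs_le.1 ((Complex.abs_im_le_norm Z).trans h2)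
    refine Or.inl ⟨rfl, (S1_mem _).1, (S1_mem _).2, by linarith [h3.1], by linarith [h3.2], ?_⟩
    by_contra hn
    push Not at hn
    obtain ⟨h4, h5, h6, h7⟩ := hn
    have h8 := abs_lt.1 (abs_re_lt_of_S1 ⟨h4, h5⟩)
    have h9 : ‖Z‖ ^ 2 = Z.re ^ 2 + Z.im ^ 2 := by rw [Complex.sq_norm, Complex.normSq_apply]; ring
    nlinarith [h8.1, h8.2]
  · refine Or.inr (Or.inl ⟨rfl, h0.1, h0.2, ?_⟩)
    cases ty <;> simp only [sg, ρf, Bool.false_eq_true, if_false, if_true] at h2 ⊢ <;>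
      constructor <;> linarith
  · have h3 := abs_le.1 h2
    refine Or.inr (Or.inr ⟨rfl, ?_⟩)
    cases ty <;> simp only [sg, Bool.false_eq_true, if_false, if_true] at h1 ⊢ <;>
      constructor <;> linarith [h3.1, h3.2]

/-- Same disc, other type. -/
private theorem low1_case1 {X y h X' y' : ℝ} (k l : ℤ) (hs : Num false X y h)
    (hs' : Num true X' y' h) (e1 : y' = X + k) (e2 : X' = y + l) : False := by
  simp only [Num, Bool.false_eq_true, if_false, if_true] at hs hs'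
  rcases hs with ⟨h1, -⟩ | ⟨h1, -, -, -, h2⟩ | ⟨h1, -, h2⟩
  · rcases hs' with ⟨-, h3, h4, -⟩ | ⟨h3, -⟩ | ⟨h3, -⟩ <;>
      rcases low1_int l with h | h | h | h | h <;> linarith
  · rcases hs' with ⟨h3, -⟩ | ⟨-, -, -, h3, -⟩ | ⟨-, h3, -⟩
    · rcases low1_int k with h | h | h | h | h <;> linarith
    · linarith
    · linarith
  · rcases hs' with ⟨h3, -⟩ | ⟨-, -, -, h3, -⟩ | ⟨-, h3, -⟩
    · rcases low1_int k with h | h | h | h | h <;> linarith
    · linarith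
    · linarith

/-- Other disc, same type. -/
private theorem low1_case2 {ty : Bool} {X y h X' y' : ℝ} (k l : ℤ) (hs : Num ty X y h)
    (hs' : Num ty X' y' (-h)) (e1 : X' = -X + k) (e2 : y' = -y + l) : False := by
  rcases hs with ⟨h1, h2, h3, h4, h5, h6⟩ | ⟨h1, h2, h3, h4, h5⟩ | ⟨h1, h2, h3⟩
  · rcases hs' with ⟨g1, -⟩ | ⟨-, g1, g2, -⟩ | ⟨g1, g2, g3⟩
    · rcases low1_int l with h | h | h | h | h <;> linarith
    · rcases low1_int l with h | h | h | h | h <;> linarith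
    · cases ty <;> simp only [Bool.false_eq_true, if_false, if_true] at g2 g3
      · linarith
      · rcases low1_int k with h | h | h | h | h <;> rcases h6 with h6 | h6 | h6 | h6 <;> linarith
  · rcases hs' with ⟨g1, -⟩ | ⟨-, g1, g2, -⟩ | ⟨-, g2, g3⟩
    · rcases low1_int l with h | h | h | h | h <;> linarith
    · rcases low1_int l with h | h | h | h | h <;> linarith
    · cases ty <;> simp only [Bool.false_eq_true, if_false, if_true] at g2 g3 h4 h5 <;> linarith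
  · rcases hs' with ⟨-, g2, g3, g4, g5, g6⟩ | ⟨-, -, -, g2, g3⟩ | ⟨-, g2, g3⟩
    · cases ty <;> simp only [Bool.false_eq_true, if_false, if_true] at h2 h3
      · linarith
      · rcases low1_int k with h | h | h | h | h <;> rcases g6 with g6 | g6 | g6 | g6 <;> linarith
    · cases ty <;> simp only [Bool.false_eq_true, if_false, if_true] at g2 g3 h2 h3 <;> linarith
    · cases ty <;> simp only [Bool.false_eq_true, if_false, if_true] at g2 g3 h2 h3 <;> linarith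

/-- Other disc, other type. -/
private theorem low1_case3 {X y h X' y' : ℝ} (k l : ℤ) (hs : Num false X y h)
    (hs' : Num true X' y' (-h)) (e1 : y' = -X + k) (e2 : X' = -y + l) : False := by
  simp only [Num, Bool.false_eq_true, if_false, if_true] at hs hs'
  rcases hs with ⟨h1, h2, h3, h4, h5, h6⟩ | ⟨h1, h2, h3, -⟩ | ⟨h1, -, h2⟩
  · rcases hs' with ⟨g1, g2, g3, g4, g5, g6⟩ | ⟨g1, -⟩ | ⟨g1, -⟩
    · have e3 : X = -31 / 100 := by rcases low1_int k with h | h | h | h | h <;> linarith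
      have e4 : X' = -31 / 100 := by rcases low1_int l with h | h | h | h | h <;> linarith
      rcases h6 with h6 | h6 | h6 | h6 <;> rcases g6 with g6 | g6 | g6 | g6 <;> linarith
    · rcases low1_int l with h | h | h | h | h <;> linarith
    · rcases low1_int l with h | h | h | h | h <;> linarith
  · rcases hs' with ⟨g1, -⟩ | ⟨g1, -⟩ | ⟨g1, -⟩
    · rcases low1_int k with h | h | h | h | h <;> linarith
    · rcases low1_int l with h | h | h | h | h <;> linarith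
    · rcases low1_int l with h | h | h | h | h <;> linarith
  · rcases hs' with ⟨g1, -⟩ | ⟨-, g1, g2, -⟩ | ⟨-, -, g1⟩
    · rcases low1_int k with h | h | h | h | h <;> linarith
    · rcases low1_int k with h | h | h | h | h <;> linarith
    · linarith

theorem shape_disjoint {a a' : Rt} (ha : a ≠ a') {X y h X' y' h' : ℝ} (hs : Shape a.2 X y h)
    (hs' : Shape a'.2 X' y' h') : Φa a X y h ≠ Φa a' X' y' h' := by
  intro he
  obtain ⟨e, k, l, e'⟩ := Φa_inj a a' hs.dom.1 hs'.dom.1 hs.dom.2 hs'.dom.2 he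
  have n := low1_num hs
  have n' := low1_num hs'
  obtain ⟨j, ty⟩ := a
  obtain ⟨j', ty'⟩ := a'
  have hc : (j = j' ∧ ςj j * ςj j' = 1) ∨ ςj j * ςj j' = -1 := by
    fin_cases j <;> fin_cases j' <;> simp [ςj]
  have e1 := congrArg Prod.fst e'
  have e2 := congrArg Prod.snd e'
  rcases hc with ⟨rfl, hc⟩ | hc <;> simp only [hc, one_mul, neg_mul] at e e1 e2 <;> subst e <;>
    cases ty <;> cases ty' <;>
    simp only [sw, Bool.false_eq_true, if_false, if_true, Prod.fst_add, Prod.snd_add,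
      Prod.smul_fst, Prod.smul_snd, smul_eq_mul, one_mul, neg_mul] at e1 e2
  · exact ha rfl
  · exact low1_case1 k l n n' e1 e2
  · exact low1_case1 (-k) (-l) n' n (by push_cast; linarith) (by push_cast; linarith)
  · exact ha rfl
  · exact low1_case2 k l n n' e1 e2
  · exact low1_case3 k l n n' e1 e2
  · exact low1_case3 k l n' (by rwa [neg_neg]) (by linarith) (by linarith)
  · exact low1_case2 l k n n' e2 e1

theorem low_AA {a a' : Rt} (ha : a ≠ a') {ξ ξ' : ℂ} (h : ξ ∈ Diam ∪ Semi)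
    (h' : ξ' ∈ Diam ∪ Semi) : Fcore a (ξ, 0) ≠ Fcore a' (ξ', 0) := by
  obtain ⟨X, y, t, e, hs⟩ := core_shape a h
  obtain ⟨X', y', t', e', hs'⟩ := core_shape a' h'
  rw [e, e']
  exact fun he => shape_disjoint ha hs hs' (congrArg Prod.fst he)

theorem low_AG {a a' : Rt} {ξ ζ : ℂ} (h : ξ ∈ Diam ∪ Semi) (h' : ‖ζ‖ = 1)
    (he : Fcore a (ξ, 0) = Gh a' (ζ, 0)) : a = a' ∧ ξ = (dL : ℂ) ∧ ζ = 1 := by
  have ha : a = a' := by
    by_contra ha
    obtain ⟨X, y, t, e, hs⟩ := core_shape a h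
    obtain ⟨X', y', t', e', hs'⟩ := ghost_shape a' h'
    rw [e, e'] at he
    exact shape_disjoint ha hs hs' (congrArg Prod.fst he)
  subst ha
  refine ⟨rfl, ?_⟩
  obtain ⟨W, w1, w2, w3⟩ := Gh_circ a h'
  have wi := abs_le.1 ((Complex.abs_im_le_norm W).trans w1.le)
  have wh : |-1 / 4 + W.im| ≤ 3 := abs_le.2 ⟨by linarith [wi.1], by linarith [wi.2]⟩
  have wS := S1_mem W.re
  rw [w3] at he
  rcases h with h | h
  · obtain ⟨e, hx⟩ := Diam_eq h
    obtain ⟨X, y', t, h1, -, h2, h3⟩ := Fcore_diam a hx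
    rw [← e, he] at h1
    have h1' := congrArg Prod.fst h1
    have h2' := abs_le.1 h2
    rcases h3 with ⟨rfl, Z, rfl, rfl, e3, e4, e5⟩ | ⟨rfl, e2, rfl, e4, e5⟩ | ⟨rfl, e2, -, e4⟩
    · have zi := abs_le.1 ((Complex.abs_im_le_norm Z).trans e4)
      have zS := S1_mem Z.re
      obtain ⟨g1, k, l, g2, -⟩ := Φa_inj_same a (low1_dom_wall _)
        (by rw [show (3 / 10 + 1 / 100 : ℝ) = 31 / 100 by norm_num]; exact low1_dom_wall _) wh
        (abs_le.2 ⟨by linarith [zi.1], by linarith [zi.2]⟩) h1'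
      have g3 : S1 Z.re = S1 W.re := by
        rcases low1_int k with h | h | h | h | h <;> linarith [zS.1, zS.2, wS.1, wS.2]
      have g4 : Z = W := Complex.ext (S1_strictMono.injective g3) (by linarith)
      subst g4
      refine ⟨?_, w2 ?_⟩
      · rw [e, show ξ.re = dL by rw [dL]; linarith]
      · have := e5 (by rw [w1]; norm_num)
        rwa [w1] at this
    · exfalso
      have hρ := (ρf_mem a.2).2
      obtain ⟨g1, k, l, -, g3⟩ := Φa_inj_same a (low1_dom_wall _) (low1_dom_half _) wh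
        (by rcases sg_cases a.2 with s | s <;> rw [s] <;> refine abs_le.2 ⟨?_, ?_⟩ <;> linarith) h1'
      have g4 := abs_le.1 e2.le
      have g5 := e5 (by rcases low1_int l with h | h | h | h | h <;> linarith [g4.1, g4.2])
      rcases sg_cases a.2 with s | s <;> rw [s] at g1 <;> linarith [wi.1, wi.2]
    · exfalso
      have g0 := abs_le.1 e4
      obtain ⟨-, k, l, -, g3⟩ := Φa_inj_same a (low1_dom_wall _) (low1_dom_half _) wh
        (abs_le.2 ⟨by linarith [g0.1], by linarith [g0.2]⟩) h1'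
      have g4 : y' = 1 / 100 := by
        rcases low1_int l with h | h | h | h | h <;> linarith [h2'.1, h2'.2]
      rw [g4, abs_of_pos (by norm_num)] at e2
      exact lt_irrefl _ e2
  · exfalso
    rw [Fcore_semi a h.1] at he
    obtain ⟨g1, k, l, g2, -⟩ := Φa_inj_same a (low1_dom_half _) (low1_dom_wall _)
      (by rcases sg_cases a.2 with s | s <;> rw [s] <;> refine abs_le.2 ⟨?_, ?_⟩ <;> linarith) wh
      (congrArg Prod.fst he)
    have g3 : S1 W.re = S1 0 := by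
      rw [S1_zero]
      rcases low1_int k with h | h | h | h | h <;> linarith [wS.1, wS.2]
    have g4 : W.re = 0 := S1_strictMono.injective g3
    have g5 : ‖W‖ ^ 2 = W.re ^ 2 + W.im ^ 2 := by rw [Complex.sq_norm, Complex.normSq_apply]; ring
    rw [w1, g4] at g5
    rcases sg_cases a.2 with s | s <;> rw [s] at g1 <;> nlinarith

theorem low_GG {a a' : Rt} (ha : a ≠ a') {ζ ζ' : ℂ} (h : ‖ζ‖ = 1) (h' : ‖ζ'‖ = 1) :
    Gh a (ζ, 0) ≠ Gh a' (ζ', 0) := by
  obtain ⟨X, y, t, e, hs⟩ := ghost_shape a h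
  obtain ⟨X', y', t', e', hs'⟩ := ghost_shape a' h'
  rw [e, e']
  exact fun he => shape_disjoint ha hs hs' (congrArg Prod.fst he)

end Pool.Agent.Lib.MP_1d0d1b_gt
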