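import Pool.Agent.Lib.MP_1d0d1b_gt.KitDefs
import Pool.Agent.Lib.MP_1d0d1b_gt.Sign

open Set Function Filter Topology
open scoped ContDiff Real

noncomputable section

namespace Pool.Agent.Lib.MP_1d0d1b_gt

namespace TowerAux

theorem circ_eq (t : ℝ) : circ t = ⟨Real.cos t, Real.sin t⟩ := by
  apply Complex.ext
  · simp [circ, Complex.exp_ofReal_mul_I_re]
  · simp [circ, Complex.exp_ofReal_mul_I_im]

theorem norm_circ (t : ℝ) : ‖circ t‖ = 1 := Complex.norm_exp_ofReal_mul_I t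

theorem circ_mem {t : ℝ} (ht : t ∈ Icc (0 : ℝ) π) : circ t ∈ Semi :=
  ⟨norm_circ t, by rw [circ_eq]; exact Real.sin_nonneg_of_mem_Icc ht⟩

theorem arccos_circ {t : ℝ} (ht : t ∈ Icc (0 : ℝ) π) : Real.arccos (circ t).re = t := by
  rw [circ_eq]
  exact Real.arccos_cos ht.1 ht.2

theorem arccos_mem (x : ℝ) : Real.arccos x ∈ Icc (0 : ℝ) π :=
  ⟨Real.arccos_nonneg x, Real.arccos_le_pi x⟩

theorem circ_arccos {z : ℂ} (hz : z ∈ Semi) : circ (Real.arccos z.re) = z := by
  have h1 : |z.re| ≤ 1 := hz.1 ▸ Complex.abs_re_le_norm z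
  have h2 : z.re ^ 2 + z.im ^ 2 = 1 := by
    have := Complex.sq_norm z
    rw [hz.1, Complex.normSq_apply] at this
    nlinarith
  rw [circ_eq, Real.cos_arccos (abs_le.1 h1).1 (abs_le.1 h1).2, Real.sin_arccos]
  apply Complex.ext
  · rfl
  · change √(1 - z.re ^ 2) = z.im
    rw [show 1 - z.re ^ 2 = z.im ^ 2 by linarith, Real.sqrt_sq hz.2]

theorem diam_re {z : ℂ} (hz : z ∈ Diam) : ((z.re : ℝ) : ℂ) = z :=
  Complex.ext rfl (by rw [Complex.ofReal_im, hz.2])

theorem diam_abs {z : ℂ} (hz : z ∈ Diam) : |z.re| ≤ 1 := (Complex.abs_re_le_norm z).trans hz.1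

theorem oDisc_sub {z : ℂ} (hz : z ∈ oDisc) : z ∈ Disc := show ‖z‖ ≤ 1 from le_of_lt hz

theorem oHalf_sub {z : ℂ} (hz : z ∈ oHalf) : z ∈ Half := ⟨hz.1.le, hz.2.le⟩

theorem odom_sub {m : ℕ} {W : Type} {s : Fin m ⊕ W} {z : ℂ} (hz : z ∈ odom s) : z ∈ dom s := by
  cases s with
  | inl j => exact oDisc_sub hz
  | inr w => exact oHalf_sub hz

theorem bd_sub {z : ℂ} (hz : z ∈ Diam ∪ Semi) : z ∈ Half := by
  rcases hz with hz | hz
  · exact ⟨hz.1, hz.2.ge⟩
  · exact ⟨hz.1.le, hz.2⟩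

theorem bd_not {z : ℂ} (hz : z ∈ Diam ∪ Semi) : z ∉ oHalf := by
  rcases hz with hz | hz
  · exact fun h => h.2.ne' hz.2
  · exact fun h => h.1.ne hz.1

theorem corner_diam {e : ℂ} (he : e = 1 ∨ e = -1) : e ∈ Diam := by
  rcases he with rfl | rfl <;> exact ⟨by simp, by simp⟩

theorem contDiff_leaf {S : ℂ × ℝ → E4} (hS : ContDiff ℝ ∞ S) :
    ContDiff ℝ ∞ fun z : ℂ => S (z, 0) :=
  hS.comp (contDiff_id.prodMk contDiff_const)

theorem fderiv_leaf {S : ℂ × ℝ → E4} (hS : ContDiff ℝ ∞ S) (z p : ℂ) :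
    fderiv ℝ (fun z : ℂ => S (z, 0)) z p = fderiv ℝ S (z, 0) (p, 0) := by
  have h1 : HasFDerivAt (fun z : ℂ => ((z, 0) : ℂ × ℝ)) (ContinuousLinearMap.inl ℝ ℂ ℝ) z :=
    hasFDerivAt_prodMk_left z 0
  have h2 := ((hS.differentiable (by simp)) (z, 0)).hasFDerivAt.comp z h1
  exact congrArg (fun A : ℂ →L[ℝ] E4 => A p) h2.fderiv

theorem fderiv_bot {S : ℂ × ℝ → E4} {g : ℂ → E4} {α : ℝ × ℝ → ℂ} (hS : ContDiff ℝ ∞ S)
    (hg : ContDiff ℝ ∞ g) (hα : ContDiff ℝ ∞ α) {x : ℝ}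
    (h : ∀ᶠ q : ℝ × ℝ in 𝓝 (x, 0), S ((q.1 : ℂ), q.2) = g (α q)) :
    fderiv ℝ S ((x : ℂ), 0) (0, 1) ∈ range (fderiv ℝ g (α (x, 0))) := by
  have c0 : Tendsto (fun l : ℝ => ((x, l) : ℝ × ℝ)) (𝓝 0) (𝓝 (x, 0)) :=
    (continuous_const.prodMk continuous_id).tendsto 0
  have h0 : (fun l : ℝ => S ((x : ℂ), l)) =ᶠ[𝓝 0] fun l : ℝ => g (α (x, l)) := c0.eventually h
  have h1 : HasFDerivAt (fun l : ℝ => S ((x : ℂ), l))
      ((fderiv ℝ S ((x : ℂ), 0)).comp (ContinuousLinearMap.inr ℝ ℂ ℝ)) 0 :=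
    ((hS.differentiable (by simp)) _).hasFDerivAt.comp (0 : ℝ) (hasFDerivAt_prodMk_right _ _)
  have h2 : HasFDerivAt (fun l : ℝ => α (x, l))
      ((fderiv ℝ α (x, 0)).comp (ContinuousLinearMap.inr ℝ ℝ ℝ)) 0 :=
    ((hα.differentiable (by simp)) _).hasFDerivAt.comp (0 : ℝ) (hasFDerivAt_prodMk_right _ _)
  have h3 := ((hg.differentiable (by simp)) (α (x, 0))).hasFDerivAt.comp (0 : ℝ) h2
  have h4 := (h3.congr_of_eventuallyEq h0).unique h1
  exact ⟨_, congrArg (fun A : ℝ →L[ℝ] E4 => A 1) h4⟩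

variable {B : Base} {n : ℕ} (T : SlabTower B n)

/-- All sheets. -/
def ff : Fin 2 ⊕ T.W → ℂ → E4 := Sum.elim B.f fun w z => T.S w (z, 0)

def aa (w : T.W) (z : ℂ) : ℂ := T.α w (z.re, 0)

def bb (w : T.W) (z : ℂ) : ℂ := T.b w (Real.arccos z.re)

theorem ff_smooth (s : Fin 2 ⊕ T.W) : ContDiff ℝ ∞ (ff T s) := by
  cases s with
  | inl j => exact B.f_smooth j
  | inr w => exact contDiff_leaf (T.smooth w)

theorem a_mem (w : T.W) {z : ℂ} (hz : z ∈ Diam) : aa T w z ∈ oDisc := T.α_mem w _ (diam_abs hz)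

theorem b_mem (w : T.W) (z : ℂ) : bb T w z ∈ odom (T.up w) := T.b_mem w _ (arccos_mem _)

theorem a_eq (w : T.W) {z : ℂ} (hz : z ∈ Diam) : B.f (T.lo w) (aa T w z) = T.S w (z, 0) := by
  have h := (T.bot w _ (diam_abs hz)).self_of_nhds
  simp only [diam_re hz] at h
  exact h.symm

theorem b_eq (w : T.W) {z : ℂ} (hz : z ∈ Semi) : ff T (T.up w) (bb T w z) = T.S w (z, 0) := by
  have h := (T.top w _ (arccos_mem z.re)).self_of_nhds
  rw [circ_arccos hz] at h
  exact h.symm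

theorem sign (w : T.W) :
    interDet (ff T (.inl (T.lo w))) (ff T (T.up w)) (aa T w 1) (bb T w 1) *
      interDet (ff T (.inl (T.lo w))) (ff T (T.up w)) (aa T w (-1)) (bb T w (-1)) < 0 := by
  have h := opp_signs (T.smooth w) (ff_smooth T (.inl (T.lo w))) (ff_smooth T (T.up w))
    (T.α_smooth w) (T.b_smooth w) (T.imm w) (T.bot w) (T.top w) (T.span w)
  simpa only [aa, bb, Complex.one_re, Complex.neg_re, Real.arccos_one, Real.arccos_neg_one] using h

theorem clean (w : T.W) {z : ℂ} (hz : z ∈ Diam ∪ Semi) (s : Fin 2 ⊕ T.W) {x : ℂ} (hx : x ∈ dom s)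
    (h : ff T s x = T.S w (z, 0)) : (s = .inr w ∧ x = z) ∨
      (z ∈ Diam ∧ s = .inl (T.lo w) ∧ x = aa T w z) ∨ (z ∈ Semi ∧ s = T.up w ∧ x = bb T w z) := by
  cases s with
  | inl j =>
    rcases T.WD w z (bd_sub hz) j x hx h.symm with ⟨h1, rfl⟩ | ⟨h1, h2⟩ | ⟨h1, -⟩
    · exact Or.inr (Or.inl ⟨h1, rfl, B.f_inj _ hx (oDisc_sub (a_mem T w h1))
        (h.trans (a_eq T w h1).symm)⟩)
    · refine Or.inr (Or.inr ⟨h1, h2.symm, ?_⟩)
      have h3 := b_mem T w z
      have h4 := b_eq T w h1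
      rw [h2] at h3 h4
      exact B.f_inj j hx (oDisc_sub h3) (h.trans h4.symm)
    · exact absurd h1 (bd_not hz)
  | inr w' =>
    rcases T.WW w' w x hx z (bd_sub hz) h with ⟨rfl, h1⟩ | ⟨h1, t, ht, -, h2⟩ | ⟨h1, t, ht, h2, h3⟩
    · exact Or.inl ⟨rfl, h1⟩
    · have h3 := T.b_mem w' t ht
      rw [h1, ← h2] at h3
      exact absurd h3 (bd_not hz)
    · refine Or.inr (Or.inr ⟨h2 ▸ circ_mem ht, h1.symm, ?_⟩)
      rw [h3, bb, h2, arccos_circ ht]

theorem corner {c : T.W} {e : ℂ} (he : e = 1 ∨ e = -1) {s : Fin 2 ⊕ T.W} {x : ℂ} (hx : x ∈ odom s)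
    (h : ff T s x = T.S c (e, 0)) :
    (s, x) = (.inl (T.lo c), aa T c e) ∨ (s, x) = (T.up c, bb T c e) := by
  have hd : e ∈ Diam ∪ Semi := Or.inl (corner_diam he)
  rcases clean T c hd s (odom_sub hx) h with ⟨rfl, rfl⟩ | ⟨-, rfl, rfl⟩ | ⟨-, rfl, rfl⟩
  · exact absurd hx (bd_not hd)
  · exact Or.inl rfl
  · exact Or.inr rfl

theorem corner_transv (c : T.W) {e : ℂ} (he : e = 1 ∨ e = -1) :
    Transv (ff T (.inl (T.lo c))) (ff T (T.up c)) (aa T c e) (bb T c e) := by
  have h := (sign T c).ne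
  rcases he with rfl | rfl
  · exact transv_of_interDet (left_ne_zero_of_mul h)
  · exact transv_of_interDet (right_ne_zero_of_mul h)

theorem same_W {w w' : T.W} {x x' : ℂ} (hx : x ∈ oHalf) (hx' : x' ∈ oHalf)
    (h : T.S w (x, 0) = T.S w' (x', 0)) : w = w' ∧ x = x' := by
  rcases T.WW w w' x (oHalf_sub hx) x' (oHalf_sub hx') h with
    h1 | ⟨-, t, ht, h2, -⟩ | ⟨-, t, ht, h2, -⟩
  · exact h1
  · exact absurd hx (bd_not (Or.inr (h2 ▸ circ_mem ht)))
  · exact absurd hx' (bd_not (Or.inr (h2 ▸ circ_mem ht)))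

theorem mixed {j : Fin 2} {w : T.W} {x x' : ℂ} (hx : x ∈ oDisc) (hx' : x' ∈ oHalf)
    (h : B.f j x = T.S w (x', 0)) : Transv (B.f j) (fun z => T.S w (z, 0)) x x' ∧
      ((∃ c, T.S w (x', 0) = T.S c (1, 0) ∨ T.S w (x', 0) = T.S c (-1, 0)) ∨ n ≤ T.ord w) := by
  rcases T.WD w x' (oHalf_sub hx') j x (oDisc_sub hx) h.symm with ⟨h1, -⟩ | ⟨h1, -⟩ | ⟨-, h1⟩
  · exact absurd hx' (bd_not (Or.inl h1))
  · exact absurd hx' (bd_not (Or.inr h1))
  · exact h1

/-- Two different interior points of the same kind with the same image lie at a corner. -/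
theorem same_kind {s s' : Fin 2 ⊕ T.W} {x x' : ℂ} (hx : x ∈ odom s) (hx' : x' ∈ odom s')
    (hne : (s, x) ≠ (s', x')) (h : ff T s x = ff T s' x') (hk : s.isLeft = s'.isLeft) :
    ∃ c e, (e = 1 ∨ e = -1) ∧ ff T s x = T.S c (e, 0) := by
  cases s with
  | inl j =>
    cases s' with
    | inl j' =>
      have hj : j ≠ j' := by
        rintro rfl
        exact hne (by rw [B.f_inj j (oDisc_sub hx) (oDisc_sub hx') h])
      obtain ⟨c, hc | hc⟩ := T.DD j j' hj x (oDisc_sub hx) x' (oDisc_sub hx') h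
      · exact ⟨c, 1, Or.inl rfl, hc⟩
      · exact ⟨c, -1, Or.inr rfl, hc⟩
    | inr w' => simp at hk
  | inr w =>
    cases s' with
    | inl j' => simp at hk
    | inr w' =>
      obtain ⟨rfl, rfl⟩ := same_W T hx hx' h
      exact absurd rfl hne

theorem transv {s s' : Fin 2 ⊕ T.W} {x x' : ℂ} (hx : x ∈ odom s) (hx' : x' ∈ odom s')
    (hne : (s, x) ≠ (s', x')) (h : ff T s x = ff T s' x') : Transv (ff T s) (ff T s') x x' := by
  by_cases hk : s.isLeft = s'.isLeft
  · obtain ⟨c, e, he, hc⟩ := same_kind T hx hx' hne h hk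
    have ht := corner_transv T c he
    rcases corner T he hx hc with h1 | h1 <;>
      rcases corner T he hx' (h.symm.trans hc) with h2 | h2
    · exact absurd (h1.trans h2.symm) hne
    · obtain ⟨rfl, rfl⟩ := Prod.ext_iff.1 h1
      obtain ⟨rfl, rfl⟩ := Prod.ext_iff.1 h2
      exact ht
    · obtain ⟨rfl, rfl⟩ := Prod.ext_iff.1 h1
      obtain ⟨rfl, rfl⟩ := Prod.ext_iff.1 h2
      exact ht.symm
    · exact absurd (h1.trans h2.symm) hne
  · cases s with
    | inl j =>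
      cases s' with
      | inl j' => simp at hk
      | inr w' => exact (mixed T hx hx' h).1
    | inr w =>
      cases s' with
      | inl j' => exact (mixed T hx' hx h.symm).1.symm
      | inr w' => simp at hk

theorem no_triple {s s' s'' : Fin 2 ⊕ T.W} {x x' x'' : ℂ} (hx : x ∈ odom s) (hx' : x' ∈ odom s')
    (hx'' : x'' ∈ odom s'') (hne : (s, x) ≠ (s', x')) (h : ff T s x = ff T s' x')
    (h' : ff T s'' x'' = ff T s x) : (s'', x'') = (s, x) ∨ (s'', x'') = (s', x') := by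
  by_contra hcon
  obtain ⟨n1, n2⟩ := not_or.1 hcon
  have key : ∃ c e, (e = 1 ∨ e = -1) ∧ ff T s x = T.S c (e, 0) := by
    by_cases k1 : s.isLeft = s'.isLeft
    · exact same_kind T hx hx' hne h k1
    · by_cases k2 : s''.isLeft = s.isLeft
      · rw [← h']
        exact same_kind T hx'' hx n1 h' k2
      · rw [← h']
        refine same_kind T hx'' hx' n2 (h'.trans h) ?_
        revert k1 k2
        cases s.isLeft <;> cases s'.isLeft <;> cases s''.isLeft <;> simp
  obtain ⟨c, e, he, hc⟩ := key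
  rcases corner T he hx hc with h1 | h1 <;>
    rcases corner T he hx' (h.symm.trans hc) with h2 | h2 <;>
    rcases corner T he hx'' (h'.trans hc) with h3 | h3
  · exact hne (h1.trans h2.symm)
  · exact hne (h1.trans h2.symm)
  · exact n1 (h3.trans h1.symm)
  · exact n2 (h3.trans h2.symm)
  · exact n2 (h3.trans h2.symm)
  · exact n1 (h3.trans h1.symm)
  · exact hne (h1.trans h2.symm)
  · exact hne (h1.trans h2.symm)

theorem order {s s' : Fin 2 ⊕ T.W} {x x' : ℂ} (hx : x ∈ odom s) (hx' : x' ∈ odom s')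
    (hne : (s, x) ≠ (s', x')) (h : ff T s x = ff T s' x') :
    (∃ w, ff T s x = T.S w (1, 0) ∨ ff T s x = T.S w (-1, 0)) ∨
      n ≤ Sum.elim (fun _ => 0) T.ord s + Sum.elim (fun _ => 0) T.ord s' := by
  by_cases hk : s.isLeft = s'.isLeft
  · obtain ⟨c, e, rfl | rfl, hc⟩ := same_kind T hx hx' hne h hk
    · exact Or.inl ⟨c, Or.inl hc⟩
    · exact Or.inl ⟨c, Or.inr hc⟩
  · cases s with
    | inl j =>
      cases s' with
      | inl j' => simp at hk
      | inr w' =>
        rcases (mixed T hx hx' h).2 with h1 | h1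
        · rw [h]
          exact Or.inl h1
        · exact Or.inr (by simpa using h1)
    | inr w =>
      cases s' with
      | inl j' =>
        rcases (mixed T hx' hx h.symm).2 with h1 | h1
        · exact Or.inl h1
        · exact Or.inr (by simpa using h1)
      | inr w' => simp at hk

end TowerAux

open TowerAux in
theorem SlabTower.toFramed {B : Base} {L : Fin 2 → ℝ → V3} (hD : DFacts B L) {n : ℕ}
    (T : SlabTower B n) : Nonempty (FramedTower L n) := by
  refine ⟨{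
    W := T.W
    finite := T.finite
    f := ff T
    smooth := ff_smooth T
    immersion := ?_
    bdry := hD.bdry
    neat := hD.neat
    disc_pos := hD.pos
    whitney_pos := T.pos
    lo := fun w => .inl (T.lo w)
    up := T.up
    ord := Sum.elim (fun _ => 0) T.ord
    ord_disc := fun _ => rfl
    ord_whitney := ?_
    a := aa T
    b := bb T
    a_cont := fun w => ((T.α_smooth w).continuous.comp
      (Complex.continuous_re.prodMk continuous_const)).continuousOn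
    b_cont := fun w => ((T.b_smooth w).continuous.comp
      (Real.continuous_arccos.comp Complex.continuous_re)).continuousOn
    a_mem := fun w z hz => a_mem T w hz
    b_mem := fun w z _ => TowerAux.b_mem T w z
    a_eq := fun w z hz => a_eq T w hz
    b_eq := fun w z hz => b_eq T w hz
    sign := sign T
    clean := fun w z hz s x hx h => clean T w hz s hx h
    transv := fun s s' x hx x' hx' hne h => transv T hx hx' hne h
    no_triple := fun s s' s'' x hx x' hx' x'' hx'' hne h h' => no_triple T hx hx' hx'' hne h h'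
    order := fun s s' x hx x' hx' hne h => order T hx hx' hne h
    v := fun w z => fderiv ℝ (T.S w) (z, 0) (0, 1)
    v_cont := ?_
    v_normal := ?_
    v_lo := ?_
    v_up := ?_ }⟩
  · intro s z hz
    cases s with
    | inl j => exact B.f_imm j z hz
    | inr w =>
      intro p q h
      have h1 : fderiv ℝ (T.S w) (z, 0) (p, 0) = fderiv ℝ (T.S w) (z, 0) (q, 0) := by
        rw [← TowerAux.fderiv_leaf (T.smooth w), ← TowerAux.fderiv_leaf (T.smooth w)]
        exact h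
      exact congrArg Prod.fst (T.imm w z hz h1)
  · intro w
    rcases h : T.up w with j | w'
    · simpa using T.ord_inl w j h
    · simpa using T.ord_inr w w' h
  · intro w
    have h1 : Continuous (fderiv ℝ (T.S w)) := (T.smooth w).continuous_fderiv (by simp)
    exact ((h1.comp (continuous_id.prodMk continuous_const)).clm_apply
      continuous_const).continuousOn
  · rintro w z hz ⟨p, hp⟩
    have h1 : fderiv ℝ (T.S w) (z, 0) (p, 0) = fderiv ℝ (T.S w) (z, 0) (0, 1) := by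
      rw [← TowerAux.fderiv_leaf (T.smooth w)]
      exact hp
    exact zero_ne_one (congrArg Prod.snd (T.imm w z hz h1))
  · intro w z hz
    have h := fderiv_bot (T.smooth w) (B.f_smooth (T.lo w)) (T.α_smooth w)
      (T.bot w _ (diam_abs hz))
    rw [diam_re hz] at h
    exact h
  · intro w z hz y
    obtain ⟨P, Q, h⟩ := T.span w _ (arccos_mem z.re) y
    rw [circ_arccos hz] at h
    refine ⟨P.1, Q, P.2, ?_⟩
    have h1 : fderiv ℝ (ff T (.inr w)) z P.1 = fderiv ℝ (T.S w) (z, 0) (P.1, 0) :=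
      TowerAux.fderiv_leaf (T.smooth w) z P.1
    have h2 : fderiv ℝ (T.S w) (z, 0) P =
        fderiv ℝ (T.S w) (z, 0) (P.1, 0) + P.2 • fderiv ℝ (T.S w) (z, 0) (0, 1) := by
      rw [← map_smul, ← map_add]
      congr 1
      ext <;> simp
    rw [h1, ← h, h2, add_right_comm]
    rfl

theorem FramedTower.weaken {m : ℕ} {L : Fin m → ℝ → V3} {n n' : ℕ} (T : FramedTower L n)
    (h : n' ≤ n) : Nonempty (FramedTower L n') :=
  ⟨{ T with
    order := fun s s' x hx x' hx' hne he =>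
      (T.order s s' x hx x' hx' hne he).imp id fun h' => h.trans h' }⟩

end Pool.Agent.Lib.MP_1d0d1b_gt
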