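import Pool.Agent.Lib.MP_1d0d1b_gt.Init
import Pool.Agent.Lib.MP_1d0d1b_gt.Induct
import Pool.Agent.Lib.MP_1d0d1b_gt.CableB
import Pool.Agent.Lib.MP_1d0d1b_gt.Tower
import Pool.Agent.Lib.MP_1d0d1b_gt.Bing

open Set Function Filter Topology
open scoped ContDiff Real

noncomputable section

namespace Pool.Agent.Lib.MP_1d0d1b_gt

theorem main : ∃ (K : ℝ → V3) (L : Fin 2 → ℝ → V3), IsKnot K ∧ ArfOne K ∧ IsBingDouble K L ∧
    ∀ n, Nonempty (FramedTower L n) := by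
  refine ⟨KK, LL, isKnot_KK, arfOne_KK, isBingDouble_LL, fun n => ?_⟩
  obtain ⟨B, C, hC, hD, ⟨V⟩⟩ := exists_init
  obtain ⟨C', hC', hP⟩ := Config.exists_clear hC (n + 1)
  obtain ⟨T⟩ := cable hC' (Nat.le_add_left 1 n) hP V
  obtain ⟨T'⟩ := T.toFramed hD
  exact T'.weaken (Nat.le_succ n)

end Pool.Agent.Lib.MP_1d0d1b_gt
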