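import Pool.Agent.Lib.MP_1d0d1b_gt.State

/-!
Explicit formulas for the initial data (no proofs here).
Model space: `((x, y), h)` with `(x, y)` modulo `ℤ²`, height `h`; time is the last coordinate.
-/

open Set Function Filter Topology
open scoped ContDiff Real

noncomputable section

namespace Pool.Agent.Lib.MP_1d0d1b_gt

/-- Ramp: `0` for `u ≤ 0`, `u` for `u ≥ 1/100`. -/
def ramp (u : ℝ) : ℝ := u * step 0 (1 / 100) u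

/-- Odd saturation: identity on `[-9/10, 9/10]`, `±1` outside `(-1, 1)`. -/
def Hs (σ : ℝ) : ℝ := σ + step (9 / 10) 1 σ * (1 - σ) - step (9 / 10) 1 (-σ) * (1 + σ)

/-! ### The thickened surface -/

def saw (x : ℝ) : ℝ :=
  (Int.fract x - 1 / 2) * step (3 / 100) (4 / 100) (Int.fract x) *
    step (3 / 100) (4 / 100) (1 - Int.fract x)

def tw (x : ℝ) : ℂ := circ (2 * π * step (-1 / 40) (1 / 40) (Int.fract (x + 1 / 2) - 1 / 2))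

def Φ0 (x y h : ℝ) : V3 :=
  (((3 - (1 + h) * Real.cos (2 * π * y) : ℝ) : ℂ) * circ (2 * π * x),
    (1 + h) * Real.sin (2 * π * y))

def twA (q : (ℝ × ℝ) × ℝ) : ℂ := (⟨saw q.1.1, q.2 / 25⟩ : ℂ) * (tw q.1.2 - 1)

def twB (q : (ℝ × ℝ) × ℝ) : ℂ := (⟨saw q.1.2, q.2 / 25⟩ : ℂ) * (tw q.1.1 - 1)

/-- The standard thickened torus with a full twist in each band. -/
def Φ (q : (ℝ × ℝ) × ℝ) : V3 :=
  Φ0 (q.1.1 + (twA q).re) (q.1.2 + (twB q).re) (q.2 / 25 + (twA q).im + (twB q).im)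

/-- The region (complement of small squares at the lattice points) where `Φ` is an embedding. -/
def Dom : Set (ℝ × ℝ) :=
  {p | (1 / 20 ≤ Int.fract p.1 ∧ Int.fract p.1 ≤ 19 / 20) ∨
    (1 / 20 ≤ Int.fract p.2 ∧ Int.fract p.2 ≤ 19 / 20)}

/-- The quadratic form whose level set `qf = 16/100` is the boundary ellipse. -/
def qf (p : ℝ × ℝ) : ℝ := ((p.1 + p.2) / 2) ^ 2 + (p.1 - p.2) ^ 2

/-- The linear map taking the unit circle to the ellipse. -/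
def MM : ℂ →L[ℝ] ℝ × ℝ :=
  (-(2 / 5 : ℝ)) • ((Complex.reCLM + (1 / 2 : ℝ) • Complex.imCLM).prod
    (Complex.reCLM - (1 / 2 : ℝ) • Complex.imCLM))

/-- The knot. -/
def KK (t : ℝ) : V3 := Φ (MM (circ t), 0)

/-- Collar coordinates `(t, n, h)` near the knot. -/
def φt (q : ℝ × ℝ × ℝ) : V3 := Φ ((1 + q.2.1) • MM (circ q.1), q.2.2)

/-- The tubular neighbourhood. -/
def φK (q : ℝ × ℂ) : V3 := φt (q.1, q.2.re / 10, 2 * q.2.im)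

/-! ### The two discs -/

def gg (t : ℝ) : ℝ :=
  -69 / 100 + ramp (1 / 100 - t) + ramp (t - 96 / 100) + ((t + 97 / 100) - ramp (t + 97 / 100))

/-- The rounded square (walls). -/
def Γ (t : ℝ) : ℝ × ℝ := (gg t, gg (-t))

/-- The inverse of `MM`. -/
def MMi (p : ℝ × ℝ) : ℂ := ⟨-(5 / 4) * (p.1 + p.2), -(5 / 2) * (p.1 - p.2)⟩

/-- The angle of the wall point `Γ t` in the ellipse coordinates. -/
def Θ (t : ℝ) : ℝ := Complex.arg (MMi (Γ t))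

def dd (t : ℝ) : ℝ :=
  69 / 100 - 2 / 5 * (step (96 / 100) (97 / 100) t + step (96 / 100) (97 / 100) (-t))

def ψh (σ : ℝ) : ℝ := (ramp (σ - 9 / 10) + ramp (-σ - 9 / 10)) / 100

def σL (t : ℝ) : ℝ := 9 / 10 + 100 * dd t * (1 - (2 / 5) / √(qf (Γ t)))

def νk (t : ℝ) : ℝ := step (143 / 100) (147 / 100) t + step (143 / 100) (147 / 100) (-t)

def νb (t : ℝ) : ℝ := step (140 / 100) (143 / 100) t + step (140 / 100) (143 / 100) (-t)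

def kk (x : ℝ) : ℝ :=
  (1 - νk (37 / 20 * x)) * σL (37 / 20 * x) / √(1 - x ^ 2) + 16 * νk (37 / 20 * x)

def tz (z : ℂ) : ℝ := 37 / 20 * z.re

def σz (z : ℂ) : ℝ := kk z.re * z.im

/-- Horizontal position of the point `z` of the first disc. -/
def pz (z : ℂ) : ℝ × ℝ := (1 - ψh (σz z) / dd (tz z)) • Γ (tz z)

/-- Height. -/
def hz (z : ℂ) : ℝ := -1 / 2 + Hs (σz z)

def χX (x : ℝ) : ℝ := step (-6 / 10) (-58 / 100) x * (1 - step (-5 / 100) (-3 / 100) x)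

def χh (h : ℝ) : ℝ := step (-6 / 10) (-55 / 100) h * (1 - step 0 (1 / 10) h)

def bz (z : ℂ) : ℝ :=
  (1 - νb (tz z)) * ((qf (pz z) - 16 / 100) / (6 / 1000)) + νb (tz z) * (10 * (1 - ‖z‖ ^ 2))

/-- Time. -/
def Tz (z : ℂ) : ℝ :=
  Hs (bz z) * (1 - 1 / 3 * (χX (pz z).1 * χh (hz z)) - 2 / 3 * (χX (pz z).2 * χh (hz z)))

/-- The involution of model space for the second disc. -/
def io (j : Fin 2) (q : (ℝ × ℝ) × ℝ) : (ℝ × ℝ) × ℝ := if j = 0 then q else -q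

def cj (j : Fin 2) (z : ℂ) : ℂ := if j = 0 then z else (starRingEnd ℂ) z

/-- The two discs. -/
def fD (j : Fin 2) (z : ℂ) : E4 :=
  (Φ (io j (pz (cj j z), hz (cj j z))), Tz (cj j z))

/-- The link. -/
def LL (j : Fin 2) (t : ℝ) : V3 := (fD j (circ t)).1

/-! ### Slot coordinates -/

/-- Roots: a disc and a type (`false`: horizontal walls, `true`: vertical walls). -/
abbrev Rt := Fin 2 × Bool

def sw (ty : Bool) (p : ℝ × ℝ) : ℝ × ℝ := if ty then (p.2, p.1) else p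

/-- `Φ` in the slot coordinates of the root `a`: `X` along the wall, `y` across, height `h`. -/
def Φa (a : Rt) (X y h : ℝ) : V3 := Φ (io a.1 (sw a.2 (X, y), h))

def sg (ty : Bool) : ℝ := if ty then -1 else 1

/-- Depth of the time drop. -/
def cT (ty : Bool) : ℝ := if ty then 2 / 3 else 1 / 3

def S1 (u : ℝ) : ℝ := -26 / 100 + 2 / 5 * ((20 * u - 3 / 4) / √(1 + (20 * u - 3 / 4) ^ 2))

/-- The landing point in the core domain. -/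
def dL : ℝ := 159 / 160

def cs (ty : Bool) (z : ℂ) : ℂ := if ty then (starRingEnd ℂ) z else z

/-- Wall coordinate of the ghost leaves. -/
def Zg (ty : Bool) (q : ℂ × ℂ) : ℂ :=
  -Complex.I * ((sg ty * (45 / 100 - 8 * q.2.re) : ℝ) : ℂ) * cs ty q.1

/-- The ghost fat slab (before the generic perturbation). -/
def Gh (a : Rt) (q : ℂ × ℂ) : E4 :=
  (Φa a (S1 (Zg a.2 q).re) (31 / 100 + q.2.im) (-1 / 4 + (Zg a.2 q).im),
    1 + (45 / 100 - 8 * q.2.re) ^ 2 * (1 - ‖q.1‖ ^ 2))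

/-! ### The first order Whitney discs -/

def nr (r : ℝ) : ℝ := 1 / 5 + ramp (r - 1 / 5)

def nn (ξ : ℂ) : ℝ := nr ‖ξ‖

def ρn (n : ℝ) : ℝ := 84 / 10 - 10 * n

def ρ0 (ξ : ℂ) : ℝ := ρn (nn ξ)

def ρf (ty : Bool) : ℝ := 9 / 10 + sg ty / 4

def ρa (ty : Bool) : ℝ := if ty then 16 / 100 else 36 / 100

def ρb (ty : Bool) : ℝ := if ty then 0 else 28 / 100

/-- The wall radius, bent near the end towards the target value `ρe`. -/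
def ρ1 (ty : Bool) (ρe : ℝ) (ξ : ℂ) : ℝ :=
  step (ρb ty - 2 / 100) (ρb ty) (ρ0 ξ) * ρ0 ξ +
    (1 - step (ρb ty - 2 / 100) (ρb ty) (ρ0 ξ)) * (ρe + (1 - nn ξ) / 20)

def AA (ty : Bool) (n : ℝ) : ℝ := 1 / Real.tan (π * (1 / 100 + ramp (ρn n - ρf ty) / 100))

def γn (ty : Bool) (n : ℝ) : ℝ :=
  (1 - step (3 / 10) (4 / 10) n) * 10 + step (3 / 10) (4 / 10) n * (AA ty n / n)

/-- The radial profile: `‖ξt ty ξ‖ = ϱw ty ‖ξ‖`. -/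
def ϱw (ty : Bool) (r : ℝ) : ℝ := γn ty (nr r) * r

def ξt (ty : Bool) (ξ : ℂ) : ℂ := (γn ty (nn ξ) : ℂ) * ξ

def ωw (ty : Bool) (ξ : ℂ) : ℂ := (ξt ty ξ - Complex.I) / (ξt ty ξ + Complex.I)

def y0 (ty : Bool) (ξ : ℂ) : ℝ := -(Complex.arg (ωw ty ξ)) / (2 * π)

def uw (ty : Bool) (ξ : ℂ) : ℝ := 1 - ‖ωw ty ξ‖ ^ 2

def cu (u : ℝ) : ℝ := u * (1 - step (2 / 10) (3 / 10) u) / 2

/-- The coordinate across the slot (modulo `1`), measured from the slot centre. -/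
def yw (ty : Bool) (ξ : ℂ) : ℝ :=
  y0 ty ξ - cu (uw ty ξ) * Real.sin (2 * π * y0 ty ξ) / (2 * π)

def ςj (j : Fin 2) : ℝ := if j = 0 then 1 else -1

def bj (j : Fin 2) (y : ℝ) : ℝ :=
  if j = 0 then step (-1 / 40) (1 / 40) y else 1 - step (-1 / 40) (1 / 40) (-y)

def χw (ty : Bool) (ξ : ℂ) : ℝ := step 0 (1 / 200) (yw ty ξ)

def ϑw (a : Rt) (ρe : ℝ) (ξ : ℂ) : ℝ := -2 * π * ςj a.1 * step (5 / 10) (6 / 10) (ρ1 a.2 ρe ξ)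

/-- Framing angle. -/
def φw (a : Rt) (ρe : ℝ) (ξ : ℂ) : ℝ :=
  (1 - step (4 / 10) (5 / 10) (uw a.2 ξ)) * (ϑw a ρe ξ * χw a.2 ξ) +
    step (4 / 10) (5 / 10) (uw a.2 ξ) * (-2 * π * ςj a.1 * bj a.1 (3 / 10 + yw a.2 ξ))

def νR (ρ : ℝ) : ℝ := step (41 / 100) (43 / 100) ρ * (1 - step (61 / 100) (62 / 100) ρ)

def νκ (ρ : ℝ) : ℝ := 1 - step (625 / 1000) (64 / 100) ρ

def Zw (a : Rt) (ρe : ℝ) (ξ : ℂ) (l : ℝ) : ℂ :=
  -Complex.I * ((sg a.2 * ρ1 a.2 ρe ξ : ℝ) : ℂ) *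
      (1 + (χw a.2 ξ : ℂ) * (circ (ϑw a ρe ξ) - 1)) +
    circ (ϑw a ρe ξ * χw a.2 ξ) *
      ((((1 - νR (ρ1 a.2 ρe ξ)) * l : ℝ) : ℂ) + (νR (ρ1 a.2 ρe ξ) : ℂ) *
        (-Complex.I * ((sg a.2 * ρ1 a.2 ρe ξ : ℝ) : ℂ)) * (Cay ((sg a.2 * l : ℝ) : ℂ) - 1))

def Xw (a : Rt) (Xk : ℝ → ℝ) (ρe : ℝ) (ξ : ℂ) (l₁ l₂ : ℝ) : ℝ :=
  step (ρb a.2) (ρa a.2) (ρ0 ξ) *
      ((1 - νκ (ρ1 a.2 ρe ξ)) * (-1 / 2 + l₁ * Real.cos (φw a ρe ξ)) +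
        νκ (ρ1 a.2 ρe ξ) * S1 (Zw a ρe ξ l₁).re) +
    (1 - step (ρb a.2) (ρa a.2) (ρ0 ξ)) * (Xk (yw a.2 ξ) + l₂)

def hw (a : Rt) (ρe : ℝ) (ξ : ℂ) (l₁ : ℝ) : ℝ :=
  (1 - νκ (ρ1 a.2 ρe ξ)) *
      ((1 - step (2 / 10) (3 / 10) (uw a.2 ξ)) * (-1 / 2 + Hs (1 / 4 - sg a.2 * ρ1 a.2 ρe ξ)) +
        25 * l₁ * Real.sin (φw a ρe ξ)) +
    νκ (ρ1 a.2 ρe ξ) * (-1 / 4 + (Zw a ρe ξ l₁).im)

def Tw (a : Rt) (ρe : ℝ) (ξ : ℂ) : ℝ :=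
  1 - cT a.2 * χh (-1 / 4 - sg a.2 * ρ1 a.2 ρe ξ) +
    step (4 / 10) (ρf a.2 + 2 / 100) (ρ0 ξ) * uw a.2 ξ

/-- Centre and frame of the core circle `y ↦ Φa a (-1/2) y 0`. -/
def c0 (a : Rt) : V3 := if a.2 then (0, 0) else (-3, 0)

def e1 (a : Rt) : V3 := if a.2 then (4, 0) else (1, 0)

def e2 (a : Rt) : V3 :=
  if a.2 then (((4 * ςj a.1 : ℝ) : ℂ) * Complex.I, 0) else (0, ςj a.1)

def e3 (a : Rt) : V3 :=
  if a.2 then (0, -ςj a.1) else (((-ςj a.1 : ℝ) : ℂ) * Complex.I, 0)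

def lin (a : Rt) (z : ℂ) : V3 := z.re • e1 a + z.im • e2 a

def deep (a : Rt) (ξ : ℂ) (l : ℝ) : V3 :=
  c0 a + ((1 - step (7 / 10) (8 / 10) (uw a.2 ξ)) / ‖ωw a.2 ξ‖ +
      2 * step (7 / 10) (8 / 10) (uw a.2 ξ)) •
    lin a (circ (6 / 10 * π) * (starRingEnd ℂ) (ωw a.2 ξ)) + l • e3 a

def bW (ξ : ℂ) : ℝ := step (1 / 1000) (2 / 1000) (‖ξ + Complex.I / 10‖ ^ 2)

/-- The Whitney disc formula. -/
def Wf (a : Rt) (Xk : ℝ → ℝ) (ρe : ℝ) (ξ : ℂ) (l₁ l₂ : ℝ) : E4 :=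
  bW ξ • (((1 - step (55 / 100) (65 / 100) (uw a.2 ξ)) •
      Φa a (Xw a Xk ρe ξ l₁ l₂) (3 / 10 + yw a.2 ξ) (hw a ρe ξ l₁) +
    step (55 / 100) (65 / 100) (uw a.2 ξ) • deep a ξ l₁, Tw a ρe ξ) : E4)

/-- The core slab (three-dimensional, before the generic perturbation). -/
def Fcore (a : Rt) (q : ℂ × ℝ) : E4 := Wf a (fun _ => -1 / 2) 0 ((4 / 5 : ℂ) * q.1) q.2 0

/-- The four-dimensional germ at the landing point. -/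
def Ftil (a : Rt) (q : ℂ × ℂ) : E4 :=
  Fcore a (q.1, q.2.re) + Gh a (Cay q.2, ((q.1.re - dL : ℝ) : ℂ)) -
    Gh a (Cay (q.2.re : ℂ), ((q.1.re - dL : ℝ) : ℂ))

/-- The two roots in `x` of `qf (x, y) = R2`. -/
def xp (R2 y : ℝ) : ℝ := (3 * y + 2 * √(5 * R2 - 4 * y ^ 2)) / 5

def xm (R2 y : ℝ) : ℝ := (3 * y - 2 * √(5 * R2 - 4 * y ^ 2)) / 5

def R2 (ty : Bool) : ℝ := 16 / 100 + 6 / 1000 * (1 - cT ty)

/-- Copies: four for the horizontal type, two (indices `0` and `3`) for the vertical type. -/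
def KV (a : Rt) : Type := {k : Fin 4 // a.2 = true → k = 0 ∨ k = 3}

def XV (ty : Bool) (k : Fin 4) (y' : ℝ) : ℝ :=
  if k = 0 then xp (R2 ty) (3 / 10 + y') - 1 else if k = 1 then -31 / 100
  else if k = 2 then -29 / 100 else xm (R2 ty) (3 / 10 + y')

def ρV (ty : Bool) (k : Fin 4) : ℝ :=
  if ty then -1 / 4 else if k = 1 ∨ k = 2 then -1 / 5 else 1 / 4

/-- The parallel copies. -/
def WV (ε : ℝ) (a : Rt) (k : KV a) (q : ℂ × ℝ) : E4 :=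
  Wf a (XV a.2 k.1) (ρV a.2 k.1) q.1 (ε * (k.1 : ℕ) + q.2) q.2

/-- The obstacle set of the root `a`. -/
def Oa (a : Rt) : Set E4 :=
  {v | ∃ X ∈ Icc (-58 / 100 : ℝ) (-5 / 100), ∃ y' ∈ Icc (-1 / 100 : ℝ) (1 / 100),
    ∃ ρ ∈ Icc (-3 / 10 : ℝ) (4 / 10),
      v = (Φa a X (3 / 10 + y') (-1 / 4 - sg a.2 * ρ), 1 - cT a.2 * χh (-1 / 4 - sg a.2 * ρ))}

def OO : Set E4 := ⋃ a, Oa a

/-- The other disc. -/
def oth (j : Fin 2) : Fin 2 := if j = 0 then 1 else 0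

end Pool.Agent.Lib.MP_1d0d1b_gt
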