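import Pool.Agent.Lib.MP_1d0d1b_gt.Phi1

open Set Function Filter Topology
open scoped ContDiff Real

noncomputable section

namespace Pool.Agent.Lib.MP_1d0d1b_gt

private theorem phi2_neg {x : ℝ} (h : 1 / 20 ≤ Int.fract x ∧ Int.fract x ≤ 19 / 20) :
    1 / 20 ≤ Int.fract (-x) ∧ Int.fract (-x) ≤ 19 / 20 := by
  rw [Int.fract_neg (by linarith [h.1] : Int.fract x ≠ 0)]
  constructor <;> linarith [h.1, h.2]

private theorem phi2_abs {x : ℝ} (h1 : 1 / 20 ≤ |x|) (h2 : |x| ≤ 19 / 20) :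
    1 / 20 ≤ Int.fract x ∧ Int.fract x ≤ 19 / 20 := by
  have h : 1 / 20 ≤ Int.fract |x| ∧ Int.fract |x| ≤ 19 / 20 := by
    rw [Int.fract_eq_self.2 ⟨by linarith, by linarith⟩]
    exact ⟨h1, h2⟩
  rcases abs_choice x with e | e
  · rwa [e] at h
  · rw [e] at h
    simpa using phi2_neg h

private theorem phi2_circ_two_pi : circ (2 * π) = 1 := by
  simpa [circ_zero] using circ_add_int 0 1

private theorem phi2_tw {x : ℝ} (h1 : -(9 / 10) ≤ x) (h2 : x ≤ 9 / 10) :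
    tw x = circ (2 * π * step (-1 / 40) (1 / 40) x) := by
  have hab : (-1 / 40 : ℝ) < 1 / 40 := by norm_num
  unfold tw
  rcases lt_or_ge x (-1 / 2) with h | h
  · have e : Int.fract (x + 1 / 2) = x + 3 / 2 :=
      Int.fract_eq_iff.2 ⟨by linarith, by linarith, -1, by push_cast; ring⟩
    rw [e, step_of_ge hab (by linarith), step_of_le hab (by linarith), mul_one, mul_zero,
      phi2_circ_two_pi, circ_zero]
  rcases lt_or_ge x (1 / 2) with h' | h'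
  · rw [Int.fract_eq_self.2 ⟨by linarith, by linarith⟩, add_sub_cancel_right]
  · have e : Int.fract (x + 1 / 2) = x - 1 / 2 :=
      Int.fract_eq_iff.2 ⟨by linarith, by linarith, 1, by push_cast; ring⟩
    rw [e, step_of_le hab (by linarith), step_of_ge hab (by linarith), mul_one, mul_zero,
      phi2_circ_two_pi, circ_zero]

private theorem phi2_tw_half {a : ℝ} (ha : |a| ≤ 2 / 5) : tw (1 / 2 + a) = 1 := by
  obtain ⟨h1, h2⟩ := abs_le.1 ha
  rw [phi2_tw (by linarith) (by linarith), step_of_ge (by norm_num) (by linarith), mul_one,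
    phi2_circ_two_pi]

private theorem phi2_saw {a : ℝ} (ha : |a| ≤ 2 / 5) : saw (1 / 2 + a) = a := by
  obtain ⟨h1, h2⟩ := abs_le.1 ha
  unfold saw
  rw [Int.fract_eq_self.2 ⟨by linarith, by linarith⟩, step_of_ge (by norm_num) (by linarith),
    step_of_ge (by norm_num) (by linarith)]
  ring

private theorem phi2_io (j : Fin 2) (q : (ℝ × ℝ) × ℝ) : io j q = ςj j • q := by
  unfold io ςj
  split_ifs <;> simp

private theorem phi2_cases (j : Fin 2) : ςj j = 1 ∨ ςj j = -1 := by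
  unfold ςj
  split_ifs <;> simp

private theorem phi2_eq (a : Rt) (X y h : ℝ) :
    Φa a X y h = Φ (ςj a.1 • sw a.2 (X, y), ςj a.1 * h) := by
  rw [Φa, phi2_io]
  rfl

theorem neg_mem_Dom {p : ℝ × ℝ} (hp : p ∈ Dom) : -p ∈ Dom :=
  hp.imp phi2_neg phi2_neg

theorem sw_mem_Dom (ty : Bool) {p : ℝ × ℝ} (hp : p ∈ Dom) : sw ty p ∈ Dom := by
  cases ty
  · exact hp
  · exact hp.symm

theorem add_int_mem_Dom {p : ℝ × ℝ} (hp : p ∈ Dom) (k l : ℤ) : p + ((k : ℝ), (l : ℝ)) ∈ Dom := by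
  simpa only [Dom, mem_ofPred_eq, Prod.fst_add, Prod.snd_add, Int.fract_add_intCast] using hp

theorem mem_Dom_fst {p : ℝ × ℝ} (h1 : 1 / 20 ≤ |p.1|) (h2 : |p.1| ≤ 19 / 20) : p ∈ Dom :=
  Or.inl (phi2_abs h1 h2)

theorem mem_Dom_snd {p : ℝ × ℝ} (h1 : 1 / 20 ≤ |p.2|) (h2 : |p.2| ≤ 19 / 20) : p ∈ Dom :=
  Or.inr (phi2_abs h1 h2)

theorem mem_Dom_of_qf {p : ℝ × ℝ} (h : 1 / 100 < qf p) (h1 : |p.1| ≤ 19 / 20)
    (h2 : |p.2| ≤ 19 / 20) : p ∈ Dom := by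
  by_cases h3 : 1 / 20 ≤ |p.1|
  · exact mem_Dom_fst h3 h1
  by_cases h4 : 1 / 20 ≤ |p.2|
  · exact mem_Dom_snd h4 h2
  exfalso
  obtain ⟨a1, a2⟩ := abs_lt.1 (not_le.1 h3)
  obtain ⟨b1, b2⟩ := abs_lt.1 (not_le.1 h4)
  unfold qf at h
  nlinarith [sq_nonneg (p.1 + p.2)]

private theorem phi2_smul_mem (j : Fin 2) {p : ℝ × ℝ} (hp : p ∈ Dom) : ςj j • p ∈ Dom := by
  rcases phi2_cases j with e | e <;> rw [e]
  · rwa [one_smul]
  · rw [neg_smul, one_smul]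
    exact neg_mem_Dom hp

private theorem phi2_abs_le (j : Fin 2) {h : ℝ} (hh : |h| ≤ 3) : |ςj j * h| ≤ 3 := by
  rcases phi2_cases j with e | e <;> simpa [e] using hh

/-- Explicit form near the core `y = 1/2`. -/
theorem Φ_near_u (x : ℝ) {a : ℝ} (ha : |a| ≤ 2 / 5) (h : ℝ) :
    Φ ((x, 1 / 2 + a), h) =
      Φ0 x (1 / 2 + ((⟨a, h / 25⟩ : ℂ) * tw x).re) ((⟨a, h / 25⟩ : ℂ) * tw x).im := by
  simp only [Φ, twA, twB, phi2_tw_half ha, phi2_saw ha, sub_self, mul_zero, Complex.zero_re,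
    Complex.zero_im, add_zero, mul_sub, mul_one, Complex.sub_re, Complex.sub_im]
  congr 1 <;> ring

/-- Explicit form near the core `x = 1/2`. -/
theorem Φ_near_v (y : ℝ) {a : ℝ} (ha : |a| ≤ 2 / 5) (h : ℝ) :
    Φ ((1 / 2 + a, y), h) =
      Φ0 (1 / 2 + ((⟨a, h / 25⟩ : ℂ) * tw y).re) y ((⟨a, h / 25⟩ : ℂ) * tw y).im := by
  simp only [Φ, twA, twB, phi2_tw_half ha, phi2_saw ha, sub_self, mul_zero, Complex.zero_re,
    Complex.zero_im, add_zero, mul_sub, mul_one, Complex.sub_re, Complex.sub_im]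
  congr 1 <;> ring

private theorem phi2_lin (a : Rt) : ∃ T : (ℝ × ℝ × ℝ) →L[ℝ] (ℝ × ℝ) × ℝ, Injective T ∧
    ∀ q : ℝ × ℝ × ℝ, T q = (ςj a.1 • sw a.2 (q.1, q.2.1), ςj a.1 * q.2.2) := by
  have h : IsLinearMap ℝ fun q : ℝ × ℝ × ℝ => (ςj a.1 • sw a.2 (q.1, q.2.1), ςj a.1 * q.2.2) := by
    constructor
    · intro x y
      cases a.2 <;> simp [sw, mul_add]
    · intro c x
      cases a.2 <;> simp [sw, mul_left_comm]
  refine ⟨LinearMap.toContinuousLinearMap (IsLinearMap.mk' _ h), ?_, fun q => rfl⟩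
  rintro ⟨x, y, z⟩ ⟨x', y', z'⟩ e
  change (ςj a.1 • sw a.2 (x, y), ςj a.1 * z) = (ςj a.1 • sw a.2 (x', y'), ςj a.1 * z') at e
  have h0 : ςj a.1 ≠ 0 := by rcases phi2_cases a.1 with e | e <;> simp [e]
  revert e
  cases a.2 <;> simp +contextual [sw, h0]

theorem Φa_smooth (a : Rt) : ContDiff ℝ ∞ (fun q : ℝ × ℝ × ℝ => Φa a q.1 q.2.1 q.2.2) := by
  obtain ⟨T, -, hT⟩ := phi2_lin a
  have e : (fun q : ℝ × ℝ × ℝ => Φa a q.1 q.2.1 q.2.2) = Φ ∘ T :=
    funext fun q => by rw [comp_apply, hT, phi2_eq]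
  rw [e]
  exact Φ_smooth.comp T.contDiff

theorem Φa_periodic (a : Rt) (X y h : ℝ) (k l : ℤ) : Φa a (X + k) (y + l) h = Φa a X y h := by
  rw [phi2_eq, phi2_eq]
  rcases phi2_cases a.1 with e | e <;> rw [e] <;> cases a.2
  · simpa [sw] using Φ_periodic (X, y) h k l
  · simpa [sw] using Φ_periodic (y, X) h l k
  · rw [← Φ_periodic _ _ k l]
    simp [sw]
  · rw [← Φ_periodic _ _ l k]
    simp [sw]

theorem Φa_imm (a : Rt) {X y h : ℝ} (hp : (X, y) ∈ Dom) (hh : |h| ≤ 3) :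
    Injective (fderiv ℝ (fun q : ℝ × ℝ × ℝ => Φa a q.1 q.2.1 q.2.2) (X, y, h)) := by
  obtain ⟨T, hi, hT⟩ := phi2_lin a
  have e : (fun q : ℝ × ℝ × ℝ => Φa a q.1 q.2.1 q.2.2) = Φ ∘ T :=
    funext fun q => by rw [comp_apply, hT, phi2_eq]
  rw [e, fderiv_comp _ (Φ_smooth.differentiable (by simp) _) T.differentiableAt, T.fderiv,
    ContinuousLinearMap.coe_comp, hT]
  exact (Φ_imm (phi2_smul_mem _ (sw_mem_Dom _ hp)) (phi2_abs_le _ hh)).comp hi

/-- Comparison of slot coordinates of two roots. -/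
theorem Φa_inj (a a' : Rt) {X y h X' y' h' : ℝ} (hp : (X, y) ∈ Dom) (hp' : (X', y') ∈ Dom)
    (hh : |h| ≤ 3) (hh' : |h'| ≤ 3) (he : Φa a X y h = Φa a' X' y' h') :
    h' = ςj a.1 * ςj a'.1 * h ∧ ∃ k l : ℤ,
      sw a'.2 (X', y') = (ςj a.1 * ςj a'.1) • sw a.2 (X, y) + ((k : ℝ), (l : ℝ)) := by
  rw [phi2_eq, phi2_eq] at he
  obtain ⟨h1, k, l, h2⟩ := Φ_inj (phi2_smul_mem _ (sw_mem_Dom _ hp))
    (phi2_smul_mem _ (sw_mem_Dom _ hp')) (phi2_abs_le _ hh) (phi2_abs_le _ hh') he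
  rcases phi2_cases a'.1 with e | e <;> rw [e] at h1 h2 ⊢
  · exact ⟨by linarith, k, l, by simpa using h2⟩
  · refine ⟨by linarith, -k, -l, ?_⟩
    rw [neg_smul, one_smul, neg_eq_iff_eq_neg] at h2
    rw [h2, mul_neg, mul_one, neg_smul, neg_add]
    simp

theorem Φa_inj_same (a : Rt) {X y h X' y' h' : ℝ} (hp : (X, y) ∈ Dom) (hp' : (X', y') ∈ Dom)
    (hh : |h| ≤ 3) (hh' : |h'| ≤ 3) (he : Φa a X y h = Φa a X' y' h') :
    h = h' ∧ ∃ k l : ℤ, X' = X + k ∧ y' = y + l := by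
  obtain ⟨h1, k, l, h2⟩ := Φa_inj a a hp hp' hh hh' he
  have e : ςj a.1 * ςj a.1 = 1 := by rcases phi2_cases a.1 with e | e <;> simp [e]
  rw [e] at h1 h2
  refine ⟨by linarith, ?_⟩
  revert h2
  cases a.2 <;> intro h2
  · exact ⟨k, l, by simpa [sw] using h2⟩
  · exact ⟨l, k, by simpa [sw, and_comm] using h2⟩

/-- The same point in the slot coordinates of the other disc and the other type. -/
theorem Φa_swap (a : Rt) (X y h : ℝ) : Φa a X y h = Φa (oth a.1, !a.2) (-y) (-X) (-h) := by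
  obtain ⟨j, ty⟩ := a
  fin_cases j <;> cases ty <;> simp [Φa, io, sw, oth]

private theorem phi2_core (a : Rt) (y l φ : ℝ) (hl : |l| ≤ 2 / 5)
    (hφ : l = 0 ∨ circ φ * tw (ςj a.1 * y) = 1) :
    Φa a (-1 / 2 + l * Real.cos φ) y (25 * l * Real.sin φ) =
      if a.2 then Φ0 (ςj a.1 * y) (1 / 2 + ςj a.1 * l) 0
      else Φ0 (1 / 2 + ςj a.1 * l) (ςj a.1 * y) 0 := by
  have hc : |ςj a.1 * (l * Real.cos φ)| ≤ 2 / 5 := by
    have h1 : |l * Real.cos φ| ≤ 2 / 5 := by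
      rw [abs_mul]
      nlinarith [Real.abs_cos_le_one φ, abs_nonneg l, abs_nonneg (Real.cos φ)]
    rcases phi2_cases a.1 with e | e <;> simpa [e, -abs_mul] using h1
  have hz : (⟨ςj a.1 * (l * Real.cos φ), ςj a.1 * (25 * l * Real.sin φ) / 25⟩ : ℂ) *
      tw (ςj a.1 * y) = ((ςj a.1 * l : ℝ) : ℂ) := by
    have e : (⟨ςj a.1 * (l * Real.cos φ), ςj a.1 * (25 * l * Real.sin φ) / 25⟩ : ℂ) =
        ((ςj a.1 * l : ℝ) : ℂ) * circ φ := by
      refine Complex.ext ?_ ?_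
      · rw [Complex.re_ofReal_mul, circ_re]
        ring
      · rw [Complex.im_ofReal_mul, circ_im]
        ring
    rw [e, mul_assoc]
    rcases hφ with h | h
    · simp [h]
    · rw [h, mul_one]
  obtain ⟨k, hk⟩ : ∃ k : ℤ, ςj a.1 * (-1 / 2) + k = 1 / 2 := by
    rcases phi2_cases a.1 with e | e <;> rw [e]
    · exact ⟨1, by norm_num⟩
    · exact ⟨0, by norm_num⟩
  rw [phi2_eq]
  cases a.2
  · have e : ςj a.1 • sw false (-1 / 2 + l * Real.cos φ, y) + ((k : ℝ), ((0 : ℤ) : ℝ)) =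
        (1 / 2 + ςj a.1 * (l * Real.cos φ), ςj a.1 * y) := by
      refine Prod.ext ?_ ?_
      · show ςj a.1 * (-1 / 2 + l * Real.cos φ) + k = 1 / 2 + ςj a.1 * (l * Real.cos φ)
        linarith
      · simp [sw]
    rw [← Φ_periodic _ _ k 0, e, Φ_near_v _ hc, hz]
    simp
  · have e : ςj a.1 • sw true (-1 / 2 + l * Real.cos φ, y) + (((0 : ℤ) : ℝ), (k : ℝ)) =
        (ςj a.1 * y, 1 / 2 + ςj a.1 * (l * Real.cos φ)) := by
      refine Prod.ext ?_ ?_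
      · simp [sw]
      · show ςj a.1 * (-1 / 2 + l * Real.cos φ) + k = 1 / 2 + ςj a.1 * (l * Real.cos φ)
        linarith
    rw [← Φ_periodic _ _ 0 k, e, Φ_near_u _ hc, hz]
    simp

theorem Φa_core (a : Rt) (y : ℝ) : Φa a (-1 / 2) y 0 = c0 a + lin a (circ (2 * π * y)) := by
  have h := phi2_core a y 0 0 (by norm_num) (Or.inl rfl)
  simp only [zero_mul, mul_zero, add_zero] at h
  have e : 2 * π * (1 / 2) = π := by ring
  rw [h]
  unfold c0 lin e1 e2 Φ0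
  rcases phi2_cases a.1 with e' | e' <;> rw [e'] <;> cases a.2 <;>
    refine Prod.ext (Complex.ext ?_ ?_) ?_ <;>
    simp [e, circ_pi, circ_re, circ_im, -one_div, -Complex.ofReal_cos, -Complex.ofReal_sin] <;>
    ring

theorem Φa_core_deriv (a : Rt) {y : ℝ} (hy : y ∈ Icc (-1 / 2 : ℝ) (9 / 10)) :
    ∃ c > (0 : ℝ), HasDerivAt (fun l : ℝ =>
      Φa a (-1 / 2 + l * Real.cos (-2 * π * ςj a.1 * bj a.1 y)) y
        (25 * l * Real.sin (-2 * π * ςj a.1 * bj a.1 y))) (c • e3 a) 0 := by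
  have hφ : circ (-2 * π * ςj a.1 * bj a.1 y) * tw (ςj a.1 * y) = 1 := by
    obtain ⟨h1, h2⟩ := hy
    unfold ςj bj
    split_ifs
    · rw [one_mul, phi2_tw (by linarith) h2, ← circ_add, ← circ_zero]
      congr 1
      ring
    · rw [neg_one_mul, phi2_tw (by linarith) (by linarith), ← circ_add, ← phi2_circ_two_pi]
      congr 1
      ring
  have hev : (fun l : ℝ => Φa a (-1 / 2 + l * Real.cos (-2 * π * ςj a.1 * bj a.1 y)) y
      (25 * l * Real.sin (-2 * π * ςj a.1 * bj a.1 y))) =ᶠ[𝓝 0] fun l =>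
      if a.2 then Φ0 (ςj a.1 * y) (1 / 2 + ςj a.1 * l) 0
      else Φ0 (1 / 2 + ςj a.1 * l) (ςj a.1 * y) 0 := by
    filter_upwards [Icc_mem_nhds (by norm_num : (-(2 / 5) : ℝ) < 0) (by norm_num : (0 : ℝ) < 2 / 5)]
      with l hl
    exact phi2_core a y l _ (abs_le.2 hl) (Or.inr hφ)
  have hin : HasDerivAt (fun l : ℝ => 2 * π * (1 / 2 + ςj a.1 * l)) (2 * π * ςj a.1) 0 := by
    simpa [-one_div] using
      (((hasDerivAt_id (0 : ℝ)).const_mul (ςj a.1)).const_add (1 / 2)).const_mul (2 * π)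
  have e : 2 * π * (1 / 2 + ςj a.1 * 0) = π := by ring
  unfold e3
  revert hev
  cases a.2 <;> intro hev
  · refine ⟨2 * π * (3 - Real.cos (2 * π * (ςj a.1 * y))),
      mul_pos (by positivity) (by linarith [Real.cos_le_one (2 * π * (ςj a.1 * y))]),
      HasDerivAt.congr_of_eventuallyEq ?_ hev⟩
    have h1 := ((circ_hasDerivAt _).scomp (0 : ℝ) hin).const_mul
      ((3 - (1 + 0) * Real.cos (2 * π * (ςj a.1 * y)) : ℝ) : ℂ)
    have h2 := h1.prodMk (hasDerivAt_const (0 : ℝ) ((1 + 0) * Real.sin (2 * π * (ςj a.1 * y))))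
    refine h2.congr_deriv ?_
    rw [e, circ_pi]
    refine Prod.ext ?_ (by simp)
    simp
    ring
  · refine ⟨2 * π, by positivity, HasDerivAt.congr_of_eventuallyEq ?_ hev⟩
    have h1 := ((hin.cos.const_mul (1 + 0)).const_sub 3).ofReal_comp.mul_const
      (circ (2 * π * (ςj a.1 * y)))
    have h2 := h1.prodMk (hin.sin.const_mul (1 + 0))
    refine h2.congr_deriv ?_
    rw [e]
    refine Prod.ext (by simp) ?_
    simp

theorem frame_indep (a : Rt) {x y z : ℝ} (h : x • e1 a + y • e2 a + z • e3 a = 0) :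
    x = 0 ∧ y = 0 ∧ z = 0 := by
  unfold e1 e2 e3 at h
  have h1 := congrArg (fun v : V3 => v.1.re) h
  have h2 := congrArg (fun v : V3 => v.1.im) h
  have h3 := congrArg (fun v : V3 => v.2) h
  revert h1 h2 h3
  rcases phi2_cases a.1 with e | e <;> rw [e] <;> cases a.2 <;> simp +contextual

end Pool.Agent.Lib.MP_1d0d1b_gt
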