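import Pool.Agent.Lib.MP_1d0d1b_gt.Prof

open Set Function Filter Topology
open scoped ContDiff Real

noncomputable section

namespace Pool.Agent.Lib.MP_1d0d1b_gt

theorem Phi1_saw_smooth : ContDiff ℝ ∞ saw := by
  have := contDiff_comp_fract (F := fun u : ℝ => (u - 1 / 2) * step (3 / 100) (4 / 100) u *
      step (3 / 100) (4 / 100) (1 - u))
    (((contDiff_id.sub contDiff_const).mul (step_contDiff _ _)).mul
      ((step_contDiff _ _).comp (contDiff_const.sub contDiff_id))) (ε := 3 / 100) (by norm_num)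
    (c := 0) (fun x hx => by rw [step_of_le (by norm_num) hx]; ring)
    (fun x hx => by rw [step_of_le (x := 1 - x) (by norm_num) (by linarith)]; ring)
  exact this

theorem Phi1_circ_two_pi : circ (2 * π) = 1 := by
  have := circ_add_int 0 1
  simpa [circ_zero] using this

theorem Phi1_tw_smooth : ContDiff ℝ ∞ tw := by
  have := contDiff_comp_fract
    (F := fun u : ℝ => circ (2 * π * step (-1 / 40) (1 / 40) (u - 1 / 2)))
    (circ_contDiff.comp (contDiff_const.mul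
      ((step_contDiff _ _).comp (contDiff_id.sub contDiff_const)))) (ε := 1 / 4) (by norm_num)
    (c := 1) (fun x hx => by
      rw [step_of_le (by norm_num) (by linarith), mul_zero, circ_zero])
    (fun x hx => by rw [step_of_ge (by norm_num) (by linarith), mul_one, Phi1_circ_two_pi])
  exact this.comp (contDiff_id.add contDiff_const)

theorem Phi1_mk_smooth {X : Type*} [NormedAddCommGroup X] [NormedSpace ℝ X] {a b : X → ℝ}
    (ha : ContDiff ℝ ∞ a) (hb : ContDiff ℝ ∞ b) :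
    ContDiff ℝ ∞ (fun x => (⟨a x, b x⟩ : ℂ)) :=
  Complex.equivRealProdCLM.symm.contDiff.comp (ha.prodMk hb)

theorem Phi1_twA_smooth : ContDiff ℝ ∞ twA :=
  (Phi1_mk_smooth (Phi1_saw_smooth.comp (contDiff_fst.comp contDiff_fst))
    (contDiff_snd.div_const 25)).mul
    ((Phi1_tw_smooth.comp (contDiff_snd.comp contDiff_fst)).sub contDiff_const)

theorem Phi1_twB_smooth : ContDiff ℝ ∞ twB :=
  (Phi1_mk_smooth (Phi1_saw_smooth.comp (contDiff_snd.comp contDiff_fst))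
    (contDiff_snd.div_const 25)).mul
    ((Phi1_tw_smooth.comp (contDiff_fst.comp contDiff_fst)).sub contDiff_const)

/-- The standard thickened torus. -/
def Phi1_F (w : (ℝ × ℝ) × ℝ) : V3 := Φ0 w.1.1 w.1.2 w.2

/-- The twisting map. -/
def Phi1_G (q : (ℝ × ℝ) × ℝ) : (ℝ × ℝ) × ℝ :=
  ((q.1.1 + (twA q).re, q.1.2 + (twB q).re), q.2 / 25 + (twA q).im + (twB q).im)

theorem Phi1_eq : Φ = Phi1_F ∘ Phi1_G := rfl

theorem Phi1_F_smooth : ContDiff ℝ ∞ Phi1_F := by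
  have h1 : ContDiff ℝ ∞ (fun w : (ℝ × ℝ) × ℝ =>
      3 - (1 + w.2) * Real.cos (2 * π * w.1.2)) := by fun_prop
  have h2 : ContDiff ℝ ∞ (fun w : (ℝ × ℝ) × ℝ => (1 + w.2) * Real.sin (2 * π * w.1.2)) := by
    fun_prop
  have h3 : ContDiff ℝ ∞ (fun w : (ℝ × ℝ) × ℝ => 2 * π * w.1.1) := by fun_prop
  exact ((Complex.ofRealCLM.contDiff.comp h1).mul (circ_contDiff.comp h3)).prodMk h2

theorem Phi1_G_smooth : ContDiff ℝ ∞ Phi1_G := by
  have a1 := Complex.reCLM.contDiff.comp Phi1_twA_smooth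
  have a2 := Complex.imCLM.contDiff.comp Phi1_twA_smooth
  have b1 := Complex.reCLM.contDiff.comp Phi1_twB_smooth
  have b2 := Complex.imCLM.contDiff.comp Phi1_twB_smooth
  exact (((contDiff_fst.comp contDiff_fst).add a1).prodMk
    ((contDiff_snd.comp contDiff_fst).add b1)).prodMk (((contDiff_snd.div_const 25).add a2).add b2)

theorem Φ_smooth : ContDiff ℝ ∞ Φ := Phi1_F_smooth.comp Phi1_G_smooth

theorem Phi1_saw_per (x : ℝ) (k : ℤ) : saw (x + k) = saw x := by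
  simp only [saw, Int.fract_add_intCast]

theorem Phi1_tw_per (x : ℝ) (k : ℤ) : tw (x + k) = tw x := by
  have : x + k + 1 / 2 = x + 1 / 2 + k := by ring
  simp only [tw, this, Int.fract_add_intCast]

theorem Phi1_F_per (x y h : ℝ) (k l : ℤ) : Φ0 (x + k) (y + l) h = Φ0 x y h := by
  have e1 : 2 * π * (x + k) = 2 * π * x + k * (2 * π) := by ring
  have e2 : 2 * π * (y + l) = 2 * π * y + l * (2 * π) := by ring
  simp only [Φ0, e1, e2, circ_add_int, Real.cos_add_int_mul_two_pi, Real.sin_add_int_mul_two_pi]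

theorem Φ_periodic (p : ℝ × ℝ) (h : ℝ) (k l : ℤ) :
    Φ (p + ((k : ℝ), (l : ℝ)), h) = Φ (p, h) := by
  obtain ⟨x, y⟩ := p
  have hA : twA ((x, y) + ((k : ℝ), (l : ℝ)), h) = twA ((x, y), h) := by
    simp only [twA, Prod.mk_add_mk, Phi1_saw_per, Phi1_tw_per]
  have hB : twB ((x, y) + ((k : ℝ), (l : ℝ)), h) = twB ((x, y), h) := by
    simp only [twB, Prod.mk_add_mk, Phi1_saw_per, Phi1_tw_per]
  rw [Φ, Φ, hA, hB]
  simp only [Prod.mk_add_mk]
  rw [add_right_comm x, add_right_comm y, Phi1_F_per]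

theorem Phi1_fract {x : ℝ} {n : ℤ} (h0 : (n : ℝ) ≤ x) (h1 : x < n + 1) :
    Int.fract x = x - n := by
  rw [Int.fract, Int.floor_eq_iff.2 ⟨h0, h1⟩]

theorem Phi1_saw_eq {x : ℝ} (n : ℤ) (h : |x - n - 1 / 2| ≤ 46 / 100) :
    saw x = x - n - 1 / 2 := by
  obtain ⟨h1, h2⟩ := abs_le.1 h
  have := Phi1_fract (x := x) (n := n) (by linarith) (by linarith)
  rw [saw, this, step_of_ge (by norm_num) (by linarith), step_of_ge (by norm_num) (by linarith)]
  ring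

theorem Phi1_tw_eq {x : ℝ} (n : ℤ) (h : |x - n - 1 / 2| ≤ 19 / 40) : tw x = 1 := by
  obtain ⟨h1, h2⟩ := abs_le.1 h
  rcases lt_or_ge x (n + 1 / 2) with h3 | h3
  · have := Phi1_fract (x := x + 1 / 2) (n := n) (by linarith) (by linarith)
    rw [tw, this, step_of_ge (by norm_num) (by linarith), mul_one, Phi1_circ_two_pi]
  · have := Phi1_fract (x := x + 1 / 2) (n := n + 1) (by push_cast; linarith)
      (by push_cast; linarith)
    rw [tw, this, step_of_le (by norm_num) (by push_cast; linarith), mul_zero, circ_zero]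

theorem Phi1_norm_tw (x : ℝ) : ‖tw x‖ = 1 := norm_circ _

theorem Phi1_tw_ne (x : ℝ) : tw x ≠ 0 := by
  intro h
  simpa [h] using Phi1_norm_tw x

/-- The rotated cross-section coordinate. -/
def Phi1_w (n : ℤ) (s t h : ℝ) : ℂ := (⟨s - n - 1 / 2, h / 25⟩ : ℂ) * tw t

theorem Phi1_G_V {x y : ℝ} (h : ℝ) (n : ℤ) (hy : |y - n - 1 / 2| ≤ 46 / 100) :
    Phi1_G ((x, y), h) = ((x, n + 1 / 2 + (Phi1_w n y x h).re), (Phi1_w n y x h).im) := by
  have h1 : tw y = 1 := Phi1_tw_eq n (by linarith)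
  simp only [Phi1_G, twA, twB, h1, Phi1_saw_eq n hy, Phi1_w, sub_self, mul_zero, mul_sub, mul_one,
    Complex.zero_re, Complex.zero_im, Complex.sub_re, Complex.sub_im, Prod.mk.injEq]
  refine ⟨⟨by ring, by ring⟩, by ring⟩

theorem Phi1_G_U {x y : ℝ} (h : ℝ) (n : ℤ) (hx : |x - n - 1 / 2| ≤ 46 / 100) :
    Phi1_G ((x, y), h) = ((n + 1 / 2 + (Phi1_w n x y h).re, y), (Phi1_w n x y h).im) := by
  have h1 : tw x = 1 := Phi1_tw_eq n (by linarith)
  simp only [Phi1_G, twA, twB, h1, Phi1_saw_eq n hx, Phi1_w, sub_self, mul_zero, mul_sub, mul_one,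
    Complex.zero_re, Complex.zero_im, Complex.sub_re, Complex.sub_im, Prod.mk.injEq]
  refine ⟨⟨by ring, by ring⟩, by ring⟩

theorem Phi1_norm_w {n : ℤ} {s h : ℝ} (t : ℝ) (hs : |s - n - 1 / 2| ≤ 45 / 100) (hh : |h| ≤ 3) :
    ‖Phi1_w n s t h‖ ≤ 47 / 100 := by
  rw [Phi1_w, norm_mul, Phi1_norm_tw, mul_one]
  refine (sq_le_sq₀ (norm_nonneg _) (by norm_num)).1 ?_
  rw [Complex.sq_norm, Complex.normSq_mk]
  obtain ⟨h1, h2⟩ := abs_le.1 hs
  obtain ⟨h3, h4⟩ := abs_le.1 hh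
  nlinarith

theorem Phi1_dom {s : ℝ} (h : 1 / 20 ≤ Int.fract s ∧ Int.fract s ≤ 19 / 20) :
    |s - (⌊s⌋ : ℤ) - 1 / 2| ≤ 45 / 100 := by
  rw [Int.fract] at h
  exact abs_le.2 ⟨by linarith [h.1], by linarith [h.2]⟩

theorem Phi1_F_imm (x y : ℝ) {h : ℝ} (hh : |h| < 1) :
    Injective (fderiv ℝ Phi1_F ((x, y), h)) := by
  rw [injective_iff_map_eq_zero]
  rintro ⟨⟨a, b⟩, c⟩ hv
  obtain ⟨h1, h2⟩ := abs_lt.1 hh
  have hl : HasDerivAt (fun t : ℝ => (((x + t * a, y + t * b), h + t * c) : (ℝ × ℝ) × ℝ))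
      ((a, b), c) 0 :=
    ((((hasDerivAt_mul_const a).const_add x).prodMk
      ((hasDerivAt_mul_const b).const_add y)).prodMk ((hasDerivAt_mul_const c).const_add h))
  have hF : HasFDerivAt Phi1_F (fderiv ℝ Phi1_F ((x, y), h))
      ((x + 0 * a, y + 0 * b), h + 0 * c) := by
    simp only [zero_mul, add_zero]
    exact (Phi1_F_smooth.differentiable (by simp) _).hasFDerivAt
  have h0 := hF.comp_hasDerivAt (0 : ℝ) hl
  rw [hv] at h0
  have dx : HasDerivAt (fun t : ℝ => 2 * π * (x + t * a)) (2 * π * a) 0 :=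
    ((hasDerivAt_mul_const a).const_add x).const_mul _
  have dy : HasDerivAt (fun t : ℝ => 2 * π * (y + t * b)) (2 * π * b) 0 :=
    ((hasDerivAt_mul_const b).const_add y).const_mul _
  have dh : HasDerivAt (fun t : ℝ => 1 + (h + t * c)) c 0 :=
    ((hasDerivAt_mul_const c).const_add h).const_add 1
  have d1 := ((dh.mul dy.cos).const_sub 3).ofReal_comp.mul
    ((circ_hasDerivAt _).scomp (0 : ℝ) dx)
  have d2 := dh.mul dy.sin
  have e := h0.unique (d1.prodMk d2)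
  simp only [zero_mul, add_zero, Function.comp, Pi.mul_apply] at e
  obtain ⟨e1, e2⟩ := Prod.ext_iff.1 e
  simp only [Prod.fst_zero, Prod.snd_zero] at e1 e2
  have hc : circ (2 * π * x) ≠ 0 := by
    intro h
    simpa [h] using norm_circ (2 * π * x)
  set C := Real.cos (2 * π * y) with hC
  set S := Real.sin (2 * π * y) with hS
  have e3 : ((-(c * C + (1 + h) * (-S * (2 * π * b))) : ℝ) : ℂ) +
      ((3 - (1 + h) * C : ℝ) : ℂ) * ((2 * π * a : ℝ) : ℂ) * Complex.I = 0 := by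
    refine mul_right_cancel₀ hc ?_
    rw [zero_mul, e1, Complex.real_smul]
    ring
  have e4 := congrArg Complex.re e3
  have e5 := congrArg Complex.im e3
  simp only [Complex.add_re, Complex.add_im, Complex.ofReal_re, Complex.ofReal_im,
    ← Complex.ofReal_mul, Complex.mul_I_re, Complex.mul_I_im, Complex.zero_re, Complex.zero_im,
    neg_zero, add_zero, zero_add] at e4 e5
  have hCS : C ^ 2 + S ^ 2 = 1 := Real.cos_sq_add_sin_sq _
  have hC1 : C ≤ 1 := Real.cos_le_one _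
  have hρ : 0 < 3 - (1 + h) * C := by nlinarith
  have hπ := Real.pi_pos
  have ha : a = 0 := by
    have := (mul_eq_zero.1 e5).resolve_left hρ.ne'
    exact (mul_eq_zero.1 this).resolve_left (by positivity)
  have hb' : (1 + h) * (2 * π * b) = 0 := by
    linear_combination S * e4 - C * e2 - (1 + h) * (2 * π * b) * hCS
  have hb : b = 0 := by
    have := (mul_eq_zero.1 hb').resolve_left (by linarith)
    exact (mul_eq_zero.1 this).resolve_left (by positivity)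
  have hc0 : c = 0 := by
    rw [hb] at e4 e2
    linear_combination -C * e4 - S * e2 - c * hCS
  rw [ha, hb, hc0]
  rfl

theorem Phi1_inj_of_left {X : Type*} [NormedAddCommGroup X] [NormedSpace ℝ X] {G L : X → X}
    {q : X} (hG : DifferentiableAt ℝ G q) (hL : DifferentiableAt ℝ L (G q))
    (h : ∀ᶠ z in 𝓝 q, L (G z) = z) : Injective (fderiv ℝ G q) := by
  have h1 : fderiv ℝ (L ∘ G) q = fderiv ℝ id q := Filter.EventuallyEq.fderiv_eq h
  rw [fderiv_comp q hL hG, fderiv_id] at h1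
  intro u v huv
  have hu := congrArg (fun T : X →L[ℝ] X => T u) h1
  have hv := congrArg (fun T : X →L[ℝ] X => T v) h1
  simp only [ContinuousLinearMap.comp_apply, ContinuousLinearMap.id_apply] at hu hv
  rw [← hu, ← hv, huv]

/-- The unrotated cross-section coordinate. -/
def Phi1_u (n : ℤ) (s t h : ℝ) : ℂ := (⟨s - n - 1 / 2, h⟩ : ℂ) * (tw t)⁻¹

theorem Phi1_u_w (n : ℤ) (s t h : ℝ) :
    Phi1_u n (n + 1 / 2 + (Phi1_w n s t h).re) t (Phi1_w n s t h).im = ⟨s - n - 1 / 2, h / 25⟩ := by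
  have : (⟨n + 1 / 2 + (Phi1_w n s t h).re - n - 1 / 2, (Phi1_w n s t h).im⟩ : ℂ) =
      Phi1_w n s t h := Complex.ext (by simp only; ring) rfl
  rw [Phi1_u, this, Phi1_w, mul_assoc, mul_inv_cancel₀ (Phi1_tw_ne t), mul_one]

theorem Phi1_u_smooth (n : ℤ) {s t h : (ℝ × ℝ) × ℝ → ℝ} (hs : ContDiff ℝ ∞ s)
    (ht : ContDiff ℝ ∞ t) (hh : ContDiff ℝ ∞ h) :
    ContDiff ℝ ∞ (fun z => Phi1_u n (s z) (t z) (h z)) :=
  (Phi1_mk_smooth ((hs.sub contDiff_const).sub contDiff_const) hh).mul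
    ((Phi1_tw_smooth.comp ht).inv fun _ => Phi1_tw_ne _)

theorem Phi1_ev {s : (ℝ × ℝ) × ℝ → ℝ} (hs : Continuous s) {q : (ℝ × ℝ) × ℝ} {n : ℤ}
    (h : |s q - n - 1 / 2| ≤ 45 / 100) : ∀ᶠ z in 𝓝 q, |s z - n - 1 / 2| ≤ 46 / 100 := by
  have hc : Continuous fun z => |s z - n - 1 / 2| := by fun_prop
  exact (hc.continuousAt.eventually_lt continuousAt_const
    (show |s q - n - 1 / 2| < 46 / 100 by linarith)).mono fun _ h => h.le

theorem Φ_imm {p : ℝ × ℝ} (hp : p ∈ Dom) {h : ℝ} (hh : |h| ≤ 3) :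
    Injective (fderiv ℝ Φ (p, h)) := by
  obtain ⟨x, y⟩ := p
  have hG := Phi1_G_smooth.differentiable (by simp) ((x, y), h)
  have hF := Phi1_F_smooth.differentiable (by simp) (Phi1_G ((x, y), h))
  rw [Phi1_eq, fderiv_comp _ hF hG, ContinuousLinearMap.coe_comp]
  have c11 : ContDiff ℝ ∞ fun z : (ℝ × ℝ) × ℝ => z.1.1 := contDiff_fst.comp contDiff_fst
  have c12 : ContDiff ℝ ∞ fun z : (ℝ × ℝ) × ℝ => z.1.2 := contDiff_snd.comp contDiff_fst
  rcases hp with hp | hp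
  · have h1 := Phi1_dom hp
    refine Injective.comp ?_ ?_
    · rw [Phi1_G_U h ⌊x⌋ (by linarith)]
      exact Phi1_F_imm _ _ ((Complex.abs_im_le_norm _).trans_lt
        ((Phi1_norm_w y h1 hh).trans_lt (by norm_num)))
    · have hu := Phi1_u_smooth ⌊x⌋ c11 c12 contDiff_snd
      refine Phi1_inj_of_left (L := fun z => ((⌊x⌋ + 1 / 2 + (Phi1_u ⌊x⌋ z.1.1 z.1.2 z.2).re,
        z.1.2), 25 * (Phi1_u ⌊x⌋ z.1.1 z.1.2 z.2).im)) hG
        ((((contDiff_const.add (Complex.reCLM.contDiff.comp hu)).prodMk c12).prodMk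
          (contDiff_const.mul (Complex.imCLM.contDiff.comp hu))).differentiable (by simp) _) ?_
      filter_upwards [Phi1_ev c11.continuous (q := ((x, y), h)) h1]
      rintro ⟨⟨x', y'⟩, h'⟩ hz
      rw [Phi1_G_U h' ⌊x⌋ hz]
      simp only [Phi1_u_w, Prod.mk.injEq]
      exact ⟨⟨by ring, trivial⟩, by ring⟩
  · have h1 := Phi1_dom hp
    refine Injective.comp ?_ ?_
    · rw [Phi1_G_V h ⌊y⌋ (by linarith)]
      exact Phi1_F_imm _ _ ((Complex.abs_im_le_norm _).trans_lt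
        ((Phi1_norm_w x h1 hh).trans_lt (by norm_num)))
    · have hu := Phi1_u_smooth ⌊y⌋ c12 c11 contDiff_snd
      refine Phi1_inj_of_left (L := fun z => ((z.1.1,
        ⌊y⌋ + 1 / 2 + (Phi1_u ⌊y⌋ z.1.2 z.1.1 z.2).re),
        25 * (Phi1_u ⌊y⌋ z.1.2 z.1.1 z.2).im)) hG
        (((c11.prodMk (contDiff_const.add (Complex.reCLM.contDiff.comp hu))).prodMk
          (contDiff_const.mul (Complex.imCLM.contDiff.comp hu))).differentiable (by simp) _) ?_
      filter_upwards [Phi1_ev c12.continuous (q := ((x, y), h)) h1]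
      rintro ⟨⟨x', y'⟩, h'⟩ hz
      rw [Phi1_G_V h' ⌊y⌋ hz]
      simp only [Phi1_u_w, Prod.mk.injEq]
      exact ⟨⟨trivial, by ring⟩, by ring⟩

theorem Phi1_polar {r r' s s' : ℝ} (hr : 0 < r) (hr' : 0 < r')
    (h : (r : ℂ) * circ (2 * π * s) = (r' : ℂ) * circ (2 * π * s')) :
    r = r' ∧ ∃ k : ℤ, s' = s + k := by
  have h1 := congrArg norm h
  rw [norm_mul, norm_mul, norm_circ, norm_circ, Complex.norm_real, Complex.norm_real,
    Real.norm_of_nonneg hr.le, Real.norm_of_nonneg hr'.le, mul_one, mul_one] at h1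
  subst h1
  obtain ⟨k, hk⟩ := (circ_eq_iff _ _).1 (mul_left_cancel₀ (by exact_mod_cast hr.ne') h)
  refine ⟨rfl, k, mul_left_cancel₀ (show 2 * π ≠ 0 by positivity) ?_⟩
  rw [hk]
  ring

theorem Phi1_F_inj {x y h x' y' h' : ℝ} (hh : |h| < 1) (hh' : |h'| < 1)
    (he : Phi1_F ((x, y), h) = Phi1_F ((x', y'), h')) :
    h = h' ∧ (∃ k : ℤ, x' = x + k) ∧ ∃ l : ℤ, y' = y + l := by
  obtain ⟨h1, h2⟩ := abs_lt.1 hh
  obtain ⟨h1', h2'⟩ := abs_lt.1 hh'
  obtain ⟨e1, e2⟩ := Prod.ext_iff.1 he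
  simp only [Phi1_F, Φ0] at e1 e2
  have c1 := Real.cos_le_one (2 * π * y)
  have c2 := Real.cos_le_one (2 * π * y')
  obtain ⟨e3, hk⟩ := Phi1_polar (by nlinarith) (by nlinarith) e1
  obtain ⟨e4, hl⟩ := Phi1_polar (r := 1 + h) (r' := 1 + h') (s := y) (s' := y') (by linarith)
    (by linarith) (Complex.ext
      (by rw [Complex.re_ofReal_mul, Complex.re_ofReal_mul, circ_re, circ_re]; linarith)
      (by rw [Complex.im_ofReal_mul, Complex.im_ofReal_mul, circ_im, circ_im]; exact e2))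
  exact ⟨by linarith, hk, hl⟩

theorem Phi1_same {n n' l : ℤ} {s t h s' t' h' : ℝ} (hs : |s - n - 1 / 2| ≤ 45 / 100)
    (hs' : |s' - n' - 1 / 2| ≤ 45 / 100) (hh : |h| ≤ 3) (hh' : |h'| ≤ 3) (ht : tw t' = tw t)
    (e1 : (Phi1_w n s t h).im = (Phi1_w n' s' t' h').im)
    (e2 : n' + 1 / 2 + (Phi1_w n' s' t' h').re = n + 1 / 2 + (Phi1_w n s t h).re + l) :
    h = h' ∧ s' = s + l := by
  obtain ⟨a1, a2⟩ := abs_le.1 ((Complex.abs_re_le_norm _).trans (Phi1_norm_w t hs hh))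
  obtain ⟨b1, b2⟩ := abs_le.1 ((Complex.abs_re_le_norm _).trans (Phi1_norm_w t' hs' hh'))
  have hn : n' = n + l := by
    have c1 : ((n' - (n + l) : ℤ) : ℝ) < 1 := by push_cast; linarith
    have c2 : (-1 : ℝ) < ((n' - (n + l) : ℤ) : ℝ) := by push_cast; linarith
    have c1' : n' - (n + l) < 1 := by exact_mod_cast c1
    have c2' : -1 < n' - (n + l) := by exact_mod_cast c2
    omega
  have hn' : (n' : ℝ) = n + l := by rw [hn]; push_cast; rfl
  have hw : Phi1_w n s t h = Phi1_w n' s' t' h' := Complex.ext (by linarith) e1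
  rw [Phi1_w, Phi1_w, ht] at hw
  have hw' := mul_right_cancel₀ (Phi1_tw_ne t) hw
  have r1 : s - n - 1 / 2 = s' - n' - 1 / 2 := congrArg Complex.re hw'
  have r2 : h / 25 = h' / 25 := congrArg Complex.im hw'
  exact ⟨by linarith, by linarith⟩

theorem Phi1_cross {n n' k l : ℤ} {x y h x' y' h' : ℝ} (hx : |x - n - 1 / 2| ≤ 45 / 100)
    (hy' : |y' - n' - 1 / 2| ≤ 45 / 100) (hh : |h| ≤ 3) (hh' : |h'| ≤ 3)
    (e1 : (Phi1_w n x y h).im = (Phi1_w n' y' x' h').im)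
    (e2 : x' = n + 1 / 2 + (Phi1_w n x y h).re + k)
    (e3 : n' + 1 / 2 + (Phi1_w n' y' x' h').re = y + l) :
    h = h' ∧ x' = x + k ∧ y' = y + l := by
  obtain ⟨a1, a2⟩ := abs_le.1 ((Complex.abs_re_le_norm _).trans (Phi1_norm_w y hx hh))
  obtain ⟨b1, b2⟩ := abs_le.1 ((Complex.abs_re_le_norm _).trans (Phi1_norm_w x' hy' hh'))
  have t1 : tw x' = 1 := Phi1_tw_eq (n + k) (abs_le.2 ⟨by push_cast; linarith,
    by push_cast; linarith⟩)
  have t2 : tw y = 1 := Phi1_tw_eq (n' - l) (abs_le.2 ⟨by push_cast; linarith,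
    by push_cast; linarith⟩)
  simp only [Phi1_w, t1, t2, mul_one] at e1 e2 e3
  exact ⟨by linarith, by linarith, by linarith⟩

theorem Φ_inj {p p' : ℝ × ℝ} (hp : p ∈ Dom) (hp' : p' ∈ Dom) {h h' : ℝ} (hh : |h| ≤ 3)
    (hh' : |h'| ≤ 3) (he : Φ (p, h) = Φ (p', h')) :
    h = h' ∧ ∃ k l : ℤ, p' = p + ((k : ℝ), (l : ℝ)) := by
  obtain ⟨x, y⟩ := p
  obtain ⟨x', y'⟩ := p'
  have bd : ∀ {n : ℤ} {s h : ℝ} (t : ℝ), |s - n - 1 / 2| ≤ 45 / 100 → |h| ≤ 3 →
      |(Phi1_w n s t h).im| < 1 := fun t hs hh => (Complex.abs_im_le_norm _).trans_lt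
        ((Phi1_norm_w t hs hh).trans_lt (by norm_num))
  change Phi1_F (Phi1_G _) = Phi1_F (Phi1_G _) at he
  simp only [Prod.mk_add_mk, Prod.mk.injEq]
  rcases hp with hp | hp <;> rcases hp' with hp' | hp' <;> have h1 := Phi1_dom hp <;>
    have h1' := Phi1_dom hp'
  · rw [Phi1_G_U h ⌊x⌋ (by linarith), Phi1_G_U h' ⌊x'⌋ (by linarith)] at he
    obtain ⟨e1, ⟨k, hk⟩, l, hl⟩ := Phi1_F_inj (bd _ h1 hh) (bd _ h1' hh') he
    obtain ⟨r1, r2⟩ := Phi1_same h1 h1' hh hh' (by rw [hl, Phi1_tw_per]) e1 hk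
    exact ⟨r1, k, l, r2, hl⟩
  · rw [Phi1_G_U h ⌊x⌋ (by linarith), Phi1_G_V h' ⌊y'⌋ (by linarith)] at he
    obtain ⟨e1, ⟨k, hk⟩, l, hl⟩ := Phi1_F_inj (bd _ h1 hh) (bd _ h1' hh') he
    obtain ⟨r1, r2, r3⟩ := Phi1_cross h1 h1' hh hh' e1 hk hl
    exact ⟨r1, k, l, r2, r3⟩
  · rw [Phi1_G_V h ⌊y⌋ (by linarith), Phi1_G_U h' ⌊x'⌋ (by linarith)] at he
    obtain ⟨e1, ⟨k, hk⟩, l, hl⟩ := Phi1_F_inj (bd _ h1' hh') (bd _ h1 hh) he.symm
    obtain ⟨r1, r2, r3⟩ := Phi1_cross h1' h1 hh' hh e1 hk hl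
    exact ⟨r1.symm, -k, -l, by push_cast; linarith, by push_cast; linarith⟩
  · rw [Phi1_G_V h ⌊y⌋ (by linarith), Phi1_G_V h' ⌊y'⌋ (by linarith)] at he
    obtain ⟨e1, ⟨k, hk⟩, l, hl⟩ := Phi1_F_inj (bd _ h1 hh) (bd _ h1' hh') he
    obtain ⟨r1, r2⟩ := Phi1_same h1 h1' hh hh' (by rw [hk, Phi1_tw_per]) e1 hl
    exact ⟨r1, k, l, hk, r2⟩

end Pool.Agent.Lib.MP_1d0d1b_gt
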