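import Pool.Agent.Lib.MP_1d0d1b_gt.Model

open Set Function Filter Topology
open scoped ContDiff Real

noncomputable section

namespace Pool.Agent.Lib.MP_1d0d1b_gt

private theorem profA_glue {x : ℝ} (hx : 0 < x) :
    HasDerivAt expNegInvGlue (expNegInvGlue x / x ^ 2) x := by
  have h := ((hasDerivAt_inv hx.ne').fun_neg).exp
  have e : expNegInvGlue =ᶠ[𝓝 x] fun y => Real.exp (-y⁻¹) := by
    filter_upwards [lt_mem_nhds hx] with y hy
    simp [expNegInvGlue, not_le.2 hy]
  refine (h.congr_of_eventuallyEq e).congr_deriv ?_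
  rw [e.eq_of_nhds, neg_neg, div_eq_mul_inv]

private theorem profA_trans {x : ℝ} (h0 : 0 < x) (h1 : x < 1) :
    ∃ d, 0 < d ∧ HasDerivAt Real.smoothTransition d x := by
  have h2 : 0 < 1 - x := sub_pos.2 h1
  have a := profA_glue h0
  have b := (profA_glue h2).comp_const_sub 1 x
  have hd := Real.smoothTransition.pos_denom x
  refine ⟨_, ?_, a.fun_div (a.fun_add b) hd.ne'⟩
  have p := expNegInvGlue.pos_of_pos h0
  have q := expNegInvGlue.pos_of_pos h2
  refine div_pos ?_ (pow_pos hd 2)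
  have : 0 < expNegInvGlue x / x ^ 2 * expNegInvGlue (1 - x) +
    expNegInvGlue x * (expNegInvGlue (1 - x) / (1 - x) ^ 2) := by positivity
  linarith

theorem step_contDiff (a b : ℝ) : ContDiff ℝ ∞ (step a b) :=
  Real.smoothTransition.contDiff.comp ((contDiff_id.sub contDiff_const).div_const _)
theorem step_nonneg (a b x : ℝ) : 0 ≤ step a b x := Real.smoothTransition.nonneg _
theorem step_le_one (a b x : ℝ) : step a b x ≤ 1 := Real.smoothTransition.le_one _
theorem step_of_le {a b x : ℝ} (hab : a < b) (h : x ≤ a) : step a b x = 0 :=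
  Real.smoothTransition.zero_of_nonpos
    (div_nonpos_of_nonpos_of_nonneg (sub_nonpos.2 h) (sub_pos.2 hab).le)
theorem step_of_ge {a b x : ℝ} (hab : a < b) (h : b ≤ x) : step a b x = 1 :=
  Real.smoothTransition.one_of_one_le ((one_le_div (sub_pos.2 hab)).2 (sub_le_sub_right h a))
theorem step_pos {a b x : ℝ} (hab : a < b) (h : a < x) : 0 < step a b x :=
  Real.smoothTransition.pos_of_pos (div_pos (sub_pos.2 h) (sub_pos.2 hab))
theorem step_lt_one {a b x : ℝ} (hab : a < b) (h : x < b) : step a b x < 1 :=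
  Real.smoothTransition.lt_one_of_lt_one ((div_lt_one (sub_pos.2 hab)).2 (sub_lt_sub_right h a))
theorem step_mono {a b : ℝ} (hab : a < b) : Monotone (step a b) := fun _ _ h =>
  Real.smoothTransition.monotone
    (div_le_div_of_nonneg_right (sub_le_sub_right h a) (sub_pos.2 hab).le)
theorem step_hasDerivAt (a b x : ℝ) : HasDerivAt (step a b) (deriv (step a b) x) x :=
  ((step_contDiff a b).differentiable (by simp) x).hasDerivAt
theorem step_deriv_nonneg {a b : ℝ} (hab : a < b) (x : ℝ) : 0 ≤ deriv (step a b) x :=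
  (step_mono hab).deriv_nonneg
theorem step_deriv_pos {a b x : ℝ} (h1 : a < x) (h2 : x < b) : 0 < deriv (step a b) x := by
  have hab := sub_pos.2 (h1.trans h2)
  obtain ⟨d, hd, h⟩ := profA_trans (div_pos (sub_pos.2 h1) hab)
    ((div_lt_one hab).2 (sub_lt_sub_right h2 a))
  have : HasDerivAt (step a b) (d * (1 / (b - a))) x :=
    h.comp x (((hasDerivAt_id' x).sub_const a).div_const (b - a))
  rw [this.deriv]
  positivity
theorem step_strictMonoOn {a b : ℝ} (hab : a < b) : StrictMonoOn (step a b) (Icc a b) := by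
  refine strictMonoOn_of_deriv_pos (convex_Icc a b) (step_contDiff a b).continuous.continuousOn ?_
  rw [interior_Icc]
  exact fun x hx => step_deriv_pos hx.1 hx.2
theorem step_deriv_of_le {a b x : ℝ} (hab : a < b) (h : x ≤ a) : deriv (step a b) x = 0 :=
  IsLocalMin.deriv_eq_zero (Eventually.of_forall fun y => by
    rw [step_of_le hab h]; exact step_nonneg a b y)
theorem step_deriv_of_ge {a b x : ℝ} (hab : a < b) (h : b ≤ x) : deriv (step a b) x = 0 :=
  IsLocalMax.deriv_eq_zero (Eventually.of_forall fun y => by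
    rw [step_of_ge hab h]; exact step_le_one a b y)
theorem step_symm {a b : ℝ} (hab : a < b) (x : ℝ) : step a b (a + b - x) = 1 - step a b x := by
  have h := (sub_pos.2 hab).ne'
  have e : (a + b - x - a) / (b - a) = 1 - (x - a) / (b - a) := by field_simp; ring
  have hd := (Real.smoothTransition.pos_denom ((x - a) / (b - a))).ne'
  simp only [step, Real.smoothTransition, e, sub_sub_cancel]
  rw [add_comm, eq_sub_iff_add_eq, ← add_div, add_comm, div_self hd]
theorem step_eq_half_iff {a b : ℝ} (hab : a < b) (x : ℝ) :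
    step a b x = 1 / 2 ↔ x = (a + b) / 2 := by
  have hm : step a b ((a + b) / 2) = 1 / 2 := by
    have := step_symm hab ((a + b) / 2)
    rw [show a + b - (a + b) / 2 = (a + b) / 2 by ring] at this
    linarith
  refine ⟨fun h => ?_, fun h => h ▸ hm⟩
  have h1 : a ≤ x := by
    by_contra h1
    rw [step_of_le hab (not_le.1 h1).le] at h
    norm_num at h
  have h2 : x ≤ b := by
    by_contra h2
    rw [step_of_ge hab (not_le.1 h2).le] at h
    norm_num at h
  exact (step_strictMonoOn hab).injOn ⟨h1, h2⟩ ⟨by linarith, by linarith⟩ (h.trans hm.symm)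

theorem hh_contDiff (κ : ℝ) : ContDiff ℝ ∞ (hh κ) :=
  (contDiff_const.add (contDiff_const.mul (contDiff_const.sub contDiff_id))).mul
    (contDiff_const.sub (step_contDiff 2 4))
theorem hh_of_le_two (κ : ℝ) {s : ℝ} (h : s ≤ 2) : hh κ s = 1 + κ * (1 - s) := by
  rw [hh, step_of_le (by norm_num) h, sub_zero, mul_one]
theorem hh_of_ge_four (κ : ℝ) {s : ℝ} (h : 4 ≤ s) : hh κ s = 0 := by
  rw [hh, step_of_ge (by norm_num) h, sub_self, mul_zero]
theorem hh_nonneg {κ : ℝ} (h0 : 0 ≤ κ) (h1 : κ ≤ 1 / 3) (s : ℝ) : 0 ≤ hh κ s := by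
  rcases le_total s 4 with h | h
  · exact mul_nonneg (by nlinarith) (sub_nonneg.2 (step_le_one _ _ _))
  · exact (hh_of_ge_four κ h).ge
theorem hh_le {κ : ℝ} (h0 : 0 ≤ κ) (h1 : κ ≤ 1 / 3) {s : ℝ} (hs : 0 ≤ s) : hh κ s ≤ 1 + κ := by
  rcases le_total s 4 with h | h
  · have a : 0 ≤ 1 + κ * (1 - s) := by nlinarith
    have b := mul_nonneg a (step_nonneg 2 4 s)
    have c := mul_nonneg h0 hs
    unfold hh
    nlinarith
  · rw [hh_of_ge_four κ h]
    linarith
theorem hh_eq_one_iff {κ : ℝ} (h0 : 0 < κ) (h1 : κ ≤ 1 / 3) (s : ℝ) : hh κ s = 1 ↔ s = 1 := by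
  refine ⟨fun e => ?_, fun e => by rw [e, hh_of_le_two κ (by norm_num)]; simp⟩
  rcases le_total s 2 with h | h
  · rw [hh_of_le_two κ h, add_eq_left, mul_eq_zero, sub_eq_zero] at e
    exact (e.resolve_left h0.ne').symm
  · exfalso
    rcases le_total s 4 with h' | h'
    · have a : 0 ≤ 1 + κ * (1 - s) := by nlinarith
      have b := mul_nonneg a (step_nonneg 2 4 s)
      have c := mul_pos h0 (show 0 < s - 1 by linarith)
      unfold hh at e
      nlinarith
    · rw [hh_of_ge_four κ h'] at e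
      exact zero_ne_one e

theorem ramp_contDiff : ContDiff ℝ ∞ ramp := contDiff_id.mul (step_contDiff _ _)
theorem ramp_of_nonpos {u : ℝ} (h : u ≤ 0) : ramp u = 0 := by
  rw [ramp, step_of_le (by norm_num) h, mul_zero]
theorem ramp_of_ge {u : ℝ} (h : 1 / 100 ≤ u) : ramp u = u := by
  rw [ramp, step_of_ge (by norm_num) h, mul_one]
theorem ramp_nonneg (u : ℝ) : 0 ≤ ramp u := by
  rcases le_total u 0 with h | h
  · exact (ramp_of_nonpos h).ge
  · exact mul_nonneg h (step_nonneg _ _ _)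
theorem ramp_pos {u : ℝ} (h : 0 < u) : 0 < ramp u := mul_pos h (step_pos (by norm_num) h)
theorem ramp_le {u : ℝ} (h : 0 ≤ u) : ramp u ≤ u := mul_le_of_le_one_right h (step_le_one _ _ _)
theorem sub_le_ramp (u : ℝ) : u - 1 / 100 ≤ ramp u := by
  rcases le_total u (1 / 100) with h | h
  · exact (sub_nonpos.2 h).trans (ramp_nonneg u)
  · rw [ramp_of_ge h]
    linarith
private theorem profA_ramp (u : ℝ) :
    deriv ramp u = step 0 (1 / 100) u + u * deriv (step 0 (1 / 100)) u := by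
  have : HasDerivAt ramp _ u := (hasDerivAt_id' u).fun_mul (step_hasDerivAt 0 (1 / 100) u)
  rw [this.deriv, one_mul]
theorem ramp_deriv_pos {u : ℝ} (h : 0 < u) : 0 < deriv ramp u := by
  rw [profA_ramp]
  exact add_pos_of_pos_of_nonneg (step_pos (by norm_num) h)
    (mul_nonneg h.le (step_deriv_nonneg (by norm_num) u))
theorem ramp_deriv_of_nonpos {u : ℝ} (h : u ≤ 0) : deriv ramp u = 0 := by
  rw [profA_ramp, step_of_le (by norm_num) h, step_deriv_of_le (by norm_num) h, mul_zero, add_zero]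
theorem ramp_deriv_of_ge {u : ℝ} (h : 1 / 100 ≤ u) : deriv ramp u = 1 := by
  rw [profA_ramp, step_of_ge (by norm_num) h, step_deriv_of_ge (by norm_num) h, mul_zero, add_zero]
theorem ramp_deriv_nonneg (u : ℝ) : 0 ≤ deriv ramp u := by
  rcases le_or_gt u 0 with h | h
  · exact (ramp_deriv_of_nonpos h).ge
  · exact (ramp_deriv_pos h).le
theorem ramp_mono : Monotone ramp :=
  monotone_of_deriv_nonneg (ramp_contDiff.differentiable (by simp)) ramp_deriv_nonneg
theorem ramp_strictMonoOn : StrictMonoOn ramp (Ici 0) := by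
  refine strictMonoOn_of_deriv_pos (convex_Ici 0) ramp_contDiff.continuous.continuousOn ?_
  rw [interior_Ici]
  exact fun x hx => ramp_deriv_pos hx
theorem ramp_hasDerivAt (u : ℝ) : HasDerivAt ramp (deriv ramp u) u :=
  (ramp_contDiff.differentiable (by simp) u).hasDerivAt

theorem Hs_contDiff : ContDiff ℝ ∞ Hs :=
  (contDiff_id.add ((step_contDiff _ _).mul (contDiff_const.sub contDiff_id))).sub
    (((step_contDiff _ _).comp contDiff_neg).mul (contDiff_const.add contDiff_id))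
theorem Hs_neg (σ : ℝ) : Hs (-σ) = -Hs σ := by
  simp only [Hs, neg_neg]
  ring
theorem Hs_of_abs_le {σ : ℝ} (h : |σ| ≤ 9 / 10) : Hs σ = σ := by
  rw [Hs, step_of_le (by norm_num) (abs_le.1 h).2,
    step_of_le (by norm_num) (neg_le.2 (abs_le.1 h).1)]
  ring
theorem Hs_of_ge {σ : ℝ} (h : 1 ≤ σ) : Hs σ = 1 := by
  rw [Hs, step_of_ge (by norm_num) h, step_of_le (by norm_num) (by linarith : -σ ≤ 9 / 10)]
  ring
theorem Hs_of_le {σ : ℝ} (h : σ ≤ -1) : Hs σ = -1 := by
  rw [← neg_neg σ, Hs_neg, Hs_of_ge (le_neg.1 h)]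
private theorem profA_Hs (σ : ℝ) : deriv Hs σ = 1 - step (9 / 10) 1 σ - step (9 / 10) 1 (-σ) +
    deriv (step (9 / 10) 1) σ * (1 - σ) + deriv (step (9 / 10) 1) (-σ) * (1 + σ) := by
  have h := hasDerivAt_id' σ
  have : HasDerivAt Hs _ σ := (h.fun_add ((step_hasDerivAt (9 / 10) 1 σ).fun_mul
    (h.const_sub 1))).fun_sub (((step_hasDerivAt (9 / 10) 1 (-σ)).comp σ
      (hasDerivAt_neg' σ)).fun_mul (h.const_add 1))
  rw [this.deriv]
  simp only [Function.comp]
  ring
theorem Hs_deriv_pos {σ : ℝ} (h : |σ| < 1) : 0 < deriv Hs σ := by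
  obtain ⟨h1, h2⟩ := abs_lt.1 h
  have hab : (9 / 10 : ℝ) < 1 := by norm_num
  have a := mul_nonneg (step_deriv_nonneg hab σ) (sub_pos.2 h2).le
  have b := mul_nonneg (step_deriv_nonneg hab (-σ)) (show 0 ≤ 1 + σ by linarith)
  rw [profA_Hs]
  rcases le_total σ 0 with h0 | h0
  · have := step_lt_one hab (neg_lt.2 h1)
    rw [step_of_le hab (by linarith : σ ≤ 9 / 10)]
    linarith
  · have := step_lt_one hab h2
    rw [step_of_le hab (by linarith : -σ ≤ 9 / 10)]
    linarith
theorem Hs_deriv_nonneg (σ : ℝ) : 0 ≤ deriv Hs σ := by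
  have hab : (9 / 10 : ℝ) < 1 := by norm_num
  rcases lt_or_ge |σ| 1 with h | h
  · exact (Hs_deriv_pos h).le
  · rw [profA_Hs]
    rcases le_abs.1 h with h | h
    · have h' : -σ ≤ 9 / 10 := by linarith
      rw [step_of_ge hab h, step_deriv_of_ge hab h, step_of_le hab h', step_deriv_of_le hab h']
      simp
    · have h' : σ ≤ 9 / 10 := by linarith
      rw [step_of_ge hab h, step_deriv_of_ge hab h, step_of_le hab h', step_deriv_of_le hab h']
      simp
theorem Hs_mono : Monotone Hs :=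
  monotone_of_deriv_nonneg (Hs_contDiff.differentiable (by simp)) Hs_deriv_nonneg
theorem abs_Hs_le (σ : ℝ) : |Hs σ| ≤ 1 := by
  refine abs_le.2 ⟨?_, ?_⟩
  · rw [← Hs_of_le (min_le_right σ (-1))]
    exact Hs_mono (min_le_left _ _)
  · rw [← Hs_of_ge (le_max_right σ 1)]
    exact Hs_mono (le_max_left _ _)
theorem Hs_strictMonoOn : StrictMonoOn Hs (Icc (-1) 1) := by
  refine strictMonoOn_of_deriv_pos (convex_Icc _ _) Hs_contDiff.continuous.continuousOn ?_
  rw [interior_Icc]
  exact fun x hx => Hs_deriv_pos (abs_lt.2 hx)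
theorem Hs_hasDerivAt (σ : ℝ) : HasDerivAt Hs (deriv Hs σ) σ :=
  (Hs_contDiff.differentiable (by simp) σ).hasDerivAt
theorem Hs_pos {σ : ℝ} (h : 0 < σ) : 0 < Hs σ := by
  have h1 : 0 < min σ (9 / 10) := lt_min h (by norm_num)
  refine h1.trans_le ?_
  rw [← Hs_of_abs_le (σ := min σ (9 / 10)) (by rw [abs_of_pos h1]; exact min_le_right _ _)]
  exact Hs_mono (min_le_left _ _)
private theorem profA_abs (σ : ℝ) : |Hs σ| = Hs |σ| := by
  have h0 : ∀ x, 0 ≤ x → 0 ≤ Hs x := fun x hx => by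
    rw [← Hs_of_abs_le (σ := 0) (by norm_num)]
    exact Hs_mono hx
  rcases le_total 0 σ with h | h
  · rw [abs_of_nonneg h, abs_of_nonneg (h0 _ h)]
  · rw [abs_of_nonpos h, ← abs_neg, ← Hs_neg, abs_of_nonneg (h0 _ (neg_nonneg.2 h))]
theorem abs_Hs_le_iff (σ : ℝ) : |Hs σ| ≤ 9 / 10 ↔ |σ| ≤ 9 / 10 := by
  refine ⟨fun h => ?_, fun h => by rwa [Hs_of_abs_le h]⟩
  by_contra h1
  rw [not_le] at h1
  rw [profA_abs] at h
  have h2 : (9 / 10 : ℝ) < min |σ| 1 := lt_min h1 (by norm_num)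
  have h3 := Hs_strictMonoOn ⟨by norm_num, by norm_num⟩ ⟨by linarith, min_le_right _ _⟩ h2
  rw [Hs_of_abs_le (by norm_num [abs_of_pos])] at h3
  linarith [Hs_mono (min_le_left |σ| 1)]
theorem abs_Hs_lt_one_iff (σ : ℝ) : |Hs σ| < 1 ↔ |σ| < 1 := by
  rw [profA_abs]
  refine ⟨fun h => ?_, fun h => ?_⟩
  · by_contra h1
    rw [Hs_of_ge (not_lt.1 h1)] at h
    exact lt_irrefl _ h
  · have := Hs_strictMonoOn ⟨by linarith [abs_nonneg σ], h.le⟩ ⟨by norm_num, le_rfl⟩ h
    rwa [Hs_of_ge le_rfl] at this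

end Pool.Agent.Lib.MP_1d0d1b_gt
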