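import Pool.Agent.Lib.MP_1d0d1b_gt.Defs

/-!
Data structures of the finger-move engine (no proofs here).
A *fat slab* is a smooth map `F : ℂ × ℂ → E4`; the surface is `ξ ↦ F (ξ, 0)`, the second
variable is `λ + μ i` where `λ` is the Whitney framing direction.
-/

open Set Function Filter Topology
open scoped ContDiff Real

noncomputable section

namespace Pool.Agent.Lib.MP_1d0d1b_gt

/-- Smooth step: `0` left of `a`, `1` right of `b`. -/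
def step (a b x : ℝ) : ℝ := Real.smoothTransition ((x - a) / (b - a))

/-- Finger profile. -/
def hh (κ s : ℝ) : ℝ := (1 + κ * (1 - s)) * (1 - step 2 4 s)

/-- Cayley map: upper half plane to unit disc, `0 ↦ 1`. -/
def Cay (w : ℂ) : ℂ := (Complex.I - w) / (Complex.I + w)

/-- `CayR r ξ = Cay (-r / ξ)`. -/
def CayR (r : ℝ) (ξ : ℂ) : ℂ := (Complex.I * ξ + r) / (Complex.I * ξ - r)

/-- The zero leaf of a fat slab. -/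
def leaf (F : ℂ × ℂ → E4) (z : ℂ) : E4 := F (z, 0)

/-- A descending path, a graph over the vertical coordinate. -/
def path (g : ℝ → ℝ) (y u : ℝ) : ℂ := ⟨g u, (1 - u) * y⟩

/-- `q` can be joined to the real point `d` by a descending path in the open unit disc
avoiding `T`. -/
def Acc (q : ℂ) (T : Set ℂ) (d : ℝ) : Prop :=
  ∃ g : ℝ → ℝ, ContDiff ℝ ∞ g ∧ g 0 = q.re ∧ g 1 = d ∧
    ∀ u ∈ Icc (0 : ℝ) 1, ‖path g q.im u‖ < 1 ∧ path g q.im u ∉ T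

/-- Fixed data: the two discs, the obstacle set, the root cores and the ghost leaves. -/
structure Base where
  f : Fin 2 → ℂ → E4
  f_smooth : ∀ j, ContDiff ℝ ∞ (f j)
  f_imm : ∀ j, ∀ z ∈ Disc, Injective (fderiv ℝ (f j) z)
  f_inj : ∀ j, InjOn (f j) Disc
  O : Set E4
  O_closed : IsClosed O
  R : Type
  finR : Finite R
  lo : R → Fin 2
  d : R → ℝ
  F0 : R → ℂ × ℂ → E4
  G : R → ℂ × ℂ → E4
  γ : R → ℂ × ℝ → ℂ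
  G_smooth : ∀ a, ContDiff ℝ ∞ (G a)
  G_bij : ∀ a, ∀ ζ ∈ Disc, Bijective (fderiv ℝ (G a) (ζ, 0))
  γ_smooth : ∀ a, ContDiff ℝ ∞ (γ a)
  γ_mem : ∀ a ζ, ‖ζ‖ = 1 → γ a (ζ, 0) ∈ oDisc
  G_bot : ∀ a ζ₀, ‖ζ₀‖ = 1 → ∀ᶠ q : ℂ × ℝ in 𝓝 (ζ₀, 0), ‖q.1‖ = 1 →
    G a (q.1, (q.2 : ℂ)) = f (lo a) (γ a q)
  G_D : ∀ a, ∀ ζ ∈ Disc, ∀ j, ∀ z ∈ Disc, G a (ζ, 0) = f j z → ‖ζ‖ = 1 ∧ j = lo a
  G_O : ∀ a, ∀ ζ ∈ Disc, G a (ζ, 0) ∉ O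
  G_pos : ∀ a, ∀ ζ ∈ Disc, 0 < (G a (ζ, 0)).2
  compat : ∀ a, ∀ᶠ q : ℝ × ℂ in 𝓝 (d a, 0),
    F0 a ((q.1 : ℂ), q.2) = G a (Cay q.2, ((q.1 - d a : ℝ) : ℂ))

/-- A finite family of Whitney discs (fat slabs).  `par i = inl a` means that `i` is the root
`a`; `par i = inr X` means that the semicircle of `i` lies on `X`. -/
structure Config (B : Base) where
  I : Type
  F : I → ℂ × ℂ → E4
  lo : I → Fin 2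
  α : I → ℝ × ℝ → ℂ
  d : I → ℝ
  par : I → B.R ⊕ I
  rt : B.R → I
  p : I → ℂ
  M : I → ℂ →L[ℝ] ℂ
  ord : I → ℕ
  anc : I → B.R

namespace Config

variable {B : Base} (C : Config B)

/-- The affine map placing the semicircle of `i` in the domain of its parent. -/
def β (i : C.I) (ξ : ℂ) : ℂ := C.p i + C.M i ξ

/-- All sheets: Whitney discs and ghost leaves. -/
def sh : C.I ⊕ B.R → ℂ → E4
  | .inl i => leaf (C.F i)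
  | .inr a => leaf (B.G a)

def sdom : C.I ⊕ B.R → Set ℂ
  | .inl _ => Half
  | .inr _ => Disc

def sodom : C.I ⊕ B.R → Set ℂ
  | .inl _ => oHalf
  | .inr _ => oDisc

/-- Structural coincidences: a semicircle on its parent, or a landing point. -/
def Str (s : C.I ⊕ B.R) (x : ℂ) (s' : C.I ⊕ B.R) (x' : ℂ) : Prop :=
  (∃ i X, s = .inl i ∧ s' = .inl X ∧ C.par i = .inr X ∧ x ∈ Semi ∧ x' = C.β i x) ∨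
  (∃ a, s = .inl (C.rt a) ∧ s' = .inr a ∧ x = (B.d a : ℂ) ∧ x' = 1)

/-- A transverse interior double point of two different sheets, with no third sheet. -/
def Good (s : C.I ⊕ B.R) (x : ℂ) (s' : C.I ⊕ B.R) (x' : ℂ) : Prop :=
  s ≠ s' ∧ x ∈ C.sodom s ∧ x' ∈ C.sodom s' ∧ C.sh s x = C.sh s' x' ∧
    Transv (C.sh s) (C.sh s') x x' ∧
    ∀ s'' x'', x'' ∈ C.sdom s'' → C.sh s'' x'' = C.sh s x → (s'', x'') = (s, x) ∨ (s'', x'') = (s', x')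

/-- The traces of the children of `X` in the domain of `X`. -/
def Tr (X : C.I) : Set ℂ := {x | ∃ c, C.par c = .inr X ∧ ∃ ξ ∈ Semi, x = C.β c ξ}

/-- The traces of the children of `X` other than `c₀`. -/
def TrX (X c₀ : C.I) : Set ℂ := {x | ∃ c, c ≠ c₀ ∧ C.par c = .inr X ∧ ∃ ξ ∈ Semi, x = C.β c ξ}

/-- Pending intersection points of level `k`. -/
def Pend (k : ℕ) : Set ((C.I × ℂ) × (C.I × ℂ)) :=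
  {q | C.Good (.inl q.1.1) q.1.2 (.inl q.2.1) q.2.2 ∧ max (C.ord q.1.1) (C.ord q.2.1) = k}

/-- The invariants of the engine. -/
structure Valid : Prop where
  finI : Finite C.I
  par_rt : ∀ a, C.par (C.rt a) = .inl a
  rt_par : ∀ i a, C.par i = .inl a → i = C.rt a
  lo_rt : ∀ a, C.lo (C.rt a) = B.lo a
  d_rt : ∀ a, C.d (C.rt a) = B.d a
  ord_rt : ∀ a, C.ord (C.rt a) = 1
  ord_child : ∀ i X, C.par i = .inr X → C.ord i = C.ord X + 1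
  anc_rt : ∀ a, C.anc (C.rt a) = a
  anc_child : ∀ i X, C.par i = .inr X → C.anc i = C.anc X
  d_mem : ∀ i, |C.d i| < 1
  smooth : ∀ i, ContDiff ℝ ∞ (C.F i)
  bij : ∀ i, ∀ ξ ∈ Half, Bijective (fderiv ℝ (C.F i) (ξ, 0))
  α_smooth : ∀ i, ContDiff ℝ ∞ (C.α i)
  α_mem : ∀ i (x : ℝ), |x| ≤ 1 → C.α i (x, 0) ∈ oDisc
  bot : ∀ i (x₀ : ℝ), |x₀| ≤ 1 → ∀ᶠ q : ℝ × ℝ in 𝓝 (x₀, 0),
    C.F i ((q.1 : ℂ), (q.2 : ℂ)) = B.f (C.lo i) (C.α i q)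
  top : ∀ i X, C.par i = .inr X → ∀ ξ₀ ∈ Semi, ∀ᶠ q : ℂ × ℂ in 𝓝 (ξ₀, 0), ‖q.1‖ = 1 →
    C.F i q = C.F X (C.β i ((1 + q.2.im) • q.1), (q.2.re : ℂ))
  β_mem : ∀ i X, C.par i = .inr X → ∀ ξ ∈ Semi, C.β i ξ ∈ oHalf
  M_one : ∀ i X, C.par i = .inr X → (C.M i 1).im = 0 ∧ C.M i 1 ≠ 0
  M_I : ∀ i X, C.par i = .inr X → 0 < (C.M i Complex.I).im
  root_eq : ∀ a, ∃ K : Set ℂ, IsCompact K ∧ K ⊆ oHalf ∧
    ∀ ξ, ξ ∉ K → ∀ w, C.F (C.rt a) (ξ, w) = B.F0 a (ξ, w)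
  pos : ∀ i, ∀ ξ ∈ Half, 0 < (C.F i (ξ, 0)).2
  notO : ∀ i, ∀ ξ ∈ Half, C.F i (ξ, 0) ∈ B.O → (∃ a, C.par i = .inl a) ∧ ‖ξ‖ = 1
  onD : ∀ i, ∀ ξ ∈ Half, ∀ j, ∀ z ∈ Disc, C.F i (ξ, 0) = B.f j z →
    (ξ ∈ Diam ∧ j = C.lo i) ∨
      ∃ c, C.par c = .inr i ∧ j = C.lo c ∧ (ξ = C.β c 1 ∨ ξ = C.β c (-1))
  gen : ∀ s x s' x', x ∈ C.sdom s → x' ∈ C.sdom s' → (s, x) ≠ (s', x') →
    C.sh s x = C.sh s' x' → C.Str s x s' x' ∨ C.Str s' x' s x ∨ C.Good s x s' x'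
  fin : {q : ((C.I ⊕ B.R) × ℂ) × ((C.I ⊕ B.R) × ℂ) | C.Good q.1.1 q.1.2 q.2.1 q.2.2}.Finite
  acc : ∀ i x s' x', C.Good (.inl i) x s' x' → Acc x (C.Tr i) (C.d i)
  accE : ∀ c X, C.par c = .inr X → Acc (C.β c 1) (C.TrX X c) (C.d X)

/-- A small closed ball around the pending point `p` of `Z` in which all changes happen. -/
structure Prep (Z : C.I) (p : ℂ) (η : ℝ) : Prop where
  η_pos : 0 < η
  sub : Metric.closedBall p η ⊆ oHalf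
  only : ∀ x ∈ Metric.closedBall p η, ∀ s' x', C.Good (.inl Z) x s' x' → x = p
  disj : Disjoint (Metric.closedBall p η) (C.Tr Z)
  acc : ∀ x s' x', C.Good (.inl Z) x s' x' → x ≠ p →
    Acc x (C.Tr Z ∪ Metric.closedBall p η) (C.d Z)
  accE : ∀ c, C.par c = .inr Z → Acc (C.β c 1) (C.TrX Z c ∪ Metric.closedBall p η) (C.d Z)
  accB : ∀ x ∈ Metric.closedBall p η, Acc x (C.Tr Z) (C.d Z)

/-- Traces enlarged by the ball of change. -/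
def TrP (Z : C.I) (p : ℂ) (η : ℝ) (j : C.I) : Set ℂ :=
  {x | x ∈ C.Tr j ∨ (j = Z ∧ x ∈ Metric.closedBall p η)}

/-- An old sheet point that survives the move. -/
def Old (Z : C.I) (p : ℂ) (η : ℝ) (s : C.I ⊕ B.R) (x : ℂ) : Prop :=
  x ∈ C.sdom s ∧ ¬ (s = .inl Z ∧ x ∈ Metric.ball p η)

/-- The properties of the new slab `F'` of `Z` (with its finger).  The finger meets the discs
exactly in the two points `e₁, e₂`, on the disc `j₀`. -/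
structure FingerOK (Z : C.I) (p : ℂ) (η : ℝ) (F' : ℂ × ℂ → E4) (j₀ : Fin 2) (e₁ e₂ : ℂ) :
    Prop where
  smooth : ContDiff ℝ ∞ F'
  eq_out : ∀ ξ, η / 2 ≤ ‖ξ - p‖ → ∀ w, F' (ξ, w) = C.F Z (ξ, w)
  bij : ∀ ξ ∈ Half, Bijective (fderiv ℝ F' (ξ, 0))
  inj : InjOn (leaf F') (Metric.ball p η)
  old : ∀ ξ ∈ Metric.ball p η, ∀ s x, C.Old Z p η s x → F' (ξ, 0) ≠ C.sh s x
  onD : ∀ ξ ∈ Metric.ball p η, ∀ j, ∀ z ∈ Disc, F' (ξ, 0) = B.f j z →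
    j = j₀ ∧ (ξ = e₁ ∨ ξ = e₂)
  notO : ∀ ξ ∈ Metric.ball p η, F' (ξ, 0) ∉ B.O
  pos : ∀ ξ ∈ Metric.ball p η, 0 < (F' (ξ, 0)).2

/-- The data of one move: the new slab of `Z` and the new child. -/
structure Upd (Z : C.I) (p : ℂ) (η : ℝ) where
  F' : ℂ × ℂ → E4
  Fc : ℂ × ℂ → E4
  loc : Fin 2
  αc : ℝ × ℝ → ℂ
  Mc : ℂ →L[ℝ] ℂ
  finger : C.FingerOK Z p η F' loc (p + Mc 1) (p + Mc (-1))
  smooth : ContDiff ℝ ∞ Fc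
  bij : ∀ ξ ∈ Half, Bijective (fderiv ℝ Fc (ξ, 0))
  inj : InjOn (leaf Fc) Half
  α_smooth : ContDiff ℝ ∞ αc
  α_mem : ∀ x : ℝ, |x| ≤ 1 → αc (x, 0) ∈ oDisc
  bot : ∀ x₀ : ℝ, |x₀| ≤ 1 → ∀ᶠ q : ℝ × ℝ in 𝓝 (x₀, 0),
    Fc ((q.1 : ℂ), (q.2 : ℂ)) = B.f loc (αc q)
  top : ∀ ξ₀ ∈ Semi, ∀ᶠ q : ℂ × ℂ in 𝓝 (ξ₀, 0), ‖q.1‖ = 1 →
    Fc q = F' (p + Mc ((1 + q.2.im) • q.1), (q.2.re : ℂ))
  β_mem : ∀ ξ ∈ Semi, p + Mc ξ ∈ Metric.ball p η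
  M_one : (Mc 1).im = 0 ∧ Mc 1 ≠ 0
  M_I : 0 < (Mc Complex.I).im
  pos : ∀ ξ ∈ Half, 0 < (Fc (ξ, 0)).2
  notO : ∀ ξ ∈ Half, Fc (ξ, 0) ∉ B.O
  onD : ∀ ξ ∈ Half, ∀ j, ∀ z ∈ Disc, Fc (ξ, 0) = B.f j z → ξ ∈ Diam ∧ j = loc
  onF : ∀ ξ ∈ Half, ∀ ξ' ∈ Metric.ball p η, Fc (ξ, 0) = F' (ξ', 0) → ξ ∈ Semi ∧ ξ' = p + Mc ξ
  onOld : ∀ ξ ∈ Half, ∀ s x, C.Old Z p η s x → Fc (ξ, 0) = C.sh s x →
    ξ ∈ oHalf ∧ x ∈ C.sodom s ∧ Transv (leaf Fc) (C.sh s) ξ x ∧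
      (∀ s' x', C.Old Z p η s' x' → C.sh s' x' = C.sh s x → (s', x') = (s, x)) ∧
      (∀ j, s = .inl j → Acc x (C.TrP Z p η j) (C.d j))
  finOld : {q : ℂ × ((C.I ⊕ B.R) × ℂ) |
    q.1 ∈ Half ∧ C.Old Z p η q.2.1 q.2.2 ∧ Fc (q.1, 0) = C.sh q.2.1 q.2.2}.Finite

end Config

/-- The boundary behaviour of the two discs. -/
structure DFacts (B : Base) (L : Fin 2 → ℝ → V3) : Prop where
  bdry : ∀ j t, B.f j (circ t) = (L j t, 0)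
  neat : ∀ j z, ‖z‖ = 1 → ∃ p, (fderiv ℝ (B.f j) z p).2 ≠ 0
  pos : ∀ j, ∀ z ∈ oDisc, 0 < (B.f j z).2

/-- The outer parts of the first order Whitney discs, for a given cabling width `ε`. -/
structure VGood (B : Base) (K : B.R → Type) (up : ∀ a, K a → Fin 2) (r₀ θ : ℝ)
    (W : ∀ a, K a → ℂ × ℝ → E4) : Prop where
  imm : ∀ a k, ∀ ξ ∈ Half, r₀ ≤ ‖ξ‖ → Injective (fderiv ℝ (W a k) (ξ, 0))
  inO : ∀ a k, ∀ ξ ∈ Half, r₀ ≤ ‖ξ‖ → W a k (ξ, 0) ∈ B.O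
  pos : ∀ a k, ∀ ξ ∈ Half, r₀ ≤ ‖ξ‖ → 0 < (W a k (ξ, 0)).2
  inj : ∀ a k a' k', ∀ ξ ∈ Half, ∀ ξ' ∈ Half, r₀ * (1 - θ) ≤ ‖ξ‖ → r₀ * (1 - θ) ≤ ‖ξ'‖ →
    W a k (ξ, 0) = W a' k' (ξ', 0) → (⟨a, k⟩ : Σ a, K a) = ⟨a', k'⟩ ∧ ξ = ξ'
  onD : ∀ a k, ∀ ξ ∈ Half, r₀ ≤ ‖ξ‖ → ∀ j, ∀ z ∈ Disc, W a k (ξ, 0) = B.f j z →
    (ξ ∈ Diam ∧ j = B.lo a) ∨ (ξ ∈ Semi ∧ j = up a k)
  bot : ∀ a k, ∃ α : ℝ × ℝ → ℂ, ContDiff ℝ ∞ α ∧ (∀ x : ℝ, |x| ≤ 1 → α (x, 0) ∈ oDisc) ∧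
    ∀ x₀ : ℝ, |x₀| ≤ 1 → ∀ᶠ q : ℝ × ℝ in 𝓝 (x₀, 0), W a k ((q.1 : ℂ), q.2) = B.f (B.lo a) (α q)
  top : ∀ a k, ∃ b : ℝ → ℂ, ContDiff ℝ ∞ b ∧ (∀ t ∈ Icc (0 : ℝ) π, b t ∈ oDisc) ∧
    (∀ t₀ ∈ Icc (0 : ℝ) π, ∀ᶠ t in 𝓝 t₀, W a k (circ t, 0) = B.f (up a k) (b t)) ∧
    ∀ t ∈ Icc (0 : ℝ) π, ∀ y : E4, ∃ (P : ℂ × ℝ) (Q : ℂ),
      fderiv ℝ (W a k) (circ t, 0) P + fderiv ℝ (B.f (up a k)) (b t) Q = y
  dbl : ∀ j j', j ≠ j' → ∀ z ∈ Disc, ∀ z' ∈ Disc, B.f j z = B.f j' z' →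
    ∃ a k, B.f j z = W a k (1, 0) ∨ B.f j z = W a k (-1, 0)

/-- The parallel copies of the roots and their outer parts. -/
structure Variants (B : Base) where
  K : B.R → Type
  finK : ∀ a, Finite (K a)
  c : ∀ a, K a → ℝ
  c_inj : ∀ a, Injective (c a)
  r₀ : ℝ
  θ : ℝ
  r₀_pos : 0 < r₀
  θ_pos : 0 < θ
  r₀_lt : r₀ * (1 + θ) < 1
  up : ∀ a, K a → Fin 2
  W : ℝ → ∀ a, K a → ℂ × ℝ → E4
  smooth : ∀ ε a k, ContDiff ℝ ∞ (W ε a k)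
  agree : ∀ a, ∃ Kc : Set ℂ, IsCompact Kc ∧ Kc ⊆ oHalf ∧ ∀ ε k (ξ : ℂ) (l : ℝ),
    ξ / (r₀ : ℂ) ∉ Kc → ‖ξ‖ < r₀ * (1 + θ) →
      W ε a k (ξ, l) = B.F0 a (ξ / (r₀ : ℂ), ((ε * c a k + l : ℝ) : ℂ))
  good : ∀ᶠ ε in 𝓝[>] (0 : ℝ), VGood B K up r₀ θ (W ε)

end Pool.Agent.Lib.MP_1d0d1b_gt
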