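import Pool.Agent.Lib.MP_1d0d1b_gt.State

open Set Function Filter Topology
open scoped ContDiff Real

noncomputable section

namespace Pool.Agent.Lib.MP_1d0d1b_gt

section general

variable {X Y E : Type*} [NormedAddCommGroup X] [NormedSpace ℝ X] [FiniteDimensional ℝ X]
  [NormedAddCommGroup Y] [NormedSpace ℝ Y] [FiniteDimensional ℝ Y]
  [NormedAddCommGroup E] [NormedSpace ℝ E] [FiniteDimensional ℝ E]

theorem locInj {f : X → E} (hf : ContDiff ℝ ∞ f) {x : X} (h : Injective (fderiv ℝ f x)) :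
    ∃ U ∈ 𝓝 x, InjOn f U := by
  obtain ⟨K, hK, hA⟩ := (fderiv ℝ f x).injective_iff_antilipschitz.1 h
  have hs : HasStrictFDerivAt f (fderiv ℝ f x) x := hf.contDiffAt.hasStrictFDerivAt (by simp)
  obtain ⟨U, hU, hap⟩ := hs.approximates_deriv_on_nhds (c := K⁻¹ / 2) (Or.inr (by positivity))
  refine ⟨U, hU, fun a ha b hb hab => ?_⟩
  have h1 := hap a ha b hb
  rw [hab, sub_self, zero_sub, norm_neg] at h1
  have h2 : ‖a - b‖ ≤ K * ‖fderiv ℝ f x (a - b)‖ :=
    ZeroHomClass.bound_of_antilipschitz (fderiv ℝ f x) hA (a - b)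
  have hK' : (0 : ℝ) < K := hK
  have h3 : (K : ℝ) * ‖fderiv ℝ f x (a - b)‖ ≤ K * (((K⁻¹ / 2 : NNReal) : ℝ) * ‖a - b‖) :=
    mul_le_mul_of_nonneg_left h1 hK'.le
  have h4 : (K : ℝ) * (((K⁻¹ / 2 : NNReal) : ℝ) * ‖a - b‖) = ‖a - b‖ / 2 := by
    push_cast
    field_simp
  have h5 : ‖a - b‖ ≤ 0 := by linarith
  exact sub_eq_zero.1 (norm_le_zero_iff.1 h5)

/-- Openness of injectivity for a continuous family of linear maps. -/
theorem eventually_inj_clm {T : Type*} [TopologicalSpace T] {A : T → X →L[ℝ] E} {t₀ : T}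
    (hA : ContinuousAt A t₀) (h : Injective (A t₀)) : ∀ᶠ t in 𝓝 t₀, Injective (A t) :=
  hA.eventually (ContinuousLinearMap.isOpen_injective.mem_nhds h)

theorem eventually_surj_clm {T : Type*} [TopologicalSpace T] {A : T → X →L[ℝ] E} {t₀ : T}
    (hA : ContinuousAt A t₀) (h : Surjective (A t₀)) : ∀ᶠ t in 𝓝 t₀, Surjective (A t) := by
  obtain ⟨R, hR⟩ := (A t₀ : X →ₗ[ℝ] E).exists_rightInverse_of_surjective
    (LinearMap.range_eq_top.2 h)
  have hc : ContinuousAt (fun t => (A t).comp (LinearMap.toContinuousLinearMap R)) t₀ :=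
    hA.clm_comp continuousAt_const
  have h0 : Injective ((A t₀).comp (LinearMap.toContinuousLinearMap R)) := by
    intro a b hab
    have ha := LinearMap.congr_fun hR a
    have hb := LinearMap.congr_fun hR b
    simp only [LinearMap.comp_apply, LinearMap.id_apply, ContinuousLinearMap.coe_coe] at ha hb
    simp only [ContinuousLinearMap.comp_apply, LinearMap.coe_toContinuousLinearMap'] at hab
    rw [← ha, ← hb, hab]
  filter_upwards [eventually_inj_clm hc h0] with t ht
  have hs : Surjective ((A t).comp (LinearMap.toContinuousLinearMap R)) :=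
    (LinearMap.injective_iff_surjective
      (f := ((A t).comp (LinearMap.toContinuousLinearMap R) : E →ₗ[ℝ] E))).1 ht
  intro e
  obtain ⟨a, ha⟩ := hs e
  exact ⟨_, ha⟩

theorem eventually_inj_fderiv {f : X → E} (hf : ContDiff ℝ ∞ f) {x : X}
    (h : Injective (fderiv ℝ f x)) : ∀ᶠ y in 𝓝 x, Injective (fderiv ℝ f y) :=
  eventually_inj_clm (hf.continuous_fderiv (by simp)).continuousAt h

theorem eventually_bij_fderiv {f : X → E} (hf : ContDiff ℝ ∞ f) {x : X}
    (h : Bijective (fderiv ℝ f x)) : ∀ᶠ y in 𝓝 x, Bijective (fderiv ℝ f y) :=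
  (eventually_inj_fderiv hf h.1).and
    (eventually_surj_clm (hf.continuous_fderiv (by simp)).continuousAt h.2)

theorem bij_nhdsSet {f : X → E} (hf : ContDiff ℝ ∞ f) {K : Set X} (hK : IsCompact K)
    (hi : InjOn f K) (hb : ∀ k ∈ K, Bijective (fderiv ℝ f k)) :
    ∃ N ∈ 𝓝ˢ K, InjOn f N ∧ ∀ n ∈ N, Bijective (fderiv ℝ f n) := by
  obtain ⟨t, ht, hti⟩ := hi.exists_mem_nhdsSet hK (fun x _ => hf.continuous.continuousAt)
    fun x hx => locInj hf (hb x hx).1
  have h2 : ∀ᶠ n in 𝓝ˢ K, Bijective (fderiv ℝ f n) :=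
    eventually_nhdsSet_iff_forall.2 fun x hx => eventually_bij_fderiv hf (hb x hx)
  exact ⟨_, inter_mem ht h2, hti.mono inter_subset_left, fun n hn => hn.2⟩

/-- A map with bijective derivative is open at the point. -/
theorem eventually_exists_of_bij {f : X → E} {x : X} (hf : ContDiffAt ℝ 1 f x)
    (h : Bijective (fderiv ℝ f x)) {Q : X → Prop} (hQ : ∀ᶠ x' in 𝓝 x, Q x') :
    ∀ᶠ y in 𝓝 (f x), ∃ x', f x' = y ∧ Q x' := by
  have := FiniteDimensional.complete ℝ X
  have := FiniteDimensional.complete ℝ E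
  have hs : HasStrictFDerivAt f (fderiv ℝ f x) x := hf.hasStrictFDerivAt one_ne_zero
  rw [← hs.map_nhds_eq_of_surj (LinearMap.range_eq_top.2 h.2), eventually_map]
  exact hQ.mono fun x' hx' => ⟨x', rfl, hx'⟩

omit [FiniteDimensional ℝ X] [FiniteDimensional ℝ E] in
theorem topA1_fderiv {F : X → E} (hF : ContDiff ℝ ∞ F) {χ : X → ℝ}
    (hχ : ContDiff ℝ ∞ χ) (b : E) (x : X) :
    fderiv ℝ (fun y => F y + χ y • b) x = fderiv ℝ F x + (fderiv ℝ χ x).smulRight b :=
  ((hF.differentiable (by simp) x).hasFDerivAt.add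
    ((hχ.differentiable (by simp) x).hasFDerivAt.smul_const b)).fderiv

theorem eventually_inj_perturb {F : X → E} (hF : ContDiff ℝ ∞ F) {χ : X → ℝ}
    (hχ : ContDiff ℝ ∞ χ) {K : Set X} (hK : IsCompact K)
    (h : ∀ x ∈ K, Injective (fderiv ℝ F x)) :
    ∀ᶠ b in 𝓝 (0 : E), ∀ x ∈ K, Injective (fderiv ℝ (fun y => F y + χ y • b) x) := by
  refine hK.eventually_forall_of_forall_eventually
    (P := fun b x => Injective (fderiv ℝ (fun y => F y + χ y • b) x)) fun x hx => ?_
  simp only [topA1_fderiv hF hχ]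
  have c1 : Continuous (fderiv ℝ F) := hF.continuous_fderiv (by simp)
  have c2 : Continuous (fderiv ℝ χ) := hχ.continuous_fderiv (by simp)
  have c3 : Continuous fun z : E × X => fderiv ℝ F z.2 + (fderiv ℝ χ z.2).smulRight z.1 := by
    refine (c1.comp continuous_snd).add ?_
    exact (ContinuousLinearMap.smulRightL ℝ X E).continuous₂.comp
      ((c2.comp continuous_snd).prodMk continuous_fst)
  refine eventually_inj_clm c3.continuousAt ?_
  have : (fderiv ℝ χ x).smulRight (0 : E) = 0 := by ext v; simp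
  simp only [this, add_zero]
  exact h x hx

theorem eventually_injOn_perturb {F : X → E} (hF : ContDiff ℝ ∞ F) {χ : X → ℝ}
    (hχ : ContDiff ℝ ∞ χ) {K : Set X} (hK : IsCompact K)
    (h : ∀ x ∈ K, Injective (fderiv ℝ F x)) (hi : InjOn F K) :
    ∀ᶠ b in 𝓝 (0 : E), InjOn (fun y => F y + χ y • b) K := by
  set G : E × X → E × E := fun z => (z.1, F z.2 + χ z.2 • z.1) with hG
  have hGd : ContDiff ℝ ∞ G :=
    contDiff_fst.prodMk ((hF.comp contDiff_snd).add ((hχ.comp contDiff_snd).smul contDiff_fst))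
  have hGi : InjOn G ({0} ×ˢ K) := by
    rintro ⟨a, x⟩ ⟨ha, hx⟩ ⟨b, y⟩ ⟨hb, hy⟩ hab
    simp only [mem_singleton_iff] at ha hb
    subst ha hb
    simp only [hG, smul_zero, add_zero, Prod.mk.injEq, true_and] at hab
    exact Prod.ext rfl (hi hx hy hab)
  have hloc : ∀ z ∈ ({0} : Set E) ×ˢ K, ∃ U ∈ 𝓝 z, InjOn G U := by
    rintro ⟨a, x⟩ ⟨ha, hx⟩
    simp only [mem_singleton_iff] at ha
    subst ha
    refine locInj hGd ?_
    have d1 : HasFDerivAt (fun z : E × X => F z.2)
        ((fderiv ℝ F x).comp (ContinuousLinearMap.snd ℝ E X)) (0, x) :=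
      (hF.differentiable (by simp) x).hasFDerivAt.comp ((0 : E), x) hasFDerivAt_snd
    have d2 : HasFDerivAt (fun z : E × X => χ z.2)
        ((fderiv ℝ χ x).comp (ContinuousLinearMap.snd ℝ E X)) (0, x) :=
      (hχ.differentiable (by simp) x).hasFDerivAt.comp ((0 : E), x) hasFDerivAt_snd
    have d3 : HasFDerivAt (fun z : E × X => z.1) (ContinuousLinearMap.fst ℝ E X) (0, x) :=
      hasFDerivAt_fst
    have d4 : HasFDerivAt G _ (0, x) := d3.prodMk (d1.add (d2.smul d3))
    rw [d4.fderiv, injective_iff_map_eq_zero]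
    rintro ⟨u, v⟩ huv
    simp only [ContinuousLinearMap.prod_apply, ContinuousLinearMap.coe_fst', add_apply,
      ContinuousLinearMap.comp_apply, ContinuousLinearMap.coe_snd', smul_apply,
      ContinuousLinearMap.smulRight_apply, smul_zero, add_zero, Prod.mk_eq_zero] at huv
    obtain ⟨rfl, h2⟩ := huv
    rw [smul_zero, add_zero] at h2
    rw [(injective_iff_map_eq_zero _).1 (h x hx) v h2]
    rfl
  obtain ⟨t, ht, hti⟩ := hGi.exists_mem_nhdsSet (isCompact_singleton.prod hK)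
    (fun z _ => hGd.continuous.continuousAt) hloc
  have hev : ∀ᶠ b in 𝓝 (0 : E), ∀ y ∈ K, (b, y) ∈ t :=
    hK.eventually_forall_of_forall_eventually (P := fun b y => (b, y) ∈ t)
      fun y hy => mem_nhdsSet_iff_forall.1 ht (0, y) ⟨rfl, hy⟩
  filter_upwards [hev] with b hb x hx y hy hxy
  have := hti (hb x hx) (hb y hy) (Prod.ext rfl hxy)
  exact (Prod.ext_iff.1 this).2

end general

end Pool.Agent.Lib.MP_1d0d1b_gt
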