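import Pool.Agent.Lib.MP_1d0d1b_gt.Basic

open Set Function Filter Topology
open scoped ContDiff Real

noncomputable section

namespace Pool.Agent.Lib.MP_1d0d1b_gt

/-- The parametrisation of the zero leaf of the child in the chart of the slab of `S`. -/
def ucase_n (d c r : ℝ) (ξ : ℂ) : ℂ × ℂ := (((d + c * (1 - ‖ξ‖ ^ 2) : ℝ) : ℂ), (r : ℂ) * ξ)

theorem ucase_n_hasFDerivAt (d c r : ℝ) (ξ : ℂ) :
    ∃ D : ℂ →L[ℝ] ℂ × ℂ, HasFDerivAt (ucase_n d c r) D ξ ∧
      ∀ a : ℂ, D a = (((-(2 * c * (ξ.re * a.re + ξ.im * a.im)) : ℝ) : ℂ), (r : ℂ) * a) := by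
  have h1 : HasFDerivAt (fun z : ℂ => ‖z‖ ^ 2) (2 • innerSL ℝ ξ) ξ :=
    (hasStrictFDerivAt_norm_sq ξ).hasFDerivAt
  have h2 := ((h1.const_sub 1).const_mul c).const_add d
  have h3 := Complex.ofRealCLM.hasFDerivAt.comp ξ h2
  have h4 : HasFDerivAt (fun z : ℂ => (r : ℂ) * z) ((r : ℂ) • ContinuousLinearMap.id ℝ ℂ) ξ :=
    (hasFDerivAt_id ξ).const_mul (r : ℂ)
  refine ⟨_, h3.prodMk h4, fun a => ?_⟩
  apply Prod.ext
  · simp [Complex.inner]
    ring
  · simp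

theorem ucase_transv {FS FX : ℂ × ℂ → E4} (hS : ContDiff ℝ ∞ FS) (hX : ContDiff ℝ ∞ FX)
    (p0 : ℂ) (M : ℂ →L[ℝ] ℂ) {d c r : ℝ} (hc : 0 < c) (hr : 0 < r) {ξ : ℂ} (hre : ξ.re = 0)
    (him : 0 < ξ.im) (h1 : (ucase_n d c r ξ).1 = 1)
    (hb : Surjective (fderiv ℝ FS (ucase_n d c r ξ)))
    (he : ∀ᶠ e in 𝓝 (ucase_n d c r ξ), ‖e.1‖ = 1 →
      FS e = FX (p0 + M ((1 + e.2.im) • e.1), (e.2.re : ℂ))) :
    Transv (fun ζ => FS (ucase_n d c r ζ)) (leaf FX) ξ
      (p0 + M ((1 + (ucase_n d c r ξ).2.im) • (ucase_n d c r ξ).1)) := by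
  obtain ⟨D, hD, hDa⟩ := ucase_n_hasFDerivAt d c r ξ
  set n := ucase_n d c r ξ with hn
  have hn2re : n.2.re = 0 := by simp [hn, ucase_n, hre]
  set m := n.2.im with hm
  have hnn : n = (1, (m : ℂ) * Complex.I) := by
    apply Prod.ext h1
    apply Complex.ext <;> simp [hn2re, hm]
  set x := p0 + M ((1 + m) • n.1) with hx
  have hx' : x = p0 + M ((1 + m) • (1 : ℂ)) := by rw [hx, h1]
  have hA : HasFDerivAt FS (fderiv ℝ FS n) n := (hS.differentiable (by simp) n).hasFDerivAt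
  have hB : HasFDerivAt (leaf FX) (fderiv ℝ (leaf FX) x) x :=
    ((leaf_contDiff hX).differentiable (by simp) x).hasFDerivAt
  set A := fderiv ℝ FS n with hAdef
  set Bm := fderiv ℝ (leaf FX) x with hBdef
  have hL : fderiv ℝ (fun ζ => FS (ucase_n d c r ζ)) ξ = A.comp D :=
    (hA.comp ξ hD).fderiv
  -- first curve
  have c1 : A (Complex.I, 0) = Bm (M ((1 + m) • Complex.I)) := by
    have k1 : HasDerivAt (fun t : ℝ => (circ t, (m : ℂ) * Complex.I)) (Complex.I, 0) 0 := by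
      have := (circ_hasDerivAt 0).prodMk (hasDerivAt_const (0 : ℝ) ((m : ℂ) * Complex.I))
      simpa [circ_zero] using this
    have k2 : HasDerivAt (fun t : ℝ => p0 + M ((1 + m) • circ t)) (M ((1 + m) • Complex.I)) 0 := by
      have := (M.hasFDerivAt.comp_hasDerivAt (0 : ℝ)
        ((circ_hasDerivAt 0).const_smul (1 + m))).const_add p0
      simpa [circ_zero] using this
    have e1 : (circ 0, (m : ℂ) * Complex.I) = n := by rw [circ_zero, hnn]
    have e2 : p0 + M ((1 + m) • circ 0) = x := by rw [circ_zero, hx']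
    have d1 := (e1 ▸ hA).comp_hasDerivAt (0 : ℝ) k1
    have d2 := (e2 ▸ hB).comp_hasDerivAt (0 : ℝ) k2
    have ev : (FS ∘ fun t : ℝ => (circ t, (m : ℂ) * Complex.I)) =ᶠ[𝓝 0]
        (leaf FX ∘ fun t : ℝ => p0 + M ((1 + m) • circ t)) := by
      have ht : Tendsto (fun t : ℝ => (circ t, (m : ℂ) * Complex.I)) (𝓝 0) (𝓝 n) :=
        e1 ▸ k1.continuousAt.tendsto
      filter_upwards [ht.eventually he] with t h
      have := h (norm_circ t)
      simpa [leaf] using this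
    exact (d1.congr_of_eventuallyEq ev.symm).unique d2
  -- second curve
  have c2 : A (0, Complex.I) = Bm (M 1) := by
    have k0 : HasDerivAt (fun t : ℝ => ((m + t : ℝ) : ℂ) * Complex.I) Complex.I 0 := by
      have := (((hasDerivAt_id (0 : ℝ)).const_add m).ofReal_comp).mul_const Complex.I
      simpa using this
    have k1 : HasDerivAt (fun t : ℝ => ((1 : ℂ), ((m + t : ℝ) : ℂ) * Complex.I))
        (0, Complex.I) 0 := (hasDerivAt_const (0 : ℝ) (1 : ℂ)).prodMk k0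
    have k2 : HasDerivAt (fun t : ℝ => p0 + M ((1 + (m + t)) • (1 : ℂ))) (M 1) 0 := by
      have := (M.hasFDerivAt.comp_hasDerivAt (0 : ℝ)
        ((((hasDerivAt_id (0 : ℝ)).const_add m).const_add 1).smul_const (1 : ℂ))).const_add p0
      simpa using this
    have e1 : ((1 : ℂ), ((m + 0 : ℝ) : ℂ) * Complex.I) = n := by rw [add_zero, hnn]
    have e2 : p0 + M ((1 + (m + 0)) • (1 : ℂ)) = x := by rw [add_zero, hx']
    have d1 := (e1 ▸ hA).comp_hasDerivAt (0 : ℝ) k1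
    have d2 := (e2 ▸ hB).comp_hasDerivAt (0 : ℝ) k2
    have ev : (FS ∘ fun t : ℝ => ((1 : ℂ), ((m + t : ℝ) : ℂ) * Complex.I)) =ᶠ[𝓝 0]
        (leaf FX ∘ fun t : ℝ => p0 + M ((1 + (m + t)) • (1 : ℂ))) := by
      have ht : Tendsto (fun t : ℝ => ((1 : ℂ), ((m + t : ℝ) : ℂ) * Complex.I)) (𝓝 0) (𝓝 n) :=
        e1 ▸ k1.continuousAt.tendsto
      filter_upwards [ht.eventually he] with t h
      have := h (by simp)
      simpa [leaf] using this
    exact (d1.congr_of_eventuallyEq ev.symm).unique d2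
  intro y
  obtain ⟨⟨u, v⟩, rfl⟩ := hb y
  obtain ⟨t, ht⟩ : ∃ t : ℝ, 2 * c * (ξ.im * t) = -u.re :=
    ⟨-u.re / (2 * c * ξ.im), by have := hc.ne'; have := him.ne'; field_simp⟩
  refine ⟨⟨v.re / r, t⟩, u.im • M ((1 + m) • Complex.I) + (v.im - r * t) • M 1, ?_⟩
  rw [hL, ← hBdef, Bm.map_add, Bm.map_smul, Bm.map_smul, ← c1, ← c2,
    ContinuousLinearMap.comp_apply, hDa, ← A.map_smul, ← A.map_smul, ← A.map_add, ← A.map_add]
  congr 1
  have hr' := hr.ne'
  apply Prod.ext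
  · apply Complex.ext
    · simp [hre, ht]
    · simp
  · apply Complex.ext
    · simp
      field_simp
    · simp

end Pool.Agent.Lib.MP_1d0d1b_gt
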