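import Pool.Agent.Lib.MP_1d0d1b_gt.Basic

open Set Function Filter Topology
open scoped ContDiff Real

noncomputable section

namespace Pool.Agent.Lib.MP_1d0d1b_gt

namespace Config

variable {B : Base} {C : Config B}

open Classical in
/-- The configuration after a move. -/
def next (C : Config B) {Z : C.I} {p : ℂ} {η : ℝ} (U : C.Upd Z p η) : Config B where
  I := Option C.I
  F := fun o => o.elim U.Fc (fun i => if i = Z then U.F' else C.F i)
  lo := fun o => o.elim U.loc C.lo
  α := fun o => o.elim U.αc C.α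
  d := fun o => o.elim 0 C.d
  par := fun o => o.elim (.inr (some Z)) (fun i => (C.par i).map id some)
  rt := fun a => some (C.rt a)
  p := fun o => o.elim p C.p
  M := fun o => o.elim U.Mc C.M
  ord := fun o => o.elim (C.ord Z + 1) C.ord
  anc := fun o => o.elim (C.anc Z) C.anc

section Helpers

variable {Z : C.I} {p : ℂ} {η : ℝ}

/-- The inclusion of the old sheets among the new ones. -/
private abbrev update_emb (C : Config B) (s : C.I ⊕ B.R) : Option C.I ⊕ B.R := Sum.map some id s

private theorem update_emb_inj {s s' : C.I ⊕ B.R} (h : update_emb C s = update_emb C s') :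
    s = s' := by
  rcases s with i | a <;> rcases s' with j | b <;> simp_all [update_emb]

private theorem update_F_none (U : C.Upd Z p η) : (C.next U).F none = U.Fc := rfl

private theorem update_F_Z (U : C.Upd Z p η) : (C.next U).F (some Z) = U.F' := by
  simp [next]

private theorem update_F_ne (U : C.Upd Z p η) {i : C.I} (h : i ≠ Z) :
    (C.next U).F (some i) = C.F i := by
  simp [next, h]

private theorem update_F_out (U : C.Upd Z p η) (i : C.I) {ξ : ℂ} (h : i = Z → η / 2 ≤ ‖ξ - p‖)
    (w : ℂ) : (C.next U).F (some i) (ξ, w) = C.F i (ξ, w) := by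
  by_cases hi : i = Z
  · subst hi
    rw [update_F_Z]
    exact U.finger.eq_out ξ (h rfl) w
  · rw [update_F_ne U hi]

private theorem update_half (hP : C.Prep Z p η) {ξ : ℂ} (h : ξ ∉ Metric.ball p η) :
    η / 2 < ‖ξ - p‖ := by
  have h1 := hP.η_pos
  rw [Metric.mem_ball, dist_eq_norm, not_lt] at h
  linarith

private theorem update_F_out' (hP : C.Prep Z p η) (U : C.Upd Z p η) (i : C.I) {ξ : ℂ}
    (h : ¬ (i = Z ∧ ξ ∈ Metric.ball p η)) (w : ℂ) :
    (C.next U).F (some i) (ξ, w) = C.F i (ξ, w) :=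
  update_F_out U i (fun hi => (update_half hP (fun hb => h ⟨hi, hb⟩)).le) w

private theorem update_not_ball (hP : C.Prep Z p η) {ξ : ℂ} (h : ξ ∉ oHalf) :
    ξ ∉ Metric.ball p η := fun hb => h (hP.sub (Metric.ball_subset_closedBall hb))

private theorem update_par_some (U : C.Upd Z p η) (i : C.I) :
    (C.next U).par (some i) = (C.par i).map id some := rfl

private theorem update_par_none (U : C.Upd Z p η) : (C.next U).par none = .inr (some Z) := rfl

private theorem update_par_inr (U : C.Upd Z p η) {i : C.I} {X : Option C.I}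
    (h : (C.next U).par (some i) = .inr X) : ∃ X', X = some X' ∧ C.par i = .inr X' := by
  rw [update_par_some] at h
  rcases hq : C.par i with a | X'
  · rw [hq] at h
    simp at h
  · rw [hq] at h
    exact ⟨X', (Sum.inr.inj h).symm, rfl⟩

private theorem update_par_of (U : C.Upd Z p η) {i X : C.I} (h : C.par i = .inr X) :
    (C.next U).par (some i) = .inr (some X) := by
  rw [update_par_some, h]
  rfl

private theorem update_par_child (U : C.Upd Z p η) {X : Option C.I}
    (h : (C.next U).par none = .inr X) : X = some Z := by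
  rw [update_par_none] at h
  exact (Sum.inr.inj h).symm

private theorem update_β_some (U : C.Upd Z p η) (i : C.I) (ξ : ℂ) :
    (C.next U).β (some i) ξ = C.β i ξ := rfl

private theorem update_β_none (U : C.Upd Z p η) (ξ : ℂ) :
    (C.next U).β none ξ = p + U.Mc ξ := rfl

private theorem update_sdom (U : C.Upd Z p η) (s : C.I ⊕ B.R) :
    (C.next U).sdom (update_emb C s) = C.sdom s := by
  rcases s with i | a <;> rfl

private theorem update_sodom (U : C.Upd Z p η) (s : C.I ⊕ B.R) :
    (C.next U).sodom (update_emb C s) = C.sodom s := by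
  rcases s with i | a <;> rfl

private theorem update_sh_none (U : C.Upd Z p η) : (C.next U).sh (.inl none) = leaf U.Fc := rfl

private theorem update_sh_Z (U : C.Upd Z p η) : (C.next U).sh (.inl (some Z)) = leaf U.F' := by
  show leaf ((C.next U).F (some Z)) = _
  rw [update_F_Z]

private theorem update_sh_ev (hP : C.Prep Z p η) (U : C.Upd Z p η) {s : C.I ⊕ B.R} {x : ℂ}
    (h : C.Old Z p η s x) : (C.next U).sh (update_emb C s) =ᶠ[𝓝 x] C.sh s := by
  rcases s with i | a
  · by_cases hi : i = Z
    · subst hi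
      have hx : η / 2 < ‖x - p‖ := update_half hP (fun hb => h.2 ⟨rfl, hb⟩)
      have ho : IsOpen {y : ℂ | η / 2 < ‖y - p‖} :=
        isOpen_lt continuous_const (continuous_id.sub continuous_const).norm
      filter_upwards [ho.mem_nhds hx] with y hy
      exact update_F_out U i (fun _ => le_of_lt hy) 0
    · refine Filter.Eventually.of_forall fun y => ?_
      exact update_F_out U i (fun h' => absurd h' hi) 0
  · exact Filter.Eventually.of_forall fun y => rfl

private theorem update_sh_old (hP : C.Prep Z p η) (U : C.Upd Z p η) {s : C.I ⊕ B.R} {x : ℂ}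
    (h : C.Old Z p η s x) : (C.next U).sh (update_emb C s) x = C.sh s x :=
  (update_sh_ev hP U h).eq_of_nhds

private theorem update_fderiv_old (hP : C.Prep Z p η) (U : C.Upd Z p η) {s : C.I ⊕ B.R} {x : ℂ}
    (h : C.Old Z p η s x) :
    fderiv ℝ ((C.next U).sh (update_emb C s)) x = fderiv ℝ (C.sh s) x :=
  (update_sh_ev hP U h).fderiv_eq

/-- Every point of a new sheet lies on the child, on the finger, or is old. -/
private theorem update_cases (U : C.Upd Z p η) (s : (C.next U).I ⊕ B.R) {x : ℂ}
    (hx : x ∈ (C.next U).sdom s) :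
    (s = .inl none ∧ x ∈ Half) ∨ (s = .inl (some Z) ∧ x ∈ Metric.ball p η) ∨
      ∃ t, s = update_emb C t ∧ C.Old Z p η t x := by
  rcases s with (_ | i) | a
  · exact Or.inl ⟨rfl, hx⟩
  · by_cases h : i = Z ∧ x ∈ Metric.ball p η
    · exact Or.inr (Or.inl ⟨by rw [h.1], h.2⟩)
    · refine Or.inr (Or.inr ⟨.inl i, rfl, hx, fun h' => h ⟨Sum.inl.inj h'.1, h'.2⟩⟩)
  · exact Or.inr (Or.inr ⟨.inr a, rfl, hx, fun h' => by simp at h'⟩)

private theorem update_str (U : C.Upd Z p η) {s s' : C.I ⊕ B.R} {x x' : ℂ}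
    (h : C.Str s x s' x') : (C.next U).Str (update_emb C s) x (update_emb C s') x' := by
  rcases h with ⟨i, X, rfl, rfl, hp, hx, hx'⟩ | ⟨a, rfl, rfl, hx, hx'⟩
  · exact Or.inl ⟨some i, some X, rfl, rfl, update_par_of U hp, hx, hx'⟩
  · exact Or.inr ⟨a, rfl, rfl, hx, hx'⟩

private theorem update_str_child (U : C.Upd Z p η) {ξ : ℂ} (h : ξ ∈ Semi) :
    (C.next U).Str (.inl none) ξ (.inl (some Z)) (p + U.Mc ξ) :=
  Or.inl ⟨none, some Z, rfl, rfl, rfl, h, rfl⟩

private theorem update_semi_not {ξ : ℂ} (h : ξ ∈ Semi) : ξ ∉ oHalf := fun h' => by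
  have h1 : ‖ξ‖ = 1 := h.1
  have h2 : ‖ξ‖ < 1 := h'.1
  linarith

private theorem update_one_semi : (1 : ℂ) ∈ Semi := ⟨by simp, by simp⟩

/-- An intersection of the child with an old point is a good double point. -/
private theorem update_good_child (hP : C.Prep Z p η) (U : C.Upd Z p η) {ξ x : ℂ}
    {t : C.I ⊕ B.R} (hξ : ξ ∈ Half) (ht : C.Old Z p η t x) (he : U.Fc (ξ, 0) = C.sh t x) :
    (C.next U).Good (.inl none) ξ (update_emb C t) x := by
  obtain ⟨h1, h2, h3, h4, -⟩ := U.onOld ξ hξ t x ht he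
  refine ⟨?_, h1, ?_, ?_, ?_, ?_⟩
  · rcases t with i | a
    · intro h
      exact Option.some_ne_none i (Sum.inl.inj h).symm
    · intro h
      exact Sum.inl_ne_inr h
  · rw [update_sodom]
    exact h2
  · rw [update_sh_old hP U ht]
    exact he
  · intro y
    rw [update_fderiv_old hP U ht]
    exact h3 y
  · intro s'' x'' hx'' heq
    rcases update_cases U s'' hx'' with ⟨rfl, hh⟩ | ⟨rfl, hh⟩ | ⟨t', rfl, ht'⟩
    · left
      rw [U.inj hh hξ heq]
    · exfalso
      rw [update_sh_Z] at heq
      exact update_semi_not (U.onF ξ hξ x'' hh heq.symm).1 h1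
    · right
      rw [update_sh_old hP U ht'] at heq
      have h5 := h4 t' x'' ht' (heq.trans he)
      rw [Prod.mk.injEq] at h5
      rw [h5.1, h5.2]

/-- An old good double point between surviving points stays good. -/
private theorem update_good_old (hP : C.Prep Z p η) (U : C.Upd Z p η) {x x' : ℂ}
    {t t' : C.I ⊕ B.R} (ht : C.Old Z p η t x) (ht' : C.Old Z p η t' x')
    (h : C.Good t x t' x') : (C.next U).Good (update_emb C t) x (update_emb C t') x' := by
  obtain ⟨h1, h2, h3, h4, h5, h6⟩ := h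
  refine ⟨fun he => h1 (update_emb_inj he), ?_, ?_, ?_, ?_, ?_⟩
  · rw [update_sodom]
    exact h2
  · rw [update_sodom]
    exact h3
  · rw [update_sh_old hP U ht, update_sh_old hP U ht']
    exact h4
  · intro y
    rw [update_fderiv_old hP U ht, update_fderiv_old hP U ht']
    exact h5 y
  · intro s'' x'' hx'' heq
    rw [update_sh_old hP U ht] at heq
    rcases update_cases U s'' hx'' with ⟨rfl, hh⟩ | ⟨rfl, hh⟩ | ⟨t'', rfl, ht''⟩
    · exfalso
      obtain ⟨-, -, -, h7, -⟩ := U.onOld x'' hh t x ht heq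
      have h8 := h7 t' x' ht' h4.symm
      rw [Prod.mk.injEq] at h8
      exact h1 h8.1.symm
    · exfalso
      rw [update_sh_Z] at heq
      exact U.finger.old x'' hh t x ht heq
    · rw [update_sh_old hP U ht''] at heq
      rcases h6 t'' x'' ht''.1 heq with h7 | h7
      · left
        rw [Prod.mk.injEq] at h7
        rw [h7.1, h7.2]
      · right
        rw [Prod.mk.injEq] at h7
        rw [h7.1, h7.2]

/-- Classification of the new good double points. -/
private theorem update_good_cases (hC : C.Valid) (hP : C.Prep Z p η) (U : C.Upd Z p η)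
    {s s' : (C.next U).I ⊕ B.R} {x x' : ℂ} (h : (C.next U).Good s x s' x') :
    (∃ t', s = .inl none ∧ s' = update_emb C t' ∧ x ∈ Half ∧ C.Old Z p η t' x' ∧
      U.Fc (x, 0) = C.sh t' x') ∨
    (∃ t, s = update_emb C t ∧ s' = .inl none ∧ x' ∈ Half ∧ C.Old Z p η t x ∧
      U.Fc (x', 0) = C.sh t x) ∨
    ∃ t t', s = update_emb C t ∧ s' = update_emb C t' ∧ C.Old Z p η t x ∧ C.Old Z p η t' x' ∧
      C.Good t x t' x' := by
  obtain ⟨h1, h2, h3, h4, -, -⟩ := h
  rcases update_cases U s (sodom_subset s h2) with ⟨rfl, hh⟩ | ⟨rfl, hh⟩ | ⟨t, rfl, ht⟩ <;>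
    rcases update_cases U s' (sodom_subset s' h3) with ⟨rfl, hh'⟩ | ⟨rfl, hh'⟩ | ⟨t', rfl, ht'⟩
  · exact absurd rfl h1
  · exfalso
    rw [update_sh_Z] at h4
    exact update_semi_not (U.onF x hh x' hh' h4).1 h2
  · rw [update_sh_old hP U ht'] at h4
    exact Or.inl ⟨t', rfl, rfl, hh, ht', h4⟩
  · exfalso
    rw [update_sh_Z] at h4
    exact update_semi_not (U.onF x' hh' x hh h4.symm).1 h3
  · exact absurd rfl h1
  · exfalso
    rw [update_sh_Z, update_sh_old hP U ht'] at h4
    exact U.finger.old x hh t' x' ht' h4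
  · rw [update_sh_old hP U ht] at h4
    exact Or.inr (Or.inl ⟨t, rfl, rfl, hh', ht, h4.symm⟩)
  · exfalso
    rw [update_sh_Z, update_sh_old hP U ht] at h4
    exact U.finger.old x' hh' t x ht h4.symm
  · rw [update_sh_old hP U ht, update_sh_old hP U ht'] at h4
    rw [update_sodom] at h2 h3
    refine Or.inr (Or.inr ⟨t, t', rfl, rfl, ht, ht', ?_⟩)
    have hne : (t, x) ≠ (t', x') := fun he => h1 (by rw [(Prod.mk.inj he).1])
    rcases hC.gen t x t' x' ht.1 ht'.1 hne h4 with h5 | h5 | h5
    · exact absurd h2 (hC.not_str_of_mem h5)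
    · exact absurd h3 (hC.not_str_of_mem h5)
    · exact h5

private theorem update_Tr_none (U : C.Upd Z p η) : (C.next U).Tr none = ∅ := by
  ext x
  simp only [Set.mem_empty_iff_false, iff_false]
  rintro ⟨c, hc, -⟩
  rcases c with _ | c
  · have := update_par_child U hc
    simp at this
  · obtain ⟨X', h, -⟩ := update_par_inr U hc
    simp at h

private theorem update_Tr_some (U : C.Upd Z p η) (j : C.I) :
    (C.next U).Tr (some j) ⊆ C.TrP Z p η j := by
  rintro x ⟨c, hc, ξ, hξ, rfl⟩
  rcases c with _ | c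
  · have h := Option.some.inj (update_par_child U hc)
    exact Or.inr ⟨h, Metric.ball_subset_closedBall (U.β_mem ξ hξ)⟩
  · obtain ⟨X', h, h'⟩ := update_par_inr U hc
    obtain rfl := Option.some.inj h
    exact Or.inl ⟨c, h', ξ, hξ, rfl⟩

private theorem update_TrX_none (U : C.Upd Z p η) :
    (C.next U).TrX (some Z) none ⊆ C.Tr Z := by
  rintro x ⟨c, hne, hc, ξ, hξ, rfl⟩
  rcases c with _ | c
  · exact absurd rfl hne
  · obtain ⟨X', h, h'⟩ := update_par_inr U hc
    obtain rfl := Option.some.inj h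
    exact ⟨c, h', ξ, hξ, rfl⟩

private theorem update_TrX_some (U : C.Upd Z p η) (j c₀ : C.I) {x : ℂ}
    (hx : x ∈ (C.next U).TrX (some j) (some c₀)) :
    x ∈ C.TrX j c₀ ∨ (j = Z ∧ x ∈ Metric.closedBall p η) := by
  obtain ⟨c, hne, hc, ξ, hξ, rfl⟩ := hx
  rcases c with _ | c
  · have h := Option.some.inj (update_par_child U hc)
    exact Or.inr ⟨h, Metric.ball_subset_closedBall (U.β_mem ξ hξ)⟩
  · obtain ⟨X', h, h'⟩ := update_par_inr U hc
    obtain rfl := Option.some.inj h
    exact Or.inl ⟨c, fun he => hne (by rw [he]), h', ξ, hξ, rfl⟩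

private theorem update_gen (hC : C.Valid) (hP : C.Prep Z p η) (U : C.Upd Z p η)
    (s : (C.next U).I ⊕ B.R) (x : ℂ) (s' : (C.next U).I ⊕ B.R) (x' : ℂ)
    (hx : x ∈ (C.next U).sdom s) (hx' : x' ∈ (C.next U).sdom s') (hne : (s, x) ≠ (s', x'))
    (he : (C.next U).sh s x = (C.next U).sh s' x') :
    (C.next U).Str s x s' x' ∨ (C.next U).Str s' x' s x ∨ (C.next U).Good s x s' x' := by
  rcases update_cases U s hx with ⟨rfl, hh⟩ | ⟨rfl, hh⟩ | ⟨t, rfl, ht⟩ <;>
    rcases update_cases U s' hx' with ⟨rfl, hh'⟩ | ⟨rfl, hh'⟩ | ⟨t', rfl, ht'⟩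
  · exact absurd (by rw [U.inj hh hh' he]) hne
  · rw [update_sh_Z] at he
    obtain ⟨h1, rfl⟩ := U.onF x hh x' hh' he
    exact Or.inl (update_str_child U h1)
  · rw [update_sh_old hP U ht'] at he
    exact Or.inr (Or.inr (update_good_child hP U hh ht' he))
  · rw [update_sh_Z] at he
    obtain ⟨h1, rfl⟩ := U.onF x' hh' x hh he.symm
    exact Or.inr (Or.inl (update_str_child U h1))
  · rw [update_sh_Z] at he
    exact absurd (by rw [U.finger.inj hh hh' he]) hne
  · exfalso
    rw [update_sh_Z, update_sh_old hP U ht'] at he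
    exact U.finger.old x hh t' x' ht' he
  · rw [update_sh_old hP U ht] at he
    exact Or.inr (Or.inr (update_good_child hP U hh' ht he.symm).symm)
  · exfalso
    rw [update_sh_Z, update_sh_old hP U ht] at he
    exact U.finger.old x' hh' t x ht he.symm
  · rw [update_sh_old hP U ht, update_sh_old hP U ht'] at he
    have hne' : (t, x) ≠ (t', x') := fun h => hne (by rw [(Prod.mk.inj h).1, (Prod.mk.inj h).2])
    rcases hC.gen t x t' x' ht.1 ht'.1 hne' he with h5 | h5 | h5
    · exact Or.inl (update_str U h5)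
    · exact Or.inr (Or.inl (update_str U h5))
    · exact Or.inr (Or.inr (update_good_old hP U ht ht' h5))

private theorem update_fin (hC : C.Valid) (hP : C.Prep Z p η) (U : C.Upd Z p η) :
    {q : (((C.next U).I ⊕ B.R) × ℂ) × (((C.next U).I ⊕ B.R) × ℂ) |
      (C.next U).Good q.1.1 q.1.2 q.2.1 q.2.2}.Finite := by
  let f₁ : ℂ × ((C.I ⊕ B.R) × ℂ) → (((C.next U).I ⊕ B.R) × ℂ) × (((C.next U).I ⊕ B.R) × ℂ) :=
    fun q => ((.inl none, q.1), (update_emb C q.2.1, q.2.2))
  let f₂ : ℂ × ((C.I ⊕ B.R) × ℂ) → (((C.next U).I ⊕ B.R) × ℂ) × (((C.next U).I ⊕ B.R) × ℂ) :=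
    fun q => ((update_emb C q.2.1, q.2.2), (.inl none, q.1))
  let f₃ : ((C.I ⊕ B.R) × ℂ) × ((C.I ⊕ B.R) × ℂ) →
      (((C.next U).I ⊕ B.R) × ℂ) × (((C.next U).I ⊕ B.R) × ℂ) :=
    fun q => ((update_emb C q.1.1, q.1.2), (update_emb C q.2.1, q.2.2))
  refine (((U.finOld.image f₁).union (U.finOld.image f₂)).union (hC.fin.image f₃)).subset ?_
  rintro ⟨⟨s, x⟩, ⟨s', x'⟩⟩ h
  rcases update_good_cases hC hP U h with ⟨t', h1, h2, h3, h4, h5⟩ | ⟨t, h1, h2, h3, h4, h5⟩ |
    ⟨t, t', h1, h2, h3, h4, h5⟩
  · dsimp only at h1 h2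
    subst h1 h2
    exact Or.inl (Or.inl ⟨(x, (t', x')), ⟨h3, h4, h5⟩, rfl⟩)
  · dsimp only at h1 h2
    subst h1 h2
    exact Or.inl (Or.inr ⟨(x', (t, x)), ⟨h3, h4, h5⟩, rfl⟩)
  · dsimp only at h1 h2
    subst h1 h2
    exact Or.inr ⟨((t, x), (t', x')), h5, rfl⟩

private theorem update_emb_some {t : C.I ⊕ B.R} {j : C.I}
    (h : (Sum.inl (some j) : Option C.I ⊕ B.R) = update_emb C t) : t = .inl j :=
  (update_emb_inj (s := .inl j) h).symm

private theorem update_acc (hC : C.Valid) (hP : C.Prep Z p η) (U : C.Upd Z p η)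
    (i : (C.next U).I) (x : ℂ) (s' : (C.next U).I ⊕ B.R) (x' : ℂ)
    (h : (C.next U).Good (.inl i) x s' x') : Acc x ((C.next U).Tr i) ((C.next U).d i) := by
  rcases i with _ | j
  · rw [update_Tr_none]
    exact Acc.empty h.2.1 (show |(0 : ℝ)| < 1 by simp)
  · show Acc x ((C.next U).Tr (some j)) (C.d j)
    refine Acc.mono ?_ (update_Tr_some U j)
    rcases update_good_cases hC hP U h with ⟨t', h1, -⟩ | ⟨t, h1, h2, h3, h4, h5⟩ |
      ⟨t, t', h1, h2, h3, h4, h5⟩
    · simp at h1
    · obtain rfl := update_emb_some h1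
      exact (U.onOld x' h3 _ x h4 h5).2.2.2.2 j rfl
    · obtain rfl := update_emb_some h1
      by_cases hj : j = Z
      · subst hj
        have hx : x ≠ p := fun he => h3.2 ⟨rfl, he ▸ Metric.mem_ball_self hP.η_pos⟩
        refine Acc.mono (hP.acc x t' x' h5 hx) ?_
        rintro y (hy | hy)
        · exact Or.inl hy
        · exact Or.inr hy.2
      · refine Acc.mono (hC.acc j x t' x' h5) ?_
        rintro y (hy | hy)
        · exact hy
        · exact absurd hy.1 hj

private theorem update_accE (hC : C.Valid) (hP : C.Prep Z p η) (U : C.Upd Z p η)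
    (c X : (C.next U).I) (h : (C.next U).par c = .inr X) :
    Acc ((C.next U).β c 1) ((C.next U).TrX X c) ((C.next U).d X) := by
  rcases c with _ | c
  · obtain rfl := update_par_child U h
    exact Acc.mono (hP.accB _ (Metric.ball_subset_closedBall (U.β_mem 1 update_one_semi)))
      (update_TrX_none U)
  · obtain ⟨X', rfl, h'⟩ := update_par_inr U h
    show Acc (C.β c 1) _ (C.d X')
    by_cases hX : X' = Z
    · subst hX
      refine Acc.mono (hP.accE c h') fun y hy => ?_
      rcases update_TrX_some U X' c hy with hy | hy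
      · exact Or.inl hy
      · exact Or.inr hy.2
    · refine Acc.mono (hC.accE c X' h') fun y hy => ?_
      rcases update_TrX_some U X' c hy with hy | hy
      · exact hy
      · exact absurd hy.1 hX

private theorem update_top (hC : C.Valid) (hP : C.Prep Z p η) (U : C.Upd Z p η)
    (i X : (C.next U).I) (h : (C.next U).par i = .inr X) (ξ₀ : ℂ) (hξ : ξ₀ ∈ Semi) :
    ∀ᶠ q : ℂ × ℂ in 𝓝 (ξ₀, 0), ‖q.1‖ = 1 →
      (C.next U).F i q = (C.next U).F X ((C.next U).β i ((1 + q.2.im) • q.1), (q.2.re : ℂ)) := by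
  rcases i with _ | i
  · obtain rfl := update_par_child U h
    rw [update_F_Z]
    exact U.top ξ₀ hξ
  · obtain ⟨X', rfl, h'⟩ := update_par_inr U h
    have hc : Continuous fun q : ℂ × ℂ => C.β i ((1 + q.2.im) • q.1) := by
      unfold Config.β
      fun_prop
    have hev : ∀ᶠ q : ℂ × ℂ in 𝓝 (ξ₀, 0),
        X' = Z → C.β i ((1 + q.2.im) • q.1) ∉ Metric.closedBall p η := by
      by_cases hX : X' = Z
      · subst hX
        have h0 : C.β i ξ₀ ∉ Metric.closedBall p η := fun hb =>
          Set.disjoint_left.1 hP.disj hb ⟨i, h', ξ₀, hξ, rfl⟩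
        have ho : IsOpen {q : ℂ × ℂ | C.β i ((1 + q.2.im) • q.1) ∉ Metric.closedBall p η} :=
          Metric.isClosed_closedBall.isOpen_compl.preimage hc
        have hm : ((ξ₀, 0) : ℂ × ℂ) ∈
            {q : ℂ × ℂ | C.β i ((1 + q.2.im) • q.1) ∉ Metric.closedBall p η} := by
          simpa using h0
        filter_upwards [ho.mem_nhds hm] with q hq _ using hq
      · exact Filter.Eventually.of_forall fun q hq => absurd hq hX
    filter_upwards [hC.top i X' h' ξ₀ hξ, hev] with q hq hq' hn
    have e1 : (C.next U).F (some i) q = C.F i q := by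
      refine update_F_out' hP U i (ξ := q.1) (fun hb => ?_) q.2
      have h2 : ‖q.1‖ < 1 := (hP.sub (Metric.ball_subset_closedBall hb.2)).1
      linarith
    rw [e1, update_β_some, update_F_out' hP U X' (fun hb =>
      hq' hb.1 (Metric.ball_subset_closedBall hb.2))]
    exact hq hn

end Helpers

theorem Valid.next_valid (hC : C.Valid) {Z : C.I} {p : ℂ} {η : ℝ} (hP : C.Prep Z p η)
    (U : C.Upd Z p η) : (C.next U).Valid where
  finI := by
    have := hC.finI
    exact inferInstanceAs (Finite (Option C.I))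
  par_rt := fun a => by
    show (C.par (C.rt a)).map id some = _
    rw [hC.par_rt]
    rfl
  rt_par := by
    rintro (_ | i) a h
    · rw [update_par_none] at h
      simp at h
    · rw [update_par_some] at h
      show some i = some (C.rt a)
      rcases hq : C.par i with b | X
      · rw [hq] at h
        obtain rfl : b = a := Sum.inl.inj h
        rw [hC.rt_par i b hq]
      · rw [hq] at h
        simp at h
  lo_rt := hC.lo_rt
  d_rt := hC.d_rt
  ord_rt := hC.ord_rt
  ord_child := by
    rintro (_ | i) X h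
    · obtain rfl := update_par_child U h
      rfl
    · obtain ⟨X', rfl, h'⟩ := update_par_inr U h
      exact hC.ord_child i X' h'
  anc_rt := hC.anc_rt
  anc_child := by
    rintro (_ | i) X h
    · obtain rfl := update_par_child U h
      rfl
    · obtain ⟨X', rfl, h'⟩ := update_par_inr U h
      exact hC.anc_child i X' h'
  d_mem := by
    rintro (_ | i)
    · show |(0 : ℝ)| < 1
      simp
    · exact hC.d_mem i
  smooth := by
    rintro (_ | i)
    · exact U.smooth
    · by_cases hi : i = Z
      · subst hi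
        rw [update_F_Z]
        exact U.finger.smooth
      · rw [update_F_ne U hi]
        exact hC.smooth i
  bij := by
    rintro (_ | i)
    · exact U.bij
    · by_cases hi : i = Z
      · subst hi
        rw [update_F_Z]
        exact U.finger.bij
      · rw [update_F_ne U hi]
        exact hC.bij i
  α_smooth := by
    rintro (_ | i)
    · exact U.α_smooth
    · exact hC.α_smooth i
  α_mem := by
    rintro (_ | i)
    · exact U.α_mem
    · exact hC.α_mem i
  bot := by
    rintro (_ | i) x₀ hx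
    · exact U.bot x₀ hx
    · filter_upwards [hC.bot i x₀ hx] with q hq
      rw [update_F_out' hP U i (fun hb => update_not_ball hP (fun h => by
        have h2 : 0 < ((q.1 : ℂ)).im := h.2
        simp at h2) hb.2)]
      exact hq
  top := update_top hC hP U
  β_mem := by
    rintro (_ | i) X h ξ hξ
    · exact hP.sub (Metric.ball_subset_closedBall (U.β_mem ξ hξ))
    · obtain ⟨X', rfl, h'⟩ := update_par_inr U h
      exact hC.β_mem i X' h' ξ hξ
  M_one := by
    rintro (_ | i) X h
    · exact U.M_one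
    · obtain ⟨X', rfl, h'⟩ := update_par_inr U h
      exact hC.M_one i X' h'
  M_I := by
    rintro (_ | i) X h
    · exact U.M_I
    · obtain ⟨X', rfl, h'⟩ := update_par_inr U h
      exact hC.M_I i X' h'
  root_eq := fun a => by
    obtain ⟨K, h1, h2, h3⟩ := hC.root_eq a
    refine ⟨K ∪ Metric.closedBall p η, h1.union (isCompact_closedBall p η),
      Set.union_subset h2 hP.sub, fun ξ hξ w => ?_⟩
    show (C.next U).F (some (C.rt a)) (ξ, w) = _
    rw [update_F_out' hP U _ (fun hb => hξ (Or.inr (Metric.ball_subset_closedBall hb.2)))]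
    exact h3 ξ (fun hK => hξ (Or.inl hK)) w
  pos := by
    rintro (_ | i) ξ hξ
    · exact U.pos ξ hξ
    · by_cases h : i = Z ∧ ξ ∈ Metric.ball p η
      · obtain ⟨rfl, hb⟩ := h
        rw [update_F_Z]
        exact U.finger.pos ξ hb
      · rw [update_F_out' hP U i h]
        exact hC.pos i ξ hξ
  notO := by
    rintro (_ | i) ξ hξ hO
    · exact absurd hO (U.notO ξ hξ)
    · by_cases h : i = Z ∧ ξ ∈ Metric.ball p η
      · obtain ⟨rfl, hb⟩ := h
        rw [update_F_Z] at hO
        exact absurd hO (U.finger.notO ξ hb)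
      · rw [update_F_out' hP U i h] at hO
        obtain ⟨⟨a, ha⟩, h1⟩ := hC.notO i ξ hξ hO
        refine ⟨⟨a, ?_⟩, h1⟩
        rw [update_par_some, ha]
        rfl
  onD := by
    rintro (_ | i) ξ hξ j z hz he
    · exact Or.inl (U.onD ξ hξ j z hz he)
    · by_cases h : i = Z ∧ ξ ∈ Metric.ball p η
      · obtain ⟨rfl, hb⟩ := h
        rw [update_F_Z] at he
        obtain ⟨h1, h2⟩ := U.finger.onD ξ hb j z hz he
        exact Or.inr ⟨none, rfl, h1, h2⟩
      · rw [update_F_out' hP U i h] at he
        rcases hC.onD i ξ hξ j z hz he with h1 | ⟨c, h1, h2, h3⟩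
        · exact Or.inl h1
        · exact Or.inr ⟨some c, update_par_of U h1, h2, h3⟩
  gen := update_gen hC hP U
  fin := update_fin hC hP U
  acc := update_acc hC hP U
  accE := update_accE hC hP U

/-- Pending points of the new configuration not involving the child are old pending points
outside the ball. -/
theorem Valid.next_good (hC : C.Valid) {Z : C.I} {p : ℂ} {η : ℝ} (hP : C.Prep Z p η)
    (U : C.Upd Z p η) {i j : C.I} {x y : ℂ}
    (h : (C.next U).Good (.inl (some i)) x (.inl (some j)) y) :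
    C.Good (.inl i) x (.inl j) y ∧ ¬ (i = Z ∧ x ∈ Metric.ball p η) := by
  rcases update_good_cases hC hP U h with ⟨t', h1, -⟩ | ⟨t, -, h2, -⟩ |
    ⟨t, t', h1, h2, h3, -, h5⟩
  · simp at h1
  · simp at h2
  · obtain rfl := update_emb_some h1
    obtain rfl := update_emb_some h2
    exact ⟨h5, fun hb => h3.2 ⟨by rw [hb.1], hb.2⟩⟩

end Config

end Pool.Agent.Lib.MP_1d0d1b_gt
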