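import Pool.Agent.Lib.MP_1d0d1b_gt.WZone
import Pool.Agent.Lib.MP_1d0d1b_gt.Ghost

open Set Function Filter Topology
open scoped ContDiff Real

noncomputable section

namespace Pool.Agent.Lib.MP_1d0d1b_gt

theorem WBot_im (x : ℝ) : 0 ≤ (x : ℂ).im := (Complex.ofReal_im x).ge

theorem WBot_norm (x : ℝ) : ‖(x : ℂ)‖ = |x| := Complex.norm_real x

theorem WBot_uw (ty : Bool) (x : ℝ) : uw ty (x : ℂ) = 0 :=
  (uw_eq_zero_iff ty (WBot_im x)).2 (Complex.ofReal_im x)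

theorem WBot_real (a : Rt) (Xk : ℝ → ℝ) (ρe x l₁ l₂ : ℝ) : Wf a Xk ρe (x : ℂ) l₁ l₂ =
    (Φa a (Xw a Xk ρe x l₁ l₂) (3 / 10 + yw a.2 x) (hw a ρe x l₁),
      1 - cT a.2 * χh (-1 / 4 - sg a.2 * ρ1 a.2 ρe x)) := by
  rw [Wf, (bW_eventually (WBot_im x)).self_of_nhds, Tw, WBot_uw,
    step_of_le (a := 55 / 100) (by norm_num) (by norm_num)]
  simp

theorem WBot_χw (ty : Bool) (x : ℝ) : χw ty (x : ℂ) = if 0 < x then 1 else 0 := by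
  split_ifs with h
  · refine step_of_ge (by norm_num) ?_
    rcases le_total |x| (4 / 10) with h1 | h1
    · have h2 := yw_real_small ty h1
      rw [abs_of_pos ((yw_real_sign ty x).2 h)] at h2
      linarith
    · rw [yw_real_large ty h1, if_pos h]
      linarith [ramp_nonneg (84 / 10 - 10 * |x| - ρf ty)]
  · exact step_of_le (by norm_num) (not_lt.1 fun h1 => h ((yw_real_sign ty x).1 h1))

theorem WBot_circ (a : Rt) (ρe : ℝ) {x : ℝ}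
    (h : 6 / 10 ≤ ρ1 a.2 ρe x ∨ ρ1 a.2 ρe x ≤ 1 / 2 ∨ x ≤ 0) :
    circ (ϑw a ρe x * χw a.2 x) = 1 := by
  rw [WBot_χw]
  split_ifs with hx
  · rcases h with h | h | h
    · rw [ϑw, step_of_ge (by norm_num) h, ← circ_zero]
      rcases ςj_cases a.1 with e | e <;> rw [e]
      · exact (circ_eq_iff _ _).2 ⟨1, by push_cast; ring⟩
      · exact (circ_eq_iff _ _).2 ⟨-1, by push_cast; ring⟩
    · rw [ϑw, step_of_le (by norm_num) (by linarith), mul_zero, zero_mul, circ_zero]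
    · exact absurd hx (not_lt.2 h)
  · rw [mul_zero, circ_zero]

/-- The deviation of the wall coordinate. -/
def WBot_E (s ρ l : ℝ) : ℂ :=
  (((1 - νR ρ) * l : ℝ) : ℂ) +
    (νR ρ : ℂ) * (-Complex.I * ((s * ρ : ℝ) : ℂ)) * (Cay ((s * l : ℝ) : ℂ) - 1)

theorem WBot_Z (a : Rt) (ρe x l : ℝ) : Zw a ρe (x : ℂ) l = circ (ϑw a ρe x * χw a.2 x) *
    (-Complex.I * ((sg a.2 * ρ1 a.2 ρe x : ℝ) : ℂ) + WBot_E (sg a.2) (ρ1 a.2 ρe x) l) := by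
  rw [Zw, WBot_E, mul_add (circ _), WBot_χw]
  split_ifs
  · rw [mul_one, Complex.ofReal_one]
    ring
  · rw [mul_zero, circ_zero, Complex.ofReal_zero]
    ring

theorem WBot_Cay (l : ℝ) : ‖Cay (l : ℂ) - 1‖ ≤ 2 * |l| := by
  have h1 : 1 ≤ ‖Complex.I + l‖ := by simpa using Complex.abs_im_le_norm (Complex.I + l)
  have h2 : Complex.I + l ≠ 0 := norm_pos_iff.1 (one_pos.trans_le h1)
  have h3 : Cay (l : ℂ) - 1 = -(2 * l) / (Complex.I + l) := by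
    rw [Cay]
    field_simp
    ring
  rw [h3, norm_div, norm_neg, norm_mul, WBot_norm, Complex.norm_two]
  exact div_le_self (by positivity) h1

theorem WBot_abs_sg (ty : Bool) (x : ℝ) : |sg ty * x| = |x| := by
  rcases sg_cases ty with e | e <;> simp [e]

theorem WBot_norm_E (ty : Bool) {ρ : ℝ} (h0 : 0 ≤ ρ) (h1 : ρ ≤ 1) (l : ℝ) :
    ‖WBot_E (sg ty) ρ l‖ ≤ 3 * |l| := by
  have n0 : 0 ≤ νR ρ := mul_nonneg (step_nonneg _ _ _) (sub_nonneg.2 (step_le_one _ _ _))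
  have n1 : νR ρ ≤ 1 := mul_le_one₀ (step_le_one _ _ _) (sub_nonneg.2 (step_le_one _ _ _))
    (sub_le_self _ (step_nonneg _ _ _))
  have h2 := WBot_Cay (sg ty * l)
  rw [WBot_abs_sg] at h2
  refine (norm_add_le _ _).trans ?_
  rw [norm_mul, norm_mul, norm_mul, norm_neg, Complex.norm_I, WBot_norm, WBot_norm, WBot_norm,
    WBot_abs_sg, abs_mul, abs_of_nonneg n0, abs_of_nonneg h0, abs_of_nonneg (sub_nonneg.2 n1),
    one_mul]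
  have h3 : νR ρ * ρ * ‖Cay ((sg ty * l : ℝ) : ℂ) - 1‖ ≤ 1 * (2 * |l|) :=
    mul_le_mul (mul_le_one₀ n1 h0 h1) h2 (norm_nonneg _) zero_le_one
  nlinarith [abs_nonneg l]

theorem WBot_norm_sg (ty : Bool) {ρ : ℝ} (h0 : 0 ≤ ρ) :
    ‖-Complex.I * ((sg ty * ρ : ℝ) : ℂ)‖ = ρ := by
  rw [norm_mul, norm_neg, Complex.norm_I, one_mul, WBot_norm, WBot_abs_sg, abs_of_nonneg h0]

theorem WBot_χh (ty : Bool) {ρ : ℝ} (h : 35 / 100 ≤ ρ) : χh (-1 / 4 - sg ty * ρ) = 0 := by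
  rw [χh_eq_zero_iff]
  rcases sg_cases ty with e | e <;> rw [e]
  · left; linarith
  · right; linarith

theorem WBot_ρ1 (ty : Bool) (ρe : ℝ) {ξ : ℂ} (h : 4 / 10 ≤ ρ0 ξ) : ρ1 ty ρe ξ = ρ0 ξ :=
  ρ1_eq ρe (by linarith [ρab ty])

theorem WBot_inner (a : Rt) (Xk : ℝ → ℝ) (ρe : ℝ) {x : ℝ} (l₁ l₂ : ℝ) (h : 4 / 10 ≤ ρ0 x) :
    Wf a Xk ρe (x : ℂ) l₁ l₂ =
      (Φa a ((1 - νκ (ρ0 x)) * (-1 / 2 + l₁ * (circ (ϑw a ρe x * χw a.2 x)).re) +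
          νκ (ρ0 x) * S1 (Zw a ρe x l₁).re) (3 / 10 + yw a.2 x)
        ((1 - νκ (ρ0 x)) * (-1 / 2 + Hs (1 / 4 - sg a.2 * ρ0 x) +
            25 * l₁ * (circ (ϑw a ρe x * χw a.2 x)).im) +
          νκ (ρ0 x) * (-1 / 4 + (Zw a ρe x l₁).im)), 1) := by
  rw [WBot_real, Xw, hw, φw, WBot_uw, WBot_ρ1 a.2 ρe h, WBot_χh a.2 (by linarith),
    step_of_ge (ρab a.2).2.1 (by linarith [ρab a.2]),
    step_of_le (a := 4 / 10) (by norm_num) (by norm_num),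
    step_of_le (a := 2 / 10) (by norm_num) (by norm_num), circ_re, circ_im]
  simp

theorem WBot_flat (a : Rt) (Xk : ℝ → ℝ) (ρe : ℝ) {x l₁ : ℝ} (l₂ : ℝ) (h : 4 / 10 ≤ ρ0 x)
    (hc : 62 / 100 ≤ ρ0 x ∨ (x ≤ 0 ∧ l₁ = 0)) : Wf a Xk ρe (x : ℂ) l₁ l₂ =
      (Φa a ((1 - νκ (ρ0 x)) * (-1 / 2 + l₁) + νκ (ρ0 x) * S1 l₁) (3 / 10 + yw a.2 x)
        ((1 - νκ (ρ0 x)) * (-1 / 2 + Hs (1 / 4 - sg a.2 * ρ0 x)) +
          νκ (ρ0 x) * (-1 / 4 - sg a.2 * ρ0 x)), 1) := by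
  have h1 : circ (ϑw a ρe x * χw a.2 x) = 1 := WBot_circ a ρe (by
    rw [WBot_ρ1 a.2 ρe h]
    exact hc.imp (fun h => by linarith) fun h => Or.inr h.1)
  have h2 : WBot_E (sg a.2) (ρ0 x) l₁ = l₁ := by
    rcases hc with hc | hc
    · rw [WBot_E, νR, step_of_ge (a := 61 / 100) (by norm_num) hc]
      simp
    · simp [WBot_E, hc.2, Cay]
  rw [WBot_inner a Xk ρe l₁ l₂ h, WBot_Z, h1, WBot_ρ1 a.2 ρe h, h2]
  simp [sub_eq_add_neg]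

theorem WBot_round (a : Rt) (Xk : ℝ → ℝ) (ρe : ℝ) {x : ℝ} (l₁ l₂ : ℝ) (h : 4 / 10 ≤ ρ0 x)
    (hc : ρ0 x ≤ 625 / 1000) : Wf a Xk ρe (x : ℂ) l₁ l₂ =
      (Φa a (S1 (Zw a ρe x l₁).re) (3 / 10 + yw a.2 x) (-1 / 4 + (Zw a ρe x l₁).im), 1) := by
  rw [WBot_inner a Xk ρe l₁ l₂ h, νκ, step_of_le (by norm_num) hc]
  simp

theorem WBot_deep (a : Rt) (Xk : ℝ → ℝ) (ρe : ℝ) {x : ℝ} (l₁ l₂ : ℝ) (h : ρf a.2 ≤ ρ0 x) :
    Wf a Xk ρe (x : ℂ) l₁ l₂ = (Φa a (-1 / 2 + l₁) (3 / 10 + yw a.2 x)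
      (-1 / 2 + Hs (-sg a.2 * (9 / 10 + (ρ0 x - ρf a.2)))), 1) := by
  have h1 := (ρf_mem a.2).1
  have h2 : 1 / 4 - sg a.2 * ρ0 x = -sg a.2 * (9 / 10 + (ρ0 x - ρf a.2)) := by
    rw [ρf]
    rcases sg_cases a.2 with e | e <;> rw [e] <;> ring
  rw [WBot_flat a Xk ρe l₂ (by linarith) (Or.inl (by linarith)), νκ,
    step_of_ge (by norm_num) (by linarith), h2]
  simp

theorem WBot_σ (ty : Bool) {ρ : ℝ} (h0 : -3 / 10 ≤ ρ) (h : ρ ≤ ρf ty) :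
    |1 / 4 - sg ty * ρ| ≤ 9 / 10 := by
  rw [ρf] at h
  rw [abs_le]
  rcases sg_cases ty with e | e <;> rw [e] at h ⊢ <;> constructor <;> linarith

theorem WBot_sat (ty : Bool) {x : ℝ} (h : ρ0 (x : ℂ) ≤ ρf ty) :
    ρ0 (x : ℂ) = 84 / 10 - 10 * |x| ∧ yw ty (x : ℂ) = if 0 < x then 1 / 100 else -1 / 100 := by
  have h1 := (ρf_mem ty).2
  have h2 := norm_of_ρ0 (ξ := x) (by linarith)
  rw [WBot_norm] at h2
  refine ⟨h2, ?_⟩
  rw [yw_real_large ty (by linarith), ramp_of_nonpos (by linarith)]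
  split_ifs <;> norm_num

theorem WBot_wall (a : Rt) {x X h τ : ℝ} (hx : ρ0 (x : ℂ) ≤ ρf a.2) (h1 : -67 / 100 ≤ X)
    (h2 : X ≤ 28 / 100) (h3 : x ≤ 0 → X ≤ -3 / 100) (hσ : |h + 1 / 2| ≤ 9 / 10)
    (hτ : τ = 1 - cT a.2 * (χX X * χh h)) :
    ((Φa a X (3 / 10 + yw a.2 x) h, τ) : E4) ∈ fD a.1 '' oDisc := by
  have e : h = -1 / 2 + (h + 1 / 2) := by ring
  rw [(WBot_sat a.2 hx).2, hτ, e]
  split_ifs with h4
  · rw [show (3 / 10 + 1 / 100 : ℝ) = 31 / 100 by norm_num]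
    exact mem_wallP a ⟨h1, h2⟩ hσ
  · rw [show (3 / 10 + -1 / 100 : ℝ) = 29 / 100 by norm_num]
    exact mem_wallM a ⟨h1, h3 (not_lt.1 h4)⟩ hσ

theorem WBot_conv {s A B u v : ℝ} (h0 : 0 ≤ s) (h1 : s ≤ 1) (hu : u ∈ Icc A B)
    (hv : v ∈ Icc A B) : s * u + (1 - s) * v ∈ Icc A B := by
  constructor <;> nlinarith [hu.1, hu.2, hv.1, hv.2]

theorem WBot_neg_sg (ty : Bool) : -sg ty = 1 ∨ -sg ty = -1 := by
  rcases sg_cases ty with e | e <;> simp [e]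

theorem WBot_abs_yw (ty : Bool) (x : ℝ) : |yw ty (x : ℂ)| ≤ 1 / 2 := by
  have := yw_mem ty (WBot_im x)
  exact abs_le.2 ⟨by linarith [this.1], this.2.le⟩

theorem WBot_ρ0_ge {ξ : ℂ} {r : ℝ} (h : ‖ξ‖ ≤ r) (hr : 21 / 100 ≤ r) :
    84 / 10 - 10 * r ≤ ρ0 ξ := by
  have h1 : ‖(r : ℂ)‖ = r := by rw [WBot_norm, abs_of_nonneg (by linarith)]
  have h2 := ρ0_anti (ξ := ξ) (ξ' := r) (by rwa [h1])
  rwa [ρ0_eq (by rwa [h1]), h1] at h2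

theorem WBot_ρ1_ge (ty : Bool) (k : Fin 4) {ξ : ℂ} (h0 : 21 / 100 ≤ ‖ξ‖) (h1 : ‖ξ‖ ≤ 2) :
    -3 / 10 ≤ ρ1 ty (ρV ty k) ξ := by
  have h2 : -1 / 4 ≤ ρV ty k := by
    rw [ρV]
    split_ifs <;> norm_num
  rw [ρ1, nn, nr_eq h0]
  rcases le_total (ρ0 ξ) (ρb ty - 2 / 100) with h | h
  · rw [step_of_le (by linarith) h]
    linarith
  · nlinarith [step_nonneg (ρb ty - 2 / 100) (ρb ty) (ρ0 ξ),
      step_le_one (ρb ty - 2 / 100) (ρb ty) (ρ0 ξ), (ρab ty).1]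

/-- The lower arcs lie on the discs. -/
theorem WV_bot : ∃ δ > (0 : ℝ), ∀ (a : Rt) (k : Fin 4) (x l₁ l₂ : ℝ), |x| < 1 + δ → |l₁| < δ →
    |l₂| < δ → Wf a (XV a.2 k) (ρV a.2 k) (x : ℂ) l₁ l₂ ∈ fD a.1 '' oDisc := by
  obtain ⟨ε, hε, hS⟩ := Metric.eventually_nhds_iff.1 (S1_contDiff.continuous.continuousAt
    (x := 0) (Icc_mem_nhds (a := -58 / 100) (b := -5 / 100) (by rw [S1_zero]; norm_num)
      (by rw [S1_zero]; norm_num)))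
  have hS' : ∀ u : ℝ, |u| < ε → S1 u ∈ Icc (-58 / 100 : ℝ) (-5 / 100) := fun u hu =>
    hS (by rwa [Real.dist_eq, sub_zero])
  refine ⟨min (ε / 3) (5 / 1000), by positivity, fun a k x l₁ l₂ hx h1 h2 => ?_⟩
  have d1 := min_le_left (ε / 3) (5 / 1000)
  have d2 := min_le_right (ε / 3) (5 / 1000)
  have f1 := ρf_mem a.2
  have a1 := abs_lt.1 h1
  have a2 := abs_lt.1 h2
  have s1 := hS' l₁ (by linarith)
  rcases le_total (ρf a.2) (ρ0 x) with hf | hf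
  · rw [WBot_deep a _ _ _ _ hf]
    have hX : -1 / 2 + l₁ ∈ Icc (-52 / 100 : ℝ) (-48 / 100) := ⟨by linarith, by linarith⟩
    rcases le_total |x| (4 / 10) with h4 | h4
    · have h5 := WBot_ρ0_ge (ξ := x) (r := 4 / 10) (by rwa [WBot_norm]) (by norm_num)
      have h6 : Hs (-sg a.2 * (9 / 10 + (ρ0 x - ρf a.2))) = -sg a.2 := by
        rcases WBot_neg_sg a.2 with e | e <;> rw [e]
        · exact Hs_of_ge (by linarith [f1.2])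
        · exact Hs_of_le (by linarith [f1.2])
      rw [h6]
      exact mem_sheet_slot a hX (yw_real_small a.2 h4) (WBot_abs_yw a.2 x) (WBot_neg_sg a.2)
    · have h5 : ρ0 (x : ℂ) = 84 / 10 - 10 * |x| := by
        rw [ρ0_eq (by rw [WBot_norm]; linarith), WBot_norm]
      rw [yw_real_large a.2 h4, ← h5]
      exact mem_fold a hX ⟨by linarith, by linarith [f1.1]⟩ (by split_ifs <;> simp)
        (WBot_neg_sg a.2)
  obtain ⟨r1, r2⟩ := WBot_sat a.2 hf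
  rcases le_total (799 / 1000) |x| with h8 | h8
  · rw [Wf_outer a _ (ρV_le a.2 k) (by rwa [WBot_norm]), WBot_uw, mul_zero, add_zero]
    have h3 := XV_mem a.2 k (y' := yw a.2 x) (by rw [r2]; split_ifs <;> norm_num [abs_of_pos])
    have h4 := WBot_conv (step_nonneg (ρb a.2) (ρa a.2) (ρ0 x)) (step_le_one _ _ _) s1
      (v := XV a.2 k (yw a.2 x) + l₂) ⟨by linarith [h3.1], by linarith [h3.2]⟩
    refine WBot_wall a hf (by linarith [h4.1]) (by linarith [h4.2]) (fun _ => by linarith [h4.2])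
      ?_ (by rw [χX_eq_one h4, one_mul])
    have h5 := ρ1_lt_of_lt (ρV_le a.2 k) (ξ := x) (c := 42 / 100) (by linarith [ρab a.2])
      (by linarith)
    have h6 := WBot_σ a.2 (WBot_ρ1_ge a.2 k (ξ := x) (by rw [WBot_norm]; linarith)
      (by rw [WBot_norm]; linarith)) (by linarith [f1.1])
    rwa [show -1 / 4 - sg a.2 * ρ1 a.2 (ρV a.2 k) x + 1 / 2 =
      1 / 4 - sg a.2 * ρ1 a.2 (ρV a.2 k) x by ring]
  rcases le_total (62 / 100) (ρ0 x) with h6 | h6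
  · have h3 := WBot_σ a.2 (ρ := ρ0 x) (by linarith) hf
    have n0 : 0 ≤ νκ (ρ0 x) := sub_nonneg.2 (step_le_one _ _ _)
    have n1 : νκ (ρ0 x) ≤ 1 := sub_le_self _ (step_nonneg _ _ _)
    have h4 := WBot_conv n0 n1 s1 (v := -1 / 2 + l₁) ⟨by linarith, by linarith⟩
    rw [WBot_flat a _ _ _ (by linarith) (Or.inl h6), Hs_of_abs_le h3,
      show (1 - νκ (ρ0 x)) * (-1 / 2 + (1 / 4 - sg a.2 * ρ0 x)) +
        νκ (ρ0 x) * (-1 / 4 - sg a.2 * ρ0 x) = -1 / 4 - sg a.2 * ρ0 x by ring]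
    refine WBot_wall a hf (by linarith [h4.1]) (by linarith [h4.2]) (fun _ => by linarith [h4.2])
      ?_ (by rw [WBot_χh a.2 (by linarith), mul_zero, mul_zero, sub_zero])
    rwa [show -1 / 4 - sg a.2 * ρ0 x + 1 / 2 = 1 / 4 - sg a.2 * ρ0 x by ring]
  · have h3 : 4 / 10 ≤ ρ0 x := by linarith
    have h4 := WBot_norm_E a.2 (ρ := ρ0 x) (by linarith) (by linarith) l₁
    have h5 := WBot_norm_sg a.2 (ρ := ρ0 x) (by linarith)
    have h7 := WBot_Z a (ρV a.2 k) x l₁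
    rw [WBot_ρ1 a.2 _ h3] at h7
    have h9 := congrArg norm h7
    rw [norm_mul, norm_circ, one_mul] at h9
    have b1 := norm_add_le (-Complex.I * ((sg a.2 * ρ0 x : ℝ) : ℂ)) (WBot_E (sg a.2) (ρ0 x) l₁)
    have b2 := norm_le_add_norm_add (-Complex.I * ((sg a.2 * ρ0 x : ℝ) : ℂ))
      (WBot_E (sg a.2) (ρ0 x) l₁)
    have b3 := abs_le.1 (Complex.abs_im_le_norm (Zw a (ρV a.2 k) x l₁))
    have b4 := S1_mem (Zw a (ρV a.2 k) x l₁).re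
    rw [WBot_round a _ _ _ _ h3 (by linarith)]
    refine WBot_wall a hf (by linarith [b4.1]) (by linarith [b4.2]) (fun h0 => ?_)
      (abs_le.2 ⟨by linarith, by linarith⟩)
      (by rw [low_zero (by linarith), mul_zero, sub_zero])
    have b5 : (Zw a (ρV a.2 k) x l₁).re = (WBot_E (sg a.2) (ρ0 x) l₁).re := by
      rw [h7, WBot_circ a _ (Or.inr (Or.inr h0))]
      simp
    have b6 := Complex.abs_re_le_norm (WBot_E (sg a.2) (ρ0 x) l₁)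
    rw [b5]
    linarith [(hS' (WBot_E (sg a.2) (ρ0 x) l₁).re (by linarith)).2]

theorem WBot_core (a : Rt) (x l : ℝ) :
    Fcore a ((x : ℂ), l) = Wf a (fun _ => -1 / 2) 0 ((4 / 5 * x : ℝ) : ℂ) l 0 := by
  rw [Fcore]
  push_cast
  rfl

theorem Fcore_bot (a : Rt) {x₀ : ℝ} (h : |x₀| ≤ 1) : ∀ᶠ q : ℝ × ℝ in 𝓝 (x₀, 0),
    Fcore a ((q.1 : ℂ), q.2) ∈ fD a.1 '' oDisc := by
  obtain ⟨δ, hδ, H⟩ := WV_bot
  have h1 : ∀ᶠ q : ℝ × ℝ in 𝓝 (x₀, 0), |q.1| < 1003 / 1000 :=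
    (continuous_fst.abs.continuousAt (x := (x₀, (0 : ℝ)))).eventually_lt_const
      (h.trans_lt (by norm_num))
  have h2 : ∀ᶠ q : ℝ × ℝ in 𝓝 (x₀, 0), |q.2| < δ :=
    (continuous_snd.abs.continuousAt (x := (x₀, (0 : ℝ)))).eventually_lt_const (by simpa using hδ)
  filter_upwards [h1, h2] with q q1 q2
  have h3 : |4 / 5 * q.1| = 4 / 5 * |q.1| := by rw [abs_mul, abs_of_pos (by norm_num)]
  rw [WBot_core, Wf_congr a _ (XV a.2 0) 0 (ρV a.2 0) (by rw [WBot_norm]; linarith) q.2 0 0]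
  exact H a 0 _ _ _ (by linarith) q2 (by simpa using hδ)

/-- The lower arc of the core in slot coordinates. -/
theorem Fcore_diam (a : Rt) {x : ℝ} (hx : |x| ≤ 1) : ∃ X y' h : ℝ,
    Fcore a ((x : ℂ), 0) = (Φa a X (3 / 10 + y') h, 1) ∧
    y' = yw a.2 ((4 / 5 : ℂ) * x) ∧ |y'| ≤ 1 / 2 ∧
    ((y' = 1 / 100 ∧ ∃ Z : ℂ, X = S1 Z.re ∧ h = -1 / 4 + Z.im ∧ ‖Z‖ = 84 / 10 - 8 * x ∧
        ‖Z‖ ≤ 64 / 100 ∧ (‖Z‖ ≤ 1 / 2 → Z = -Complex.I * ((sg a.2 * ‖Z‖ : ℝ) : ℂ))) ∨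
      (X = -1 / 2 ∧ |y'| = 1 / 100 ∧ h = -1 / 4 - sg a.2 * (84 / 10 - 8 * |x|) ∧
        84 / 10 - 8 * |x| ≤ ρf a.2 ∧ (y' = 1 / 100 → 62 / 100 ≤ 84 / 10 - 8 * |x|)) ∨
      (X = -1 / 2 ∧ 1 / 100 < |y'| ∧ 9 / 10 < -sg a.2 * (h + 1 / 2) ∧ |h + 1 / 2| ≤ 1)) := by
  have e0 : (4 / 5 : ℂ) * x = ((4 / 5 * x : ℝ) : ℂ) := by push_cast; rfl
  have e1 : |4 / 5 * x| = 4 / 5 * |x| := by rw [abs_mul, abs_of_pos (by norm_num)]
  rw [WBot_core, e0]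
  set t : ℝ := 4 / 5 * x with ht
  have h4 : 4 / 10 ≤ ρ0 t := by
    linarith [WBot_ρ0_ge (ξ := t) (r := 8 / 10) (by rw [WBot_norm]; linarith) (by norm_num)]
  rcases lt_or_ge (ρf a.2) (ρ0 t) with hf | hf
  · refine ⟨_, _, _, WBot_deep a _ _ _ _ hf.le, rfl, WBot_abs_yw a.2 t,
      Or.inr (Or.inr ⟨add_zero _, ?_, ?_, ?_⟩)⟩
    · rcases le_total |t| (4 / 10) with h | h
      · linarith [yw_real_small a.2 h]
      · have h5 : ρ0 (t : ℂ) = 84 / 10 - 10 * |t| := by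
          rw [ρ0_eq (by rw [WBot_norm]; linarith), WBot_norm]
        have h6 := ramp_pos (u := ρ0 t - ρf a.2) (by linarith)
        rw [yw_real_large a.2 h, ← h5, abs_mul, abs_of_pos (a := 1 / 100 + _) (by linarith)]
        split_ifs <;> simp <;> linarith
    · have h5 : 9 / 10 < Hs (9 / 10 + (ρ0 t - ρf a.2)) := by
        rw [← abs_of_pos (Hs_pos (by linarith)), ← not_le, abs_Hs_le_iff, abs_of_pos (by linarith)]
        linarith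
      rcases WBot_neg_sg a.2 with e | e <;> rw [e]
      · rw [one_mul, one_mul]
        linarith
      · rw [neg_one_mul (9 / 10 + _), Hs_neg]
        linarith
    · rw [show ∀ u : ℝ, -1 / 2 + u + 1 / 2 = u from fun u => by ring]
      exact abs_Hs_le _
  obtain ⟨r1, r2⟩ := WBot_sat a.2 hf
  have r3 : ρ0 (t : ℂ) = 84 / 10 - 8 * |x| := by linarith
  by_cases hc : 62 / 100 ≤ ρ0 t ∨ t ≤ 0
  · refine ⟨_, _, _, WBot_flat a _ _ _ h4 (hc.imp_right fun h => ⟨h, rfl⟩), rfl,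
      WBot_abs_yw a.2 t, Or.inr (Or.inl ⟨?_, ?_, ?_, r3 ▸ hf, fun h => ?_⟩)⟩
    · rw [S1_zero]
      ring
    · rw [r2]
      split_ifs <;> norm_num [abs_of_pos]
    · rw [Hs_of_abs_le (WBot_σ a.2 (by linarith) hf), ← r3]
      ring
    · rcases hc with hc | hc
      · linarith
      · rw [r2, if_neg (not_lt.2 hc)] at h
        norm_num at h
  · rw [not_or, not_le, not_le] at hc
    have h7 := WBot_Z a 0 t 0
    rw [WBot_ρ1 a.2 _ h4, show WBot_E (sg a.2) (ρ0 t) 0 = 0 by simp [WBot_E, Cay], add_zero] at h7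
    have h8 : ‖Zw a 0 t 0‖ = ρ0 t := by
      rw [h7, norm_mul, norm_circ, one_mul, WBot_norm_sg a.2 (by linarith)]
    refine ⟨_, _, _, WBot_round a _ _ _ _ h4 (by linarith), rfl, WBot_abs_yw a.2 t,
      Or.inl ⟨by rw [r2, if_pos hc.2], _, rfl, rfl, ?_, by linarith, fun h => ?_⟩⟩
    · rw [h8, r3, abs_of_pos (by linarith)]
    · rw [h8] at h ⊢
      rw [h7, WBot_circ a 0 (Or.inr (Or.inl (by rwa [WBot_ρ1 a.2 _ h4]))), one_mul]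

theorem Fcore_semi (a : Rt) {ξ : ℂ} (h : ‖ξ‖ = 1) : Fcore a (ξ, 0) =
    (Φa a (-1 / 2) (3 / 10 + yw a.2 ((4 / 5 : ℂ) * ξ)) (-1 / 4 - sg a.2 * (4 / 10)), 1) := by
  have h1 : ‖(4 / 5 : ℂ) * ξ‖ = 4 / 5 := by simp [h]
  have h2 : ρ0 ((4 / 5 : ℂ) * ξ) = 4 / 10 := by
    rw [ρ0_eq (by rw [h1]; norm_num), h1]
    norm_num
  rw [Fcore, Wf_congr a _ (XV a.2 0) 0 (ρV a.2 0) (by rw [h1]; norm_num) _ 0 0,
    Wf_outer a _ (ρV_le a.2 0) (by rw [h1]; norm_num), WBot_ρ1 a.2 _ h2.ge, h2,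
    WBot_χh a.2 (by norm_num), step_of_ge (ρab a.2).2.1 (by linarith [ρab a.2]),
    step_of_le (a := 4 / 10) (by linarith [(ρf_mem a.2).1]) le_rfl, S1_zero]
  simp

end Pool.Agent.Lib.MP_1d0d1b_gt
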