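import Pool.Agent.Lib.MP_1d0d1b_gt.WSmooth
import Pool.Agent.Lib.MP_1d0d1b_gt.TopA

open Set Function Filter Topology
open scoped ContDiff Real

noncomputable section

namespace Pool.Agent.Lib.MP_1d0d1b_gt

private theorem fd_curve {E F : Type*} [NormedAddCommGroup E] [NormedSpace ℝ E]
    [NormedAddCommGroup F] [NormedSpace ℝ F] {f : E → F} {x v : E} {c : ℝ → E} {t0 : ℝ} {w : F}
    (hf : DifferentiableAt ℝ f x) (hc : HasDerivAt c v t0) (h0 : c t0 = x)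
    (hw : HasDerivAt (fun t => f (c t)) w t0) : fderiv ℝ f x v = w := by
  subst h0
  exact (hf.hasFDerivAt.comp_hasDerivAt t0 hc).unique hw

private theorem ρ0_ge {ξ : ℂ} (hr : ‖ξ‖ ≤ 4 / 5) : 4 / 10 ≤ ρ0 ξ := by
  have h1 : nr ‖ξ‖ ≤ nr (4 / 5) := nr_mono hr
  rw [nr_eq (r := 4 / 5) (by norm_num)] at h1
  unfold ρ0 ρn nn
  linarith

private theorem ρ0_gt {ξ : ℂ} (hr : ‖ξ‖ < 4 / 5) : 4 / 10 < ρ0 ξ := by
  unfold ρ0 ρn nn
  rcases le_total ‖ξ‖ (21 / 100) with h | h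
  · have := nr_le h
    linarith
  · rw [nr_eq h]
    linarith

private theorem ρ1_core (ty : Bool) {ξ : ℂ} (h : 4 / 10 ≤ ρ0 ξ) : ρ1 ty 0 ξ = ρ0 ξ :=
  ρ1_eq 0 (by have := ρab ty; linarith [this.1, this.2.1, this.2.2])

private theorem stepab_core (ty : Bool) {ξ : ℂ} (h : 4 / 10 ≤ ρ0 ξ) :
    step (ρb ty) (ρa ty) (ρ0 ξ) = 1 :=
  step_of_ge (ρab ty).2.1 (by linarith [(ρab ty).2.2])

private theorem νκ_mem (ρ : ℝ) : 0 ≤ νκ ρ ∧ νκ ρ ≤ 1 := by
  unfold νκ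
  constructor
  · linarith [step_le_one (625 / 1000) (64 / 100) ρ]
  · linarith [step_nonneg (625 / 1000) (64 / 100) ρ]

private theorem νκ_zero {ρ : ℝ} (h : 64 / 100 ≤ ρ) : νκ ρ = 0 := by
  unfold νκ
  rw [step_of_ge (by norm_num) h, sub_self]

private theorem νR_mem (ρ : ℝ) : 0 ≤ νR ρ ∧ νR ρ ≤ 1 := by
  unfold νR
  have h1 := step_le_one (41 / 100) (43 / 100) ρ
  have h2 := step_nonneg (41 / 100) (43 / 100) ρ
  have h3 := step_le_one (61 / 100) (62 / 100) ρ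
  have h4 := step_nonneg (61 / 100) (62 / 100) ρ
  constructor
  · exact mul_nonneg h2 (by linarith)
  · nlinarith

private theorem conv_abs {t x y M : ℝ} (h0 : 0 ≤ t) (h1 : t ≤ 1) (hx : |x| ≤ M) (hy : |y| ≤ M) :
    |(1 - t) * x + t * y| ≤ M := by
  rw [abs_le] at hx hy ⊢
  constructor <;> nlinarith [hx.1, hx.2, hy.1, hy.2]

private theorem Cay_deriv (s : ℝ) :
    HasDerivAt (fun l : ℝ => Cay ((s * l : ℝ) : ℂ)) (2 * Complex.I * s) 0 := by
  have h1 : HasDerivAt (fun l : ℝ => ((s * l : ℝ) : ℂ)) (s : ℂ) 0 := by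
    simpa using ((hasDerivAt_id (0 : ℝ)).const_mul s).ofReal_comp
  have h2 := (h1.const_sub Complex.I).div (h1.const_add Complex.I) (by simp)
  unfold Cay
  refine h2.congr_deriv ?_
  simp only [mul_zero, Complex.ofReal_zero, add_zero, sub_zero]
  field_simp
  rw [Complex.I_sq]
  ring

private theorem Zw_deriv (a : Rt) (ξ : ℂ) :
    HasDerivAt (fun l => Zw a 0 ξ l) (circ (ϑw a 0 ξ * χw a.2 ξ) *
      (((1 - νR (ρ1 a.2 0 ξ)) + 2 * ρ1 a.2 0 ξ * νR (ρ1 a.2 0 ξ) : ℝ) : ℂ)) 0 := by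
  have h1 : HasDerivAt (fun l : ℝ => (((1 - νR (ρ1 a.2 0 ξ)) * l : ℝ) : ℂ))
      ((1 - νR (ρ1 a.2 0 ξ) : ℝ) : ℂ) 0 := by
    simpa using ((hasDerivAt_id (0 : ℝ)).const_mul (1 - νR (ρ1 a.2 0 ξ))).ofReal_comp
  have h2 := ((h1.add (((Cay_deriv (sg a.2)).sub_const 1).const_mul ((νR (ρ1 a.2 0 ξ) : ℂ) *
        (-Complex.I * ((sg a.2 * ρ1 a.2 0 ξ : ℝ) : ℂ))))).const_mul
        (circ (ϑw a 0 ξ * χw a.2 ξ))).const_add (-Complex.I * ((sg a.2 * ρ1 a.2 0 ξ : ℝ) : ℂ) *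
      (1 + (χw a.2 ξ : ℂ) * (circ (ϑw a 0 ξ) - 1)))
  unfold Zw
  refine h2.congr_deriv ?_
  congr 1
  have hs : (sg a.2 : ℂ) * sg a.2 = 1 := by
    rcases sg_cases a.2 with h | h <;> simp [h]
  push_cast
  linear_combination (-2 * (νR (ρ1 a.2 0 ξ) : ℂ) * ρ1 a.2 0 ξ * sg a.2 * sg a.2) * Complex.I_sq +
    (2 * (νR (ρ1 a.2 0 ξ) : ℂ) * ρ1 a.2 0 ξ) * hs

private theorem φw_sat (a : Rt) {ξ : ℂ} (h : ρ0 ξ ≤ 64 / 100) :
    φw a 0 ξ = ϑw a 0 ξ * χw a.2 ξ := by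
  have hu := uw_small a.2 (ξ := ξ) (by linarith [(ρf_mem a.2).1])
  unfold φw
  rw [step_of_le (by norm_num) (by linarith [(abs_lt.mp hu).2])]
  ring

/-- The framing direction in slot coordinates. -/
theorem l_dir (a : Rt) {ξ : ℂ} (h0 : 0 ≤ ξ.im) (hr : ‖ξ‖ ≤ 4 / 5) :
    ∃ c > (0 : ℝ), ∃ c' > (0 : ℝ),
      HasDerivAt (fun l => Xw a (fun _ => -1 / 2) 0 ξ l 0) (c * Real.cos (φw a 0 ξ)) 0 ∧
      HasDerivAt (fun l => hw a 0 ξ l) (c' * Real.sin (φw a 0 ξ)) 0 := by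
  have hρ := ρ0_ge hr
  have hρ1 := ρ1_core a.2 hρ
  set ν := νκ (ρ1 a.2 0 ξ) with hν
  set m := (1 - νR (ρ1 a.2 0 ξ)) + 2 * ρ1 a.2 0 ξ * νR (ρ1 a.2 0 ξ) with hm
  have hνm : 0 ≤ ν ∧ ν ≤ 1 := νκ_mem _
  have hmpos : 0 < m := by
    have := νR_mem (ρ1 a.2 0 ξ)
    rw [hm]
    linarith [this.2, mul_le_mul_of_nonneg_right (hρ.trans hρ1.ge) this.1]
  have hZ := Zw_deriv a ξ
  rw [← hm] at hZ
  have hZr : HasDerivAt (fun l => (Zw a 0 ξ l).re) (Real.cos (ϑw a 0 ξ * χw a.2 ξ) * m) 0 := by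
    have := Complex.reCLM.hasFDerivAt.comp_hasDerivAt 0 hZ
    simpa [circ_re, Function.comp_def] using this
  have hZi : HasDerivAt (fun l => (Zw a 0 ξ l).im) (Real.sin (ϑw a 0 ξ * χw a.2 ξ) * m) 0 := by
    have := Complex.imCLM.hasFDerivAt.comp_hasDerivAt 0 hZ
    simpa [circ_im, Function.comp_def] using this
  have hS : HasDerivAt S1 (deriv S1 (Zw a 0 ξ 0).re) (Zw a 0 ξ 0).re :=
    (S1_contDiff.differentiable (by simp) _).hasDerivAt
  have hS' := S1_deriv_pos (Zw a 0 ξ 0).re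
  have hcs : ν * Real.cos (ϑw a 0 ξ * χw a.2 ξ) = ν * Real.cos (φw a 0 ξ) ∧
      ν * Real.sin (ϑw a 0 ξ * χw a.2 ξ) = ν * Real.sin (φw a 0 ξ) := by
    rcases le_total (ρ0 ξ) (64 / 100) with h | h
    · rw [φw_sat a h]
      exact ⟨rfl, rfl⟩
    · rw [hν, hρ1, νκ_zero h]
      simp
  have hpos : ∀ x y : ℝ, 0 < x → 0 < y → 0 < (1 - ν) * x + ν * y := by
    intro x y hx hy
    rcases hνm.1.eq_or_lt with h | h
    · rw [← h]
      linarith
    · linarith [mul_pos h hy, mul_nonneg (sub_nonneg.mpr hνm.2) hx.le]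
  refine ⟨(1 - ν) * 1 + ν * (deriv S1 (Zw a 0 ξ 0).re * m), hpos _ _ one_pos (mul_pos hS' hmpos),
    (1 - ν) * 25 + ν * m, hpos _ _ (by norm_num) hmpos, ?_, ?_⟩
  · have h1 := (((((hasDerivAt_id (0 : ℝ)).mul_const (Real.cos (φw a 0 ξ))).const_add
      (-1 / 2)).const_mul (1 - ν)).add ((hS.comp 0 hZr).const_mul ν))
    simp only [Xw, stepab_core a.2 hρ, one_mul, sub_self, zero_mul, add_zero, ← hν]
    refine h1.congr_deriv ?_
    linear_combination (deriv S1 (Zw a 0 ξ 0).re * m) * hcs.1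
  · have h1 := ((((((hasDerivAt_id (0 : ℝ)).const_mul 25).mul_const
      (Real.sin (φw a 0 ξ))).const_add ((1 - step (2 / 10) (3 / 10) (uw a.2 ξ)) *
        (-1 / 2 + Hs (1 / 4 - sg a.2 * ρ1 a.2 0 ξ)))).const_mul (1 - ν)).add
      ((hZi.const_add (-1 / 4)).const_mul ν))
    simp only [hw, ← hν]
    refine h1.congr_deriv ?_
    linear_combination m * hcs.2

private theorem core_Dom (a : Rt) {ξ : ℂ} (hr : ‖ξ‖ ≤ 4 / 5) :
    (Xw a (fun _ => -1 / 2) 0 ξ 0 0, 3 / 10 + yw a.2 ξ) ∈ Dom := by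
  have hρ := ρ0_ge hr
  rcases le_total (ρ0 ξ) (64 / 100) with h | h
  · have hy := abs_lt.mp (abs_yw_sat a.2 (ξ := ξ) (by linarith [(ρf_mem a.2).1]))
    have : 0 ≤ 3 / 10 + yw a.2 ξ := by linarith [hy.1]
    refine mem_Dom_snd ?_ ?_ <;> simp only [abs_of_nonneg this] <;> linarith [hy.1, hy.2]
  · have : Xw a (fun _ => -1 / 2) 0 ξ 0 0 = -1 / 2 := by
      simp only [Xw, stepab_core a.2 hρ, ρ1_core a.2 hρ, νκ_zero h]
      ring
    rw [this]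
    refine mem_Dom_fst ?_ ?_ <;> norm_num [abs_div]

private theorem core_h (a : Rt) {ξ : ℂ} (hr : ‖ξ‖ ≤ 4 / 5) : |hw a 0 ξ 0| ≤ 3 := by
  have hρ := ρ0_ge hr
  have hρ1 := ρ1_core a.2 hρ
  have h1 : |(1 - step (2 / 10) (3 / 10) (uw a.2 ξ)) *
      (-1 / 2 + Hs (1 / 4 - sg a.2 * ρ1 a.2 0 ξ))| ≤ 3 := by
    have h2 := abs_le.mp (abs_Hs_le (1 / 4 - sg a.2 * ρ1 a.2 0 ξ))
    have h3 := conv_abs (x := -1 / 2 + Hs (1 / 4 - sg a.2 * ρ1 a.2 0 ξ)) (y := 0) (M := 3)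
      (step_nonneg (2 / 10) (3 / 10) (uw a.2 ξ)) (step_le_one (2 / 10) (3 / 10) (uw a.2 ξ))
      (abs_le.mpr ⟨by linarith [h2.1], by linarith [h2.2]⟩) (by norm_num)
    rwa [mul_zero, add_zero] at h3
  have hν := νκ_mem (ρ1 a.2 0 ξ)
  rcases le_total (ρ0 ξ) (64 / 100) with h | h
  · have h2 : ‖Zw a 0 ξ 0‖ ≤ 2 := by
      have hχ0 : 0 ≤ χw a.2 ξ := step_nonneg _ _ _
      have hχ1 : χw a.2 ξ ≤ 1 := step_le_one _ _ _
      have h3 : ‖(1 : ℂ) + (χw a.2 ξ : ℂ) * (circ (ϑw a 0 ξ) - 1)‖ ≤ 3 := by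
        refine (norm_add_le _ _).trans ?_
        rw [norm_mul, Complex.norm_real, Real.norm_eq_abs, abs_of_nonneg hχ0, norm_one]
        have := norm_sub_le (circ (ϑw a 0 ξ)) 1
        rw [norm_circ, norm_one] at this
        linarith [mul_le_of_le_one_left (norm_nonneg (circ (ϑw a 0 ξ) - 1)) hχ1]
      have h4 : ‖-Complex.I * ((sg a.2 * ρ1 a.2 0 ξ : ℝ) : ℂ)‖ = ρ0 ξ := by
        rw [norm_mul, norm_neg, Complex.norm_I, one_mul, Complex.norm_real, Real.norm_eq_abs,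
          abs_mul, hρ1, abs_of_nonneg (by linarith : 0 ≤ ρ0 ξ)]
        rcases sg_cases a.2 with h | h <;> simp [h]
      simp only [Zw, mul_zero, Complex.ofReal_zero, Cay_zero, sub_self, add_zero]
      rw [norm_mul, h4]
      linarith [mul_le_mul h h3 (norm_nonneg _) (by norm_num)]
    have h3 := abs_le.mp ((Complex.abs_im_le_norm _).trans h2)
    simp only [hw, mul_zero, zero_mul, add_zero]
    exact conv_abs hν.1 hν.2 h1 (abs_le.mpr ⟨by linarith [h3.1], by linarith [h3.2]⟩)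
  · simp only [hw, mul_zero, zero_mul, add_zero]
    rw [show νκ (ρ1 a.2 0 ξ) = 0 by rw [hρ1, νκ_zero h]]
    simpa using h1

private theorem Xw_diff (a : Rt) {ξ : ℂ} (h : 0 ≤ ξ.im) (hs : ωw a.2 ξ ∈ Complex.slitPlane) :
    DifferentiableAt ℝ (fun q : ℂ × ℝ => Xw a (fun _ => -1 / 2) 0 q.1 q.2 0) (ξ, 0) := by
  have h1 := (Xw_contDiffAt a (Xk := fun _ => -1 / 2) contDiffOn_const 0 (Half_ne h)
    (Complex.slitPlane_ne_zero hs) 0 0).differentiableAt (by simp)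
  have h2 : DifferentiableAt ℝ (fun q : ℂ × ℝ => ((q.1, q.2, 0) : ℂ × ℝ × ℝ)) (ξ, 0) := by
    fun_prop
  have h3 := DifferentiableAt.comp (ξ, (0 : ℝ))
    (f := fun q : ℂ × ℝ => ((q.1, q.2, 0) : ℂ × ℝ × ℝ))
    (g := fun q : ℂ × ℝ × ℝ => Xw a (fun _ => -1 / 2) 0 q.1 q.2.1 q.2.2) h1 h2
  simpa only [Function.comp_def] using h3

private theorem hw_diff (a : Rt) {ξ : ℂ} (h : 0 ≤ ξ.im) (hs : ωw a.2 ξ ∈ Complex.slitPlane) :
    DifferentiableAt ℝ (fun q : ℂ × ℝ => hw a 0 q.1 q.2) (ξ, 0) :=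
  (hw_contDiffAt a 0 (Half_ne h) (Complex.slitPlane_ne_zero hs) 0).differentiableAt (by simp)

private theorem scale_im (ξ : ℂ) : ((4 / 5 : ℂ) * ξ).im = 4 / 5 * ξ.im := by
  rw [show (4 / 5 : ℂ) = ((4 / 5 : ℝ) : ℂ) by push_cast; rfl, Complex.im_ofReal_mul]

private theorem scale_norm (ξ : ℂ) : ‖(4 / 5 : ℂ) * ξ‖ = 4 / 5 * ‖ξ‖ := by
  rw [norm_mul]
  norm_num

/-- Away from the deep centre and the branch cut, a kernel vector kills all slot coordinates. -/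
theorem Fcore_kernel (a : Rt) {ξ : ℂ} (h : ξ ∈ Half) (hu : uw a.2 ((4 / 5 : ℂ) * ξ) < 11 / 20)
    (hs : ωw a.2 ((4 / 5 : ℂ) * ξ) ∈ Complex.slitPlane) {v : ℂ} {δ : ℝ}
    (hk : fderiv ℝ (Fcore a) (ξ, 0) (v, δ) = 0) :
    fderiv ℝ (yw a.2) ((4 / 5 : ℂ) * ξ) ((4 / 5 : ℂ) * v) = 0 ∧
    fderiv ℝ (Tw a 0) ((4 / 5 : ℂ) * ξ) ((4 / 5 : ℂ) * v) = 0 ∧
    fderiv ℝ (fun q : ℂ × ℝ => Xw a (fun _ => -1 / 2) 0 q.1 q.2 0) ((4 / 5 : ℂ) * ξ, 0)
      ((4 / 5 : ℂ) * v, δ) = 0 ∧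
    fderiv ℝ (fun q : ℂ × ℝ => hw a 0 q.1 q.2) ((4 / 5 : ℂ) * ξ, 0) ((4 / 5 : ℂ) * v, δ) = 0 := by
  set η := (4 / 5 : ℂ) * ξ with hη
  have him : 0 ≤ η.im := by
    rw [hη, scale_im]
    linarith [h.2]
  have hnorm : ‖η‖ ≤ 4 / 5 := by
    rw [hη, scale_norm]
    linarith [h.1]
  have hne := Half_ne him
  have hc : HasDerivAt (fun t : ℝ => ((ξ + t • v, t • δ) : ℂ × ℝ)) (v, δ) 0 := by
    simpa using (((hasDerivAt_id (0 : ℝ)).smul_const v).const_add ξ).prodMk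
      ((hasDerivAt_id (0 : ℝ)).smul_const δ)
  have hc1 : HasDerivAt (fun t : ℝ => (4 / 5 : ℂ) * (ξ + t • v)) ((4 / 5 : ℂ) * v) 0 := by
    simpa using (((hasDerivAt_id (0 : ℝ)).smul_const v).const_add ξ).const_mul (4 / 5 : ℂ)
  have hc2 : HasDerivAt (fun t : ℝ => (((4 / 5 : ℂ) * (ξ + t • v), t • δ) : ℂ × ℝ))
      ((4 / 5 : ℂ) * v, δ) 0 := by
    simpa using hc1.prodMk ((hasDerivAt_id (0 : ℝ)).smul_const δ)
  have e1 : (4 / 5 : ℂ) * (ξ + (0 : ℝ) • v) = η := by simp [hη]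
  have e2 : (((4 / 5 : ℂ) * (ξ + (0 : ℝ) • v), (0 : ℝ) • δ) : ℂ × ℝ) = (η, 0) := by simp [hη]
  have hX := (Xw_diff a him hs).hasFDerivAt.comp_hasDerivAt_of_eq 0 hc2 e2.symm
  have hH := (hw_diff a him hs).hasFDerivAt.comp_hasDerivAt_of_eq 0 hc2 e2.symm
  have hY := ((yw_contDiffAt a.2 hne hs).differentiableAt
    (by simp)).hasFDerivAt.comp_hasDerivAt_of_eq 0 hc1 e1.symm
  have hT := ((Tw_contDiffAt a 0 hne).differentiableAt
    (by simp)).hasFDerivAt.comp_hasDerivAt_of_eq 0 hc1 e1.symm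
  have hP := ((Φa_smooth a).differentiable (by simp)
    (Xw a (fun _ => -1 / 2) 0 η 0 0, 3 / 10 + yw a.2 η, hw a 0 η 0)).hasFDerivAt
  have hPc := hP.comp_hasDerivAt_of_eq 0 (hX.prodMk ((hY.const_add (3 / 10)).prodMk hH))
    (by simp [hη])
  have hev : ∀ᶠ t : ℝ in 𝓝 0, bW ((4 / 5 : ℂ) * (ξ + t • v)) = 1 ∧
      uw a.2 ((4 / 5 : ℂ) * (ξ + t • v)) < 11 / 20 := by
    have ht : Tendsto (fun t : ℝ => (4 / 5 : ℂ) * (ξ + t • v)) (𝓝 0) (𝓝 η) := by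
      have := hc1.continuousAt.tendsto
      rwa [e1] at this
    exact ht.eventually ((bW_eventually him).and
      ((uw_contDiffAt a.2 hne).continuousAt.eventually_lt continuousAt_const hu))
  have hF := fd_curve (f := Fcore a) (x := (ξ, 0))
    ((Fcore_smooth a).differentiable (by simp) _) hc (by simp)
    ((hPc.prodMk hT).congr_of_eventuallyEq (by
      filter_upwards [hev] with t ht
      simp only [Fcore, Wf, ht.1, one_smul, Function.comp_def]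
      rw [step_of_le (by norm_num) (by linarith [ht.2])]
      simp))
  rw [hk] at hF
  have hF1 := congrArg Prod.fst hF
  have hF2 := congrArg Prod.snd hF
  have h3 := (injective_iff_map_eq_zero _).mp
    (Φa_imm a (core_Dom a hnorm) (core_h a hnorm)) _ hF1.symm
  simp only [Prod.mk_eq_zero] at h3
  exact ⟨h3.2.1, hF2.symm, h3.1, h3.2.2⟩

private theorem der_all (ty : Bool) {c : ℝ → ℂ} {t0 : ℝ} (h : c t0 ≠ -Complex.I / 10)
    (hs : ωw ty (c t0) ∈ Complex.slitPlane) {z' p : ℂ}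
    (hz : HasDerivAt (fun t => ξt ty (c t)) z' t0)
    (hp : p = 2 * Complex.I * z' / (ξt ty (c t0) + Complex.I) ^ 2 / ωw ty (c t0)) :
    HasDerivAt (fun t => uw ty (c t)) (-2 * ‖ωw ty (c t0)‖ ^ 2 * p.re) t0 ∧
    HasDerivAt (fun t => yw ty (c t))
      ((1 - cu (uw ty (c t0)) * Real.cos (2 * π * y0 ty (c t0))) * (-p.im / (2 * π)) -
        deriv cu (uw ty (c t0)) * Real.sin (2 * π * y0 ty (c t0)) / (2 * π) *
          (-2 * ‖ωw ty (c t0)‖ ^ 2 * p.re)) t0 := by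
  have hne := ξt_add_I_ne ty h
  have h0 := Complex.slitPlane_ne_zero hs
  have hω : HasDerivAt (fun t => ωw ty (c t)) (p * ωw ty (c t0)) t0 := by
    have := (hz.sub_const Complex.I).div (hz.add_const Complex.I) hne
    rw [hp, div_mul_cancel₀ _ h0]
    unfold ωw
    refine this.congr_deriv ?_
    field_simp
    ring
  have hu : HasDerivAt (fun t => uw ty (c t)) (-2 * ‖ωw ty (c t0)‖ ^ 2 * p.re) t0 := by
    have := hω.norm_sq.const_sub 1
    unfold uw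
    refine this.congr_deriv ?_
    rw [Complex.inner, mul_assoc p, Complex.mul_conj, Complex.normSq_eq_norm_sq,
      Complex.re_mul_ofReal]
    ring
  have hy : HasDerivAt (fun t => y0 ty (c t)) (-p.im / (2 * π)) t0 := by
    have h1 := Complex.imCLM.hasFDerivAt.comp_hasDerivAt t0 (hω.clog_real hs)
    rw [mul_div_cancel_right₀ _ h0] at h1
    have h2 := h1.neg.div_const (2 * π)
    unfold y0
    simpa only [Function.comp_def, Complex.imCLM_apply, Complex.log_im, Pi.neg_apply] using h2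
  refine ⟨hu, ?_⟩
  have hcu : HasDerivAt cu (deriv cu (uw ty (c t0))) (uw ty (c t0)) :=
    (cu_contDiff.differentiable (by simp) _).hasDerivAt
  have := hy.sub (((hcu.comp t0 hu).mul (hy.const_mul (2 * π)).sin).div_const (2 * π))
  unfold yw
  refine this.congr_deriv ?_
  simp only [Function.comp_def]
  field_simp
  ring

private theorem Tw_der (a : Rt) {c : ℝ → ℂ} {t0 : ℝ}
    (h : 4 / 10 < ρ0 (c t0)) {u' r' : ℝ} (hu : HasDerivAt (fun t => uw a.2 (c t)) u' t0)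
    (hr : HasDerivAt (fun t => ρ0 (c t)) r' t0) :
    HasDerivAt (fun t => Tw a 0 (c t))
      (deriv (step (4 / 10) (ρf a.2 + 2 / 100)) (ρ0 (c t0)) * r' * uw a.2 (c t0) +
        step (4 / 10) (ρf a.2 + 2 / 100) (ρ0 (c t0)) * u') t0 := by
  have h1 := (((step_hasDerivAt (4 / 10) (ρf a.2 + 2 / 100) (ρ0 (c t0))).comp t0 hr).mul
    hu).const_add 1
  refine h1.congr_of_eventuallyEq ?_
  have hev : ∀ᶠ t in 𝓝 t0, 4 / 10 < ρ0 (c t) :=
    continuousAt_const.eventually_lt hr.continuousAt h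
  filter_upwards [hev] with t ht
  have : χh (-1 / 4 - sg a.2 * ρ1 a.2 0 (c t)) = 0 := by
    rw [χh_eq_zero_iff, ρ1_core a.2 ht.le]
    rcases sg_cases a.2 with h | h <;> rw [h]
    · left
      linarith
    · right
      linarith
  simp [Tw, this]

/-- The pair (across coordinate, time) is a local diffeomorphism away from the deep centre, in
the interior of the core. (`ξ` is the variable of `Wf`, so `‖ξ‖ < 4/5`.) -/
theorem yT_kernel (a : Rt) {ξ : ℂ} (h0 : 0 < ξ.im) (hr : ‖ξ‖ < 4 / 5)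
    (hs : ωw a.2 ξ ∈ Complex.slitPlane) {v : ℂ} (hy : fderiv ℝ (yw a.2) ξ v = 0)
    (hT : fderiv ℝ (Tw a 0) ξ v = 0) : v = 0 := by
  have hne := Half_ne h0.le
  have hξ : ξ ≠ 0 := by
    rintro rfl
    simp at h0
  have hrpos : 0 < ‖ξ‖ := norm_pos_iff.mpr hξ
  have hρ := ρ0_gt hr
  have hΩ := Complex.slitPlane_ne_zero hs
  have hI := ξt_add_I_ne a.2 hne
  have dy := (yw_contDiffAt a.2 hne hs).differentiableAt (by simp)
  have dT := (Tw_contDiffAt a 0 hne).differentiableAt (by simp)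
  have dρ : DifferentiableAt ℝ ρ0 ξ := ρ0_smooth.differentiable (by simp) _
  set W := 2 * Complex.I * ξ / (ξt a.2 ξ + Complex.I) ^ 2 / ωw a.2 ξ with hW
  have hW0 : W ≠ 0 :=
    div_ne_zero (div_ne_zero (mul_ne_zero (mul_ne_zero two_ne_zero Complex.I_ne_zero) hξ)
      (pow_ne_zero _ hI)) hΩ
  set μ := deriv (ϱw a.2) ‖ξ‖ with hμ
  set γ := γn a.2 (nn ξ) with hγ
  have hγ0 : 0 < γ := γn_pos a.2 (nr_ge _)
  -- radial curve
  have cR : HasDerivAt (fun t : ℝ => (t : ℂ) * ξ) ξ 1 := by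
    simpa using ((hasDerivAt_id (1 : ℝ)).ofReal_comp).mul_const ξ
  have eR : ((1 : ℝ) : ℂ) * ξ = ξ := by simp
  have zR : HasDerivAt (fun t : ℝ => ξt a.2 ((t : ℂ) * ξ)) ((μ : ℂ) * ξ) 1 := by
    have h1 : HasDerivAt (ϱw a.2) μ (1 * ‖ξ‖) := by
      rw [one_mul]
      exact ((ϱw_contDiff a.2).differentiable (by simp) _).hasDerivAt
    have h2 := (((h1.comp 1 ((hasDerivAt_id (1 : ℝ)).mul_const ‖ξ‖)).div_const
      ‖ξ‖).ofReal_comp).mul_const ξ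
    rw [one_mul, mul_div_cancel_right₀ _ hrpos.ne'] at h2
    refine h2.congr_of_eventuallyEq ?_
    filter_upwards [lt_mem_nhds (one_pos (α := ℝ))] with t ht
    have : ‖(t : ℂ) * ξ‖ = t * ‖ξ‖ := by
      rw [norm_mul, Complex.norm_real, Real.norm_eq_abs, abs_of_pos ht]
    simp only [ξt, nn, this, ϱw, Function.comp_def, id]
    rw [← mul_assoc, ← mul_assoc, mul_div_cancel_right₀ _ hrpos.ne']
    push_cast
    ring
  obtain ⟨uR, yR⟩ := der_all a.2 (c := fun t : ℝ => (t : ℂ) * ξ) (t0 := 1) (p := μ * W)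
    (by rwa [eR]) (by rwa [eR]) zR (by rw [eR, hW]; ring)
  have rR := dρ.hasFDerivAt.comp_hasDerivAt_of_eq 1 cR eR.symm
  have tR := Tw_der a (c := fun t : ℝ => (t : ℂ) * ξ) (by rwa [eR]) uR rR
  have eyR := fd_curve dy cR eR yR
  have eTR := fd_curve dT cR eR tR
  -- angular curve
  have cA : HasDerivAt (fun t : ℝ => circ t * ξ) (Complex.I * ξ) 0 := by
    simpa [circ_zero] using (circ_hasDerivAt 0).mul_const ξ
  have eA : circ 0 * ξ = ξ := by rw [circ_zero, one_mul]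
  have nA : ∀ t, nn (circ t * ξ) = nn ξ := fun t => by
    unfold nn
    rw [norm_mul, norm_circ, one_mul]
  have zA : HasDerivAt (fun t : ℝ => ξt a.2 (circ t * ξ)) ((γ : ℂ) * (Complex.I * ξ)) 0 := by
    simpa only [ξt, nA] using cA.const_mul (γ : ℂ)
  obtain ⟨uA, yA⟩ := der_all a.2 (c := fun t : ℝ => circ t * ξ) (t0 := 0)
    (p := γ * (Complex.I * W)) (by rwa [eA]) (by rwa [eA]) zA (by rw [eA, hW]; ring)
  have rA : HasDerivAt (fun t : ℝ => ρ0 (circ t * ξ)) 0 0 := by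
    simpa only [ρ0, nA] using hasDerivAt_const (0 : ℝ) (ρn (nn ξ))
  have tA := Tw_der a (c := fun t : ℝ => circ t * ξ) (by rwa [eA]) uA rA
  have eyA := fd_curve dy cA eA yA
  have eTA := fd_curve dT cA eA tA
  simp only [eR, eA, Complex.re_ofReal_mul, Complex.im_ofReal_mul, Complex.I_mul_re,
    Complex.I_mul_im, mul_zero, zero_mul, zero_add] at eyR eTR eyA eTA
  set A := 1 - cu (uw a.2 ξ) * Real.cos (2 * π * y0 a.2 ξ) with hA
  set s := step (4 / 10) (ρf a.2 + 2 / 100) (ρ0 ξ) with hs'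
  set s' := deriv (step (4 / 10) (ρf a.2 + 2 / 100)) (ρ0 ξ) with hs''
  set R := ‖ωw a.2 ξ‖ with hR
  have hf := ρf_mem a.2
  have hA0 : 0 < A := by
    have h1 := cu_mem (uw_mem a.2 h0.le).1
    rw [hA]
    linarith [h1.2, mul_le_of_le_one_right h1.1 (Real.cos_le_one (2 * π * y0 a.2 ξ))]
  have hs0 : 0 < s := step_pos (by linarith [hf.1]) hρ
  have hR0 : 0 < R := norm_pos_iff.mpr hΩ
  have hu0 : 0 < uw a.2 ξ :=
    (uw_mem a.2 h0.le).1.lt_of_ne' fun h => h0.ne' ((uw_eq_zero_iff a.2 h0.le).mp h)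
  have hW2 : 0 < W.re ^ 2 + W.im ^ 2 := by
    have := Complex.normSq_pos.mpr hW0
    rwa [Complex.normSq_apply, ← sq, ← sq] at this
  have hdet : fderiv ℝ (yw a.2) ξ ξ * fderiv ℝ (Tw a 0) ξ (Complex.I * ξ) -
      fderiv ℝ (yw a.2) ξ (Complex.I * ξ) * fderiv ℝ (Tw a 0) ξ ξ =
      -(μ * (s * A * γ * R ^ 2 * (W.re ^ 2 + W.im ^ 2) / π)) -
        s' * fderiv ℝ ρ0 ξ ξ * uw a.2 ξ * fderiv ℝ (yw a.2) ξ (Complex.I * ξ) := by
    rw [eyR, eTR, eTA, eyA]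
    field_simp
    ring
  have hQ : 0 < s * A * γ * R ^ 2 * (W.re ^ 2 + W.im ^ 2) / π := by
    have := Real.pi_pos
    positivity
  have hneg : fderiv ℝ (yw a.2) ξ ξ * fderiv ℝ (Tw a 0) ξ (Complex.I * ξ) -
      fderiv ℝ (yw a.2) ξ (Complex.I * ξ) * fderiv ℝ (Tw a 0) ξ ξ < 0 := by
    rw [hdet]
    rcases le_or_gt (ρf a.2 + 2 / 100) (ρ0 ξ) with h | h
    · have h1 : s' = 0 := step_deriv_of_ge (by linarith [hf.1]) h
      have h2 : 0 < μ := ϱw_deriv_pos a.2 (by change _ < ρ0 ξ; linarith)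
      rw [h1]
      linarith [mul_pos h2 hQ]
    · have h1 : 0 < s' := step_deriv_pos hρ h
      have h2 : 0 ≤ μ := ϱw_deriv_nonneg a.2 _
      have h3 := fderiv_yw_angular a.2 h0.le h.le
      have h4 : fderiv ℝ ρ0 ξ ξ = -(10 * ‖ξ‖) := by
        refine fd_curve dρ cR eR ?_
        have h5 := (((hasDerivAt_id (1 : ℝ)).mul_const ‖ξ‖).const_mul 10).const_sub (84 / 10)
        rw [one_mul] at h5
        refine h5.congr_of_eventuallyEq ?_
        have hev : ∀ᶠ t : ℝ in 𝓝 1, ρ0 ((t : ℂ) * ξ) < 6 :=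
          rR.continuousAt.eventually_lt continuousAt_const (by
            change ρ0 (((1 : ℝ) : ℂ) * ξ) < 6
            rw [eR]
            linarith [hf.2])
        filter_upwards [hev, lt_mem_nhds (one_pos (α := ℝ))] with t ht ht0
        rw [norm_of_ρ0 ht.le, norm_mul, Complex.norm_real, Real.norm_eq_abs, abs_of_pos ht0]
        rfl
      rw [h4]
      have h5 := mul_pos (mul_pos (mul_pos h1 hrpos) hu0) (neg_pos.mpr h3)
      linarith [mul_nonneg h2 hQ.le]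
  have hv : v = (v / ξ).re • ξ + (v / ξ).im • (Complex.I * ξ) := by
    have := Complex.re_add_im (v / ξ)
    rw [Complex.real_smul, Complex.real_smul, ← mul_assoc, ← add_mul, this,
      div_mul_cancel₀ _ hξ]
  rw [hv, map_add, map_smul, map_smul, smul_eq_mul, smul_eq_mul] at hy hT
  have h1 : (v / ξ).re = 0 := by
    refine (mul_eq_zero.mp ?_).resolve_right hneg.ne
    linear_combination fderiv ℝ (Tw a 0) ξ (Complex.I * ξ) * hy -
      fderiv ℝ (yw a.2) ξ (Complex.I * ξ) * hT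
  have h2 : (v / ξ).im = 0 := by
    refine (mul_eq_zero.mp ?_).resolve_right hneg.ne
    linear_combination fderiv ℝ (yw a.2) ξ ξ * hT - fderiv ℝ (Tw a 0) ξ ξ * hy
  rw [hv, h1, h2]
  simp

theorem Fcore_imm_mid (a : Rt) {ξ : ℂ} (h : ξ ∈ oHalf) (hu : uw a.2 ((4 / 5 : ℂ) * ξ) < 11 / 20)
    (hs : ωw a.2 ((4 / 5 : ℂ) * ξ) ∈ Complex.slitPlane) :
    Injective (fderiv ℝ (Fcore a) (ξ, 0)) := by
  rw [injective_iff_map_eq_zero]
  rintro ⟨v, δ⟩ hk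
  obtain ⟨h1, h2, h3, h4⟩ := Fcore_kernel a (oHalf_subset h) hu hs hk
  have him : 0 < ((4 / 5 : ℂ) * ξ).im := by
    rw [scale_im]
    linarith [h.2]
  have hnorm : ‖(4 / 5 : ℂ) * ξ‖ < 4 / 5 := by
    rw [scale_norm]
    linarith [h.1]
  have hv := yT_kernel a him hnorm hs h1 h2
  rw [hv] at h3 h4
  obtain ⟨c, hc, c', hc', hX, hH⟩ := l_dir a him.le hnorm.le
  have cl : HasDerivAt (fun l : ℝ => (((4 / 5 : ℂ) * ξ, l) : ℂ × ℝ)) (0, 1) 0 :=
    (hasDerivAt_const _ _).prodMk (hasDerivAt_id _)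
  have e3 := fd_curve (Xw_diff a him.le hs) cl rfl hX
  have e4 := fd_curve (hw_diff a him.le hs) cl rfl hH
  have e5 : ((0, δ) : ℂ × ℝ) = δ • ((0, 1) : ℂ × ℝ) := by simp
  rw [e5, map_smul, e3, smul_eq_mul] at h3
  rw [e5, map_smul, e4, smul_eq_mul] at h4
  have hδ : δ = 0 := by
    by_contra hδ
    have h5 := (mul_eq_zero.mp ((mul_eq_zero.mp h3).resolve_left hδ)).resolve_left hc.ne'
    have h6 := (mul_eq_zero.mp ((mul_eq_zero.mp h4).resolve_left hδ)).resolve_left hc'.ne'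
    have := Real.sin_sq_add_cos_sq (φw a 0 ((4 / 5 : ℂ) * ξ))
    rw [h5, h6] at this
    norm_num at this
  have hv' : v = 0 := (mul_eq_zero.mp hv).resolve_left (by norm_num)
  rw [hv', hδ]
  rfl

end Pool.Agent.Lib.MP_1d0d1b_gt
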