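import Pool.Agent.Lib.MP_1d0d1b_gt.WImmA

open Set Function Filter Topology
open scoped ContDiff Real

noncomputable section

namespace Pool.Agent.Lib.MP_1d0d1b_gt

theorem wImmB_line {E F : Type*} [NormedAddCommGroup E] [NormedSpace ℝ E] [NormedAddCommGroup F]
    [NormedSpace ℝ F] {f : E → F} {x : E} (hf : DifferentiableAt ℝ f x) (v : E) :
    HasDerivAt (fun s : ℝ => f (x + s • v)) (fderiv ℝ f x v) 0 :=
  hf.hasFDerivAt.hasLineDerivAt v

theorem wImmB_tendsto {E : Type*} [NormedAddCommGroup E] [NormedSpace ℝ E] (x v : E) :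
    Tendsto (fun s : ℝ => x + s • v) (𝓝 0) (𝓝 x) :=
  Continuous.tendsto' (by fun_prop) _ _ (by simp)

theorem wImmB_radial (ty : Bool) {ξ : ℂ} (h : ξ ≠ 0) :
    fderiv ℝ (ξt ty) ξ ξ = deriv (ϱw ty) ‖ξ‖ • ξ := by
  have hr : 0 < ‖ξ‖ := norm_pos_iff.2 h
  have h1 := wImmB_line ((ξt_smooth ty).differentiable (by simp) ξ) ξ
  have h2 : HasDerivAt (ϱw ty) (deriv (ϱw ty) ‖ξ‖) ((1 + 0) * ‖ξ‖) := by
    rw [add_zero, one_mul]
    exact ((ϱw_contDiff ty).differentiable (by simp) _).hasDerivAt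
  have h3 : HasDerivAt (fun s : ℝ => (1 + s) * ‖ξ‖) ‖ξ‖ 0 := by
    simpa using ((hasDerivAt_id (0 : ℝ)).const_add 1).mul_const ‖ξ‖
  have h4 := ((h2.comp (0 : ℝ) h3).div_const ‖ξ‖).smul_const ξ
  rw [mul_div_assoc, div_self hr.ne', mul_one] at h4
  refine h1.unique (h4.congr_of_eventuallyEq ?_)
  filter_upwards [lt_mem_nhds (show (-1 : ℝ) < 0 by norm_num)] with s hs
  have e : ξ + s • ξ = (1 + s) • ξ := by rw [add_smul, one_smul]
  have hn : ‖(1 + s) • ξ‖ = (1 + s) * ‖ξ‖ := by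
    rw [norm_smul, Real.norm_of_nonneg (by linarith)]
  rw [e]
  simp only [ξt, nn, ϱw, hn, comp_apply]
  simp only [Complex.real_smul]
  have : (‖ξ‖ : ℂ) ≠ 0 := Complex.ofReal_ne_zero.2 hr.ne'
  push_cast
  field_simp

theorem wImmB_ξt_inj (ty : Bool) {ξ : ℂ} (hρ : ρf ty < ρ0 ξ) {v : ℂ}
    (hv : fderiv ℝ (ξt ty) ξ v = 0) : v = 0 := by
  have hg0 : DifferentiableAt ℝ (γn ty) (nn ξ) :=
    (γn_contDiffAt ty (nr_ge ‖ξ‖)).differentiableAt (by simp)
  have hg : DifferentiableAt ℝ (fun x : ℂ => γn ty (nn x)) ξ :=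
    hg0.comp ξ (nn_smooth.differentiable (by simp) ξ)
  have hp : 0 < γn ty (nn ξ) := γn_pos ty (nr_ge ‖ξ‖)
  have h1 := wImmB_line ((ξt_smooth ty).differentiable (by simp) ξ) v
  have h3 : HasDerivAt (fun s : ℝ => ξ + s • v) v 0 := by
    simpa using ((hasDerivAt_id (0 : ℝ)).smul_const v).const_add ξ
  have h2 := (wImmB_line hg v).smul h3
  have h4 := h1.unique h2
  rw [hv, zero_smul, add_zero] at h4
  generalize fderiv ℝ (fun x : ℂ => γn ty (nn x)) ξ v = t at h4
  have h5 : v = (-t / γn ty (nn ξ)) • ξ := by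
    have h6 : γn ty (nn ξ) • v = (-t) • ξ := by
      rw [neg_smul, eq_neg_iff_add_eq_zero]
      exact h4.symm
    rw [div_eq_inv_mul, mul_smul, ← h6, inv_smul_smul₀ hp.ne']
  by_cases h0 : ξ = 0
  · rw [h5, h0, smul_zero]
  · rw [h5, map_smul, wImmB_radial ty h0, smul_eq_zero, smul_eq_zero] at hv
    rcases hv with hv | hv | hv
    · rw [h5, hv, zero_smul]
    · exact absurd hv (ϱw_deriv_pos ty hρ).ne'
    · exact absurd hv h0

/-- `ωw` is a local diffeomorphism where the radial profile is strictly increasing. -/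
theorem ωw_fderiv_inj (ty : Bool) {ξ : ℂ} (h : ξ ≠ -Complex.I / 10) (hρ : ρf ty < ρ0 ξ) :
    Injective (fderiv ℝ (ωw ty) ξ) := by
  refine (injective_iff_map_eq_zero _).2 fun v hv => wImmB_ξt_inj ty hρ ?_
  have hne := ξt_add_I_ne ty h
  have h1 := wImmB_line ((ωw_contDiffAt ty h).differentiableAt (by simp)) v
  have h2 := wImmB_line ((ξt_smooth ty).differentiable (by simp) ξ) v
  have h3 := (h2.sub_const Complex.I).div (h2.add_const Complex.I) (by simpa using hne)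
  have h4 := h1.unique h3
  rw [hv, zero_smul, add_zero, eq_comm, div_eq_zero_iff] at h4
  rcases h4 with h4 | h4
  · have h5 : fderiv ℝ (ξt ty) ξ v * (2 * Complex.I) = 0 := by linear_combination h4
    exact (mul_eq_zero.1 h5).resolve_right (by simp)
  · exact absurd h4 (pow_ne_zero 2 hne)

/-- The formula in the inner zone. -/
theorem wImmB_Wf (a : Rt) {η : ℂ} (hρ : ρf a.2 + 2 / 100 ≤ ρ0 η) (hb : bW η = 1) (l : ℝ) :
    Wf a (fun _ => -1 / 2) 0 η l 0 =
      ((1 - step (55 / 100) (65 / 100) (uw a.2 η)) •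
        Φa a (-1 / 2 + l * Real.cos (φw a 0 η)) (3 / 10 + yw a.2 η)
          ((1 - step (2 / 10) (3 / 10) (uw a.2 η)) * (-1 / 2 + Hs (1 / 4 - sg a.2 * ρ0 η)) +
            25 * l * Real.sin (φw a 0 η)) +
        step (55 / 100) (65 / 100) (uw a.2 η) • deep a η l, 1 + uw a.2 η) := by
  obtain ⟨h1, h2, h3⟩ := ρab a.2
  have h4 := (ρf_mem a.2).1
  have e1 : ρ1 a.2 0 η = ρ0 η := ρ1_eq 0 (by linarith)
  have e2 : step (ρb a.2) (ρa a.2) (ρ0 η) = 1 := step_of_ge h2 (by linarith)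
  have e3 : νκ (ρ0 η) = 0 := by
    rw [νκ, step_of_ge (by norm_num) (by linarith), sub_self]
  have e4 : χh (-1 / 4 - sg a.2 * ρ0 η) = 0 := by
    rw [χh_eq_zero_iff]
    rcases sg_cases a.2 with h | h <;> rw [h]
    · left
      linarith
    · right
      linarith
  have e5 : step (4 / 10) (ρf a.2 + 2 / 100) (ρ0 η) = 1 := step_of_ge (by linarith) hρ
  simp only [Wf, Xw, hw, Tw, hb, e1, e2, e3, e4, e5, one_smul, sub_zero, one_mul, zero_mul,
    add_zero, sub_self, mul_zero]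

theorem wImmB_Fcore (a : Rt) (ξ v : ℂ) (δ s : ℝ) :
    Fcore a ((ξ, 0) + s • (v, δ)) =
      Wf a (fun _ => -1 / 2) 0 ((4 / 5 : ℂ) * ξ + s • ((4 / 5 : ℂ) * v)) (s * δ) 0 := by
  simp only [Fcore, Prod.smul_mk, Prod.mk_add_mk, zero_add, smul_eq_mul, mul_add,
    mul_smul_comm]

theorem wImmB_im {ξ : ℂ} (h : ξ ∈ Half) : 0 ≤ ((4 / 5 : ℂ) * ξ).im := by
  have := h.2
  rw [show (4 / 5 : ℂ) = ((4 / 5 : ℝ) : ℂ) by push_cast; ring, Complex.im_ofReal_mul]
  positivity

theorem wImmB_lin (a : Rt) {P : ℝ → ℂ} {P' : ℂ} {s : ℝ} (h : HasDerivAt P P' s) :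
    HasDerivAt (fun t => lin a (P t)) (lin a P') s :=
  ((Complex.reCLM.hasFDerivAt.comp_hasDerivAt s h).smul_const (e1 a)).add
    ((Complex.imCLM.hasFDerivAt.comp_hasDerivAt s h).smul_const (e2 a))

theorem wImmB_lin_smul (a : Rt) (c : ℝ) (z : ℂ) : lin a (c • z) = c • lin a z := by
  simp only [lin, Complex.smul_re, Complex.smul_im, smul_eq_mul, smul_add, mul_smul]

/-- The radial factor in the deep zone. -/
def wImmB_G (u : ℝ) : ℝ :=
  (1 - step (55 / 100) (65 / 100) u) / √(1 - u) + step (55 / 100) (65 / 100) u *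
    ((1 - step (7 / 10) (8 / 10) u) / √(1 - u) + 2 * step (7 / 10) (8 / 10) u)

theorem wImmB_G_large {u : ℝ} (h : 8 / 10 ≤ u) : wImmB_G u = 2 := by
  rw [wImmB_G, step_of_ge (by norm_num) (by linarith), step_of_ge (by norm_num) h]
  simp

theorem wImmB_G_pos (u : ℝ) : 0 < wImmB_G u := by
  rcases le_or_gt (8 / 10) u with h1 | h1
  · rw [wImmB_G_large h1]
    norm_num
  have hs : 0 < √(1 - u) := Real.sqrt_pos.2 (by linarith)
  have h2 := step_nonneg (55 / 100) (65 / 100) u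
  have h3 := step_le_one (55 / 100) (65 / 100) u
  have h4 := step_nonneg (7 / 10) (8 / 10) u
  have h5 : step (7 / 10) (8 / 10) u < 1 := step_lt_one (by norm_num) h1
  have h6 : 0 < (1 - step (7 / 10) (8 / 10) u) / √(1 - u) + 2 * step (7 / 10) (8 / 10) u := by
    have := div_pos (sub_pos.2 h5) hs
    linarith
  rw [wImmB_G]
  rcases h3.eq_or_lt with h7 | h7
  · rw [h7]
    simpa using h6
  · have := div_pos (sub_pos.2 h7) hs
    have := mul_nonneg h2 h6.le
    linarith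

theorem wImmB_G_diff {u : ℝ} (h : u ≤ 1) : DifferentiableAt ℝ wImmB_G u := by
  rcases h.eq_or_lt with rfl | h1
  · refine (differentiableAt_const (2 : ℝ)).congr_of_eventuallyEq ?_
    filter_upwards [lt_mem_nhds (show (8 / 10 : ℝ) < 1 by norm_num)] with s hs
    exact wImmB_G_large hs.le
  have h2 : DifferentiableAt ℝ (fun u : ℝ => √(1 - u)) u :=
    DifferentiableAt.sqrt (by fun_prop) (by linarith)
  have hs : √(1 - u) ≠ 0 := (Real.sqrt_pos.2 (by linarith)).ne'
  have h3 := (step_hasDerivAt (55 / 100) (65 / 100) u).differentiableAt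
  have h4 := (step_hasDerivAt (7 / 10) (8 / 10) u).differentiableAt
  exact (((differentiableAt_const _).sub h3).div h2 hs).add (h3.mul
    ((((differentiableAt_const _).sub h4).div h2 hs).add (h4.const_mul 2)))

theorem wImmB_deep0 (a : Rt) {η : ℂ} (hρ : ρf a.2 + 2 / 100 ≤ ρ0 η) (hb : bW η = 1)
    (hu : 1 / 2 ≤ uw a.2 η) :
    Wf a (fun _ => -1 / 2) 0 η 0 0 =
      (c0 a + lin a (wImmB_G (uw a.2 η) • (circ (6 / 10 * π) * (starRingEnd ℂ) (ωw a.2 η))),
        1 + uw a.2 η) := by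
  have e1 : step (2 / 10) (3 / 10) (uw a.2 η) = 1 := step_of_ge (by norm_num) (by linarith)
  have e2 : √(1 - uw a.2 η) = ‖ωw a.2 η‖ := by
    rw [uw, sub_sub_cancel, Real.sqrt_sq (norm_nonneg _)]
  rw [wImmB_Wf a hρ hb, e1, wImmB_lin_smul, wImmB_G, e2]
  simp only [zero_mul, add_zero, sub_self, mul_zero, Φa_core, deep, zero_smul]
  congr 1
  by_cases h0 : ωw a.2 η = 0
  · have e3 : step (55 / 100) (65 / 100) (uw a.2 η) = 1 :=
      step_of_ge (by norm_num) (by rw [uw, h0]; norm_num)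
    rw [e3]
    simp
  · have hn : ‖ωw a.2 η‖ ≠ 0 := norm_ne_zero_iff.2 h0
    have e3 : lin a (circ (2 * π * (3 / 10 + yw a.2 η))) =
        ‖ωw a.2 η‖⁻¹ • lin a (circ (6 / 10 * π) * (starRingEnd ℂ) (ωw a.2 η)) := by
      rw [← circ_yw a.2 (by linarith), ← Complex.real_smul, wImmB_lin_smul, inv_smul_smul₀ hn]
    rw [e3]
    simp only [div_eq_mul_inv]
    module

theorem wImmB_deep_l (a : Rt) {η : ℂ} (h0 : 0 ≤ η.im) (hρ : ρf a.2 + 2 / 100 ≤ ρ0 η)
    (hb : bW η = 1) (hu : 1 / 2 ≤ uw a.2 η) : ∃ c > (0 : ℝ),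
      HasDerivAt (fun l => Wf a (fun _ => -1 / 2) 0 η l 0) ((c • e3 a, 0) : E4) 0 := by
  have e1 : step (2 / 10) (3 / 10) (uw a.2 η) = 1 := step_of_ge (by norm_num) (by linarith)
  have e2 : φw a 0 η = -2 * π * ςj a.1 * bj a.1 (3 / 10 + yw a.2 η) := by
    rw [φw, step_of_ge (by norm_num) (by linarith)]
    ring
  have hy := yw_mem a.2 h0
  obtain ⟨c, hc, hd⟩ := Φa_core_deriv a (y := 3 / 10 + yw a.2 η)
    ⟨by linarith [hy.1], by linarith [hy.2]⟩
  have h2 := step_nonneg (55 / 100) (65 / 100) (uw a.2 η)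
  have h3 := step_le_one (55 / 100) (65 / 100) (uw a.2 η)
  refine ⟨(1 - step (55 / 100) (65 / 100) (uw a.2 η)) * c + step (55 / 100) (65 / 100) (uw a.2 η),
    ?_, ?_⟩
  · rcases h3.eq_or_lt with h7 | h7
    · rw [h7]
      simp
    · have := mul_pos (sub_pos.2 h7) hc
      linarith
  · have hd2 : HasDerivAt (fun l => deep a η l) (e3 a) 0 := by
      have k := (hasDerivAt_id (0 : ℝ)).smul_const (e3 a)
      rw [one_smul] at k
      exact k.const_add _
    have h4 := ((hd.const_smul (1 - step (55 / 100) (65 / 100) (uw a.2 η))).add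
      (hd2.const_smul (step (55 / 100) (65 / 100) (uw a.2 η)))).prodMk
      (hasDerivAt_const (0 : ℝ) (1 + uw a.2 η))
    rw [smul_smul, ← add_smul] at h4
    refine h4.congr_of_eventuallyEq (.of_forall fun l => ?_)
    simp only [wImmB_Wf a hρ hb, e1, e2, sub_self, zero_mul, zero_add, Pi.add_apply,
      Pi.smul_apply]

theorem Fcore_imm_deep (a : Rt) {ξ : ℂ} (h : ξ ∈ Half) (hu : 1 / 2 < uw a.2 ((4 / 5 : ℂ) * ξ)) :
    Injective (fderiv ℝ (Fcore a) (ξ, 0)) := by
  refine (injective_iff_map_eq_zero _).2 ?_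
  rintro ⟨v, δ⟩ hv
  have him := wImmB_im h
  have hF := (Fcore_smooth a).differentiable (by simp) (ξ, 0)
  have h1 := wImmB_line hF (v, 0)
  have h2 := wImmB_line hF (0, 1)
  simp only [wImmB_Fcore, mul_zero, smul_zero, add_zero, mul_one] at h1 h2
  suffices hh : (4 / 5 : ℂ) * v = 0 ∧ δ = 0 by
    rw [hh.2, (mul_eq_zero.1 hh.1).resolve_left (by norm_num)]
    rfl
  have hs : fderiv ℝ (Fcore a) (ξ, 0) (v, 0) + δ • fderiv ℝ (Fcore a) (ξ, 0) (0, 1) = 0 := by
    rw [← map_smul, ← map_add, ← hv]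
    simp
  generalize fderiv ℝ (Fcore a) (ξ, 0) (v, 0) = A at h1 hs
  generalize fderiv ℝ (Fcore a) (ξ, 0) (0, 1) = B at h2 hs
  generalize (4 / 5 : ℂ) * ξ = η at h1 h2 hu him
  generalize (4 / 5 : ℂ) * v = w at h1
  have hne := Half_ne him
  have hρ : ρf a.2 + 2 / 100 < ρ0 η := by
    by_contra hc
    have := (abs_lt.1 (uw_small a.2 (not_lt.1 hc))).2
    linarith
  have hb := bW_eventually him
  obtain ⟨c, hc, hd⟩ := wImmB_deep_l a him hρ.le hb.self_of_nhds hu.le
  obtain rfl := hd.unique h2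
  have hU := wImmB_line ((uw_contDiffAt a.2 hne).differentiableAt (by simp)) w
  have hΩ := wImmB_line ((ωw_contDiffAt a.2 hne).differentiableAt (by simp)) w
  have hu1 := (uw_mem a.2 him).2
  have hG : HasDerivAt wImmB_G (deriv wImmB_G (uw a.2 η)) (uw a.2 (η + (0 : ℝ) • w)) := by
    rw [zero_smul, add_zero]
    exact (wImmB_G_diff hu1).hasDerivAt
  have hW := (Complex.conjCLE.hasFDerivAt.comp_hasDerivAt (0 : ℝ) hΩ).const_mul
    (circ (6 / 10 * π))
  have h3 := ((wImmB_lin a ((hG.comp (0 : ℝ) hU).smul hW)).const_add (c0 a)).prodMk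
    (hU.const_add 1)
  have hev : ∀ᶠ x in 𝓝 η, Wf a (fun _ => -1 / 2) 0 x 0 0 =
      (c0 a + lin a (wImmB_G (uw a.2 x) • (circ (6 / 10 * π) * (starRingEnd ℂ) (ωw a.2 x))),
        1 + uw a.2 x) := by
    filter_upwards [hb, ρ0_smooth.continuous.continuousAt.eventually (lt_mem_nhds hρ),
      (uw_contDiffAt a.2 hne).continuousAt.eventually (lt_mem_nhds hu)] with x h4 h5 h6
    exact wImmB_deep0 a h5.le h4 h6.le
  obtain rfl := (h3.congr_of_eventuallyEq ((wImmB_tendsto η w).eventually hev)).unique h1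
  have k2 := congrArg Prod.snd hs
  have k1 := congrArg Prod.fst hs
  simp only [Prod.snd_add, Prod.smul_snd, smul_zero, add_zero, Prod.snd_zero] at k2
  simp only [Prod.fst_add, Prod.smul_fst, Prod.fst_zero, k2, mul_zero, zero_smul, add_zero,
    comp_apply, smul_smul, lin] at k1
  obtain ⟨k3, k4, k5⟩ := frame_indep a k1
  refine ⟨ωw_fderiv_inj a.2 hne (by linarith) ?_, (mul_eq_zero.1 k5).resolve_right hc.ne'⟩
  have k6 := Complex.ext (w := 0) k3 k4
  rw [smul_eq_zero, mul_eq_zero] at k6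
  rcases k6 with k6 | k6 | k6
  · exact absurd k6 (wImmB_G_pos _).ne'
  · exact absurd (norm_circ (6 / 10 * π)) (by rw [k6]; simp)
  · rw [map_zero]
    exact Complex.conjCLE.injective (k6.trans (map_zero _).symm)

/-- The branch of the across coordinate near the cut. -/
def wImmB_y (ty : Bool) (ξ : ℂ) : ℝ := -(Complex.log (-ωw ty ξ)).im / (2 * π) - 1 / 2

theorem wImmB_branch (ty : Bool) {ξ : ℂ} (h : ωw ty ξ ≠ 0) : ∃ k : ℤ, yw ty ξ =
    wImmB_y ty ξ - cu (uw ty ξ) * Real.sin (2 * π * wImmB_y ty ξ) / (2 * π) + k := by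
  have h1 := Complex.arg_neg_coe_angle h
  rw [← Real.Angle.coe_add, Real.Angle.angle_eq_iff_two_pi_dvd_sub] at h1
  obtain ⟨k, hk⟩ := h1
  have hp := Real.pi_pos
  have e : y0 ty ξ = wImmB_y ty ξ + ((k + 1 : ℤ) : ℝ) := by
    rw [y0, wImmB_y, Complex.log_im]
    push_cast
    field_simp
    linarith
  refine ⟨k + 1, ?_⟩
  rw [yw, e, mul_add, mul_comm (2 * π) ((k + 1 : ℤ) : ℝ), Real.sin_add_int_mul_two_pi]
  ring

theorem Fcore_imm_cut (a : Rt) {ξ : ℂ} (h : ξ ∈ Half) (hu : uw a.2 ((4 / 5 : ℂ) * ξ) < 11 / 20)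
    (hs : ωw a.2 ((4 / 5 : ℂ) * ξ) ∉ Complex.slitPlane) :
    Injective (fderiv ℝ (Fcore a) (ξ, 0)) := by
  refine (injective_iff_map_eq_zero _).2 ?_
  rintro ⟨v, δ⟩ hv
  have him := wImmB_im h
  have hF := (Fcore_smooth a).differentiable (by simp) (ξ, 0)
  have h1 := wImmB_line hF (v, δ)
  simp only [wImmB_Fcore, hv] at h1
  suffices hh : (4 / 5 : ℂ) * v = 0 ∧ δ = 0 by
    rw [hh.2, (mul_eq_zero.1 hh.1).resolve_left (by norm_num)]
    rfl
  generalize (4 / 5 : ℂ) * ξ = η at h1 hu him hs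
  generalize (4 / 5 : ℂ) * v = w at h1
  have hne := Half_ne him
  have hp := Real.pi_pos
  have h0 : ωw a.2 η ≠ 0 := fun h0 => by
    rw [uw, h0] at hu
    norm_num at hu
  rw [Complex.mem_slitPlane_iff, not_or, not_lt, not_not] at hs
  have hre : (ωw a.2 η).re < 0 := lt_of_le_of_ne hs.1 fun h2 => h0 (Complex.ext h2 hs.2)
  have hρ : ρf a.2 + 2 / 100 < ρ0 η := by
    by_contra hc
    have h2 := ϱw_big a.2 (r := ‖η‖) (not_lt.1 hc)
    have h3 := ωw_re_pos a.2 (ξ := η) (by rw [norm_ξt]; linarith)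
    linarith
  have hb := bW_eventually him
  have hU := wImmB_line ((uw_contDiffAt a.2 hne).differentiableAt (by simp)) w
  have hΩ := wImmB_line ((ωw_contDiffAt a.2 hne).differentiableAt (by simp)) w
  have hC := wImmB_line ((cos_φw_contDiffAt a 0 hne h0).differentiableAt (by simp)) w
  have hS := wImmB_line ((sin_φw_contDiffAt a 0 hne h0).differentiableAt (by simp)) w
  have hHd : DifferentiableAt ℝ (fun x => (1 - step (2 / 10) (3 / 10) (uw a.2 x)) *
      (-1 / 2 + Hs (1 / 4 - sg a.2 * ρ0 x))) η := by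
    have k1 := (uw_contDiffAt a.2 hne).differentiableAt (by simp)
    have k2 := ρ0_smooth.differentiable (by simp)
    have k3 := Hs_contDiff.differentiable (by simp)
    have k4 := (step_contDiff (2 / 10) (3 / 10)).differentiable (by simp)
    fun_prop
  have hH := wImmB_line hHd w
  have hL : HasDerivAt (fun s : ℝ => s * δ) δ 0 := by
    simpa using (hasDerivAt_id (0 : ℝ)).mul_const δ
  have hlog := hΩ.neg.clog_real (by
    rw [Complex.mem_slitPlane_iff]
    left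
    simpa using hre)
  have hy : HasDerivAt (fun s : ℝ => wImmB_y a.2 (η + s • w))
      (-(fderiv ℝ (ωw a.2) η w / ωw a.2 η).im / (2 * π)) 0 := by
    have k1 := (((Complex.imCLM.hasFDerivAt.comp_hasDerivAt (0 : ℝ) hlog).neg).div_const
      (2 * π)).sub_const (1 / 2)
    simpa only [Pi.neg_apply, zero_smul, add_zero, neg_div_neg_eq, Complex.imCLM_apply] using! k1
  have hcu : HasDerivAt cu (deriv cu (uw a.2 η)) (uw a.2 (η + (0 : ℝ) • w)) := by
    rw [zero_smul, add_zero]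
    exact (cu_contDiff.differentiable (by simp) _).hasDerivAt
  have hY := (hy.sub (((hcu.comp (0 : ℝ) hU).mul (hy.const_mul (2 * π)).sin).div_const
    (2 * π))).const_add (3 / 10)
  have hX := (hL.mul hC).const_add (-1 / 2)
  have hZ := hH.add ((hL.const_mul 25).mul hS)
  have hΦ := ((Φa_smooth a).differentiable (by simp) _).hasFDerivAt.comp_hasDerivAt (0 : ℝ)
    (hX.prodMk (hY.prodMk hZ))
  have h3 := hΦ.prodMk (hU.const_add 1)
  have hev : ∀ᶠ x in 𝓝 η, ∀ l, Wf a (fun _ => -1 / 2) 0 x l 0 =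
      (Φa a (-1 / 2 + l * Real.cos (φw a 0 x)) (3 / 10 + (wImmB_y a.2 x -
        cu (uw a.2 x) * Real.sin (2 * π * wImmB_y a.2 x) / (2 * π)))
        ((1 - step (2 / 10) (3 / 10) (uw a.2 x)) * (-1 / 2 + Hs (1 / 4 - sg a.2 * ρ0 x)) +
            25 * l * Real.sin (φw a 0 x)), 1 + uw a.2 x) := by
    filter_upwards [hb, ρ0_smooth.continuous.continuousAt.eventually (lt_mem_nhds hρ),
      (uw_contDiffAt a.2 hne).continuousAt.eventually (gt_mem_nhds hu),
      (ωw_contDiffAt a.2 hne).continuousAt.eventually_ne h0] with x h4 h5 h6 h7 l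
    obtain ⟨k, hk⟩ := wImmB_branch a.2 h7
    rw [wImmB_Wf a h5.le h4, step_of_le (a := 55 / 100) (by norm_num) (by linarith), hk,
      ← add_assoc (3 / 10 : ℝ), sub_zero, one_smul, zero_smul, add_zero,
      ← Φa_periodic a _ (3 / 10 + (wImmB_y a.2 x -
        cu (uw a.2 x) * Real.sin (2 * π * wImmB_y a.2 x) / (2 * π))) _ 0 k, Int.cast_zero,
      add_zero]
  have h4 := (h3.congr_of_eventuallyEq
    (((wImmB_tendsto η w).eventually hev).mono fun s hs => hs (s * δ))).unique h1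
  have k2 := congrArg Prod.snd h4
  have k1 := congrArg Prod.fst h4
  simp only [Prod.snd_zero] at k2
  simp only [Prod.fst_zero, k2, mul_zero, zero_smul, add_zero, zero_mul, zero_add, comp_apply,
    Pi.mul_apply, Pi.add_apply, Pi.sub_apply] at k1
  have hH3 : |(1 - step (2 / 10) (3 / 10) (uw a.2 η)) * (-1 / 2 + Hs (1 / 4 - sg a.2 * ρ0 η))| ≤
      3 := by
    have k3 := step_nonneg (2 / 10) (3 / 10) (uw a.2 η)
    have k4 := step_le_one (2 / 10) (3 / 10) (uw a.2 η)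
    have k5 := abs_le.1 (abs_Hs_le (1 / 4 - sg a.2 * ρ0 η))
    rw [abs_le]
    constructor <;> nlinarith [k5.1, k5.2]
  have k3 := (injective_iff_map_eq_zero _).1
    (Φa_imm a (mem_Dom_fst (by norm_num [abs_div]) (by norm_num [abs_div])) hH3) _ k1
  simp only [Prod.mk_eq_zero] at k3
  obtain ⟨k4, k5, k6⟩ := k3
  have hc := cu_mem (uw_mem a.2 him).1
  have k7 : (fderiv ℝ (ωw a.2) η w / ωw a.2 η).im = 0 := by
    have k8 := Real.cos_le_one (2 * π * wImmB_y a.2 η)
    have k9 : 0 < 1 - cu (uw a.2 η) * Real.cos (2 * π * wImmB_y a.2 η) := by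
      nlinarith [hc.1, hc.2]
    generalize (fderiv ℝ (ωw a.2) η w / ωw a.2 η).im = t at k5
    have k10 : (1 - cu (uw a.2 η) * Real.cos (2 * π * wImmB_y a.2 η)) * t = 0 := by
      field_simp at k5
      linarith
    exact (mul_eq_zero.1 k10).resolve_left k9.ne'
  have k8 := hU.unique (hΩ.norm_sq.const_sub 1)
  rw [k2, zero_smul, add_zero, Complex.inner, Complex.mul_re, Complex.conj_re, Complex.conj_im,
    hs.2] at k8
  rw [Complex.div_im, hs.2] at k7
  have k9 : fderiv ℝ (ωw a.2) η w = 0 := by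
    refine Complex.ext ?_ ?_
    · have : (fderiv ℝ (ωw a.2) η w).re * (ωw a.2 η).re = 0 := by linarith
      exact (mul_eq_zero.1 this).resolve_right hre.ne
    · have k10 := (Complex.normSq_pos.2 h0).ne'
      simp only [mul_zero, zero_div, sub_zero, div_eq_zero_iff, k10, or_false, mul_eq_zero,
        hre.ne] at k7
      exact k7
  have hw0 : w = 0 := ωw_fderiv_inj a.2 hne (by linarith) (k9.trans (map_zero _).symm)
  refine ⟨hw0, ?_⟩
  rw [hw0, map_zero, zero_add] at k6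
  have k10 := Real.sin_sq_add_cos_sq (φw a 0 η)
  have k11 : δ * (Real.sin (φw a 0 η) ^ 2 + Real.cos (φw a 0 η) ^ 2) = 0 := by
    linear_combination (Real.sin (φw a 0 η) / 25) * k6 + Real.cos (φw a 0 η) * k4
  rwa [k10, mul_one] at k11

end Pool.Agent.Lib.MP_1d0d1b_gt
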