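import Pool.Agent.Lib.MP_1d0d1b_gt.WZone
import Pool.Agent.Lib.MP_1d0d1b_gt.Phi
import Pool.Agent.Lib.MP_1d0d1b_gt.DiscB

open Set Function Filter Topology
open scoped ContDiff Real

noncomputable section

namespace Pool.Agent.Lib.MP_1d0d1b_gt

theorem WSmooth_mul {E : Type*} [NormedAddCommGroup E] [NormedSpace ℝ E] {f g : E → ℝ} {x : E}
    (hf : ContDiffAt ℝ ∞ f x) (h : (∀ᶠ y in 𝓝 x, f y = 0) ∨ ContDiffAt ℝ ∞ g x) :
    ContDiffAt ℝ ∞ (fun y => f y * g y) x := by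
  rcases h with h | h
  · refine (contDiffAt_const (c := (0 : ℝ))).congr_of_eventuallyEq ?_
    filter_upwards [h] with y hy
    rw [hy, zero_mul]
  · exact hf.mul h

theorem WSmooth_step {E : Type*} [NormedAddCommGroup E] [NormedSpace ℝ E] {f : E → ℝ} {x : E}
    (a b : ℝ) (hf : ContDiffAt ℝ ∞ f x) : ContDiffAt ℝ ∞ (fun y => step a b (f y)) x :=
  (step_contDiff a b).contDiffAt.comp x hf

theorem WSmooth_ofReal {E : Type*} [NormedAddCommGroup E] [NormedSpace ℝ E] {f : E → ℝ} {x : E}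
    (hf : ContDiffAt ℝ ∞ f x) : ContDiffAt ℝ ∞ (fun y => (f y : ℂ)) x :=
  Complex.ofRealCLM.contDiff.contDiffAt.comp x hf

theorem WSmooth_re {E : Type*} [NormedAddCommGroup E] [NormedSpace ℝ E] {f : E → ℂ} {x : E}
    (hf : ContDiffAt ℝ ∞ f x) : ContDiffAt ℝ ∞ (fun y => (f y).re) x :=
  Complex.reCLM.contDiff.contDiffAt.comp x hf

theorem WSmooth_im {E : Type*} [NormedAddCommGroup E] [NormedSpace ℝ E] {f : E → ℂ} {x : E}
    (hf : ContDiffAt ℝ ∞ f x) : ContDiffAt ℝ ∞ (fun y => (f y).im) x :=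
  Complex.imCLM.contDiff.contDiffAt.comp x hf

theorem WSmooth_circ {E : Type*} [NormedAddCommGroup E] [NormedSpace ℝ E] {f : E → ℝ} {x : E}
    (hf : ContDiffAt ℝ ∞ f x) : ContDiffAt ℝ ∞ (fun y => circ (f y)) x :=
  circ_contDiff.contDiffAt.comp x hf

theorem WSmooth_arg {z : ℂ} (h : z ∈ Complex.slitPlane) : ContDiffAt ℝ ∞ Complex.arg z := by
  have h1 : ContDiffAt ℝ ∞ Complex.log z := (Complex.contDiffAt_log h).restrict_scalars ℝ
  have h2 := WSmooth_im h1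
  simpa only [Complex.log_im] using h2

/-- In the saturated zone the Cayley coordinate lies in the right half plane. -/
theorem WSmooth_sat (ty : Bool) {ξ : ℂ} (h : ρ0 ξ ≤ ρf ty + 2 / 100) :
    ωw ty ξ ∈ Complex.slitPlane := by
  have h1 : 30 < ϱw ty ‖ξ‖ := ϱw_big ty h
  exact .inl (ωw_re_pos ty (by rw [norm_ξt]; linarith))

/-- A smooth branch across the cut. -/
theorem WSmooth_cut (ty : Bool) {ξ : ℂ} (h : ξ ≠ -Complex.I / 10) (h0 : ωw ty ξ ≠ 0)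
    (hs : ωw ty ξ ∉ Complex.slitPlane) : ∃ Y : ℂ → ℝ, ContDiffAt ℝ ∞ Y ξ ∧ Y ξ = -1 / 2 ∧
      ∀ᶠ x in 𝓝 ξ, yw ty x = Y x ∨ yw ty x = Y x + 1 := by
  have hp := Real.pi_pos
  rw [Complex.mem_slitPlane_iff, not_or, not_not, not_lt] at hs
  have hre : (ωw ty ξ).re < 0 := lt_of_le_of_ne hs.1 fun e => h0 (Complex.ext e hs.2)
  have hω := ωw_contDiffAt ty h
  have hs' : -ωw ty ξ ∈ Complex.slitPlane := .inl (by rw [Complex.neg_re]; linarith)
  have hA : ContDiffAt ℝ ∞ (fun x => Complex.arg (-ωw ty x)) ξ :=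
    ContDiffAt.comp (g := Complex.arg) (f := fun x => -ωw ty x) ξ (WSmooth_arg hs') hω.neg
  have hB : ContDiffAt ℝ ∞ (fun x => -Complex.arg (-ωw ty x) / (2 * π) - 1 / 2) ξ :=
    (hA.neg.div_const _).sub contDiffAt_const
  have hA0 : Complex.arg (-ωw ty ξ) = 0 :=
    Complex.arg_eq_zero_iff.2 ⟨by rw [Complex.neg_re]; linarith, by rw [Complex.neg_im, hs.2, neg_zero]⟩
  refine ⟨fun x => (-Complex.arg (-ωw ty x) / (2 * π) - 1 / 2) - cu (uw ty x) *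
    Real.sin (2 * π * (-Complex.arg (-ωw ty x) / (2 * π) - 1 / 2)) / (2 * π), ?_, ?_, ?_⟩
  · refine hB.sub (ContDiffAt.div_const (ContDiffAt.mul ?_ ?_) _)
    · exact cu_contDiff.contDiffAt.comp ξ (uw_contDiffAt ty h)
    · exact Real.contDiff_sin.contDiffAt.comp ξ (contDiffAt_const.mul hB)
  · simp only [hA0]
    rw [show 2 * π * (-0 / (2 * π) - 1 / 2) = -π by ring, Real.sin_neg, Real.sin_pi]
    ring
  · have hev : ∀ᶠ x in 𝓝 ξ, (ωw ty x).re < 0 :=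
      (WSmooth_re hω).continuousAt.eventually_lt continuousAt_const hre
    filter_upwards [hev] with x hx
    have hy : y0 ty x = -Complex.arg (-ωw ty x) / (2 * π) - 1 / 2 ∨
        y0 ty x = -Complex.arg (-ωw ty x) / (2 * π) - 1 / 2 + 1 := by
      unfold y0
      rcases lt_trichotomy (ωw ty x).im 0 with h1 | h1 | h1
      · right
        rw [Complex.arg_neg_eq_arg_add_pi_of_im_neg h1]
        field_simp
        ring
      · left
        rw [Complex.arg_eq_pi_iff.2 ⟨hx, h1⟩, Complex.arg_eq_zero_iff.2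
          ⟨by rw [Complex.neg_re]; linarith, by rw [Complex.neg_im, h1, neg_zero]⟩]
        field_simp
        ring
      · left
        rw [Complex.arg_neg_eq_arg_sub_pi_of_im_pos h1]
        field_simp
        ring
    unfold yw
    rcases hy with hy | hy
    · left
      rw [hy]
    · right
      rw [hy, mul_add, mul_one, Real.sin_add_two_pi]
      ring

/-- `Φa` composed with the circle-valued coordinate is smooth across the branch cut. -/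
theorem Φa_yw_contDiffAt (a : Rt) {ξ : ℂ} (h : ξ ≠ -Complex.I / 10) (h0 : ωw a.2 ξ ≠ 0)
    (X hh : ℝ) : ContDiffAt ℝ ∞
      (fun q : ℝ × ℂ × ℝ => Φa a q.1 (3 / 10 + yw a.2 q.2.1) q.2.2) (X, ξ, hh) := by
  have key : ∀ Y : ℂ → ℝ, ContDiffAt ℝ ∞ Y ξ → ContDiffAt ℝ ∞
      (fun q : ℝ × ℂ × ℝ => Φa a q.1 (3 / 10 + Y q.2.1) q.2.2) (X, ξ, hh) := fun Y hY => by
    have h1 : ContDiffAt ℝ ∞ (fun q : ℝ × ℂ × ℝ => Y q.2.1) (X, ξ, hh) :=
      ContDiffAt.comp (g := Y) (f := fun q : ℝ × ℂ × ℝ => q.2.1) (X, ξ, hh) hY (by fun_prop)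
    have h2 : ContDiffAt ℝ ∞ (fun q : ℝ × ℂ × ℝ => q.2.2) (X, ξ, hh) := by fun_prop
    exact ContDiffAt.comp (g := fun q : ℝ × ℝ × ℝ => Φa a q.1 q.2.1 q.2.2)
      (f := fun q : ℝ × ℂ × ℝ => (q.1, 3 / 10 + Y q.2.1, q.2.2)) (X, ξ, hh)
      (Φa_smooth a).contDiffAt (contDiffAt_fst.prodMk ((contDiffAt_const.add h1).prodMk h2))
  by_cases hs : ωw a.2 ξ ∈ Complex.slitPlane
  · exact key _ (yw_contDiffAt a.2 h hs)
  · obtain ⟨Y, hY, -, hev⟩ := WSmooth_cut a.2 h h0 hs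
    refine (key Y hY).congr_of_eventuallyEq ?_
    have hc : ContinuousAt (fun q : ℝ × ℂ × ℝ => q.2.1) (X, ξ, hh) := by fun_prop
    filter_upwards [hc.eventually hev] with q hq
    rcases hq with hq | hq
    · rw [hq]
    · have := Φa_periodic a q.1 (3 / 10 + Y q.2.1) q.2.2 0 1
      rw [hq, ← this]
      congr 1 <;> push_cast <;> ring

theorem WSmooth_bj (j : Fin 2) : ContDiff ℝ ∞ (bj j) := by
  unfold bj
  split_ifs
  · exact step_contDiff _ _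
  · exact contDiff_const.sub ((step_contDiff _ _).comp contDiff_neg)

theorem WSmooth_bj_zero (j : Fin 2) {y : ℝ} (h : y ≤ -1 / 40) : bj j y = 0 := by
  unfold bj
  split_ifs
  · exact step_of_le (by norm_num) h
  · rw [step_of_ge (by norm_num) (by linarith), sub_self]

theorem WSmooth_bj_one (j : Fin 2) {y : ℝ} (h : 1 / 40 ≤ y) : bj j y = 1 := by
  unfold bj
  split_ifs
  · exact step_of_ge (by norm_num) h
  · rw [step_of_le (by norm_num) (by linarith), sub_zero]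

theorem WSmooth_ϑw (a : Rt) (ρe : ℝ) (ξ : ℂ) : ContDiffAt ℝ ∞ (ϑw a ρe) ξ :=
  contDiffAt_const.mul (WSmooth_step _ _ (ρ1_smooth a.2 ρe).contDiffAt)

theorem WSmooth_χw (ty : Bool) {ξ : ℂ} (h : ξ ≠ -Complex.I / 10)
    (hs : ωw ty ξ ∈ Complex.slitPlane) : ContDiffAt ℝ ∞ (χw ty) ξ :=
  WSmooth_step _ _ (yw_contDiffAt ty h hs)

theorem WSmooth_φw (a : Rt) (ρe : ℝ) {ξ : ℂ} (h : ξ ≠ -Complex.I / 10)
    (hs : ωw a.2 ξ ∈ Complex.slitPlane) : ContDiffAt ℝ ∞ (φw a ρe) ξ := by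
  have hu := uw_contDiffAt a.2 h
  exact ((contDiffAt_const.sub (WSmooth_step _ _ hu)).mul
    ((WSmooth_ϑw a ρe ξ).mul (WSmooth_χw a.2 h hs))).add ((WSmooth_step _ _ hu).mul
      (contDiffAt_const.mul ((WSmooth_bj a.1).contDiffAt.comp ξ
        (contDiffAt_const.add (yw_contDiffAt a.2 h hs)))))

theorem WSmooth_φw_cut (a : Rt) (ρe : ℝ) {ξ : ℂ} (h : ξ ≠ -Complex.I / 10) (h0 : ωw a.2 ξ ≠ 0)
    (hs : ωw a.2 ξ ∉ Complex.slitPlane) :
    ∀ᶠ x in 𝓝 ξ, Real.cos (φw a ρe x) = 1 ∧ Real.sin (φw a ρe x) = 0 := by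
  obtain ⟨Y, hY, hY0, hev⟩ := WSmooth_cut a.2 h h0 hs
  have h1 : ρf a.2 + 2 / 100 < ρ0 ξ := not_le.1 fun h1 => hs (WSmooth_sat a.2 h1)
  have e1 : ∀ᶠ x in 𝓝 ξ, ρf a.2 + 2 / 100 < ρ0 x :=
    continuousAt_const.eventually_lt ρ0_smooth.continuous.continuousAt h1
  have e2 : ∀ᶠ x in 𝓝 ξ, Y x < -4 / 10 :=
    hY.continuousAt.eventually_lt continuousAt_const (by rw [hY0]; norm_num)
  have e3 : ∀ᶠ x in 𝓝 ξ, -6 / 10 < Y x :=
    continuousAt_const.eventually_lt hY.continuousAt (by rw [hY0]; norm_num)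
  filter_upwards [hev, e1, e2, e3] with x hx x1 x2 x3
  have f1 := (ρf_mem a.2).1
  obtain ⟨f2, f3, f4⟩ := ρab a.2
  have hϑ : ϑw a ρe x = -2 * π * ςj a.1 := by
    unfold ϑw
    rw [ρ1_eq ρe (by linarith), step_of_ge (by norm_num) (by linarith), mul_one]
  rcases hx with hx | hx
  · have : φw a ρe x = 0 := by
      unfold φw χw
      rw [hx, step_of_le (a := 0) (by norm_num) (by linarith), WSmooth_bj_zero _ (by linarith)]
      ring
    rw [this, Real.cos_zero, Real.sin_zero]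
    exact ⟨rfl, rfl⟩
  · have : φw a ρe x = -2 * π * ςj a.1 := by
      unfold φw χw
      rw [hx, step_of_ge (a := 0) (by norm_num) (by linarith), WSmooth_bj_one _ (by linarith), hϑ]
      ring
    rw [this]
    rcases ςj_cases a.1 with e | e
    · rw [e, show -2 * π * 1 = -(2 * π) by ring, Real.cos_neg, Real.sin_neg, Real.cos_two_pi,
        Real.sin_two_pi, neg_zero]
      exact ⟨rfl, rfl⟩
    · rw [e, show -2 * π * -1 = 2 * π by ring, Real.cos_two_pi, Real.sin_two_pi]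
      exact ⟨rfl, rfl⟩

theorem cos_φw_contDiffAt (a : Rt) (ρe : ℝ) {ξ : ℂ} (h : ξ ≠ -Complex.I / 10)
    (h0 : ωw a.2 ξ ≠ 0) : ContDiffAt ℝ ∞ (fun x => Real.cos (φw a ρe x)) ξ := by
  by_cases hs : ωw a.2 ξ ∈ Complex.slitPlane
  · exact Real.contDiff_cos.contDiffAt.comp ξ (WSmooth_φw a ρe h hs)
  · refine (contDiffAt_const (c := (1 : ℝ))).congr_of_eventuallyEq ?_
    filter_upwards [WSmooth_φw_cut a ρe h h0 hs] with x hx
    exact hx.1

theorem sin_φw_contDiffAt (a : Rt) (ρe : ℝ) {ξ : ℂ} (h : ξ ≠ -Complex.I / 10)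
    (h0 : ωw a.2 ξ ≠ 0) : ContDiffAt ℝ ∞ (fun x => Real.sin (φw a ρe x)) ξ := by
  by_cases hs : ωw a.2 ξ ∈ Complex.slitPlane
  · exact Real.contDiff_sin.contDiffAt.comp ξ (WSmooth_φw a ρe h hs)
  · refine (contDiffAt_const (c := (0 : ℝ))).congr_of_eventuallyEq ?_
    filter_upwards [WSmooth_φw_cut a ρe h h0 hs] with x hx
    exact hx.2

theorem WSmooth_νR : ContDiff ℝ ∞ νR :=
  (step_contDiff _ _).mul (contDiff_const.sub (step_contDiff _ _))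

theorem WSmooth_νκ : ContDiff ℝ ∞ νκ := contDiff_const.sub (step_contDiff _ _)

theorem WSmooth_Cay (c : ℝ) : ContDiff ℝ ∞ fun l : ℝ => Cay ((c * l : ℝ) : ℂ) := by
  have h1 : ContDiff ℝ ∞ fun l : ℝ => ((c * l : ℝ) : ℂ) :=
    Complex.ofRealCLM.contDiff.comp (contDiff_const.mul contDiff_id)
  unfold Cay
  simp only [div_eq_mul_inv]
  refine (contDiff_const.sub h1).mul (ContDiff.inv (contDiff_const.add h1) fun l e => ?_)
  have := congrArg Complex.im e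
  simp at this

theorem WSmooth_Zw (a : Rt) (ρe : ℝ) {ξ : ℂ} (h : ξ ≠ -Complex.I / 10)
    (hs : ωw a.2 ξ ∈ Complex.slitPlane) (l : ℝ) :
    ContDiffAt ℝ ∞ (fun q : ℂ × ℝ => Zw a ρe q.1 q.2) (ξ, l) := by
  have hρ : ContDiffAt ℝ ∞ (fun q : ℂ × ℝ => ρ1 a.2 ρe q.1) (ξ, l) :=
    ((ρ1_smooth a.2 ρe).comp contDiff_fst).contDiffAt
  have hχ : ContDiffAt ℝ ∞ (fun q : ℂ × ℝ => χw a.2 q.1) (ξ, l) :=
    ContDiffAt.comp (g := χw a.2) (f := Prod.fst) (ξ, l) (WSmooth_χw a.2 h hs) contDiffAt_fst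
  have hϑ : ContDiffAt ℝ ∞ (fun q : ℂ × ℝ => ϑw a ρe q.1) (ξ, l) :=
    ContDiffAt.comp (g := ϑw a ρe) (f := Prod.fst) (ξ, l) (WSmooth_ϑw a ρe ξ) contDiffAt_fst
  have hν : ContDiffAt ℝ ∞ (fun q : ℂ × ℝ => νR (ρ1 a.2 ρe q.1)) (ξ, l) :=
    WSmooth_νR.contDiffAt.comp (ξ, l) hρ
  have hC : ContDiffAt ℝ ∞ (fun q : ℂ × ℝ => Cay ((sg a.2 * q.2 : ℝ) : ℂ)) (ξ, l) :=
    ((WSmooth_Cay (sg a.2)).comp contDiff_snd).contDiffAt
  have hI : ContDiffAt ℝ ∞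
      (fun q : ℂ × ℝ => -Complex.I * ((sg a.2 * ρ1 a.2 ρe q.1 : ℝ) : ℂ)) (ξ, l) :=
    contDiffAt_const.mul (WSmooth_ofReal (contDiffAt_const.mul hρ))
  exact (hI.mul (contDiffAt_const.add ((WSmooth_ofReal hχ).mul
    ((WSmooth_circ hϑ).sub contDiffAt_const)))).add ((WSmooth_circ (hϑ.mul hχ)).mul
      ((WSmooth_ofReal ((contDiffAt_const.sub hν).mul contDiffAt_snd)).add
        (((WSmooth_ofReal hν).mul hI).mul (hC.sub contDiffAt_const))))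

theorem WSmooth_νκ_zone (a : Rt) (ρe : ℝ) (ξ : ℂ) :
    (∀ᶠ x in 𝓝 ξ, νκ (ρ1 a.2 ρe x) = 0) ∨ ωw a.2 ξ ∈ Complex.slitPlane := by
  have f1 := (ρf_mem a.2).1
  obtain ⟨f2, f3, f4⟩ := ρab a.2
  rcases le_or_gt (ρ0 ξ) (ρf a.2 + 2 / 100) with h | h
  · exact .inr (WSmooth_sat a.2 h)
  · left
    filter_upwards [continuousAt_const.eventually_lt ρ0_smooth.continuous.continuousAt h] with x hx
    unfold νκ
    rw [ρ1_eq ρe (by linarith), step_of_ge (by norm_num) (by linarith), sub_self]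

theorem Xw_contDiffAt (a : Rt) {Xk : ℝ → ℝ} (hX : ContDiffOn ℝ ∞ Xk (Ioo (-1 / 50) (1 / 50)))
    (ρe : ℝ) {ξ : ℂ} (h : ξ ≠ -Complex.I / 10) (h0 : ωw a.2 ξ ≠ 0) (l₁ l₂ : ℝ) :
    ContDiffAt ℝ ∞ (fun q : ℂ × ℝ × ℝ => Xw a Xk ρe q.1 q.2.1 q.2.2) (ξ, l₁, l₂) := by
  have lift : ∀ {f : ℂ → ℝ}, ContDiffAt ℝ ∞ f ξ →
      ContDiffAt ℝ ∞ (fun q : ℂ × ℝ × ℝ => f q.1) (ξ, l₁, l₂) := fun {f} hf =>
    ContDiffAt.comp (g := f) (f := Prod.fst) (ξ, l₁, l₂) hf contDiffAt_fst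
  have hc : ContinuousAt (fun q : ℂ × ℝ × ℝ => q.1) (ξ, l₁, l₂) := continuousAt_fst
  have hst := lift (WSmooth_step (ρb a.2) (ρa a.2) ρ0_smooth.contDiffAt)
  have hν := lift (WSmooth_νκ.contDiffAt.comp ξ (ρ1_smooth a.2 ρe).contDiffAt)
  have hcos := lift (cos_φw_contDiffAt a ρe h h0)
  have f1 := (ρf_mem a.2).1
  obtain ⟨f2, f3, f4⟩ := ρab a.2
  have h1 : ContDiffAt ℝ ∞ (fun q : ℂ × ℝ × ℝ => q.2.1) (ξ, l₁, l₂) := by fun_prop
  have h2 : ContDiffAt ℝ ∞ (fun q : ℂ × ℝ × ℝ => q.2.2) (ξ, l₁, l₂) := by fun_prop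
  refine (hst.mul (((contDiffAt_const.sub hν).mul (contDiffAt_const.add (h1.mul hcos))).add
    (WSmooth_mul hν ?_))).add (WSmooth_mul (contDiffAt_const.sub hst) ?_)
  · rcases WSmooth_νκ_zone a ρe ξ with hz | hz
    · exact .inl (hc.eventually hz)
    · refine .inr (S1_contDiff.contDiffAt.comp _ (WSmooth_re ?_))
      exact ContDiffAt.comp (g := fun q : ℂ × ℝ => Zw a ρe q.1 q.2)
        (f := fun q : ℂ × ℝ × ℝ => (q.1, q.2.1)) (ξ, l₁, l₂) (WSmooth_Zw a ρe h hz l₁) (by fun_prop)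
  · rcases le_or_gt (ρ0 ξ) (ρf a.2 + 2 / 100) with hz | hz
    · refine .inr (ContDiffAt.add (lift (f := fun x => Xk (yw a.2 x)) ?_) h2)
      have hy := abs_lt.1 (abs_yw_sat a.2 hz)
      exact (hX.contDiffAt (Ioo_mem_nhds (by linarith [hy.1]) hy.2)).comp ξ
        (yw_contDiffAt a.2 h (WSmooth_sat a.2 hz))
    · left
      filter_upwards [hc.eventually
        (continuousAt_const.eventually_lt ρ0_smooth.continuous.continuousAt hz)] with x hx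
      rw [step_of_ge f3 (by linarith), sub_self]

theorem hw_contDiffAt (a : Rt) (ρe : ℝ) {ξ : ℂ} (h : ξ ≠ -Complex.I / 10) (h0 : ωw a.2 ξ ≠ 0)
    (l₁ : ℝ) : ContDiffAt ℝ ∞ (fun q : ℂ × ℝ => hw a ρe q.1 q.2) (ξ, l₁) := by
  have lift : ∀ {f : ℂ → ℝ}, ContDiffAt ℝ ∞ f ξ →
      ContDiffAt ℝ ∞ (fun q : ℂ × ℝ => f q.1) (ξ, l₁) := fun {f} hf =>
    ContDiffAt.comp (g := f) (f := Prod.fst) (ξ, l₁) hf contDiffAt_fst
  have hc : ContinuousAt (fun q : ℂ × ℝ => q.1) (ξ, l₁) := continuousAt_fst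
  have hρ := lift (ρ1_smooth a.2 ρe).contDiffAt
  have hν := lift (WSmooth_νκ.contDiffAt.comp ξ (ρ1_smooth a.2 ρe).contDiffAt)
  have hsin := lift (sin_φw_contDiffAt a ρe h h0)
  have hu := lift (WSmooth_step (2 / 10) (3 / 10) (uw_contDiffAt a.2 h))
  refine ((contDiffAt_const.sub hν).mul (((contDiffAt_const.sub hu).mul (contDiffAt_const.add
    (Hs_contDiff.contDiffAt.comp _ (contDiffAt_const.sub (contDiffAt_const.mul hρ))))).add
      ((contDiffAt_const.mul contDiffAt_snd).mul hsin))).add (WSmooth_mul hν ?_)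
  rcases WSmooth_νκ_zone a ρe ξ with hz | hz
  · exact .inl (hc.eventually hz)
  · exact .inr (contDiffAt_const.add (WSmooth_im (WSmooth_Zw a ρe h hz l₁)))

theorem Tw_contDiffAt (a : Rt) (ρe : ℝ) {ξ : ℂ} (h : ξ ≠ -Complex.I / 10) :
    ContDiffAt ℝ ∞ (Tw a ρe) ξ :=
  (contDiffAt_const.sub (contDiffAt_const.mul (χh_contDiff.contDiffAt.comp ξ
    (contDiffAt_const.sub (contDiffAt_const.mul (ρ1_smooth a.2 ρe).contDiffAt))))).add
      ((WSmooth_step _ _ ρ0_smooth.contDiffAt).mul (uw_contDiffAt a.2 h))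

theorem WSmooth_lin (a : Rt) {ξ : ℂ} (h : ξ ≠ -Complex.I / 10) : ContDiffAt ℝ ∞
    (fun x => lin a (circ (6 / 10 * π) * (starRingEnd ℂ) (ωw a.2 x))) ξ := by
  have h1 : ContDiffAt ℝ ∞ (fun x => circ (6 / 10 * π) * (starRingEnd ℂ) (ωw a.2 x)) ξ :=
    contDiffAt_const.mul (Complex.conjCLE.contDiff.contDiffAt.comp ξ (ωw_contDiffAt a.2 h))
  exact ((WSmooth_re h1).smul contDiffAt_const).add ((WSmooth_im h1).smul contDiffAt_const)

theorem WSmooth_one (ty : Bool) {ξ : ℂ} (h : ξ ≠ -Complex.I / 10) (h0 : ωw ty ξ = 0) :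
    ∀ᶠ x in 𝓝 ξ, 8 / 10 < uw ty x := by
  refine continuousAt_const.eventually_lt (uw_contDiffAt ty h).continuousAt ?_
  unfold uw
  rw [h0, norm_zero]
  norm_num

theorem WSmooth_deep (a : Rt) {ξ : ℂ} (h : ξ ≠ -Complex.I / 10) (l : ℝ) :
    ContDiffAt ℝ ∞ (fun q : ℂ × ℝ => deep a q.1 q.2) (ξ, l) := by
  have hu := WSmooth_step (7 / 10) (8 / 10) (uw_contDiffAt a.2 h)
  have h1 : ContDiffAt ℝ ∞
      (fun x => (1 - step (7 / 10) (8 / 10) (uw a.2 x)) / ‖ωw a.2 x‖) ξ := by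
    simp only [div_eq_mul_inv _ ‖_‖]
    refine WSmooth_mul (contDiffAt_const.sub hu) ?_
    by_cases h0 : ωw a.2 ξ = 0
    · left
      filter_upwards [WSmooth_one a.2 h h0] with x hx
      rw [step_of_ge (by norm_num) hx.le, sub_self]
    · exact .inr (((ωw_contDiffAt a.2 h).norm ℝ h0).inv (norm_ne_zero_iff.2 h0))
  have h2 := (contDiffAt_const (c := c0 a)).add
    ((h1.add ((contDiffAt_const (c := (2 : ℝ))).mul hu)).smul (WSmooth_lin a h))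
  exact (ContDiffAt.comp (f := Prod.fst) (ξ, l) h2 contDiffAt_fst).add
    (contDiffAt_snd.smul contDiffAt_const)

theorem Wf_smooth (a : Rt) {Xk : ℝ → ℝ} (hX : ContDiffOn ℝ ∞ Xk (Ioo (-1 / 50) (1 / 50)))
    (ρe : ℝ) : ContDiff ℝ ∞ (fun q : ℂ × ℝ × ℝ => Wf a Xk ρe q.1 q.2.1 q.2.2) := by
  rw [contDiff_iff_contDiffAt]
  rintro ⟨ξ, l₁, l₂⟩
  have hc : ContinuousAt (fun q : ℂ × ℝ × ℝ => q.1) (ξ, l₁, l₂) := continuousAt_fst
  by_cases h : ξ = -Complex.I / 10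
  · refine (contDiffAt_const (c := (0 : E4))).congr_of_eventuallyEq ?_
    have e : ∀ᶠ x in 𝓝 ξ, ‖x + Complex.I / 10‖ ^ 2 < 1 / 1000 := by
      refine ContinuousAt.eventually_lt (by fun_prop) continuousAt_const ?_
      rw [h, show -Complex.I / 10 + Complex.I / 10 = 0 by ring, norm_zero]
      norm_num
    filter_upwards [hc.eventually e] with q hq
    unfold Wf bW
    rw [step_of_le (by norm_num) hq.le, zero_smul]
  have lift : ∀ {f : ℂ → ℝ}, ContDiffAt ℝ ∞ f ξ →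
      ContDiffAt ℝ ∞ (fun q : ℂ × ℝ × ℝ => f q.1) (ξ, l₁, l₂) := fun {f} hf =>
    ContDiffAt.comp (g := f) (f := Prod.fst) (ξ, l₁, l₂) hf contDiffAt_fst
  have hu := lift (WSmooth_step (55 / 100) (65 / 100) (uw_contDiffAt a.2 h))
  have hd : ContDiffAt ℝ ∞ (fun q : ℂ × ℝ × ℝ => deep a q.1 q.2.1) (ξ, l₁, l₂) :=
    ContDiffAt.comp (g := fun q : ℂ × ℝ => deep a q.1 q.2)
      (f := fun q : ℂ × ℝ × ℝ => (q.1, q.2.1)) (ξ, l₁, l₂) (WSmooth_deep a h l₁) (by fun_prop)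
  refine (lift bW_smooth.contDiffAt).smul (ContDiffAt.prodMk (ContDiffAt.add ?_ (hu.smul hd))
    (lift (Tw_contDiffAt a ρe h)))
  by_cases h0 : ωw a.2 ξ = 0
  · refine (contDiffAt_const (c := (0 : V3))).congr_of_eventuallyEq ?_
    filter_upwards [hc.eventually (WSmooth_one a.2 h h0)] with q hq
    rw [step_of_ge (by norm_num) (by linarith), sub_self, zero_smul]
  · refine (contDiffAt_const.sub hu).smul ?_
    have h1 := Xw_contDiffAt a hX ρe h h0 l₁ l₂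
    have h2 : ContDiffAt ℝ ∞ (fun q : ℂ × ℝ × ℝ => hw a ρe q.1 q.2.1) (ξ, l₁, l₂) :=
      ContDiffAt.comp (g := fun q : ℂ × ℝ => hw a ρe q.1 q.2)
        (f := fun q : ℂ × ℝ × ℝ => (q.1, q.2.1)) (ξ, l₁, l₂) (hw_contDiffAt a ρe h h0 l₁)
        (by fun_prop)
    exact ContDiffAt.comp (g := fun q : ℝ × ℂ × ℝ => Φa a q.1 (3 / 10 + yw a.2 q.2.1) q.2.2)
      (f := fun q : ℂ × ℝ × ℝ => (Xw a Xk ρe q.1 q.2.1 q.2.2, q.1, hw a ρe q.1 q.2.1))
      (ξ, l₁, l₂) (Φa_yw_contDiffAt a h h0 _ _) (h1.prodMk (contDiffAt_fst.prodMk h2))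

theorem Fcore_smooth (a : Rt) : ContDiff ℝ ∞ (Fcore a) :=
  (Wf_smooth a (Xk := fun _ => -1 / 2) contDiffOn_const 0).comp
    (f := fun q : ℂ × ℝ => ((4 / 5 : ℂ) * q.1, q.2, (0 : ℝ))) (by fun_prop)

theorem WSmooth_XV (ty : Bool) (k : Fin 4) :
    ContDiffOn ℝ ∞ (XV ty k) (Ioo (-1 / 50) (1 / 50)) := by
  have hs : ContDiffOn ℝ ∞ (fun y : ℝ => √(5 * R2 ty - 4 * (3 / 10 + y) ^ 2))
      (Ioo (-1 / 50) (1 / 50)) := by
    refine ContDiffOn.sqrt (by fun_prop) fun y hy => ne_of_gt ?_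
    have : 16 / 100 ≤ R2 ty := by
      unfold R2 cT
      split_ifs <;> norm_num
    nlinarith [hy.1, hy.2]
  have h3 : ContDiffOn ℝ ∞ (fun y : ℝ => 3 * (3 / 10 + y)) (Ioo (-1 / 50) (1 / 50)) := by fun_prop
  unfold XV
  split_ifs
  · exact ((h3.add (contDiffOn_const.mul hs)).div_const 5).sub contDiffOn_const
  · exact contDiffOn_const
  · exact contDiffOn_const
  · exact (h3.sub (contDiffOn_const.mul hs)).div_const 5

theorem WV_smooth (ε : ℝ) (a : Rt) (k : KV a) : ContDiff ℝ ∞ (WV ε a k) :=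
  (Wf_smooth a (WSmooth_XV a.2 k.1) (ρV a.2 k.1)).comp
    (f := fun q : ℂ × ℝ => (q.1, ε * (k.1 : ℕ) + q.2, q.2)) (by fun_prop)

end Pool.Agent.Lib.MP_1d0d1b_gt
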