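import Pool.Agent.Lib.MP_1d0d1b_gt.WSmooth
import Pool.Agent.Lib.MP_1d0d1b_gt.Dbl

open Set Function Filter Topology
open scoped ContDiff Real

noncomputable section

namespace Pool.Agent.Lib.MP_1d0d1b_gt

private theorem WVar1_facts (ty : Bool) (k : Fin 4) {ξ : ℂ} (h : ξ ∈ Half) (hr : 4 / 5 ≤ ‖ξ‖) :
    ρ0 ξ ≤ 4 / 10 ∧ ρ0 ξ ≤ ρf ty ∧ |yw ty ξ| ≤ 1 / 100 ∧
      ρ1 ty (ρV ty k) ξ ∈ Icc (-3 / 10 : ℝ) (4 / 10) := by
  have h0 : ρ0 ξ ≤ 4 / 10 := by rw [ρ0_eq (by linarith)]; linarith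
  have h1 : ρ0 ξ ≤ ρf ty := by linarith [(ρf_mem ty).1]
  have h2 := ρab ty
  have h3 : -1 / 4 ≤ ρV ty k := by
    unfold ρV
    split_ifs <;> norm_num
  refine ⟨h0, h1, abs_yw_sat_le ty h.2 h1, ?_, ?_⟩
  · rcases h.1.eq_or_lt with e | e
    · rw [ρ1_one _ _ e]
      linarith
    · have := ρ1_strictAnti (ρV_le ty k) (ξ := ξ) (ξ' := 1) (by linarith) (by simpa using e)
      rw [ρ1_one _ _ norm_one] at this
      linarith
  · rcases h0.eq_or_lt with e | e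
    · rw [ρ1_eq _ (by linarith [h2.2.1, h2.2.2]), e]
    · exact (ρ1_lt_of_lt (ρV_le ty k) (by linarith [h2.2.1, h2.2.2]) e).le

theorem WV_imm (ε : ℝ) (a : Rt) (k : KV a) {ξ : ℂ} (h : ξ ∈ Half) (hr : 4 / 5 ≤ ‖ξ‖) :
    Injective (fderiv ℝ (WV ε a k) (ξ, 0)) := by
  obtain ⟨h0, h1, h2, h3⟩ := WVar1_facts a.2 k.1 h hr
  have h2' := abs_le.1 h2
  have hyw : DifferentiableAt ℝ (yw a.2) ξ := by
    refine (yw_contDiffAt a.2 (Half_ne h.2) (.inl (ωw_re_pos a.2 ?_))).differentiableAt (by simp)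
    have := ϱw_big a.2 (r := ‖ξ‖) (show ρ0 ξ ≤ _ by linarith)
    rw [norm_ξt]
    linarith
  have hXV : DifferentiableAt ℝ (XV a.2 k.1) (yw a.2 ξ) :=
    ((XV_contDiffOn a.2 k.1).contDiffAt (Ioo_mem_nhds (by linarith [h2'.1])
      (by linarith [h2'.2]))).differentiableAt (by simp)
  have hρ1 : DifferentiableAt ℝ (ρ1 a.2 (ρV a.2 k.1)) ξ :=
    (ρ1_smooth _ _).differentiable (by simp) ξ
  have hs : DifferentiableAt ℝ (fun x => step (ρb a.2) (ρa a.2) (ρ0 x)) ξ :=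
    ((step_contDiff _ _).comp ρ0_smooth).differentiable (by simp) ξ
  have hS : Differentiable ℝ S1 := S1_contDiff.differentiable (by simp)
  set Xf : ℂ × ℝ → ℝ := fun q => step (ρb a.2) (ρa a.2) (ρ0 q.1) * S1 (ε * (k.1 : ℕ) + q.2) +
    (1 - step (ρb a.2) (ρa a.2) (ρ0 q.1)) * (XV a.2 k.1 (yw a.2 q.1) + q.2) with hXf
  have hf : HasFDerivAt (fun q : ℂ × ℝ => q.1) (ContinuousLinearMap.fst ℝ ℂ ℝ) (ξ, 0) :=
    hasFDerivAt_fst
  have dX : DifferentiableAt ℝ Xf (ξ, 0) := by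
    have s1 : DifferentiableAt ℝ (fun q : ℂ × ℝ => step (ρb a.2) (ρa a.2) (ρ0 q.1)) (ξ, 0) :=
      DifferentiableAt.comp (g := fun x => step (ρb a.2) (ρa a.2) (ρ0 x)) (ξ, (0 : ℝ)) hs
        differentiableAt_fst
    have s2 : DifferentiableAt ℝ (fun q : ℂ × ℝ => XV a.2 k.1 (yw a.2 q.1)) (ξ, 0) :=
      DifferentiableAt.comp (g := fun x => XV a.2 k.1 (yw a.2 x)) (ξ, (0 : ℝ)) (hXV.comp ξ hyw)
        differentiableAt_fst
    have s3 : DifferentiableAt ℝ (fun q : ℂ × ℝ => S1 (ε * (k.1 : ℕ) + q.2)) (ξ, 0) :=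
      (hS _).comp (ξ, (0 : ℝ)) (differentiableAt_snd.const_add _)
    exact (s1.mul s3).add ((s1.const_sub 1).mul (s2.add differentiableAt_snd))
  have dy := (HasFDerivAt.comp (ξ, (0 : ℝ)) hyw.hasFDerivAt hf).const_add (3 / 10)
  have dh := ((HasFDerivAt.comp (ξ, (0 : ℝ)) hρ1.hasFDerivAt hf).const_mul (sg a.2)).const_sub
    (-1 / 4)
  have dP := dX.hasFDerivAt.prodMk (dy.prodMk dh)
  have dΦ := ((Φa_smooth a).differentiable (by simp)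
    (Xf (ξ, 0), 3 / 10 + yw a.2 ξ, -1 / 4 - sg a.2 * ρ1 a.2 (ρV a.2 k.1) ξ)).hasFDerivAt
  have d1 := HasFDerivAt.comp (ξ, (0 : ℝ)) dΦ dP
  have d2 := (((WV_smooth ε a k).differentiable (by simp)) (ξ, 0)).hasFDerivAt.fst
  have hev : ∀ᶠ q : ℂ × ℝ in 𝓝 (ξ, 0), 799 / 1000 < ‖q.1‖ :=
    (isOpen_lt continuous_const continuous_fst.norm).mem_nhds (show 799 / 1000 < ‖ξ‖ by linarith)
  have d3 := d2.unique (d1.congr_of_eventuallyEq (hev.mono fun q hq => by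
    simp only [WV, Wf_outer a _ (ρV_le a.2 k.1) hq.le]
    rfl))
  have hy0 : 0 < 3 / 10 + yw a.2 ξ := by linarith [h2'.1]
  have himm := Φa_imm a (X := Xf (ξ, 0)) (y := 3 / 10 + yw a.2 ξ)
    (h := -1 / 4 - sg a.2 * ρ1 a.2 (ρV a.2 k.1) ξ)
    (mem_Dom_snd (by dsimp only; rw [abs_of_pos hy0]; linarith [h2'.1])
      (by dsimp only; rw [abs_of_pos hy0]; linarith [h2'.2]))
    (by rcases sg_cases a.2 with e | e <;> rw [e, abs_le] <;> constructor <;>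
      linarith [h3.1, h3.2])
  rw [injective_iff_map_eq_zero] at himm ⊢
  rintro ⟨v, δ⟩ hv
  have e0 := congrArg (fun L => L (v, δ)) d3
  simp only [ContinuousLinearMap.comp_apply, hv, map_zero] at e0
  have e1 := himm _ e0.symm
  have eX : fderiv ℝ Xf (ξ, 0) (v, δ) = 0 := congrArg Prod.fst e1
  have ey : fderiv ℝ (yw a.2) ξ v = 0 := congrArg (fun w => w.2.1) e1
  have eh : fderiv ℝ (ρ1 a.2 (ρV a.2 k.1)) ξ v = 0 := by
    have : -(sg a.2 * fderiv ℝ (ρ1 a.2 (ρV a.2 k.1)) ξ v) = 0 := congrArg (fun w => w.2.2) e1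
    rcases sg_cases a.2 with e | e <;> rw [e] at this <;> linarith
  have hξ : ξ ≠ 0 := norm_pos_iff.1 (by linarith)
  have hv' : v = (v / ξ).re • ξ + (v / ξ).im • (Complex.I * ξ) := by
    rw [Complex.real_smul, Complex.real_smul, ← mul_assoc, ← add_mul, Complex.re_add_im,
      div_mul_cancel₀ _ hξ]
  rw [hv', map_add, map_smul, map_smul, fderiv_ρ1_angular, smul_zero, add_zero, smul_eq_mul] at eh
  have r0 := (mul_eq_zero.1 eh).resolve_right (fderiv_ρ1_radial (ρV_le a.2 k.1) (by linarith)).ne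
  rw [hv', map_add, map_smul, map_smul, r0, zero_smul, zero_add, smul_eq_mul] at ey
  have i0 := (mul_eq_zero.1 ey).resolve_right (fderiv_yw_angular a.2 h.2 (by linarith)).ne
  rw [r0, i0, zero_smul, zero_smul, add_zero] at hv'
  subst hv'
  have l1 : HasDerivAt (fun l : ℝ => Xf (ξ, l)) (fderiv ℝ Xf (ξ, 0) (0, 1)) 0 :=
    dX.hasFDerivAt.comp_hasDerivAt (f := fun l : ℝ => ((ξ, l) : ℂ × ℝ)) 0
      ((hasDerivAt_const (0 : ℝ) ξ).prodMk (hasDerivAt_id 0))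
  have l2 : HasDerivAt (fun l : ℝ => Xf (ξ, l))
      (step (ρb a.2) (ρa a.2) (ρ0 ξ) * (deriv S1 (ε * (k.1 : ℕ) + 0) * 1) +
        (1 - step (ρb a.2) (ρa a.2) (ρ0 ξ)) * 1) 0 := by
    have t1 : HasDerivAt (fun l : ℝ => S1 (ε * (k.1 : ℕ) + l))
        (deriv S1 (ε * (k.1 : ℕ) + 0) * 1) 0 :=
      HasDerivAt.comp (h := fun l : ℝ => ε * (k.1 : ℕ) + l) 0 (hS _).hasDerivAt
        ((hasDerivAt_id' (0 : ℝ)).const_add _)
    exact (t1.const_mul (step (ρb a.2) (ρa a.2) (ρ0 ξ))).fun_add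
      (((hasDerivAt_id' (0 : ℝ)).const_add (XV a.2 k.1 (yw a.2 ξ))).const_mul
        (1 - step (ρb a.2) (ρa a.2) (ρ0 ξ)))
  have hp : 0 < fderiv ℝ Xf (ξ, 0) (0, 1) := by
    rw [l1.unique l2]
    have p1 := S1_deriv_pos (ε * (k.1 : ℕ) + 0)
    have p2 := step_nonneg (ρb a.2) (ρa a.2) (ρ0 ξ)
    rcases (step_le_one (ρb a.2) (ρa a.2) (ρ0 ξ)).eq_or_lt with e | e
    · rw [e]
      linarith
    · nlinarith [mul_nonneg p2 p1.le]
  rw [show (((0 : ℂ), δ) : ℂ × ℝ) = δ • ((0, 1) : ℂ × ℝ) by simp, map_smul, smul_eq_mul] at eX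
  rw [(mul_eq_zero.1 eX).resolve_right hp.ne']
  rfl

theorem WV_inO : ∀ᶠ ε in 𝓝 (0 : ℝ), ∀ (a : Rt) (k : KV a), ∀ ξ ∈ Half, 4 / 5 ≤ ‖ξ‖ →
    WV ε a k (ξ, 0) ∈ Oa a := by
  have hS : ∀ᶠ ε in 𝓝 (0 : ℝ), ∀ k : Fin 4,
      S1 (ε * (k : ℕ) + 0) ∈ Ioo (-58 / 100 : ℝ) (-5 / 100) := by
    refine eventually_all.2 fun k => ?_
    have hc : Continuous fun ε : ℝ => S1 (ε * (k : ℕ) + 0) :=
      S1_contDiff.continuous.comp (by fun_prop)
    refine (isOpen_Ioo.preimage hc).mem_nhds ?_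
    show S1 (0 * (k : ℕ) + 0) ∈ Ioo (-58 / 100 : ℝ) (-5 / 100)
    rw [zero_mul, add_zero, S1_zero]
    norm_num
  filter_upwards [hS] with ε hε a k ξ h hr
  obtain ⟨h0, h1, h2, h3⟩ := WVar1_facts a.2 k.1 h hr
  obtain ⟨p1, p2⟩ := hε k.1
  obtain ⟨p3, p4⟩ := XV_mem a.2 k.1 (y' := yw a.2 ξ) (by linarith)
  have p5 := step_nonneg (ρb a.2) (ρa a.2) (ρ0 ξ)
  have p6 := step_le_one (ρb a.2) (ρa a.2) (ρ0 ξ)
  have h2' := abs_le.1 h2
  simp only [WV]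
  rw [Wf_outer a _ (ρV_le a.2 k.1) (by linarith),
    step_of_le (by linarith [(ρf_mem a.2).1]) h0, zero_mul, add_zero (1 - _)]
  refine ⟨_, ⟨?_, ?_⟩, _, ⟨by linarith [h2'.1], h2'.2⟩, _, h3, rfl⟩ <;> nlinarith

end Pool.Agent.Lib.MP_1d0d1b_gt
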