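import Pool.Agent.Lib.MP_1d0d1b_gt.WZoneA

open Set Function Filter Topology
open scoped ContDiff Real

noncomputable section

namespace Pool.Agent.Lib.MP_1d0d1b_gt

private def th (ty : Bool) (n : ℝ) : ℝ := π * (1 / 100 + ramp (ρn n - ρf ty) / 100)

private theorem AA_eq (ty : Bool) (n : ℝ) : AA ty n = 1 / Real.tan (th ty n) := rfl

private theorem ramp_le_of {u c : ℝ} (h : u ≤ c) (hc : 0 ≤ c) : ramp u ≤ c :=
  (ramp_mono h).trans (ramp_le hc)

private theorem th_pos (ty : Bool) (n : ℝ) : 0 < th ty n := by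
  have := ramp_nonneg (ρn n - ρf ty)
  unfold th
  positivity

private theorem th_le (ty : Bool) {n c : ℝ} (h : ρn n - ρf ty ≤ c) (hc : 0 ≤ c) :
    th ty n ≤ 315 / 100 * (1 / 100 + c / 100) := by
  have h1 := ramp_le_of h hc
  have h2 := ramp_nonneg (ρn n - ρf ty)
  have h3 := Real.pi_lt_d2
  unfold th
  exact mul_le_mul (by linarith) (by linarith) (by positivity) (by norm_num)

private theorem th_small (ty : Bool) {n : ℝ} (h : 1 / 5 ≤ n) : th ty n ≤ 1 / 2 := by
  have h1 := (ρf_mem ty).1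
  have := th_le ty (n := n) (c := 575 / 100) (by unfold ρn; linarith) (by norm_num)
  linarith

private theorem th_lt (ty : Bool) {n : ℝ} (h : 1 / 5 ≤ n) : th ty n < π / 2 := by
  have := th_small ty h
  have := Real.pi_gt_three
  linarith

private theorem tan_th_pos (ty : Bool) {n : ℝ} (h : 1 / 5 ≤ n) : 0 < Real.tan (th ty n) :=
  Real.tan_pos_of_pos_of_lt_pi_div_two (th_pos ty n) (th_lt ty h)

private theorem cos_th_pos (ty : Bool) {n : ℝ} (h : 1 / 5 ≤ n) : 0 < Real.cos (th ty n) :=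
  Real.cos_pos_of_mem_Ioo ⟨by linarith [th_pos ty n, Real.pi_pos], th_lt ty h⟩

private theorem AA_pos (ty : Bool) {n : ℝ} (h : 1 / 5 ≤ n) : 0 < AA ty n :=
  one_div_pos.2 (tan_th_pos ty h)

private theorem th_contDiff (ty : Bool) : ContDiff ℝ ∞ (th ty) := by
  have h : ContDiff ℝ ∞ fun n => ramp (ρn n - ρf ty) :=
    ramp_contDiff.comp (by unfold ρn; fun_prop)
  exact contDiff_const.mul (contDiff_const.add (h.div_const _))

private theorem AA_contDiffAt (ty : Bool) {n : ℝ} (h : 1 / 5 ≤ n) : ContDiffAt ℝ ∞ (AA ty) n :=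
  contDiffAt_const.div ((Real.contDiffAt_tan.2 (cos_th_pos ty h).ne').comp n
    (th_contDiff ty).contDiffAt) (tan_th_pos ty h).ne'

private theorem nr_contDiff : ContDiff ℝ ∞ nr :=
  contDiff_const.add (ramp_contDiff.comp (contDiff_id.sub contDiff_const))

theorem γn_pos (ty : Bool) {n : ℝ} (h : 1 / 5 ≤ n) : 0 < γn ty n := by
  have h1 := step_nonneg (3 / 10) (4 / 10) n
  have h2 := step_le_one (3 / 10) (4 / 10) n
  have h3 : 0 < AA ty n / n := div_pos (AA_pos ty h) (by linarith)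
  unfold γn
  rcases h1.eq_or_lt with h4 | h4
  · rw [← h4]
    norm_num
  · have := mul_pos h4 h3
    linarith

theorem γn_contDiffAt (ty : Bool) {n : ℝ} (h : 1 / 5 ≤ n) : ContDiffAt ℝ ∞ (γn ty) n := by
  have hs := (step_contDiff (3 / 10) (4 / 10)).contDiffAt (x := n)
  exact ((contDiffAt_const.sub hs).mul contDiffAt_const).add
    (hs.mul ((AA_contDiffAt ty h).div contDiffAt_id (by show n ≠ 0; linarith)))

theorem ξt_smooth (ty : Bool) : ContDiff ℝ ∞ (ξt ty) := by
  refine contDiff_iff_contDiffAt.2 fun ξ => ?_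
  have h : ContDiffAt ℝ ∞ (γn ty ∘ nn) ξ :=
    (γn_contDiffAt ty (n := nn ξ) (nr_ge ‖ξ‖)).comp ξ nn_smooth.contDiffAt
  exact (Complex.ofRealCLM.contDiff.contDiffAt.comp ξ h).mul contDiffAt_id

theorem norm_ξt (ty : Bool) (ξ : ℂ) : ‖ξt ty ξ‖ = ϱw ty ‖ξ‖ := by
  rw [ξt, norm_mul, Complex.norm_real, nn, Real.norm_of_nonneg (γn_pos ty (nr_ge ‖ξ‖)).le, ϱw]

theorem ϱw_contDiff (ty : Bool) : ContDiff ℝ ∞ (ϱw ty) :=
  contDiff_iff_contDiffAt.2 fun r =>
    ((γn_contDiffAt ty (nr_ge r)).comp r nr_contDiff.contDiffAt).mul contDiffAt_id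

theorem ϱw_small (ty : Bool) {r : ℝ} (h : r ≤ 3 / 10) : ϱw ty r = 10 * r := by
  have h1 : nr r ≤ 3 / 10 := (nr_mono h).trans_eq (nr_eq (by norm_num))
  rw [ϱw, γn, step_of_le (by norm_num) h1]
  ring

theorem ϱw_large (ty : Bool) {r : ℝ} (h : 4 / 10 ≤ r) : ϱw ty r = AA ty r := by
  have h0 : r ≠ 0 := by linarith
  rw [ϱw, nr_eq (by linarith), γn, step_of_ge (by norm_num) h]
  field_simp
  ring

private theorem AA_hasDerivAt (ty : Bool) {n : ℝ} (h : 1 / 5 ≤ n) : ∃ c : ℝ, 0 < c ∧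
    HasDerivAt (AA ty) (c * deriv ramp (ρn n - ρf ty)) n := by
  have h1 : HasDerivAt (fun n => ρn n - ρf ty) (-10) n := by
    unfold ρn
    simpa using (((hasDerivAt_id n).const_mul (10 : ℝ)).const_sub (84 / 10)).sub_const (ρf ty)
  have h2 : HasDerivAt (th ty) (π * (deriv ramp (ρn n - ρf ty) * -10 / 100)) n :=
    ((((ramp_hasDerivAt (ρn n - ρf ty)).comp n h1).div_const 100).const_add (1 / 100)).const_mul π
  have h3 := (Real.hasDerivAt_tan (cos_th_pos ty h).ne').comp n h2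
  have h4 := (hasDerivAt_const n (1 : ℝ)).div h3 (tan_th_pos ty h).ne'
  have hc := cos_th_pos ty h
  have ht := tan_th_pos ty h
  refine ⟨π / 10 / (Real.cos (th ty n) ^ 2 * Real.tan (th ty n) ^ 2), by positivity, ?_⟩
  refine HasDerivAt.congr_deriv h4 ?_
  simp only [comp_apply]
  field_simp
  ring

private theorem AA_ge (ty : Bool) {r : ℝ} (h : 3 / 10 ≤ r) : 4 ≤ AA ty r := by
  have h1 := (ρf_mem ty).1
  have h2 := th_le ty (n := r) (c := 475 / 100) (by unfold ρn; linarith) (by norm_num)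
  have h3 := tan_le (th_pos ty r).le (th_small ty (by linarith))
  rw [AA_eq, le_one_div (by norm_num) (tan_th_pos ty (by linarith))]
  linarith

private theorem deriv_small (ty : Bool) {r : ℝ} (h : r < 3 / 10) : deriv (ϱw ty) r = 10 := by
  have h1 : ϱw ty =ᶠ[𝓝 r] fun x => 10 * x :=
    (eventually_lt_nhds h).mono fun x hx => ϱw_small ty hx.le
  rw [h1.deriv_eq]
  simp

private theorem deriv_mid (ty : Bool) {r : ℝ} (h : 21 / 100 < r) : ∃ c e : ℝ, 0 < c ∧ 0 ≤ e ∧
    deriv (ϱw ty) r = (1 - step (3 / 10) (4 / 10) r) * 10 + e +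
      step (3 / 10) (4 / 10) r * (c * deriv ramp (ρn r - ρf ty)) := by
  obtain ⟨c, hc, hA⟩ := AA_hasDerivAt ty (n := r) (by linarith)
  have h1 : ϱw ty =ᶠ[𝓝 r] fun x => (1 - step (3 / 10) (4 / 10) x) * (10 * x) +
      step (3 / 10) (4 / 10) x * AA ty x :=
    (eventually_gt_nhds h).mono fun x hx => by
      have h0 : x ≠ 0 := by linarith
      simp only [ϱw, nr_eq hx.le, γn]
      field_simp
  have hs := step_hasDerivAt (3 / 10) (4 / 10) r
  have h2 := ((hs.const_sub 1).mul ((hasDerivAt_id r).const_mul (10 : ℝ))).add (hs.mul hA)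
  refine ⟨c, deriv (step (3 / 10) (4 / 10)) r * (AA ty r - 10 * r), hc, ?_, ?_⟩
  · rcases le_total r (3 / 10) with h3 | h3
    · rw [step_deriv_of_le (by norm_num) h3, zero_mul]
    rcases le_total (4 / 10) r with h4 | h4
    · rw [step_deriv_of_ge (by norm_num) h4, zero_mul]
    exact mul_nonneg (step_deriv_nonneg (by norm_num) r) (by linarith [AA_ge ty h3])
  · rw [h1.deriv_eq]
    refine (HasDerivAt.deriv h2).trans ?_
    simp only [id]
    ring

theorem ϱw_deriv_nonneg (ty : Bool) (r : ℝ) : 0 ≤ deriv (ϱw ty) r := by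
  rcases lt_or_ge r (3 / 10) with h | h
  · rw [deriv_small ty h]
    norm_num
  obtain ⟨c, e, hc, he, h1⟩ := deriv_mid ty (r := r) (by linarith)
  have h2 := step_nonneg (3 / 10) (4 / 10) r
  have h3 := step_le_one (3 / 10) (4 / 10) r
  have h4 := mul_nonneg h2 (mul_nonneg hc.le (ramp_deriv_nonneg (ρn r - ρf ty)))
  rw [h1]
  linarith

theorem ϱw_deriv_pos (ty : Bool) {r : ℝ} (h : ρf ty < ρn (nr r)) : 0 < deriv (ϱw ty) r := by
  rcases lt_or_ge r (3 / 10) with h0 | h0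
  · rw [deriv_small ty h0]
    norm_num
  obtain ⟨c, e, hc, he, h1⟩ := deriv_mid ty (r := r) (by linarith)
  rw [nr_eq (by linarith)] at h
  have h2 := step_nonneg (3 / 10) (4 / 10) r
  have h3 := step_le_one (3 / 10) (4 / 10) r
  have h4 := mul_pos hc (ramp_deriv_pos (sub_pos.2 h))
  rw [h1]
  rcases h2.eq_or_lt with h5 | h5
  · rw [← h5]
    linarith
  · have := mul_pos h5 h4
    linarith

theorem ϱw_mono (ty : Bool) : Monotone (ϱw ty) :=
  monotone_of_deriv_nonneg ((ϱw_contDiff ty).differentiable (by simp)) (ϱw_deriv_nonneg ty)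

theorem ϱw_strict (ty : Bool) {r r' : ℝ} (h : r < r') (h' : ρf ty < ρn (nr r)) :
    ϱw ty r < ϱw ty r' := by
  have hc : Continuous fun x => ρn (nr x) := by
    unfold ρn
    exact continuous_const.sub (continuous_const.mul nr_contDiff.continuous)
  have h1 : ∀ᶠ x in 𝓝[>] r, ρf ty < ρn (nr x) ∧ x < r' :=
    ((hc.continuousAt.eventually (lt_mem_nhds h')).and (eventually_lt_nhds h)).filter_mono
      nhdsWithin_le_nhds
  obtain ⟨x, ⟨hx1, hx2⟩, hx3⟩ := (h1.and self_mem_nhdsWithin).exists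
  have h2 : StrictMonoOn (ϱw ty) (Iic x) :=
    strictMonoOn_of_deriv_pos (convex_Iic x) (ϱw_contDiff ty).continuous.continuousOn
      fun y hy => ϱw_deriv_pos ty (hx1.trans_le (by
        have := nr_mono (mem_Iic.1 (interior_subset hy))
        unfold ρn
        linarith))
  exact (h2 (le_of_lt hx3) (le_refl x) hx3).trans_le (ϱw_mono ty hx2.le)

private theorem large_of (ty : Bool) {r : ℝ} (h : ρn (nr r) ≤ ρf ty + 2 / 100) : 4 / 10 ≤ r := by
  by_contra h1
  have h2 : nr r ≤ 4 / 10 := (nr_mono (not_le.1 h1).le).trans_eq (nr_eq (by norm_num))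
  have h3 := (ρf_mem ty).2
  unfold ρn at h
  linarith

theorem ϱw_sat (ty : Bool) {r : ℝ} (h : ρn (nr r) ≤ ρf ty) :
    ϱw ty r = 1 / Real.tan (π / 100) := by
  have h1 := large_of ty (r := r) (by linarith)
  rw [nr_eq (by linarith)] at h
  rw [ϱw_large ty h1, AA, ramp_of_nonpos (sub_nonpos.2 h)]
  congr 2
  ring

theorem ϱw_big (ty : Bool) {r : ℝ} (h : ρn (nr r) ≤ ρf ty + 2 / 100) : 30 < ϱw ty r := by
  have h1 := large_of ty h
  rw [nr_eq (by linarith)] at h
  have h2 := th_le ty (n := r) (c := 2 / 100) (by linarith) (by norm_num)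
  have h3 := tan_le' (th_pos ty r).le (by linarith)
  rw [ϱw_large ty h1, AA_eq, lt_one_div (by norm_num) (tan_th_pos ty (by linarith))]
  linarith

end Pool.Agent.Lib.MP_1d0d1b_gt
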