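import Pool.Agent.Lib.MP_1d0d1b_gt.WZoneB

open Set Function Filter Topology
open scoped ContDiff Real

noncomputable section

namespace Pool.Agent.Lib.MP_1d0d1b_gt

theorem ξt_add_I_ne (ty : Bool) {ξ : ℂ} (h : ξ ≠ -Complex.I / 10) :
    ξt ty ξ + Complex.I ≠ 0 := by
  intro h0
  have h1 : ξt ty ξ = -Complex.I := eq_neg_of_add_eq_zero_left h0
  by_cases hr : ‖ξ‖ ≤ 1 / 10
  · have h2 : γn ty (nn ξ) = 10 := by
      have := nr_le (r := ‖ξ‖) (by linarith)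
      rw [γn, step_of_le (by norm_num) (show nn ξ ≤ 3 / 10 by unfold nn; linarith)]
      ring
    rw [ξt, h2] at h1
    apply h
    rw [← h1]
    push_cast
    ring
  · have h2 := ϱw_strict ty (not_le.1 hr) (by
      have := nr_le (r := 1 / 10) (by norm_num)
      have := (ρf_mem ty).2
      unfold ρn
      linarith)
    rw [ϱw_small ty (by norm_num), ← norm_ξt, h1] at h2
    norm_num at h2

theorem Half_ne {ξ : ℂ} (h : 0 ≤ ξ.im) : ξ ≠ -Complex.I / 10 := by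
  rintro rfl
  norm_num at h

theorem ωw_contDiffAt (ty : Bool) {ξ : ℂ} (h : ξ ≠ -Complex.I / 10) :
    ContDiffAt ℝ ∞ (ωw ty) ξ := by
  have h1 := (ξt_smooth ty).contDiffAt (x := ξ)
  have h2 : ContDiffAt ℝ ∞ (fun ξ => (ξt ty ξ + Complex.I)⁻¹) ξ :=
    (h1.add contDiffAt_const).inv (ξt_add_I_ne ty h)
  have e : ωw ty = fun ξ => (ξt ty ξ - Complex.I) * (ξt ty ξ + Complex.I)⁻¹ :=
    funext fun ξ => div_eq_mul_inv _ _
  rw [e]
  exact (h1.sub contDiffAt_const).mul h2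

theorem uw_contDiffAt (ty : Bool) {ξ : ℂ} (h : ξ ≠ -Complex.I / 10) :
    ContDiffAt ℝ ∞ (uw ty) ξ :=
  contDiffAt_const.sub ((ωw_contDiffAt ty h).norm_sq ℝ)

private theorem cay_norm {a : ℂ} (h : a + Complex.I ≠ 0) :
    1 - ‖(a - Complex.I) / (a + Complex.I)‖ ^ 2 = 4 * a.im / ‖a + Complex.I‖ ^ 2 := by
  have h1 : ‖a + Complex.I‖ ^ 2 ≠ 0 := pow_ne_zero 2 (norm_ne_zero_iff.2 h)
  rw [norm_div, div_pow, eq_div_iff h1, sub_mul, div_mul_cancel₀ _ h1, Complex.sq_norm,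
    Complex.sq_norm]
  simp only [Complex.normSq_apply, Complex.add_re, Complex.add_im, Complex.sub_re, Complex.sub_im,
    Complex.I_re, Complex.I_im]
  ring

theorem uw_eq (ty : Bool) {ξ : ℂ} (h : ξ ≠ -Complex.I / 10) :
    uw ty ξ = 4 * (ξt ty ξ).im / ‖ξt ty ξ + Complex.I‖ ^ 2 := cay_norm (ξt_add_I_ne ty h)

private theorem im_ξt (ty : Bool) (ξ : ℂ) : (ξt ty ξ).im = γn ty (nn ξ) * ξ.im :=
  Complex.im_ofReal_mul _ _

private theorem γ_pos (ty : Bool) (ξ : ℂ) : 0 < γn ty (nn ξ) := γn_pos ty (nr_ge _)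

theorem uw_mem (ty : Bool) {ξ : ℂ} (h : 0 ≤ ξ.im) : uw ty ξ ∈ Icc (0 : ℝ) 1 := by
  refine ⟨?_, sub_le_self _ (sq_nonneg _)⟩
  rw [uw_eq ty (Half_ne h), im_ξt]
  have := γ_pos ty ξ
  positivity

theorem uw_eq_zero_iff (ty : Bool) {ξ : ℂ} (h : 0 ≤ ξ.im) : uw ty ξ = 0 ↔ ξ.im = 0 := by
  have h1 := ξt_add_I_ne ty (Half_ne h)
  have h2 := (γ_pos ty ξ).ne'
  rw [uw_eq ty (Half_ne h), im_ξt]
  simp [h1, h2]

theorem uw_small (ty : Bool) {ξ : ℂ} (h : ρ0 ξ ≤ ρf ty + 2 / 100) : |uw ty ξ| < 1 / 5 := by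
  have h1 := ϱw_big ty (r := ‖ξ‖) h
  rw [← norm_ξt] at h1
  have h2 : ‖ξt ty ξ‖ - 1 ≤ ‖ξt ty ξ + Complex.I‖ := by
    have := norm_sub_le (ξt ty ξ + Complex.I) Complex.I
    rw [add_sub_cancel_right, Complex.norm_I] at this
    linarith
  have h3 : 0 < ‖ξt ty ξ + Complex.I‖ := by linarith
  have h4 := Complex.abs_im_le_norm (ξt ty ξ)
  rw [uw, ωw, cay_norm (norm_pos_iff.1 h3), abs_div, abs_of_pos (pow_pos h3 2),
    div_lt_iff₀ (pow_pos h3 2), abs_mul, abs_of_pos (by norm_num : (0 : ℝ) < 4)]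
  nlinarith

theorem ωw_inj (ty : Bool) {ξ ξ' : ℂ} (h : 0 ≤ ξ.im) (h' : 0 ≤ ξ'.im)
    (he : ωw ty ξ = ωw ty ξ') : ξt ty ξ = ξt ty ξ' := by
  rw [ωw, ωw, div_eq_div_iff (ξt_add_I_ne ty (Half_ne h)) (ξt_add_I_ne ty (Half_ne h'))] at he
  apply mul_left_cancel₀ (mul_ne_zero two_ne_zero Complex.I_ne_zero)
  linear_combination he

theorem ωw_re_pos (ty : Bool) {ξ : ℂ} (h : 1 < ‖ξt ty ξ‖) : 0 < (ωw ty ξ).re := by
  have h0 : ξt ty ξ + Complex.I ≠ 0 := by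
    intro h0
    rw [eq_neg_of_add_eq_zero_left h0] at h
    simp at h
  have h1 : 1 < Complex.normSq (ξt ty ξ) := by
    rw [← Complex.sq_norm]
    nlinarith
  rw [ωw, Complex.div_re, ← add_div]
  refine div_pos ?_ (Complex.normSq_pos.2 h0)
  simp only [Complex.normSq_apply, Complex.add_re, Complex.add_im, Complex.sub_re, Complex.sub_im,
    Complex.I_re, Complex.I_im] at h1 ⊢
  nlinarith

theorem ωw_congr (ty : Bool) {ξ ξ' : ℂ} (h : ρ0 ξ ≤ ρf ty) (h' : ρ0 ξ' ≤ ρf ty)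
    (hd : (‖ξ'‖ : ℂ) * ξ = (‖ξ‖ : ℂ) * ξ') : ωw ty ξ = ωw ty ξ' := by
  have e : ϱw ty ‖ξ‖ = ϱw ty ‖ξ'‖ := (ϱw_sat ty h).trans (ϱw_sat ty h').symm
  have b := ϱw_big ty (r := ‖ξ‖) (le_trans h (by linarith))
  have b' := e ▸ b
  unfold ϱw at e b b'
  have n : (‖ξ‖ : ℂ) ≠ 0 := by
    intro h0
    rw [Complex.ofReal_eq_zero.1 h0] at b
    norm_num at b
  have n' : (‖ξ'‖ : ℂ) ≠ 0 := by
    intro h0
    rw [Complex.ofReal_eq_zero.1 h0] at b'
    norm_num at b'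
  have e' : (γn ty (nn ξ) : ℂ) * ‖ξ‖ = γn ty (nn ξ') * ‖ξ'‖ := by exact_mod_cast e
  have : ξt ty ξ = ξt ty ξ' := by
    apply mul_left_cancel₀ n'
    unfold ξt
    linear_combination (γn ty (nn ξ) : ℂ) * hd + ξ' * e'
  rw [ωw, ωw, this]

theorem cu_contDiff : ContDiff ℝ ∞ cu :=
  (contDiff_id.mul (contDiff_const.sub (step_contDiff _ _))).div_const 2

theorem cu_small {u : ℝ} (h : u ≤ 1 / 5) : cu u = u / 2 := by
  rw [cu, step_of_le (by norm_num) (by linarith)]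
  ring

theorem cu_large {u : ℝ} (h : 3 / 10 ≤ u) : cu u = 0 := by
  rw [cu, step_of_ge (by norm_num) h]
  ring

theorem cu_mem {u : ℝ} (h : 0 ≤ u) : cu u ∈ Icc (0 : ℝ) (3 / 20) := by
  rcases le_total u (3 / 10) with h1 | h1
  · have h2 := step_nonneg (2 / 10) (3 / 10) u
    have h3 := step_le_one (2 / 10) (3 / 10) u
    unfold cu
    constructor <;> nlinarith
  · rw [cu_large h1]
    norm_num

theorem y0_mem (ty : Bool) (ξ : ℂ) : y0 ty ξ ∈ Ico (-1 / 2 : ℝ) (1 / 2) := by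
  have h1 := Complex.arg_le_pi (ωw ty ξ)
  have h2 := Complex.neg_pi_lt_arg (ωw ty ξ)
  have hp : 0 < 2 * π := Real.two_pi_pos
  unfold y0
  constructor
  · rw [le_div_iff₀ hp]
    linarith
  · rw [div_lt_iff₀ hp]
    linarith

theorem ωw_polar (ty : Bool) (ξ : ℂ) :
    ωw ty ξ = (‖ωw ty ξ‖ : ℂ) * circ (-(2 * π * y0 ty ξ)) := by
  have e : -(2 * π * y0 ty ξ) = Complex.arg (ωw ty ξ) := by
    unfold y0
    field_simp
  rw [e, circ, Complex.norm_mul_exp_arg_mul_I]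

theorem yw_contDiffAt (ty : Bool) {ξ : ℂ} (h : ξ ≠ -Complex.I / 10)
    (hs : ωw ty ξ ∈ Complex.slitPlane) : ContDiffAt ℝ ∞ (yw ty) ξ := by
  have h1 : ContDiffAt ℝ ∞ (fun ξ => (Complex.log (ωw ty ξ)).im) ξ :=
    Complex.imCLM.contDiff.contDiffAt.comp ξ
      (((Complex.contDiffAt_log hs).restrict_scalars ℝ).comp ξ (ωw_contDiffAt ty h))
  simp only [Complex.log_im] at h1
  have h2 : ContDiffAt ℝ ∞ (y0 ty) ξ := h1.neg.div_const _
  exact h2.sub (((cu_contDiff.contDiffAt.comp ξ (uw_contDiffAt ty h)).mul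
    (contDiffAt_const.mul h2).sin).div_const _)

/-- For fixed `c ∈ [0, 3/20]` the correction is a strictly increasing odd map commuting with
integer translations. -/
theorem corr_strictMono {c : ℝ} (h : |c| ≤ 1 / 2) :
    StrictMono (fun y : ℝ => y - c * Real.sin (2 * π * y) / (2 * π)) := by
  refine strictMono_of_hasDerivAt_pos (f' := fun y => 1 - c * Real.cos (2 * π * y))
    (fun y => ?_) fun y => ?_
  · have h1 := (hasDerivAt_id y).sub
      (((((hasDerivAt_id y).const_mul (2 * π)).sin).const_mul c).div_const (2 * π))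
    refine h1.congr_deriv ?_
    simp only [id, mul_one]
    field_simp
  · have h1 := Real.abs_cos_le_one (2 * π * y)
    have h2 : |c * Real.cos (2 * π * y)| ≤ 1 / 2 * 1 := by
      rw [abs_mul]
      exact mul_le_mul h h1 (abs_nonneg _) (by norm_num)
    have := (abs_le.1 h2).2
    linarith

private theorem mono_yw (ty : Bool) {ξ : ℂ} (h : 0 ≤ ξ.im) :
    StrictMono (fun y : ℝ => y - cu (uw ty ξ) * Real.sin (2 * π * y) / (2 * π)) := by
  have h1 := cu_mem (uw_mem ty h).1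
  exact corr_strictMono (abs_le.2 ⟨by linarith [h1.1], by linarith [h1.2]⟩)

theorem yw_mem (ty : Bool) {ξ : ℂ} (h : 0 ≤ ξ.im) : yw ty ξ ∈ Ico (-1 / 2 : ℝ) (1 / 2) := by
  have h1 := (mono_yw ty h).monotone (y0_mem ty ξ).1
  have h2 := mono_yw ty h (y0_mem ty ξ).2
  have e1 : 2 * π * (-1 / 2) = -π := by ring
  have e2 : 2 * π * (1 / 2) = π := by ring
  simp only [e1, e2, Real.sin_neg, Real.sin_pi, neg_zero, mul_zero, zero_div, sub_zero] at h1 h2
  exact ⟨h1, h2⟩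

theorem abs_yw_le (ty : Bool) {ξ : ℂ} (h : 0 ≤ ξ.im) : |yw ty ξ| ≤ |y0 ty ξ| := by
  have hc := (cu_mem (uw_mem ty h).1).1
  have hm := y0_mem ty ξ
  have hp := Real.pi_pos
  rcases le_total 0 (y0 ty ξ) with h0 | h0
  · have h1 := (mono_yw ty h).monotone h0
    simp only [mul_zero, Real.sin_zero, zero_div, sub_zero] at h1
    have h2 : 0 ≤ Real.sin (2 * π * y0 ty ξ) :=
      Real.sin_nonneg_of_nonneg_of_le_pi (by positivity) (by nlinarith [hm.2])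
    rw [abs_of_nonneg h0, yw, abs_of_nonneg h1]
    exact sub_le_self _ (by positivity)
  · have h1 := (mono_yw ty h).monotone h0
    simp only [mul_zero, Real.sin_zero, zero_div, sub_zero] at h1
    have h2 : Real.sin (2 * π * y0 ty ξ) ≤ 0 :=
      Real.sin_nonpos_of_nonpos_of_neg_pi_le (by nlinarith) (by nlinarith [hm.1])
    have h3 : cu (uw ty ξ) * Real.sin (2 * π * y0 ty ξ) / (2 * π) ≤ 0 :=
      div_nonpos_of_nonpos_of_nonneg (mul_nonpos_of_nonneg_of_nonpos hc h2) (by positivity)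
    rw [abs_of_nonpos h0, yw, abs_of_nonpos h1]
    linarith

end Pool.Agent.Lib.MP_1d0d1b_gt
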