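import Pool.Agent.Lib.MP_1d0d1b_gt.WZoneC

open Set Function Filter Topology
open scoped ContDiff Real

noncomputable section

namespace Pool.Agent.Lib.MP_1d0d1b_gt

theorem WZoneD_ne {ζ : ℂ} (h : 1 < ‖ζ‖) : ζ + Complex.I ≠ 0 := by
  intro h0
  have : ζ = -Complex.I := eq_neg_of_add_eq_zero_left h0
  rw [this, norm_neg, Complex.norm_I] at h
  exact lt_irrefl _ h

theorem WZoneD_sq (ζ : ℂ) : ‖ζ‖ ^ 2 = ζ.re ^ 2 + ζ.im ^ 2 := by
  rw [Complex.sq_norm, Complex.normSq_apply]; ring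

theorem WZoneD_den (ζ : ℂ) : ‖ζ + Complex.I‖ ^ 2 = ‖ζ‖ ^ 2 + 2 * ζ.im + 1 := by
  rw [WZoneD_sq, WZoneD_sq]; simp; ring

theorem WZoneD_arg {ζ : ℂ} (h : 1 < ‖ζ‖) :
    -(Complex.arg ((ζ - Complex.I) / (ζ + Complex.I))) =
      Real.arctan (2 * ζ.re / (‖ζ‖ ^ 2 - 1)) := by
  have hD : 0 < Complex.normSq (ζ + Complex.I) := Complex.normSq_pos.2 (WZoneD_ne h)
  have hR : 0 < ‖ζ‖ ^ 2 - 1 := by nlinarith
  have hre : ((ζ - Complex.I) / (ζ + Complex.I)).re =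
      (‖ζ‖ ^ 2 - 1) / Complex.normSq (ζ + Complex.I) := by
    rw [Complex.div_re, WZoneD_sq]; simp; ring
  have him : ((ζ - Complex.I) / (ζ + Complex.I)).im =
      -(2 * ζ.re) / Complex.normSq (ζ + Complex.I) := by
    rw [Complex.div_im]; simp; ring
  have hp : 0 < ((ζ - Complex.I) / (ζ + Complex.I)).re := by rw [hre]; positivity
  have ha := abs_lt.1 (Complex.abs_arg_lt_pi_div_two_iff.2 (Or.inl hp))
  rw [← Real.arctan_tan ha.1 ha.2, Complex.tan_arg, hre, him, ← Real.arctan_neg]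
  congr 1
  field_simp

theorem WZoneD_u {ζ : ℂ} (h : 1 < ‖ζ‖) :
    1 - ‖(ζ - Complex.I) / (ζ + Complex.I)‖ ^ 2 = 4 * ζ.im / (‖ζ‖ ^ 2 + 2 * ζ.im + 1) := by
  have hD : 0 < ‖ζ + Complex.I‖ ^ 2 := pow_pos (norm_pos_iff.2 (WZoneD_ne h)) 2
  have h2 : ‖ζ - Complex.I‖ ^ 2 = ‖ζ‖ ^ 2 - 2 * ζ.im + 1 := by
    rw [WZoneD_sq, WZoneD_sq]; simp; ring
  rw [norm_div, div_pow, h2, ← WZoneD_den, eq_div_iff hD.ne', sub_mul, div_mul_cancel₀ _ hD.ne',
    WZoneD_den]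
  ring

theorem WZoneD_big (ty : Bool) {ξ : ℂ} (h : ρ0 ξ ≤ ρf ty + 2 / 100) : 30 < ‖ξt ty ξ‖ := by
  rw [norm_ξt]; exact ϱw_big ty h

theorem WZoneD_y0 (ty : Bool) {ξ : ℂ} (h : 1 < ‖ξt ty ξ‖) :
    2 * π * y0 ty ξ = Real.arctan (2 * (ξt ty ξ).re / (‖ξt ty ξ‖ ^ 2 - 1)) := by
  rw [y0, ωw, WZoneD_arg h]
  field_simp

theorem WZoneD_uw (ty : Bool) {ξ : ℂ} (h : 1 < ‖ξt ty ξ‖) :
    uw ty ξ = 4 * (ξt ty ξ).im / (‖ξt ty ξ‖ ^ 2 + 2 * (ξt ty ξ).im + 1) := by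
  rw [uw, ωw, WZoneD_u h]

theorem WZoneD_cu (ty : Bool) {ξ : ℂ} (h : ρ0 ξ ≤ ρf ty + 2 / 100) :
    cu (uw ty ξ) = uw ty ξ / 2 := cu_small (abs_lt.1 (uw_small ty h)).2.le

theorem WZoneD_γ (ty : Bool) (ξ : ℂ) : 0 < γn ty (nn ξ) := γn_pos ty (nr_ge _)

/-- The value on the real axis. -/
theorem WZoneD_real {t θ s : ℝ} (h0 : 0 < θ) (h1 : θ < π / 2) (hs : s = 1 ∨ s = -1)
    (ht : t = s * (1 / Real.tan θ)) :
    -(Complex.arg (((t : ℂ) - Complex.I) / ((t : ℂ) + Complex.I))) / (2 * π) = s * (θ / π) := by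
  have hsin : 0 < Real.sin θ := Real.sin_pos_of_pos_of_lt_pi h0 (by linarith [Real.pi_pos])
  have hcos : 0 < Real.cos θ := Real.cos_pos_of_mem_Ioo ⟨by linarith, h1⟩
  have ht' : t = s * (Real.cos θ / Real.sin θ) := by
    rw [ht, Real.tan_eq_sin_div_cos]; field_simp
  have hne : (t : ℂ) + Complex.I ≠ 0 := fun h => by simpa using congrArg Complex.im h
  have hc := Real.sin_sq_add_cos_sq θ
  have key : ((t : ℂ) - Complex.I) / ((t : ℂ) + Complex.I) =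
      Complex.cos ((-(2 * s * θ) : ℝ) : ℂ) + Complex.sin ((-(2 * s * θ) : ℝ) : ℂ) * Complex.I := by
    rw [div_eq_iff hne, ← Complex.ofReal_cos, ← Complex.ofReal_sin]
    have e1 : Real.cos (-(2 * s * θ)) = 1 - 2 * Real.sin θ ^ 2 := by
      rcases hs with rfl | rfl
      · rw [Real.cos_neg, mul_one, Real.cos_two_mul]; linarith
      · rw [show -(2 * -1 * θ) = 2 * θ by ring, Real.cos_two_mul]; linarith
    have e2 : Real.sin (-(2 * s * θ)) = -(s * (2 * Real.sin θ * Real.cos θ)) := by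
      rcases hs with rfl | rfl
      · rw [Real.sin_neg, mul_one, Real.sin_two_mul]; ring
      · rw [show -(2 * -1 * θ) = 2 * θ by ring, Real.sin_two_mul]; ring
    have hs2 : s * s = 1 := by rcases hs with rfl | rfl <;> norm_num
    have ht2 : t * Real.sin θ = s * Real.cos θ := by rw [ht']; field_simp
    rw [e1, e2]
    apply Complex.ext
    · simp only [Complex.sub_re, Complex.ofReal_re, Complex.I_re, Complex.mul_re, Complex.add_re,
        Complex.add_im, Complex.ofReal_im, Complex.I_im, Complex.mul_im]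
      linear_combination (2 * Real.sin θ) * ht2
    · simp only [Complex.sub_im, Complex.ofReal_re, Complex.I_re, Complex.mul_re, Complex.add_re,
        Complex.add_im, Complex.ofReal_im, Complex.I_im, Complex.mul_im]
      linear_combination (2 * s * Real.cos θ) * ht2 + (2 * Real.cos θ ^ 2) * hs2 + 2 * hc
  rw [key, Complex.arg_cos_add_sin_mul_I]
  · field_simp
  · rcases hs with rfl | rfl <;> constructor <;> linarith [Real.pi_pos]

theorem WZoneD_yw_real (ty : Bool) (x : ℝ) : yw ty (x : ℂ) = y0 ty (x : ℂ) := by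
  have h : uw ty (x : ℂ) = 0 := (uw_eq_zero_iff ty (by simp)).2 (by simp)
  simp [yw, h, cu]

theorem WZoneD_ξt_real (ty : Bool) (x : ℝ) :
    ξt ty (x : ℂ) = ((γn ty (nn x) * x : ℝ) : ℂ) := by simp [ξt]

theorem WZoneD_ϱw_real (ty : Bool) (x : ℝ) : ϱw ty |x| = γn ty (nn x) * |x| := by
  simp [ϱw, nn]

theorem WZoneD_yw_real' (ty : Bool) {x θ : ℝ} (h0 : 0 < θ) (h1 : θ < π / 2)
    (h : ϱw ty |x| = 1 / Real.tan θ) :
    yw ty (x : ℂ) = (if 0 < x then 1 else -1) * (θ / π) := by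
  rw [WZoneD_yw_real, y0, ωw, WZoneD_ξt_real]
  apply WZoneD_real h0 h1
  · split_ifs <;> simp
  · rw [← h, WZoneD_ϱw_real]
    split_ifs with hx
    · rw [abs_of_pos hx, one_mul]
    · rw [abs_of_nonpos (not_lt.1 hx)]; ring

theorem WZoneD_yw_zero (ty : Bool) : yw ty ((0 : ℝ) : ℂ) = -1 / 2 := by
  rw [WZoneD_yw_real, y0, ωw, WZoneD_ξt_real]
  have : ((((γn ty (nn ((0 : ℝ) : ℂ)) * 0 : ℝ) : ℂ) - Complex.I) /
      (((γn ty (nn ((0 : ℝ) : ℂ)) * 0 : ℝ) : ℂ) + Complex.I)) = -1 := by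
    simp [neg_div]
  rw [this, Complex.arg_neg_one]
  field_simp

theorem WZoneD_theta (ty : Bool) {x : ℝ} (hx : x ≠ 0) :
    ∃ θ, 0 < θ ∧ θ < π / 2 ∧ ϱw ty |x| = 1 / Real.tan θ := by
  have hp : 0 < ϱw ty |x| := by
    rw [WZoneD_ϱw_real]; exact mul_pos (WZoneD_γ ty _) (abs_pos.2 hx)
  refine ⟨Real.arctan (1 / ϱw ty |x|), Real.arctan_pos.2 (by positivity),
    Real.arctan_lt_pi_div_two _, ?_⟩
  rw [Real.tan_arctan, one_div_one_div]

theorem yw_real_large (ty : Bool) {x : ℝ} (h : 4 / 10 ≤ |x|) :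
    yw ty (x : ℂ) = (if 0 < x then 1 else -1) *
      (1 / 100 + ramp (84 / 10 - 10 * |x| - ρf ty) / 100) := by
  have hf := (ρf_mem ty).1
  have h0 := ramp_nonneg (84 / 10 - 10 * |x| - ρf ty)
  have h1 : ramp (84 / 10 - 10 * |x| - ρf ty) ≤ 4 :=
    (ramp_mono (by linarith : 84 / 10 - 10 * |x| - ρf ty ≤ 4)).trans (ramp_le (by norm_num))
  have hpi := Real.pi_pos
  rw [WZoneD_yw_real' ty (θ := π * (1 / 100 + ramp (84 / 10 - 10 * |x| - ρf ty) / 100))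
    (by positivity) (by nlinarith) (by rw [ϱw_large ty h]; rfl)]
  congr 1
  field_simp

theorem yw_real_small (ty : Bool) {x : ℝ} (h : |x| ≤ 4 / 10) : 4 / 100 ≤ |yw ty (x : ℂ)| := by
  rcases eq_or_ne x 0 with rfl | hx
  · rw [WZoneD_yw_zero]; norm_num [abs_of_neg]
  obtain ⟨θ, h0, h1, h2⟩ := WZoneD_theta ty hx
  have hpi := Real.pi_pos
  have hf := ρf_mem ty
  have h3 : ϱw ty |x| ≤ AA ty (4 / 10) := (ϱw_mono ty h).trans_eq (ϱw_large ty le_rfl)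
  have h4 : ramp (ρn (4 / 10) - ρf ty) = ρn (4 / 10) - ρf ty :=
    ramp_of_ge (by unfold ρn; linarith [hf.2])
  rw [AA, h4, h2] at h3
  set θ0 := π * (1 / 100 + (ρn (4 / 10) - ρf ty) / 100) with hθ0
  have hr : ρn (4 / 10) = 44 / 10 := by unfold ρn; norm_num
  have h5 : π * (4 / 100) ≤ θ0 := by rw [hθ0, hr]; nlinarith [hf.2]
  have h6 : θ0 < π / 2 := by rw [hθ0, hr]; nlinarith [hf.1]
  have h7 : θ0 ≤ θ := by
    by_contra hlt
    have hlt := not_le.1 hlt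
    have t1 := Real.tan_lt_tan_of_nonneg_of_lt_pi_div_two h0.le h6 hlt
    have t2 : 0 < Real.tan θ := Real.tan_pos_of_pos_of_lt_pi_div_two h0 h1
    have := one_div_lt_one_div_of_lt t2 t1
    linarith
  rw [WZoneD_yw_real' ty h0 h1 h2, abs_mul]
  have : |(if 0 < x then 1 else -1 : ℝ)| = 1 := by split_ifs <;> simp
  rw [this, one_mul, abs_of_pos (by positivity), le_div_iff₀ hpi]
  linarith

theorem yw_real_sign (ty : Bool) (x : ℝ) : 0 < yw ty (x : ℂ) ↔ 0 < x := by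
  rcases eq_or_ne x 0 with rfl | hx
  · rw [WZoneD_yw_zero]; norm_num
  obtain ⟨θ, h0, h1, h2⟩ := WZoneD_theta ty hx
  have hp : 0 < θ / π := div_pos h0 Real.pi_pos
  rw [WZoneD_yw_real' ty h0 h1 h2]
  split_ifs with h
  · simp [h, hp]
  · simp only [h, iff_false, not_lt]; linarith

theorem WZoneD_abs_arctan (s : ℝ) : |Real.arctan s| = Real.arctan |s| := by
  rcases le_total 0 s with h | h
  · rw [abs_of_nonneg h, abs_of_nonneg (Real.arctan_nonneg.2 h)]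
  · rw [abs_of_nonpos h, abs_of_nonpos (Real.arctan_le_zero.2 h), Real.arctan_neg]

theorem WZoneD_abs_y0 (ty : Bool) {ξ : ℂ} (h : 1 < ‖ξt ty ξ‖) :
    2 * π * |y0 ty ξ| = Real.arctan (2 * |(ξt ty ξ).re| / (‖ξt ty ξ‖ ^ 2 - 1)) := by
  have hR : 0 < ‖ξt ty ξ‖ ^ 2 - 1 := by nlinarith
  have := congrArg abs (WZoneD_y0 ty h)
  rwa [abs_mul, abs_of_pos (by positivity : 0 < 2 * π), WZoneD_abs_arctan, abs_div, abs_mul,
    abs_of_pos hR, abs_two] at this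

theorem abs_yw_sat (ty : Bool) {ξ : ℂ} (h : ρ0 ξ ≤ ρf ty + 2 / 100) : |yw ty ξ| < 1 / 50 := by
  have hb := WZoneD_big ty h
  have h1 := WZoneD_abs_y0 ty (by linarith : 1 < ‖ξt ty ξ‖)
  have hR : 0 < ‖ξt ty ξ‖ ^ 2 - 1 := by nlinarith
  have h2 : 2 * |(ξt ty ξ).re| / (‖ξt ty ξ‖ ^ 2 - 1) ≤ 7 / 100 := by
    rw [div_le_iff₀ hR]
    nlinarith [Complex.abs_re_le_norm (ξt ty ξ)]
  have h3 : Real.arctan (7 / 100) ≤ 7 / 100 := by
    have := Real.le_tan (Real.arctan_nonneg.2 (by norm_num : (0 : ℝ) ≤ 7 / 100))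
      (Real.arctan_lt_pi_div_two _)
    rwa [Real.tan_arctan] at this
  have h4 : 2 * π * |y0 ty ξ| ≤ 7 / 100 := h1 ▸ (Real.arctan_mono h2).trans h3
  have hpi := Real.pi_gt_three
  have h5 : |y0 ty ξ| ≤ 7 / 600 := by nlinarith [abs_nonneg (y0 ty ξ)]
  have h6 : |cu (uw ty ξ) * Real.sin (2 * π * y0 ty ξ) / (2 * π)| ≤ 1 / 10 * |y0 ty ξ| := by
    have hu := uw_small ty h
    have hs : |Real.sin (2 * π * y0 ty ξ)| ≤ 2 * π * |y0 ty ξ| := by
      have := Real.abs_sin_le_abs (x := 2 * π * y0 ty ξ)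
      rwa [abs_mul, abs_of_pos (by positivity : 0 < 2 * π)] at this
    rw [WZoneD_cu ty h, abs_div, abs_mul, abs_div, abs_of_pos (by positivity : 0 < 2 * π),
      div_le_iff₀ (by positivity), abs_two]
    nlinarith [abs_nonneg (uw ty ξ), abs_nonneg (Real.sin (2 * π * y0 ty ξ))]
  have h7 := abs_sub (y0 ty ξ) (cu (uw ty ξ) * Real.sin (2 * π * y0 ty ξ) / (2 * π))
  unfold yw
  linarith

theorem WZoneD_sat (ty : Bool) {ξ : ℂ} (h : ρ0 ξ ≤ ρf ty) :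
    ‖ξt ty ξ‖ = 1 / Real.tan (π / 100) := by
  rw [norm_ξt]; exact ϱw_sat ty h

theorem WZoneD_top (ty : Bool) {ξ : ℂ} (h : ρ0 ξ ≤ ρf ty) :
    Real.arctan (2 * ‖ξt ty ξ‖ / (‖ξt ty ξ‖ ^ 2 - 1)) = 2 * π * (1 / 100) := by
  have hb := WZoneD_big ty (ξ := ξ) (by linarith)
  have hpi := Real.pi_pos
  have ht : 0 < Real.tan (π / 100) :=
    Real.tan_pos_of_pos_of_lt_pi_div_two (by positivity) (by linarith)
  have hR : 0 < ‖ξt ty ξ‖ ^ 2 - 1 := by nlinarith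
  rw [WZoneD_sat ty h] at hR ⊢
  have h1 : 1 - Real.tan (π / 100) ^ 2 ≠ 0 := by
    intro h0
    rw [div_pow, one_pow, show Real.tan (π / 100) ^ 2 = 1 by linarith] at hR
    norm_num at hR
  rw [← Real.arctan_tan (x := 2 * π * (1 / 100)) (by linarith) (by linarith),
    show 2 * π * (1 / 100) = 2 * (π / 100) by ring, Real.tan_two_mul]
  congr 1
  field_simp

theorem WZoneD_abs_y0_le (ty : Bool) {ξ : ℂ} (h : ρ0 ξ ≤ ρf ty) : |y0 ty ξ| ≤ 1 / 100 := by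
  have hb := WZoneD_big ty (ξ := ξ) (by linarith)
  have hR : 0 < ‖ξt ty ξ‖ ^ 2 - 1 := by nlinarith
  have h1 := WZoneD_abs_y0 ty (by linarith : 1 < ‖ξt ty ξ‖)
  have h2 : 2 * |(ξt ty ξ).re| / (‖ξt ty ξ‖ ^ 2 - 1) ≤ 2 * ‖ξt ty ξ‖ / (‖ξt ty ξ‖ ^ 2 - 1) := by
    gcongr
    exact Complex.abs_re_le_norm _
  have h3 := Real.arctan_mono h2
  rw [← h1, WZoneD_top ty h] at h3
  exact le_of_mul_le_mul_left h3 (by positivity)

theorem abs_yw_sat_le (ty : Bool) {ξ : ℂ} (h0 : 0 ≤ ξ.im) (h : ρ0 ξ ≤ ρf ty) :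
    |yw ty ξ| ≤ 1 / 100 := (abs_yw_le ty h0).trans (WZoneD_abs_y0_le ty h)

theorem WZoneD_im (ty : Bool) (ξ : ℂ) : (ξt ty ξ).im = γn ty (nn ξ) * ξ.im := by simp [ξt]

theorem abs_yw_sat_eq (ty : Bool) {ξ : ℂ} (h0 : 0 ≤ ξ.im) (h : ρ0 ξ ≤ ρf ty)
    (he : |yw ty ξ| = 1 / 100) : ξ.im = 0 := by
  have hb := WZoneD_big ty (ξ := ξ) (by linarith)
  have hR : 0 < ‖ξt ty ξ‖ ^ 2 - 1 := by nlinarith
  have h1 := WZoneD_abs_y0 ty (by linarith : 1 < ‖ξt ty ξ‖)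
  have h2 : |y0 ty ξ| = 1 / 100 :=
    le_antisymm (WZoneD_abs_y0_le ty h) (he ▸ abs_yw_le ty h0)
  rw [h2, ← WZoneD_top ty h] at h1
  have h3 := Real.arctan_injective h1
  rw [div_left_inj' hR.ne'] at h3
  have h4 := WZoneD_sq (ξt ty ξ)
  have h5 : |(ξt ty ξ).re| = ‖ξt ty ξ‖ := by linarith
  rw [← h5, sq_abs] at h4
  have h6 : (ξt ty ξ).im = 0 := by
    have : (ξt ty ξ).im ^ 2 = 0 := by linarith
    exact pow_eq_zero_iff (two_ne_zero) |>.1 this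
  rw [WZoneD_im] at h6
  exact (mul_eq_zero.1 h6).resolve_left (WZoneD_γ ty ξ).ne'

theorem WZoneD_sin_nonneg {s : ℝ} (h : 0 ≤ s) : 0 ≤ Real.sin (Real.arctan s) := by
  rw [Real.sin_arctan]; positivity

theorem WZoneD_sin_nonpos {s : ℝ} (h : s ≤ 0) : Real.sin (Real.arctan s) ≤ 0 := by
  have := WZoneD_sin_nonneg (neg_nonneg.2 h)
  rw [Real.arctan_neg, Real.sin_neg] at this
  linarith

/-- Strict monotonicity in the real part on a saturated half circle. -/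
theorem WZoneD_lt (ty : Bool) {ξ ξ' : ℂ} (h0 : 0 ≤ ξ.im) (h0' : 0 ≤ ξ'.im) (h : ρ0 ξ ≤ ρf ty)
    (h' : ρ0 ξ' ≤ ρf ty) (hlt : (ξt ty ξ').re < (ξt ty ξ).re) : yw ty ξ' < yw ty ξ := by
  have hb := WZoneD_big ty (ξ := ξ) (by linarith)
  have hb' := WZoneD_big ty (ξ := ξ') (by linarith)
  have hn : ‖ξt ty ξ'‖ = ‖ξt ty ξ‖ := by rw [WZoneD_sat ty h, WZoneD_sat ty h']
  have hR : 0 < ‖ξt ty ξ‖ ^ 2 - 1 := by nlinarith
  have hy := WZoneD_y0 ty (by linarith : 1 < ‖ξt ty ξ‖)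
  have hy' := WZoneD_y0 ty (by linarith : 1 < ‖ξt ty ξ'‖)
  have hu := WZoneD_uw ty (by linarith : 1 < ‖ξt ty ξ‖)
  have hu' := WZoneD_uw ty (by linarith : 1 < ‖ξt ty ξ'‖)
  have hq := WZoneD_sq (ξt ty ξ)
  have hq' := WZoneD_sq (ξt ty ξ')
  rw [hn] at hy' hu' hq'
  have hb0 : 0 ≤ (ξt ty ξ).im := by rw [WZoneD_im]; exact mul_nonneg (WZoneD_γ ty ξ).le h0
  have hb0' : 0 ≤ (ξt ty ξ').im := by rw [WZoneD_im]; exact mul_nonneg (WZoneD_γ ty ξ').le h0'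
  have hc := cu_mem (uw_mem ty h0).1
  have hc' := cu_mem (uw_mem ty h0').1
  have hm := corr_strictMono (c := cu (uw ty ξ)) (by rw [abs_of_nonneg hc.1]; linarith [hc.2])
  have hm' := corr_strictMono (c := cu (uw ty ξ')) (by rw [abs_of_nonneg hc'.1]; linarith [hc'.2])
  have hpi : 0 < 2 * π := by positivity
  have hyy : y0 ty ξ' < y0 ty ξ := by
    apply lt_of_mul_lt_mul_left _ hpi.le
    rw [hy, hy']
    apply Real.arctan_strictMono
    gcongr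
  have mono : ∀ b b' : ℝ, 0 ≤ b → b ≤ b' → 4 * b / (‖ξt ty ξ‖ ^ 2 + 2 * b + 1) ≤
      4 * b' / (‖ξt ty ξ‖ ^ 2 + 2 * b' + 1) := by
    intro b b' h1 h2
    rw [div_le_div_iff₀ (by positivity) (by linarith)]
    nlinarith
  have e := WZoneD_cu ty (ξ := ξ) (by linarith)
  have e' := WZoneD_cu ty (ξ := ξ') (by linarith)
  unfold yw
  rcases le_or_gt 0 (ξt ty ξ').re with ha' | ha'
  · have h1 : (ξt ty ξ).im ≤ (ξt ty ξ').im := by
      by_contra hh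
      have hh := not_le.1 hh
      nlinarith
    have h2 : cu (uw ty ξ) ≤ cu (uw ty ξ') := by
      rw [e, e', hu, hu']; linarith [mono _ _ hb0 h1]
    have h3 : 0 ≤ Real.sin (2 * π * y0 ty ξ') := by
      rw [hy']; exact WZoneD_sin_nonneg (by positivity)
    have h4 := hm hyy
    have h5 : cu (uw ty ξ) * Real.sin (2 * π * y0 ty ξ') / (2 * π) ≤
        cu (uw ty ξ') * Real.sin (2 * π * y0 ty ξ') / (2 * π) := by gcongr
    simp only at h4
    linarith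
  rcases le_or_gt (ξt ty ξ).re 0 with ha | ha
  · have h1 : (ξt ty ξ').im ≤ (ξt ty ξ).im := by
      by_contra hh
      have hh := not_le.1 hh
      nlinarith
    have h2 : cu (uw ty ξ') ≤ cu (uw ty ξ) := by
      rw [e, e', hu, hu']; linarith [mono _ _ hb0' h1]
    have h3 : Real.sin (2 * π * y0 ty ξ) ≤ 0 := by
      rw [hy]
      exact WZoneD_sin_nonpos (div_nonpos_of_nonpos_of_nonneg (by linarith) hR.le)
    have h4 := hm' hyy
    have h5 : cu (uw ty ξ) * Real.sin (2 * π * y0 ty ξ) / (2 * π) ≤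
        cu (uw ty ξ') * Real.sin (2 * π * y0 ty ξ) / (2 * π) :=
      div_le_div_of_nonneg_right (mul_le_mul_of_nonpos_right h2 h3) hpi.le
    simp only at h4
    linarith
  · have h1 : 0 < y0 ty ξ := by
      apply lt_of_mul_lt_mul_left _ hpi.le
      rw [hy, mul_zero]
      exact Real.arctan_pos.2 (by positivity)
    have h2 : y0 ty ξ' < 0 := by
      apply lt_of_mul_lt_mul_left _ hpi.le
      rw [hy', mul_zero]
      exact Real.arctan_lt_zero.2 (div_neg_of_neg_of_pos (by linarith) hR)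
    have h3 := hm h1
    have h4 := hm' h2
    simp only [mul_zero, Real.sin_zero, zero_div, sub_zero] at h3 h4
    linarith

theorem yw_sat_inj (ty : Bool) {ξ ξ' : ℂ} (h0 : 0 ≤ ξ.im) (h0' : 0 ≤ ξ'.im) (h : ρ0 ξ ≤ ρf ty)
    (h' : ρ0 ξ' ≤ ρf ty) (he : yw ty ξ = yw ty ξ') : (‖ξ'‖ : ℂ) * ξ = (‖ξ‖ : ℂ) * ξ' := by
  have hn : ‖ξt ty ξ'‖ = ‖ξt ty ξ‖ := by rw [WZoneD_sat ty h, WZoneD_sat ty h']
  have hre : (ξt ty ξ).re = (ξt ty ξ').re := by
    rcases lt_trichotomy (ξt ty ξ).re (ξt ty ξ').re with h1 | h1 | h1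
    · exact absurd he (WZoneD_lt ty h0' h0 h' h h1).ne
    · exact h1
    · exact absurd he (WZoneD_lt ty h0 h0' h h' h1).ne'
  have hb0 : 0 ≤ (ξt ty ξ).im := by rw [WZoneD_im]; exact mul_nonneg (WZoneD_γ ty ξ).le h0
  have hb0' : 0 ≤ (ξt ty ξ').im := by rw [WZoneD_im]; exact mul_nonneg (WZoneD_γ ty ξ').le h0'
  have him : (ξt ty ξ).im = (ξt ty ξ').im := by
    have hq := WZoneD_sq (ξt ty ξ)
    have hq' := WZoneD_sq (ξt ty ξ')
    rw [hn, ← hre] at hq'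
    exact (pow_left_inj₀ hb0 hb0' two_ne_zero).1 (by linarith)
  have hz : (γn ty (nn ξ) : ℂ) * ξ = (γn ty (nn ξ') : ℂ) * ξ' := Complex.ext hre him
  have hN : γn ty (nn ξ) * ‖ξ‖ = γn ty (nn ξ') * ‖ξ'‖ := by
    have := congrArg norm hz
    rwa [norm_mul, norm_mul, Complex.norm_real, Complex.norm_real,
      Real.norm_of_nonneg (WZoneD_γ ty ξ).le, Real.norm_of_nonneg (WZoneD_γ ty ξ').le] at this
  have hN' : (γn ty (nn ξ) : ℂ) * ‖ξ‖ = γn ty (nn ξ') * ‖ξ'‖ := by exact_mod_cast hN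
  have hg : (γn ty (nn ξ) : ℂ) ≠ 0 := by exact_mod_cast (WZoneD_γ ty ξ).ne'
  apply mul_left_cancel₀ hg
  linear_combination (‖ξ'‖ : ℂ) * hz - ξ' * hN'

theorem fderiv_yw_radial (ty : Bool) {ξ : ℂ} (h : ρ0 ξ ≤ ρf ty) :
    fderiv ℝ (yw ty) ξ ξ = 0 := by
  by_cases hd : DifferentiableAt ℝ (yw ty) ξ
  swap
  · rw [fderiv_zero_of_not_differentiableAt hd]; rfl
  have h1 : HasDerivAt (fun t : ℝ => ξ + t • ξ) ξ 0 := by
    simpa using ((hasDerivAt_id (0 : ℝ)).smul_const ξ).const_add ξ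
  have h2 : HasDerivAt (fun t : ℝ => yw ty (ξ + t • ξ)) (fderiv ℝ (yw ty) ξ ξ) 0 :=
    HasFDerivAt.comp_hasDerivAt_of_eq (0 : ℝ) hd.hasFDerivAt h1 (by simp)
  have h3 : ∀ t ∈ Ici (0 : ℝ), yw ty (ξ + t • ξ) = yw ty ξ := by
    intro t ht
    have ht : 0 ≤ t := ht
    have e : ξ + t • ξ = ((1 + t : ℝ) : ℂ) * ξ := by simp [add_mul]
    have hn : ‖ξ + t • ξ‖ = (1 + t) * ‖ξ‖ := by
      rw [e, norm_mul, Complex.norm_real, Real.norm_of_nonneg (by linarith)]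
    have hle : ρ0 (ξ + t • ξ) ≤ ρf ty :=
      (ρ0_anti (by rw [hn]; nlinarith [norm_nonneg ξ])).trans h
    have hω : ωw ty (ξ + t • ξ) = ωw ty ξ :=
      ωw_congr ty hle h (by rw [hn, e]; push_cast; ring)
    simp only [yw, y0, uw, hω]
  have h4 : HasDerivWithinAt (fun t : ℝ => yw ty (ξ + t • ξ)) 0 (Ici 0) 0 :=
    (hasDerivWithinAt_const (0 : ℝ) (Ici 0) (yw ty ξ)).congr h3 (h3 0 self_mem_Ici)
  exact (uniqueDiffWithinAt_Ici (0 : ℝ)).eq_deriv _ h2.hasDerivWithinAt h4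

theorem fderiv_yw_angular (ty : Bool) {ξ : ℂ} (h0 : 0 ≤ ξ.im) (h : ρ0 ξ ≤ ρf ty + 2 / 100) :
    fderiv ℝ (yw ty) ξ (Complex.I * ξ) < 0 := by
  have hb := WZoneD_big ty h
  have hd : DifferentiableAt ℝ (yw ty) ξ :=
    (yw_contDiffAt ty (Half_ne h0) (Or.inl (ωw_re_pos ty (by linarith)))).differentiableAt
      (by simp)
  have h1 : HasDerivAt (fun t : ℝ => circ t * ξ) (Complex.I * ξ) 0 := by
    simpa [circ_zero] using (circ_hasDerivAt 0).mul_const ξ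
  have h2 : HasDerivAt (fun t : ℝ => yw ty (circ t * ξ))
      (fderiv ℝ (yw ty) ξ (Complex.I * ξ)) 0 :=
    HasFDerivAt.comp_hasDerivAt_of_eq (0 : ℝ) hd.hasFDerivAt h1 (by simp [circ_zero])
  have hb0 : 0 ≤ (ξt ty ξ).im := by rw [WZoneD_im]; exact mul_nonneg (WZoneD_γ ty ξ).le h0
  have hq := WZoneD_sq (ξt ty ξ)
  have hu := WZoneD_uw ty (by linarith : 1 < ‖ξt ty ξ‖)
  have hus := (abs_lt.1 (uw_small ty h)).2
  have h3 : ∀ t : ℝ, yw ty (circ t * ξ) =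
      Real.arctan (2 * ((ξt ty ξ).re * Real.cos t - (ξt ty ξ).im * Real.sin t) /
        (‖ξt ty ξ‖ ^ 2 - 1)) / (2 * π) -
      4 * ((ξt ty ξ).im * Real.cos t + (ξt ty ξ).re * Real.sin t) /
        (‖ξt ty ξ‖ ^ 2 + 2 * ((ξt ty ξ).im * Real.cos t + (ξt ty ξ).re * Real.sin t) + 1) / 2 *
      Real.sin (Real.arctan (2 * ((ξt ty ξ).re * Real.cos t - (ξt ty ξ).im * Real.sin t) /
        (‖ξt ty ξ‖ ^ 2 - 1))) / (2 * π) := by
    intro t
    have hn : ‖circ t * ξ‖ = ‖ξ‖ := by rw [norm_mul, norm_circ, one_mul]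
    have hz : ξt ty (circ t * ξ) = circ t * ξt ty ξ := by
      simp only [ξt, nn, hn]; ring
    have hn' : ‖ξt ty (circ t * ξ)‖ = ‖ξt ty ξ‖ := by rw [hz, norm_mul, norm_circ, one_mul]
    have hρ : ρ0 (circ t * ξ) ≤ ρf ty + 2 / 100 := by simpa only [ρ0, nn, hn] using h
    have hre : (ξt ty (circ t * ξ)).re =
        (ξt ty ξ).re * Real.cos t - (ξt ty ξ).im * Real.sin t := by
      rw [hz, Complex.mul_re, circ_re, circ_im]; ring
    have him : (ξt ty (circ t * ξ)).im =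
        (ξt ty ξ).im * Real.cos t + (ξt ty ξ).re * Real.sin t := by
      rw [hz, Complex.mul_im, circ_re, circ_im]; ring
    have hy := WZoneD_y0 ty (ξ := circ t * ξ) (by linarith)
    have hu := WZoneD_uw ty (ξ := circ t * ξ) (by linarith)
    rw [hn', hre] at hy
    rw [hn', him] at hu
    rw [yw, WZoneD_cu ty hρ, hu, hy, ← hy]
    congr 1
    field_simp
  simp only [h3] at h2
  generalize (ξt ty ξ).re = a at *
  generalize (ξt ty ξ).im = b at *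
  generalize ‖ξt ty ξ‖ = R at *
  have hR : 0 < R ^ 2 - 1 := by nlinarith
  have hD : 0 < R ^ 2 + 2 * b + 1 := by positivity
  have ha : HasDerivAt (fun t : ℝ => a * Real.cos t - b * Real.sin t) (-b) 0 := by
    exact (((Real.hasDerivAt_cos 0).const_mul a).fun_sub
      ((Real.hasDerivAt_sin 0).const_mul b)).congr_deriv (by simp)
  have hb' : HasDerivAt (fun t : ℝ => b * Real.cos t + a * Real.sin t) a 0 := by
    exact (((Real.hasDerivAt_cos 0).const_mul b).fun_add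
      ((Real.hasDerivAt_sin 0).const_mul a)).congr_deriv (by simp)
  have hA := ((ha.const_mul 2).div_const (R ^ 2 - 1)).arctan
  have hU := ((hb'.const_mul 4).div (((hb'.const_mul 2).const_add (R ^ 2)).add_const 1)
    (by simpa using hD.ne')).div_const 2
  have hT := (hA.div_const (2 * π)).sub ((hU.mul hA.sin).div_const (2 * π))
  have := h2.unique hT
  rw [this]
  simp only [Real.cos_zero, Real.sin_zero, mul_one, mul_zero, sub_zero, add_zero, Pi.div_apply]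
  rw [← hu, ← sub_div]
  apply div_neg_of_neg_of_pos _ (by positivity)
  set s := 2 * a / (R ^ 2 - 1) with hs
  set p := 1 / (1 + s ^ 2) * (2 * -b / (R ^ 2 - 1)) with hp
  have hw : (4 * a * (R ^ 2 + 2 * b + 1) - 4 * b * (2 * a)) / (R ^ 2 + 2 * b + 1) ^ 2 / 2 *
      Real.sin (Real.arctan s) =
      (4 * (R ^ 2 + 1) / (R ^ 2 + 2 * b + 1) ^ 2 / (R ^ 2 - 1) / √(1 + s ^ 2)) * a ^ 2 := by
    rw [Real.sin_arctan, hs]
    field_simp
    ring
  rw [hw]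
  have hk : 0 < 4 * (R ^ 2 + 1) / (R ^ 2 + 2 * b + 1) ^ 2 / (R ^ 2 - 1) / √(1 + s ^ 2) := by
    positivity
  have hu0 : 0 ≤ uw ty ξ := (uw_mem ty h0).1
  have hc : 0 < 1 - uw ty ξ / 2 * Real.cos (Real.arctan s) := by
    nlinarith [Real.cos_le_one (Real.arctan s)]
  have hp' : p = -(2 / (1 + s ^ 2) / (R ^ 2 - 1) * b) := by rw [hp]; ring
  have hk' : 0 < 2 / (1 + s ^ 2) / (R ^ 2 - 1) := by positivity
  rcases hb0.eq_or_lt with hb1 | hb1
  · have ha2 : 0 < a ^ 2 := by rw [← hb1] at hq; nlinarith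
    have hp0 : p = 0 := by rw [hp', ← hb1]; ring
    rw [hp0]
    nlinarith [mul_pos hk ha2]
  · have hp0 : p < 0 := by rw [hp']; linarith [mul_pos hk' hb1]
    nlinarith [mul_nonneg hk.le (sq_nonneg a), mul_pos (neg_pos.2 hp0) hc]

theorem circ_yw (ty : Bool) {ξ : ℂ} (h : 3 / 10 ≤ uw ty ξ) :
    (‖ωw ty ξ‖ : ℂ) * circ (2 * π * (3 / 10 + yw ty ξ)) =
      circ (6 / 10 * π) * (starRingEnd ℂ) (ωw ty ξ) := by
  have h1 : yw ty ξ = y0 ty ξ := by simp [yw, cu_large h]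
  have h2 : (starRingEnd ℂ) (ωw ty ξ) = (‖ωw ty ξ‖ : ℂ) * circ (2 * π * y0 ty ξ) := by
    conv_lhs => rw [ωw_polar]
    rw [map_mul, Complex.conj_ofReal, ← circ_neg, neg_neg]
  rw [h1, h2, show 2 * π * (3 / 10 + y0 ty ξ) = 6 / 10 * π + 2 * π * y0 ty ξ by ring, circ_add]
  ring

end Pool.Agent.Lib.MP_1d0d1b_gt
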