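import Pool.Agent.Lib.MP_1d0d1b_gt.WZoneD

open Set Function Filter Topology
open scoped ContDiff Real

noncomputable section

namespace Pool.Agent.Lib.MP_1d0d1b_gt

theorem bW_smooth : ContDiff ℝ ∞ bW :=
  (step_contDiff _ _).comp ((contDiff_id.add contDiff_const).norm_sq ℝ)
theorem bW_eq_one {ξ : ℂ} (h : 1 / 20 ≤ ‖ξ + Complex.I / 10‖) : bW ξ = 1 :=
  step_of_ge (by norm_num) (by nlinarith)
theorem bW_eventually {ξ₀ : ℂ} (h : 0 ≤ ξ₀.im) : ∀ᶠ ξ in 𝓝 ξ₀, bW ξ = 1 := by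
  have h1 : 1 / 20 < ‖ξ₀ + Complex.I / 10‖ := by
    have h2 := Complex.im_le_norm (ξ₀ + Complex.I / 10)
    have h3 : (ξ₀ + Complex.I / 10).im = ξ₀.im + 1 / 10 := by simp
    linarith
  have h4 : ContinuousAt (fun ξ : ℂ => ‖ξ + Complex.I / 10‖) ξ₀ := by fun_prop
  exact (h4.eventually (lt_mem_nhds h1)).mono fun ξ hξ => bW_eq_one hξ.le

/-- The formula in the outer zone. -/
theorem Wf_outer (a : Rt) (Xk : ℝ → ℝ) {ρe : ℝ} (hρ : ρe + 1 / 100 ≤ ρb a.2 - 2 / 100) {ξ : ℂ}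
    (h : 799 / 1000 ≤ ‖ξ‖) (l₁ l₂ : ℝ) :
    Wf a Xk ρe ξ l₁ l₂ =
      (Φa a (step (ρb a.2) (ρa a.2) (ρ0 ξ) * S1 l₁ +
          (1 - step (ρb a.2) (ρa a.2) (ρ0 ξ)) * (Xk (yw a.2 ξ) + l₂))
        (3 / 10 + yw a.2 ξ) (-1 / 4 - sg a.2 * ρ1 a.2 ρe ξ),
      1 - cT a.2 * χh (-1 / 4 - sg a.2 * ρ1 a.2 ρe ξ) +
        step (4 / 10) (ρf a.2 + 2 / 100) (ρ0 ξ) * uw a.2 ξ) := by
  have e0 := ρ0_eq (ξ := ξ) (by linarith)
  have f := (ρf_mem a.2).1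
  have g := ρab a.2
  have hb : bW ξ = 1 := by
    refine bW_eq_one ?_
    have h1 := norm_sub_le (ξ + Complex.I / 10) (Complex.I / 10)
    have h2 : ‖Complex.I / 10‖ = 1 / 10 := by simp
    rw [add_sub_cancel_right, h2] at h1
    linarith
  have hu := (abs_lt.1 (uw_small a.2 (ξ := ξ) (by linarith))).2
  have h1 : ρ1 a.2 ρe ξ ≤ 41 / 100 := by
    rcases le_or_gt (ρb a.2) (ρ0 ξ) with c | c
    · rw [ρ1_eq ρe c]
      linarith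
    · have := ρ1_lt_of_lt hρ le_rfl c
      linarith
  have s1 : step (55 / 100) (65 / 100) (uw a.2 ξ) = 0 := step_of_le (by norm_num) (by linarith)
  have s2 : νR (ρ1 a.2 ρe ξ) = 0 := by rw [νR, step_of_le (by norm_num) h1, zero_mul]
  have s3 : νκ (ρ1 a.2 ρe ξ) = 1 := by rw [νκ, step_of_le (by norm_num) (by linarith), sub_zero]
  have s4 : ϑw a ρe ξ = 0 := by rw [ϑw, step_of_le (by norm_num) (by linarith), mul_zero]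
  have s5 : Zw a ρe ξ l₁ = (l₁ : ℂ) - Complex.I * ((sg a.2 * ρ1 a.2 ρe ξ : ℝ) : ℂ) := by
    rw [Zw, s2, s4, zero_mul, circ_zero]
    push_cast
    ring
  have s6 : (Zw a ρe ξ l₁).re = l₁ := by
    rw [s5]
    simp
  have s7 : (Zw a ρe ξ l₁).im = -(sg a.2 * ρ1 a.2 ρe ξ) := by
    rw [s5]
    simp
  have s8 : Xw a Xk ρe ξ l₁ l₂ = step (ρb a.2) (ρa a.2) (ρ0 ξ) * S1 l₁ +
      (1 - step (ρb a.2) (ρa a.2) (ρ0 ξ)) * (Xk (yw a.2 ξ) + l₂) := by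
    rw [Xw, s3, s6]
    ring
  have s9 : hw a ρe ξ l₁ = -1 / 4 - sg a.2 * ρ1 a.2 ρe ξ := by
    rw [hw, s3, s7]
    ring
  rw [Wf, hb, s1, s8, s9, one_smul, sub_zero, one_smul, zero_smul, add_zero, Tw]

/-- In the core range the formula does not depend on the target. -/
theorem Wf_congr (a : Rt) (Xk Xk' : ℝ → ℝ) (ρe ρe' : ℝ) {ξ : ℂ} (h : ‖ξ‖ ≤ 803 / 1000)
    (l₁ l₂ l₂' : ℝ) : Wf a Xk ρe ξ l₁ l₂ = Wf a Xk' ρe' ξ l₁ l₂' := by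
  have g := ρab a.2
  have h0 : 37 / 100 ≤ ρ0 ξ := by
    have h1 := nr_mono h
    rw [nr_eq (r := 803 / 1000) (by norm_num)] at h1
    simp only [ρ0, ρn, nn]
    linarith
  have e1 : ρ1 a.2 ρe ξ = ρ1 a.2 ρe' ξ := by
    rw [ρ1_eq ρe (by linarith), ρ1_eq ρe' (by linarith)]
  have e2 : step (ρb a.2) (ρa a.2) (ρ0 ξ) = 1 := step_of_ge g.2.1 (by linarith)
  simp only [Wf, Xw, hw, Tw, Zw, φw, ϑw, e1, e2, sub_self, zero_mul]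

theorem WV_agree (ε : ℝ) (a : Rt) (k : KV a) {ξ : ℂ} (h : ‖ξ‖ ≤ 803 / 1000) (l : ℝ) :
    WV ε a k (ξ, l) = Fcore a (ξ / ((4 / 5 : ℝ) : ℂ), ε * (k.1 : ℕ) + l) := by
  have e : (4 / 5 : ℂ) * (ξ / ((4 / 5 : ℝ) : ℂ)) = ξ := by
    push_cast
    field_simp
  simp only [WV, Fcore, e]
  exact Wf_congr a _ _ _ _ h _ _ _

end Pool.Agent.Lib.MP_1d0d1b_gt
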