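import Pool.Agent.Lib.MP_1d0d1b_gt.Prof
import Pool.Agent.Lib.MP_1d0d1b_gt.Polar

open Set Function Filter Topology
open scoped ContDiff Real

noncomputable section

namespace Pool.Agent.Lib.MP_1d0d1b_gt

theorem sg_cases (ty : Bool) : sg ty = 1 ∨ sg ty = -1 := by cases ty <;> simp [sg]
theorem ςj_cases (j : Fin 2) : ςj j = 1 ∨ ςj j = -1 := by
  unfold ςj
  split_ifs <;> simp
theorem ρf_mem (ty : Bool) : ρf ty ∈ Icc (65 / 100 : ℝ) (115 / 100) := by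
  cases ty <;> norm_num [ρf, sg]
theorem ρab (ty : Bool) : 0 ≤ ρb ty ∧ ρb ty < ρa ty ∧ ρa ty ≤ 36 / 100 := by
  cases ty <;> norm_num [ρa, ρb]
theorem ρV_le (ty : Bool) (k : Fin 4) : ρV ty k + 1 / 100 ≤ ρb ty - 2 / 100 := by
  unfold ρV ρb
  split_ifs <;> norm_num

private theorem ρb_le (ty : Bool) : ρb ty ≤ 28 / 100 := by cases ty <;> norm_num [ρb]

private theorem nr_smooth : ContDiff ℝ ∞ nr :=
  contDiff_const.add (ramp_contDiff.comp (contDiff_id.sub contDiff_const))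

theorem nn_smooth : ContDiff ℝ ∞ nn :=
  contDiff_comp_norm nr_smooth (ε := 1 / 5) (c := 1 / 5) (by norm_num) fun x hx => by
    rw [nr, ramp_of_nonpos (by linarith), add_zero]
theorem nr_ge (r : ℝ) : 1 / 5 ≤ nr r := le_add_of_nonneg_right (ramp_nonneg _)
theorem nr_eq {r : ℝ} (h : 21 / 100 ≤ r) : nr r = r := by
  rw [nr, ramp_of_ge (by linarith)]
  ring
theorem nr_mono : Monotone nr := fun a b h => by
  have := ramp_mono (sub_le_sub_right h (1 / 5))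
  unfold nr
  linarith
theorem nr_le {r : ℝ} (h : r ≤ 21 / 100) : nr r ≤ 21 / 100 :=
  (nr_mono h).trans_eq (nr_eq le_rfl)
theorem ρ0_smooth : ContDiff ℝ ∞ ρ0 :=
  contDiff_const.sub (contDiff_const.mul nn_smooth)
theorem ρ0_eq {ξ : ℂ} (h : 21 / 100 ≤ ‖ξ‖) : ρ0 ξ = 84 / 10 - 10 * ‖ξ‖ := by
  rw [ρ0, ρn, nn, nr_eq h]
theorem norm_of_ρ0 {ξ : ℂ} (h : ρ0 ξ ≤ 6) : ρ0 ξ = 84 / 10 - 10 * ‖ξ‖ := by
  refine ρ0_eq (le_of_not_gt fun h1 => ?_)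
  have := nr_le h1.le
  rw [ρ0, ρn, nn] at h
  linarith
theorem ρ0_anti {ξ ξ' : ℂ} (h : ‖ξ‖ ≤ ‖ξ'‖) : ρ0 ξ' ≤ ρ0 ξ := by
  have := nr_mono h
  simp only [ρ0, ρn, nn]
  linarith

theorem ρ1_smooth (ty : Bool) (ρe : ℝ) : ContDiff ℝ ∞ (ρ1 ty ρe) := by
  have h := (step_contDiff (ρb ty - 2 / 100) (ρb ty)).comp ρ0_smooth
  exact (h.mul ρ0_smooth).add ((contDiff_const.sub h).mul
    (contDiff_const.add ((contDiff_const.sub nn_smooth).div_const _)))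
theorem ρ1_eq {ty : Bool} (ρe : ℝ) {ξ : ℂ} (h : ρb ty ≤ ρ0 ξ) : ρ1 ty ρe ξ = ρ0 ξ := by
  rw [ρ1, step_of_ge (by linarith) h]
  ring
theorem ρ1_one (ty : Bool) (ρe : ℝ) {ξ : ℂ} (h : ‖ξ‖ = 1) : ρ1 ty ρe ξ = ρe := by
  have h1 := ρ0_eq (ξ := ξ) (by rw [h]; norm_num)
  have h2 := (ρab ty).1
  rw [h] at h1
  rw [ρ1, step_of_le (by linarith) (by linarith), nn, h, nr_eq (by norm_num)]
  ring
theorem ρ1_strictAnti {ty : Bool} {ρe : ℝ} (hρ : ρe + 1 / 100 ≤ ρb ty - 2 / 100) {ξ ξ' : ℂ}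
    (h : 21 / 100 ≤ ‖ξ‖) (h' : ‖ξ‖ < ‖ξ'‖) : ρ1 ty ρe ξ' < ρ1 ty ρe ξ := by
  have hab : ρb ty - 2 / 100 < ρb ty := by linarith
  have hb := ρb_le ty
  have e1 := ρ0_eq h
  have e2 := ρ0_eq (h.trans h'.le)
  have m := step_mono hab (ρ0_anti h'.le)
  have p1 := step_nonneg (ρb ty - 2 / 100) (ρb ty) (ρ0 ξ')
  have p2 := step_le_one (ρb ty - 2 / 100) (ρb ty) (ρ0 ξ)
  have key : 0 ≤ (step (ρb ty - 2 / 100) (ρb ty) (ρ0 ξ) - step (ρb ty - 2 / 100) (ρb ty) (ρ0 ξ')) *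
      (ρ0 ξ - (ρe + (1 - ‖ξ'‖) / 20) - 1 / 2000) := by
    rcases le_or_gt (ρ0 ξ) (ρb ty - 2 / 100) with a | a
    · rw [step_of_le hab a, step_of_le hab (by linarith)]
      simp
    rcases le_or_gt (ρb ty) (ρ0 ξ') with c | c
    · rw [step_of_ge hab c, step_of_ge hab (by linarith)]
      simp
    exact mul_nonneg (sub_nonneg.2 m) (by linarith)
  simp only [ρ1, nn, nr_eq h, nr_eq (h.trans h'.le)]
  set σ := step (ρb ty - 2 / 100) (ρb ty) (ρ0 ξ)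
  set σ' := step (ρb ty - 2 / 100) (ρb ty) (ρ0 ξ')
  have d : 0 < ‖ξ'‖ - ‖ξ‖ := sub_pos.2 h'
  have q1 := mul_nonneg p1 d.le
  have q2 := mul_nonneg (sub_nonneg.2 p2) d.le
  rcases m.eq_or_lt with m | m
  · have q3 : σ' = σ := m
    rw [e1, e2]
    rw [q3] at q1 ⊢
    nlinarith
  · have q3 : σ' < σ := m
    rw [e1] at key
    rw [e1, e2]
    nlinarith
theorem ρ1_congr (ty : Bool) (ρe : ℝ) {ξ ξ' : ℂ} (h : ‖ξ‖ = ‖ξ'‖) :
    ρ1 ty ρe ξ = ρ1 ty ρe ξ' := by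
  simp only [ρ1, ρ0, nn, h]
theorem ρ1_lt_of_lt {ty : Bool} {ρe : ℝ} (hρ : ρe + 1 / 100 ≤ ρb ty - 2 / 100) {ξ : ℂ} {c : ℝ}
    (hc : ρb ty ≤ c) (h : ρ0 ξ < c) : ρ1 ty ρe ξ < c := by
  rcases le_or_gt (ρb ty) (ρ0 ξ) with a | a
  · rwa [ρ1_eq ρe a]
  have hb := ρb_le ty
  have p1 := step_nonneg (ρb ty - 2 / 100) (ρb ty) (ρ0 ξ)
  have p2 := step_le_one (ρb ty - 2 / 100) (ρb ty) (ρ0 ξ)
  have e1 : ρ0 ξ = 84 / 10 - 10 * nn ξ := rfl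
  have q0 : 0 < c - ρ0 ξ := by linarith
  have q1 : 0 < c - (ρe + (1 - nn ξ) / 20) := by linarith
  rw [ρ1]
  set σ := step (ρb ty - 2 / 100) (ρb ty) (ρ0 ξ)
  rcases p1.eq_or_lt with p | p
  · rw [← p]
    linarith
  · nlinarith [mul_pos p q0, mul_nonneg (sub_nonneg.2 p2) q1.le]

private theorem ρ1_hasFDerivAt (ty : Bool) (ρe : ℝ) (ξ : ℂ) :
    HasFDerivAt (ρ1 ty ρe) (fderiv ℝ (ρ1 ty ρe) ξ) ξ :=
  (((ρ1_smooth ty ρe).differentiable (by simp)) ξ).hasFDerivAt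

theorem fderiv_ρ1_radial {ty : Bool} {ρe : ℝ} (hρ : ρe + 1 / 100 ≤ ρb ty - 2 / 100) {ξ : ℂ}
    (h : 21 / 100 < ‖ξ‖) : fderiv ℝ (ρ1 ty ρe) ξ ξ < 0 := by
  have hab : ρb ty - 2 / 100 < ρb ty := by linarith
  have hb := ρb_le ty
  have c1 : HasDerivAt (fun t : ℝ => t • ξ) ξ 1 := by
    simpa using (hasDerivAt_id (1 : ℝ)).smul_const ξ
  have h1 : HasDerivAt (fun t : ℝ => ρ1 ty ρe (t • ξ)) (fderiv ℝ (ρ1 ty ρe) ξ ξ) 1 :=
    (ρ1_hasFDerivAt ty ρe ξ).comp_hasDerivAt_of_eq 1 c1 (one_smul _ _).symm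
  set r := ‖ξ‖ with hr
  have a1 : HasDerivAt (fun t : ℝ => 84 / 10 - 10 * (t * r)) (-(10 * r)) 1 := by
    simpa using (((hasDerivAt_id (1 : ℝ)).mul_const r).const_mul 10).const_sub (84 / 10)
  have a2 : HasDerivAt (fun t : ℝ => ρe + (1 - t * r) / 20) (-r / 20) 1 := by
    simpa using ((((hasDerivAt_id (1 : ℝ)).mul_const r).const_sub 1).div_const 20).const_add ρe
  have a3 := (step_hasDerivAt (ρb ty - 2 / 100) (ρb ty) (84 / 10 - 10 * (1 * r))).comp 1 a1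
  have h2 := (a3.mul a1).add ((a3.const_sub 1).mul a2)
  have ev : ∀ᶠ t : ℝ in 𝓝 1, 0 < t ∧ 21 / 100 < t * r := by
    refine (lt_mem_nhds one_pos).and ?_
    have : ContinuousAt (fun t : ℝ => t * r) 1 := by fun_prop
    exact this.eventually (lt_mem_nhds (by simpa using h))
  have h3 := h1.unique (h2.congr_of_eventuallyEq (by
    filter_upwards [ev] with t ht
    have n1 : ‖t • ξ‖ = t * r := by rw [norm_smul, Real.norm_eq_abs, abs_of_pos ht.1]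
    simp only [ρ1, ρ0, ρn, nn, n1, nr_eq ht.2.le, Pi.add_apply, Pi.mul_apply, comp_apply]))
  rw [h3]
  simp only [comp_apply, one_mul]
  have p1 := step_nonneg (ρb ty - 2 / 100) (ρb ty) (84 / 10 - 10 * r)
  have p2 := step_le_one (ρb ty - 2 / 100) (ρb ty) (84 / 10 - 10 * r)
  have key : 0 ≤ deriv (step (ρb ty - 2 / 100) (ρb ty)) (84 / 10 - 10 * r) *
      (84 / 10 - 10 * r - (ρe + (1 - r) / 20)) := by
    rcases le_or_gt (84 / 10 - 10 * r) (ρb ty - 2 / 100) with a | a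
    · rw [step_deriv_of_le hab a, zero_mul]
    rcases le_or_gt (ρb ty) (84 / 10 - 10 * r) with c | c
    · rw [step_deriv_of_ge hab c, zero_mul]
    exact mul_nonneg (step_deriv_nonneg hab _) (by linarith)
  have r0 : 0 < r := by linarith
  nlinarith [mul_nonneg key r0.le, mul_nonneg p1 r0.le]
theorem fderiv_ρ1_angular (ty : Bool) (ρe : ℝ) (ξ : ℂ) :
    fderiv ℝ (ρ1 ty ρe) ξ (Complex.I * ξ) = 0 := by
  have c1 : HasDerivAt (fun t : ℝ => circ t * ξ) (Complex.I * ξ) 0 := by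
    simpa [circ_zero] using (circ_hasDerivAt 0).mul_const ξ
  have h1 : HasDerivAt (fun t : ℝ => ρ1 ty ρe (circ t * ξ))
      (fderiv ℝ (ρ1 ty ρe) ξ (Complex.I * ξ)) 0 :=
    (ρ1_hasFDerivAt ty ρe ξ).comp_hasDerivAt_of_eq 0 c1 (by rw [circ_zero, one_mul])
  have h2 : (fun t : ℝ => ρ1 ty ρe (circ t * ξ)) = fun _ => ρ1 ty ρe ξ :=
    funext fun t => ρ1_congr ty ρe (by rw [norm_mul, norm_circ, one_mul])
  rw [h2] at h1
  exact h1.unique (hasDerivAt_const _ _)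

end Pool.Agent.Lib.MP_1d0d1b_gt
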